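import Mathlib
import Pool.Graph.R_pool_sql_team_seeded_63374d34.N792.RPar

/-!
The parameters for `C ≥ x^(2/3 + ε)`.
-/

set_option autoImplicit false

namespace Pool.Agent.H568

open Finset Filter Topology Pool.Agent.N792

/-- the sizes -/
lemma params10 (e ε c0 A : ℝ) (he : 0 < e) (he1 : e ≤ 1 / 100) (hε : 0 < ε) (hε1 : ε ≤ 1 / 100) (hc0 : 0 < c0) (hA : 1 ≤ A) :
    ∀ᶠ x : ℕ in atTop, ∃ U y Q V : ℕ, 1 ≤ U ∧ Q ≤ U ∧ U ≤ V ∧ V ≤ y ∧ (y : ℝ) ≤ (x : ℝ) ^ (1 - ε) ∧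
      (x : ℝ) ^ (1 - 2 * ε) ≤ y ∧ (x : ℝ) ^ (5 / 6 - e) ≤ U ∧ (U : ℝ) ≤ (x : ℝ) ^ (5 / 6 : ℝ) ∧
      (x : ℝ) ^ (1 / 3 : ℝ) ≤ Q ∧ (Q : ℝ) ≤ (x : ℝ) ^ (9 / 20 : ℝ) ∧ (V : ℝ) ≤ (x : ℝ) ^ (5 / 6 + 2 * e) ∧
      ((Q * Q : ℕ) : ℝ) ≤ (x : ℝ) ^ (9 / 10 : ℝ) ∧ ((y * y : ℕ) : ℝ) ≤ c0 * x ^ 2 ∧ A * (x : ℝ) ^ 2 < ((Q ^ 6 : ℕ) : ℝ) ∧
      ((U * U * Q : ℕ) : ℝ) ≤ c0 * x ^ 2 ∧ A * (x : ℝ) ^ 2 < ((U * U * (Q * Q) : ℕ) : ℝ) ∧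
      (A * (x : ℝ) ^ 2) ^ 2 ≤ ((U ^ 5 : ℕ) : ℝ) ∧ A * (x : ℝ) ^ 2 ≤ ((V * V * Q : ℕ) : ℝ) := by
  filter_upwards [Lam.pow_ev 2 (5 / 6 - e) (5 / 6) (by linarith), Lam.pow_ev 2 (1 - 2 * ε) (1 - ε) (by linarith),
    Lam.pow_ev (1 / c0) (2 - 2 * ε) 2 (by linarith), Lam.pow_ev 2 (1 / 3 + e) (9 / 20) (by linarith),
    Lam.pow_ev 2 (5 / 6 + e) (5 / 6 + 2 * e) (by linarith), Lam.pow_ev (2 * A) 2 (2 + 6 * e) (by linarith),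
    Lam.pow_ev 2 (5 / 6 - e) (5 / 6 + 2 * e) (by linarith), Lam.pow_ev (2 * A) 2 (7 / 3) (by norm_num),
    Lam.pow_ev (8 / c0) (2 - e) 2 (by linarith), Lam.pow_ev A 2 (2 + 3 * e) (by linarith),
    Lam.pow_ev 2 (1 / 3 + e) (5 / 6 - e) (by linarith), Lam.pow_ev 2 (5 / 6 + e) (1 - ε) (by linarith),
    Lam.pow_ev (A ^ 2) 4 (25 / 6 - 5 * e) (by linarith),
    eventually_ge_atTop 1] with x h1 h2 h3 h4 h5 h6 h7 h8 h9 h10 h11 h12 h13 hx1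
  have hxr : (1 : ℝ) ≤ x := by exact_mod_cast hx1
  have hxp : (0 : ℝ) < x := by linarith
  have x2 : (x : ℝ) ^ (2 : ℝ) = (x : ℝ) ^ 2 := by norm_cast
  have x4 : (x : ℝ) ^ (4 : ℝ) = (x : ℝ) ^ 4 := by norm_cast
  rw [x2] at h3 h6 h8 h9 h10
  rw [x4] at h13
  obtain ⟨U, hU⟩ : ∃ U : ℕ, U = ⌈(x : ℝ) ^ (5 / 6 - e)⌉₊ := ⟨_, rfl⟩
  obtain ⟨Q, hQ⟩ : ∃ Q : ℕ, Q = ⌈(x : ℝ) ^ (1 / 3 + e)⌉₊ := ⟨_, rfl⟩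
  obtain ⟨V, hV⟩ : ∃ V : ℕ, V = ⌈(x : ℝ) ^ (5 / 6 + e)⌉₊ := ⟨_, rfl⟩
  obtain ⟨y, hy⟩ : ∃ y : ℕ, y = ⌊(x : ℝ) ^ (1 - ε)⌋₊ := ⟨_, rfl⟩
  have hU1 : (x : ℝ) ^ (5 / 6 - e) ≤ U := by rw [hU]; exact Nat.le_ceil _
  have hQ1 : (x : ℝ) ^ (1 / 3 + e) ≤ Q := by rw [hQ]; exact Nat.le_ceil _
  have hV1 : (x : ℝ) ^ (5 / 6 + e) ≤ V := by rw [hV]; exact Nat.le_ceil _
  have hU2 : (U : ℝ) ≤ 2 * (x : ℝ) ^ (5 / 6 - e) := by rw [hU]; exact Par.ceil_pow hx1 (by linarith)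
  have hQ2 : (Q : ℝ) ≤ 2 * (x : ℝ) ^ (1 / 3 + e) := by rw [hQ]; exact Par.ceil_pow hx1 (by linarith)
  have hV2 : (V : ℝ) ≤ 2 * (x : ℝ) ^ (5 / 6 + e) := by rw [hV]; exact Par.ceil_pow hx1 (by linarith)
  have hy1 : (y : ℝ) ≤ (x : ℝ) ^ (1 - ε) := by rw [hy]; exact Nat.floor_le (by positivity)
  have hy2 : (x : ℝ) ^ (1 - ε) < y + 1 := by rw [hy]; exact Nat.lt_floor_add_one _
  have k2 : (1 : ℝ) ≤ (x : ℝ) ^ (1 - 2 * ε) := Real.one_le_rpow hxr (by linarith)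
  have kU : (1 : ℝ) ≤ (x : ℝ) ^ (5 / 6 - e) := Real.one_le_rpow hxr (by linarith)
  have hQQ : (x : ℝ) ^ (2 / 3 + 2 * e) ≤ (Q : ℝ) * Q := by
    calc (x : ℝ) ^ (2 / 3 + 2 * e) = (x : ℝ) ^ (1 / 3 + e) * (x : ℝ) ^ (1 / 3 + e) := by
          rw [← Real.rpow_add hxp]; congr 1; ring
      _ ≤ (Q : ℝ) * Q := mul_le_mul hQ1 hQ1 (by positivity) (Nat.cast_nonneg _)
  have hUU : (x : ℝ) ^ (5 / 3 - 2 * e) ≤ (U : ℝ) * U := by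
    calc (x : ℝ) ^ (5 / 3 - 2 * e) = (x : ℝ) ^ (5 / 6 - e) * (x : ℝ) ^ (5 / 6 - e) := by
          rw [← Real.rpow_add hxp]; congr 1; ring
      _ ≤ (U : ℝ) * U := mul_le_mul hU1 hU1 (by positivity) (Nat.cast_nonneg _)
  have hQ6 : (x : ℝ) ^ (2 + 6 * e) ≤ (Q : ℝ) ^ 6 := by
    calc (x : ℝ) ^ (2 + 6 * e) = ((x : ℝ) ^ (1 / 3 + e)) ^ 6 := by
          rw [← Real.rpow_natCast, ← Real.rpow_mul hxp.le]; congr 1; push_cast; ring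
      _ ≤ (Q : ℝ) ^ 6 := pow_le_pow_left₀ (by positivity) hQ1 6
  have hU5 : (x : ℝ) ^ (25 / 6 - 5 * e) ≤ (U : ℝ) ^ 5 := by
    calc (x : ℝ) ^ (25 / 6 - 5 * e) = ((x : ℝ) ^ (5 / 6 - e)) ^ 5 := by
          rw [← Real.rpow_natCast, ← Real.rpow_mul hxp.le]; congr 1; push_cast; ring
      _ ≤ (U : ℝ) ^ 5 := pow_le_pow_left₀ (by positivity) hU1 5
  refine ⟨U, y, Q, V, ?_, ?_, ?_, ?_, hy1, ?_, hU1, hU2.trans h1, ?_, hQ2.trans h4, hV2.trans h5, ?_, ?_, ?_, ?_, ?_, ?_, ?_⟩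
  · have : (1 : ℝ) ≤ U := kU.trans hU1
    exact_mod_cast this
  · have : (Q : ℝ) ≤ U := (hQ2.trans h11).trans hU1
    exact_mod_cast this
  · have h : (x : ℝ) ^ (5 / 6 - e) ≤ (x : ℝ) ^ (5 / 6 + e) := Real.rpow_le_rpow_of_exponent_le hxr (by linarith)
    rw [hU, hV]
    exact Nat.ceil_le_ceil h
  · rw [hy]
    exact Nat.le_floor (hV2.trans h12)
  · linarith
  · exact (Real.rpow_le_rpow_of_exponent_le hxr (by linarith)).trans hQ1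
  · push_cast
    calc (Q : ℝ) * Q ≤ (x : ℝ) ^ (9 / 20 : ℝ) * (x : ℝ) ^ (9 / 20 : ℝ) :=
          mul_le_mul (hQ2.trans h4) (hQ2.trans h4) (Nat.cast_nonneg _) (by positivity)
      _ = (x : ℝ) ^ (9 / 10 : ℝ) := by rw [← Real.rpow_add hxp]; norm_num
  · push_cast
    rw [div_mul_eq_mul_div, one_mul, div_le_iff₀ hc0] at h3
    calc (y : ℝ) * y ≤ (x : ℝ) ^ (1 - ε) * (x : ℝ) ^ (1 - ε) := by gcongr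
      _ = (x : ℝ) ^ (2 - 2 * ε) := by rw [← Real.rpow_add hxp]; congr 1; ring
      _ ≤ c0 * x ^ 2 := by linarith
  · push_cast
    have : (0 : ℝ) < (x : ℝ) ^ 2 := by positivity
    have : A * (x : ℝ) ^ 2 < 2 * A * (x : ℝ) ^ 2 := by nlinarith
    linarith
  · push_cast
    rw [div_mul_eq_mul_div, div_le_iff₀ hc0] at h9
    calc (U : ℝ) * U * Q ≤ (2 * (x : ℝ) ^ (5 / 6 - e)) * (2 * (x : ℝ) ^ (5 / 6 - e)) * (2 * (x : ℝ) ^ (1 / 3 + e)) := by gcongr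
      _ = 8 * ((x : ℝ) ^ (5 / 6 - e) * (x : ℝ) ^ (5 / 6 - e) * (x : ℝ) ^ (1 / 3 + e)) := by ring
      _ = 8 * (x : ℝ) ^ (2 - e) := by
          rw [← Real.rpow_add hxp, ← Real.rpow_add hxp]
          congr 2
          ring
      _ ≤ c0 * x ^ 2 := by linarith
  · push_cast
    have : (0 : ℝ) < (x : ℝ) ^ 2 := by positivity
    have h0 : A * (x : ℝ) ^ 2 < 2 * A * (x : ℝ) ^ 2 := by nlinarith
    calc A * (x : ℝ) ^ 2 < 2 * A * (x : ℝ) ^ 2 := h0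
      _ ≤ (x : ℝ) ^ (7 / 3 : ℝ) := h8
      _ = (x : ℝ) ^ (5 / 3 - 2 * e) * (x : ℝ) ^ (2 / 3 + 2 * e) := by rw [← Real.rpow_add hxp]; congr 1; ring
      _ ≤ (U : ℝ) * U * (Q * Q) := mul_le_mul hUU hQQ (by positivity) (by positivity)
  · push_cast
    calc (A * (x : ℝ) ^ 2) ^ 2 = A ^ 2 * (x : ℝ) ^ 4 := by ring
      _ ≤ (x : ℝ) ^ (25 / 6 - 5 * e) := h13
      _ ≤ (U : ℝ) ^ 5 := hU5
  · push_cast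
    calc A * (x : ℝ) ^ 2 ≤ (x : ℝ) ^ (2 + 3 * e) := h10
      _ = (x : ℝ) ^ (5 / 6 + e) * (x : ℝ) ^ (5 / 6 + e) * (x : ℝ) ^ (1 / 3 + e) := by
          rw [← Real.rpow_add hxp, ← Real.rpow_add hxp]; congr 1; ring
      _ ≤ (V : ℝ) * V * Q := by gcongr

end Pool.Agent.H568
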