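import Mathlib
import Pool.Graph.R_pool_sql_team_seeded_63374d34.N792.RX1

/-!
Functions with few steps in the largest prime factor: closure properties, and their equidistribution.
-/

set_option autoImplicit false

namespace Pool.Agent.H568

open Finset Filter Topology Pool.Agent.N792
open ArithmeticFunction (moebius)

/-- the sum of steps given by a list -/
noncomputable def sv (l : List (ℝ × ℕ)) (P : ℕ) : ℝ := (l.map (fun c => c.1 * (if c.2 < P then (1 : ℝ) else 0))).sum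

/-- `h` is a sum of at most `M` steps of height at most one, at the primes which do not divide `m` -/
def SL (m M : ℕ) (h : ℕ → ℝ) : Prop :=
  ∃ l : List (ℝ × ℕ), l.length ≤ M ∧ (∀ c ∈ l, |c.1| ≤ 1) ∧ ∀ P : ℕ, P.Prime → ¬ P ∣ m → h P = sv l P

lemma sv_nil (P : ℕ) : sv [] P = 0 := by simp [sv]

lemma sv_cons (c : ℝ × ℕ) (l : List (ℝ × ℕ)) (P : ℕ) :
    sv (c :: l) P = c.1 * (if c.2 < P then (1 : ℝ) else 0) + sv l P := by simp [sv]

lemma sv_append (l l' : List (ℝ × ℕ)) (P : ℕ) : sv (l ++ l') P = sv l P + sv l' P := by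
  simp [sv]

lemma SL.mono {m M M' : ℕ} {h : ℕ → ℝ} (H : SL m M h) (hM : M ≤ M') : SL m M' h := by
  obtain ⟨l, h1, h2, h3⟩ := H
  exact ⟨l, h1.trans hM, h2, h3⟩

lemma SL.congr {m M : ℕ} {h h' : ℕ → ℝ} (H : SL m M h) (he : ∀ P : ℕ, P.Prime → ¬ P ∣ m → h' P = h P) : SL m M h' := by
  obtain ⟨l, h1, h2, h3⟩ := H
  exact ⟨l, h1, h2, fun P hP hPm => by rw [he P hP hPm, h3 P hP hPm]⟩

lemma SL.zero (m M : ℕ) : SL m M (fun _ => 0) := ⟨[], by simp, by simp, fun P _ _ => by simp [sv]⟩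

lemma SL.const (m : ℕ) (c : ℝ) (hc : |c| ≤ 1) : SL m 1 (fun _ => c) :=
  ⟨[(c, 0)], by simp, by simpa using hc, fun P hP _ => by simp [sv, hP.pos]⟩

lemma SL.step (m t : ℕ) (c : ℝ) (hc : |c| ≤ 1) : SL m 1 (fun P => c * (if t < P then (1 : ℝ) else 0)) :=
  ⟨[(c, t)], by simp, by simpa using hc, fun P _ _ => by simp [sv]⟩

lemma SL.add {m M M' : ℕ} {h h' : ℕ → ℝ} (H : SL m M h) (H' : SL m M' h') : SL m (M + M') (fun P => h P + h' P) := by
  obtain ⟨l, h1, h2, h3⟩ := H
  obtain ⟨l', h1', h2', h3'⟩ := H'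
  refine ⟨l ++ l', ?_, ?_, fun P hP hPm => ?_⟩
  · rw [List.length_append]
    omega
  · intro c hc
    rcases List.mem_append.1 hc with h | h
    · exact h2 c h
    · exact h2' c h
  · simp only
    rw [sv_append, h3 P hP hPm, h3' P hP hPm]

lemma SL.smul {m M : ℕ} {h : ℕ → ℝ} (H : SL m M h) (c : ℝ) (hc : |c| ≤ 1) : SL m M (fun P => c * h P) := by
  obtain ⟨l, h1, h2, h3⟩ := H
  refine ⟨l.map (fun d => (c * d.1, d.2)), by simpa using h1, ?_, fun P hP hPm => ?_⟩
  · intro d hd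
    rw [List.mem_map] at hd
    obtain ⟨e, he, rfl⟩ := hd
    simp only
    rw [abs_mul]
    calc |c| * |e.1| ≤ 1 * 1 := mul_le_mul hc (h2 e he) (abs_nonneg _) zero_le_one
      _ = 1 := one_mul 1
  · simp only
    rw [h3 P hP hPm]
    clear h1 h2 h3
    induction l with
    | nil => simp [sv]
    | cons d l ih =>
      rw [sv_cons, List.map_cons, sv_cons, mul_add, ih]
      ring

lemma SL.neg {m M : ℕ} {h : ℕ → ℝ} (H : SL m M h) : SL m M (fun P => -h P) :=
  (H.smul (-1) (by simp)).congr (fun P _ _ => by ring)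

lemma SL.sub {m M M' : ℕ} {h h' : ℕ → ℝ} (H : SL m M h) (H' : SL m M' h') : SL m (M + M') (fun P => h P - h' P) :=
  (H.add H'.neg).congr (fun P _ _ => by ring)

/-- multiplication with one step -/
lemma SL.mul_step {m M : ℕ} {h : ℕ → ℝ} (H : SL m M h) (t : ℕ) : SL m M (fun P => (if t < P then (1 : ℝ) else 0) * h P) := by
  obtain ⟨l, h1, h2, h3⟩ := H
  refine ⟨l.map (fun d => (d.1, max t d.2)), by simpa using h1, ?_, fun P hP hPm => ?_⟩
  · intro d hd
    rw [List.mem_map] at hd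
    obtain ⟨e, he, rfl⟩ := hd
    exact h2 e he
  · simp only
    rw [h3 P hP hPm]
    clear h1 h2 h3
    induction l with
    | nil => simp [sv]
    | cons d l ih =>
      rw [sv_cons, List.map_cons, sv_cons, mul_add, ih]
      congr 1
      simp only [max_lt_iff]
      by_cases c1 : t < P <;> by_cases c2 : d.2 < P <;> simp [c1, c2]

/-- multiplication with the complement of a step -/
lemma SL.mul_le {m M : ℕ} {h : ℕ → ℝ} (H : SL m M h) (t : ℕ) : SL m (2 * M) (fun P => (if P ≤ t then (1 : ℝ) else 0) * h P) := by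
  have := (H.sub (H.mul_step t))
  rw [← two_mul] at this
  refine this.congr (fun P _ _ => ?_)
  by_cases c1 : P ≤ t
  · rw [if_pos c1, if_neg (by omega)]; ring
  · rw [if_neg c1, if_pos (by omega)]; ring

/-- the product of two sums of steps -/
lemma SL.mul {m M M' : ℕ} {h h' : ℕ → ℝ} (H : SL m M h) (H' : SL m M' h') : SL m (M * M') (fun P => h P * h' P) := by
  obtain ⟨l, h1, h2, h3⟩ := H
  have key : ∀ l : List (ℝ × ℕ), (∀ c ∈ l, |c.1| ≤ 1) → SL m (l.length * M') (fun P => sv l P * h' P) := by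
    intro l
    induction l with
    | nil =>
      intro _
      exact (SL.zero m _).congr (fun P _ _ => by simp [sv])
    | cons d l ih =>
      intro hd
      have e1 := ih (fun c hc => hd c (List.mem_cons_of_mem _ hc))
      have e2 := (H'.mul_step d.2).smul d.1 (hd d List.mem_cons_self)
      have e3 := e2.add e1
      refine (e3.mono (le_of_eq ?_)).congr (fun P _ _ => ?_)
      · rw [List.length_cons]; ring
      · rw [sv_cons]; ring
  refine ((key l h2).mono (Nat.mul_le_mul_right _ h1)).congr (fun P hP hPm => by rw [h3 P hP hPm])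

/-- sums over finite sets -/
lemma SL.sum {ι : Type} {m M : ℕ} (S : Finset ι) (h : ι → ℕ → ℝ) (H : ∀ i ∈ S, SL m M (h i)) :
    SL m (#S * M) (fun P => ∑ i ∈ S, h i P) := by
  classical
  induction S using Finset.induction_on with
  | empty => exact (SL.zero m _).congr (fun P _ _ => by simp)
  | insert i S hi ih =>
    have e1 := ih (fun j hj => H j (mem_insert_of_mem hj))
    have e2 := (H i (mem_insert_self _ _)).add e1
    refine (e2.mono (le_of_eq ?_)).congr (fun P _ _ => ?_)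
    · rw [card_insert_of_notMem hi]; ring
    · rw [sum_insert hi]

/-- the notion of the library -/
lemma step_of_SL {g : ℕ → ℝ} {m M : ℕ} (H : SL m M (fun P => g (m * P))) : SwR.Step g m M := by
  obtain ⟨l, h1, h2, h3⟩ := H
  have key : ∀ (l : List (ℝ × ℕ)), ∃ (c : ℕ → ℝ) (t : ℕ → ℕ), (∀ i, |c i| ≤ 1 ∨ ∃ d ∈ l, c i = d.1) ∧
      ∀ P, sv l P = ∑ i ∈ range l.length, c i * (if t i < P then 1 else 0) := by
    intro l
    induction l with
    | nil => exact ⟨fun _ => 0, fun _ => 0, fun i => Or.inl (by simp), fun P => by simp [sv]⟩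
    | cons d l ih =>
      obtain ⟨c, t, k1, k2⟩ := ih
      refine ⟨fun i => Nat.casesOn i d.1 (fun j => c j), fun i => Nat.casesOn i d.2 (fun j => t j), ?_, ?_⟩
      · intro i
        cases i with
        | zero => exact Or.inr ⟨d, List.mem_cons_self, rfl⟩
        | succ j =>
          rcases k1 j with h | ⟨e, he, h⟩
          · exact Or.inl h
          · exact Or.inr ⟨e, List.mem_cons_of_mem _ he, h⟩
      · intro P
        rw [sv_cons, List.length_cons, sum_range_succ', k2 P, add_comm]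
        rfl
  obtain ⟨c, t, k1, k2⟩ := key l
  refine ⟨(range l.length).map ⟨Sum.inl, Sum.inl_injective⟩, fun i => Sum.elim c (fun _ => 0) i,
    fun i => Sum.elim t (fun _ => 0) i, ?_, ?_, ?_⟩
  · rw [card_map, card_range]
    exact h1
  · rintro (i | i)
    · simp only [Sum.elim_inl]
      rcases k1 i with h | ⟨e, he, h⟩
      · exact h
      · rw [h]; exact h2 e he
    · simp
  · intro P hP hPm
    have := h3 P hP hPm
    simp only at this
    rw [this, k2 P, sum_map]
    rfl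

/-- **the equidistribution of the functions with few steps** -/
theorem eqd_gen (η : ℝ) (hη : 0 < η) (M As E : ℕ) (hM : 1 ≤ M) : ∃ x0 : ℕ, ∀ x : ℕ, x0 ≤ x → ∀ z Jw ts : ℕ,
    (x : ℝ) ^ η ≤ z → z ≤ x → Real.log x ^ As ≤ ((2 ^ 2 ^ Jw : ℕ) : ℝ) → ((2 ^ 2 ^ Jw : ℕ) : ℝ) ≤ Real.log x ^ E →
    Real.log x ^ (As + 5) ≤ (2 : ℝ) ^ ts → (2 : ℝ) ^ ts ≤ Real.log x ^ E →
    ∀ g : ℕ → ℝ, (∀ k, k ≤ x ^ 3 → Rough z k → |g k| ≤ M) →
      (∀ m, m ≤ x ^ 3 → Rough z m → SL m M (fun P => g (m * P))) → EqD x z ts (2 ^ 2 ^ Jw) As g := by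
  obtain ⟨x1, h1⟩ := RX1.sharp_gen η hη M As E
  obtain ⟨x2, h2⟩ := eventually_atTop.1 (Shp.log_ge ((M : ℝ) + 1))
  refine ⟨max x1 (max x2 2), ?_⟩
  intro x hx z Jw ts hz hzx hw1 hw2 ht1 ht2 g hb hS
  have hxx1 : x1 ≤ x := (le_max_left _ _).trans hx
  have hxx2 : x2 ≤ x := ((le_max_left _ _).trans (le_max_right _ _)).trans hx
  have hL := h2 x hxx2
  have hM0 : (1 : ℝ) ≤ M := by exact_mod_cast hM
  have hL2 : (M : ℝ) ≤ Real.log x ^ 2 := by nlinarith
  exact ⟨fun k hk hkr => (hb k hk hkr).trans hL2, fun i u q r hxi hi3 hq hqA hu1 hu2 =>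
    h1 x hxx1 z Jw ts i u q r hz hzx hw1 hw2 ht1 ht2 hxi hi3 hq hqA hu1 hu2 g hb
      (fun m hm hmr => step_of_SL (hS m hm hmr))⟩

end Pool.Agent.H568
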