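import Mathlib
import Pool.Graph.R_pool_sql_team_seeded_63374d34.N792.RX5
import Pool.Graph.R_pool_sql_team_seeded_63374d34.N792.RPt
import Pool.Agent.H568.Sl

/-!
The sieve part: type I sums with coefficients `g` for which `g (d q) = - g d` for the primes `q ≤ Q`.
-/

set_option autoImplicit false

namespace Pool.Agent.H568

open Finset Pool.Agent.N792 Pool.Agent.N792.SwR Pool.Agent.N792.RX5
open ArithmeticFunction (moebius)

open Classical in
/-- the type II coefficients attached to the type I coefficients `g` -/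
noncomputable def alg (g : ℕ → ℝ) (z1 z2 U m : ℕ) : ℝ :=
  ∑ q ∈ m.primeFactors.filter (fun q => z1 < q ∧ q ≤ z2), if Rough z2 (m / q) ∧ m / q ≤ U then g (m / q) else 0

/-- the sieve part -/
noncomputable def Sv (g : ℕ → ℝ) (z U y K : ℕ) (zs : ℕ → ℕ) (N : ℕ) : ℝ :=
  T1 z U g N - ∑ i ∈ range K, (T2 z U y (alg g (zs i) (zs (i + 1)) U) (rg (zs (i + 1))) N +
      T2 z U y (rg (zs (i + 1))) (alg g (zs i) (zs (i + 1)) U) N)

/-- the terms of the type II sums with `alg` -/
lemma alg_rg {g : ℕ → ℝ} {U K N q0 M i0 : ℕ} {zs : ℕ → ℕ} (hmono : ∀ i j, i ≤ j → j ≤ K → zs i ≤ zs j) (hM : N = M * q0)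
    (hq0 : q0.Prime) (hmin : ∀ p, p.Prime → p ∣ N → q0 ≤ p)
    (hi0 : i0 < K) (h1 : zs i0 < q0) (h2 : q0 ≤ zs (i0 + 1)) (hN0 : N ≠ 0)
    (hMr : Rough (zs (i0 + 1)) M)
    (huniq : ∀ i < K, ∀ p q : ℕ, p.Prime → q.Prime → p ∣ N → q ∣ N → zs i < p → p ≤ zs (i + 1) → zs i < q →
      q ≤ zs (i + 1) → p = q) {i : ℕ} (hi : i < K) {j : ℕ} (hj : j ∣ N) :
    alg g (zs i) (zs (i + 1)) U j * rg (zs (i + 1)) (N / j) =
      if i = i0 ∧ q0 ∣ j ∧ j / q0 ≤ U then g (j / q0) else 0 := by
  have hj0 : j ≠ 0 := fun h => hN0 (by rw [h] at hj; exact Nat.eq_zero_of_zero_dvd hj)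
  by_cases hii : i = i0
  · subst hii
    by_cases hqj : q0 ∣ j
    · have e1 : (j.primeFactors.filter (fun q => zs i < q ∧ q ≤ zs (i + 1))) = {q0} := by
        ext q
        rw [mem_filter, Nat.mem_primeFactors, mem_singleton]
        constructor
        · rintro ⟨⟨h3, h4, _⟩, h5, h6⟩
          exact huniq i hi q q0 h3 hq0 (h4.trans hj) (hqj.trans hj) h5 h6 h1 h2
        · rintro rfl
          exact ⟨⟨hq0, hqj, hj0⟩, h1, h2⟩
      obtain ⟨d, rfl⟩ := hqj
      have hd : d ∣ M := by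
        rw [hM, mul_comm M q0] at hj
        exact Nat.dvd_of_mul_dvd_mul_left hq0.pos hj
      have e2 : N / (q0 * d) = M / d := by
        rw [hM, mul_comm M q0, Nat.mul_div_mul_left _ _ hq0.pos]
      have e3 : q0 * d / q0 = d := Nat.mul_div_cancel_left d hq0.pos
      unfold alg
      rw [e1, sum_singleton, e2, rg_of (rough_of_dvd hMr (Nat.div_dvd_of_dvd hd)), mul_one, e3]
      have h4 : Rough (zs (i + 1)) d := rough_of_dvd hMr hd
      simp only [h4, true_and, dvd_mul_right]
    · have e1 : (j.primeFactors.filter (fun q => zs i < q ∧ q ≤ zs (i + 1))) = ∅ := by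
        apply filter_eq_empty_iff.2
        intro q hq hq2
        rw [Nat.mem_primeFactors] at hq
        have := huniq i hi q q0 hq.1 hq0 (hq.2.1.trans hj) (by rw [hM]; exact dvd_mul_left _ _) hq2.1 hq2.2 h1 h2
        rw [this] at hq
        exact hqj hq.2.1
      unfold alg
      rw [e1, sum_empty, zero_mul, if_neg (fun h => hqj h.2.1)]
  · rw [if_neg (fun h => hii h.1)]
    by_cases hr : Rough (zs (i + 1)) (N / j)
    · have : alg g (zs i) (zs (i + 1)) U j = 0 := by
        unfold alg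
        apply sum_eq_zero
        intro q hq
        rw [mem_filter, Nat.mem_primeFactors] at hq
        obtain ⟨⟨hqp, hqj, _⟩, hq1, hq2⟩ := hq
        rw [if_neg]
        rintro ⟨h3, _⟩
        have e4 : q * (j / q) * (N / j) = N := by
          rw [Nat.mul_div_cancel' hqj, Nat.mul_div_cancel' hj]
        have h5 : q0 ∣ q * (j / q) * (N / j) := by rw [e4, hM]; exact dvd_mul_left _ _
        have h6 : q0 ≤ q := hmin q hqp (hqj.trans hj)
        have h7 : q0 = q := by
          rcases hq0.dvd_mul.1 h5 with h5 | h5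
          · rcases hq0.dvd_mul.1 h5 with h5 | h5
            · exact (Nat.prime_dvd_prime_iff_eq hq0 hqp).1 h5
            · have := h3.2 q0 hq0 h5
              omega
          · have := hr.2 q0 hq0 h5
            omega
        rcases Nat.lt_or_gt_of_ne hii with h8 | h8
        · have := hmono (i + 1) i0 h8 hi0.le
          omega
        · have := hmono (i0 + 1) i h8 hi.le
          omega
      rw [this, zero_mul]
    · rw [rg_not hr, mul_zero]

/-- the case that `N` has a prime factor `≤ Q` -/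
lemma Sv_case1 {g : ℕ → ℝ} {z U y Q K N : ℕ} {zs : ℕ → ℕ}
    (hg : ∀ d q : ℕ, q.Prime → q ≤ Q → ¬ q ∣ d → g (d * q) = - g d)
    (hz0 : zs 0 = z) (hzK : zs K = Q) (hmono0 : ∀ i < K, zs i ≤ zs (i + 1)) (hyN : y * y < N)
    (hUUQ : U * U * Q < N) (hsq : Squarefree N) (hro : Rough z N) (hne : ∀ j, j ∣ N → ¬ (y ≤ j ∧ y ≤ N / j))
    (huniq : ∀ i < K, ∀ p q : ℕ, p.Prime → q.Prime → p ∣ N → q ∣ N → zs i < p → p ≤ zs (i + 1) → zs i < q →
      q ≤ zs (i + 1) → p = q) (hQ : ¬ Rough Q N) :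
    Sv g z U y K zs N = 0 := by
  have hN0 := hro.1
  have hN1 : N ≠ 1 := by
    rintro rfl
    exact hQ ⟨one_ne_zero, fun p hp h => absurd (Nat.dvd_one.1 h) hp.ne_one⟩
  obtain ⟨q0, hq0, hq0N, hmin⟩ : ∃ q0 : ℕ, q0.Prime ∧ q0 ∣ N ∧ ∀ p, p.Prime → p ∣ N → q0 ≤ p :=
    ⟨N.minFac, Nat.minFac_prime hN1, Nat.minFac_dvd N, fun p hp h => Nat.minFac_le_of_dvd hp.two_le h⟩
  have hzq : z < q0 := hro.2 q0 hq0 hq0N
  have hqQ : q0 ≤ Q := by
    by_contra h
    push Not at h
    exact hQ ⟨hN0, fun p hp h2 => h.trans_le (hmin p hp h2)⟩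
  obtain ⟨M, hM⟩ : ∃ M, N = M * q0 := by
    obtain ⟨M, hM⟩ := hq0N
    exact ⟨M, by rw [hM, mul_comm]⟩
  have hMq : ¬ q0 ∣ M := by
    intro h
    have h3 : q0 * q0 ∣ N := by rw [hM]; exact Nat.mul_dvd_mul_right h q0
    exact hq0.one_lt.ne' (Nat.isUnit_iff.1 (hsq q0 h3))
  have hM0 : M ≠ 0 := by
    rintro rfl
    rw [zero_mul] at hM
    exact hN0 hM
  have hmono : ∀ i j, i ≤ j → j ≤ K → zs i ≤ zs j := by
    intro i j hij
    induction j, hij using Nat.le_induction with
    | base => intro _; exact le_rfl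
    | succ j hj ih => intro h; exact (ih (by omega)).trans (hmono0 j (by omega))
  obtain ⟨i0, hi0, h1, h2⟩ : ∃ i0, i0 < K ∧ zs i0 < q0 ∧ q0 ≤ zs (i0 + 1) := by
    have hex : ∃ i, q0 ≤ zs i := ⟨K, by rw [hzK]; exact hqQ⟩
    classical
    have hfind := Nat.find_spec hex
    have hpos : Nat.find hex ≠ 0 := by
      intro h
      rw [h, hz0] at hfind
      omega
    refine ⟨Nat.find hex - 1, ?_, ?_, ?_⟩
    · have : Nat.find hex ≤ K := Nat.find_min' hex (by rw [hzK]; exact hqQ)
      omega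
    · have := Nat.find_min hex (m := Nat.find hex - 1) (by omega)
      omega
    · rw [Nat.sub_add_cancel (by omega)]
      exact hfind
  have hMr : Rough (zs (i0 + 1)) M := by
    refine ⟨hM0, fun p hp hpM => ?_⟩
    by_contra h
    push Not at h
    have hpN : p ∣ N := hpM.trans (by rw [hM]; exact dvd_mul_right _ _)
    have h3 := hmin p hp hpN
    have := huniq i0 hi0 p q0 hp hq0 hpN hq0N (by omega) h h1 h2
    rw [this] at hpM
    exact hMq hpM
  have hE1 : ∀ i < K, T2 z U y (alg g (zs i) (zs (i + 1)) U) (rg (zs (i + 1))) N =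
      ∑ j ∈ N.divisors, if U < j ∧ j ≤ y then
        (if i = i0 ∧ q0 ∣ j ∧ j / q0 ≤ U then g (j / q0) else 0) else 0 := by
    intro i hi
    rw [T2_eq hro]
    apply sum_congr rfl
    intro j hj
    rw [Nat.mem_divisors] at hj
    rw [alg_rg hmono hM hq0 hmin hi0 h1 h2 hN0 hMr huniq hi hj.1]
  have hE2 : ∀ i < K, T2 z U y (rg (zs (i + 1))) (alg g (zs i) (zs (i + 1)) U) N =
      ∑ j ∈ N.divisors, if U < N / j ∧ N / j ≤ y then
        (if i = i0 ∧ q0 ∣ j ∧ j / q0 ≤ U then g (j / q0) else 0) else 0 := by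
    intro i hi
    rw [T2_eq hro, ← Nat.sum_div_divisors N]
    apply sum_congr rfl
    intro j hj
    rw [Nat.mem_divisors] at hj
    rw [Nat.div_div_self hj.1 hN0, mul_comm, alg_rg hmono hM hq0 hmin hi0 h1 h2 hN0 hMr huniq hi hj.1]
  have hS : ∑ i ∈ range K, (T2 z U y (alg g (zs i) (zs (i + 1)) U) (rg (zs (i + 1))) N +
      T2 z U y (rg (zs (i + 1))) (alg g (zs i) (zs (i + 1)) U) N) = T1 z U g N := by
    rw [sum_eq_single i0]
    · rw [hE1 i0 hi0, hE2 i0 hi0, ← sum_add_distrib, T1_eq hro, hM, sum_div_mul hM0 hq0 hMq,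
        sum_div_mul hM0 hq0 hMq, ← sum_add_distrib, ← sum_add_distrib]
      apply sum_congr rfl
      intro d hd
      rw [Nat.mem_divisors] at hd
      have hd0 : 0 < d := Nat.pos_of_dvd_of_pos hd.1 (Nat.pos_of_ne_zero hM0)
      have hqd : ¬ q0 ∣ d := fun h => hMq (h.trans hd.1)
      have hmu : g (d * q0) = - g d := hg d q0 hq0 hqQ hqd
      have hdN : d * q0 ∣ N := by rw [hM]; exact Nat.mul_dvd_mul_right hd.1 q0
      have hnear := near hyN hdN (hne _ hdN)
      have hbig : d ≤ U → U < N / (d * q0) := by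
        intro hdU
        by_contra h
        push Not at h
        have e5 := Nat.mul_div_cancel' hdN
        have : d * q0 * (N / (d * q0)) ≤ U * Q * U := Nat.mul_le_mul (Nat.mul_le_mul hdU hqQ) h
        nlinarith
      have hdd : d ≤ d * q0 := Nat.le_mul_of_pos_right d hq0.pos
      rw [hmu, Nat.mul_div_cancel d hq0.pos, ← hM]
      simp only [hqd, dvd_mul_left, true_and, false_and, if_false, ite_self, add_zero, zero_add]
      generalize d * q0 = A at *
      generalize N / A = B at *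
      by_cases c1 : d ≤ U
      · have c2 := hbig c1
        simp only [c1, c2, if_true, true_and]
        split_ifs <;> first | (exfalso; omega) | ring
      · simp only [c1, if_false, ite_self]
        rw [if_neg (by omega)]
    · intro i hi hii
      rw [mem_range] at hi
      rw [hE1 i hi, hE2 i hi]
      simp [hii]
    · intro h
      exact absurd (mem_range.2 hi0) h
  unfold Sv
  rw [hS, sub_self]

/-- the case that all prime factors of `N` are `> Q` -/
lemma Sv_case2 {g : ℕ → ℝ} {z U y Q K N : ℕ} {zs : ℕ → ℕ}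
    (hzK : zs K = Q) (hmono0 : ∀ i < K, zs i ≤ zs (i + 1)) (hro : Rough z N) (hr : Rough Q N) :
    Sv g z U y K zs N = ∑ j ∈ N.divisors.filter (fun j => j ≤ U), g j := by
  have hmono : ∀ i j, i ≤ j → j ≤ K → zs i ≤ zs j := by
    intro i j hij
    induction j, hij using Nat.le_induction with
    | base => intro _; exact le_rfl
    | succ j hj ih => intro h; exact (ih (by omega)).trans (hmono0 j (by omega))
  have half : ∀ i < K, ∀ j, j ∣ N → alg g (zs i) (zs (i + 1)) U j = 0 := by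
    intro i hi j hj
    unfold alg
    apply sum_eq_zero
    intro q hq
    rw [mem_filter, Nat.mem_primeFactors] at hq
    have h1 := hr.2 q hq.1.1 (hq.1.2.1.trans hj)
    have h2 := hmono (i + 1) K hi le_rfl
    omega
  have hS : ∑ i ∈ range K, (T2 z U y (alg g (zs i) (zs (i + 1)) U) (rg (zs (i + 1))) N +
      T2 z U y (rg (zs (i + 1))) (alg g (zs i) (zs (i + 1)) U) N) = 0 := by
    apply sum_eq_zero
    intro i hi
    rw [mem_range] at hi
    rw [T2_eq hro, T2_eq hro, sum_eq_zero, sum_eq_zero, add_zero]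
    · intro j hj
      rw [Nat.mem_divisors] at hj
      rw [half i hi _ (Nat.div_dvd_of_dvd hj.1), mul_zero, ite_self]
    · intro j hj
      rw [Nat.mem_divisors] at hj
      rw [half i hi _ hj.1, zero_mul, ite_self]
  unfold Sv
  rw [hS, sub_zero, T1, rg_of hro, one_mul]

/-- the case that `N` is not rough -/
lemma Sv_case0 {g : ℕ → ℝ} {z U y K N : ℕ} {zs : ℕ → ℕ} (hro : ¬ Rough z N) : Sv g z U y K zs N = 0 := by
  unfold Sv T1 T2
  simp [rg_not hro]

lemma alg_abs {g : ℕ → ℝ} {G : ℝ} (hG : 0 ≤ G) (hg : ∀ d, |g d| ≤ G) (z1 z2 U k : ℕ) :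
    |alg g z1 z2 U k| ≤ G * #(k.primeFactors.filter (fun q => z1 < q ∧ q ≤ z2)) := by
  classical
  unfold alg
  refine (abs_sum_le_sum_abs _ _).trans ?_
  refine (sum_le_card_nsmul _ _ G fun q _ => ?_).trans ?_
  · split_ifs
    · exact hg _
    · simpa using hG
  · rw [nsmul_eq_mul, mul_comm]

/-- the bound for the sieve part -/
lemma Sv_abs {g : ℕ → ℝ} {G : ℝ} (hG : 1 ≤ G) (hg : ∀ d, |g d| ≤ G) {z U y K : ℕ} {zs : ℕ → ℕ}
    (hm : ∀ i < K, zs i ≤ zs (i + 1)) {N : ℕ} (hN : N ≠ 0) :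
    |Sv g z U y K zs N| ≤ 3 * G * (#N.divisors : ℝ) ^ 2 := by
  classical
  obtain ⟨D, hD⟩ : ∃ D : ℝ, D = #N.divisors := ⟨_, rfl⟩
  have hG0 : 0 ≤ G := by linarith
  have hD1 : 1 ≤ D := by
    rw [hD]
    have : 1 ≤ #N.divisors := card_pos.2 ⟨1, by rw [Nat.mem_divisors]; exact ⟨one_dvd _, hN⟩⟩
    exact_mod_cast this
  have hmono : ∀ i i' : ℕ, i ≤ i' → i' ≤ K → zs i ≤ zs i' := by
    intro i i' h
    induction i', h using Nat.le_induction with
    | base => intro _; exact le_rfl
    | succ n hn ih =>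
      intro hn2
      exact (ih (by omega)).trans (hm n (by omega))
  have t0 : |T1 z U g N| ≤ G * D := by
    unfold T1
    rw [abs_mul, abs_of_nonneg (rg_range z N).1]
    have h1 : |∑ j ∈ N.divisors.filter (fun j => j ≤ U), g j| ≤ G * D := by
      refine (abs_sum_le_sum_abs _ _).trans ?_
      refine (sum_le_card_nsmul _ _ G fun j _ => hg j).trans ?_
      rw [nsmul_eq_mul, hD, mul_comm]
      exact mul_le_mul_of_nonneg_left (by exact_mod_cast card_filter_le _ _) hG0
    calc rg z N * |_| ≤ 1 * |_| := mul_le_mul_of_nonneg_right (rg_range z N).2 (abs_nonneg _)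
      _ ≤ G * D := by rw [one_mul]; exact h1
  have hpf : ∀ j, j ∣ N → (#j.primeFactors : ℝ) ≤ D := by
    intro j hj
    rw [hD]
    have : #j.primeFactors ≤ #N.divisors := by
      apply card_le_card
      intro p hp
      rw [Nat.mem_divisors]
      exact ⟨(Nat.dvd_of_mem_primeFactors hp).trans hj, hN⟩
    exact_mod_cast this
  have hrg : ∀ i j, |rg i j| ≤ 1 := fun i j => by rw [abs_of_nonneg (rg_range i j).1]; exact (rg_range i j).2
  have hcnt : ∀ j : ℕ, ∑ i ∈ range K, |alg g (zs i) (zs (i + 1)) U j| ≤ G * #j.primeFactors := by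
    intro j
    refine (sum_le_sum fun i _ => alg_abs hG0 hg (zs i) (zs (i + 1)) U j).trans ?_
    rw [← mul_sum]
    apply mul_le_mul_of_nonneg_left _ hG0
    have e : ∑ i ∈ range K, #(j.primeFactors.filter (fun q => zs i < q ∧ q ≤ zs (i + 1))) ≤ #j.primeFactors := by
      rw [← card_biUnion]
      · apply card_le_card
        intro q hq
        rw [mem_biUnion] at hq
        obtain ⟨i, _, h⟩ := hq
        exact (mem_filter.1 h).1
      · intro i hi i' hi' hne
        rw [Finset.mem_coe, mem_range] at hi hi'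
        rw [Function.onFun, disjoint_left]
        intro q h1 h2
        rw [mem_filter] at h1 h2
        rcases Nat.lt_or_gt_of_ne hne with h | h
        · have := hmono (i + 1) i' (by omega) (by omega)
          omega
        · have := hmono (i' + 1) i (by omega) (by omega)
          omega
    exact_mod_cast e
  have t1 : ∑ i ∈ range K, |T2 z U y (alg g (zs i) (zs (i + 1)) U) (rg (zs (i + 1))) N| ≤ G * D ^ 2 := by
    have h1 : ∀ i ∈ range K, |T2 z U y (alg g (zs i) (zs (i + 1)) U) (rg (zs (i + 1))) N| ≤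
        ∑ j ∈ N.divisors, |alg g (zs i) (zs (i + 1)) U j| := by
      intro i _
      refine (Pt.T2_abs _ _ _ _ _ _).trans ?_
      apply sum_le_sum
      intro j _
      exact mul_le_of_le_one_right (abs_nonneg _) (hrg _ _)
    refine (sum_le_sum h1).trans ?_
    rw [sum_comm]
    calc ∑ j ∈ N.divisors, ∑ i ∈ range K, |alg g (zs i) (zs (i + 1)) U j| ≤ ∑ _j ∈ N.divisors, G * D := by
          apply sum_le_sum
          intro j hj
          exact (hcnt j).trans (mul_le_mul_of_nonneg_left (hpf j (Nat.dvd_of_mem_divisors hj)) hG0)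
      _ = G * D ^ 2 := by rw [sum_const, nsmul_eq_mul, ← hD]; ring
  have t2 : ∑ i ∈ range K, |T2 z U y (rg (zs (i + 1))) (alg g (zs i) (zs (i + 1)) U) N| ≤ G * D ^ 2 := by
    have h1 : ∀ i ∈ range K, |T2 z U y (rg (zs (i + 1))) (alg g (zs i) (zs (i + 1)) U) N| ≤
        ∑ j ∈ N.divisors, |alg g (zs i) (zs (i + 1)) U (N / j)| := by
      intro i _
      refine (Pt.T2_abs _ _ _ _ _ _).trans ?_
      apply sum_le_sum
      intro j _
      exact mul_le_of_le_one_left (abs_nonneg _) (hrg _ _)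
    refine (sum_le_sum h1).trans ?_
    rw [sum_comm]
    calc ∑ j ∈ N.divisors, ∑ i ∈ range K, |alg g (zs i) (zs (i + 1)) U (N / j)| ≤ ∑ _j ∈ N.divisors, G * D := by
          apply sum_le_sum
          intro j hj
          exact (hcnt _).trans (mul_le_mul_of_nonneg_left
            (hpf (N / j) (Nat.div_dvd_of_dvd (Nat.dvd_of_mem_divisors hj))) hG0)
      _ = G * D ^ 2 := by rw [sum_const, nsmul_eq_mul, ← hD]; ring
  have t12 : |∑ i ∈ range K, (T2 z U y (alg g (zs i) (zs (i + 1)) U) (rg (zs (i + 1))) N +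
      T2 z U y (rg (zs (i + 1))) (alg g (zs i) (zs (i + 1)) U) N)| ≤ 2 * (G * D ^ 2) := by
    refine (abs_sum_le_sum_abs _ _).trans ?_
    refine (sum_le_sum fun i _ => abs_add_le _ _).trans ?_
    rw [sum_add_distrib]
    linarith
  have hDD : G * D ≤ G * D ^ 2 := mul_le_mul_of_nonneg_left (le_self_pow₀ hD1 (by norm_num)) hG0
  unfold Sv
  rw [← hD]
  rw [abs_le] at t0 t12 ⊢
  constructor <;> linarith

/-- the equidistribution of `alg` -/
lemma SL_alg {g : ℕ → ℝ} {M' : ℕ} (hM' : 1 ≤ M') (hg1 : ∀ d, |g d| ≤ 1) (hgS : ∀ e, e ≠ 0 → SL e M' (fun P => g (e * P)))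
    (z1 z2 U m : ℕ) (hm : m ≠ 0) : SL m (2 * M' * #m.divisors) (fun P => alg g z1 z2 U (m * P)) := by
  classical
  obtain ⟨S, hS⟩ : ∃ S : Finset ℕ, S = m.primeFactors.filter (fun q => z1 < q ∧ q ≤ z2) := ⟨_, rfl⟩
  have hcard : #S + 1 ≤ #m.divisors := by
    have h1 : S ⊆ m.divisors.erase 1 := by
      intro q hq
      rw [hS, mem_filter] at hq
      rw [mem_erase, Nat.mem_divisors]
      exact ⟨(Nat.prime_of_mem_primeFactors hq.1).one_lt.ne', Nat.dvd_of_mem_primeFactors hq.1, hm⟩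
    have h3 := card_le_card h1
    have h4 : (1 : ℕ) ∈ m.divisors := Nat.one_mem_divisors.2 hm
    rw [card_erase_of_mem h4] at h3
    have h5 := card_pos.2 ⟨1, h4⟩
    omega
  -- the terms
  have hterm : ∀ q ∈ S, SL m (2 * M') (fun P => if Rough z2 (m * P / q) ∧ m * P / q ≤ U then g (m * P / q) else 0) := by
    intro q hq
    rw [hS, mem_filter, Nat.mem_primeFactors] at hq
    obtain ⟨⟨hqp, hqm, _⟩, _⟩ := hq
    obtain ⟨e, he⟩ := hqm
    have he0 : e ≠ 0 := by
      intro h
      rw [h, mul_zero] at he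
      exact hm he
    have h2 : ∀ P, m * P / q = e * P := by
      intro P
      rw [he, mul_assoc]
      exact Nat.mul_div_cancel_left _ hqp.pos
    by_cases hR : Rough z2 e
    · have h5 : SL m (2 * M') (fun P => (if P ≤ U / e then (1 : ℝ) else 0) * ((if z2 < P then (1 : ℝ) else 0) * g (e * P))) := by
        obtain ⟨l, k1, k2, k3⟩ := hgS e he0
        have hl : SL m M' (fun P => g (e * P)) := ⟨l, k1, k2, fun P hP hPm => k3 P hP (fun h => hPm (he ▸ h.mul_left q))⟩
        exact (hl.mul_step z2).mul_le (U / e)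
      refine h5.congr (fun P hP hPm => ?_)
      simp only [h2]
      have h4 : e * P ≤ U ↔ P ≤ U / e := by
        rw [Nat.le_div_iff_mul_le (Nat.pos_of_ne_zero he0), mul_comm]
      by_cases hz : z2 < P
      · by_cases hU : P ≤ U / e
        · rw [if_pos ⟨(RX1.rough_mul_iff hP).2 ⟨hR, hz⟩, h4.2 hU⟩, if_pos hz, if_pos hU]
          ring
        · rw [if_neg (fun h => hU (h4.1 h.2)), if_neg hU, zero_mul]
      · rw [if_neg (fun h => hz ((RX1.rough_mul_iff hP).1 h.1).2), if_neg hz]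
        ring
    · refine (SL.zero m _).congr (fun P hP hPm => ?_)
      simp only [h2]
      rw [if_neg (fun h => hR ((RX1.rough_mul_iff hP).1 h.1).1)]
  have hlast : SL m 2 (fun P => (if P ≤ z2 then (1 : ℝ) else 0) * ((if Rough z2 m ∧ m ≤ U then g m else 0) * (if z1 < P then (1 : ℝ) else 0))) := by
    have := (SL.step m z1 (if Rough z2 m ∧ m ≤ U then g m else 0) (by
      split_ifs
      · exact hg1 m
      · simp)).mul_le z2
    simpa using this
  have hsum := (SL.sum S _ hterm).add hlast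
  refine (hsum.mono ?_).congr (fun P hP hPm => ?_)
  · calc #S * (2 * M') + 2 ≤ #S * (2 * M') + 2 * M' := by omega
      _ = 2 * M' * (#S + 1) := by ring
      _ ≤ 2 * M' * #m.divisors := Nat.mul_le_mul_left _ hcard
  · have hPS : P ∉ m.primeFactors := fun h => hPm (Nat.dvd_of_mem_primeFactors h)
    unfold alg
    rw [Nat.primeFactors_mul hm hP.ne_zero, hP.primeFactors, filter_union, sum_union, ← hS]
    · congr 1
      rw [sum_filter, sum_singleton]
      rw [Nat.mul_div_cancel _ hP.pos]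
      by_cases c1 : z1 < P <;> by_cases c2 : P ≤ z2 <;> simp [c1, c2]
    · rw [disjoint_left]
      intro q h1 h2
      rw [mem_filter] at h1 h2
      rw [mem_singleton.1 h2.1] at h1
      exact hPS h1.1

end Pool.Agent.H568
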