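import Mathlib
import Pool.Graph.R_pool_sql_team_seeded_63374d34.N792.RLm2
import Pool.Graph.R_pool_sql_team_seeded_63374d34.N791.U.T23
import Pool.Agent.H568.Sv
import Pool.Agent.H568.X3W

/-!
Combinations of the sieve part with type II functions.
-/

set_option autoImplicit false

namespace Pool.Agent.H568

open Finset Filter Topology Pool.Agent.N792
open ArithmeticFunction (moebius)

/-- admissible coefficients of the type II sums -/
def Ok (M : ℕ) (f : ℕ → ℝ) : Prop :=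
  (∀ k, k ≠ 0 → |f k| ≤ M * #k.divisors) ∧ ∀ m, m ≠ 0 → SL m (M * #m.divisors) (fun P => f (m * P))

lemma card_div_pos {m : ℕ} (hm : m ≠ 0) : 1 ≤ #m.divisors :=
  card_pos.2 ⟨1, by rw [Nat.mem_divisors]; exact ⟨one_dvd _, hm⟩⟩

lemma SL_pi0 (m : ℕ) : SL m 1 (fun P => pi0 (m * P)) := by
  by_cases h1 : m = 1
  · subst h1
    refine (SL.step 1 0 1 (by simp)).congr fun P hP _ => ?_
    unfold pi0
    rw [one_mul, if_pos hP, if_pos hP.pos, one_mul]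
  · refine (SL.zero m 1).congr fun P hP _ => ?_
    unfold pi0
    rw [if_neg]
    intro h
    rcases Nat.prime_mul_iff.1 h with h2 | h2
    · exact hP.one_lt.ne' h2.2
    · exact h1 h2.2

lemma pi2_mul {Q m P : ℕ} (hP : P.Prime) (hPm : ¬ P ∣ m) : pi2 Q (m * P) = if (m.Prime ∧ Q < m) ∧ Q < P then 1 else 0 := by
  unfold pi2
  by_cases h1 : m.Prime ∧ Q < m
  · have hne : m ≠ P := fun h => hPm (h ▸ dvd_rfl)
    by_cases hQ : Q < P
    · rw [if_pos, if_pos ⟨h1, hQ⟩]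
      rcases lt_or_gt_of_ne hne with h | h
      · exact ⟨m, P, h1.1, hP, h1.2, h, rfl⟩
      · exact ⟨P, m, hP, h1.1, hQ, h, mul_comm m P⟩
    · rw [if_neg, if_neg (fun h => hQ h.2)]
      rintro ⟨p, q, hp, hq, hQp, hpq, h⟩
      have hd : P ∣ p * q := h ▸ Dvd.intro_left m rfl
      rcases (Nat.Prime.dvd_mul hP).1 hd with h2 | h2
      · rw [(Nat.prime_dvd_prime_iff_eq hP hp).1 h2] at hQ
        exact hQ hQp
      · rw [(Nat.prime_dvd_prime_iff_eq hP hq).1 h2] at hQ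
        exact hQ (hQp.trans hpq)
  · rw [if_neg, if_neg (fun h => h1 h.1)]
    rintro ⟨p, q, hp, hq, hQp, hpq, h⟩
    apply h1
    have hd : P ∣ p * q := h ▸ Dvd.intro_left m rfl
    rcases (Nat.Prime.dvd_mul hP).1 hd with h2 | h2
    · have h3 := (Nat.prime_dvd_prime_iff_eq hP hp).1 h2
      subst h3
      have h4 : m = q := Nat.eq_of_mul_eq_mul_left hP.pos (by rw [mul_comm P m]; exact h)
      rw [h4]
      exact ⟨hq, hQp.trans hpq⟩
    · have h3 := (Nat.prime_dvd_prime_iff_eq hP hq).1 h2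
      subst h3
      have h4 : m = p := Nat.eq_of_mul_eq_mul_right hP.pos h
      rw [h4]
      exact ⟨hp, hQp⟩

lemma SL_pi2 (Q m : ℕ) : SL m 1 (fun P => pi2 Q (m * P)) := by
  by_cases h1 : m.Prime ∧ Q < m
  · refine (SL.step m Q 1 (by simp)).congr fun P hP hPm => ?_
    rw [pi2_mul hP hPm]
    simp [h1.1, h1.2]
  · refine (SL.zero m 1).congr fun P hP hPm => ?_
    rw [pi2_mul hP hPm, if_neg (fun h => h1 h.1)]

lemma SL_rg (z m : ℕ) : SL m 1 (fun P => rg z (m * P)) := by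
  by_cases h1 : Rough z m
  · refine (SL.step m z 1 (by simp)).congr fun P hP hPm => ?_
    unfold rg
    by_cases h2 : z < P
    · rw [if_pos ((RX1.rough_mul_iff hP).2 ⟨h1, h2⟩), if_pos h2, one_mul]
    · rw [if_neg (fun h => h2 ((RX1.rough_mul_iff hP).1 h).2), if_neg h2, mul_zero]
  · refine (SL.zero m 1).congr fun P hP hPm => ?_
    unfold rg
    rw [if_neg (fun h => h1 ((RX1.rough_mul_iff hP).1 h).1)]

lemma Ok_of {f : ℕ → ℝ} {M : ℕ} (h1 : ∀ k, |f k| ≤ M) (h2 : ∀ m, m ≠ 0 → SL m M (fun P => f (m * P))) : Ok M f := by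
  refine ⟨fun k hk => (h1 k).trans ?_, fun m hm => (h2 m hm).mono (Nat.le_mul_of_pos_right M (card_div_pos hm))⟩
  have : (1 : ℝ) ≤ #k.divisors := by exact_mod_cast card_div_pos hk
  calc (M : ℝ) = M * 1 := (mul_one _).symm
    _ ≤ M * #k.divisors := mul_le_mul_of_nonneg_left this (Nat.cast_nonneg _)

lemma Ok.mono {f : ℕ → ℝ} {M M' : ℕ} (h : Ok M f) (hM : M ≤ M') : Ok M' f :=
  ⟨fun k hk => (h.1 k hk).trans (mul_le_mul_of_nonneg_right (by exact_mod_cast hM) (Nat.cast_nonneg _)),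
    fun m hm => (h.2 m hm).mono (Nat.mul_le_mul_right _ hM)⟩

lemma Ok_pi0 : Ok 1 pi0 := Ok_of (fun k => by
  rw [abs_of_nonneg (Pt.pi0_le k).1]; exact_mod_cast (Pt.pi0_le k).2) (fun m _ => SL_pi0 m)

lemma Ok_pi2 (Q : ℕ) : Ok 1 (pi2 Q) := Ok_of (fun k => by
  rw [abs_of_nonneg (Pt.pi2_le Q k).1]; exact_mod_cast (Pt.pi2_le Q k).2) (fun m _ => SL_pi2 Q m)

lemma Ok_rg (z : ℕ) : Ok 1 (rg z) := Ok_of (fun k => by
  have := Shp.rg_abs z k
  rw [abs_of_nonneg this.1]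
  exact_mod_cast this.2) (fun m _ => SL_rg z m)

lemma Ok_alg {g : ℕ → ℝ} {M : ℕ} (hM : 1 ≤ M) (h1 : ∀ k, |g k| ≤ 1) (h2 : ∀ m, m ≠ 0 → SL m M (fun P => g (m * P)))
    (z1 z2 U : ℕ) : Ok (2 * M) (alg g z1 z2 U) := by
  refine ⟨fun k hk => ?_, fun m hm => SL_alg hM h1 h2 z1 z2 U m hm⟩
  refine (alg_abs zero_le_one h1 z1 z2 U k).trans ?_
  have e1 := RX1.card_le k hk (k.primeFactors.filter (fun q => z1 < q ∧ q ≤ z2)) (filter_subset _ _)
  have e2 : #(k.primeFactors.filter (fun q => z1 < q ∧ q ≤ z2)) ≤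
      #(insert 0 (k.primeFactors.filter (fun q => z1 < q ∧ q ≤ z2))) := card_le_card (subset_insert _ _)
  have e3 : (#(k.primeFactors.filter (fun q => z1 < q ∧ q ≤ z2)) : ℝ) ≤ #k.divisors := by exact_mod_cast e2.trans e1
  have e4 : (1 : ℝ) ≤ ((2 * M : ℕ) : ℝ) := by exact_mod_cast (by omega : 1 ≤ 2 * M)
  exact mul_le_mul e4 e3 (Nat.cast_nonneg _) (by positivity)

/-- the equidistribution of the admissible coefficients -/
lemma eqd_ok (η : ℝ) (hη : 0 < η) (M As E : ℕ) (hM : 1 ≤ M) : ∃ x0 : ℕ, ∀ x : ℕ, x0 ≤ x → ∀ z Jw ts : ℕ,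
    (x : ℝ) ^ η ≤ z → z ≤ x → Real.log x ^ As ≤ ((2 ^ 2 ^ Jw : ℕ) : ℝ) → ((2 ^ 2 ^ Jw : ℕ) : ℝ) ≤ Real.log x ^ E →
    Real.log x ^ (As + 5) ≤ (2 : ℝ) ^ ts → (2 : ℝ) ^ ts ≤ Real.log x ^ E →
    ∀ g : ℕ → ℝ, Ok M g → EqD x z ts (2 ^ 2 ^ Jw) As g := by
  obtain ⟨T, hT⟩ : ∃ T : ℕ, T = 2 ^ ⌊3 / η⌋₊ := ⟨_, rfl⟩
  have hT1 : 1 ≤ T := by rw [hT]; exact Nat.one_le_two_pow
  obtain ⟨x0, h0⟩ := eqd_gen η hη (M * T) As E (Nat.mul_le_mul hM hT1)
  refine ⟨max x0 2, fun x hx z Jw ts hz hzx hw1 hw2 ht1 ht2 g hg => ?_⟩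
  have hdiv : ∀ k, k ≤ x ^ 3 → Rough z k → #k.divisors ≤ T := fun k hk hkr => by
    have := RX1.div_le η hη x z k (by omega) hz hk hkr
    rw [hT]
    omega
  refine h0 x (by omega) z Jw ts hz hzx hw1 hw2 ht1 ht2 g (fun k hk hkr => ?_) (fun m hm hmr => ?_)
  · refine (hg.1 k hkr.1).trans ?_
    have : (#k.divisors : ℝ) ≤ T := by exact_mod_cast hdiv k hk hkr
    push_cast
    exact mul_le_mul_of_nonneg_left this (Nat.cast_nonneg _)
  · exact (hg.2 m hmr.1).mono (Nat.mul_le_mul_left _ (hdiv m hm hmr))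

/-- the combination of the type II functions in a list (coefficient, first function, lower end, second function) -/
noncomputable def Lt (z y : ℕ) (l : List (ℝ × (ℕ → ℝ) × ℕ × (ℕ → ℝ))) (N : ℕ) : ℝ :=
  (l.map (fun t => t.1 * T2 z t.2.2.1 y t.2.1 t.2.2.2 N)).sum

lemma Lt_nil (z y N : ℕ) : Lt z y [] N = 0 := by simp [Lt]

lemma Lt_cons (z y : ℕ) (t : ℝ × (ℕ → ℝ) × ℕ × (ℕ → ℝ)) (l : List (ℝ × (ℕ → ℝ) × ℕ × (ℕ → ℝ))) (N : ℕ) :
    Lt z y (t :: l) N = t.1 * T2 z t.2.2.1 y t.2.1 t.2.2.2 N + Lt z y l N := by simp [Lt]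

section

variable (a b : ℤ) (x1 x c w : ℕ)

lemma Phi_zero : Phi a b x1 x c w (fun _ => 0) = 0 := by
  unfold Phi Lc Ls
  simp

lemma Phi_Sv (g : ℕ → ℝ) (z U y K : ℕ) (zs : ℕ → ℕ) : |Phi a b x1 x c w (Sv g z U y K zs)| ≤
    |Phi a b x1 x c w (T1 z U g)| +
    ∑ i ∈ range K, (|Phi a b x1 x c w (T2 z U y (alg g (zs i) (zs (i + 1)) U) (rg (zs (i + 1))))| +
      |Phi a b x1 x c w (T2 z U y (rg (zs (i + 1))) (alg g (zs i) (zs (i + 1)) U))|) := by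
  have e : Sv g z U y K zs = fun N => T1 z U g N -
    ∑ i ∈ range K, (T2 z U y (alg g (zs i) (zs (i + 1)) U) (rg (zs (i + 1))) N +
      T2 z U y (rg (zs (i + 1))) (alg g (zs i) (zs (i + 1)) U) N) := by
    funext N
    rfl
  rw [e, L9.Phi_sub, L9.Phi_sum]
  simp only [L9.Phi_add]
  have h1 : |∑ i ∈ range K, (Phi a b x1 x c w (T2 z U y (alg g (zs i) (zs (i + 1)) U) (rg (zs (i + 1)))) +
      Phi a b x1 x c w (T2 z U y (rg (zs (i + 1))) (alg g (zs i) (zs (i + 1)) U)))| ≤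
      ∑ i ∈ range K, (|Phi a b x1 x c w (T2 z U y (alg g (zs i) (zs (i + 1)) U) (rg (zs (i + 1))))| +
      |Phi a b x1 x c w (T2 z U y (rg (zs (i + 1))) (alg g (zs i) (zs (i + 1)) U))|) :=
    (abs_sum_le_sum_abs _ _).trans (sum_le_sum fun i _ => abs_add_le _ _)
  refine (abs_sub _ _).trans ?_
  linarith

end

/-- sums over `c` of the type II part -/
lemma sum_Phi_Lt (a b : ℤ) (x1 x w z y : ℕ) (Gd : Finset ℕ) (X M : ℝ) (l : List (ℝ × (ℕ → ℝ) × ℕ × (ℕ → ℝ)))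
    (h : ∀ t ∈ l, |t.1| ≤ M ∧ ∑ c ∈ Gd, |Phi a b x1 x c w (T2 z t.2.2.1 y t.2.1 t.2.2.2)| ≤ X) :
    ∑ c ∈ Gd, |Phi a b x1 x c w (Lt z y l)| ≤ l.length * (M * X) := by
  induction l with
  | nil =>
    have e : Lt z y [] = fun _ => 0 := by funext N; rw [Lt_nil]
    rw [e]
    simp [Phi_zero]
  | cons t l ih =>
    have e : Lt z y (t :: l) = fun N => (fun N => t.1 * T2 z t.2.2.1 y t.2.1 t.2.2.2 N) N + Lt z y l N := by
      funext N; rw [Lt_cons]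
    have h1 := ih (fun s hs => h s (List.mem_cons_of_mem _ hs))
    obtain ⟨h2, h3⟩ := h t List.mem_cons_self
    rw [e]
    have h4 : ∀ c ∈ Gd, |Phi a b x1 x c w (fun N => (fun N => t.1 * T2 z t.2.2.1 y t.2.1 t.2.2.2 N) N + Lt z y l N)| ≤
        |t.1| * |Phi a b x1 x c w (T2 z t.2.2.1 y t.2.1 t.2.2.2)| + |Phi a b x1 x c w (Lt z y l)| := by
      intro c _
      rw [L9.Phi_add, L9.Phi_smul]
      refine (abs_add_le _ _).trans ?_
      rw [abs_mul]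
    refine (sum_le_sum h4).trans ?_
    rw [sum_add_distrib, ← mul_sum]
    have h5 : |t.1| * ∑ c ∈ Gd, |Phi a b x1 x c w (T2 z t.2.2.1 y t.2.1 t.2.2.2)| ≤ M * X :=
      mul_le_mul h2 h3 (sum_nonneg fun _ _ => abs_nonneg _) ((abs_nonneg _).trans h2)
    rw [List.length_cons]
    push_cast
    linarith

/-- the final inequality -/
lemma fin_ineqG (κ L CX M0 K1 q1 q2 B : ℝ) (K : ℕ) (sT1 sK sL bc bs : ℝ) (hκ : 0 ≤ κ) (hL : 0 < L) (hCX : 0 ≤ CX)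
    (hM0 : 0 ≤ M0) (hK1 : 1 ≤ K1)
    (hq1 : M0 * (1 + K1) * q1 ≤ κ / 8) (hq2 : M0 * (1 + K1) * q2 ≤ κ / 8)
    (h1 : 4 * L * sT1 ≤ κ * CX) (hK : sK ≤ (K : ℝ) * (2 * (CX / L ^ 2)))
    (h3 : sL ≤ B * (CX / L ^ 2))
    (hbc : bc ≤ q1 * (CX / L) + CX / L ^ 2 + q2 * (CX / L)) (hbs : bs ≤ q1 * (CX / L) + CX / L ^ 2 + q2 * (CX / L))
    (hLb : 4 * (2 * K + B + M0 * (1 + K1)) ≤ κ * L) :
    sT1 + sK + sL + M0 * bc + K1 * (M0 * bs) ≤ κ * (CX / L) := by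
  obtain ⟨X, hX⟩ : ∃ X : ℝ, X = CX / L := ⟨_, rfl⟩
  have hX0 : 0 ≤ X := by rw [hX]; positivity
  have e1 : CX / L ^ 2 = X / L := by rw [hX]; field_simp
  have e2 : CX = X * L := by rw [hX]; field_simp
  rw [e1] at hK h3 hbc hbs
  rw [← hX] at hbc hbs ⊢
  have hT : sT1 ≤ κ / 4 * X := by
    rw [e2] at h1
    have : (4 * sT1) * L ≤ (κ * X) * L := by linarith
    have := le_of_mul_le_mul_right this hL
    linarith
  have hMb : M0 * bc ≤ M0 * (q1 * X + X / L + q2 * X) := mul_le_mul_of_nonneg_left hbc hM0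
  have hMs : K1 * (M0 * bs) ≤ K1 * (M0 * (q1 * X + X / L + q2 * X)) :=
    mul_le_mul_of_nonneg_left (mul_le_mul_of_nonneg_left hbs hM0) (by linarith)
  have hs : M0 * (1 + K1) * q1 * X ≤ κ / 8 * X := mul_le_mul_of_nonneg_right hq1 hX0
  have hs2 : M0 * (1 + K1) * q2 * X ≤ κ / 8 * X := mul_le_mul_of_nonneg_right hq2 hX0
  have hY : (2 * K + B + M0 * (1 + K1)) * (X / L) ≤ κ / 4 * X := by
    rw [mul_div_assoc', div_le_iff₀ hL]
    have : (2 * K + B + M0 * (1 + K1)) * X ≤ (κ * L / 4) * X := mul_le_mul_of_nonneg_right (by linarith) hX0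
    linarith
  have hκX : 0 ≤ κ * X := mul_nonneg hκ hX0
  linarith

end Pool.Agent.H568
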