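import Mathlib
import Pool.Agent.H568.Sv

/-!
The pointwise inequalities for the lower bound function.
-/

set_option autoImplicit false

namespace Pool.Agent.H568

open Finset Pool.Agent.N792 Pool.Agent.N792.RX5
open Pool.Agent.N792.SwR (rough_of_dvd)
open ArithmeticFunction (moebius)

open Classical in
/-- `μ(d)` if `d` has at most one prime factor `> Q` -/
noncomputable def g1 (Q d : ℕ) : ℝ := if #(d.primeFactors.filter (fun p => Q < p)) ≤ 1 then (moebius d : ℝ) else 0

open Classical in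
/-- the indicator function of the products of five different primes greater than `Q` -/
noncomputable def pi5 (Q k : ℕ) : ℝ := if Squarefree k ∧ Rough Q k ∧ w k = 5 then 1 else 0

/-- the number of the divisors `j ≤ U` which are products of two primes, for products of three or four primes -/
noncomputable def Bs (Q U N : ℕ) : ℝ := ∑ j ∈ N.divisors.filter (fun j => j ≤ U), pi2 Q j * (pi0 (N / j) + pi2 Q (N / j))

/-- the combination of type I and type II functions for the lower bound -/
noncomputable def H1 (z U y Q V K : ℕ) (zs : ℕ → ℕ) (N : ℕ) : ℝ :=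
  Sv (g1 Q) z U y K zs N - T2 z U y pi0 pi0 N - T2 z U y pi0 (pi2 Q) N + 2 * T2 z V y pi0 (pi2 Q) N +
    T2 z U y (pi2 Q) pi0 N + T2 z U y (pi2 Q) (pi2 Q) N

/-- what is lost -/
noncomputable def W1 (Q U V N : ℕ) : ℝ := 2 * pi3 Q V N + Bs Q U N + 4 * pi5 Q N

lemma mu_abs (d : ℕ) : |(moebius d : ℝ)| ≤ 1 := by
  have := ArithmeticFunction.abs_moebius_le_one (n := d)
  exact_mod_cast this

lemma g1_abs (Q d : ℕ) : |g1 Q d| ≤ 1 := by
  unfold g1
  split_ifs
  · exact mu_abs d
  · simp

lemma g1_sq (Q d : ℕ) (h : g1 Q d ≠ 0) : Squarefree d := by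
  by_contra hns
  apply h
  unfold g1
  rw [ArithmeticFunction.moebius_eq_zero_of_not_squarefree hns]
  simp

lemma mu_mul {d q : ℕ} (hq : q.Prime) (hqd : ¬ q ∣ d) : (moebius (d * q) : ℝ) = - moebius d := by
  have hcop : d.Coprime q := ((Nat.Prime.coprime_iff_not_dvd hq).2 hqd).symm
  have : moebius (d * q) = - moebius d := by
    rw [ArithmeticFunction.isMultiplicative_moebius.map_mul_of_coprime hcop,
      ArithmeticFunction.moebius_apply_prime hq]
    ring
  rw [this]
  push_cast
  ring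

/-- the prime factors `> Q` of `d q` -/
lemma big_mul {d q Q : ℕ} (hd : d ≠ 0) (hq : q.Prime) (hqd : ¬ q ∣ d) :
    #((d * q).primeFactors.filter (fun p => Q < p)) = #(d.primeFactors.filter (fun p => Q < p)) + (if Q < q then 1 else 0) := by
  rw [Nat.primeFactors_mul hd hq.ne_zero, hq.primeFactors, filter_union, card_union_of_disjoint]
  · congr 1
    rw [filter_singleton]
    split_ifs <;> simp
  · rw [disjoint_left]
    intro p h1 h2
    rw [mem_filter] at h1 h2
    rw [mem_singleton.1 h2.1] at h1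
    exact hqd (Nat.dvd_of_mem_primeFactors h1.1)

lemma g1_mul (Q d q : ℕ) (hq : q.Prime) (hqQ : q ≤ Q) (hqd : ¬ q ∣ d) : g1 Q (d * q) = - g1 Q d := by
  have hd : d ≠ 0 := by
    rintro rfl
    exact hqd (dvd_zero q)
  unfold g1
  rw [big_mul hd hq hqd, if_neg (by omega : ¬ Q < q), add_zero, mu_mul hq hqd]
  split_ifs <;> simp

lemma SL_g1 (Q e : ℕ) (he : e ≠ 0) : SL e 2 (fun P => g1 Q (e * P)) := by
  classical
  have h1 := (SL.const e (- g1 Q e) (by rw [abs_neg]; exact g1_abs Q e)).add
    (SL.step e Q (if #(e.primeFactors.filter (fun p => Q < p)) = 1 then (moebius e : ℝ) else 0) (by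
      split_ifs
      · exact mu_abs e
      · simp))
  refine h1.congr (fun P hP hPe => ?_)
  simp only [g1]
  rw [big_mul he hP hPe, mu_mul hP hPe]
  generalize #(e.primeFactors.filter (fun p => Q < p)) = k
  by_cases c1 : Q < P
  · simp only [c1, if_true, mul_one]
    rcases Nat.lt_trichotomy k 1 with h | h | h
    · rw [if_pos (by omega), if_pos (by omega), if_neg (by omega), add_zero]
    · rw [if_neg (by omega), if_pos (by omega), if_pos (by omega)]; ring
    · rw [if_neg (by omega), if_neg (by omega), if_neg (by omega)]; ring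
  · simp only [c1, if_false, mul_zero, add_zero]
    split_ifs <;> ring

lemma pi5_le (Q k : ℕ) : 0 ≤ pi5 Q k ∧ pi5 Q k ≤ 1 := by
  unfold pi5
  split_ifs <;> norm_num

lemma Bs_nonneg (Q U N : ℕ) : 0 ≤ Bs Q U N := by
  unfold Bs
  refine sum_nonneg fun j _ => mul_nonneg (Pt.pi2_le Q j).1 ?_
  have := (Pt.pi0_le (N / j)).1
  have := (Pt.pi2_le Q (N / j)).1
  linarith

lemma W1_nonneg (Q U V N : ℕ) : 0 ≤ W1 Q U V N := by
  unfold W1
  have := (Pt.pi3_le Q V N).1
  have := Bs_nonneg Q U N
  have := (pi5_le Q N).1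
  linarith

/-- the sieve part at a `Q`-rough number -/
lemma Sv_g1 {z U y Q K N : ℕ} {zs : ℕ → ℕ} (hU : 1 ≤ U)
    (hzK : zs K = Q) (hmono0 : ∀ i < K, zs i ≤ zs (i + 1)) (hro : Rough z N) (hsq : Squarefree N) (hr : Rough Q N) :
    Sv (g1 Q) z U y K zs N = 1 - (#(N.divisors.filter (fun j => w j = 1 ∧ j ≤ U)) : ℝ) := by
  classical
  rw [Sv_case2 hzK hmono0 hro hr, sum_filter, card_filter, Nat.cast_sum]
  have h1 : ∑ j ∈ N.divisors, (if j = 1 then (1 : ℝ) else 0) = 1 := by
    rw [sum_ite_eq' N.divisors 1 (fun _ => (1 : ℝ)), if_pos (Nat.one_mem_divisors.2 hro.1)]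
  rw [← h1, ← sum_sub_distrib]
  apply sum_congr rfl
  intro j hj
  rw [Nat.mem_divisors] at hj
  have hjs : Squarefree j := hsq.squarefree_of_dvd hj.1
  have hjr : Rough Q j := rough_of_dvd hr hj.1
  have hfil : j.primeFactors.filter (fun p => Q < p) = j.primeFactors := by
    apply filter_true_of_mem
    intro p hp
    rw [Nat.mem_primeFactors] at hp
    exact hjr.2 p hp.1 hp.2.1
  by_cases h2 : j ≤ U
  · rw [if_pos h2]
    unfold g1
    rw [hfil]
    change (if w j ≤ 1 then (moebius j : ℝ) else 0) = _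
    rcases Nat.lt_trichotomy (w j) 1 with h4 | h4 | h4
    · have h5 := one_of_w hjs (by omega)
      have h6 : w j = 0 := by omega
      subst h5
      simp [h6]
    · have h6 := prime_of_w hjs h4
      rw [if_pos (by omega), ArithmeticFunction.moebius_apply_prime h6]
      simp [h2, h4, h6.ne_one]
    · rw [if_neg (by omega)]
      have : j ≠ 1 := by
        rintro rfl
        simp [w] at h4
      have h7 : w j ≠ 1 := by omega
      simp [this, h7]
  · have h3 : j ≠ 1 := by omega
    simp [h2, h3]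

/-- the sum `Bs` at a product of three or four primes -/
lemma Bs_w {Q U N : ℕ} (hsq : Squarefree N) (hr : Rough Q N) (hk : w N = 3 ∨ w N = 4) :
    Bs Q U N = #(N.divisors.filter (fun j => w j = 2 ∧ j ≤ U)) := by
  classical
  unfold Bs
  rw [sum_filter, card_filter, Nat.cast_sum]
  apply sum_congr rfl
  intro j hj
  rw [Nat.mem_divisors] at hj
  have hd := Nat.div_dvd_of_dvd hj.1
  have h1 := w_add hsq hj.1
  rw [pi2_w (hsq.squarefree_of_dvd hj.1) (rough_of_dvd hr hj.1),
    pi2_w (hsq.squarefree_of_dvd hd) (rough_of_dvd hr hd), pi0_w (hsq.squarefree_of_dvd hd)]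
  by_cases h2 : w j = 2
  · rcases hk with hk | hk
    · have h3 : w (N / j) = 1 := by omega
      simp [h2, h3]
    · have h3 : w (N / j) = 2 := by omega
      simp [h2, h3]
  · simp [h2]

/-- a pair of small product among three primes with a small product -/
lemma small_pair {Q U N p : ℕ} (hsq : Squarefree N) (hr : Rough Q N) (hk : w N = 4) (hp : p.Prime) (hpN : p ∣ N) (hpU : U < p)
    (hN : N * N ≤ U ^ 5) : 1 ≤ #(N.divisors.filter (fun j => w j = 2 ∧ j ≤ U)) := by
  classical
  obtain ⟨M, hM⟩ : ∃ M, M = N / p := ⟨_, rfl⟩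
  have hMN : p * M = N := by rw [hM]; exact Nat.mul_div_cancel' hpN
  have hMd : M ∣ N := ⟨p, by rw [← hMN, mul_comm]⟩
  have hMs : Squarefree M := hsq.squarefree_of_dvd hMd
  have hwM : w M = 3 := by
    have := w_add hsq hpN
    rw [w_prime hp, ← hM] at this
    omega
  obtain ⟨a, b, c, hab, hac, hbc, hS⟩ := card_eq_three.1 hwM
  have hprod := Nat.prod_primeFactors_of_squarefree hMs
  rw [hS, prod_insert (by simp [hab, hac]), prod_pair hbc] at hprod
  have ha : a.Prime := Nat.prime_of_mem_primeFactors (by rw [hS]; simp)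
  have hb : b.Prime := Nat.prime_of_mem_primeFactors (by rw [hS]; simp)
  have hc : c.Prime := Nat.prime_of_mem_primeFactors (by rw [hS]; simp)
  have hw2 : ∀ s t : ℕ, s.Prime → t.Prime → s ≠ t → w (s * t) = 2 := by
    intro s t hs ht hst
    have hcop : Nat.Coprime s t := (Nat.coprime_primes hs ht).2 hst
    rw [w, hcop.primeFactors_mul, card_union_of_disjoint hcop.disjoint_primeFactors, hs.primeFactors, ht.primeFactors]
    simp
  have hex : ∃ j, j ∣ N ∧ w j = 2 ∧ j ≤ U := by
    by_contra hcon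
    push Not at hcon
    have d1 : a * b ∣ N := Dvd.dvd.trans ⟨c, by rw [← hprod]; ring⟩ hMd
    have d2 : a * c ∣ N := Dvd.dvd.trans ⟨b, by rw [← hprod]; ring⟩ hMd
    have d3 : b * c ∣ N := Dvd.dvd.trans ⟨a, by rw [← hprod]; ring⟩ hMd
    have e1 := hcon _ d1 (hw2 a b ha hb hab)
    have e2 := hcon _ d2 (hw2 a c ha hc hac)
    have e3 := hcon _ d3 (hw2 b c hb hc hbc)
    have e4 : U * U * U < M * M := by
      have h1 : (a * b) * (a * c) * (b * c) = M * M := by rw [← hprod]; ring
      rw [← h1]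
      have h2 : U * U < (a * b) * (a * c) := Nat.mul_lt_mul'' e1 e2
      exact Nat.mul_lt_mul'' h2 e3
    have e5 : U * M < N := by
      rw [← hMN]
      exact Nat.mul_lt_mul_of_pos_right hpU (Nat.pos_of_ne_zero hMs.ne_zero)
    have e6 : (U * U) * (U * U * U) ≤ (U * U) * (M * M) := Nat.mul_le_mul_left _ e4.le
    have e7 : (U * U) * (M * M) = (U * M) * (U * M) := by ring
    have e8 : (U * M) * (U * M) < N * N := Nat.mul_lt_mul'' e5 e5
    have e9 : U ^ 5 = (U * U) * (U * U * U) := by ring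
    omega
  obtain ⟨j, j1, j2, j3⟩ := hex
  exact card_pos.2 ⟨j, mem_filter.2 ⟨Nat.mem_divisors.2 ⟨j1, hsq.ne_zero⟩, j2, j3⟩⟩

/-- at most one prime factor is `> U`, for products of four primes -/
lemma three_small {Q U N : ℕ} (hsq : Squarefree N) (hr : Rough Q N) (hk : w N = 4) (hN : N < U * U * (Q * Q)) :
    3 ≤ #(N.divisors.filter (fun j => w j = 1 ∧ j ≤ U)) := by
  classical
  by_contra hcon
  push Not at hcon
  have n1 : #(N.divisors.filter (fun j => w j = 1)) = 4 := by rw [c1 hsq]; exact hk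
  have h2 : 1 < #(N.divisors.filter (fun j => w j = 1 ∧ U < j)) := by
    have := split2 N.divisors (y := U) (a := 1)
    omega
  obtain ⟨p, hp, q, hq, hpq⟩ := one_lt_card.1 h2
  rw [mem_filter, Nat.mem_divisors] at hp hq
  have hpp := prime_of_w (hsq.squarefree_of_dvd hp.1.1) hp.2.1
  have hqp := prime_of_w (hsq.squarefree_of_dvd hq.1.1) hq.2.1
  have hc : Nat.Coprime p q := (Nat.coprime_primes hpp hqp).2 hpq
  have h5 : p * q ∣ N := hc.mul_dvd_of_dvd_of_dvd hp.1.1 hq.1.1
  have h6 : w (p * q) = 2 := by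
    rw [w, hc.primeFactors_mul, card_union_of_disjoint hc.disjoint_primeFactors, hpp.primeFactors, hqp.primeFactors]
    simp
  have h7 := w_add hsq h5
  have h8 : w (N / (p * q)) = 2 := by omega
  have h9 := w_pow (rough_of_dvd hr (Nat.div_dvd_of_dvd h5))
  rw [h8] at h9
  have h10 := Nat.mul_div_cancel' h5
  have h11 : U * U ≤ p * q := Nat.mul_le_mul hp.2.2.le hq.2.2.le
  have h12 : Q * Q ≤ (Q + 1) ^ 2 := by nlinarith
  have h13 : U * U * (Q * Q) ≤ p * q * (N / (p * q)) := Nat.mul_le_mul h11 (h12.trans h9)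
  omega

/-- at least one prime factor is `≤ U`, for products of five primes -/
lemma one_small {U N : ℕ} (hsq : Squarefree N) (hk : w N = 5) (hN : N ≤ U ^ 5) :
    1 ≤ #(N.divisors.filter (fun j => w j = 1 ∧ j ≤ U)) := by
  classical
  by_contra hcon
  have h0 : #(N.divisors.filter (fun j => w j = 1 ∧ j ≤ U)) = 0 := by omega
  rw [card_eq_zero] at h0
  have hr : Rough U N := by
    refine ⟨hsq.ne_zero, fun p hp hpN => ?_⟩
    by_contra h
    push Not at h
    have : p ∈ N.divisors.filter (fun j => w j = 1 ∧ j ≤ U) :=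
      mem_filter.2 ⟨Nat.mem_divisors.2 ⟨hpN, hsq.ne_zero⟩, w_prime hp, h⟩
    rw [h0] at this
    simp at this
  have h1 := w_pow hr
  rw [hk] at h1
  have h2 : U ^ 5 < (U + 1) ^ 5 := Nat.pow_lt_pow_left (by omega) (by norm_num)
  omega

/-- **the pointwise inequalities, for numbers whose prime factors are all `> Q`** -/
lemma H1_case2 {z U y Q V K N : ℕ} {zs : ℕ → ℕ} (hU : 1 ≤ U) (hUV : U ≤ V) (hVy : V ≤ y)
    (hzK : zs K = Q) (hmono0 : ∀ i < K, zs i ≤ zs (i + 1)) (hyN : y * y < N) (hN6 : N < Q ^ 6)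
    (hUUQQ : N < U * U * (Q * Q)) (hNU : N * N ≤ U ^ 5) (hNV : N ≤ V * V * Q)
    (hsq : Squarefree N) (hro : Rough z N) (hne : ∀ j, j ∣ N → ¬ (y ≤ j ∧ y ≤ N / j))
    (hr : Rough Q N) :
    H1 z U y Q V K zs N ≤ pi0 N ∧ pi0 N - W1 Q U V N ≤ H1 z U y Q V K zs N := by
  classical
  have hN0 := hro.1
  have hf1 : ∀ j, j ∣ N → pi0 j = if w j = 1 then 1 else 0 := fun j hj => pi0_w (hsq.squarefree_of_dvd hj)
  have hf2 : ∀ j, j ∣ N → pi2 Q j = if w j = 2 then 1 else 0 :=
    fun j hj => pi2_w (hsq.squarefree_of_dvd hj) (rough_of_dvd hr hj)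
  have hwp := w_pow hr
  have hw1 : w N ≠ 0 := by
    intro h
    have h1 := one_of_w hsq h
    subst h1
    have : y = 0 := by nlinarith
    omega
  have hw6 : w N < 6 := by
    by_contra h
    push Not at h
    have h5 : (Q + 1) ^ 6 ≤ (Q + 1) ^ w N := Nat.pow_le_pow_right (by omega) h
    have h6 : Q ^ 6 ≤ (Q + 1) ^ 6 := Nat.pow_le_pow_left (by omega) 6
    omega
  have hW := W1_nonneg Q U V N
  have hp5 : w N = 5 → pi5 Q N = 1 := fun h => by unfold pi5; rw [if_pos ⟨hsq, hr, h⟩]
  have hp50 := (pi5_le Q N).1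
  have hp30 := (Pt.pi3_le Q V N).1
  unfold H1
  unfold W1 at hW ⊢
  rw [Sv_g1 hU hzK hmono0 hro hsq hr, T2_w hro hsq hf1 hf1, T2_w hro hsq hf1 hf2, T2_w hro hsq hf1 hf2,
    T2_w hro hsq hf2 hf1, T2_w hro hsq hf2 hf2, hf1 N dvd_rfl]
  have s1 := split1 N.divisors (U := U) (y := y) (a := 1) (by omega)
  have s2 := split2 N.divisors (y := y) (a := 1)
  have s3 := split3 N.divisors (V := V) (y := y) (a := 1) hVy
  have s4 := split1 N.divisors (U := U) (y := y) (a := 2) (by omega)
  have s5 := split2 N.divisors (y := y) (a := 2)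
  have n1 : #(N.divisors.filter (fun j => w j = 1)) = w N := by rw [c1 hsq, w]
  have n2 := c2 hsq
  rw [n1] at s2
  rw [n2] at s5
  have hB : w N = 3 ∨ w N = 4 → Bs Q U N = #(N.divisors.filter (fun j => w j = 2 ∧ j ≤ U)) := fun h => Bs_w hsq hr h
  have hBn := Bs_nonneg Q U N
  have h4a : w N = 4 → 3 ≤ #(N.divisors.filter (fun j => w j = 1 ∧ j ≤ U)) := fun h => three_small hsq hr h hUUQQ
  have h4b : w N = 4 → #(N.divisors.filter (fun j => w j = 1 ∧ j ≤ U)) < 4 →
      1 ≤ #(N.divisors.filter (fun j => w j = 2 ∧ j ≤ U)) := by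
    intro hk hlt
    have h2 : 0 < #(N.divisors.filter (fun j => w j = 1 ∧ U < j)) := by
      have := split2 N.divisors (y := U) (a := 1)
      omega
    obtain ⟨p, hp⟩ := card_pos.1 h2
    rw [mem_filter, Nat.mem_divisors] at hp
    exact small_pair hsq hr hk (prime_of_w (hsq.squarefree_of_dvd hp.1.1) hp.2.1) hp.1.1 hp.2.2 hNU
  have h5a : w N = 5 → 1 ≤ #(N.divisors.filter (fun j => w j = 1 ∧ j ≤ U)) := by
    intro h
    refine one_small hsq h ?_
    have : N ≤ N * N := Nat.le_mul_self N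
    omega
  generalize e1 : #(N.divisors.filter (fun j => w j = 1 ∧ U < j ∧ j ≤ y)) = A1 at *
  generalize e2 : #(N.divisors.filter (fun j => w j = 1 ∧ V < j ∧ j ≤ y)) = A2 at *
  generalize e3 : #(N.divisors.filter (fun j => w j = 2 ∧ U < j ∧ j ≤ y)) = A3 at *
  have hcases : w N = 1 ∨ w N = 2 ∨ w N = 3 ∨ w N = 4 ∨ w N = 5 := by omega
  rcases hcases with hk | hk | hk | hk | hk
  · -- `N` is a prime
    have n4 : #(N.divisors.filter (fun j => w j = 1 ∧ j ≤ U)) = 0 := by
      rw [card_eq_zero]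
      apply filter_eq_empty_iff.2
      rintro j hj ⟨h1, h2⟩
      rw [Nat.mem_divisors] at hj
      have h3 := prime_of_w hsq hk
      rcases (Nat.dvd_prime h3).1 hj.1 with h4 | h4
      · rw [h4, w] at h1
        simp at h1
      · have h9 : y ≤ y * y := Nat.le_mul_self y
        omega
    rw [n4]
    simp only [hk]
    norm_num
    linarith
  · have i1 := inv (a := 1) (b := 1) hsq hyN hne (by omega)
    rw [hk] at s2
    generalize #(N.divisors.filter (fun j => w j = 1 ∧ j ≤ U)) = A4 at *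
    generalize #(N.divisors.filter (fun j => w j = 1 ∧ j ≤ y)) = A5 at *
    generalize #(N.divisors.filter (fun j => w j = 1 ∧ y < j)) = A6 at *
    have h6 : A4 + A1 = 1 := by omega
    have h7 : (A4 : ℝ) + A1 = 1 := by exact_mod_cast h6
    simp only [hk]
    norm_num
    constructor <;> linarith
  · have i1 := inv (a := 2) (b := 1) hsq hyN hne (by omega)
    rw [hk] at s2
    have hB' := hB (Or.inl hk)
    have hV : (#(N.divisors.filter (fun j => w j = 1 ∧ V < j)) : ℝ) = 1 - pi3 Q V N := by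
      rw [pi3_w hsq hr]
      split_ifs with h
      · rw [sub_self, Nat.cast_eq_zero, card_eq_zero]
        apply filter_eq_empty_iff.2
        rintro j hj ⟨h1, h2⟩
        rw [Nat.mem_divisors] at hj
        have h3 := prime_of_w (hsq.squarefree_of_dvd hj.1) h1
        have := h.2 j (Nat.mem_primeFactors.2 ⟨h3, hj⟩)
        omega
      · rw [sub_zero, Nat.cast_eq_one, card_eq_one]
        push Not at h
        obtain ⟨p, hp, hpV⟩ := h hk
        rw [Nat.mem_primeFactors] at hp
        refine ⟨p, ?_⟩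
        ext j
        rw [mem_filter, Nat.mem_divisors, mem_singleton]
        constructor
        · rintro ⟨h1, h2, h3⟩
          by_contra hjp
          have h4 := prime_of_w (hsq.squarefree_of_dvd h1.1) h2
          have hc : Nat.Coprime j p := (Nat.coprime_primes h4 hp.1).2 hjp
          have h5 : j * p ∣ N := hc.mul_dvd_of_dvd_of_dvd h1.1 hp.2.1
          have h6 : w (j * p) = 2 := by
            rw [w, hc.primeFactors_mul, card_union_of_disjoint hc.disjoint_primeFactors, h4.primeFactors,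
              hp.1.primeFactors]
            simp
          have h7 := w_add hsq h5
          have h8 : w (N / (j * p)) = 1 := by omega
          have h9 := w_pow (rough_of_dvd hr (Nat.div_dvd_of_dvd h5))
          rw [h8, pow_one] at h9
          have h10 := Nat.mul_div_cancel' h5
          have h11 : V * V ≤ j * p := Nat.mul_le_mul h3.le hpV.le
          have h12 : j * p * (Q + 1) ≤ N := by
            calc j * p * (Q + 1) ≤ j * p * (N / (j * p)) := Nat.mul_le_mul le_rfl h9
              _ = N := h10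
          have h13 : 0 < j * p := Nat.mul_pos h4.pos hp.1.pos
          nlinarith
        · rintro rfl
          exact ⟨hp.2, w_prime hp.1, hpV⟩
    generalize #(N.divisors.filter (fun j => w j = 1 ∧ j ≤ U)) = A4 at *
    generalize #(N.divisors.filter (fun j => w j = 2 ∧ j ≤ U)) = B4 at *
    generalize #(N.divisors.filter (fun j => w j = 1 ∧ j ≤ y)) = A5 at *
    generalize #(N.divisors.filter (fun j => w j = 1 ∧ y < j)) = A6 at *
    generalize #(N.divisors.filter (fun j => w j = 2 ∧ j ≤ y)) = A7 at *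
    generalize #(N.divisors.filter (fun j => w j = 1 ∧ V < j)) = A8 at *
    have t1 : (A4 : ℝ) + A1 + A6 = 3 := by
      have : A4 + A1 + A6 = 3 := by omega
      exact_mod_cast this
    have t2 : (A2 : ℝ) + A6 = A8 := by exact_mod_cast s3
    have t3 : (A3 : ℝ) + B4 = A6 := by
      have : A3 + B4 = A6 := by omega
      exact_mod_cast this
    have t4 : (0 : ℝ) ≤ B4 := Nat.cast_nonneg _
    rw [hB']
    simp only [hk]
    norm_num
    constructor <;> linarith
  · have i1 := inv (a := 2) (b := 2) hsq hyN hne (by omega)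
    rw [hk] at s5 s2
    have hB' := hB (Or.inr hk)
    have g1 := h4a hk
    have g2 := h4b hk
    have c42 : Nat.choose 4 2 = 6 := by decide
    rw [c42] at s5
    generalize #(N.divisors.filter (fun j => w j = 1 ∧ j ≤ U)) = A4 at *
    generalize #(N.divisors.filter (fun j => w j = 2 ∧ j ≤ U)) = B4 at *
    generalize #(N.divisors.filter (fun j => w j = 1 ∧ j ≤ y)) = A5 at *
    generalize #(N.divisors.filter (fun j => w j = 1 ∧ y < j)) = A6' at *
    generalize #(N.divisors.filter (fun j => w j = 2 ∧ y < j)) = A6 at *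
    generalize #(N.divisors.filter (fun j => w j = 2 ∧ j ≤ y)) = A7 at *
    have t3 : (A3 : ℝ) + B4 = 3 := by
      have : A3 + B4 = 3 := by omega
      exact_mod_cast this
    have t5 : (4 : ℝ) ≤ A4 + B4 := by
      have : 4 ≤ A4 + B4 := by
        rcases Nat.lt_or_ge A4 4 with h | h
        · have := g2 h
          omega
        · omega
      exact_mod_cast this
    have t6 : (A4 : ℝ) ≤ 4 := by
      have : A4 ≤ 4 := by omega
      exact_mod_cast this
    rw [hB']
    simp only [hk]
    norm_num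
    constructor <;> linarith
  · have g1 := h5a hk
    have g2 := hp5 hk
    rw [hk] at s2
    generalize #(N.divisors.filter (fun j => w j = 1 ∧ j ≤ U)) = A4 at *
    generalize #(N.divisors.filter (fun j => w j = 1 ∧ j ≤ y)) = A5 at *
    generalize #(N.divisors.filter (fun j => w j = 1 ∧ y < j)) = A6 at *
    have t5 : (1 : ℝ) ≤ A4 := by exact_mod_cast g1
    have t6 : (A4 : ℝ) ≤ 5 := by
      have : A4 ≤ 5 := by omega
      exact_mod_cast this
    rw [g2]
    simp only [hk]
    norm_num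
    constructor <;> linarith

/-- **the pointwise inequalities for the good numbers** -/
theorem H1_good {z U y Q V K N : ℕ} {zs : ℕ → ℕ} (hU : 1 ≤ U) (hQU : Q ≤ U) (hUV : U ≤ V) (hVy : V ≤ y)
    (hz0 : zs 0 = z) (hzK : zs K = Q) (hmono0 : ∀ i < K, zs i ≤ zs (i + 1)) (hyN : y * y < N) (hN6 : N < Q ^ 6)
    (hUUQ : U * U * Q < N) (hUUQQ : N < U * U * (Q * Q)) (hNU : N * N ≤ U ^ 5) (hNV : N ≤ V * V * Q)
    (hsq : Squarefree N) (hro : Rough z N) (hne : ∀ j, j ∣ N → ¬ (y ≤ j ∧ y ≤ N / j))
    (huniq : ∀ i < K, ∀ p q : ℕ, p.Prime → q.Prime → p ∣ N → q ∣ N → zs i < p → p ≤ zs (i + 1) → zs i < q →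
      q ≤ zs (i + 1) → p = q) :
    H1 z U y Q V K zs N ≤ pi0 N ∧ pi0 N - W1 Q U V N ≤ H1 z U y Q V K zs N := by
  by_cases hQ : Rough Q N
  · exact H1_case2 hU hUV hVy hzK hmono0 hyN hN6 hUUQQ hNU hNV hsq hro hne hQ
  · have hp0 : ∀ j, Q ≤ U → U < j → pi0 j ≠ 0 → Rough Q j := fun j h1 h2 h3 => prime_rough (pi0_ne h3) (by omega)
    have hp1 : ∀ j, j ∣ N → j ≤ y → pi0 (N / j) ≠ 0 → Rough Q (N / j) := by
      intro j hj h1 h3
      refine prime_rough (pi0_ne h3) ?_
      by_contra h
      push Not at h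
      have := Nat.mul_div_cancel' hj
      have h4 : j * (N / j) ≤ y * y := Nat.mul_le_mul h1 (by omega)
      omega
    have e1 : H1 z U y Q V K zs N = 0 := by
      unfold H1
      rw [Sv_case1 (g1_mul Q) hz0 hzK hmono0 hyN hUUQ hsq hro hne huniq hQ,
        T2_zero hro hQ (fun j _ h1 h2 => hp0 j hQU h1 h2) (fun j hj _ h1 h2 => hp1 j hj h1 h2),
        T2_zero hro hQ (fun j _ h1 h2 => hp0 j hQU h1 h2) (fun j hj _ h1 h2 => pi2_ne h2),
        T2_zero hro hQ (fun j _ h1 h2 => prime_rough (pi0_ne h2) (by omega)) (fun j hj _ h1 h2 => pi2_ne h2),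
        T2_zero hro hQ (fun j _ h1 h2 => pi2_ne h2) (fun j hj _ h1 h2 => hp1 j hj h1 h2),
        T2_zero hro hQ (fun j _ h1 h2 => pi2_ne h2) (fun j hj _ h1 h2 => pi2_ne h2)]
      ring
    have h6 : pi0 N = 0 := by
      by_contra h
      have h7 := pi0_ne h
      apply hQ
      refine prime_rough h7 ?_
      have h9 : y ≤ y * y := Nat.le_mul_self y
      omega
    have hW := W1_nonneg Q U V N
    rw [e1, h6]
    constructor <;> linarith

end Pool.Agent.H568
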