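import Mathlib
import Pool.Agent.H568.Mn1

/-!
Sums over primes, compared with finite sums over the cells of a grid.
-/

set_option autoImplicit false

namespace Pool.Agent.H568

open Finset Filter Topology Pool.Agent.N792
open RX4 (Pp mem_Pp)

/-- Mertens -/
lemma mertL (u v ε : ℝ) (hu : 0 < u) (huv : u ≤ v) (hε : 0 < ε) : ∀ᶠ x : ℕ in atTop,
    ∑ p ∈ Pp x u v, (1 : ℝ) / p ≤ Real.log (v / u) + ε := by
  obtain ⟨C, hC0, hC⟩ := Pool.Agent.Helper923.HMertens.mertens_ratio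
  have hl : Tendsto (fun x : ℕ => Real.log x) atTop atTop :=
    Real.tendsto_log_atTop.comp tendsto_natCast_atTop_atTop
  have hl2 : 0 < Real.log 2 := Real.log_pos (by norm_num)
  have hl2' : Real.log 2 ≤ 1 := by linarith [Real.log_two_lt_d9]
  have hv : 0 < v := hu.trans_le huv
  filter_upwards [hl.eventually_ge_atTop (2 * (v / u + ε / 2) / (ε * u)), hl.eventually_ge_atTop ((2 * C / ε + 1) / u),
    hl.eventually_ge_atTop (2 / u), eventually_ge_atTop 1] with x h1 h2 h3 hx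
  have hx0 : (0 : ℝ) < x := by exact_mod_cast hx
  obtain ⟨L, hL⟩ : ∃ L : ℝ, L = Real.log x := ⟨_, rfl⟩
  rw [← hL] at h1 h2 h3
  rw [div_le_iff₀ (by positivity)] at h1 h2 h3
  have hL0 : 0 < L := by
    by_contra hcon
    push Not at hcon
    nlinarith
  -- the end points
  have e1 : (4 : ℝ) ≤ (x : ℝ) ^ u := by
    rw [← Real.log_le_log_iff (by norm_num) (Real.rpow_pos_of_pos hx0 _), Real.log_rpow hx0, ← hL]
    have : Real.log 4 = 2 * Real.log 2 := by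
      rw [show (4 : ℝ) = 2 ^ 2 by norm_num, Real.log_pow]; norm_num
    rw [this]
    linarith
  have e2 : (x : ℝ) ^ u / 2 ≤ (⌊(x : ℝ) ^ u⌋₊ : ℝ) := by
    have := Nat.lt_floor_add_one ((x : ℝ) ^ u)
    linarith
  have e3 : (⌊(x : ℝ) ^ v⌋₊ : ℝ) ≤ (x : ℝ) ^ v := Nat.floor_le (Real.rpow_nonneg hx0.le _)
  have e4 : (2 : ℝ) ≤ (⌊(x : ℝ) ^ u⌋₊ : ℝ) := by linarith
  have e5 : ⌊(x : ℝ) ^ u⌋₊ ≤ ⌊(x : ℝ) ^ v⌋₊ :=
    Nat.floor_le_floor (Real.rpow_le_rpow_of_exponent_le (by exact_mod_cast hx) huv)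
  have e4' : 2 ≤ ⌊(x : ℝ) ^ u⌋₊ := by exact_mod_cast e4
  have e6 : (2 : ℝ) ≤ (⌊(x : ℝ) ^ v⌋₊ : ℝ) := by exact_mod_cast e4'.trans e5
  have l1 : u * L - Real.log 2 ≤ Real.log (⌊(x : ℝ) ^ u⌋₊ : ℝ) := by
    have := Real.log_le_log (by positivity) e2
    rwa [Real.log_div (by positivity) (by norm_num), Real.log_rpow hx0, ← hL] at this
  have l2 : Real.log (⌊(x : ℝ) ^ v⌋₊ : ℝ) ≤ v * L := by
    have := Real.log_le_log (by linarith) e3
    rwa [Real.log_rpow hx0, ← hL] at this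
  obtain ⟨A, hA⟩ : ∃ A : ℝ, A = Real.log (⌊(x : ℝ) ^ u⌋₊ : ℝ) := ⟨_, rfl⟩
  obtain ⟨B, hB⟩ : ∃ B : ℝ, B = Real.log (⌊(x : ℝ) ^ v⌋₊ : ℝ) := ⟨_, rfl⟩
  have key := hC _ _ e4' e5
  rw [← hA] at l1 key
  rw [← hB] at l2 key
  have hB0 : 0 < B := by rw [hB]; exact Real.log_pos (by linarith)
  have hA0 : 0 < A := by nlinarith
  have k1 := (abs_le.1 key).2
  have k3 : B / A ≤ v / u + ε / 2 := by
    rw [div_le_iff₀ hA0]
    have hvu : 0 < v / u + ε / 2 := by positivity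
    have h4 : (v / u + ε / 2) * (u * L - Real.log 2) ≤ (v / u + ε / 2) * A :=
      mul_le_mul_of_nonneg_left l1 hvu.le
    have h5 : (v / u + ε / 2) * (u * L - Real.log 2) = v * L + ε / 2 * u * L - (v / u + ε / 2) * Real.log 2 := by
      field_simp
    have h6 : (v / u + ε / 2) * Real.log 2 ≤ (v / u + ε / 2) * 1 := mul_le_mul_of_nonneg_left hl2' hvu.le
    nlinarith
  have k2 : Real.log (B / A) ≤ Real.log (v / u) + ε / 2 := by
    have hvu1 : 1 ≤ v / u := by rw [le_div_iff₀ hu]; linarith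
    have h7 : Real.log (B / A) ≤ Real.log (v / u + ε / 2) := Real.log_le_log (by positivity) k3
    have h8 : Real.log (v / u + ε / 2) ≤ Real.log (v / u) + ε / 2 := by
      have e9 : v / u + ε / 2 = (v / u) * (1 + ε / 2 / (v / u)) := by field_simp
      rw [e9, Real.log_mul (by positivity) (by positivity)]
      have h10 : Real.log (1 + ε / 2 / (v / u)) ≤ ε / 2 / (v / u) := by
        have := Real.log_le_sub_one_of_pos (x := 1 + ε / 2 / (v / u)) (by positivity)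
        linarith
      have h11 : ε / 2 / (v / u) ≤ ε / 2 := div_le_self (by positivity) hvu1
      linarith
    linarith
  have k4 : C / A ≤ ε / 2 := by
    rw [div_le_iff₀ hA0]
    have h7 : 2 * C / ε ≤ A := by nlinarith
    rw [div_le_iff₀ hε] at h7
    linarith
  unfold Pp
  linarith

/-- the index of the cell of `p` -/
noncomputable def cidx (x m p : ℕ) : ℕ := ⌈(m : ℝ) * Real.log p / Real.log x⌉₊

/-- the weight of a cell, times `10 ^ 8` -/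
def lamN (c : ℕ) : ℕ := 10 ^ 8 * (2 * c - 1) / (2 * c * (c - 1)) + 2

lemma lam_ge {c : ℕ} (hc : 2 ≤ c) : Real.log ((c : ℝ) / (c - 1)) + 1 / 10 ^ 8 ≤ (lamN c : ℝ) / 10 ^ 8 := by
  have hc2 : (2 : ℝ) ≤ c := by exact_mod_cast hc
  have hc0 : (0 : ℝ) < c := by linarith
  have hc1 : (0 : ℝ) < c - 1 := by linarith
  have hx1 : 1 ≤ (c : ℝ) / (c - 1) := by rw [le_div_iff₀ hc1]; linarith
  have h1 : Real.log ((c : ℝ) / (c - 1)) ≤ (((c : ℝ) / (c - 1)) - ((c : ℝ) / (c - 1))⁻¹) / 2 := by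
    have h2 := Real.self_le_sinh_iff.2 (Real.log_nonneg hx1)
    rwa [Real.sinh_log (by linarith)] at h2
  have h3 : (((c : ℝ) / (c - 1)) - ((c : ℝ) / (c - 1))⁻¹) / 2 = (2 * c - 1) / (2 * c * (c - 1)) := by
    field_simp
    ring
  have h4 : (10 ^ 8 * (2 * c - 1) : ℝ) / (2 * c * (c - 1)) ≤ ((10 ^ 8 * (2 * c - 1) / (2 * c * (c - 1)) : ℕ) : ℝ) + 1 := by
    have h5 : (((10 ^ 8 * (2 * c - 1) : ℕ) : ℝ)) = 10 ^ 8 * (2 * c - 1) := by
      push_cast [Nat.cast_sub (by omega : 1 ≤ 2 * c)]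
      ring
    have h6 : (((2 * c * (c - 1) : ℕ) : ℝ)) = 2 * c * (c - 1) := by
      push_cast [Nat.cast_sub (by omega : 1 ≤ c)]
      ring
    rw [← h5, ← h6]
    exact (Nat.lt_floor_add_one _).le.trans (by rw [Nat.floor_div_eq_div])
  have h7 : (lamN c : ℝ) = ((10 ^ 8 * (2 * c - 1) / (2 * c * (c - 1)) : ℕ) : ℝ) + 2 := by
    unfold lamN
    push_cast
    ring
  rw [h7]
  rw [h3] at h1
  have h8 : (10 ^ 8 * (2 * c - 1) : ℝ) / (2 * c * (c - 1)) = 10 ^ 8 * ((2 * c - 1) / (2 * c * (c - 1))) := by ring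
  rw [h8] at h4
  rw [le_div_iff₀ (by norm_num)]
  linarith

lemma cidx_bounds {x m p : ℕ} (hm : 0 < m) (hx : 0 < Real.log x) (hp : 1 < p) :
    ((cidx x m p : ℝ) - 1) / m * Real.log x < Real.log p ∧ Real.log p ≤ (cidx x m p : ℝ) / m * Real.log x := by
  have hm0 : (0 : ℝ) < m := by exact_mod_cast hm
  have hp1 : (1 : ℝ) < p := by exact_mod_cast hp
  have hlp : 0 < Real.log p := Real.log_pos hp1
  have h1 := Nat.le_ceil ((m : ℝ) * Real.log p / Real.log x)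
  have h2 := Nat.ceil_lt_add_one (a := (m : ℝ) * Real.log p / Real.log x) (by positivity)
  unfold cidx
  rw [div_le_iff₀ hx] at h1
  constructor
  · have h3 : ((⌈(m : ℝ) * Real.log p / Real.log x⌉₊ : ℝ) - 1) < (m : ℝ) * Real.log p / Real.log x := by linarith
    rw [lt_div_iff₀ hx] at h3
    rw [div_mul_eq_mul_div, div_lt_iff₀ hm0]
    linarith
  · rw [div_mul_eq_mul_div, le_div_iff₀ hm0]
    linarith

/-- sums over primes and sums over cells -/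
lemma grid1 (m a0 a1 : ℕ) (hm : 0 < m) (ha0 : 1 ≤ a0) : ∀ᶠ x : ℕ in atTop, ∀ (f : ℕ → ℕ) (P : Finset ℕ),
    (∀ p ∈ P, p.Prime ∧ a0 < cidx x m p ∧ cidx x m p ≤ a1) →
    ∑ p ∈ P, (f (cidx x m p) : ℝ) / p ≤ ((∑ c ∈ Ioc a0 a1, f c * lamN c : ℕ) : ℝ) / 10 ^ 8 := by
  classical
  have hm0 : (0 : ℝ) < m := by exact_mod_cast hm
  have h1 : ∀ c ∈ Ioc a0 a1, ∀ᶠ x : ℕ in atTop,
      ∑ p ∈ Pp x (((c : ℝ) - 1) / m) ((c : ℝ) / m), (1 : ℝ) / p ≤ (lamN c : ℝ) / 10 ^ 8 := by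
    intro c hc
    rw [mem_Ioc] at hc
    have hc2 : (2 : ℝ) ≤ c := by exact_mod_cast (by omega : 2 ≤ c)
    have hc1 : (0 : ℝ) < (c : ℝ) - 1 := by linarith
    filter_upwards [mertL (((c : ℝ) - 1) / m) ((c : ℝ) / m) (1 / 10 ^ 8) (by positivity)
      (div_le_div_of_nonneg_right (by linarith) hm0.le) (by norm_num)] with x hx
    have e : (c : ℝ) / m / (((c : ℝ) - 1) / m) = (c : ℝ) / (c - 1) := by field_simp
    rw [e] at hx
    exact hx.trans (lam_ge (by omega))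
  have h2 := (eventually_all_finset (Ioc a0 a1)).2 h1
  filter_upwards [h2, eventually_ge_atTop 2] with x hx hx2 f P hP
  have hlx : 0 < Real.log x := Real.log_pos (by exact_mod_cast (by omega : 1 < x))
  have e1 : ∑ p ∈ P, (f (cidx x m p) : ℝ) / p = ∑ c ∈ Ioc a0 a1, ∑ p ∈ P.filter (fun p => cidx x m p = c), (f c : ℝ) * (1 / p) := by
    rw [← sum_fiberwise_of_maps_to (s := P) (t := Ioc a0 a1) (g := fun p => cidx x m p) (fun p hp => by
      rw [mem_Ioc]; exact (hP p hp).2)]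
    apply sum_congr rfl
    intro c _
    apply sum_congr rfl
    intro p hp
    rw [(mem_filter.1 hp).2]
    ring
  rw [e1]
  push_cast
  rw [sum_div]
  apply sum_le_sum
  intro c hc
  rw [← mul_sum, mul_div_assoc]
  apply mul_le_mul_of_nonneg_left _ (Nat.cast_nonneg _)
  refine le_trans ?_ (hx c hc)
  apply sum_le_sum_of_subset_of_nonneg
  · intro p hp
    rw [mem_filter] at hp
    obtain ⟨hp1, hp2⟩ := hp
    have hpp := (hP p hp1).1
    obtain ⟨b1, b2⟩ := cidx_bounds (x := x) (m := m) (p := p) hm hlx hpp.one_lt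
    rw [hp2] at b1 b2
    exact mem_Pp (by omega) hpp b1 b2
  · intro p _ _
    positivity

/-- two primes -/
lemma grid2 (m a0 a1 : ℕ) (hm : 0 < m) (ha0 : 1 ≤ a0) : ∀ᶠ x : ℕ in atTop, ∀ (f : ℕ → ℕ → ℕ) (P : Finset ℕ),
    (∀ p ∈ P, p.Prime ∧ a0 < cidx x m p ∧ cidx x m p ≤ a1) →
    ∑ p ∈ P, ∑ q ∈ P, (f (cidx x m p) (cidx x m q) : ℝ) / (p * q) ≤
      ((∑ i ∈ Ioc a0 a1, (∑ j ∈ Ioc a0 a1, f i j * lamN j) * lamN i : ℕ) : ℝ) / 10 ^ 16 := by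
  filter_upwards [grid1 m a0 a1 hm ha0] with x hx f P hP
  have h1 : ∀ p ∈ P, ∑ q ∈ P, (f (cidx x m p) (cidx x m q) : ℝ) / (p * q) ≤
      1 / 10 ^ 8 * (((∑ j ∈ Ioc a0 a1, f (cidx x m p) j * lamN j : ℕ) : ℝ) / p) := by
    intro p hp
    have hp0 : (0 : ℝ) < p := by exact_mod_cast (hP p hp).1.pos
    have h2 := hx (fun j => f (cidx x m p) j) P hP
    have e1 : ∑ q ∈ P, (f (cidx x m p) (cidx x m q) : ℝ) / (p * q) =
        (∑ q ∈ P, (f (cidx x m p) (cidx x m q) : ℝ) / q) / p := by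
      rw [sum_div]
      apply sum_congr rfl
      intro q _
      rw [div_div, mul_comm]
    rw [e1]
    calc (∑ q ∈ P, (f (cidx x m p) (cidx x m q) : ℝ) / q) / p ≤
        (((∑ j ∈ Ioc a0 a1, f (cidx x m p) j * lamN j : ℕ) : ℝ) / 10 ^ 8) / p := div_le_div_of_nonneg_right h2 hp0.le
      _ = _ := by ring
  refine (sum_le_sum h1).trans ?_
  rw [← mul_sum]
  have h3 := hx (fun i => ∑ j ∈ Ioc a0 a1, f i j * lamN j) P hP
  calc 1 / 10 ^ 8 * ∑ p ∈ P, (((∑ j ∈ Ioc a0 a1, f (cidx x m p) j * lamN j : ℕ) : ℝ) / p)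
      ≤ 1 / 10 ^ 8 * (((∑ i ∈ Ioc a0 a1, (∑ j ∈ Ioc a0 a1, f i j * lamN j) * lamN i : ℕ) : ℝ) / 10 ^ 8) :=
        mul_le_mul_of_nonneg_left h3 (by positivity)
    _ = _ := by ring

/-- three primes -/
lemma grid3 (m a0 a1 : ℕ) (hm : 0 < m) (ha0 : 1 ≤ a0) : ∀ᶠ x : ℕ in atTop, ∀ (f : ℕ → ℕ → ℕ → ℕ) (P : Finset ℕ),
    (∀ p ∈ P, p.Prime ∧ a0 < cidx x m p ∧ cidx x m p ≤ a1) →
    ∑ p ∈ P, ∑ q ∈ P, ∑ r ∈ P, (f (cidx x m p) (cidx x m q) (cidx x m r) : ℝ) / (p * q * r) ≤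
      ((∑ i ∈ Ioc a0 a1, (∑ j ∈ Ioc a0 a1, (∑ k ∈ Ioc a0 a1, f i j k * lamN k) * lamN j) * lamN i : ℕ) : ℝ) / 10 ^ 24 := by
  filter_upwards [grid1 m a0 a1 hm ha0, grid2 m a0 a1 hm ha0] with x hx hx2 f P hP
  have h1 : ∀ p ∈ P, ∑ q ∈ P, ∑ r ∈ P, (f (cidx x m p) (cidx x m q) (cidx x m r) : ℝ) / (p * q * r) ≤
      1 / 10 ^ 16 * (((∑ j ∈ Ioc a0 a1, (∑ k ∈ Ioc a0 a1, f (cidx x m p) j k * lamN k) * lamN j : ℕ) : ℝ) / p) := by
    intro p hp
    have hp0 : (0 : ℝ) < p := by exact_mod_cast (hP p hp).1.pos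
    have h2 := hx2 (fun j k => f (cidx x m p) j k) P hP
    have e1 : ∑ q ∈ P, ∑ r ∈ P, (f (cidx x m p) (cidx x m q) (cidx x m r) : ℝ) / (p * q * r) =
        (∑ q ∈ P, ∑ r ∈ P, (f (cidx x m p) (cidx x m q) (cidx x m r) : ℝ) / (q * r)) / p := by
      rw [sum_div]
      apply sum_congr rfl
      intro q _
      rw [sum_div]
      apply sum_congr rfl
      intro r _
      rw [div_div]
      congr 1
      ring
    rw [e1]
    calc (∑ q ∈ P, ∑ r ∈ P, (f (cidx x m p) (cidx x m q) (cidx x m r) : ℝ) / (q * r)) / p ≤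
        (((∑ j ∈ Ioc a0 a1, (∑ k ∈ Ioc a0 a1, f (cidx x m p) j k * lamN k) * lamN j : ℕ) : ℝ) / 10 ^ 16) / p :=
          div_le_div_of_nonneg_right h2 hp0.le
      _ = _ := by ring
  refine (sum_le_sum h1).trans ?_
  rw [← mul_sum]
  have h3 := hx (fun i => ∑ j ∈ Ioc a0 a1, (∑ k ∈ Ioc a0 a1, f i j k * lamN k) * lamN j) P hP
  calc 1 / 10 ^ 16 * ∑ p ∈ P, (((∑ j ∈ Ioc a0 a1, (∑ k ∈ Ioc a0 a1, f (cidx x m p) j k * lamN k) * lamN j : ℕ) : ℝ) / p)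
      ≤ 1 / 10 ^ 16 * (((∑ i ∈ Ioc a0 a1, (∑ j ∈ Ioc a0 a1, (∑ k ∈ Ioc a0 a1, f i j k * lamN k) * lamN j) * lamN i : ℕ) : ℝ) / 10 ^ 8) :=
        mul_le_mul_of_nonneg_left h3 (by positivity)
    _ = _ := by ring

/-- four primes -/
lemma grid4 (m a0 a1 : ℕ) (hm : 0 < m) (ha0 : 1 ≤ a0) : ∀ᶠ x : ℕ in atTop, ∀ (f : ℕ → ℕ → ℕ → ℕ → ℕ) (P : Finset ℕ),
    (∀ p ∈ P, p.Prime ∧ a0 < cidx x m p ∧ cidx x m p ≤ a1) →
    ∑ p ∈ P, ∑ q ∈ P, ∑ r ∈ P, ∑ s ∈ P, (f (cidx x m p) (cidx x m q) (cidx x m r) (cidx x m s) : ℝ) / (p * q * r * s) ≤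
      ((∑ i ∈ Ioc a0 a1, (∑ j ∈ Ioc a0 a1, (∑ k ∈ Ioc a0 a1, (∑ l ∈ Ioc a0 a1, f i j k l * lamN l) * lamN k) * lamN j) *
        lamN i : ℕ) : ℝ) / 10 ^ 32 := by
  filter_upwards [grid1 m a0 a1 hm ha0, grid3 m a0 a1 hm ha0] with x hx hx2 f P hP
  have h1 : ∀ p ∈ P, ∑ q ∈ P, ∑ r ∈ P, ∑ s ∈ P, (f (cidx x m p) (cidx x m q) (cidx x m r) (cidx x m s) : ℝ) / (p * q * r * s) ≤
      1 / 10 ^ 24 * (((∑ j ∈ Ioc a0 a1, (∑ k ∈ Ioc a0 a1, (∑ l ∈ Ioc a0 a1, f (cidx x m p) j k l * lamN l) * lamN k) *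
        lamN j : ℕ) : ℝ) / p) := by
    intro p hp
    have hp0 : (0 : ℝ) < p := by exact_mod_cast (hP p hp).1.pos
    have h2 := hx2 (fun j k l => f (cidx x m p) j k l) P hP
    have e1 : ∑ q ∈ P, ∑ r ∈ P, ∑ s ∈ P, (f (cidx x m p) (cidx x m q) (cidx x m r) (cidx x m s) : ℝ) / (p * q * r * s) =
        (∑ q ∈ P, ∑ r ∈ P, ∑ s ∈ P, (f (cidx x m p) (cidx x m q) (cidx x m r) (cidx x m s) : ℝ) / (q * r * s)) / p := by
      rw [sum_div]
      apply sum_congr rfl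
      intro q _
      rw [sum_div]
      apply sum_congr rfl
      intro r _
      rw [sum_div]
      apply sum_congr rfl
      intro s _
      rw [div_div]
      congr 1
      ring
    rw [e1]
    calc (∑ q ∈ P, ∑ r ∈ P, ∑ s ∈ P, (f (cidx x m p) (cidx x m q) (cidx x m r) (cidx x m s) : ℝ) / (q * r * s)) / p ≤
        (((∑ j ∈ Ioc a0 a1, (∑ k ∈ Ioc a0 a1, (∑ l ∈ Ioc a0 a1, f (cidx x m p) j k l * lamN l) * lamN k) * lamN j : ℕ) : ℝ) /
          10 ^ 24) / p := div_le_div_of_nonneg_right h2 hp0.le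
      _ = _ := by ring
  refine (sum_le_sum h1).trans ?_
  rw [← mul_sum]
  have h3 := hx (fun i => ∑ j ∈ Ioc a0 a1, (∑ k ∈ Ioc a0 a1, (∑ l ∈ Ioc a0 a1, f i j k l * lamN l) * lamN k) * lamN j) P hP
  calc 1 / 10 ^ 24 * ∑ p ∈ P, (((∑ j ∈ Ioc a0 a1, (∑ k ∈ Ioc a0 a1, (∑ l ∈ Ioc a0 a1, f (cidx x m p) j k l * lamN l) *
        lamN k) * lamN j : ℕ) : ℝ) / p)
      ≤ 1 / 10 ^ 24 * (((∑ i ∈ Ioc a0 a1, (∑ j ∈ Ioc a0 a1, (∑ k ∈ Ioc a0 a1, (∑ l ∈ Ioc a0 a1, f i j k l * lamN l) *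
        lamN k) * lamN j) * lamN i : ℕ) : ℝ) / 10 ^ 8) := mul_le_mul_of_nonneg_left h3 (by positivity)
    _ = _ := by ring

/-- the value of the weight -/
def gN (m s : ℕ) : ℕ := 10 ^ 10 * m / (19999 * m - 10000 * s) + 1

lemma gN_ge {m s : ℕ} (hm : 0 < m) (hs : 10000 * s < 19999 * m) {L y : ℝ} (hL : 0 < L) (hy : y ≤ s / m * L) :
    1 / (19999 / 10000 * L - y) ≤ (gN m s : ℝ) / 10 ^ 6 / L ∧ 0 < 19999 / 10000 * L - y := by
  have hm0 : (0 : ℝ) < m := by exact_mod_cast hm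
  have h1 : (0 : ℝ) < 19999 * m - 10000 * s := by
    have : (10000 * s : ℝ) < 19999 * m := by exact_mod_cast hs
    linarith
  have h2 : (19999 * m - 10000 * s) / (10000 * m) * L ≤ 19999 / 10000 * L - y := by
    have : ((19999 : ℝ) * m - 10000 * s) / (10000 * m) * L = 19999 / 10000 * L - s / m * L := by
      field_simp
    linarith
  have h3 : 0 < ((19999 : ℝ) * m - 10000 * s) / (10000 * m) * L := by positivity
  refine ⟨?_, by linarith⟩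
  refine (one_div_le_one_div_of_le h3 h2).trans ?_
  have h4 : ((10 ^ 10 * m : ℝ)) / (19999 * m - 10000 * s) ≤ gN m s := by
    unfold gN
    have h5 : (((19999 * m - 10000 * s : ℕ) : ℝ)) = 19999 * m - 10000 * s := by
      push_cast [Nat.cast_sub hs.le]
      ring
    have h6 : (((10 ^ 10 * m : ℕ) : ℝ)) = 10 ^ 10 * m := by push_cast; ring
    rw [← h5, ← h6]
    push_cast
    have := (Nat.lt_floor_add_one (((10 ^ 10 * m : ℕ) : ℝ) / ((19999 * m - 10000 * s : ℕ) : ℝ))).le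
    rw [Nat.floor_div_eq_div] at this
    push_cast at this
    exact this
  have e1 : 1 / (((19999 : ℝ) * m - 10000 * s) / (10000 * m) * L) =
      (10 ^ 10 * m) / (19999 * m - 10000 * s) / 10 ^ 6 / L := by
    field_simp
    norm_num
  rw [e1]
  exact div_le_div_of_nonneg_right (div_le_div_of_nonneg_right h4 (by norm_num)) hL.le

/-- sums of natural numbers, for computations -/
def sN (f : ℕ → ℕ) : ℕ → ℕ
  | 0 => 0
  | n + 1 => sN f n + f n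

lemma sN_eq (f : ℕ → ℕ) (n : ℕ) : sN f n = ∑ i ∈ range n, f i := by
  induction n with
  | zero => rfl
  | succ n ih => rw [sN, sum_range_succ, ih]

lemma sum_Ioc_sN (f : ℕ → ℕ) (a n : ℕ) : ∑ i ∈ Ioc a (a + n), f i = sN (fun i => f (a + 1 + i)) n := by
  rw [sN_eq]
  rw [← Finset.sum_image (g := fun i => a + 1 + i) (fun _ _ _ _ h => by simpa using h)]
  apply sum_congr _ (fun _ _ => rfl)
  ext k
  simp only [mem_Ioc, mem_image, mem_range]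
  constructor
  · intro h
    exact ⟨k - (a + 1), by omega, by omega⟩
  · rintro ⟨j, hj, rfl⟩
    omega

end Pool.Agent.H568
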