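import Mathlib
import Pool.Agent.H568.Mn2

/-!
Sums over tuples of primes greater than `x ^ (1 / 3)`.
-/

set_option autoImplicit false

namespace Pool.Agent.H568

open Finset Filter Topology Pool.Agent.N792

/-- the primes `p > Q` with `log p ≤ u log x` -/
noncomputable def PQ (x Q : ℕ) (u : ℝ) : Finset ℕ :=
  (Icc 1 ⌊(x : ℝ) ^ u⌋₊).filter (fun p => p.Prime ∧ Q < p)

lemma mem_PQ {x Q p : ℕ} {u : ℝ} (hx : 1 ≤ x) : p ∈ PQ x Q u ↔ p.Prime ∧ Q < p ∧ Real.log p ≤ u * Real.log x := by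
  have hx0 : (0 : ℝ) < x := by exact_mod_cast hx
  unfold PQ
  rw [mem_filter, mem_Icc]
  constructor
  · rintro ⟨⟨h1, h2⟩, h3, h4⟩
    refine ⟨h3, h4, ?_⟩
    have hp0 : (0 : ℝ) < p := by exact_mod_cast h3.pos
    rw [Nat.le_floor_iff (Real.rpow_nonneg hx0.le _), ← Real.log_le_log_iff hp0 (Real.rpow_pos_of_pos hx0 _),
      Real.log_rpow hx0] at h2
    exact h2
  · rintro ⟨h3, h4, h2⟩
    have hp0 : (0 : ℝ) < p := by exact_mod_cast h3.pos
    refine ⟨⟨h3.pos, ?_⟩, h3, h4⟩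
    rw [Nat.le_floor_iff (Real.rpow_nonneg hx0.le _), ← Real.log_le_log_iff hp0 (Real.rpow_pos_of_pos hx0 _),
      Real.log_rpow hx0]
    exact h2

lemma log_third {x Q p : ℕ} (hx : 1 ≤ x) (hQ : (x : ℝ) ^ (1 / 3 : ℝ) ≤ Q) (hp : Q < p) :
    1 / 3 * Real.log x < Real.log p := by
  have hx0 : (0 : ℝ) < x := by exact_mod_cast hx
  have h1 : (x : ℝ) ^ (1 / 3 : ℝ) < p := hQ.trans_lt (by exact_mod_cast hp)
  have h2 := Real.log_lt_log (Real.rpow_pos_of_pos hx0 _) h1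
  rwa [Real.log_rpow hx0] at h2

lemma PQ_idx {x Q m a0 a1 : ℕ} {u : ℝ} (hx : 1 < x) (h0 : 3 * a0 = m) (hm : 0 < m) (hu : u * m ≤ a1)
    (hQ : (x : ℝ) ^ (1 / 3 : ℝ) ≤ Q) : ∀ p ∈ PQ x Q u, p.Prime ∧ a0 < cidx x m p ∧ cidx x m p ≤ a1 := by
  intro p hp
  rw [mem_PQ hx.le] at hp
  obtain ⟨h1, h2, h3⟩ := hp
  have hL : 0 < Real.log x := Real.log_pos (by exact_mod_cast hx)
  have hm0 : (0 : ℝ) < m := by exact_mod_cast hm
  have h4 := log_third hx.le hQ h2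
  have h5 : (3 : ℝ) * a0 = m := by exact_mod_cast h0
  refine ⟨h1, ?_, ?_⟩
  · unfold cidx
    rw [Nat.lt_ceil, lt_div_iff₀ hL]
    nlinarith
  · unfold cidx
    rw [Nat.ceil_le, div_le_iff₀ hL]
    calc (m : ℝ) * Real.log p ≤ m * (u * Real.log x) := mul_le_mul_of_nonneg_left h3 hm0.le
      _ = (u * m) * Real.log x := by ring
      _ ≤ a1 * Real.log x := mul_le_mul_of_nonneg_right hu hL.le

/-- pairs -/
lemma pair_T (m a0 a1 Nb : ℕ) (u : ℝ) (c : ℕ → ℕ → Bool) (hm : 0 < m) (h0 : 3 * a0 = m) (hu : u * m ≤ a1)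
    (hc : ∀ i j, c i j = true → 10000 * (i + j) < 19999 * m)
    (hN : ∑ i ∈ Ioc a0 a1, (∑ j ∈ Ioc a0 a1, (if c i j then gN m (i + j) else 0) * lamN j) * lamN i ≤ Nb) :
    ∀ᶠ x : ℕ in atTop, ∀ Q : ℕ, (x : ℝ) ^ (1 / 3 : ℝ) ≤ Q → ∀ S : Finset (ℕ × ℕ), S ⊆ PQ x Q u ×ˢ PQ x Q u →
    (∀ t ∈ S, c (cidx x m t.1) (cidx x m t.2) = true) →
    ∑ t ∈ S, 1 / (((t.1 * t.2 : ℕ) : ℝ) * (19999 / 10000 * Real.log x - Real.log ((t.1 * t.2 : ℕ) : ℝ))) ≤
      Nb / 10 ^ 22 / Real.log x := by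
  filter_upwards [grid2 m a0 a1 hm (by omega), eventually_ge_atTop 2] with x hx hx2 Q hQ S hS hcS
  have hL : 0 < Real.log x := Real.log_pos (by exact_mod_cast (by omega : 1 < x))
  have hm0 : (0 : ℝ) < m := by exact_mod_cast hm
  have hP := PQ_idx (x := x) (Q := Q) (m := m) (a0 := a0) (a1 := a1) (u := u) (by omega) h0 hm hu hQ
  have h1 := hx (fun i j => if c i j then gN m (i + j) else 0) (PQ x Q u) hP
  have h2 : ∑ t ∈ S, 1 / (((t.1 * t.2 : ℕ) : ℝ) * (19999 / 10000 * Real.log x - Real.log ((t.1 * t.2 : ℕ) : ℝ))) ≤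
      ∑ t ∈ PQ x Q u ×ˢ PQ x Q u, 1 / 10 ^ 6 / Real.log x * (((if c (cidx x m t.1) (cidx x m t.2) then
        gN m (cidx x m t.1 + cidx x m t.2) else 0 : ℕ) : ℝ) / (t.1 * t.2)) := by
    refine le_trans ?_ (sum_le_sum_of_subset_of_nonneg hS fun t _ _ => by positivity)
    apply sum_le_sum
    intro t ht
    have ht2 := hS ht
    rw [mem_product] at ht2
    have p1 := (hP _ ht2.1).1
    have p2 := (hP _ ht2.2).1
    have q1 : (0 : ℝ) < t.1 := by exact_mod_cast p1.pos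
    have q2 : (0 : ℝ) < t.2 := by exact_mod_cast p2.pos
    have b1 := (cidx_bounds (x := x) (m := m) (p := t.1) hm hL p1.one_lt).2
    have b2 := (cidx_bounds (x := x) (m := m) (p := t.2) hm hL p2.one_lt).2
    have hct := hcS t ht
    rw [if_pos hct]
    have e1 : Real.log ((t.1 * t.2 : ℕ) : ℝ) = Real.log t.1 + Real.log t.2 := by
      push_cast
      rw [Real.log_mul q1.ne' q2.ne']
    have hy : Real.log ((t.1 * t.2 : ℕ) : ℝ) ≤ ((cidx x m t.1 + cidx x m t.2 : ℕ) : ℝ) / m * Real.log x := by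
      rw [e1]
      push_cast
      have : ((cidx x m t.1 : ℝ) + cidx x m t.2) / m * Real.log x = (cidx x m t.1 : ℝ) / m * Real.log x +
        (cidx x m t.2 : ℝ) / m * Real.log x := by ring
      linarith
    obtain ⟨g1, g2⟩ := gN_ge hm (hc _ _ hct) hL hy
    have e2 : 1 / (((t.1 * t.2 : ℕ) : ℝ) * (19999 / 10000 * Real.log x - Real.log ((t.1 * t.2 : ℕ) : ℝ))) =
        (1 / (19999 / 10000 * Real.log x - Real.log ((t.1 * t.2 : ℕ) : ℝ))) / (t.1 * t.2) := by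
      push_cast
      rw [div_div, mul_comm]
    rw [e2]
    calc (1 / (19999 / 10000 * Real.log x - Real.log ((t.1 * t.2 : ℕ) : ℝ))) / (t.1 * t.2) ≤
        ((gN m (cidx x m t.1 + cidx x m t.2) : ℝ) / 10 ^ 6 / Real.log x) / (t.1 * t.2) :=
          div_le_div_of_nonneg_right g1 (by positivity)
      _ = _ := by ring
  refine h2.trans ?_
  rw [← mul_sum, sum_product]
  calc 1 / 10 ^ 6 / Real.log x * ∑ p ∈ PQ x Q u, ∑ q ∈ PQ x Q u, (((if c (cidx x m p) (cidx x m q) then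
        gN m (cidx x m p + cidx x m q) else 0 : ℕ) : ℝ) / (p * q))
      ≤ 1 / 10 ^ 6 / Real.log x * ((Nb : ℝ) / 10 ^ 16) := by
        apply mul_le_mul_of_nonneg_left _ (by positivity)
        refine h1.trans (div_le_div_of_nonneg_right ?_ (by positivity))
        exact_mod_cast hN
    _ = Nb / 10 ^ 22 / Real.log x := by ring

/-- triples -/
lemma trip_T (m a0 a1 Nb : ℕ) (u : ℝ) (c : ℕ → ℕ → ℕ → Bool) (hm : 0 < m) (h0 : 3 * a0 = m) (hu : u * m ≤ a1)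
    (hc : ∀ i j k, c i j k = true → 10000 * (i + j + k) < 19999 * m)
    (hN : ∑ i ∈ Ioc a0 a1, (∑ j ∈ Ioc a0 a1, (∑ k ∈ Ioc a0 a1, (if c i j k then gN m (i + j + k) else 0) * lamN k) *
      lamN j) * lamN i ≤ Nb) :
    ∀ᶠ x : ℕ in atTop, ∀ Q : ℕ, (x : ℝ) ^ (1 / 3 : ℝ) ≤ Q → ∀ S : Finset (ℕ × ℕ × ℕ),
    S ⊆ PQ x Q u ×ˢ PQ x Q u ×ˢ PQ x Q u →
    (∀ t ∈ S, c (cidx x m t.1) (cidx x m t.2.1) (cidx x m t.2.2) = true) →
    ∑ t ∈ S, 1 / (((t.1 * t.2.1 * t.2.2 : ℕ) : ℝ) *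
      (19999 / 10000 * Real.log x - Real.log ((t.1 * t.2.1 * t.2.2 : ℕ) : ℝ))) ≤ Nb / 10 ^ 30 / Real.log x := by
  filter_upwards [grid3 m a0 a1 hm (by omega), eventually_ge_atTop 2] with x hx hx2 Q hQ S hS hcS
  have hL : 0 < Real.log x := Real.log_pos (by exact_mod_cast (by omega : 1 < x))
  have hm0 : (0 : ℝ) < m := by exact_mod_cast hm
  have hP := PQ_idx (x := x) (Q := Q) (m := m) (a0 := a0) (a1 := a1) (u := u) (by omega) h0 hm hu hQ
  have h1 := hx (fun i j k => if c i j k then gN m (i + j + k) else 0) (PQ x Q u) hP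
  have h2 : ∑ t ∈ S, 1 / (((t.1 * t.2.1 * t.2.2 : ℕ) : ℝ) *
      (19999 / 10000 * Real.log x - Real.log ((t.1 * t.2.1 * t.2.2 : ℕ) : ℝ))) ≤
      ∑ t ∈ PQ x Q u ×ˢ PQ x Q u ×ˢ PQ x Q u, 1 / 10 ^ 6 / Real.log x *
        (((if c (cidx x m t.1) (cidx x m t.2.1) (cidx x m t.2.2) then
        gN m (cidx x m t.1 + cidx x m t.2.1 + cidx x m t.2.2) else 0 : ℕ) : ℝ) / (t.1 * t.2.1 * t.2.2)) := by
    refine le_trans ?_ (sum_le_sum_of_subset_of_nonneg hS fun t _ _ => by positivity)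
    apply sum_le_sum
    intro t ht
    have ht2 := hS ht
    rw [mem_product, mem_product] at ht2
    have p1 := (hP _ ht2.1).1
    have p2 := (hP _ ht2.2.1).1
    have p3 := (hP _ ht2.2.2).1
    have q1 : (0 : ℝ) < t.1 := by exact_mod_cast p1.pos
    have q2 : (0 : ℝ) < t.2.1 := by exact_mod_cast p2.pos
    have q3 : (0 : ℝ) < t.2.2 := by exact_mod_cast p3.pos
    have b1 := (cidx_bounds (x := x) (m := m) (p := t.1) hm hL p1.one_lt).2
    have b2 := (cidx_bounds (x := x) (m := m) (p := t.2.1) hm hL p2.one_lt).2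
    have b3 := (cidx_bounds (x := x) (m := m) (p := t.2.2) hm hL p3.one_lt).2
    have hct := hcS t ht
    rw [if_pos hct]
    have e1 : Real.log ((t.1 * t.2.1 * t.2.2 : ℕ) : ℝ) = Real.log t.1 + Real.log t.2.1 + Real.log t.2.2 := by
      push_cast
      rw [Real.log_mul (by positivity) q3.ne', Real.log_mul q1.ne' q2.ne']
    have hy : Real.log ((t.1 * t.2.1 * t.2.2 : ℕ) : ℝ) ≤
        ((cidx x m t.1 + cidx x m t.2.1 + cidx x m t.2.2 : ℕ) : ℝ) / m * Real.log x := by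
      rw [e1]
      push_cast
      have : ((cidx x m t.1 : ℝ) + cidx x m t.2.1 + cidx x m t.2.2) / m * Real.log x = (cidx x m t.1 : ℝ) / m * Real.log x +
        (cidx x m t.2.1 : ℝ) / m * Real.log x + (cidx x m t.2.2 : ℝ) / m * Real.log x := by ring
      linarith
    obtain ⟨g1, g2⟩ := gN_ge hm (hc _ _ _ hct) hL hy
    have e2 : 1 / (((t.1 * t.2.1 * t.2.2 : ℕ) : ℝ) * (19999 / 10000 * Real.log x - Real.log ((t.1 * t.2.1 * t.2.2 : ℕ) : ℝ))) =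
        (1 / (19999 / 10000 * Real.log x - Real.log ((t.1 * t.2.1 * t.2.2 : ℕ) : ℝ))) / (t.1 * t.2.1 * t.2.2) := by
      push_cast
      rw [div_div, mul_comm]
    rw [e2]
    calc (1 / (19999 / 10000 * Real.log x - Real.log ((t.1 * t.2.1 * t.2.2 : ℕ) : ℝ))) / (t.1 * t.2.1 * t.2.2) ≤
        ((gN m (cidx x m t.1 + cidx x m t.2.1 + cidx x m t.2.2) : ℝ) / 10 ^ 6 / Real.log x) / (t.1 * t.2.1 * t.2.2) :=
          div_le_div_of_nonneg_right g1 (by positivity)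
      _ = _ := by ring
  refine h2.trans ?_
  rw [← mul_sum, sum_product]
  simp only [sum_product]
  calc 1 / 10 ^ 6 / Real.log x * ∑ p ∈ PQ x Q u, ∑ q ∈ PQ x Q u, ∑ r ∈ PQ x Q u,
        (((if c (cidx x m p) (cidx x m q) (cidx x m r) then
        gN m (cidx x m p + cidx x m q + cidx x m r) else 0 : ℕ) : ℝ) / (p * q * r))
      ≤ 1 / 10 ^ 6 / Real.log x * ((Nb : ℝ) / 10 ^ 24) := by
        apply mul_le_mul_of_nonneg_left _ (by positivity)
        refine h1.trans (div_le_div_of_nonneg_right ?_ (by positivity))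
        exact_mod_cast hN
    _ = Nb / 10 ^ 30 / Real.log x := by ring

/-- quadruples -/
lemma quad_T (m a0 a1 Nb : ℕ) (u : ℝ) (c : ℕ → ℕ → ℕ → ℕ → Bool) (hm : 0 < m) (h0 : 3 * a0 = m) (hu : u * m ≤ a1)
    (hc : ∀ i j k l, c i j k l = true → 10000 * (i + j + k + l) < 19999 * m)
    (hN : ∑ i ∈ Ioc a0 a1, (∑ j ∈ Ioc a0 a1, (∑ k ∈ Ioc a0 a1, (∑ l ∈ Ioc a0 a1,
      (if c i j k l then gN m (i + j + k + l) else 0) * lamN l) * lamN k) * lamN j) * lamN i ≤ Nb) :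
    ∀ᶠ x : ℕ in atTop, ∀ Q : ℕ, (x : ℝ) ^ (1 / 3 : ℝ) ≤ Q → ∀ S : Finset (ℕ × ℕ × ℕ × ℕ),
    S ⊆ PQ x Q u ×ˢ PQ x Q u ×ˢ PQ x Q u ×ˢ PQ x Q u →
    (∀ t ∈ S, c (cidx x m t.1) (cidx x m t.2.1) (cidx x m t.2.2.1) (cidx x m t.2.2.2) = true) →
    ∑ t ∈ S, 1 / (((t.1 * t.2.1 * t.2.2.1 * t.2.2.2 : ℕ) : ℝ) *
      (19999 / 10000 * Real.log x - Real.log ((t.1 * t.2.1 * t.2.2.1 * t.2.2.2 : ℕ) : ℝ))) ≤ Nb / 10 ^ 38 / Real.log x := by
  filter_upwards [grid4 m a0 a1 hm (by omega), eventually_ge_atTop 2] with x hx hx2 Q hQ S hS hcS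
  have hL : 0 < Real.log x := Real.log_pos (by exact_mod_cast (by omega : 1 < x))
  have hm0 : (0 : ℝ) < m := by exact_mod_cast hm
  have hP := PQ_idx (x := x) (Q := Q) (m := m) (a0 := a0) (a1 := a1) (u := u) (by omega) h0 hm hu hQ
  have h1 := hx (fun i j k l => if c i j k l then gN m (i + j + k + l) else 0) (PQ x Q u) hP
  have h2 : ∑ t ∈ S, 1 / (((t.1 * t.2.1 * t.2.2.1 * t.2.2.2 : ℕ) : ℝ) *
      (19999 / 10000 * Real.log x - Real.log ((t.1 * t.2.1 * t.2.2.1 * t.2.2.2 : ℕ) : ℝ))) ≤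
      ∑ t ∈ PQ x Q u ×ˢ PQ x Q u ×ˢ PQ x Q u ×ˢ PQ x Q u, 1 / 10 ^ 6 / Real.log x *
        (((if c (cidx x m t.1) (cidx x m t.2.1) (cidx x m t.2.2.1) (cidx x m t.2.2.2) then
        gN m (cidx x m t.1 + cidx x m t.2.1 + cidx x m t.2.2.1 + cidx x m t.2.2.2) else 0 : ℕ) : ℝ) /
          (t.1 * t.2.1 * t.2.2.1 * t.2.2.2)) := by
    refine le_trans ?_ (sum_le_sum_of_subset_of_nonneg hS fun t _ _ => by positivity)
    apply sum_le_sum
    intro t ht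
    have ht2 := hS ht
    rw [mem_product, mem_product, mem_product] at ht2
    have p1 := (hP _ ht2.1).1
    have p2 := (hP _ ht2.2.1).1
    have p3 := (hP _ ht2.2.2.1).1
    have p4 := (hP _ ht2.2.2.2).1
    have q1 : (0 : ℝ) < t.1 := by exact_mod_cast p1.pos
    have q2 : (0 : ℝ) < t.2.1 := by exact_mod_cast p2.pos
    have q3 : (0 : ℝ) < t.2.2.1 := by exact_mod_cast p3.pos
    have q4 : (0 : ℝ) < t.2.2.2 := by exact_mod_cast p4.pos
    have b1 := (cidx_bounds (x := x) (m := m) (p := t.1) hm hL p1.one_lt).2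
    have b2 := (cidx_bounds (x := x) (m := m) (p := t.2.1) hm hL p2.one_lt).2
    have b3 := (cidx_bounds (x := x) (m := m) (p := t.2.2.1) hm hL p3.one_lt).2
    have b4 := (cidx_bounds (x := x) (m := m) (p := t.2.2.2) hm hL p4.one_lt).2
    have hct := hcS t ht
    rw [if_pos hct]
    have e1 : Real.log ((t.1 * t.2.1 * t.2.2.1 * t.2.2.2 : ℕ) : ℝ) =
        Real.log t.1 + Real.log t.2.1 + Real.log t.2.2.1 + Real.log t.2.2.2 := by
      push_cast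
      rw [Real.log_mul (by positivity) q4.ne', Real.log_mul (by positivity) q3.ne', Real.log_mul q1.ne' q2.ne']
    have hy : Real.log ((t.1 * t.2.1 * t.2.2.1 * t.2.2.2 : ℕ) : ℝ) ≤
        ((cidx x m t.1 + cidx x m t.2.1 + cidx x m t.2.2.1 + cidx x m t.2.2.2 : ℕ) : ℝ) / m * Real.log x := by
      rw [e1]
      push_cast
      have : ((cidx x m t.1 : ℝ) + cidx x m t.2.1 + cidx x m t.2.2.1 + cidx x m t.2.2.2) / m * Real.log x =
        (cidx x m t.1 : ℝ) / m * Real.log x +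
        (cidx x m t.2.1 : ℝ) / m * Real.log x + (cidx x m t.2.2.1 : ℝ) / m * Real.log x +
        (cidx x m t.2.2.2 : ℝ) / m * Real.log x := by ring
      linarith
    obtain ⟨g1, g2⟩ := gN_ge hm (hc _ _ _ _ hct) hL hy
    have e2 : 1 / (((t.1 * t.2.1 * t.2.2.1 * t.2.2.2 : ℕ) : ℝ) *
        (19999 / 10000 * Real.log x - Real.log ((t.1 * t.2.1 * t.2.2.1 * t.2.2.2 : ℕ) : ℝ))) =
        (1 / (19999 / 10000 * Real.log x - Real.log ((t.1 * t.2.1 * t.2.2.1 * t.2.2.2 : ℕ) : ℝ))) /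
          (t.1 * t.2.1 * t.2.2.1 * t.2.2.2) := by
      push_cast
      rw [div_div, mul_comm]
    rw [e2]
    calc (1 / (19999 / 10000 * Real.log x - Real.log ((t.1 * t.2.1 * t.2.2.1 * t.2.2.2 : ℕ) : ℝ))) /
        (t.1 * t.2.1 * t.2.2.1 * t.2.2.2) ≤
        ((gN m (cidx x m t.1 + cidx x m t.2.1 + cidx x m t.2.2.1 + cidx x m t.2.2.2) : ℝ) / 10 ^ 6 / Real.log x) /
          (t.1 * t.2.1 * t.2.2.1 * t.2.2.2) :=
          div_le_div_of_nonneg_right g1 (by positivity)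
      _ = _ := by ring
  refine h2.trans ?_
  rw [← mul_sum, sum_product]
  simp only [sum_product]
  calc 1 / 10 ^ 6 / Real.log x * ∑ p ∈ PQ x Q u, ∑ q ∈ PQ x Q u, ∑ r ∈ PQ x Q u, ∑ s ∈ PQ x Q u,
        (((if c (cidx x m p) (cidx x m q) (cidx x m r) (cidx x m s) then
        gN m (cidx x m p + cidx x m q + cidx x m r + cidx x m s) else 0 : ℕ) : ℝ) / (p * q * r * s))
      ≤ 1 / 10 ^ 6 / Real.log x * ((Nb : ℝ) / 10 ^ 32) := by
        apply mul_le_mul_of_nonneg_left _ (by positivity)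
        refine h1.trans (div_le_div_of_nonneg_right ?_ (by positivity))
        exact_mod_cast hN
    _ = Nb / 10 ^ 38 / Real.log x := by ring

end Pool.Agent.H568
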