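import Mathlib
import Pool.Agent.H568.Mn3

/-!
The computations.
-/

set_option autoImplicit false

namespace Pool.Agent.H568

open Finset

/-- the cells for products of three primes at most `x ^ (5 / 6)` -/
def c3 (i j : ℕ) : Bool := decide (280 ≤ i + j) && decide (i + j ≤ 402)

/-- the cells for pairs with product at most `x ^ (5 / 6)` -/
def cB (i j : ℕ) : Bool := decide (i + j ≤ 201)

/-- the cells for four primes -/
def cC (i j k : ℕ) : Bool := decide (i + j ≤ 101) && decide (i + j + k ≤ 203)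

/-- the cells for five primes -/
def cD (i j k l : ℕ) : Bool := decide (i ≤ j) && decide (j ≤ k) && decide (k ≤ l) && decide (i + j + k + 2 * l ≤ 245)

theorem n3 : ∑ i ∈ Ioc 80 201, (∑ j ∈ Ioc 80 201, (if c3 i j then gN 240 (i + j) else 0) * lamN j) * lamN i ≤
    4757 * 10 ^ 18 := by
  have e : ∀ f : ℕ → ℕ, ∑ i ∈ Ioc 80 201, f i = sN (fun i => f (80 + 1 + i)) 121 := fun f => sum_Ioc_sN f 80 121
  simp only [e]
  decide +kernel

theorem nB : ∑ i ∈ Ioc 80 120, (∑ j ∈ Ioc 80 120, (if cB i j then gN 240 (i + j) else 0) * lamN j) * lamN i ≤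
    782 * 10 ^ 18 := by
  have e : ∀ f : ℕ → ℕ, ∑ i ∈ Ioc 80 120, f i = sN (fun i => f (80 + 1 + i)) 40 := fun f => sum_Ioc_sN f 80 40
  simp only [e]
  decide +kernel

theorem nC : ∑ i ∈ Ioc 40 121, (∑ j ∈ Ioc 40 121, (∑ k ∈ Ioc 40 121, (if cC i j k then gN 120 (i + j + k) else 0) *
    lamN k) * lamN j) * lamN i ≤ 16531 * 10 ^ 25 := by
  have e : ∀ f : ℕ → ℕ, ∑ i ∈ Ioc 40 121, f i = sN (fun i => f (40 + 1 + i)) 81 := fun f => sum_Ioc_sN f 40 81
  have e2 : ∀ i j, ∑ k ∈ Ioc 40 121, (if cC i j k then gN 120 (i + j + k) else 0) * lamN k =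
      if i + j ≤ 101 then ∑ k ∈ Ioc 40 121, (if i + j + k ≤ 203 then gN 120 (i + j + k) else 0) * lamN k else 0 := by
    intro i j
    by_cases h : i + j ≤ 101
    · rw [if_pos h]
      apply sum_congr rfl
      intro k _
      unfold cC
      simp [h]
    · rw [if_neg h]
      apply sum_eq_zero
      intro k _
      unfold cC
      simp [h]
  simp only [e2, e]
  decide +kernel

theorem nD : ∑ i ∈ Ioc 40 61, (∑ j ∈ Ioc 40 61, (∑ k ∈ Ioc 40 61, (∑ l ∈ Ioc 40 61,
    (if cD i j k l then gN 120 (i + j + k + l) else 0) * lamN l) * lamN k) * lamN j) * lamN i ≤ 88932 * 10 ^ 30 := by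
  have e : ∀ f : ℕ → ℕ, ∑ i ∈ Ioc 40 61, f i = sN (fun i => f (40 + 1 + i)) 21 := fun f => sum_Ioc_sN f 40 21
  simp only [e]
  decide +kernel

end Pool.Agent.H568
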