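import Mathlib
import Pool.Agent.H568.Mn4
import Pool.Agent.H568.C1

/-!
What is lost, covered by sums over tuples of primes.
-/

set_option autoImplicit false

namespace Pool.Agent.H568

open Finset Filter Topology Pool.Agent.N792 Pool.Agent.N791.U

lemma pi0_of {n : ℕ} (h : n.Prime) : pi0 n = 1 := by unfold pi0; rw [if_pos h]

lemma fiber_ge {ι : Type} [DecidableEq ι] (S : Finset ι) (key : ι → ℕ) (F : ι → ℝ) (hF : ∀ t ∈ S, 0 ≤ F t) (J : Finset ℕ)
    (v : ℕ → ℝ) (h : ∀ j ∈ J, v j ≤ ∑ t ∈ S.filter (fun t => key t = j), F t) : ∑ j ∈ J, v j ≤ ∑ t ∈ S, F t := by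
  calc ∑ j ∈ J, v j ≤ ∑ j ∈ J, ∑ t ∈ S.filter (fun t => key t = j), F t := sum_le_sum h
    _ = ∑ t ∈ J.biUnion (fun j => S.filter (fun t => key t = j)), F t := by
        rw [sum_biUnion]
        intro j _ j' _ hne
        rw [Function.onFun, disjoint_left]
        intro t h1 h2
        rw [mem_filter] at h1 h2
        exact hne (h1.2.symm.trans h2.2)
    _ ≤ ∑ t ∈ S, F t := by
        apply sum_le_sum_of_subset_of_nonneg
        · intro t ht
          rw [mem_biUnion] at ht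
          obtain ⟨j, _, h1⟩ := ht
          exact (mem_filter.1 h1).1
        · intro t ht _
          exact hF t ht

lemma cidx_mono {x m p q : ℕ} (hp : 0 < p) (hL : 0 < Real.log x) (hpq : p ≤ q) : cidx x m p ≤ cidx x m q := by
  unfold cidx
  apply Nat.ceil_le_ceil
  apply div_le_div_of_nonneg_right _ hL.le
  apply mul_le_mul_of_nonneg_left _ (Nat.cast_nonneg _)
  exact Real.log_le_log (by exact_mod_cast hp) (by exact_mod_cast hpq)

/-- logarithms of the values of the indices -/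
lemma cidx_lt {x m p : ℕ} (hm : 0 < m) (hL : 0 < Real.log x) (hp : 1 < p) :
    (cidx x m p : ℝ) * Real.log x < m * Real.log p + Real.log x ∧ (m : ℝ) * Real.log p ≤ cidx x m p * Real.log x := by
  have hm0 : (0 : ℝ) < m := by exact_mod_cast hm
  obtain ⟨b1, b2⟩ := cidx_bounds (x := x) (m := m) (p := p) hm hL hp
  rw [div_mul_eq_mul_div, div_lt_iff₀ hm0] at b1
  rw [div_mul_eq_mul_div, le_div_iff₀ hm0] at b2
  constructor <;> linarith

lemma nat_le_of_mul {a b : ℕ} {L c : ℝ} (hL : 0 < L) (h : (a : ℝ) * L ≤ c * L) (hc : c < b + 1) : a ≤ b := by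
  have h1 : (a : ℝ) ≤ c := le_of_mul_le_mul_right h hL
  have h2 : (a : ℝ) < b + 1 := by linarith
  exact_mod_cast Nat.lt_succ_iff.1 (by exact_mod_cast h2)

/-- the products of three primes -/
lemma ls_pi3 (a : ℤ) (ha : 0 < a) (Λ : ℝ) (hΛ : 1 ≤ Λ) (R : ℕ) (η : ℝ) (hη : 0 < η) :
    ∀ᶠ x : ℕ in atTop, ∀ b : ℤ, (b : ℝ) ^ 2 ≤ Λ * x → ∀ x1 x2 : ℕ, x1 < x2 → x2 ≤ x → x ≤ R * x1 →
    ∀ Q V : ℕ, (x : ℝ) ^ (1 / 3 : ℝ) ≤ Q → (V : ℝ) ≤ (x : ℝ) ^ (5 / 6 + 1 / 500 : ℝ) →
    Ls a b x1 x2 (fun N => 2 * pi3 Q V N) ≤ 4757 / 30000 * (((x2 : ℝ) - x1) / Real.log x) + η * (x / Real.log x) := by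
  classical
  filter_upwards [main_le a ha Λ hΛ R (4757 / 30000) η (by norm_num) hη,
    pair_T 240 80 201 (4757 * 10 ^ 18) (5 / 6 + 1 / 500) c3 (by norm_num) (by norm_num) (by norm_num)
      (fun i j h => by unfold c3 at h; simp at h; omega) n3, eventually_ge_atTop 2] with x hmain hT hx2
  intro b hb x1 x2 h12 h2x hxR Q V hQ hV
  have hx1 : 1 ≤ x := by omega
  have hx0 : (0 : ℝ) < x := by exact_mod_cast hx1
  have hL : 0 < Real.log x := Real.log_pos (by exact_mod_cast (by omega : 1 < x))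
  obtain ⟨L, hLe⟩ : ∃ L : ℝ, L = Real.log x := ⟨_, rfl⟩
  obtain ⟨P, hP⟩ : ∃ P : Finset ℕ, P = PQ x Q (5 / 6 + 1 / 500) := ⟨_, rfl⟩
  obtain ⟨S, hS⟩ : ∃ S : Finset (ℕ × ℕ), S = (P ×ˢ P).filter (fun t => t.1 ≠ t.2 ∧ c3 (cidx x 240 t.1) (cidx x 240 t.2) = true) :=
    ⟨_, rfl⟩
  have hSm : ∀ t ∈ S, t.1 ∈ P ∧ t.2 ∈ P ∧ t.1 ≠ t.2 ∧ c3 (cidx x 240 t.1) (cidx x 240 t.2) = true := by
    intro t ht
    rw [hS, mem_filter, mem_product] at ht
    exact ⟨ht.1.1, ht.1.2, ht.2⟩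
  have hPm : ∀ p ∈ P, p.Prime ∧ Q < p ∧ Real.log p ≤ (5 / 6 + 1 / 500) * L := by
    intro p hp
    rw [hP, mem_PQ hx1] at hp
    rw [hLe]
    exact hp
  refine hmain b hb x1 x2 h12 h2x hxR (ℕ × ℕ) S (fun _ => 1 / 3) (fun t => t.1 * t.2) ?_ ?_ _ ?_
  · intro t ht
    obtain ⟨t1, t2, t3, t4⟩ := hSm t ht
    obtain ⟨a1, a2, a3⟩ := hPm _ t1
    obtain ⟨b1, b2, b3⟩ := hPm _ t2
    refine ⟨by norm_num, Nat.mul_pos a1.pos b1.pos, ?_⟩
    have q1 : (0 : ℝ) < t.1 := by exact_mod_cast a1.pos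
    have q2 : (0 : ℝ) < t.2 := by exact_mod_cast b1.pos
    push_cast
    rw [Real.log_mul q1.ne' q2.ne', ← hLe]
    rw [← hLe] at hL
    linarith
  · have h1 := hT Q hQ S (by
      intro t ht
      obtain ⟨t1, t2, t3, t4⟩ := hSm t ht
      rw [mem_product, ← hP]
      exact ⟨t1, t2⟩) (fun t ht => (hSm t ht).2.2.2)
    have e1 : ∑ t ∈ S, 1 / 3 / (((t.1 * t.2 : ℕ) : ℝ) * (19999 / 10000 * Real.log x - Real.log ((t.1 * t.2 : ℕ) : ℝ))) =
        1 / 3 * ∑ t ∈ S, 1 / (((t.1 * t.2 : ℕ) : ℝ) * (19999 / 10000 * Real.log x - Real.log ((t.1 * t.2 : ℕ) : ℝ))) := by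
      rw [mul_sum]
      apply sum_congr rfl
      intro t _
      rw [div_eq_mul_one_div (1 / 3 : ℝ)]
    rw [e1]
    calc 1 / 3 * ∑ t ∈ S, 1 / (((t.1 * t.2 : ℕ) : ℝ) * (19999 / 10000 * Real.log x - Real.log ((t.1 * t.2 : ℕ) : ℝ)))
        ≤ 1 / 3 * (((4757 * 10 ^ 18 : ℕ) : ℝ) / 10 ^ 22 / Real.log x) := mul_le_mul_of_nonneg_left h1 (by norm_num)
      _ = 4757 / 30000 / Real.log x := by push_cast; ring
  · intro N hN1 hN2 hN0
    rw [← hLe] at hN1 hN2
    have hnn : ∀ t ∈ S, 0 ≤ (1 / 3 : ℝ) * (if t.1 * t.2 ∣ N then pi0 (N / (t.1 * t.2)) else 0) := by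
      intro t _
      have := (Pt.pi0_le (N / (t.1 * t.2))).1
      split_ifs <;> positivity
    by_cases h : ∃ p q r : ℕ, p.Prime ∧ q.Prime ∧ r.Prime ∧ Q < p ∧ p < q ∧ q < r ∧ r ≤ V ∧ N = p * q * r
    swap
    · have : pi3 Q V N = 0 := by unfold pi3; rw [if_neg h]
      rw [this, mul_zero]
      exact sum_nonneg hnn
    have e3 : pi3 Q V N = 1 := by unfold pi3; rw [if_pos h]
    obtain ⟨p, q, r, hp, hq, hr, h1, h2, h3, h4, h5⟩ := h
    have hV' : ∀ s : ℕ, s.Prime → s ≤ V → Real.log s ≤ (5 / 6 + 1 / 500) * L := by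
      intro s hs hsV
      have s0 : (0 : ℝ) < s := by exact_mod_cast hs.pos
      have : (s : ℝ) ≤ (x : ℝ) ^ (5 / 6 + 1 / 500 : ℝ) := (by exact_mod_cast hsV : (s : ℝ) ≤ V).trans hV
      have := Real.log_le_log s0 this
      rwa [Real.log_rpow hx0, ← hLe] at this
    have key : ∀ u v w : ℕ, u.Prime → v.Prime → w.Prime → Q < u → Q < v → u ≤ V → v ≤ V → w ≤ V → u ≠ v → N = u * v * w →
        (u, v) ∈ S ∧ (1 / 3 : ℝ) * (if u * v ∣ N then pi0 (N / (u * v)) else 0) = 1 / 3 := by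
      intro u v w hu hv hw hQu hQv huV hvV hwV huv hNe
      have u0 : (0 : ℝ) < u := by exact_mod_cast hu.pos
      have v0 : (0 : ℝ) < v := by exact_mod_cast hv.pos
      have w0 : (0 : ℝ) < w := by exact_mod_cast hw.pos
      have lu := hV' u hu huV
      have lv := hV' v hv hvV
      have lw := hV' w hw hwV
      have lN : Real.log N = Real.log u + Real.log v + Real.log w := by
        rw [hNe]
        push_cast
        rw [Real.log_mul (by positivity) w0.ne', Real.log_mul u0.ne' v0.ne']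
      have huP : u ∈ P := by rw [hP, mem_PQ hx1, ← hLe]; exact ⟨hu, hQu, lu⟩
      have hvP : v ∈ P := by rw [hP, mem_PQ hx1, ← hLe]; exact ⟨hv, hQv, lv⟩
      constructor
      · rw [hS, mem_filter, mem_product]
        refine ⟨⟨huP, hvP⟩, huv, ?_⟩
        obtain ⟨b1, b2⟩ := cidx_lt (x := x) (m := 240) (p := u) (by norm_num) hL hu.one_lt
        obtain ⟨b3, b4⟩ := cidx_lt (x := x) (m := 240) (p := v) (by norm_num) hL hv.one_lt
        rw [hP] at huP hvP
        have i1 := (PQ_idx (x := x) (Q := Q) (m := 240) (a0 := 80) (a1 := 201) (u := 5 / 6 + 1 / 500) (by omega) (by norm_num)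
          (by norm_num) (by norm_num) hQ u huP).2.2
        have i2 := (PQ_idx (x := x) (Q := Q) (m := 240) (a0 := 80) (a1 := 201) (u := 5 / 6 + 1 / 500) (by omega) (by norm_num)
          (by norm_num) (by norm_num) hQ v hvP).2.2
        rw [← hLe] at b1 b2 b3 b4 hL
        have i3 : 280 ≤ cidx x 240 u + cidx x 240 v := by
          by_contra hcon
          push Not at hcon
          have hc : ((cidx x 240 u + cidx x 240 v : ℕ) : ℝ) ≤ 279 := by exact_mod_cast (by omega)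
          push_cast at hc b2 b4
          have h6 : ((cidx x 240 u : ℝ) + cidx x 240 v) * L ≤ 279 * L := mul_le_mul_of_nonneg_right hc hL.le
          nlinarith
        unfold c3
        simp only [Bool.and_eq_true, decide_eq_true_eq]
        exact ⟨i3, by omega⟩
      · rw [hNe, if_pos (dvd_mul_right _ _), Nat.mul_div_cancel_left _ (Nat.mul_pos hu.pos hv.pos), pi0_of hw]
        norm_num
    have hqr : q ≤ V := by omega
    have hpr : p ≤ V := by omega
    have k1 := key p q r hp hq hr h1 (by omega) hpr hqr h4 (by omega) h5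
    have k2 := key q p r hq hp hr (by omega) h1 hqr hpr h4 (by omega) (by rw [h5]; ring)
    have k3 := key p r q hp hr hq h1 (by omega) hpr h4 hqr (by omega) (by rw [h5]; ring)
    have k4 := key r p q hr hp hq (by omega) h1 h4 hpr hqr (by omega) (by rw [h5]; ring)
    have k5 := key q r p hq hr hp (by omega) (by omega) hqr h4 hpr (by omega) (by rw [h5]; ring)
    have k6 := key r q p hr hq hp (by omega) (by omega) h4 hqr hpr (by omega) (by rw [h5]; ring)
    have hT : ({(p, q), (q, p), (p, r), (r, p), (q, r), (r, q)} : Finset (ℕ × ℕ)) ⊆ S := by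
      intro t ht
      simp only [mem_insert, mem_singleton] at ht
      rcases ht with rfl | rfl | rfl | rfl | rfl | rfl
      · exact k1.1
      · exact k2.1
      · exact k3.1
      · exact k4.1
      · exact k5.1
      · exact k6.1
    refine le_trans (le_of_eq ?_) (sum_le_sum_of_subset_of_nonneg hT fun t ht _ => hnn t ht)
    rw [e3]
    have n1 : (p, q) ∉ ({(q, p), (p, r), (r, p), (q, r), (r, q)} : Finset (ℕ × ℕ)) := by
      simp only [mem_insert, mem_singleton, Prod.mk.injEq]; omega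
    have n2 : (q, p) ∉ ({(p, r), (r, p), (q, r), (r, q)} : Finset (ℕ × ℕ)) := by
      simp only [mem_insert, mem_singleton, Prod.mk.injEq]; omega
    have n3 : (p, r) ∉ ({(r, p), (q, r), (r, q)} : Finset (ℕ × ℕ)) := by
      simp only [mem_insert, mem_singleton, Prod.mk.injEq]; omega
    have n4 : (r, p) ∉ ({(q, r), (r, q)} : Finset (ℕ × ℕ)) := by
      simp only [mem_insert, mem_singleton, Prod.mk.injEq]; omega
    have n5 : (q, r) ∉ ({(r, q)} : Finset (ℕ × ℕ)) := by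
      simp only [mem_singleton, Prod.mk.injEq]; omega
    rw [sum_insert n1, sum_insert n2, sum_insert n3, sum_insert n4, sum_insert n5, sum_singleton]
    simp only
    rw [k1.2, k2.2, k3.2, k4.2, k5.2, k6.2]
    norm_num

end Pool.Agent.H568
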