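import Mathlib
import Pool.Agent.H568.Mn5

/-!
What is lost, covered by sums over tuples of primes: the pairs with small product.
-/

set_option autoImplicit false

namespace Pool.Agent.H568

open Finset Filter Topology Pool.Agent.N792 Pool.Agent.N791.U

/-- a pair of primes with a prime cofactor -/
lemma ls_B (a : ℤ) (ha : 0 < a) (Λ : ℝ) (hΛ : 1 ≤ Λ) (R : ℕ) (η : ℝ) (hη : 0 < η) :
    ∀ᶠ x : ℕ in atTop, ∀ b : ℤ, (b : ℝ) ^ 2 ≤ Λ * x → ∀ x1 x2 : ℕ, x1 < x2 → x2 ≤ x → x ≤ R * x1 →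
    ∀ Q U : ℕ, (x : ℝ) ^ (1 / 3 : ℝ) ≤ Q → (U : ℝ) ≤ (x : ℝ) ^ (5 / 6 : ℝ) →
    Ls a b x1 x2 (fun N => ∑ j ∈ N.divisors.filter (fun j => j ≤ U), pi2 Q j * pi0 (N / j)) ≤
      782 / 20000 * (((x2 : ℝ) - x1) / Real.log x) + η * (x / Real.log x) := by
  classical
  filter_upwards [main_le a ha Λ hΛ R (782 / 20000) η (by norm_num) hη,
    pair_T 240 80 120 (782 * 10 ^ 18) (1 / 2) cB (by norm_num) (by norm_num) (by norm_num)
      (fun i j h => by unfold cB at h; simp at h; omega) nB, eventually_ge_atTop 2] with x hmain hT hx2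
  intro b hb x1 x2 h12 h2x hxR Q U hQ hU
  have hx1 : 1 ≤ x := by omega
  have hx0 : (0 : ℝ) < x := by exact_mod_cast hx1
  have hL : 0 < Real.log x := Real.log_pos (by exact_mod_cast (by omega : 1 < x))
  obtain ⟨L, hLe⟩ : ∃ L : ℝ, L = Real.log x := ⟨_, rfl⟩
  obtain ⟨P, hP⟩ : ∃ P : Finset ℕ, P = PQ x Q (1 / 2) := ⟨_, rfl⟩
  obtain ⟨S, hS⟩ : ∃ S : Finset (ℕ × ℕ), S = (P ×ˢ P).filter (fun t => t.1 ≠ t.2 ∧ cB (cidx x 240 t.1) (cidx x 240 t.2) = true) :=
    ⟨_, rfl⟩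
  have hSm : ∀ t ∈ S, t.1 ∈ P ∧ t.2 ∈ P ∧ t.1 ≠ t.2 ∧ cB (cidx x 240 t.1) (cidx x 240 t.2) = true := by
    intro t ht
    rw [hS, mem_filter, mem_product] at ht
    exact ⟨ht.1.1, ht.1.2, ht.2⟩
  have hPm : ∀ p ∈ P, p.Prime ∧ Q < p ∧ Real.log p ≤ (1 / 2) * L := by
    intro p hp
    rw [hP, mem_PQ hx1] at hp
    rw [hLe]
    exact hp
  refine hmain b hb x1 x2 h12 h2x hxR (ℕ × ℕ) S (fun _ => 1 / 2) (fun t => t.1 * t.2) ?_ ?_ _ ?_
  · intro t ht
    obtain ⟨t1, t2, t3, t4⟩ := hSm t ht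
    obtain ⟨a1, a2, a3⟩ := hPm _ t1
    obtain ⟨b1, b2, b3⟩ := hPm _ t2
    refine ⟨by norm_num, Nat.mul_pos a1.pos b1.pos, ?_⟩
    have q1 : (0 : ℝ) < t.1 := by exact_mod_cast a1.pos
    have q2 : (0 : ℝ) < t.2 := by exact_mod_cast b1.pos
    push_cast
    rw [Real.log_mul q1.ne' q2.ne', ← hLe]
    rw [← hLe] at hL
    linarith
  · have h1 := hT Q hQ S (by
      intro t ht
      obtain ⟨t1, t2, t3, t4⟩ := hSm t ht
      rw [mem_product, ← hP]
      exact ⟨t1, t2⟩) (fun t ht => (hSm t ht).2.2.2)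
    have e1 : ∑ t ∈ S, 1 / 2 / (((t.1 * t.2 : ℕ) : ℝ) * (19999 / 10000 * Real.log x - Real.log ((t.1 * t.2 : ℕ) : ℝ))) =
        1 / 2 * ∑ t ∈ S, 1 / (((t.1 * t.2 : ℕ) : ℝ) * (19999 / 10000 * Real.log x - Real.log ((t.1 * t.2 : ℕ) : ℝ))) := by
      rw [mul_sum]
      apply sum_congr rfl
      intro t _
      rw [div_eq_mul_one_div (1 / 2 : ℝ)]
    rw [e1]
    calc 1 / 2 * ∑ t ∈ S, 1 / (((t.1 * t.2 : ℕ) : ℝ) * (19999 / 10000 * Real.log x - Real.log ((t.1 * t.2 : ℕ) : ℝ)))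
        ≤ 1 / 2 * (((782 * 10 ^ 18 : ℕ) : ℝ) / 10 ^ 22 / Real.log x) := mul_le_mul_of_nonneg_left h1 (by norm_num)
      _ = 782 / 20000 / Real.log x := by push_cast; ring
  · intro N hN1 hN2 hN0
    rw [← hLe] at hN1 hN2
    have hnn : ∀ t ∈ S, 0 ≤ (1 / 2 : ℝ) * (if t.1 * t.2 ∣ N then pi0 (N / (t.1 * t.2)) else 0) := by
      intro t _
      have := (Pt.pi0_le (N / (t.1 * t.2))).1
      split_ifs <;> positivity
    apply fiber_ge S (fun t => t.1 * t.2) _ hnn
    intro j hj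
    rw [mem_filter, Nat.mem_divisors] at hj
    obtain ⟨⟨hjN, _⟩, hjU⟩ := hj
    have hnn' : ∀ t ∈ S.filter (fun t => t.1 * t.2 = j), 0 ≤ (1 / 2 : ℝ) * (if t.1 * t.2 ∣ N then pi0 (N / (t.1 * t.2)) else 0) :=
      fun t ht => hnn t (mem_filter.1 ht).1
    by_cases h : ∃ p q : ℕ, p.Prime ∧ q.Prime ∧ Q < p ∧ p < q ∧ j = p * q
    swap
    · have : pi2 Q j = 0 := by unfold pi2; rw [if_neg h]
      rw [this, zero_mul]
      exact sum_nonneg hnn'
    have e3 : pi2 Q j = 1 := by unfold pi2; rw [if_pos h]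
    obtain ⟨p, q, hp, hq, h1, h2, h5⟩ := h
    have hjU' : Real.log j ≤ 5 / 6 * L := by
      have j0 : (0 : ℝ) < j := by
        rw [h5]
        exact_mod_cast Nat.mul_pos hp.pos hq.pos
      have : (j : ℝ) ≤ (x : ℝ) ^ (5 / 6 : ℝ) := (by exact_mod_cast hjU : (j : ℝ) ≤ U).trans hU
      have := Real.log_le_log j0 this
      rwa [Real.log_rpow hx0, ← hLe] at this
    have key : ∀ u v : ℕ, u.Prime → v.Prime → Q < u → Q < v → u ≠ v → j = u * v →
        (u, v) ∈ S.filter (fun t => t.1 * t.2 = j) ∧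
          (1 / 2 : ℝ) * (if u * v ∣ N then pi0 (N / (u * v)) else 0) = 1 / 2 * pi0 (N / j) := by
      intro u v hu hv hQu hQv huv hje
      have u0 : (0 : ℝ) < u := by exact_mod_cast hu.pos
      have v0 : (0 : ℝ) < v := by exact_mod_cast hv.pos
      have lj : Real.log j = Real.log u + Real.log v := by
        rw [hje]
        push_cast
        rw [Real.log_mul u0.ne' v0.ne']
      have lu := log_third hx1 hQ hQu
      have lv := log_third hx1 hQ hQv
      rw [← hLe] at lu lv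
      have huP : u ∈ P := by rw [hP, mem_PQ hx1, ← hLe]; exact ⟨hu, hQu, by linarith⟩
      have hvP : v ∈ P := by rw [hP, mem_PQ hx1, ← hLe]; exact ⟨hv, hQv, by linarith⟩
      constructor
      · rw [mem_filter, hS, mem_filter, mem_product]
        refine ⟨⟨⟨huP, hvP⟩, huv, ?_⟩, hje.symm⟩
        obtain ⟨b1, b2⟩ := cidx_lt (x := x) (m := 240) (p := u) (by norm_num) hL hu.one_lt
        obtain ⟨b3, b4⟩ := cidx_lt (x := x) (m := 240) (p := v) (by norm_num) hL hv.one_lt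
        rw [← hLe] at b1 b2 b3 b4
        have hL' : 0 < L := by rw [hLe]; exact hL
        change decide (cidx x 240 u + cidx x 240 v ≤ 201) = true
        rw [decide_eq_true_eq]
        by_contra hcon
        push Not at hcon
        have hc : (202 : ℝ) ≤ ((cidx x 240 u + cidx x 240 v : ℕ) : ℝ) := by exact_mod_cast (by omega)
        push_cast at hc b1 b3
        have h6 : 202 * L ≤ ((cidx x 240 u : ℝ) + cidx x 240 v) * L := mul_le_mul_of_nonneg_right hc hL'.le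
        nlinarith
      · rw [← hje, if_pos hjN]
    have k1 := key p q hp hq h1 (by omega) (by omega) h5
    have k2 := key q p hq hp (by omega) h1 (by omega) (by rw [h5]; ring)
    have hT : ({(p, q), (q, p)} : Finset (ℕ × ℕ)) ⊆ S.filter (fun t => t.1 * t.2 = j) := by
      intro t ht
      simp only [mem_insert, mem_singleton] at ht
      rcases ht with rfl | rfl
      · exact k1.1
      · exact k2.1
    refine le_trans (le_of_eq ?_) (sum_le_sum_of_subset_of_nonneg hT fun t ht _ => hnn' t ht)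
    have n1 : (p, q) ∉ ({(q, p)} : Finset (ℕ × ℕ)) := by
      simp only [mem_singleton, Prod.mk.injEq]; omega
    rw [sum_insert n1, sum_singleton]
    simp only
    rw [k1.2, k2.2, e3]
    ring

/-- a pair of primes whose cofactor is a product of two primes -/
lemma ls_C (a : ℤ) (ha : 0 < a) (Λ : ℝ) (hΛ : 1 ≤ Λ) (R : ℕ) (η : ℝ) (hη : 0 < η) :
    ∀ᶠ x : ℕ in atTop, ∀ b : ℤ, (b : ℝ) ^ 2 ≤ Λ * x → ∀ x1 x2 : ℕ, x1 < x2 → x2 ≤ x → x ≤ R * x1 →
    ∀ Q U : ℕ, (x : ℝ) ^ (1 / 3 : ℝ) ≤ Q → (U : ℝ) ≤ (x : ℝ) ^ (5 / 6 : ℝ) →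
    Ls a b x1 x2 (fun N => ∑ j ∈ N.divisors.filter (fun j => j ≤ U), pi2 Q j * pi2 Q (N / j)) ≤
      16531 / 400000 * (((x2 : ℝ) - x1) / Real.log x) + η * (x / Real.log x) := by
  classical
  filter_upwards [main_le a ha Λ hΛ R (16531 / 400000) η (by norm_num) hη,
    trip_T 120 40 121 (16531 * 10 ^ 25) (10001 / 10000) cC (by norm_num) (by norm_num) (by norm_num)
      (fun i j k h => by unfold cC at h; simp at h; omega) nC, eventually_ge_atTop 2] with x hmain hT hx2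
  intro b hb x1 x2 h12 h2x hxR Q U hQ hU
  have hx1 : 1 ≤ x := by omega
  have hx0 : (0 : ℝ) < x := by exact_mod_cast hx1
  have hL : 0 < Real.log x := Real.log_pos (by exact_mod_cast (by omega : 1 < x))
  obtain ⟨L, hLe⟩ : ∃ L : ℝ, L = Real.log x := ⟨_, rfl⟩
  have hL' : 0 < L := by rw [hLe]; exact hL
  obtain ⟨P, hP⟩ : ∃ P : Finset ℕ, P = PQ x Q (10001 / 10000) := ⟨_, rfl⟩
  obtain ⟨S, hS⟩ : ∃ S : Finset (ℕ × ℕ × ℕ), S = (P ×ˢ P ×ˢ P).filter (fun t =>
    Real.log ((t.1 * t.2.1 * t.2.2 : ℕ) : ℝ) ≤ 169 / 100 * L ∧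
    cC (cidx x 120 t.1) (cidx x 120 t.2.1) (cidx x 120 t.2.2) = true) := ⟨_, rfl⟩
  have hSm : ∀ t ∈ S, (t.1 ∈ P ∧ t.2.1 ∈ P ∧ t.2.2 ∈ P) ∧ Real.log ((t.1 * t.2.1 * t.2.2 : ℕ) : ℝ) ≤ 169 / 100 * L ∧
      cC (cidx x 120 t.1) (cidx x 120 t.2.1) (cidx x 120 t.2.2) = true := by
    intro t ht
    rw [hS, mem_filter, mem_product, mem_product] at ht
    exact ht
  have hPm : ∀ p ∈ P, p.Prime ∧ Q < p ∧ Real.log p ≤ (10001 / 10000) * L := by
    intro p hp
    rw [hP, mem_PQ hx1] at hp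
    rw [hLe]
    exact hp
  refine hmain b hb x1 x2 h12 h2x hxR (ℕ × ℕ × ℕ) S (fun _ => 1 / 4) (fun t => t.1 * t.2.1 * t.2.2) ?_ ?_ _ ?_
  · intro t ht
    obtain ⟨⟨t1, t2, t3⟩, t4, t5⟩ := hSm t ht
    refine ⟨by norm_num, Nat.mul_pos (Nat.mul_pos (hPm _ t1).1.pos (hPm _ t2).1.pos) (hPm _ t3).1.pos, ?_⟩
    rw [← hLe]
    exact t4
  · have h1 := hT Q hQ S (by
      intro t ht
      obtain ⟨⟨t1, t2, t3⟩, t4, t5⟩ := hSm t ht
      rw [mem_product, mem_product, ← hP]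
      exact ⟨t1, t2, t3⟩) (fun t ht => (hSm t ht).2.2)
    have e1 : ∑ t ∈ S, 1 / 4 / (((t.1 * t.2.1 * t.2.2 : ℕ) : ℝ) *
        (19999 / 10000 * Real.log x - Real.log ((t.1 * t.2.1 * t.2.2 : ℕ) : ℝ))) =
        1 / 4 * ∑ t ∈ S, 1 / (((t.1 * t.2.1 * t.2.2 : ℕ) : ℝ) *
          (19999 / 10000 * Real.log x - Real.log ((t.1 * t.2.1 * t.2.2 : ℕ) : ℝ))) := by
      rw [mul_sum]
      apply sum_congr rfl
      intro t _
      rw [div_eq_mul_one_div (1 / 4 : ℝ)]
    rw [e1]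
    calc 1 / 4 * ∑ t ∈ S, 1 / (((t.1 * t.2.1 * t.2.2 : ℕ) : ℝ) *
          (19999 / 10000 * Real.log x - Real.log ((t.1 * t.2.1 * t.2.2 : ℕ) : ℝ)))
        ≤ 1 / 4 * (((16531 * 10 ^ 25 : ℕ) : ℝ) / 10 ^ 30 / Real.log x) := mul_le_mul_of_nonneg_left h1 (by norm_num)
      _ = 16531 / 400000 / Real.log x := by push_cast; ring
  · intro N hN1 hN2 hN0
    rw [← hLe] at hN1 hN2
    have hnn : ∀ t ∈ S, 0 ≤ (1 / 4 : ℝ) * (if t.1 * t.2.1 * t.2.2 ∣ N then pi0 (N / (t.1 * t.2.1 * t.2.2)) else 0) := by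
      intro t _
      have := (Pt.pi0_le (N / (t.1 * t.2.1 * t.2.2))).1
      split_ifs <;> positivity
    apply fiber_ge S (fun t => t.1 * t.2.1) _ hnn
    intro j hj
    rw [mem_filter, Nat.mem_divisors] at hj
    obtain ⟨⟨hjN, _⟩, hjU⟩ := hj
    have hnn' : ∀ t ∈ S.filter (fun t => t.1 * t.2.1 = j),
        0 ≤ (1 / 4 : ℝ) * (if t.1 * t.2.1 * t.2.2 ∣ N then pi0 (N / (t.1 * t.2.1 * t.2.2)) else 0) :=
      fun t ht => hnn t (mem_filter.1 ht).1
    by_cases h : ∃ p q : ℕ, p.Prime ∧ q.Prime ∧ Q < p ∧ p < q ∧ j = p * q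
    swap
    · have : pi2 Q j = 0 := by unfold pi2; rw [if_neg h]
      rw [this, zero_mul]
      exact sum_nonneg hnn'
    by_cases h' : ∃ p q : ℕ, p.Prime ∧ q.Prime ∧ Q < p ∧ p < q ∧ N / j = p * q
    swap
    · have : pi2 Q (N / j) = 0 := by unfold pi2; rw [if_neg h']
      rw [this, mul_zero]
      exact sum_nonneg hnn'
    have e3 : pi2 Q j = 1 := by unfold pi2; rw [if_pos h]
    have e4 : pi2 Q (N / j) = 1 := by unfold pi2; rw [if_pos h']
    obtain ⟨p, q, hp, hq, h1, h2, h5⟩ := h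
    obtain ⟨r, s, hr, hs, h1', h2', h5'⟩ := h'
    have hNj : N = j * (N / j) := (Nat.mul_div_cancel' hjN).symm
    have hjU' : Real.log j ≤ 5 / 6 * L := by
      have j0 : (0 : ℝ) < j := by
        rw [h5]
        exact_mod_cast Nat.mul_pos hp.pos hq.pos
      have : (j : ℝ) ≤ (x : ℝ) ^ (5 / 6 : ℝ) := (by exact_mod_cast hjU : (j : ℝ) ≤ U).trans hU
      have := Real.log_le_log j0 this
      rwa [Real.log_rpow hx0, ← hLe] at this
    have key : ∀ u v w y : ℕ, u.Prime → v.Prime → w.Prime → y.Prime → Q < u → Q < v → Q < w → Q < y → j = u * v → N / j = w * y →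
        (u, v, w) ∈ S.filter (fun t => t.1 * t.2.1 = j) ∧
          (1 / 4 : ℝ) * (if u * v * w ∣ N then pi0 (N / (u * v * w)) else 0) = 1 / 4 := by
      intro u v w y hu hv hw hy hQu hQv hQw hQy hje hwe
      have u0 : (0 : ℝ) < u := by exact_mod_cast hu.pos
      have v0 : (0 : ℝ) < v := by exact_mod_cast hv.pos
      have w0 : (0 : ℝ) < w := by exact_mod_cast hw.pos
      have y0 : (0 : ℝ) < y := by exact_mod_cast hy.pos
      have hNe : N = u * v * w * y := by rw [hNj, hwe, hje]; ring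
      have lj : Real.log j = Real.log u + Real.log v := by
        rw [hje]
        push_cast
        rw [Real.log_mul u0.ne' v0.ne']
      have lm : Real.log ((u * v * w : ℕ) : ℝ) = Real.log u + Real.log v + Real.log w := by
        push_cast
        rw [Real.log_mul (by positivity) w0.ne', Real.log_mul u0.ne' v0.ne']
      have lN : Real.log N = Real.log u + Real.log v + Real.log w + Real.log y := by
        rw [hNe]
        push_cast
        rw [Real.log_mul (by positivity) y0.ne', Real.log_mul (by positivity) w0.ne', Real.log_mul u0.ne' v0.ne']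
      have lu := log_third hx1 hQ hQu
      have lv := log_third hx1 hQ hQv
      have lw := log_third hx1 hQ hQw
      have ly := log_third hx1 hQ hQy
      rw [← hLe] at lu lv lw ly
      have huP : u ∈ P := by rw [hP, mem_PQ hx1, ← hLe]; exact ⟨hu, hQu, by linarith⟩
      have hvP : v ∈ P := by rw [hP, mem_PQ hx1, ← hLe]; exact ⟨hv, hQv, by linarith⟩
      have hwP : w ∈ P := by rw [hP, mem_PQ hx1, ← hLe]; exact ⟨hw, hQw, by linarith⟩
      constructor
      · rw [mem_filter, hS, mem_filter, mem_product, mem_product]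
        refine ⟨⟨⟨huP, hvP, hwP⟩, ?_, ?_⟩, hje.symm⟩
        · simp only
          rw [lm]
          linarith
        obtain ⟨b1, b2⟩ := cidx_lt (x := x) (m := 120) (p := u) (by norm_num) hL hu.one_lt
        obtain ⟨b3, b4⟩ := cidx_lt (x := x) (m := 120) (p := v) (by norm_num) hL hv.one_lt
        obtain ⟨b5, b6⟩ := cidx_lt (x := x) (m := 120) (p := w) (by norm_num) hL hw.one_lt
        rw [← hLe] at b1 b2 b3 b4 b5 b6
        change (decide (cidx x 120 u + cidx x 120 v ≤ 101) && decide (cidx x 120 u + cidx x 120 v + cidx x 120 w ≤ 203)) = true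
        rw [Bool.and_eq_true, decide_eq_true_eq, decide_eq_true_eq]
        push_cast at b1 b3 b5
        constructor
        · by_contra hcon
          push Not at hcon
          have hc : (102 : ℝ) ≤ ((cidx x 120 u + cidx x 120 v : ℕ) : ℝ) := by exact_mod_cast (by omega)
          push_cast at hc
          have h6 : 102 * L ≤ ((cidx x 120 u : ℝ) + cidx x 120 v) * L := mul_le_mul_of_nonneg_right hc hL'.le
          nlinarith
        · by_contra hcon
          push Not at hcon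
          have hc : (204 : ℝ) ≤ ((cidx x 120 u + cidx x 120 v + cidx x 120 w : ℕ) : ℝ) := by exact_mod_cast (by omega)
          push_cast at hc
          have h6 : 204 * L ≤ ((cidx x 120 u : ℝ) + cidx x 120 v + cidx x 120 w) * L := mul_le_mul_of_nonneg_right hc hL'.le
          nlinarith
      · rw [hNe, if_pos (dvd_mul_right _ _),
          Nat.mul_div_cancel_left _ (Nat.mul_pos (Nat.mul_pos hu.pos hv.pos) hw.pos), pi0_of hy]
        norm_num
    have k1 := key p q r s hp hq hr hs h1 (by omega) h1' (by omega) h5 h5'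
    have k2 := key q p r s hq hp hr hs (by omega) h1 h1' (by omega) (by rw [h5]; ring) h5'
    have k3 := key p q s r hp hq hs hr h1 (by omega) (by omega) h1' h5 (by rw [h5']; ring)
    have k4 := key q p s r hq hp hs hr (by omega) h1 (by omega) h1' (by rw [h5]; ring) (by rw [h5']; ring)
    have hT : ({(p, q, r), (q, p, r), (p, q, s), (q, p, s)} : Finset (ℕ × ℕ × ℕ)) ⊆ S.filter (fun t => t.1 * t.2.1 = j) := by
      intro t ht
      simp only [mem_insert, mem_singleton] at ht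
      rcases ht with rfl | rfl | rfl | rfl
      · exact k1.1
      · exact k2.1
      · exact k3.1
      · exact k4.1
    refine le_trans (le_of_eq ?_) (sum_le_sum_of_subset_of_nonneg hT fun t ht _ => hnn' t ht)
    have n1 : (p, q, r) ∉ ({(q, p, r), (p, q, s), (q, p, s)} : Finset (ℕ × ℕ × ℕ)) := by
      simp only [mem_insert, mem_singleton, Prod.mk.injEq]; omega
    have n2 : (q, p, r) ∉ ({(p, q, s), (q, p, s)} : Finset (ℕ × ℕ × ℕ)) := by
      simp only [mem_insert, mem_singleton, Prod.mk.injEq]; omega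
    have n3 : (p, q, s) ∉ ({(q, p, s)} : Finset (ℕ × ℕ × ℕ)) := by
      simp only [mem_singleton, Prod.mk.injEq]; omega
    rw [sum_insert n1, sum_insert n2, sum_insert n3, sum_singleton]
    simp only
    rw [k1.2, k2.2, k3.2, k4.2, e3, e4]
    norm_num

end Pool.Agent.H568
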