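import Mathlib
import Pool.Agent.H568.Mn6

/-!
What is lost, covered by sums over tuples of primes: the products of five primes, and the total.
-/

set_option autoImplicit false

namespace Pool.Agent.H568

open Finset Filter Topology Pool.Agent.N792 Pool.Agent.N791.U

lemma five_primes {Q N : ℕ} (hs : Squarefree N) (hr : Rough Q N) (hw : RX5.w N = 5) :
    ∃ p q r s u : ℕ, p.Prime ∧ q.Prime ∧ r.Prime ∧ s.Prime ∧ u.Prime ∧ Q < p ∧ p ≤ q ∧ q ≤ r ∧ r ≤ s ∧ s ≤ u ∧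
      N = p * q * r * s * u := by
  have h0 : N ≠ 0 := hs.ne_zero
  have h1 : N.primeFactorsList.length = 5 := by
    rw [← hw]
    unfold RX5.w Nat.primeFactors
    rw [List.toFinset_card_of_nodup ((Nat.squarefree_iff_nodup_primeFactorsList h0).1 hs)]
  have h2 := Nat.prod_primeFactorsList h0
  have h3 : ∀ p ∈ N.primeFactorsList, p.Prime ∧ Q < p := fun p hp =>
    ⟨Nat.prime_of_mem_primeFactorsList hp, hr.2 p (Nat.prime_of_mem_primeFactorsList hp) (Nat.dvd_of_mem_primeFactorsList hp)⟩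
  have h4 := (Nat.primeFactorsList_sorted N).pairwise
  obtain ⟨l, hl⟩ : ∃ l : List ℕ, l = N.primeFactorsList := ⟨_, rfl⟩
  rw [← hl] at h1 h2 h3 h4
  match l, h1 with
  | [p, q, r, s, u], _ =>
    simp only [List.mem_cons, List.not_mem_nil, or_false, forall_eq_or_imp, forall_eq] at h3
    simp only [List.pairwise_cons, List.mem_cons, List.not_mem_nil, or_false, forall_eq_or_imp, forall_eq] at h4
    simp only [List.prod_cons, List.prod_nil, mul_one] at h2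
    obtain ⟨⟨a1, a2⟩, ⟨b1, b2⟩, ⟨c1, c2⟩, ⟨d1, d2⟩, ⟨e1, e2⟩⟩ := h3
    refine ⟨p, q, r, s, u, a1, b1, c1, d1, e1, a2, h4.1.1, h4.2.1.1, h4.2.2.1.1, h4.2.2.2.1, ?_⟩
    rw [← h2]
    ring

/-- the products of five primes -/
lemma ls_pi5 (a : ℤ) (ha : 0 < a) (Λ : ℝ) (hΛ : 1 ≤ Λ) (R : ℕ) (η : ℝ) (hη : 0 < η) :
    ∀ᶠ x : ℕ in atTop, ∀ b : ℤ, (b : ℝ) ^ 2 ≤ Λ * x → ∀ x1 x2 : ℕ, x1 < x2 → x2 ≤ x → x ≤ R * x1 →
    ∀ Q : ℕ, (x : ℝ) ^ (1 / 3 : ℝ) ≤ Q →
    Ls a b x1 x2 (fun N => 4 * pi5 Q N) ≤ 88932 / 25000000 * (((x2 : ℝ) - x1) / Real.log x) + η * (x / Real.log x) := by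
  classical
  filter_upwards [main_le a ha Λ hΛ R (88932 / 25000000) η (by norm_num) hη,
    quad_T 120 40 61 (88932 * 10 ^ 30) (101 / 200) cD (by norm_num) (by norm_num) (by norm_num)
      (fun i j k l h => by unfold cD at h; simp at h; omega) nD, eventually_ge_atTop 2] with x hmain hT hx2
  intro b hb x1 x2 h12 h2x hxR Q hQ
  have hx1 : 1 ≤ x := by omega
  have hx0 : (0 : ℝ) < x := by exact_mod_cast hx1
  have hL : 0 < Real.log x := Real.log_pos (by exact_mod_cast (by omega : 1 < x))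
  obtain ⟨L, hLe⟩ : ∃ L : ℝ, L = Real.log x := ⟨_, rfl⟩
  have hL' : 0 < L := by rw [hLe]; exact hL
  obtain ⟨P, hP⟩ : ∃ P : Finset ℕ, P = PQ x Q (101 / 200) := ⟨_, rfl⟩
  obtain ⟨S, hS⟩ : ∃ S : Finset (ℕ × ℕ × ℕ × ℕ), S = (P ×ˢ P ×ˢ P ×ˢ P).filter (fun t =>
    Real.log ((t.1 * t.2.1 * t.2.2.1 * t.2.2.2 : ℕ) : ℝ) ≤ 169 / 100 * L ∧
    cD (cidx x 120 t.1) (cidx x 120 t.2.1) (cidx x 120 t.2.2.1) (cidx x 120 t.2.2.2) = true) := ⟨_, rfl⟩
  have hSm : ∀ t ∈ S, (t.1 ∈ P ∧ t.2.1 ∈ P ∧ t.2.2.1 ∈ P ∧ t.2.2.2 ∈ P) ∧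
      Real.log ((t.1 * t.2.1 * t.2.2.1 * t.2.2.2 : ℕ) : ℝ) ≤ 169 / 100 * L ∧
      cD (cidx x 120 t.1) (cidx x 120 t.2.1) (cidx x 120 t.2.2.1) (cidx x 120 t.2.2.2) = true := by
    intro t ht
    rw [hS, mem_filter, mem_product, mem_product, mem_product] at ht
    exact ht
  have hPm : ∀ p ∈ P, p.Prime ∧ Q < p ∧ Real.log p ≤ (101 / 200) * L := by
    intro p hp
    rw [hP, mem_PQ hx1] at hp
    rw [hLe]
    exact hp
  refine hmain b hb x1 x2 h12 h2x hxR (ℕ × ℕ × ℕ × ℕ) S (fun _ => 4) (fun t => t.1 * t.2.1 * t.2.2.1 * t.2.2.2) ?_ ?_ _ ?_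
  · intro t ht
    obtain ⟨⟨t1, t2, t3, t3'⟩, t4, t5⟩ := hSm t ht
    refine ⟨by norm_num, Nat.mul_pos (Nat.mul_pos (Nat.mul_pos (hPm _ t1).1.pos (hPm _ t2).1.pos) (hPm _ t3).1.pos)
      (hPm _ t3').1.pos, ?_⟩
    rw [← hLe]
    exact t4
  · have h1 := hT Q hQ S (by
      intro t ht
      obtain ⟨⟨t1, t2, t3, t3'⟩, t4, t5⟩ := hSm t ht
      rw [mem_product, mem_product, mem_product, ← hP]
      exact ⟨t1, t2, t3, t3'⟩) (fun t ht => (hSm t ht).2.2)
    have e1 : ∑ t ∈ S, 4 / (((t.1 * t.2.1 * t.2.2.1 * t.2.2.2 : ℕ) : ℝ) *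
        (19999 / 10000 * Real.log x - Real.log ((t.1 * t.2.1 * t.2.2.1 * t.2.2.2 : ℕ) : ℝ))) =
        4 * ∑ t ∈ S, 1 / (((t.1 * t.2.1 * t.2.2.1 * t.2.2.2 : ℕ) : ℝ) *
          (19999 / 10000 * Real.log x - Real.log ((t.1 * t.2.1 * t.2.2.1 * t.2.2.2 : ℕ) : ℝ))) := by
      rw [mul_sum]
      apply sum_congr rfl
      intro t _
      rw [div_eq_mul_one_div (4 : ℝ)]
    rw [e1]
    calc 4 * ∑ t ∈ S, 1 / (((t.1 * t.2.1 * t.2.2.1 * t.2.2.2 : ℕ) : ℝ) *
          (19999 / 10000 * Real.log x - Real.log ((t.1 * t.2.1 * t.2.2.1 * t.2.2.2 : ℕ) : ℝ)))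
        ≤ 4 * (((88932 * 10 ^ 30 : ℕ) : ℝ) / 10 ^ 38 / Real.log x) := mul_le_mul_of_nonneg_left h1 (by norm_num)
      _ = 88932 / 25000000 / Real.log x := by push_cast; ring
  · intro N hN1 hN2 hN0
    rw [← hLe] at hN1 hN2
    have hnn : ∀ t ∈ S, 0 ≤ (4 : ℝ) * (if t.1 * t.2.1 * t.2.2.1 * t.2.2.2 ∣ N then
        pi0 (N / (t.1 * t.2.1 * t.2.2.1 * t.2.2.2)) else 0) := by
      intro t _
      have := (Pt.pi0_le (N / (t.1 * t.2.1 * t.2.2.1 * t.2.2.2))).1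
      split_ifs <;> positivity
    by_cases h : Squarefree N ∧ Rough Q N ∧ RX5.w N = 5
    swap
    · have : pi5 Q N = 0 := by unfold pi5; rw [if_neg h]
      rw [this, mul_zero]
      exact sum_nonneg hnn
    have e3 : pi5 Q N = 1 := by unfold pi5; rw [if_pos h]
    obtain ⟨p, q, r, s, u, hp, hq, hr, hs, hu, h1, h2, h3, h4, h5, hN⟩ := five_primes h.1 h.2.1 h.2.2
    have p0 : (0 : ℝ) < p := by exact_mod_cast hp.pos
    have q0 : (0 : ℝ) < q := by exact_mod_cast hq.pos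
    have r0 : (0 : ℝ) < r := by exact_mod_cast hr.pos
    have s0 : (0 : ℝ) < s := by exact_mod_cast hs.pos
    have u0 : (0 : ℝ) < u := by exact_mod_cast hu.pos
    have lm : Real.log ((p * q * r * s : ℕ) : ℝ) = Real.log p + Real.log q + Real.log r + Real.log s := by
      push_cast
      rw [Real.log_mul (by positivity) s0.ne', Real.log_mul (by positivity) r0.ne', Real.log_mul p0.ne' q0.ne']
    have lN : Real.log N = Real.log p + Real.log q + Real.log r + Real.log s + Real.log u := by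
      rw [hN]
      push_cast
      rw [Real.log_mul (by positivity) u0.ne', Real.log_mul (by positivity) s0.ne', Real.log_mul (by positivity) r0.ne',
        Real.log_mul p0.ne' q0.ne']
    have lp := log_third hx1 hQ h1
    have lq := log_third hx1 hQ (by omega : Q < q)
    have lr := log_third hx1 hQ (by omega : Q < r)
    have ls := log_third hx1 hQ (by omega : Q < s)
    have lu := log_third hx1 hQ (by omega : Q < u)
    rw [← hLe] at lp lq lr ls lu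
    have m1 : Real.log p ≤ Real.log q := Real.log_le_log p0 (by exact_mod_cast h2)
    have m2 : Real.log q ≤ Real.log r := Real.log_le_log q0 (by exact_mod_cast h3)
    have m3 : Real.log r ≤ Real.log s := Real.log_le_log r0 (by exact_mod_cast h4)
    have m4 : Real.log s ≤ Real.log u := Real.log_le_log s0 (by exact_mod_cast h5)
    have hpP : p ∈ P := by rw [hP, mem_PQ hx1, ← hLe]; exact ⟨hp, h1, by linarith⟩
    have hqP : q ∈ P := by rw [hP, mem_PQ hx1, ← hLe]; exact ⟨hq, by omega, by linarith⟩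
    have hrP : r ∈ P := by rw [hP, mem_PQ hx1, ← hLe]; exact ⟨hr, by omega, by linarith⟩
    have hsP : s ∈ P := by rw [hP, mem_PQ hx1, ← hLe]; exact ⟨hs, by omega, by linarith⟩
    have hmem : (p, q, r, s) ∈ S := by
      rw [hS, mem_filter, mem_product, mem_product, mem_product]
      refine ⟨⟨hpP, hqP, hrP, hsP⟩, ?_, ?_⟩
      · simp only
        rw [lm]
        linarith
      obtain ⟨b1, b2⟩ := cidx_lt (x := x) (m := 120) (p := p) (by norm_num) hL hp.one_lt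
      obtain ⟨b3, b4⟩ := cidx_lt (x := x) (m := 120) (p := q) (by norm_num) hL hq.one_lt
      obtain ⟨b5, b6⟩ := cidx_lt (x := x) (m := 120) (p := r) (by norm_num) hL hr.one_lt
      obtain ⟨b7, b8⟩ := cidx_lt (x := x) (m := 120) (p := s) (by norm_num) hL hs.one_lt
      rw [← hLe] at b1 b2 b3 b4 b5 b6 b7 b8
      push_cast at b1 b3 b5 b7
      have i1 := cidx_mono (x := x) (m := 120) hp.pos hL h2
      have i2 := cidx_mono (x := x) (m := 120) hq.pos hL h3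
      have i3 := cidx_mono (x := x) (m := 120) hr.pos hL h4
      change (decide (cidx x 120 p ≤ cidx x 120 q) && decide (cidx x 120 q ≤ cidx x 120 r) &&
        decide (cidx x 120 r ≤ cidx x 120 s) && decide (cidx x 120 p + cidx x 120 q + cidx x 120 r + 2 * cidx x 120 s ≤ 245)) = true
      simp only [Bool.and_eq_true, decide_eq_true_eq]
      refine ⟨⟨⟨i1, i2⟩, i3⟩, ?_⟩
      by_contra hcon
      push Not at hcon
      have hc : (246 : ℝ) ≤ ((cidx x 120 p + cidx x 120 q + cidx x 120 r + 2 * cidx x 120 s : ℕ) : ℝ) := by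
        exact_mod_cast (by omega)
      push_cast at hc
      have h6 : 246 * L ≤ ((cidx x 120 p : ℝ) + cidx x 120 q + cidx x 120 r + 2 * cidx x 120 s) * L :=
        mul_le_mul_of_nonneg_right hc hL'.le
      nlinarith
    have hval : (4 : ℝ) * (if p * q * r * s ∣ N then pi0 (N / (p * q * r * s)) else 0) = 4 := by
      rw [hN, if_pos (dvd_mul_right _ _), Nat.mul_div_cancel_left _
        (Nat.mul_pos (Nat.mul_pos (Nat.mul_pos hp.pos hq.pos) hr.pos) hs.pos), pi0_of hu]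
      norm_num
    rw [e3, mul_one]
    refine le_trans (le_of_eq ?_) (single_le_sum hnn hmem)
    exact hval.symm

lemma Ls_add' (a b : ℤ) (x1 x2 : ℕ) (F G : ℕ → ℝ) : Ls a b x1 x2 (fun N => F N + G N) = Ls a b x1 x2 F + Ls a b x1 x2 G := by
  unfold Ls
  simp only [add_mul, sum_add_distrib]

/-- **what is lost** -/
theorem ls_W1 (a : ℤ) (ha : 0 < a) (Λ : ℝ) (hΛ : 1 ≤ Λ) (R : ℕ) (η : ℝ) (hη : 0 < η) :
    ∀ᶠ x : ℕ in atTop, ∀ b : ℤ, (b : ℝ) ^ 2 ≤ Λ * x → ∀ x1 x2 : ℕ, x1 < x2 → x2 ≤ x → x ≤ R * x1 →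
    ∀ Q U V : ℕ, (x : ℝ) ^ (1 / 3 : ℝ) ≤ Q → (U : ℝ) ≤ (x : ℝ) ^ (5 / 6 : ℝ) → (V : ℝ) ≤ (x : ℝ) ^ (5 / 6 + 1 / 500 : ℝ) →
    Ls a b x1 x2 (W1 Q U V) ≤ 1 / 4 * (((x2 : ℝ) - x1) / Real.log x) + η * (x / Real.log x) := by
  filter_upwards [ls_pi3 a ha Λ hΛ R (η / 4) (by positivity), ls_B a ha Λ hΛ R (η / 4) (by positivity),
    ls_C a ha Λ hΛ R (η / 4) (by positivity), ls_pi5 a ha Λ hΛ R (η / 4) (by positivity),
    eventually_ge_atTop 2] with x h3 hB hC h5 hx2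
  intro b hb x1 x2 h12 h2x hxR Q U V hQ hU hV
  have hL : 0 < Real.log x := Real.log_pos (by exact_mod_cast (by omega : 1 < x))
  have k3 := h3 b hb x1 x2 h12 h2x hxR Q V hQ hV
  have kB := hB b hb x1 x2 h12 h2x hxR Q U hQ hU
  have kC := hC b hb x1 x2 h12 h2x hxR Q U hQ hU
  have k5 := h5 b hb x1 x2 h12 h2x hxR Q hQ
  have e : W1 Q U V = fun N => ((2 * pi3 Q V N + (∑ j ∈ N.divisors.filter (fun j => j ≤ U), pi2 Q j * pi0 (N / j))) +
      (∑ j ∈ N.divisors.filter (fun j => j ≤ U), pi2 Q j * pi2 Q (N / j))) + 4 * pi5 Q N := by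
    funext N
    unfold W1 Bs
    simp only [mul_add, sum_add_distrib]
    ring
  rw [e, Ls_add' a b x1 x2 (fun N => (2 * pi3 Q V N + (∑ j ∈ N.divisors.filter (fun j => j ≤ U), pi2 Q j * pi0 (N / j))) +
      (∑ j ∈ N.divisors.filter (fun j => j ≤ U), pi2 Q j * pi2 Q (N / j))) (fun N => 4 * pi5 Q N),
    Ls_add' a b x1 x2 (fun N => 2 * pi3 Q V N + (∑ j ∈ N.divisors.filter (fun j => j ≤ U), pi2 Q j * pi0 (N / j)))
      (fun N => ∑ j ∈ N.divisors.filter (fun j => j ≤ U), pi2 Q j * pi2 Q (N / j)),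
    Ls_add' a b x1 x2 (fun N => 2 * pi3 Q V N) (fun N => ∑ j ∈ N.divisors.filter (fun j => j ≤ U), pi2 Q j * pi0 (N / j))]
  have h12' : (x1 : ℝ) < x2 := by exact_mod_cast h12
  have hD : 0 ≤ ((x2 : ℝ) - x1) / Real.log x := div_nonneg (by linarith) hL.le
  linarith

end Pool.Agent.H568
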