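import Mathlib
import Pool.Agent.H568.C1

/-!
The pointwise bounds for all numbers.
-/

set_option autoImplicit false

namespace Pool.Agent.H568

open Finset Pool.Agent.N792 Pool.Agent.N792.RX5
open Pool.Agent.N792.SwR (rough_of_dvd)
open ArithmeticFunction (moebius)

/-- a rough number is good, or the error function is at least one -/
lemma good_or_bad {z y Q K N : ℕ} {zs : ℕ → ℕ} (hzK : zs K = Q) (hm : ∀ i < K, zs i ≤ zs (i + 1)) (hro : Rough z N) :
    1 ≤ Bad z y Q K zs N ∨ (Squarefree N ∧ (∀ j, j ∣ N → ¬ (y ≤ j ∧ y ≤ N / j)) ∧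
      (∀ i < K, ∀ p q : ℕ, p.Prime → q.Prime → p ∣ N → q ∣ N → zs i < p → p ≤ zs (i + 1) → zs i < q →
        q ≤ zs (i + 1) → p = q)) := by
  classical
  have hmono : ∀ i i' : ℕ, i ≤ i' → i' ≤ K → zs i ≤ zs i' := by
    intro i i' h
    induction i', h using Nat.le_induction with
    | base => intro _; exact le_rfl
    | succ n hn ih =>
      intro hn2
      exact (ih (by omega)).trans (hm n (by omega))
  have hN0 := hro.1
  have hrg : rg z N = 1 := by unfold rg; rw [if_pos hro]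
  by_cases hsq : Squarefree N
  swap
  · left
    have e1 : sqd z N = 1 := by
      unfold sqd
      rw [hrg, if_neg hsq, mul_one]
    unfold Bad
    have := Pt.gp_nonneg z y N
    have := Pt.T1_nonneg z (Q * Q) (same K zs) (Pt.same_nonneg K zs) N
    linarith
  by_cases hgap : ∃ j, j ∣ N ∧ y ≤ j ∧ y ≤ N / j
  · obtain ⟨j, hj1, hj2, hj3⟩ := hgap
    left
    have e1 : 1 ≤ gp z y N := by
      unfold gp
      rw [hrg, one_mul]
      have : 1 ≤ #(N.divisors.filter (fun j => y ≤ j ∧ y ≤ N / j)) := card_pos.2 ⟨j, by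
        rw [mem_filter, Nat.mem_divisors]
        exact ⟨⟨hj1, hN0⟩, hj2, hj3⟩⟩
      exact_mod_cast this
    unfold Bad
    have := Pt.sqd_nonneg z N
    have := Pt.T1_nonneg z (Q * Q) (same K zs) (Pt.same_nonneg K zs) N
    linarith
  by_cases hsame : ∃ i < K, ∃ p q : ℕ, p.Prime ∧ q.Prime ∧ p ∣ N ∧ q ∣ N ∧ zs i < p ∧ p < q ∧ q ≤ zs (i + 1)
  · obtain ⟨i, hi, p, q, hp, hq, hpN, hqN, s1, s2, s3⟩ := hsame
    left
    have hqQ : q ≤ Q := s3.trans (by rw [← hzK]; exact hmono (i + 1) K (by omega) le_rfl)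
    have hpq : p * q ∣ N := (Nat.Coprime.mul_dvd_of_dvd_of_dvd
      ((Nat.coprime_primes hp hq).2 (by omega)) hpN hqN)
    have e1 : 1 ≤ same K zs (p * q) := by
      unfold same
      have : 1 ≤ #((range K).filter (fun i => ∃ p' q' : ℕ, p'.Prime ∧ q'.Prime ∧ zs i < p' ∧ p' < q' ∧ q' ≤ zs (i + 1) ∧ p * q = p' * q')) :=
        card_pos.2 ⟨i, by
          rw [mem_filter, mem_range]
          exact ⟨hi, p, q, hp, hq, s1, s2, s3, rfl⟩⟩
      exact_mod_cast this
    have e2 : 1 ≤ T1 z (Q * Q) (same K zs) N := by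
      unfold T1
      rw [hrg, one_mul]
      refine e1.trans ?_
      apply single_le_sum (f := same K zs) (fun j _ => Pt.same_nonneg K zs j)
      rw [mem_filter, Nat.mem_divisors]
      exact ⟨⟨hpq, hN0⟩, Nat.mul_le_mul (by omega) hqQ⟩
    unfold Bad
    have := Pt.gp_nonneg z y N
    have := Pt.sqd_nonneg z N
    linarith
  · right
    refine ⟨hsq, fun j hj hcon => hgap ⟨j, hj, hcon⟩, ?_⟩
    intro i hi p q hp hq hpN hqN s1 s2 s3 s4
    by_contra hne
    apply hsame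
    rcases Nat.lt_or_gt_of_ne hne with h | h
    · exact ⟨i, hi, p, q, hp, hq, hpN, hqN, s1, h, s4⟩
    · exact ⟨i, hi, q, p, hq, hp, hqN, hpN, s3, h, s2⟩

lemma H1_abs (z U y Q V K : ℕ) (zs : ℕ → ℕ) (hm : ∀ i < K, zs i ≤ zs (i + 1)) (N : ℕ) (hN : N ≠ 0) :
    |H1 z U y Q V K zs N| ≤ 9 * (#N.divisors : ℝ) ^ 2 := by
  classical
  have hpi0 : ∀ j, |pi0 j| ≤ 1 := fun j => by rw [abs_of_nonneg (Pt.pi0_le j).1]; exact (Pt.pi0_le j).2
  have hpi2 : ∀ j, |pi2 Q j| ≤ 1 := fun j => by rw [abs_of_nonneg (Pt.pi2_le Q j).1]; exact (Pt.pi2_le Q j).2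
  have t0 := Sv_abs le_rfl (g1_abs Q) (z := z) (U := U) (y := y) hm hN
  have t3 := Pt.T2_abs1 z U y pi0 pi0 N hpi0 hpi0
  have t4 := Pt.T2_abs1 z U y pi0 (pi2 Q) N hpi0 hpi2
  have t5 := Pt.T2_abs1 z V y pi0 (pi2 Q) N hpi0 hpi2
  have t6 := Pt.T2_abs1 z U y (pi2 Q) pi0 N hpi2 hpi0
  have t7 := Pt.T2_abs1 z U y (pi2 Q) (pi2 Q) N hpi2 hpi2
  have hD1 : (1 : ℝ) ≤ #N.divisors := by
    have : 1 ≤ #N.divisors := card_pos.2 ⟨1, by rw [Nat.mem_divisors]; exact ⟨one_dvd _, hN⟩⟩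
    exact_mod_cast this
  have hDD : (#N.divisors : ℝ) ≤ (#N.divisors : ℝ) ^ 2 := le_self_pow₀ hD1 (by norm_num)
  unfold H1
  rw [abs_le] at t0 t3 t4 t5 t6 t7 ⊢
  constructor <;> linarith

/-- **the pointwise bounds** -/
theorem pt1 (z U y Q V K N : ℕ) (zs : ℕ → ℕ) (D : ℝ) (hU : 1 ≤ U) (hQU : Q ≤ U) (hUV : U ≤ V) (hVy : V ≤ y)
    (h0 : zs 0 = z) (hK : zs K = Q) (hm : ∀ i < K, zs i ≤ zs (i + 1)) (h1 : y * y < N) (h2 : N < Q ^ 6)
    (hUUQ : U * U * Q < N) (hUUQQ : N < U * U * (Q * Q)) (hNU : N * N ≤ U ^ 5) (hNV : N ≤ V * V * Q)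
    (hD : Rough z N → (#N.divisors : ℝ) ≤ D) :
    |H1 z U y Q V K zs N - min (H1 z U y Q V K zs N) (pi0 N)| ≤ 12 * D ^ 2 * Bad z y Q K zs N ∧
    pi0 N - W1 Q U V N - 12 * D ^ 2 * Bad z y Q K zs N ≤ min (H1 z U y Q V K zs N) (pi0 N) := by
  classical
  have hmono : ∀ i i' : ℕ, i ≤ i' → i' ≤ K → zs i ≤ zs i' := by
    intro i i' h
    induction i', h using Nat.le_induction with
    | base => intro _; exact le_rfl
    | succ n hn ih =>
      intro hn2
      exact (ih (by omega)).trans (hm n (by omega))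
  have hzQ : z ≤ Q := by rw [← h0, ← hK]; exact hmono 0 K (by omega) le_rfl
  have hB := Pt.Bad_nonneg z y Q K zs N
  have hW := W1_nonneg Q U V N
  have hN0 : N ≠ 0 := by omega
  have hyN : y < N := by nlinarith
  by_cases hr : Rough z N
  swap
  · have hrg : rg z N = 0 := by unfold rg; rw [if_neg hr]
    have hH : H1 z U y Q V K zs N = 0 := by
      unfold H1
      rw [Sv_case0 hr]
      unfold T2
      simp [hrg]
    have hp0 : pi0 N = 0 := by
      unfold pi0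
      rw [if_neg]
      intro hp
      apply hr
      refine ⟨hN0, fun p hp' hd => ?_⟩
      rw [(Nat.prime_dvd_prime_iff_eq hp' hp).1 hd]
      omega
    have hpos : 0 ≤ 12 * D ^ 2 * Bad z y Q K zs N := by positivity
    rw [hH, hp0, min_self, sub_zero, abs_zero]
    constructor <;> linarith
  · have hD' := hD hr
    have hD1 : (1 : ℝ) ≤ D := by
      refine le_trans ?_ hD'
      have : 1 ≤ #N.divisors := card_pos.2 ⟨1, by rw [Nat.mem_divisors]; exact ⟨one_dvd _, hN0⟩⟩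
      exact_mod_cast this
    have g5 : (1 : ℝ) ≤ D ^ 2 := one_le_pow₀ hD1
    rcases good_or_bad (y := y) hK hm hr with hb | ⟨hsq, hne, huniq⟩
    · have g1 := H1_abs z U y Q V K zs hm N hN0
      have g2 : (#N.divisors : ℝ) ^ 2 ≤ D ^ 2 := pow_le_pow_left₀ (Nat.cast_nonneg _) hD' 2
      have g6 : 12 * D ^ 2 * 1 ≤ 12 * D ^ 2 * Bad z y Q K zs N := mul_le_mul_of_nonneg_left hb (by positivity)
      have g7 := Pt.pi0_le N
      have g8 := abs_le.1 g1
      have g9 : -(9 * D ^ 2) ≤ min (H1 z U y Q V K zs N) (pi0 N) := le_min (by linarith) (by linarith)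
      have g10 : min (H1 z U y Q V K zs N) (pi0 N) ≤ pi0 N := min_le_right _ _
      have g11 : min (H1 z U y Q V K zs N) (pi0 N) ≤ H1 z U y Q V K zs N := min_le_left _ _
      constructor
      · rw [abs_of_nonneg (by linarith)]
        rcases min_choice (H1 z U y Q V K zs N) (pi0 N) with h | h
        · rw [h]; linarith
        · rw [h]; linarith
      · linarith
    · obtain ⟨k1, k2⟩ := H1_good hU hQU hUV hVy h0 hK hm h1 h2 hUUQ hUUQQ hNU hNV hsq hr hne huniq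
      have hpos : 0 ≤ 12 * D ^ 2 * Bad z y Q K zs N := by positivity
      rw [min_eq_left k1, sub_self, abs_zero]
      constructor <;> linarith

end Pool.Agent.H568
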