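import Mathlib
import Pool.Graph.R_pool_sql_team_seeded_63374d34.N791.U.F9
import Pool.Agent.H568.Cn

/-!
The lower bound (factor `1/2`) for all constant terms and for almost all pairs `(b, c)`.
-/

set_option autoImplicit false

namespace Pool.Agent.H568

open Finset Filter Topology Pool.Agent.N792 Pool.Agent.N791.U Pool.Agent.N792.Fn124

/-- the general combination -/
theorem lamG_t (a : ℤ) (ha : 0 < a) (Λ : ℝ) (hΛ : 1 ≤ Λ) : LamG a Λ := by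
  have r1 := t_R1U a ha Λ hΛ
  have r2 := r2U a ha
  have hLS := t_LSGU a ha Λ hΛ
  have hLC := t_LCGU a ha Λ hΛ r2
  exact lamG q1 q4 a ha Λ hΛ r1 r2 (t_MTU a ha Λ hΛ) (t_X2U a ha Λ hΛ r1 r2 hLS hLC) (t_X6U a ha Λ hΛ hLS hLC)
    (t_X7U a ha Λ hΛ)

/-- the lower bound with the factor `1/2`, `C ≥ x^(2/3 + ε)`, uniformly in `b² ≤ Λ C` -/
theorem conL (a : ℤ) (ha : 0 < a) (Λ : ℝ) (hΛ : 1 ≤ Λ) (ε η : ℝ) (hε : 0 < ε) (hη : 0 < η) : ConclL a Λ ε η :=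
  conclL a ha Λ hΛ (lowG a ha Λ hΛ (lamG_t a ha Λ hΛ)) (t_X8U a ha Λ hΛ)
    (t_X9U a ha Λ hΛ) (t_LIU a ha Λ hΛ) (t_X10U t_LSLU a ha Λ hΛ) ε η hε hη

/-- the statement for one polynomial -/
def QLL (a : ℤ) (θ η : ℝ) (x : ℕ) (b c : ℤ) : Prop :=
  Admissible a b c → ∃ S : ℝ, 0 < S ∧ Tendsto (fun z => partialC a b c z) atTop (𝓝 S) ∧ θ ≤ eps a b * S * gcdProd a b ∧
    ∀ u v : ℕ, u ≤ v → v ≤ x →
      1 / 2 * (eps a b * S * gcdProd a b * ∑ m ∈ Ioc u v, 1 / Real.log ((a : ℝ) * m ^ 2 + b * m + c)) -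
        η * (eps a b * S * gcdProd a b * x / Real.log x) ≤
      (#((Ioc u v).filter (fun m : ℕ => (fv a b c m).toNat.Prime)) : ℝ)

lemma unif_ofL {a : ℤ} {Λ ε η : ℝ} (h : ConclL a Λ ε η) : ∃ θ : ℝ, 0 < θ ∧ Unif Λ (2 / 3 + ε) η (QLL a θ η) := by
  obtain ⟨θ, hθ, x0, h⟩ := h
  refine ⟨θ, hθ, x0, fun x hx b C h1 h2 h3 => ?_⟩
  obtain ⟨Ex, k1, k2, k3⟩ := h x hx b C h1 h2 h3
  refine ⟨Ex, k1, k2, fun c hc hcE hadm => ?_⟩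
  have hcast : (((c : ℕ) : ℤ) : ℝ) = (c : ℝ) := by push_cast; rfl
  obtain ⟨S, m1, m2, m3, m4⟩ := k3 c hc hcE hadm
  refine ⟨S, m1, m2, m3, fun u v huv hvx => ?_⟩
  rw [hcast]
  exact m4 u v huv hvx

/-- **the lower bound after a shift** -/
theorem count_shiftL {a b c s : ℤ} {S E : ℝ} {x u v : ℕ} (huv : u ≤ v) (hv : v + s.natAbs ≤ x)
    (hM : 0 ≤ eps a b * S * gcdProd a b)
    (h : ∀ u v : ℕ, u ≤ v → v ≤ x →
      1 / 2 * (eps a (b + 2 * a * s) * S * gcdProd a (b + 2 * a * s) *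
          ∑ m ∈ Ioc u v, 1 / Real.log ((a : ℝ) * m ^ 2 + (b + 2 * a * s : ℤ) * m + (c + b * s + a * s ^ 2 : ℤ))) - E ≤
      (#((Ioc u v).filter (fun m : ℕ => (fv a (b + 2 * a * s) (c + b * s + a * s ^ 2) m).toNat.Prime)) : ℝ)) :
    1 / 2 * (eps a b * S * gcdProd a b * ∑ m ∈ Ioc u v, 1 / Real.log ((a : ℝ) * m ^ 2 + b * m + c)) -
      (E + s.natAbs * (1 + 2 * (eps a b * S * gcdProd a b))) ≤
    (#((Ioc u v).filter (fun m : ℕ => (fv a b c m).toNat.Prime)) : ℝ) := by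
  classical
  have h0 := h ((u : ℤ) - s).toNat ((v : ℤ) - s).toNat (by omega) (by omega)
  rw [eps_shift, gcd_shift] at h0
  obtain ⟨M, hMe⟩ : ∃ M : ℝ, M = eps a b * S * gcdProd a b := ⟨_, rfl⟩
  rw [← hMe] at hM h0 ⊢
  obtain ⟨g1, hg1⟩ : ∃ g1 : ℤ → ℝ, g1 = fun n : ℤ => if (a * n ^ 2 + b * n + c).toNat.Prime then (1 : ℝ) else 0 := ⟨_, rfl⟩
  obtain ⟨g2, hg2⟩ : ∃ g2 : ℤ → ℝ, g2 = fun n : ℤ => 1 / Real.log ((a * n ^ 2 + b * n + c : ℤ) : ℝ) := ⟨_, rfl⟩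
  have w1 := win_shift g1 (B := 1) (fun n => by rw [hg1]; simp only; split_ifs <;> simp) s huv
  have w2 := win_shift g2 (B := 2) (fun n => by rw [hg2]; exact inv_log_int _) s huv
  have e1 : (#((Ioc u v).filter (fun m : ℕ => (fv a b c m).toNat.Prime)) : ℝ) = ∑ m ∈ Ioc u v, g1 m := by
    rw [hg1]
    simp only [fv]
    rw [sum_boole]
    all_goals congr!
  have e2 : ∑ m ∈ Ioc u v, 1 / Real.log ((a : ℝ) * m ^ 2 + b * m + c) = ∑ m ∈ Ioc u v, g2 m := by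
    rw [hg2]
    refine sum_congr rfl fun m _ => ?_
    simp only
    push_cast
    rfl
  have e3 : (#((Ioc ((u : ℤ) - s).toNat ((v : ℤ) - s).toNat).filter
      (fun m : ℕ => (fv a (b + 2 * a * s) (c + b * s + a * s ^ 2) m).toNat.Prime)) : ℝ) =
      ∑ n ∈ Ioc ((u : ℤ) - s).toNat ((v : ℤ) - s).toNat, g1 (n + s) := by
    rw [hg1, card_filter]
    push_cast
    refine sum_congr rfl fun n _ => ?_
    rw [fv]
    have : a * (n : ℤ) ^ 2 + (b + 2 * a * s) * n + (c + b * s + a * s ^ 2) = a * ((n : ℤ) + s) ^ 2 + b * (n + s) + c := by ring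
    rw [this]
  have e4 : ∑ m ∈ Ioc ((u : ℤ) - s).toNat ((v : ℤ) - s).toNat,
      1 / Real.log ((a : ℝ) * m ^ 2 + (b + 2 * a * s : ℤ) * m + (c + b * s + a * s ^ 2 : ℤ)) =
      ∑ n ∈ Ioc ((u : ℤ) - s).toNat ((v : ℤ) - s).toNat, g2 (n + s) := by
    rw [hg2]
    refine sum_congr rfl fun n _ => ?_
    simp only
    push_cast
    congr 2
    ring
  rw [e3, e4] at h0
  rw [e1, e2]
  have t2 := abs_le.1 w1
  have t4 : |M * (∑ m ∈ Ioc u v, g2 m - ∑ n ∈ Ioc ((u : ℤ) - s).toNat ((v : ℤ) - s).toNat, g2 (n + s))| ≤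
      M * (s.natAbs * 2) := by
    rw [abs_mul, abs_of_nonneg hM]
    exact mul_le_mul_of_nonneg_left w2 hM
  have t5 := abs_le.1 t4
  have t6 : 0 ≤ M * (s.natAbs * 2) := mul_nonneg hM (by positivity)
  linarith [t2.1, t2.2, t5.1, t5.2]

/-- **Negative constant terms.** -/
theorem neg_tL (a : ℤ) (ha : 0 < a) (b : ℤ) (ε η : ℝ) (hε0 : 0 < ε) (hγ1 : 2 / 3 + ε ≤ 1) (hη : 0 < η) :
    ∃ θ : ℝ, 0 < θ ∧ ∃ x0 : ℕ, ∀ x : ℕ, x0 ≤ x → ∀ K : ℕ, (x : ℝ) ^ (2 / 3 + ε) ≤ K → K ≤ x →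
    ∃ Ex ⊆ Icc 1 K, (#Ex : ℝ) ≤ η * K ∧ ∀ c ∈ Icc 1 K, c ∉ Ex → QLL a θ η x b (-(c : ℤ)) := by
  have haR : (1 : ℝ) ≤ a := by exact_mod_cast ha
  obtain ⟨θ, hθ, h⟩ := unif_ofL (conL a ha (5 * a) (by linarith) ε (η / 2 / (3 * a)) hε0 (by positivity))
  obtain ⟨x0, h⟩ := neg_transfer a ha b (2 / 3 + ε) (η / 2) (by linarith) hγ1 _ h
  obtain ⟨x1, hx1⟩ := evN' _ (ev_pow' 1 (2 * (1 / θ + 2) * (2 / η)) (1 / 2) (by norm_num))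
  refine ⟨θ, hθ, x0 + x1 + 3, fun x hx K hK1 hK2 => ?_⟩
  have g1 := hx1 x (by omega)
  rw [pow_one] at g1
  obtain ⟨Ex, k1, k2, k3⟩ := h x (by omega) K hK1 hK2
  have hK0 : (0 : ℝ) ≤ K := Nat.cast_nonneg _
  refine ⟨Ex, k1, k2.trans (mul_le_mul_of_nonneg_right (by linarith) hK0), fun c hc hcE hadm => ?_⟩
  obtain ⟨k, hk1, hk2, hQ⟩ := k3 c hc hcE
  have hxr : (3 : ℝ) ≤ x := by exact_mod_cast (by omega : 3 ≤ x)
  have hQ' := hQ (adm_shift k hadm)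
  obtain ⟨S, m1, m2, m3, m4⟩ := hQ'
  simp only [partialC_shift] at m2
  rw [eps_shift, gcd_shift] at m3
  refine ⟨S, m1, m2, m3, fun u v huv hvx => ?_⟩
  have hM0 : 0 ≤ eps a b * S * gcdProd a b := hθ.le.trans m3
  have hA : ((3 * a.toNat * x : ℕ) : ℝ) = 3 * a * x := by
    have : ((a.toNat : ℕ) : ℝ) = a := by
      have : ((a.toNat : ℕ) : ℤ) = a := by omega
      exact_mod_cast this
    push_cast
    rw [this]
  have hat : 1 ≤ a.toNat := by omega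
  have hx3 : 3 * x ≤ 3 * a.toNat * x := by nlinarith
  have h1 := count_shiftL (s := (k : ℤ)) huv (x := 3 * a.toNat * x) (by simp only [Int.natAbs_natCast]; omega) hM0 m4
  rw [eps_shift, gcd_shift] at h1
  refine le_trans (sub_le_sub_left ?_ _) h1
  have hlogx : 0 < Real.log x := Real.log_pos (by linarith)
  have hle : (x : ℝ) ≤ ((3 * a.toNat * x : ℕ) : ℝ) := by rw [hA]; nlinarith
  have hs : (((k : ℤ).natAbs : ℕ) : ℝ) ≤ 2 * (x : ℝ) ^ (1 / 2 : ℝ) := by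
    rw [Int.natAbs_natCast, ← Real.sqrt_eq_rpow]
    have e1 : (k : ℝ) ^ 2 ≤ 4 * x := by exact_mod_cast (by omega : k ^ 2 ≤ 4 * x)
    have e2 : (k : ℝ) ≤ √(4 * x) := Real.le_sqrt_of_sq_le e1
    rw [Real.sqrt_mul (by norm_num), show (4 : ℝ) = 2 ^ 2 by norm_num, Real.sqrt_sq (by norm_num)] at e2
    exact e2
  refine shift_num hθ m3 (by positivity) hlogx (Real.log_le_log (by linarith) hle) ?_ (Nat.cast_nonneg _)
    (Nat.cast_nonneg _) hs ?_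
  · rw [hA]
    apply le_of_eq
    field_simp
  · have e3 : (x : ℝ) ^ (1 / 2 : ℝ) * (x : ℝ) ^ (1 / 2 : ℝ) = x := by
      rw [← Real.rpow_add (by linarith)]; norm_num
    have e4 : 0 ≤ (x : ℝ) ^ (1 / 2 : ℝ) := by positivity
    calc 2 * (x : ℝ) ^ (1 / 2 : ℝ) * (1 / θ + 2) * Real.log x =
        η / 2 * ((x : ℝ) ^ (1 / 2 : ℝ) * (2 * (1 / θ + 2) * (2 / η) * Real.log x)) := by field_simp
      _ ≤ η / 2 * ((x : ℝ) ^ (1 / 2 : ℝ) * (x : ℝ) ^ (1 / 2 : ℝ)) := by gcongr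
      _ = _ := by rw [e3]

/-- **Almost all pairs.** -/
theorem pair_tL (a : ℤ) (ha : 0 < a) (ε0 η δ : ℝ) (hε0 : 0 < ε0) (hγ1 : 2 / 3 + ε0 ≤ 1) (hη : 0 < η) (hδ : 0 < δ) (hδ1 : δ ≤ 1)
    (hδη : 18 * δ ≤ η) :
    ∃ θ : ℝ, 0 < θ ∧ ∃ H0 : ℕ, ∀ H : ℕ, H0 ≤ H → ∀ N : ℕ, H ^ 2 ≤ N → (N : ℝ) ^ (2 / 3 + ε0) ≤ (H : ℝ) ^ 2 →
    ∃ Ex ⊆ Icc (-(H : ℤ)) H ×ˢ Icc (-(H : ℤ)) H, (#Ex : ℝ) ≤ η * H ^ 2 ∧
      ∀ q ∈ Icc (-(H : ℤ)) H ×ˢ Icc (-(H : ℤ)) H, q ∉ Ex → QLL a θ η N q.1 q.2 := by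
  have haR : (1 : ℝ) ≤ a := by exact_mod_cast ha
  obtain ⟨θ, hθ, h⟩ := unif_ofL (conL a ha (3 * a) (by linarith) ε0 (δ * η / (80 * a ^ 3)) hε0 (by positivity))
  obtain ⟨H0, h⟩ := pair_transfer a ha (2 / 3 + ε0) η δ hγ1 hη hδ hδ1 hδη _ h
  obtain ⟨x1, hx1⟩ := evN' _ (ev_pow' 1 (2 * (1 / θ + 2) * (2 / η)) (1 / 2) (by norm_num))
  refine ⟨θ, hθ, H0 + x1 + 3, fun H hH N hN1 hN2 => ?_⟩
  have hNH : H ≤ N := by nlinarith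
  have g1 := hx1 N (by omega)
  rw [pow_one] at g1
  obtain ⟨Ex, k1, k2, k3⟩ := h H (by omega) N hN1 hN2
  refine ⟨Ex, k1, k2, fun q hq hqE hadm => ?_⟩
  obtain ⟨hs1, hQ⟩ := k3 q hq hqE
  obtain ⟨s, hs⟩ : ∃ s : ℤ, s = sh a H q.1 := ⟨_, rfl⟩
  obtain ⟨b, hb⟩ : ∃ b : ℤ, b = q.1 := ⟨_, rfl⟩
  obtain ⟨c, hc⟩ : ∃ c : ℤ, c = q.2 := ⟨_, rfl⟩
  rw [← hs, ← hb, ← hc] at hQ
  rw [← hs] at hs1
  rw [← hb, ← hc] at hadm ⊢
  have hxr : (3 : ℝ) ≤ N := by exact_mod_cast (by omega : 3 ≤ N)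
  have hQ' := hQ (adm_shift s hadm)
  obtain ⟨S, m1, m2, m3, m4⟩ := hQ'
  simp only [partialC_shift] at m2
  rw [eps_shift, gcd_shift] at m3
  refine ⟨S, m1, m2, m3, fun u v huv hvx => ?_⟩
  have hM0 : 0 ≤ eps a b * S * gcdProd a b := hθ.le.trans m3
  have hA : ((2 * a.toNat * N : ℕ) : ℝ) = 2 * a * N := by
    have : ((a.toNat : ℕ) : ℝ) = a := by
      have : ((a.toNat : ℕ) : ℤ) = a := by omega
      exact_mod_cast this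
    push_cast
    rw [this]
  have hat : 1 ≤ a.toNat := by omega
  have hx3 : 2 * N ≤ 2 * a.toNat * N := by nlinarith
  have hsN : s.natAbs ≤ 2 * H := by
    rw [Int.abs_eq_natAbs] at hs1
    exact_mod_cast hs1
  have h2H : 2 * H ≤ N := by nlinarith
  have h1 := count_shiftL (s := s) huv (x := 2 * a.toNat * N) (by omega) hM0 m4
  rw [eps_shift, gcd_shift] at h1
  refine le_trans (sub_le_sub_left ?_ _) h1
  have hlogx : 0 < Real.log N := Real.log_pos (by linarith)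
  have hle : (N : ℝ) ≤ ((2 * a.toNat * N : ℕ) : ℝ) := by rw [hA]; nlinarith
  have hsr : ((s.natAbs : ℕ) : ℝ) ≤ 2 * (N : ℝ) ^ (1 / 2 : ℝ) := by
    rw [← Real.sqrt_eq_rpow]
    have e1 : (H : ℝ) ^ 2 ≤ N := by exact_mod_cast hN1
    have e2 : (H : ℝ) ≤ √N := Real.le_sqrt_of_sq_le e1
    have e3 : ((s.natAbs : ℕ) : ℝ) ≤ 2 * H := by exact_mod_cast hsN
    linarith
  refine shift_num hθ m3 (by positivity) hlogx (Real.log_le_log (by linarith) hle) ?_ (Nat.cast_nonneg _)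
    (Nat.cast_nonneg _) hsr ?_
  · rw [hA]
    have e5 : δ * η / (80 * (a : ℝ) ^ 3) * (2 * a * N) = δ * η * N / (40 * a ^ 2) := by
      field_simp
      ring
    rw [e5, div_le_iff₀ (by positivity)]
    have e6 : (1 : ℝ) ≤ a ^ 2 := by nlinarith
    have e7 : 0 ≤ η * N := by positivity
    nlinarith [mul_nonneg e7 (sub_nonneg.2 hδ1), mul_nonneg e7 (sub_nonneg.2 e6)]
  · have e3 : (N : ℝ) ^ (1 / 2 : ℝ) * (N : ℝ) ^ (1 / 2 : ℝ) = N := by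
      rw [← Real.rpow_add (by linarith)]; norm_num
    have e4 : 0 ≤ (N : ℝ) ^ (1 / 2 : ℝ) := by positivity
    calc 2 * (N : ℝ) ^ (1 / 2 : ℝ) * (1 / θ + 2) * Real.log N =
        η / 2 * ((N : ℝ) ^ (1 / 2 : ℝ) * (2 * (1 / θ + 2) * (2 / η) * Real.log N)) := by field_simp
      _ ≤ η / 2 * ((N : ℝ) ^ (1 / 2 : ℝ) * (N : ℝ) ^ (1 / 2 : ℝ)) := by gcongr
      _ = _ := by rw [e3]

/-- almost all pairs, up to `H^(3 - ε)` -/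
theorem pair_L3 (a : ℤ) (ha : 0 < a) (ε η : ℝ) (hε : 0 < ε) (hη : 0 < η) :
    ∃ θ : ℝ, 0 < θ ∧ ∃ H0 : ℕ, ∀ H : ℕ, H0 ≤ H → ∀ N : ℕ, H ^ 2 ≤ N → (N : ℝ) ≤ (H : ℝ) ^ (3 - ε) →
    ∃ Ex ⊆ Icc (-(H : ℤ)) H ×ˢ Icc (-(H : ℤ)) H, (#Ex : ℝ) ≤ η * H ^ 2 ∧
      ∀ q ∈ Icc (-(H : ℤ)) H ×ˢ Icc (-(H : ℤ)) H, q ∉ Ex → QLL a θ η N q.1 q.2 := by
  obtain ⟨ε0, hε0⟩ : ∃ ε0 : ℝ, ε0 = min (ε / 5) (1 / 6) := ⟨_, rfl⟩
  have h1 : 0 < ε0 := by rw [hε0]; exact lt_min (by positivity) (by norm_num)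
  have h2 : ε0 ≤ ε / 5 := by rw [hε0]; exact min_le_left _ _
  have h3 : ε0 ≤ 1 / 6 := by rw [hε0]; exact min_le_right _ _
  obtain ⟨δ, hδ⟩ : ∃ δ : ℝ, δ = min 1 (η / 18) := ⟨_, rfl⟩
  have d1 : 0 < δ := by rw [hδ]; exact lt_min (by norm_num) (by positivity)
  have d2 : δ ≤ 1 := by rw [hδ]; exact min_le_left _ _
  have d3 : δ ≤ η / 18 := by rw [hδ]; exact min_le_right _ _
  obtain ⟨θ, hθ, H0, h⟩ := pair_tL a ha ε0 η δ h1 (by linarith) hη d1 d2 (by linarith)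
  refine ⟨θ, hθ, H0 + 1, fun H hH N hN1 hN2 => h H (by omega) N hN1 ?_⟩
  have hH1 : (1 : ℝ) ≤ H := by exact_mod_cast (by omega : 1 ≤ H)
  calc (N : ℝ) ^ (2 / 3 + ε0) ≤ ((H : ℝ) ^ (3 - ε)) ^ (2 / 3 + ε0) :=
        Real.rpow_le_rpow (Nat.cast_nonneg _) hN2 (by linarith)
    _ = (H : ℝ) ^ ((3 - ε) * (2 / 3 + ε0)) := by rw [← Real.rpow_mul (by linarith)]
    _ ≤ (H : ℝ) ^ (2 : ℝ) := Real.rpow_le_rpow_of_exponent_le hH1 (by nlinarith)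
    _ = _ := by rw [Real.rpow_two]

end Pool.Agent.H568
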