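import Mathlib
import Pool.Agent.H568.La1
import Pool.Agent.H568.C1

/-!
The pointwise inequalities for the upper bound function.
-/

set_option autoImplicit false

namespace Pool.Agent.H568

open Finset Pool.Agent.N792 Pool.Agent.N792.RX5
open Pool.Agent.N792.SwR (rough_of_dvd)
open ArithmeticFunction (moebius)

/-- the weight of a prime -/
noncomputable def al (A1 A2 p : ℕ) : ℝ := if p ≤ A1 then 1 else if p ≤ A2 then 1 / 2 else 0

/-- the sum of the weights of the prime factors -/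
noncomputable def S2 (A1 A2 k : ℕ) : ℝ := ∑ p ∈ k.primeFactors, al A1 A2 p

open Classical in
/-- the indicator function of the products of `n` different primes greater than `Q` -/
noncomputable def pin (Q n k : ℕ) : ℝ := if Squarefree k ∧ Rough Q k ∧ w k = n then 1 else 0

/-- the products of two primes with a weight -/
noncomputable def th (Q A1 A2 : ℕ) (c d : ℝ) (k : ℕ) : ℝ := pi2 Q k * (d * (S2 A1 A2 k - c))

/-- the prime factors `> Q` -/
noncomputable def bigp (Q d : ℕ) : Finset ℕ := d.primeFactors.filter (fun p => Q < p)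

/-- the coefficient which belongs to a set of primes -/
noncomputable def kap (A1 A2 : ℕ) (B : Finset ℕ) : ℝ :=
  if #B = 0 then 1 else if #B = 1 then ∑ p ∈ B, al A1 A2 p else if #B = 2 then 1 else 0

/-- the type I coefficients -/
noncomputable def g2 (Q A1 A2 d : ℕ) : ℝ := moebius d * kap A1 A2 (bigp Q d)

lemma al_mem (A1 A2 p : ℕ) : 0 ≤ al A1 A2 p ∧ al A1 A2 p ≤ 1 := by
  unfold al
  split_ifs <;> norm_num

lemma al_step {A1 A2 p : ℕ} (h : A1 ≤ A2) :
    al A1 A2 p = 1 - 1 / 2 * (if A1 < p then 1 else 0) - 1 / 2 * (if A2 < p then 1 else 0) := by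
  unfold al
  by_cases h1 : p ≤ A1
  · have e1 : ¬ A1 < p := by omega
    have e2 : ¬ A2 < p := by omega
    simp [h1, e1, e2]
  · have e1 : A1 < p := by omega
    by_cases h2 : p ≤ A2
    · have e2 : ¬ A2 < p := by omega
      simp only [h1, e1, h2, e2, if_true, if_false]; norm_num
    · have e2 : A2 < p := by omega
      simp only [h1, e1, h2, e2, if_true, if_false]; norm_num

lemma al_zero {A1 A2 p : ℕ} (h : A1 ≤ A2) (hp : A2 < p) : al A1 A2 p = 0 := by
  unfold al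
  rw [if_neg (by omega), if_neg (by omega)]

lemma al_one {A1 A2 p : ℕ} (hp : p ≤ A1) : al A1 A2 p = 1 := by
  unfold al
  rw [if_pos hp]

lemma al_half {A1 A2 p : ℕ} (hp : A1 < p) : al A1 A2 p ≤ 1 / 2 := by
  unfold al
  rw [if_neg (by omega)]
  split_ifs <;> norm_num

lemma kap_mem (A1 A2 : ℕ) (B : Finset ℕ) : 0 ≤ kap A1 A2 B ∧ kap A1 A2 B ≤ 1 := by
  unfold kap
  split_ifs with h1 h2 h3
  · norm_num
  · obtain ⟨p, rfl⟩ := card_eq_one.1 h2
    rw [sum_singleton]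
    exact al_mem A1 A2 p
  · norm_num
  · norm_num

lemma g2_abs (Q A1 A2 d : ℕ) : |g2 Q A1 A2 d| ≤ 1 := by
  unfold g2
  rw [abs_mul, abs_of_nonneg (kap_mem A1 A2 _).1]
  calc |(moebius d : ℝ)| * kap A1 A2 (bigp Q d) ≤ 1 * 1 :=
        mul_le_mul (mu_abs d) (kap_mem A1 A2 _).2 (kap_mem A1 A2 _).1 zero_le_one
    _ = 1 := one_mul 1

lemma g2_sq (Q A1 A2 d : ℕ) (h : g2 Q A1 A2 d ≠ 0) : Squarefree d := by
  by_contra hns
  apply h
  unfold g2
  rw [ArithmeticFunction.moebius_eq_zero_of_not_squarefree hns]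
  simp

lemma bigp_mul {d q Q : ℕ} (hd : d ≠ 0) (hq : q.Prime) :
    bigp Q (d * q) = if Q < q then insert q (bigp Q d) else bigp Q d := by
  unfold bigp
  rw [Nat.primeFactors_mul hd hq.ne_zero, hq.primeFactors, filter_union, filter_singleton]
  split_ifs
  · rw [union_comm]; rfl
  · rw [union_empty]

lemma not_mem_bigp {d q Q : ℕ} (hqd : ¬ q ∣ d) : q ∉ bigp Q d := by
  unfold bigp
  rw [mem_filter, Nat.mem_primeFactors]
  tauto

lemma g2_mul (Q A1 A2 d q : ℕ) (hq : q.Prime) (hqQ : q ≤ Q) (hqd : ¬ q ∣ d) : g2 Q A1 A2 (d * q) = - g2 Q A1 A2 d := by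
  have hd : d ≠ 0 := by
    rintro rfl
    exact hqd (dvd_zero q)
  unfold g2
  rw [bigp_mul hd hq, if_neg (by omega), mu_mul hq hqd]
  ring

lemma kap_insert {A1 A2 q : ℕ} {B : Finset ℕ} (h : q ∉ B) :
    kap A1 A2 (insert q B) = if #B = 0 then al A1 A2 q else if #B = 1 then 1 else 0 := by
  unfold kap
  rw [card_insert_of_notMem h]
  by_cases h0 : #B = 0
  · rw [if_neg (by omega), if_pos (by omega), if_pos h0, card_eq_zero.1 h0]
    simp
  · by_cases h1 : #B = 1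
    · rw [if_neg (by omega), if_neg (by omega), if_pos (by omega), if_neg h0, if_pos h1]
    · rw [if_neg (by omega), if_neg (by omega), if_neg (by omega), if_neg h0, if_neg h1]

lemma SL_al (m : ℕ) {A1 A2 : ℕ} (h : A1 ≤ A2) : SL m 3 (fun P => al A1 A2 P) := by
  have h1 := ((SL.const m 1 (by simp)).add (SL.step m A1 (-(1 / 2)) (by norm_num))).add
    (SL.step m A2 (-(1 / 2)) (by norm_num))
  refine h1.congr (fun P _ _ => ?_)
  rw [al_step h]
  ring

lemma SL_g2 (Q : ℕ) {A1 A2 : ℕ} (hA : A1 ≤ A2) (e : ℕ) (he : e ≠ 0) : SL e 5 (fun P => g2 Q A1 A2 (e * P)) := by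
  classical
  obtain ⟨κ, hκ⟩ : ∃ κ, κ = kap A1 A2 (bigp Q e) := ⟨_, rfl⟩
  have hκ1 := kap_mem A1 A2 (bigp Q e)
  rw [← hκ] at hκ1
  have habs : |(moebius e : ℝ) * κ| ≤ 1 := by
    rw [abs_mul, abs_of_nonneg hκ1.1]
    calc |(moebius e : ℝ)| * κ ≤ 1 * 1 := mul_le_mul (mu_abs e) hκ1.2 hκ1.1 zero_le_one
      _ = 1 := one_mul 1
  have h1 := (SL.const e (-((moebius e : ℝ) * κ)) (by rw [abs_neg]; exact habs)).add
    (SL.step e Q ((moebius e : ℝ) * κ) habs)
  have hX : ∃ X : ℕ → ℝ, SL e 3 X ∧ ∀ P : ℕ, P.Prime → ¬ P ∣ e →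
      X P = -((moebius e : ℝ) * kap A1 A2 (insert P (bigp Q e))) := by
    rcases Nat.lt_trichotomy #(bigp Q e) 1 with h | h | h
    · refine ⟨fun P => (-(moebius e : ℝ)) * al A1 A2 P, (SL_al e hA).smul _ (by rw [abs_neg]; exact mu_abs e), ?_⟩
      intro P hP hPe
      simp only
      rw [kap_insert (not_mem_bigp hPe), if_pos (by omega)]
      ring
    · refine ⟨fun _ => -(moebius e : ℝ), (SL.const e _ (by rw [abs_neg]; exact mu_abs e)).mono (by norm_num), ?_⟩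
      intro P hP hPe
      simp only
      rw [kap_insert (not_mem_bigp hPe), if_neg (by omega), if_pos h]
      ring
    · refine ⟨fun _ => 0, SL.zero e 3, ?_⟩
      intro P hP hPe
      rw [kap_insert (not_mem_bigp hPe), if_neg (by omega), if_neg (by omega)]
      ring
  obtain ⟨X, hX1, hX2⟩ := hX
  refine (h1.add (hX1.mul_step Q)).congr (fun P hP hPe => ?_)
  unfold g2
  rw [bigp_mul he hP, mu_mul hP hPe, hX2 P hP hPe]
  by_cases c1 : Q < P
  · simp only [c1, if_true]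
    ring
  · simp only [c1, if_false]
    rw [← hκ]
    ring

lemma th_mul {Q A1 A2 m P : ℕ} {c d : ℝ} (hP : P.Prime) (hPm : ¬ P ∣ m) :
    th Q A1 A2 c d (m * P) = if m.Prime ∧ Q < m then
      (if Q < P then (1 : ℝ) else 0) * (d * (al A1 A2 m - c) + d * al A1 A2 P) else 0 := by
  unfold th
  rw [pi2_mul hP hPm]
  by_cases h1 : m.Prime ∧ Q < m
  · rw [if_pos h1]
    have hc : Nat.Coprime m P := ((Nat.coprime_primes h1.1 hP).2 (fun h => hPm (h ▸ dvd_rfl)))
    have hS : S2 A1 A2 (m * P) = al A1 A2 m + al A1 A2 P := by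
      unfold S2
      rw [hc.primeFactors_mul, sum_union hc.disjoint_primeFactors, h1.1.primeFactors, hP.primeFactors, sum_singleton,
        sum_singleton]
    rw [hS]
    by_cases h2 : Q < P
    · rw [if_pos ⟨h1, h2⟩, if_pos h2]; ring
    · rw [if_neg (fun h => h2 h.2), if_neg h2]; ring
  · rw [if_neg h1, if_neg (fun h => h1 h.1)]; ring

lemma SL_th (Q : ℕ) {A1 A2 : ℕ} (hA : A1 ≤ A2) {c d : ℝ} (hc0 : 0 ≤ c) (hc1 : c ≤ 1) (hd0 : 0 ≤ d) (hd1 : d ≤ 1) (m : ℕ) :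
    SL m 4 (fun P => th Q A1 A2 c d (m * P)) := by
  by_cases h1 : m.Prime ∧ Q < m
  · have hd : |d| ≤ 1 := by rw [abs_of_nonneg hd0]; exact hd1
    have ha := al_mem A1 A2 m
    have hc : |d * (al A1 A2 m - c)| ≤ 1 := by
      rw [abs_mul]
      have : |al A1 A2 m - c| ≤ 1 := by rw [abs_le]; constructor <;> linarith
      calc |d| * |al A1 A2 m - c| ≤ 1 * 1 := mul_le_mul hd this (abs_nonneg _) zero_le_one
        _ = 1 := one_mul 1
    refine (((SL.const m _ hc).add ((SL_al m hA).smul d hd)).mul_step Q).congr (fun P hP hPm => ?_)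
    rw [th_mul hP hPm, if_pos h1]
  · refine (SL.zero m 4).congr (fun P hP hPm => ?_)
    rw [th_mul hP hPm, if_neg h1]

lemma S2_bd (A1 A2 k : ℕ) : 0 ≤ S2 A1 A2 k ∧ S2 A1 A2 k ≤ w k := by
  unfold S2 w
  refine ⟨sum_nonneg fun p _ => (al_mem A1 A2 p).1, ?_⟩
  calc ∑ p ∈ k.primeFactors, al A1 A2 p ≤ ∑ _p ∈ k.primeFactors, (1 : ℝ) := sum_le_sum fun p _ => (al_mem A1 A2 p).2
    _ = _ := by simp

lemma pi2_sqw {Q k : ℕ} (h : pi2 Q k ≠ 0) : Squarefree k ∧ w k = 2 := by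
  unfold pi2 at h
  by_cases h1 : ∃ p q : ℕ, p.Prime ∧ q.Prime ∧ Q < p ∧ p < q ∧ k = p * q
  · obtain ⟨p, q, hp, hq, h3, h4, rfl⟩ := h1
    have hc : Nat.Coprime p q := (Nat.coprime_primes hp hq).2 (by omega)
    refine ⟨(Nat.squarefree_mul hc).2 ⟨hp.prime.squarefree, hq.prime.squarefree⟩, ?_⟩
    rw [w, hc.primeFactors_mul, card_union_of_disjoint hc.disjoint_primeFactors, hp.primeFactors, hq.primeFactors]
    simp
  · rw [if_neg h1] at h
    exact absurd rfl h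

lemma th_abs (Q A1 A2 : ℕ) {c d : ℝ} (hc0 : 0 ≤ c) (hc1 : c ≤ 1) (hd0 : 0 ≤ d) (hd1 : d ≤ 1) (k : ℕ) :
    |th Q A1 A2 c d k| ≤ 2 := by
  unfold th
  by_cases h : pi2 Q k = 0
  · rw [h, zero_mul, abs_zero]; norm_num
  · have h1 := S2_bd A1 A2 k
    rw [(pi2_sqw h).2] at h1
    have h2 := Pt.pi2_le Q k
    rw [abs_mul, abs_of_nonneg h2.1, abs_mul, abs_of_nonneg hd0]
    have h3 : |S2 A1 A2 k - c| ≤ 2 := by
      rw [abs_le]
      have h4 : S2 A1 A2 k ≤ 2 := by exact_mod_cast h1.2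
      constructor <;> linarith
    calc pi2 Q k * (d * |S2 A1 A2 k - c|) ≤ 1 * (1 * 2) := by
          apply mul_le_mul h2.2 (mul_le_mul hd1 h3 (abs_nonneg _) zero_le_one) _ zero_le_one
          exact mul_nonneg hd0 (abs_nonneg _)
      _ = 2 := by norm_num

lemma Ok_th (Q : ℕ) {A1 A2 : ℕ} (hA : A1 ≤ A2) {c d : ℝ} (hc0 : 0 ≤ c) (hc1 : c ≤ 1) (hd0 : 0 ≤ d) (hd1 : d ≤ 1) :
    Ok 4 (th Q A1 A2 c d) :=
  Ok_of (fun k => (th_abs Q A1 A2 hc0 hc1 hd0 hd1 k).trans (by norm_num)) (fun m _ => SL_th Q hA hc0 hc1 hd0 hd1 m)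

lemma pin_le (Q n k : ℕ) : 0 ≤ pin Q n k ∧ pin Q n k ≤ 1 := by
  unfold pin
  split_ifs <;> norm_num

lemma SL_pin (Q n m : ℕ) : SL m 1 (fun P => pin Q n (m * P)) := by
  have key : ∀ P : ℕ, P.Prime → ¬ P ∣ m → (Squarefree (m * P) ↔ Squarefree m) ∧ w (m * P) = w m + 1 := by
    intro P hP hPm
    have hc : Nat.Coprime m P := ((Nat.Prime.coprime_iff_not_dvd hP).2 hPm).symm
    constructor
    · rw [Nat.squarefree_mul hc]
      exact ⟨fun h => h.1, fun h => ⟨h, hP.prime.squarefree⟩⟩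
    · rw [w, hc.primeFactors_mul, card_union_of_disjoint hc.disjoint_primeFactors, hP.primeFactors]
      simp [w]
  by_cases h1 : Squarefree m ∧ Rough Q m ∧ w m + 1 = n
  · refine (SL.step m Q 1 (by simp)).congr fun P hP hPm => ?_
    obtain ⟨k1, k2⟩ := key P hP hPm
    unfold pin
    by_cases h2 : Q < P
    · rw [if_pos ⟨k1.2 h1.1, (RX1.rough_mul_iff hP).2 ⟨h1.2.1, h2⟩, by rw [k2]; exact h1.2.2⟩, if_pos h2, one_mul]
    · rw [if_neg (fun h => h2 ((RX1.rough_mul_iff hP).1 h.2.1).2), if_neg h2, mul_zero]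
  · refine (SL.zero m 1).congr fun P hP hPm => ?_
    obtain ⟨k1, k2⟩ := key P hP hPm
    unfold pin
    rw [if_neg]
    rintro ⟨h2, h3, h4⟩
    exact h1 ⟨k1.1 h2, ((RX1.rough_mul_iff hP).1 h3).1, by omega⟩

lemma Ok_pin (Q n : ℕ) : Ok 1 (pin Q n) := Ok_of (fun k => by
  have := pin_le Q n k
  rw [abs_of_nonneg this.1]
  exact_mod_cast this.2) (fun m _ => SL_pin Q n m)

lemma pin_w {Q n j : ℕ} (hs : Squarefree j) (hr : Rough Q j) : pin Q n j = if w j = n then 1 else 0 := by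
  unfold pin
  by_cases h : w j = n
  · rw [if_pos ⟨hs, hr, h⟩, if_pos h]
  · rw [if_neg (fun h2 => h h2.2.2), if_neg h]

lemma pin_ne {Q n k : ℕ} (h : pin Q n k ≠ 0) : Rough Q k := by
  unfold pin at h
  by_contra h2
  rw [if_neg (fun h3 => h2 h3.2.1)] at h
  exact h rfl

lemma S2_add {A1 A2 N j : ℕ} (hs : Squarefree N) (hj : j ∣ N) : S2 A1 A2 j + S2 A1 A2 (N / j) = S2 A1 A2 N := by
  obtain ⟨e, rfl⟩ := hj
  have hj0 : j ≠ 0 := left_ne_zero_of_mul hs.ne_zero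
  have hc : Nat.Coprime j e := Nat.coprime_of_squarefree_mul hs
  rw [Nat.mul_div_cancel_left e (Nat.pos_of_ne_zero hj0), S2, S2, S2, hc.primeFactors_mul,
    sum_union hc.disjoint_primeFactors]

lemma S2_prime {A1 A2 p : ℕ} (hp : p.Prime) : S2 A1 A2 p = al A1 A2 p := by
  unfold S2
  rw [hp.primeFactors, sum_singleton]

end Pool.Agent.H568
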