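import Mathlib
import Pool.Agent.H568.C2

/-!
The pointwise inequalities for the upper bound function.
-/

set_option autoImplicit false

namespace Pool.Agent.H568

open Finset Pool.Agent.N792 Pool.Agent.N792.RX5
open Pool.Agent.N792.SwR (rough_of_dvd)
open ArithmeticFunction (moebius)

/-- the combination of type I and type II functions for the upper bound -/
noncomputable def H2 (z U y Q A1 A2 K : ℕ) (zs : ℕ → ℕ) (N : ℕ) : ℝ :=
  Sv (g2 Q A1 A2) z U y K zs N - T2 z U y pi0 pi0 N + T2 z U y pi0 (th Q A1 A2 1 1) N + T2 z U y (th Q A1 A2 1 1) pi0 N +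
    T2 z U y (th Q A1 A2 (1 / 2) (1 / 3)) (pi2 Q) N + T2 z U y (pi2 Q) (th Q A1 A2 (1 / 2) (1 / 3)) N +
    T2 z U y (pi2 Q) (pin Q 3) N

/-- the excess at products of two primes -/
noncomputable def E2 (U A1 A2 N : ℕ) : ℝ := ∑ p ∈ N.primeFactors.filter (fun p => p ≤ U), (1 - al A1 A2 p) * pi0 (N / p)

open Classical in
/-- the excess at products of three primes -/
noncomputable def E3 (Q U A1 A2 N : ℕ) : ℝ :=
  if Squarefree N ∧ Rough Q N ∧ w N = 3 ∧ (∀ p ∈ N.primeFactors, p ≤ U) then max 0 (1 - S2 A1 A2 N) else 0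

/-- the excess at products of four primes -/
noncomputable def E4 (Q U N : ℕ) : ℝ := 2 / 3 * ∑ j ∈ N.divisors.filter (fun j => j ≤ U), pi2 Q j * pi2 Q (N / j)

/-- the excess -/
noncomputable def W2 (Q U A1 A2 N : ℕ) : ℝ := E2 U A1 A2 N + E3 Q U A1 A2 N + E4 Q U N + 11 * pi5 Q N

lemma E2_nonneg (U A1 A2 N : ℕ) : 0 ≤ E2 U A1 A2 N := by
  unfold E2
  refine sum_nonneg fun p _ => mul_nonneg ?_ (Pt.pi0_le _).1
  linarith [(al_mem A1 A2 p).2]

lemma E3_nonneg (Q U A1 A2 N : ℕ) : 0 ≤ E3 Q U A1 A2 N := by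
  unfold E3
  split_ifs
  · exact le_max_left _ _
  · exact le_rfl

lemma E4_nonneg (Q U N : ℕ) : 0 ≤ E4 Q U N := by
  unfold E4
  refine mul_nonneg (by norm_num) (sum_nonneg fun j _ => mul_nonneg (Pt.pi2_le Q j).1 (Pt.pi2_le Q _).1)

lemma W2_nonneg (Q U A1 A2 N : ℕ) : 0 ≤ W2 Q U A1 A2 N := by
  unfold W2
  have := E2_nonneg U A1 A2 N
  have := E3_nonneg Q U A1 A2 N
  have := E4_nonneg Q U N
  have := (pi5_le Q N).1
  linarith

/-- the type II functions at squarefree rough numbers -/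
lemma T2_F {z U y N a b : ℕ} {f g F G : ℕ → ℝ} (hro : Rough z N) (hsq : Squarefree N)
    (hf : ∀ j, j ∣ N → f j = if w j = a then F j else 0) (hg : ∀ j, j ∣ N → g j = if w j = b then G j else 0) :
    T2 z U y f g N =
      if w N = a + b then ∑ j ∈ N.divisors.filter (fun j => w j = a ∧ U < j ∧ j ≤ y), F j * G (N / j) else 0 := by
  rw [T2_eq hro]
  split_ifs with h
  · rw [sum_filter]
    apply sum_congr rfl
    intro j hj
    rw [Nat.mem_divisors] at hj
    rw [hf j hj.1, hg _ (Nat.div_dvd_of_dvd hj.1)]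
    have h1 := w_add hsq hj.1
    by_cases h2 : w j = a
    · have h3 : w (N / j) = b := by omega
      simp [h2, h3]
    · simp [h2]
  · apply sum_eq_zero
    intro j hj
    rw [Nat.mem_divisors] at hj
    rw [hf j hj.1, hg _ (Nat.div_dvd_of_dvd hj.1)]
    have h1 := w_add hsq hj.1
    by_cases h2 : w j = a
    · have h3 : w (N / j) ≠ b := by omega
      simp [h3]
    · simp [h2]

lemma bigp_rough {Q j : ℕ} (h : Rough Q j) : bigp Q j = j.primeFactors := by
  unfold bigp
  apply filter_true_of_mem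
  intro p hp
  rw [Nat.mem_primeFactors] at hp
  exact h.2 p hp.1 hp.2.1

/-- the type I coefficients at rough numbers -/
lemma g2_rough {Q A1 A2 j : ℕ} (hs : Squarefree j) (h : Rough Q j) :
    g2 Q A1 A2 j = (if w j = 0 then 1 else 0) - (if w j = 1 then al A1 A2 j else 0) + (if w j = 2 then 1 else 0) := by
  unfold g2
  rw [bigp_rough h]
  unfold kap
  change (moebius j : ℝ) * (if w j = 0 then 1 else if w j = 1 then S2 A1 A2 j else if w j = 2 then 1 else 0) = _
  by_cases h0 : w j = 0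
  · have h3 := one_of_w hs h0
    have m1 : (moebius j : ℝ) = 1 := by rw [h3]; simp
    simp only [h0, m1]
    norm_num
  by_cases h1 : w j = 1
  · have h3 := prime_of_w hs h1
    have m1 : (moebius j : ℝ) = -1 := by rw [ArithmeticFunction.moebius_apply_prime h3]; simp
    simp only [h1, m1, S2_prime h3]
    norm_num
  by_cases h2 : w j = 2
  · obtain ⟨p, q, hpq, h4⟩ := card_eq_two.1 h2
    have h5 := Nat.prod_primeFactors_of_squarefree hs
    rw [h4, prod_pair hpq] at h5
    have hp : p.Prime := Nat.prime_of_mem_primeFactors (by rw [h4]; simp)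
    have hq : q.Prime := Nat.prime_of_mem_primeFactors (by rw [h4]; simp)
    have hc : p.Coprime q := (Nat.coprime_primes hp hq).2 hpq
    have m1 : (moebius j : ℝ) = 1 := by
      rw [← h5, ArithmeticFunction.isMultiplicative_moebius.map_mul_of_coprime hc,
        ArithmeticFunction.moebius_apply_prime hp, ArithmeticFunction.moebius_apply_prime hq]
      norm_num
    simp only [h2, m1]
    norm_num
  · simp only [h0, h1, h2, if_false]
    ring

/-- the sieve part at a `Q`-rough number -/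
lemma Sv_g2 {z U y Q A1 A2 K N : ℕ} {zs : ℕ → ℕ} (hU : 1 ≤ U) (hA : A1 ≤ A2) (hAU : A2 ≤ U)
    (hzK : zs K = Q) (hmono0 : ∀ i < K, zs i ≤ zs (i + 1)) (hro : Rough z N) (hsq : Squarefree N) (hr : Rough Q N) :
    Sv (g2 Q A1 A2) z U y K zs N = 1 - S2 A1 A2 N + (#(N.divisors.filter (fun j => w j = 2 ∧ j ≤ U)) : ℝ) := by
  classical
  rw [Sv_case2 hzK hmono0 hro hr, sum_filter]
  have h1 : ∑ j ∈ N.divisors, (if j = 1 then (1 : ℝ) else 0) = 1 := by
    rw [sum_ite_eq' N.divisors 1 (fun _ => (1 : ℝ)), if_pos (Nat.one_mem_divisors.2 hro.1)]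
  have h2 : S2 A1 A2 N = ∑ j ∈ N.divisors, (if w j = 1 then al A1 A2 j else 0) := by
    unfold S2
    rw [← c1 hsq, sum_filter]
  rw [h2, ← h1, ← sum_sub_distrib, card_filter, Nat.cast_sum, ← sum_add_distrib]
  apply sum_congr rfl
  intro j hj
  rw [Nat.mem_divisors] at hj
  have hjs : Squarefree j := hsq.squarefree_of_dvd hj.1
  have hjr : Rough Q j := rough_of_dvd hr hj.1
  by_cases h3 : j ≤ U
  · rw [if_pos h3, g2_rough hjs hjr]
    by_cases h4 : w j = 0
    · have h5 := one_of_w hjs h4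
      have h6 : (if j = 1 then (1 : ℝ) else 0) = 1 := if_pos h5
      simp [h3, h4, h6]
    · have h5 : j ≠ 1 := by
        rintro rfl
        simp [w] at h4
      simp [h3, h4, h5]
  · have h4 : j ≠ 1 := by omega
    have h5 : al A1 A2 j = 0 := al_zero hA (by omega)
    simp [h3, h4, h5]

/-- a pair with a small product consists of two small primes -/
lemma pair_S2 {Q U A1 A2 j : ℕ} (hUQ : U ≤ Q * A1) (hs : Squarefree j) (hr : Rough Q j) (hw : w j = 2) (hj : j ≤ U) :
    S2 A1 A2 j = 2 := by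
  obtain ⟨p, q, hpq, h1⟩ := card_eq_two.1 hw
  have h2 := Nat.prod_primeFactors_of_squarefree hs
  rw [h1, prod_pair hpq] at h2
  have hp : p ∈ j.primeFactors := by rw [h1]; simp
  have hq : q ∈ j.primeFactors := by rw [h1]; simp
  rw [Nat.mem_primeFactors] at hp hq
  have hp1 := hr.2 p hp.1 hp.2.1
  have hq1 := hr.2 q hq.1 hq.2.1
  unfold S2
  rw [h1, sum_pair hpq, al_one, al_one]
  · norm_num
  · by_contra h
    push Not at h
    have : (Q + 1) * (A1 + 1) ≤ p * q := Nat.mul_le_mul hp1 h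
    nlinarith
  · by_contra h
    push Not at h
    have : (A1 + 1) * (Q + 1) ≤ p * q := Nat.mul_le_mul h hq1
    nlinarith

/-- the sum of the weights of three primes `≤ U` is at most one -/
lemma S2_three {U A1 A2 N : ℕ} (hA : A1 ≤ A2) (hAAU : A1 * A2 * U < N) (hAAA : A2 * A2 * A2 < N)
    (hs : Squarefree N) (hw : w N = 3) (hU : ∀ p ∈ N.primeFactors, p ≤ U) : S2 A1 A2 N ≤ 1 := by
  obtain ⟨p, q, r, hpq, hpr, hqr, h1⟩ := card_eq_three.1 hw
  have h2 := Nat.prod_primeFactors_of_squarefree hs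
  rw [h1, prod_insert (by simp [hpq, hpr]), prod_pair hqr] at h2
  have up : p ≤ U := hU p (by rw [h1]; simp)
  have uq : q ≤ U := hU q (by rw [h1]; simp)
  have ur : r ≤ U := hU r (by rw [h1]; simp)
  have e : S2 A1 A2 N = al A1 A2 p + (al A1 A2 q + al A1 A2 r) := by
    unfold S2
    rw [h1, sum_insert (by simp [hpq, hpr]), sum_pair hqr]
  rw [e]
  have key : ∀ s t u : ℕ, s * (t * u) = N → s ≤ U → t ≤ U → u ≤ U → s ≤ A1 → A2 < t ∧ A2 < u := by
    intro s t u hN hs1 ht hu hsA
    constructor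
    · by_contra h
      push Not at h
      have : s * (t * u) ≤ A1 * (A2 * U) := Nat.mul_le_mul hsA (Nat.mul_le_mul h hu)
      have e2 : A1 * (A2 * U) = A1 * A2 * U := by ring
      omega
    · by_contra h
      push Not at h
      have : s * (t * u) ≤ A1 * (U * A2) := Nat.mul_le_mul hsA (Nat.mul_le_mul ht h)
      have e2 : A1 * (U * A2) = A1 * A2 * U := by ring
      omega
  have a1 := al_mem A1 A2 p
  have a2 := al_mem A1 A2 q
  have a3 := al_mem A1 A2 r
  by_cases c1 : p ≤ A1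
  · obtain ⟨k1, k2⟩ := key p q r h2 up uq ur c1
    rw [al_zero hA k1, al_zero hA k2]
    linarith
  by_cases c2 : q ≤ A1
  · obtain ⟨k1, k2⟩ := key q p r (by rw [← h2]; ring) uq up ur c2
    rw [al_zero hA k1, al_zero hA k2]
    linarith
  by_cases c3 : r ≤ A1
  · obtain ⟨k1, k2⟩ := key r p q (by rw [← h2]; ring) ur up uq c3
    rw [al_zero hA k1, al_zero hA k2]
    linarith
  push Not at c1 c2 c3
  have b1 := al_half (A2 := A2) c1
  have b2 := al_half (A2 := A2) c2
  have b3 := al_half (A2 := A2) c3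
  by_cases d1 : A2 < p
  · rw [al_zero hA d1]; linarith
  by_cases d2 : A2 < q
  · rw [al_zero hA d2]; linarith
  by_cases d3 : A2 < r
  · rw [al_zero hA d3]; linarith
  exfalso
  push Not at d1 d2 d3
  have : p * (q * r) ≤ A2 * (A2 * A2) := Nat.mul_le_mul d1 (Nat.mul_le_mul d2 d3)
  have e2 : A2 * (A2 * A2) = A2 * A2 * A2 := by ring
  omega

end Pool.Agent.H568
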