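import Mathlib
import Pool.Agent.H568.Mn5
import Pool.Agent.H568.C3

/-!
The excess of the upper bound function at products of two primes.
-/

set_option autoImplicit false

namespace Pool.Agent.H568

open Finset Filter Topology Pool.Agent.N792 Pool.Agent.N791.U

/-- the cells for three primes -/
def cE (i j : ℕ) : Bool := decide (i ≤ j) && decide (320 ≤ j) && decide (560 ≤ i + j) && decide (i + 2 * j ≤ 963)

theorem n2E : ∑ c ∈ Ioc 1199 2000, ((if c < 1600 then 1 else 2) * gN 2400 c) * lamN c ≤ 5606 * 10 ^ 10 := by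
  have e : ∀ f : ℕ → ℕ, ∑ i ∈ Ioc 1199 2000, f i = sN (fun i => f (1199 + 1 + i)) 801 := fun f => sum_Ioc_sN f 1199 801
  simp only [e]
  decide +kernel

theorem n3E : ∑ i ∈ Ioc 239 400, (∑ j ∈ Ioc 239 400, (if cE i j then (if i < 320 then 1 else 2) * gN 480 (i + j) else 0) *
    lamN j) * lamN i ≤ 27276 * 10 ^ 16 := by
  have e : ∀ f : ℕ → ℕ, ∑ i ∈ Ioc 239 400, f i = sN (fun i => f (239 + 1 + i)) 161 := fun f => sum_Ioc_sN f 239 161
  simp only [e]
  decide +kernel

/-- the products of two primes -/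
lemma ls_E2 (a : ℤ) (ha : 0 < a) (Λ : ℝ) (hΛ : 1 ≤ Λ) (R : ℕ) (η : ℝ) (hη : 0 < η) (e : ℝ) (he : e ≤ 1 / 5000) :
    ∀ᶠ x : ℕ in atTop, ∀ b : ℤ, (b : ℝ) ^ 2 ≤ Λ * x → ∀ x1 x2 : ℕ, x1 < x2 → x2 ≤ x → x ≤ R * x1 →
    ∀ U A1 A2 : ℕ, A1 ≤ A2 → (U : ℝ) ≤ (x : ℝ) ^ (5 / 6 : ℝ) → (x : ℝ) ^ (1 / 2 - e) < A1 + 1 → (x : ℝ) ^ (2 / 3 - e) < A2 + 1 →
    Ls a b x1 x2 (E2 U A1 A2) ≤ 5606 / 20000 * (((x2 : ℝ) - x1) / Real.log x) + η * (x / Real.log x) := by
  classical
  filter_upwards [main_le a ha Λ hΛ R (5606 / 20000) η (by norm_num) hη,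
    grid1 2400 1199 2000 (by norm_num) (by norm_num), eventually_ge_atTop 2] with x hmain hT hx2
  intro b hb x1 x2 h12 h2x hxR U A1 A2 hA hU hA1 hA2
  have hx1 : 1 ≤ x := by omega
  have hx0 : (0 : ℝ) < x := by exact_mod_cast hx1
  have hL : 0 < Real.log x := Real.log_pos (by exact_mod_cast (by omega : 1 < x))
  obtain ⟨L, hLe⟩ : ∃ L : ℝ, L = Real.log x := ⟨_, rfl⟩
  rw [← hLe] at hL
  obtain ⟨S, hS⟩ : ∃ S : Finset ℕ, S = (Icc 1 U).filter (fun p => p.Prime ∧ A1 < p) := ⟨_, rfl⟩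
  have hSm : ∀ p ∈ S, p.Prime ∧ A1 < p ∧ p ≤ U := by
    intro p hp
    rw [hS, mem_filter, mem_Icc] at hp
    exact ⟨hp.2.1, hp.2.2, hp.1.2⟩
  have hlogU : ∀ p ∈ S, Real.log p ≤ 5 / 6 * L := by
    intro p hp
    obtain ⟨h1, h2, h3⟩ := hSm p hp
    have p0 : (0 : ℝ) < p := by exact_mod_cast h1.pos
    have : (p : ℝ) ≤ (x : ℝ) ^ (5 / 6 : ℝ) := (by exact_mod_cast h3 : (p : ℝ) ≤ U).trans hU
    have := Real.log_le_log p0 this
    rwa [Real.log_rpow hx0, ← hLe] at this
  have hlogA : ∀ p ∈ S, (1 / 2 - e) * L < Real.log p := by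
    intro p hp
    obtain ⟨h1, h2, h3⟩ := hSm p hp
    have : (x : ℝ) ^ (1 / 2 - e) < p := hA1.trans_le (by exact_mod_cast h2)
    have := Real.log_lt_log (Real.rpow_pos_of_pos hx0 _) this
    rwa [Real.log_rpow hx0, ← hLe] at this
  have hidx : ∀ p ∈ S, p.Prime ∧ 1199 < cidx x 2400 p ∧ cidx x 2400 p ≤ 2000 := by
    intro p hp
    have h1 := hlogU p hp
    have h2 := hlogA p hp
    refine ⟨(hSm p hp).1, ?_, ?_⟩
    · unfold cidx
      rw [Nat.lt_ceil, ← hLe, lt_div_iff₀ hL]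
      push_cast
      nlinarith
    · unfold cidx
      rw [Nat.ceil_le, ← hLe, div_le_iff₀ hL]
      push_cast
      linarith
  have hwt : ∀ p ∈ S, 1 - al A1 A2 p ≤ ((if cidx x 2400 p < 1600 then 1 else 2 : ℕ) : ℝ) / 2 := by
    intro p hp
    have h0 := al_mem A1 A2 p
    split_ifs with h
    · have h1 := hSm p hp
      have h2 : p ≤ A2 := by
        by_contra hc
        push Not at hc
        have h3 : (x : ℝ) ^ (2 / 3 - e) < p := hA2.trans_le (by exact_mod_cast hc)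
        have h4 := Real.log_lt_log (Real.rpow_pos_of_pos hx0 _) h3
        rw [Real.log_rpow hx0, ← hLe] at h4
        have h5 := (cidx_bounds (x := x) (m := 2400) (p := p) (by norm_num) (by rw [← hLe]; exact hL) h1.1.one_lt).2
        rw [← hLe] at h5
        have h6 : (cidx x 2400 p : ℝ) ≤ 1599 := by exact_mod_cast (by omega : cidx x 2400 p ≤ 1599)
        have h7 : (cidx x 2400 p : ℝ) / (2400 : ℕ) * L ≤ 1599 / 2400 * L := by
          apply mul_le_mul_of_nonneg_right _ hL.le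
          push_cast
          linarith
        nlinarith
      have h3 : al A1 A2 p = 1 / 2 := by
        unfold al
        rw [if_neg (by omega), if_pos h2]
      rw [h3]
      norm_num
    · push_cast
      linarith
  refine hmain b hb x1 x2 h12 h2x hxR ℕ S (fun p => 1 - al A1 A2 p) (fun p => p) ?_ ?_ _ ?_
  · intro p hp
    obtain ⟨h1, h2, h3⟩ := hSm p hp
    refine ⟨by linarith [(al_mem A1 A2 p).2], h1.pos, ?_⟩
    rw [← hLe]
    linarith [hlogU p hp]
  · rw [← hLe]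
    have h1 := hT (fun c => (if c < 1600 then 1 else 2) * gN 2400 c) S hidx
    have h2 : ∀ p ∈ S, (1 - al A1 A2 p) / ((p : ℝ) * (19999 / 10000 * L - Real.log p)) ≤
        1 / (2 * 10 ^ 6 * L) * ((((if cidx x 2400 p < 1600 then 1 else 2) * gN 2400 (cidx x 2400 p) : ℕ) : ℝ) / p) := by
      intro p hp
      have p1 := (hSm p hp).1
      have p0 : (0 : ℝ) < p := by exact_mod_cast p1.pos
      have i1 := hidx p hp
      have hy := (cidx_bounds (x := x) (m := 2400) (p := p) (by norm_num) (by rw [← hLe]; exact hL) p1.one_lt).2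
      rw [← hLe] at hy
      obtain ⟨g1, g2⟩ := gN_ge (m := 2400) (s := cidx x 2400 p) (by norm_num) (by omega) hL hy
      have hw := hwt p hp
      have hw0 : 0 ≤ 1 - al A1 A2 p := by linarith [(al_mem A1 A2 p).2]
      have e1 : (1 - al A1 A2 p) / ((p : ℝ) * (19999 / 10000 * L - Real.log p)) =
          (1 - al A1 A2 p) * (1 / (19999 / 10000 * L - Real.log p)) / p := by
        rw [mul_one_div, div_div, mul_comm (p : ℝ)]
      rw [e1]
      calc (1 - al A1 A2 p) * (1 / (19999 / 10000 * L - Real.log p)) / p ≤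
          (((if cidx x 2400 p < 1600 then 1 else 2 : ℕ) : ℝ) / 2 * ((gN 2400 (cidx x 2400 p) : ℝ) / 10 ^ 6 / L)) / p := by
            apply div_le_div_of_nonneg_right _ p0.le
            exact mul_le_mul hw g1 (by positivity) (hw0.trans hw)
        _ = _ := by push_cast; field_simp
    refine (sum_le_sum h2).trans ?_
    rw [← mul_sum]
    have h3 : ((∑ c ∈ Ioc 1199 2000, ((if c < 1600 then 1 else 2) * gN 2400 c) * lamN c : ℕ) : ℝ) / 10 ^ 8 ≤
        5606 * 10 ^ 10 / 10 ^ 8 := by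
      apply div_le_div_of_nonneg_right _ (by norm_num)
      exact_mod_cast n2E
    calc 1 / (2 * 10 ^ 6 * L) * ∑ p ∈ S, ((((if cidx x 2400 p < 1600 then 1 else 2) * gN 2400 (cidx x 2400 p) : ℕ) : ℝ) / p)
        ≤ 1 / (2 * 10 ^ 6 * L) * (5606 * 10 ^ 10 / 10 ^ 8) := mul_le_mul_of_nonneg_left (h1.trans h3) (by positivity)
      _ = 5606 / 20000 / L := by field_simp; norm_num
  · intro N _ _ hN0
    have hnn : ∀ t : ℕ, 0 ≤ (1 - al A1 A2 t) * (if t ∣ N then pi0 (N / t) else 0) := by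
      intro t
      have h1 := (Pt.pi0_le (N / t)).1
      have h2 := (al_mem A1 A2 t).2
      split_ifs
      · exact mul_nonneg (by linarith) h1
      · simp
    unfold E2
    rw [← sum_filter_add_sum_filter_not (N.primeFactors.filter (fun p => p ≤ U)) (fun p => A1 < p)]
    have h1 : ∑ p ∈ (N.primeFactors.filter (fun p => p ≤ U)).filter (fun p => ¬ A1 < p), (1 - al A1 A2 p) * pi0 (N / p) = 0 := by
      apply sum_eq_zero
      intro p hp
      rw [mem_filter] at hp
      rw [al_one (by omega), sub_self, zero_mul]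
    rw [h1, add_zero]
    refine le_trans (le_of_eq ?_) (sum_le_sum_of_subset_of_nonneg (s := (N.primeFactors.filter (fun p => p ≤ U)).filter
      (fun p => A1 < p)) ?_ (fun t _ _ => hnn t))
    · apply sum_congr rfl
      intro p hp
      rw [mem_filter, mem_filter, Nat.mem_primeFactors] at hp
      rw [if_pos hp.1.1.2.1]
    · intro p hp
      rw [mem_filter, mem_filter, Nat.mem_primeFactors] at hp
      rw [hS, mem_filter, mem_Icc]
      exact ⟨⟨hp.1.1.1.pos, hp.1.2⟩, hp.1.1.1, hp.2⟩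

end Pool.Agent.H568
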