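import Mathlib
import Pool.Agent.H568.Mn8
import Pool.Agent.H568.Mn7

/-!
The excess of the upper bound function at products of three primes.
-/

set_option autoImplicit false

namespace Pool.Agent.H568

open Finset Filter Topology Pool.Agent.N792 Pool.Agent.N791.U

/-- three ordered primes -/
lemma three_primes {N : ℕ} (hs : Squarefree N) (hw : RX5.w N = 3) :
    ∃ p q r : ℕ, p.Prime ∧ q.Prime ∧ r.Prime ∧ p < q ∧ q < r ∧ N = p * q * r := by
  obtain ⟨p, q, r, hpq, hpr, hqr, h1⟩ := card_eq_three.1 hw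
  have h2 := Nat.prod_primeFactors_of_squarefree hs
  rw [h1, prod_insert (by simp [hpq, hpr]), prod_pair hqr] at h2
  have hp : p.Prime := Nat.prime_of_mem_primeFactors (by rw [h1]; simp)
  have hq : q.Prime := Nat.prime_of_mem_primeFactors (by rw [h1]; simp)
  have hr : r.Prime := Nat.prime_of_mem_primeFactors (by rw [h1]; simp)
  rcases Nat.lt_or_gt_of_ne hpq with c1 | c1 <;> rcases Nat.lt_or_gt_of_ne hpr with c2 | c2 <;>
    rcases Nat.lt_or_gt_of_ne hqr with c3 | c3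
  · exact ⟨p, q, r, hp, hq, hr, c1, c3, by rw [← h2]; ring⟩
  · exact ⟨p, r, q, hp, hr, hq, c2, c3, by rw [← h2]; ring⟩
  · omega
  · exact ⟨r, p, q, hr, hp, hq, c2, c1, by rw [← h2]; ring⟩
  · exact ⟨q, p, r, hq, hp, hr, c1, c2, by rw [← h2]; ring⟩
  · omega
  · exact ⟨q, r, p, hq, hr, hp, c3, c2, by rw [← h2]; ring⟩
  · exact ⟨r, q, p, hr, hq, hp, c3, c1, by rw [← h2]; ring⟩

/-- the products of three primes -/
lemma ls_E3 (a : ℤ) (ha : 0 < a) (Λ : ℝ) (hΛ : 1 ≤ Λ) (R : ℕ) (η : ℝ) (hη : 0 < η) (e : ℝ) (he : e ≤ 1 / 5000) :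
    ∀ᶠ x : ℕ in atTop, ∀ b : ℤ, (b : ℝ) ^ 2 ≤ Λ * x → ∀ x1 x2 : ℕ, x1 < x2 → x2 ≤ x → x ≤ R * x1 →
    ∀ Q U A1 A2 : ℕ, A1 ≤ A2 → (U : ℝ) ≤ (x : ℝ) ^ (5 / 6 : ℝ) → (x : ℝ) ^ (1 / 2 - e) < A1 + 1 →
    (x : ℝ) ^ (2 / 3 - e) < A2 + 1 →
    Ls a b x1 x2 (E3 Q U A1 A2) ≤ 27276 / 2000000 * (((x2 : ℝ) - x1) / Real.log x) + η * (x / Real.log x) := by
  classical
  filter_upwards [main_le a ha Λ hΛ R (27276 / 2000000) η (by norm_num) hη,
    grid2 480 239 400 (by norm_num) (by norm_num), eventually_ge_atTop 2] with x hmain hT hx2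
  intro b hb x1 x2 h12 h2x hxR Q U A1 A2 hA hU hA1 hA2
  have hx1 : 1 ≤ x := by omega
  have hx0 : (0 : ℝ) < x := by exact_mod_cast hx1
  have hL : 0 < Real.log x := Real.log_pos (by exact_mod_cast (by omega : 1 < x))
  obtain ⟨L, hLe⟩ : ∃ L : ℝ, L = Real.log x := ⟨_, rfl⟩
  rw [← hLe] at hL
  obtain ⟨P, hP⟩ : ∃ P : Finset ℕ, P = (Icc 1 U).filter (fun p => p.Prime ∧ A1 < p) := ⟨_, rfl⟩
  obtain ⟨S, hS⟩ : ∃ S : Finset (ℕ × ℕ), S = (P ×ˢ P).filter (fun t => cE (cidx x 480 t.1) (cidx x 480 t.2) = true) :=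
    ⟨_, rfl⟩
  have hPm : ∀ p ∈ P, p.Prime ∧ A1 < p ∧ p ≤ U := by
    intro p hp
    rw [hP, mem_filter, mem_Icc] at hp
    exact ⟨hp.2.1, hp.2.2, hp.1.2⟩
  have hSm : ∀ t ∈ S, t.1 ∈ P ∧ t.2 ∈ P ∧ cE (cidx x 480 t.1) (cidx x 480 t.2) = true := by
    intro t ht
    rw [hS, mem_filter, mem_product] at ht
    exact ⟨ht.1.1, ht.1.2, ht.2⟩
  have hSsub : S ⊆ P ×ˢ P := by
    rw [hS]
    exact filter_subset _ _
  have hlogU' : ∀ p : ℕ, p.Prime → p ≤ U → Real.log p ≤ 5 / 6 * L := by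
    intro p h1 h3
    have p0 : (0 : ℝ) < p := by exact_mod_cast h1.pos
    have : (p : ℝ) ≤ (x : ℝ) ^ (5 / 6 : ℝ) := (by exact_mod_cast h3 : (p : ℝ) ≤ U).trans hU
    have := Real.log_le_log p0 this
    rwa [Real.log_rpow hx0, ← hLe] at this
  have hlogU : ∀ p ∈ P, Real.log p ≤ 5 / 6 * L := fun p hp => hlogU' p (hPm p hp).1 (hPm p hp).2.2
  have hlogA : ∀ p ∈ P, (1 / 2 - e) * L < Real.log p := by
    intro p hp
    obtain ⟨h1, h2, h3⟩ := hPm p hp
    have : (x : ℝ) ^ (1 / 2 - e) < p := hA1.trans_le (by exact_mod_cast h2)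
    have := Real.log_lt_log (Real.rpow_pos_of_pos hx0 _) this
    rwa [Real.log_rpow hx0, ← hLe] at this
  have hlogA2 : ∀ p : ℕ, A2 < p → (2 / 3 - e) * L < Real.log p := by
    intro p h2
    have : (x : ℝ) ^ (2 / 3 - e) < p := hA2.trans_le (by exact_mod_cast h2)
    have := Real.log_lt_log (Real.rpow_pos_of_pos hx0 _) this
    rwa [Real.log_rpow hx0, ← hLe] at this
  have hidx : ∀ p ∈ P, p.Prime ∧ 239 < cidx x 480 p ∧ cidx x 480 p ≤ 400 := by
    intro p hp
    have h1 := hlogU p hp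
    have h2 := hlogA p hp
    refine ⟨(hPm p hp).1, ?_, ?_⟩
    · unfold cidx
      rw [Nat.lt_ceil, ← hLe, lt_div_iff₀ hL]
      push_cast
      nlinarith
    · unfold cidx
      rw [Nat.ceil_le, ← hLe, div_le_iff₀ hL]
      push_cast
      linarith
  obtain ⟨wt, hwt⟩ : ∃ wt : ℕ × ℕ → ℝ, wt = fun t => ((if cidx x 480 t.1 < 320 then 1 else 2 : ℕ) : ℝ) / 2 := ⟨_, rfl⟩
  have hwt0 : ∀ t, 0 ≤ wt t := by
    intro t
    rw [hwt]
    positivity
  have hcE : ∀ i j, cE i j = true → i ≤ j ∧ 320 ≤ j ∧ 560 ≤ i + j ∧ i + 2 * j ≤ 963 := by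
    intro i j h
    unfold cE at h
    simp at h
    omega
  refine hmain b hb x1 x2 h12 h2x hxR (ℕ × ℕ) S wt (fun t => t.1 * t.2) ?_ ?_ _ ?_
  · intro t ht
    obtain ⟨t1, t2, t4⟩ := hSm t ht
    obtain ⟨a1, a2, a3⟩ := hPm _ t1
    obtain ⟨b1, b2, b3⟩ := hPm _ t2
    refine ⟨hwt0 t, Nat.mul_pos a1.pos b1.pos, ?_⟩
    have q1 : (0 : ℝ) < t.1 := by exact_mod_cast a1.pos
    have q2 : (0 : ℝ) < t.2 := by exact_mod_cast b1.pos
    push_cast
    rw [Real.log_mul q1.ne' q2.ne', ← hLe]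
    have h1 := hlogU _ t1
    have h2 := hlogU _ t2
    linarith
  · rw [← hLe]
    obtain ⟨F, hF⟩ : ∃ F : ℕ → ℕ → ℕ, F = fun i j => if cE i j then (if i < 320 then 1 else 2) * gN 480 (i + j) else 0 :=
      ⟨_, rfl⟩
    have h1 := hT F P hidx
    have h2 : ∑ t ∈ S, wt t / (((t.1 * t.2 : ℕ) : ℝ) * (19999 / 10000 * L - Real.log ((t.1 * t.2 : ℕ) : ℝ))) ≤
        ∑ t ∈ P ×ˢ P, 1 / (2 * 10 ^ 6 * L) * ((F (cidx x 480 t.1) (cidx x 480 t.2) : ℝ) / (t.1 * t.2)) := by
      have hpos : ∀ t : ℕ × ℕ, 0 ≤ 1 / (2 * 10 ^ 6 * L) * ((F (cidx x 480 t.1) (cidx x 480 t.2) : ℝ) / (t.1 * t.2)) :=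
        fun t => mul_nonneg (div_nonneg zero_le_one (mul_nonneg (by norm_num) hL.le))
          (div_nonneg (Nat.cast_nonneg _) (mul_nonneg (Nat.cast_nonneg _) (Nat.cast_nonneg _)))
      refine le_trans ?_ (sum_le_sum_of_subset_of_nonneg hSsub fun t _ _ => hpos t)
      apply sum_le_sum
      intro t ht
      obtain ⟨t1, t2, t4⟩ := hSm t ht
      have p1 := (hPm _ t1).1
      have p2 := (hPm _ t2).1
      have q1 : (0 : ℝ) < t.1 := by exact_mod_cast p1.pos
      have q2 : (0 : ℝ) < t.2 := by exact_mod_cast p2.pos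
      have b1 := (cidx_bounds (x := x) (m := 480) (p := t.1) (by norm_num) (by rw [← hLe]; exact hL) p1.one_lt).2
      have b2 := (cidx_bounds (x := x) (m := 480) (p := t.2) (by norm_num) (by rw [← hLe]; exact hL) p2.one_lt).2
      rw [← hLe] at b1 b2
      have hFv : (F (cidx x 480 t.1) (cidx x 480 t.2) : ℝ) = ((if cidx x 480 t.1 < 320 then 1 else 2 : ℕ) : ℝ) *
          gN 480 (cidx x 480 t.1 + cidx x 480 t.2) := by
        rw [hF]
        simp only
        rw [if_pos t4]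
        push_cast
        rfl
      rw [hFv]
      have e1 : Real.log ((t.1 * t.2 : ℕ) : ℝ) = Real.log t.1 + Real.log t.2 := by
        push_cast
        rw [Real.log_mul q1.ne' q2.ne']
      have hy : Real.log ((t.1 * t.2 : ℕ) : ℝ) ≤ ((cidx x 480 t.1 + cidx x 480 t.2 : ℕ) : ℝ) / (480 : ℕ) * L := by
        rw [e1]
        push_cast at b1 b2 ⊢
        linarith
      have hc := hcE _ _ t4
      obtain ⟨g1, g2⟩ := gN_ge (m := 480) (by norm_num) (by omega) hL hy
      have e2 : wt t / (((t.1 * t.2 : ℕ) : ℝ) * (19999 / 10000 * L - Real.log ((t.1 * t.2 : ℕ) : ℝ))) =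
          wt t * (1 / (19999 / 10000 * L - Real.log ((t.1 * t.2 : ℕ) : ℝ))) / (t.1 * t.2) := by
        push_cast
        rw [mul_one_div, div_div, mul_comm ((t.1 : ℝ) * t.2)]
      rw [e2]
      calc wt t * (1 / (19999 / 10000 * L - Real.log ((t.1 * t.2 : ℕ) : ℝ))) / (t.1 * t.2) ≤
          wt t * ((gN 480 (cidx x 480 t.1 + cidx x 480 t.2) : ℝ) / 10 ^ 6 / L) / (t.1 * t.2) :=
            div_le_div_of_nonneg_right (mul_le_mul_of_nonneg_left g1 (hwt0 t)) (by positivity)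
        _ = _ := by
            rw [hwt]
            field_simp
    refine h2.trans ?_
    rw [← mul_sum, sum_product]
    have h3 : ((∑ i ∈ Ioc 239 400, (∑ j ∈ Ioc 239 400, F i j * lamN j) * lamN i : ℕ) : ℝ) / 10 ^ 16 ≤
        27276 * 10 ^ 16 / 10 ^ 16 := by
      apply div_le_div_of_nonneg_right _ (by norm_num)
      rw [hF]
      exact_mod_cast n3E
    calc 1 / (2 * 10 ^ 6 * L) * ∑ p ∈ P, ∑ q ∈ P, ((F (cidx x 480 p) (cidx x 480 q) : ℝ) / (p * q))
        ≤ 1 / (2 * 10 ^ 6 * L) * (27276 * 10 ^ 16 / 10 ^ 16) := mul_le_mul_of_nonneg_left (h1.trans h3) (by positivity)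
      _ = 27276 / 2000000 / L := by field_simp; norm_num
  · intro N hN1 hN2 hN0
    rw [← hLe] at hN1 hN2
    have hnn : ∀ t ∈ S, 0 ≤ wt t * (if t.1 * t.2 ∣ N then pi0 (N / (t.1 * t.2)) else 0) := by
      intro t _
      have h1 := (Pt.pi0_le (N / (t.1 * t.2))).1
      split_ifs
      · exact mul_nonneg (hwt0 t) h1
      · simp
    by_cases h : (Squarefree N ∧ Rough Q N ∧ RX5.w N = 3 ∧ (∀ p ∈ N.primeFactors, p ≤ U)) ∧ 0 < 1 - S2 A1 A2 N
    swap
    · have : E3 Q U A1 A2 N = 0 := by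
        unfold E3
        split_ifs with h1
        · rw [max_eq_left]
          by_contra h2
          exact h ⟨h1, by linarith⟩
        · rfl
      rw [this]
      exact sum_nonneg hnn
    obtain ⟨⟨h1, h2, h3, h4⟩, h5⟩ := h
    obtain ⟨p, q, r, hp, hq, hr, hpq, hqr, hN⟩ := three_primes h1 h3
    have hpm : p ∈ N.primeFactors := Nat.mem_primeFactors.2 ⟨hp, ⟨q * r, by rw [hN]; ring⟩, hN0.ne'⟩
    have hqm : q ∈ N.primeFactors := Nat.mem_primeFactors.2 ⟨hq, ⟨p * r, by rw [hN]; ring⟩, hN0.ne'⟩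
    have hrm : r ∈ N.primeFactors := Nat.mem_primeFactors.2 ⟨hr, ⟨p * q, by rw [hN]; ring⟩, hN0.ne'⟩
    have hSe : S2 A1 A2 N = al A1 A2 p + (al A1 A2 q + al A1 A2 r) := by
      have hsub : ({p, q, r} : Finset ℕ) ⊆ N.primeFactors := by
        intro s hs
        simp only [mem_insert, mem_singleton] at hs
        rcases hs with rfl | rfl | rfl
        · exact hpm
        · exact hqm
        · exact hrm
      have hcard : #({p, q, r} : Finset ℕ) = 3 := by
        rw [card_insert_of_notMem (by simp; omega), card_pair (by omega)]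
      have heq : ({p, q, r} : Finset ℕ) = N.primeFactors := by
        apply eq_of_subset_of_card_le hsub
        rw [hcard]
        exact h3.le
      unfold S2
      rw [← heq, sum_insert (by simp; omega), sum_pair (by omega)]
    rw [hSe] at h5
    have m1 := al_mem A1 A2 p
    have m2 := al_mem A1 A2 q
    have m3 := al_mem A1 A2 r
    have pA : A1 < p := by
      by_contra hc
      rw [al_one (by omega)] at h5
      linarith
    have qA : A2 < q := by
      by_contra hc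
      have e1 : al A1 A2 p = 1 / 2 := by unfold al; rw [if_neg (by omega), if_pos (by omega)]
      have e2 : al A1 A2 q = 1 / 2 := by unfold al; rw [if_neg (by omega), if_pos (by omega)]
      rw [e1, e2] at h5
      linarith
    have p0 : (0 : ℝ) < p := by exact_mod_cast hp.pos
    have q0 : (0 : ℝ) < q := by exact_mod_cast hq.pos
    have r0 : (0 : ℝ) < r := by exact_mod_cast hr.pos
    have lN : Real.log N = Real.log p + Real.log q + Real.log r := by
      rw [hN]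
      push_cast
      rw [Real.log_mul (by positivity) r0.ne', Real.log_mul p0.ne' q0.ne']
    have lr := hlogU' r hr (h4 r hrm)
    have lqr : Real.log q ≤ Real.log r := Real.log_le_log q0 (by exact_mod_cast hqr.le)
    have hpP : p ∈ P := by rw [hP, mem_filter, mem_Icc]; exact ⟨⟨hp.pos, h4 p hpm⟩, hp, pA⟩
    have hqP : q ∈ P := by rw [hP, mem_filter, mem_Icc]; exact ⟨⟨hq.pos, h4 q hqm⟩, hq, by omega⟩
    have hL' : 0 < Real.log x := by rw [← hLe]; exact hL
    obtain ⟨b1, b2⟩ := cidx_lt (x := x) (m := 480) (p := p) (by norm_num) hL' hp.one_lt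
    obtain ⟨b3, b4⟩ := cidx_lt (x := x) (m := 480) (p := q) (by norm_num) hL' hq.one_lt
    have bm := cidx_mono (x := x) (m := 480) hp.pos hL' hpq.le
    rw [← hLe] at b1 b2 b3 b4
    push_cast at b1 b2 b3 b4
    have lq := hlogA2 q qA
    have hcell : cE (cidx x 480 p) (cidx x 480 q) = true := by
      unfold cE
      simp only [Bool.and_eq_true, decide_eq_true_eq]
      refine ⟨⟨⟨bm, ?_⟩, ?_⟩, ?_⟩
      · have : (319 : ℝ) * L < cidx x 480 q * L := by nlinarith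
        have h6 := lt_of_mul_lt_mul_right this hL.le
        have : 319 < cidx x 480 q := by exact_mod_cast h6
        omega
      · have : (559 : ℝ) * L < (cidx x 480 p + cidx x 480 q) * L := by nlinarith
        have h6 := lt_of_mul_lt_mul_right this hL.le
        have : 559 < cidx x 480 p + cidx x 480 q := by exact_mod_cast h6
        omega
      · have : ((cidx x 480 p : ℝ) + 2 * cidx x 480 q) * L < 964 * L := by nlinarith
        have h6 := lt_of_mul_lt_mul_right this hL.le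
        have : cidx x 480 p + 2 * cidx x 480 q < 964 := by exact_mod_cast h6
        omega
    have hpqS : (p, q) ∈ S := by
      rw [hS, mem_filter, mem_product]
      exact ⟨⟨hpP, hqP⟩, hcell⟩
    have hval : 1 - S2 A1 A2 N ≤ wt (p, q) := by
      rw [hwt, hSe]
      simp only
      split_ifs with h6
      · have h7 : p ≤ A2 := by
          by_contra hc
          push Not at hc
          have h8 := hlogA2 p hc
          have h9 : (cidx x 480 p : ℝ) ≤ 319 := by exact_mod_cast (by omega : cidx x 480 p ≤ 319)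
          have h10 : (cidx x 480 p : ℝ) * L ≤ 319 * L := mul_le_mul_of_nonneg_right h9 hL.le
          nlinarith
        have e1 : al A1 A2 p = 1 / 2 := by unfold al; rw [if_neg (by omega), if_pos h7]
        rw [e1]
        push_cast
        linarith
      · push_cast
        linarith
    have hE : E3 Q U A1 A2 N = 1 - S2 A1 A2 N := by
      unfold E3
      rw [if_pos ⟨h1, h2, h3, h4⟩, max_eq_right (by rw [hSe]; exact h5.le)]
    rw [hE]
    refine hval.trans ?_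
    have hsingle := single_le_sum hnn hpqS
    refine le_trans (le_of_eq ?_) hsingle
    have hpos : 0 < p * q := Nat.mul_pos hp.pos hq.pos
    rw [if_pos ⟨r, hN⟩, hN, Nat.mul_div_cancel_left _ hpos, pi0_of hr, mul_one]

/-- **the excess of the upper bound function** -/
theorem ls_W2 (a : ℤ) (ha : 0 < a) (Λ : ℝ) (hΛ : 1 ≤ Λ) (R : ℕ) (η : ℝ) (hη : 0 < η) (e : ℝ) (he : e ≤ 1 / 5000) :
    ∀ᶠ x : ℕ in atTop, ∀ b : ℤ, (b : ℝ) ^ 2 ≤ Λ * x → ∀ x1 x2 : ℕ, x1 < x2 → x2 ≤ x → x ≤ R * x1 →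
    ∀ Q U A1 A2 : ℕ, (x : ℝ) ^ (1 / 3 : ℝ) ≤ Q → A1 ≤ A2 → (U : ℝ) ≤ (x : ℝ) ^ (5 / 6 : ℝ) →
    (x : ℝ) ^ (1 / 2 - e) < A1 + 1 → (x : ℝ) ^ (2 / 3 - e) < A2 + 1 →
    Ls a b x1 x2 (W2 Q U A1 A2) ≤ 1 / 3 * (((x2 : ℝ) - x1) / Real.log x) + η * (x / Real.log x) := by
  filter_upwards [ls_E2 a ha Λ hΛ R (η / 8) (by positivity) e he, ls_E3 a ha Λ hΛ R (η / 8) (by positivity) e he,
    ls_C a ha Λ hΛ R (η / 8) (by positivity), ls_pi5 a ha Λ hΛ R (η / 8) (by positivity),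
    eventually_ge_atTop 2] with x h2 h3 hC h5 hx2
  intro b hb x1 x2 h12 h2x hxR Q U A1 A2 hQ hA hU hA1 hA2
  have hL : 0 < Real.log x := Real.log_pos (by exact_mod_cast (by omega : 1 < x))
  have k2 := h2 b hb x1 x2 h12 h2x hxR U A1 A2 hA hU hA1 hA2
  have k3 := h3 b hb x1 x2 h12 h2x hxR Q U A1 A2 hA hU hA1 hA2
  have kC := hC b hb x1 x2 h12 h2x hxR Q U hQ hU
  have k5 := h5 b hb x1 x2 h12 h2x hxR Q hQ
  have e1 : Ls a b x1 x2 (W2 Q U A1 A2) = Ls a b x1 x2 (E2 U A1 A2) + Ls a b x1 x2 (E3 Q U A1 A2) +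
      2 / 3 * Ls a b x1 x2 (fun N => ∑ j ∈ N.divisors.filter (fun j => j ≤ U), pi2 Q j * pi2 Q (N / j)) +
      11 / 4 * Ls a b x1 x2 (fun N => 4 * pi5 Q N) := by
    unfold Ls W2 E4
    rw [mul_sum, mul_sum, ← sum_add_distrib, ← sum_add_distrib, ← sum_add_distrib]
    apply sum_congr rfl
    intro N _
    ring
  rw [e1]
  have hx12 : (x1 : ℝ) < x2 := by exact_mod_cast h12
  have hT : 0 ≤ ((x2 : ℝ) - x1) / Real.log x := div_nonneg (by linarith) hL.le
  have hX : 0 ≤ (x : ℝ) / Real.log x := div_nonneg (Nat.cast_nonneg _) hL.le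
  have hηX : 0 ≤ η * ((x : ℝ) / Real.log x) := mul_nonneg hη.le hX
  linarith

end Pool.Agent.H568
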