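import Mathlib
import Pool.Agent.H568.C3

/-!
The pointwise inequalities for the upper bound function.
-/

set_option autoImplicit false

namespace Pool.Agent.H568

open Finset Pool.Agent.N792 Pool.Agent.N792.RX5
open Pool.Agent.N792.SwR (rough_of_dvd)
open ArithmeticFunction (moebius)

/-- **the values of the upper bound function at `Q`-rough numbers** -/
lemma H2_case2 {z U y Q A1 A2 K N : ℕ} {zs : ℕ → ℕ} (hU : 1 ≤ U) (hA : A1 ≤ A2) (hAU : A2 ≤ U) (hUy : U ≤ y)
    (hzK : zs K = Q) (hmono0 : ∀ i < K, zs i ≤ zs (i + 1)) (hyN : y * y < N) (hN6 : N < Q ^ 6)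
    (hUQ : U ≤ Q * A1) (hAAU : A1 * A2 * U < N) (hAAA : A2 * A2 * A2 < N) (hUUA : N ≤ U * U * A1) (hyQ : y ≤ Q * Q * Q)
    (hsq : Squarefree N) (hro : Rough z N) (hne : ∀ j, j ∣ N → ¬ (y ≤ j ∧ y ≤ N / j))
    (hr : Rough Q N) :
    pi0 N ≤ H2 z U y Q A1 A2 K zs N ∧ H2 z U y Q A1 A2 K zs N ≤ pi0 N + W2 Q U A1 A2 N := by
  classical
  have hN0 := hro.1
  have hf1 : ∀ j, j ∣ N → pi0 j = if w j = 1 then 1 else 0 := fun j hj => pi0_w (hsq.squarefree_of_dvd hj)
  have hf2 : ∀ j, j ∣ N → pi2 Q j = if w j = 2 then 1 else 0 :=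
    fun j hj => pi2_w (hsq.squarefree_of_dvd hj) (rough_of_dvd hr hj)
  have hf3 : ∀ j, j ∣ N → pin Q 3 j = if w j = 3 then 1 else 0 :=
    fun j hj => pin_w (hsq.squarefree_of_dvd hj) (rough_of_dvd hr hj)
  have hft : ∀ c d : ℝ, ∀ j, j ∣ N → th Q A1 A2 c d j = if w j = 2 then d * (S2 A1 A2 j - c) else 0 := by
    intro c d j hj
    unfold th
    rw [hf2 j hj]
    split_ifs <;> ring
  have hwp := w_pow hr
  have hw1 : w N ≠ 0 := by
    intro h
    have h1 := one_of_w hsq h
    subst h1
    have : y = 0 := by nlinarith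
    omega
  have hw6 : w N < 6 := by
    by_contra h
    push Not at h
    have h5 : (Q + 1) ^ 6 ≤ (Q + 1) ^ w N := Nat.pow_le_pow_right (by omega) h
    have h6 : Q ^ 6 ≤ (Q + 1) ^ 6 := Nat.pow_le_pow_left (by omega) 6
    omega
  obtain ⟨S, hS⟩ : ∃ S, S = S2 A1 A2 N := ⟨_, rfl⟩
  have hSbd := S2_bd A1 A2 N
  rw [← hS] at hSbd
  -- large divisors
  have hdiv : ∀ j, j ∣ N → j ≤ y → y < N / j := by
    intro j hj h1
    by_contra h
    push Not at h
    have := Nat.mul_div_cancel' hj
    have h4 : j * (N / j) ≤ y * y := Nat.mul_le_mul h1 h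
    omega
  have hSbig : ∀ j, j ∣ N → w j = 1 → A2 < j → S2 A1 A2 (N / j) = S := by
    intro j hj h1 h2
    have h3 := prime_of_w (hsq.squarefree_of_dvd hj) h1
    have h4 := S2_add (A1 := A1) (A2 := A2) hsq hj
    rw [S2_prime h3, al_zero hA h2, zero_add] at h4
    rw [h4, hS]
  -- the T2 sums
  have t1 := T2_w (U := U) (y := y) hro hsq hf1 hf1
  have t2 := T2_F (U := U) (y := y) (F := fun _ => 1) hro hsq hf1 (hft 1 1)
  have t3 := T2_F (U := U) (y := y) (G := fun _ => 1) hro hsq (hft 1 1) hf1
  have t4 := T2_F (U := U) (y := y) (G := fun _ => 1) hro hsq (hft (1 / 2) (1 / 3)) hf2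
  have t5 := T2_F (U := U) (y := y) (F := fun _ => 1) hro hsq hf2 (hft (1 / 2) (1 / 3))
  have t6 := T2_w (U := U) (y := y) hro hsq hf2 hf3
  have s1 := split1 N.divisors (U := U) (y := y) (a := 1) hUy
  have s2 := split2 N.divisors (y := y) (a := 1)
  have s4 := split1 N.divisors (U := U) (y := y) (a := 2) hUy
  have s5 := split2 N.divisors (y := y) (a := 2)
  have n1 : #(N.divisors.filter (fun j => w j = 1)) = w N := by rw [c1 hsq, w]
  have n2 := c2 hsq
  rw [n1] at s2
  rw [n2] at s5
  have e2 : w N = 3 → ∑ j ∈ N.divisors.filter (fun j => w j = 1 ∧ U < j ∧ j ≤ y), (1 : ℝ) * (1 * (S2 A1 A2 (N / j) - 1)) =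
      (#(N.divisors.filter (fun j => w j = 1 ∧ U < j ∧ j ≤ y)) : ℝ) * (S - 1) := by
    intro _
    rw [← nsmul_eq_mul]
    apply sum_eq_card_nsmul
    intro j hj
    rw [mem_filter, Nat.mem_divisors] at hj
    rw [hSbig j hj.1.1 hj.2.1 (by omega)]
    ring
  have e3 : w N = 3 → ∑ j ∈ N.divisors.filter (fun j => w j = 2 ∧ U < j ∧ j ≤ y), (1 : ℝ) * (S2 A1 A2 j - 1) * 1 =
      (#(N.divisors.filter (fun j => w j = 2 ∧ U < j ∧ j ≤ y)) : ℝ) * (S - 1) := by
    intro hk
    rw [← nsmul_eq_mul]
    apply sum_eq_card_nsmul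
    intro j hj
    rw [mem_filter, Nat.mem_divisors] at hj
    have h1 := w_add hsq hj.1.1
    have h2 := hdiv j hj.1.1 hj.2.2.2
    have h3 := hSbig (N / j) (Nat.div_dvd_of_dvd hj.1.1) (by omega) (by omega)
    rw [Nat.div_div_self hj.1.1 hN0] at h3
    rw [h3]
    ring
  have e45 : ∑ j ∈ N.divisors.filter (fun j => w j = 2 ∧ U < j ∧ j ≤ y), 1 / 3 * (S2 A1 A2 j - 1 / 2) * (1 : ℝ) +
      ∑ j ∈ N.divisors.filter (fun j => w j = 2 ∧ U < j ∧ j ≤ y), (1 : ℝ) * (1 / 3 * (S2 A1 A2 (N / j) - 1 / 2)) =
      (#(N.divisors.filter (fun j => w j = 2 ∧ U < j ∧ j ≤ y)) : ℝ) * (1 / 3 * (S - 1)) := by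
    rw [← sum_add_distrib, ← nsmul_eq_mul]
    apply sum_eq_card_nsmul
    intro j hj
    rw [mem_filter, Nat.mem_divisors] at hj
    have h1 := S2_add (A1 := A1) (A2 := A2) hsq hj.1.1
    rw [hS, ← h1]
    ring
  have hE2 := E2_nonneg U A1 A2 N
  have hE3 := E3_nonneg Q U A1 A2 N
  have hE4 := E4_nonneg Q U N
  have hE5 := (pi5_le Q N).1
  have hpair : ∀ j, j ∣ N → w j = 2 → j ≤ U → S2 A1 A2 j = 2 := fun j hj h1 h2 =>
    pair_S2 hUQ (hsq.squarefree_of_dvd hj) (rough_of_dvd hr hj) h1 h2
  unfold H2 W2
  rw [Sv_g2 hU hA hAU hzK hmono0 hro hsq hr, t1, t2, t3, t4, t5, t6, ← hS, hf1 N dvd_rfl]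
  generalize e6 : #(N.divisors.filter (fun j => w j = 1 ∧ U < j ∧ j ≤ y)) = B1 at *
  generalize e7 : #(N.divisors.filter (fun j => w j = 2 ∧ U < j ∧ j ≤ y)) = B3 at *
  generalize e8 : #(N.divisors.filter (fun j => w j = 2 ∧ j ≤ U)) = B4 at *
  generalize e9 : #(N.divisors.filter (fun j => w j = 1 ∧ j ≤ U)) = B0 at *
  have hcases : w N = 1 ∨ w N = 2 ∨ w N = 3 ∨ w N = 4 ∨ w N = 5 := by omega
  rcases hcases with hk | hk | hk | hk | hk
  · -- `N` is a prime
    have h3 := prime_of_w hsq hk
    have h4 : S = 0 := by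
      rw [hS, S2_prime h3]
      apply al_zero hA
      have : y ≤ y * y := Nat.le_mul_self y
      omega
    have h5 : B4 = 0 := by
      rw [← e8, card_eq_zero]
      apply filter_eq_empty_iff.2
      rintro j hj ⟨h1, h2⟩
      rw [Nat.mem_divisors] at hj
      have := w_add hsq hj.1
      omega
    simp only [hk]
    norm_num
    rw [h4, h5]
    push_cast
    constructor <;> linarith
  · -- two primes
    have i1 := inv (a := 1) (b := 1) hsq hyN hne (by omega)
    rw [hk] at s2
    have h5 : B4 = 0 := by
      rw [← e8, card_eq_zero]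
      apply filter_eq_empty_iff.2
      rintro j hj ⟨h1, h2⟩
      rw [Nat.mem_divisors] at hj
      have h6 := w_add hsq hj.1
      have h7 := one_of_w (hsq.squarefree_of_dvd (Nat.div_dvd_of_dvd hj.1)) (by omega)
      have h8 := Nat.mul_div_cancel' hj.1
      rw [h7, mul_one] at h8
      have : y ≤ y * y := Nat.le_mul_self y
      omega
    have h6 : B0 + B1 = 1 := by omega
    obtain ⟨p, hp⟩ : ∃ p, p ∈ N.divisors.filter (fun j => w j = 1 ∧ j ≤ y) := by
      apply card_pos.1
      omega
    rw [mem_filter, Nat.mem_divisors] at hp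
    have hpp := prime_of_w (hsq.squarefree_of_dvd hp.1.1) hp.2.1
    have hp2 := hdiv p hp.1.1 hp.2.2
    have hw := w_add hsq hp.1.1
    have hqp := prime_of_w (hsq.squarefree_of_dvd (Nat.div_dvd_of_dvd hp.1.1)) (by omega)
    have hSp : S = al A1 A2 p := by
      have h1 := S2_add (A1 := A1) (A2 := A2) hsq hp.1.1
      rw [S2_prime hpp, S2_prime hqp, al_zero hA (by omega : A2 < N / p), add_zero] at h1
      rw [hS, h1]
    simp only [hk]
    norm_num
    rw [h5]
    push_cast
    have hal := al_mem A1 A2 p
    by_cases hpU : p ≤ U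
    · have h7 : 1 ≤ B0 := by
        rw [← e9]
        exact card_pos.2 ⟨p, by rw [mem_filter, Nat.mem_divisors]; exact ⟨hp.1, hp.2.1, hpU⟩⟩
      have h8 : B1 = 0 := by omega
      have h9 : 1 - al A1 A2 p ≤ E2 U A1 A2 N := by
        unfold E2
        have h10 : p ∈ N.primeFactors.filter (fun p => p ≤ U) := by
          rw [mem_filter, Nat.mem_primeFactors]
          exact ⟨⟨hpp, hp.1.1, hN0⟩, hpU⟩
        have h11 := single_le_sum (f := fun p => (1 - al A1 A2 p) * pi0 (N / p)) (fun q _ =>
          mul_nonneg (by linarith [(al_mem A1 A2 q).2]) (Pt.pi0_le _).1) h10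
        have h12 : pi0 (N / p) = 1 := by
          rw [hf1 _ (Nat.div_dvd_of_dvd hp.1.1), if_pos (by omega)]
        rw [h12, mul_one] at h11
        exact h11
      rw [h8, hSp]
      push_cast
      constructor <;> linarith
    · push Not at hpU
      have h7 : 1 ≤ B1 := by
        rw [← e6]
        exact card_pos.2 ⟨p, by rw [mem_filter, Nat.mem_divisors]; exact ⟨hp.1, hp.2.1, hpU, hp.2.2⟩⟩
      have h8 : B1 = 1 := by omega
      have h9 : S = 0 := by rw [hSp]; exact al_zero hA (by omega)
      rw [h8, h9]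
      push_cast
      constructor <;> linarith
  · -- three primes
    have i1 := inv (a := 2) (b := 1) hsq hyN hne (by omega)
    rw [hk] at s2
    have hval : 1 - S + (B4 : ℝ) + (B1 : ℝ) * (S - 1) + (B3 : ℝ) * (S - 1) = max 0 (if B0 = 3 then 1 - S else 0) ∧
        (B0 = 3 → max 0 (1 - S) = E3 Q U A1 A2 N) := by
      have hB0 : B0 ≠ 0 := by
        intro h
        have hrU : Rough U N := by
          refine ⟨hsq.ne_zero, fun p hp hpN => ?_⟩
          by_contra h2
          push Not at h2
          have h3 : p ∈ N.divisors.filter (fun j => w j = 1 ∧ j ≤ U) :=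
            mem_filter.2 ⟨Nat.mem_divisors.2 ⟨hpN, hsq.ne_zero⟩, w_prime hp, h2⟩
          rw [card_eq_zero.1 (e9.trans h)] at h3
          simp at h3
        have h1 := w_pow hrU
        rw [hk] at h1
        have h2 : (U + 1) ^ 3 = U * U * U + 3 * (U * U) + 3 * U + 1 := by ring
        have h3 : U * U * A1 ≤ U * U * U := Nat.mul_le_mul_left _ (hA.trans hAU)
        omega
      have hall : B0 = 3 → ∀ p ∈ N.primeFactors, p ≤ U := by
        intro h p hp
        by_contra h2
        push Not at h2
        have h3 : N.divisors.filter (fun j => w j = 1 ∧ j ≤ U) ⊆ N.primeFactors.erase p := by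
          intro j hj
          rw [mem_filter, Nat.mem_divisors] at hj
          rw [mem_erase, Nat.mem_primeFactors]
          exact ⟨by rintro rfl; omega, prime_of_w (hsq.squarefree_of_dvd hj.1.1) hj.2.1, hj.1⟩
        have h4 := card_le_card h3
        rw [card_erase_of_mem hp, e9] at h4
        have h5 : #N.primeFactors = 3 := hk
        omega
      refine ⟨?_, fun h => ?_⟩
      · by_cases h3 : B0 = 3
        · have h4 : B1 = 0 := by omega
          have h5 : B3 = 0 := by omega
          have h6 : B4 = 0 := by omega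
          have h7 := S2_three hA hAAU hAAA hsq hk (hall h3)
          rw [← hS] at h7
          rw [if_pos h3, max_eq_right (by linarith), h4, h5, h6]
          push_cast
          ring
        · rw [if_neg h3, max_self]
          by_cases h4 : B4 = 0
          · by_cases h5 : B0 = 2
            · have h6 : B1 + B3 = 1 := by omega
              have h7 : (B1 : ℝ) + B3 = 1 := by exact_mod_cast h6
              rw [h4]
              push_cast
              have : 1 - S + 0 + (B1 : ℝ) * (S - 1) + B3 * (S - 1) = (1 - (B1 + B3)) * (1 - S) := by ring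
              rw [this, h7]
              ring
            · have h5' : B0 = 1 := by omega
              have h6 : B1 + B3 = 2 := by omega
              have h7 : (B1 : ℝ) + B3 = 2 := by exact_mod_cast h6
              have h8 : S = 1 := by
                obtain ⟨p, hp⟩ := card_eq_one.1 (e9.trans h5')
                have hpm : p ∈ N.divisors.filter (fun j => w j = 1 ∧ j ≤ U) := by rw [hp]; exact mem_singleton_self p
                rw [mem_filter, Nat.mem_divisors] at hpm
                have hpp := prime_of_w (hsq.squarefree_of_dvd hpm.1.1) hpm.2.1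
                have hother : ∀ q ∈ N.primeFactors, q ≠ p → U < q := by
                  intro q hq hqp
                  by_contra hc
                  push Not at hc
                  rw [Nat.mem_primeFactors] at hq
                  have : q ∈ N.divisors.filter (fun j => w j = 1 ∧ j ≤ U) :=
                    mem_filter.2 ⟨Nat.mem_divisors.2 ⟨hq.2.1, hN0⟩, w_prime hq.1, hc⟩
                  rw [hp, mem_singleton] at this
                  exact hqp this
                have hSa : S = al A1 A2 p := by
                  rw [hS]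
                  unfold S2
                  rw [sum_eq_single p]
                  · intro q hq hqp
                    exact al_zero hA (lt_of_le_of_lt hAU (hother q hq hqp))
                  · intro h
                    exact absurd (Nat.mem_primeFactors.2 ⟨hpp, hpm.1.1, hN0⟩) h
                rw [hSa]
                apply al_one
                by_contra hc
                push Not at hc
                have k1 : Squarefree (N / p) := hsq.squarefree_of_dvd (Nat.div_dvd_of_dvd hpm.1.1)
                have k2 : Rough U (N / p) := by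
                  refine ⟨k1.ne_zero, fun q hq hqN => ?_⟩
                  have k3 : q ∣ N := hqN.trans (Nat.div_dvd_of_dvd hpm.1.1)
                  apply hother q (Nat.mem_primeFactors.2 ⟨hq, k3, hN0⟩)
                  rintro rfl
                  obtain ⟨e, he⟩ := hqN
                  have k4 := Nat.mul_div_cancel' hpm.1.1
                  rw [he] at k4
                  have k5 : q * q ∣ N := ⟨e, by rw [← k4]; ring⟩
                  have := hsq q k5
                  exact hq.one_lt.ne' (Nat.isUnit_iff.1 this)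
                have k3 := w_add hsq hpm.1.1
                have k4 := w_pow k2
                have k5 : w (N / p) = 2 := by omega
                rw [k5] at k4
                have k6 := Nat.mul_div_cancel' hpm.1.1
                have k7 : (A1 + 1) * (U + 1) ^ 2 ≤ p * (N / p) := Nat.mul_le_mul hc k4
                have k8 : (A1 + 1) * (U + 1) ^ 2 = U * U * A1 + (2 * U * A1 + A1 + (U + 1) ^ 2) := by ring
                have k9 : 0 < (U + 1) ^ 2 := by positivity
                omega
              rw [h4, h8]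
              push_cast
              ring
          · obtain ⟨j, hj⟩ := card_pos.1 (by omega : 0 < #(N.divisors.filter (fun j => w j = 2 ∧ j ≤ U)))
            rw [mem_filter, Nat.mem_divisors] at hj
            have h5 := hpair j hj.1.1 hj.2.1 hj.2.2
            have h6 := w_add hsq hj.1.1
            have h7 := hdiv j hj.1.1 (by omega)
            have h8 := hSbig (N / j) (Nat.div_dvd_of_dvd hj.1.1) (by omega) (by omega)
            rw [Nat.div_div_self hj.1.1 hN0, h5] at h8
            have h9 : 2 ≤ B0 := by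
              rw [← e9]
              have h10 : j.primeFactors ⊆ N.divisors.filter (fun j => w j = 1 ∧ j ≤ U) := by
                intro q hq
                rw [Nat.mem_primeFactors] at hq
                rw [mem_filter, Nat.mem_divisors]
                exact ⟨⟨hq.2.1.trans hj.1.1, hN0⟩, w_prime hq.1, (Nat.le_of_dvd (Nat.pos_of_ne_zero hq.2.2) hq.2.1).trans hj.2.2⟩
              have h11 := card_le_card h10
              have h12 : #j.primeFactors = 2 := hj.2.1
              omega
            have h10 : B4 = 1 ∧ B1 = 0 ∧ B3 = 0 := by omega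
            rw [h10.1, h10.2.1, h10.2.2, ← h8]
            push_cast
            ring
      · unfold E3
        rw [if_pos ⟨hsq, hr, hk, hall h⟩, ← hS]
    have e2' := e2 hk
    have e3' := e3 hk
    simp only [hk]
    norm_num at e2' e3' ⊢
    rw [e2', e3']
    have hv1 := hval.1
    by_cases h3 : B0 = 3
    · have h4 := hval.2 h3
      rw [if_pos h3] at hv1
      have h5 : (0 : ℝ) ≤ max 0 (1 - S) := le_max_left _ _
      constructor <;> linarith
    · rw [if_neg h3, max_self] at hv1
      constructor <;> linarith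
  · -- four primes
    have i1 := inv (a := 2) (b := 2) hsq hyN hne (by omega)
    rw [hk] at s5
    have c42 : Nat.choose 4 2 = 6 := by decide
    rw [c42] at s5
    have h1 : B4 + B3 = 3 := by omega
    have h2 : (B3 : ℝ) = 3 - B4 := by
      have : (B4 : ℝ) + B3 = 3 := by exact_mod_cast h1
      linarith
    have hE4v : E4 Q U N = 2 / 3 * B4 := by
      unfold E4
      rw [← e8, sum_filter, card_filter, Nat.cast_sum]
      congr 1
      apply sum_congr rfl
      intro j hj
      rw [Nat.mem_divisors] at hj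
      have h3 := w_add hsq hj.1
      rw [hf2 j hj.1, hf2 _ (Nat.div_dvd_of_dvd hj.1)]
      by_cases h4 : w j = 2
      · have h5 : w (N / j) = 2 := by omega
        simp [h4, h5]
      · simp [h4]
    have hS4 : S ≤ 4 := by
      have := hSbd.2
      rw [hk] at this
      exact_mod_cast this
    have hSB : 0 < B4 → 2 ≤ S := by
      intro h
      rw [← e8] at h
      obtain ⟨j, hj⟩ := card_pos.1 h
      rw [mem_filter, Nat.mem_divisors] at hj
      have h5 := hpair j hj.1.1 hj.2.1 hj.2.2
      have h6 := S2_add (A1 := A1) (A2 := A2) hsq hj.1.1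
      have h7 := (S2_bd A1 A2 (N / j)).1
      rw [hS]
      linarith
    have h45 : 1 - S + (B4 : ℝ) + (B3 : ℝ) * (1 / 3 * (S - 1)) = B4 * (4 - S) / 3 := by
      rw [h2]; ring
    simp only [hk]
    norm_num at e45 ⊢
    have hfin : 1 - S + (B4 : ℝ) + (∑ j ∈ N.divisors.filter (fun j => w j = 2 ∧ U < j ∧ j ≤ y), 1 / 3 * (S2 A1 A2 j - 1 / 2) +
      ∑ j ∈ N.divisors.filter (fun j => w j = 2 ∧ U < j ∧ j ≤ y), 1 / 3 * (S2 A1 A2 (N / j) - 1 / 2)) = B4 * (4 - S) / 3 := by
      rw [← h45, e45]
    have hB4 : (0 : ℝ) ≤ B4 := Nat.cast_nonneg _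
    have hlo : 0 ≤ (B4 : ℝ) * (4 - S) / 3 := by
      have : 0 ≤ (B4 : ℝ) * (4 - S) := mul_nonneg hB4 (by linarith)
      linarith
    have hhi : (B4 : ℝ) * (4 - S) / 3 ≤ 2 / 3 * B4 := by
      rcases Nat.eq_zero_or_pos B4 with h | h
      · rw [h]; norm_num
      · have h3 := hSB h
        have : (B4 : ℝ) * (4 - S) ≤ B4 * 2 := mul_le_mul_of_nonneg_left (by linarith) hB4
        linarith
    constructor <;> linarith
  · -- five primes
    rw [hk] at s5
    have c52 : Nat.choose 5 2 = 10 := by decide
    rw [c52] at s5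
    have h0 : #(N.divisors.filter (fun j => w j = 2 ∧ y < j)) = 0 := by
      rw [card_eq_zero]
      apply filter_eq_empty_iff.2
      rintro j hj ⟨h1, h2⟩
      rw [Nat.mem_divisors] at hj
      have h3 := w_add hsq hj.1
      have h4 := w_pow (rough_of_dvd hr (Nat.div_dvd_of_dvd hj.1))
      have h5 : w (N / j) = 3 := by omega
      rw [h5] at h4
      have h6 : Q * Q * Q ≤ (Q + 1) ^ 3 := by
        have : (Q + 1) ^ 3 = Q * Q * Q + (3 * (Q * Q) + 3 * Q + 1) := by ring
        omega
      exact hne j hj.1 ⟨h2.le, by omega⟩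
    have h1 : B4 + B3 = 10 := by omega
    have h2 : (B4 : ℝ) + B3 = 10 := by exact_mod_cast h1
    have h3 : pi5 Q N = 1 := by unfold pi5; rw [if_pos ⟨hsq, hr, hk⟩]
    have hS5 : S ≤ 5 := by
      have := hSbd.2
      rw [hk] at this
      exact_mod_cast this
    have hS0 := hSbd.1
    rw [h3]
    simp only [hk]
    norm_num
    constructor <;> linarith

end Pool.Agent.H568
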