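import Mathlib
import Pool.Agent.H568.C4
import Pool.Agent.H568.P1

/-!
The pointwise bounds for all numbers, for the upper bound function.
-/

set_option autoImplicit false

namespace Pool.Agent.H568

open Finset Pool.Agent.N792 Pool.Agent.N792.RX5
open Pool.Agent.N792.SwR (rough_of_dvd)
open ArithmeticFunction (moebius)

/-- **the pointwise inequalities for the good numbers** -/
theorem H2_good {z U y Q A1 A2 K N : ℕ} {zs : ℕ → ℕ} (hU : 1 ≤ U) (hA : A1 ≤ A2) (hAU : A2 ≤ U) (hQU : Q ≤ U) (hUy : U ≤ y)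
    (hz0 : zs 0 = z) (hzK : zs K = Q) (hmono0 : ∀ i < K, zs i ≤ zs (i + 1)) (hyN : y * y < N) (hN6 : N < Q ^ 6)
    (hUQ : U ≤ Q * A1) (hAAU : A1 * A2 * U < N) (hAAA : A2 * A2 * A2 < N) (hUUA : N ≤ U * U * A1) (hyQ : y ≤ Q * Q * Q)
    (hUUQ : U * U * Q < N)
    (hsq : Squarefree N) (hro : Rough z N) (hne : ∀ j, j ∣ N → ¬ (y ≤ j ∧ y ≤ N / j))
    (huniq : ∀ i < K, ∀ p q : ℕ, p.Prime → q.Prime → p ∣ N → q ∣ N → zs i < p → p ≤ zs (i + 1) → zs i < q →
      q ≤ zs (i + 1) → p = q) :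
    pi0 N ≤ H2 z U y Q A1 A2 K zs N ∧ H2 z U y Q A1 A2 K zs N ≤ pi0 N + W2 Q U A1 A2 N := by
  by_cases hQ : Rough Q N
  · exact H2_case2 hU hA hAU hUy hzK hmono0 hyN hN6 hUQ hAAU hAAA hUUA hyQ hsq hro hne hQ
  · have hp0 : ∀ j, Q ≤ U → U < j → pi0 j ≠ 0 → Rough Q j := fun j h1 h2 h3 => prime_rough (pi0_ne h3) (by omega)
    have hp1 : ∀ j, j ∣ N → j ≤ y → pi0 (N / j) ≠ 0 → Rough Q (N / j) := by
      intro j hj h1 h3
      refine prime_rough (pi0_ne h3) ?_
      by_contra h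
      push Not at h
      have := Nat.mul_div_cancel' hj
      have h4 : j * (N / j) ≤ y * y := Nat.mul_le_mul h1 (by omega)
      omega
    have hth : ∀ c d : ℝ, ∀ k, th Q A1 A2 c d k ≠ 0 → Rough Q k := fun c d k h => pi2_ne (left_ne_zero_of_mul h)
    have e1 : H2 z U y Q A1 A2 K zs N = 0 := by
      unfold H2
      rw [Sv_case1 (g2_mul Q A1 A2) hz0 hzK hmono0 hyN hUUQ hsq hro hne huniq hQ,
        T2_zero hro hQ (fun j _ h1 h2 => hp0 j hQU h1 h2) (fun j hj _ h1 h2 => hp1 j hj h1 h2),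
        T2_zero hro hQ (fun j _ h1 h2 => hp0 j hQU h1 h2) (fun j hj _ h1 h2 => hth _ _ _ h2),
        T2_zero hro hQ (fun j _ h1 h2 => hth _ _ _ h2) (fun j hj _ h1 h2 => hp1 j hj h1 h2),
        T2_zero hro hQ (fun j _ h1 h2 => hth _ _ _ h2) (fun j hj _ h1 h2 => pi2_ne h2),
        T2_zero hro hQ (fun j _ h1 h2 => pi2_ne h2) (fun j hj _ h1 h2 => hth _ _ _ h2),
        T2_zero hro hQ (fun j _ h1 h2 => pi2_ne h2) (fun j hj _ h1 h2 => pin_ne h2)]
      ring
    have h6 : pi0 N = 0 := by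
      by_contra h
      have h7 := pi0_ne h
      apply hQ
      refine prime_rough h7 ?_
      have h9 : y ≤ y * y := Nat.le_mul_self y
      omega
    have hW := W2_nonneg Q U A1 A2 N
    rw [e1, h6]
    constructor <;> linarith

lemma H2_abs (z U y Q A1 A2 K : ℕ) (zs : ℕ → ℕ) (hm : ∀ i < K, zs i ≤ zs (i + 1)) (N : ℕ) (hN : N ≠ 0) :
    |H2 z U y Q A1 A2 K zs N| ≤ 14 * (#N.divisors : ℝ) ^ 2 := by
  classical
  have hpi0 : ∀ j, |pi0 j| ≤ 1 := fun j => by rw [abs_of_nonneg (Pt.pi0_le j).1]; exact (Pt.pi0_le j).2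
  have hpi2 : ∀ j, |pi2 Q j| ≤ 1 := fun j => by rw [abs_of_nonneg (Pt.pi2_le Q j).1]; exact (Pt.pi2_le Q j).2
  have hpin : ∀ j, |pin Q 3 j| ≤ 1 := fun j => by rw [abs_of_nonneg (pin_le Q 3 j).1]; exact (pin_le Q 3 j).2
  have hD1 : (1 : ℝ) ≤ #N.divisors := by
    have : 1 ≤ #N.divisors := card_pos.2 ⟨1, by rw [Nat.mem_divisors]; exact ⟨one_dvd _, hN⟩⟩
    exact_mod_cast this
  have hDD : (#N.divisors : ℝ) ≤ (#N.divisors : ℝ) ^ 2 := le_self_pow₀ hD1 (by norm_num)
  -- functions bounded by two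
  have habs : ∀ f g : ℕ → ℝ, (∀ j, |f j| ≤ 2) → (∀ j, |g j| ≤ 1) → |T2 z U y f g N| ≤ 2 * #N.divisors ∧
      |T2 z U y g f N| ≤ 2 * #N.divisors := by
    intro f g hf hg
    have hrg := Shp.rg_abs z N
    constructor
    · unfold T2
      rw [abs_mul, abs_of_nonneg hrg.1]
      calc rg z N * |∑ j ∈ N.divisors.filter (fun j => U < j ∧ j ≤ y), f j * g (N / j)|
          ≤ 1 * ∑ j ∈ N.divisors.filter (fun j => U < j ∧ j ≤ y), |f j * g (N / j)| :=
            mul_le_mul hrg.2 (abs_sum_le_sum_abs _ _) (abs_nonneg _) zero_le_one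
        _ ≤ 1 * ∑ j ∈ N.divisors.filter (fun j => U < j ∧ j ≤ y), (2 : ℝ) := by
            apply mul_le_mul_of_nonneg_left _ zero_le_one
            apply sum_le_sum
            intro j _
            rw [abs_mul]
            calc |f j| * |g (N / j)| ≤ 2 * 1 := mul_le_mul (hf _) (hg _) (abs_nonneg _) (by norm_num)
              _ = 2 := by norm_num
        _ ≤ 2 * #N.divisors := by
            rw [one_mul, sum_const, nsmul_eq_mul, mul_comm]
            apply mul_le_mul_of_nonneg_left _ (by norm_num)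
            exact_mod_cast card_filter_le _ _
    · unfold T2
      rw [abs_mul, abs_of_nonneg hrg.1]
      calc rg z N * |∑ j ∈ N.divisors.filter (fun j => U < j ∧ j ≤ y), g j * f (N / j)|
          ≤ 1 * ∑ j ∈ N.divisors.filter (fun j => U < j ∧ j ≤ y), |g j * f (N / j)| :=
            mul_le_mul hrg.2 (abs_sum_le_sum_abs _ _) (abs_nonneg _) zero_le_one
        _ ≤ 1 * ∑ j ∈ N.divisors.filter (fun j => U < j ∧ j ≤ y), (2 : ℝ) := by
            apply mul_le_mul_of_nonneg_left _ zero_le_one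
            apply sum_le_sum
            intro j _
            rw [abs_mul]
            calc |g j| * |f (N / j)| ≤ 1 * 2 := mul_le_mul (hg _) (hf _) (abs_nonneg _) (by norm_num)
              _ = 2 := by norm_num
        _ ≤ 2 * #N.divisors := by
            rw [one_mul, sum_const, nsmul_eq_mul, mul_comm]
            apply mul_le_mul_of_nonneg_left _ (by norm_num)
            exact_mod_cast card_filter_le _ _
  have hth1 := th_abs Q A1 A2 (c := 1) (d := 1) (by norm_num) (by norm_num) (by norm_num) (by norm_num)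
  have hth2 := th_abs Q A1 A2 (c := 1 / 2) (d := 1 / 3) (by norm_num) (by norm_num) (by norm_num) (by norm_num)
  have t0 := Sv_abs le_rfl (g2_abs Q A1 A2) (z := z) (U := U) (y := y) hm hN
  have t3 := Pt.T2_abs1 z U y pi0 pi0 N hpi0 hpi0
  have t4 := (habs _ _ hth1 hpi0).1
  have t5 := (habs _ _ hth1 hpi0).2
  have t6 := (habs _ _ hth2 hpi2).1
  have t7 := (habs _ _ hth2 hpi2).2
  have t8 := Pt.T2_abs1 z U y (pi2 Q) (pin Q 3) N hpi2 hpin
  unfold H2
  rw [abs_le] at t0 t3 t4 t5 t6 t7 t8 ⊢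
  constructor <;> linarith

/-- **the pointwise bounds** -/
theorem pt2 (z U y Q A1 A2 K N : ℕ) (zs : ℕ → ℕ) (D : ℝ) (hU : 1 ≤ U) (hA : A1 ≤ A2) (hAU : A2 ≤ U) (hQU : Q ≤ U) (hUy : U ≤ y)
    (h0 : zs 0 = z) (hK : zs K = Q) (hm : ∀ i < K, zs i ≤ zs (i + 1)) (h1 : y * y < N) (h2 : N < Q ^ 6)
    (hUQ : U ≤ Q * A1) (hAAU : A1 * A2 * U < N) (hAAA : A2 * A2 * A2 < N) (hUUA : N ≤ U * U * A1) (hyQ : y ≤ Q * Q * Q)
    (hUUQ : U * U * Q < N)
    (hD : Rough z N → (#N.divisors : ℝ) ≤ D) :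
    |H2 z U y Q A1 A2 K zs N - max (H2 z U y Q A1 A2 K zs N) (pi0 N)| ≤ 16 * D ^ 2 * Bad z y Q K zs N ∧
    max (H2 z U y Q A1 A2 K zs N) (pi0 N) ≤ pi0 N + W2 Q U A1 A2 N + 16 * D ^ 2 * Bad z y Q K zs N := by
  classical
  have hmono : ∀ i i' : ℕ, i ≤ i' → i' ≤ K → zs i ≤ zs i' := by
    intro i i' h
    induction i', h using Nat.le_induction with
    | base => intro _; exact le_rfl
    | succ n hn ih =>
      intro hn2
      exact (ih (by omega)).trans (hm n (by omega))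
  have hzQ : z ≤ Q := by rw [← h0, ← hK]; exact hmono 0 K (by omega) le_rfl
  have hB := Pt.Bad_nonneg z y Q K zs N
  have hW := W2_nonneg Q U A1 A2 N
  have hN0 : N ≠ 0 := by omega
  have hyN : y < N := by nlinarith
  by_cases hr : Rough z N
  swap
  · have hrg : rg z N = 0 := by unfold rg; rw [if_neg hr]
    have hH : H2 z U y Q A1 A2 K zs N = 0 := by
      unfold H2
      rw [Sv_case0 hr]
      unfold T2
      simp [hrg]
    have hp0 : pi0 N = 0 := by
      unfold pi0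
      rw [if_neg]
      intro hp
      apply hr
      refine ⟨hN0, fun p hp' hd => ?_⟩
      rw [(Nat.prime_dvd_prime_iff_eq hp' hp).1 hd]
      omega
    have hpos : 0 ≤ 16 * D ^ 2 * Bad z y Q K zs N := by positivity
    rw [hH, hp0, max_self, sub_zero, abs_zero]
    constructor <;> linarith
  · have hD' := hD hr
    have hD1 : (1 : ℝ) ≤ D := by
      refine le_trans ?_ hD'
      have : 1 ≤ #N.divisors := card_pos.2 ⟨1, by rw [Nat.mem_divisors]; exact ⟨one_dvd _, hN0⟩⟩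
      exact_mod_cast this
    have g5 : (1 : ℝ) ≤ D ^ 2 := one_le_pow₀ hD1
    rcases good_or_bad (y := y) hK hm hr with hb | ⟨hsq, hne, huniq⟩
    · have g1 := H2_abs z U y Q A1 A2 K zs hm N hN0
      have g2 : (#N.divisors : ℝ) ^ 2 ≤ D ^ 2 := pow_le_pow_left₀ (Nat.cast_nonneg _) hD' 2
      have g6 : 16 * D ^ 2 * 1 ≤ 16 * D ^ 2 * Bad z y Q K zs N := mul_le_mul_of_nonneg_left hb (by positivity)
      have g7 := Pt.pi0_le N
      have g8 := abs_le.1 g1
      have g9 : max (H2 z U y Q A1 A2 K zs N) (pi0 N) ≤ 14 * D ^ 2 := max_le (by linarith) (by linarith)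
      have g10 : pi0 N ≤ max (H2 z U y Q A1 A2 K zs N) (pi0 N) := le_max_right _ _
      have g11 : H2 z U y Q A1 A2 K zs N ≤ max (H2 z U y Q A1 A2 K zs N) (pi0 N) := le_max_left _ _
      constructor
      · rw [abs_of_nonpos (by linarith)]
        rcases max_choice (H2 z U y Q A1 A2 K zs N) (pi0 N) with h | h
        · rw [h]; linarith
        · rw [h]; linarith
      · linarith
    · obtain ⟨k1, k2⟩ := H2_good hU hA hAU hQU hUy h0 hK hm h1 h2 hUQ hAAU hAAA hUUA hyQ hUUQ hsq hr hne huniq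
      have hpos : 0 ≤ 16 * D ^ 2 * Bad z y Q K zs N := by positivity
      rw [max_eq_left k1, sub_self, abs_zero]
      constructor <;> linarith

end Pool.Agent.H568
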