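import Mathlib
import Pool.Graph.R_pool_sql_team_seeded_63374d34.N792.RPar

/-!
The parameters for the upper bound, `C ≥ x^(2/3 + ε)`.
-/

set_option autoImplicit false

namespace Pool.Agent.H568

open Finset Filter Topology Pool.Agent.N792

lemma floor_half {t : ℝ} (h : 1 ≤ t) : t / 2 ≤ (⌊t⌋₊ : ℝ) := by
  have h1 := Nat.lt_floor_add_one t
  have h2 : (1 : ℝ) ≤ (⌊t⌋₊ : ℝ) := by
    have : 1 ≤ ⌊t⌋₊ := Nat.le_floor (by exact_mod_cast h)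
    exact_mod_cast this
  linarith

/-- the sizes -/
lemma params11 (e ε c0 A : ℝ) (he : 0 < e) (he1 : e ≤ 1 / 100) (hε : 0 < ε) (hε1 : ε ≤ 1 / 100) (hc0 : 0 < c0) (hA : 1 ≤ A) :
    ∀ᶠ x : ℕ in atTop, ∃ U y Q A1 A2 : ℕ, 1 ≤ U ∧ A1 ≤ A2 ∧ A2 ≤ U ∧ Q ≤ U ∧ U ≤ y ∧ (y : ℝ) ≤ (x : ℝ) ^ (1 - ε) ∧
      (x : ℝ) ^ (1 - 2 * ε) ≤ y ∧ (x : ℝ) ^ (5 / 6 - e) ≤ U ∧ (U : ℝ) ≤ (x : ℝ) ^ (5 / 6 : ℝ) ∧
      (x : ℝ) ^ (1 / 3 : ℝ) ≤ Q ∧ (Q : ℝ) ≤ (x : ℝ) ^ (9 / 20 : ℝ) ∧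
      (x : ℝ) ^ (1 / 2 - e) < A1 + 1 ∧ (x : ℝ) ^ (2 / 3 - e) < A2 + 1 ∧
      ((Q * Q : ℕ) : ℝ) ≤ (x : ℝ) ^ (9 / 10 : ℝ) ∧ ((y * y : ℕ) : ℝ) ≤ c0 * x ^ 2 ∧ A * (x : ℝ) ^ 2 < ((Q ^ 6 : ℕ) : ℝ) ∧
      ((U * U * Q : ℕ) : ℝ) ≤ c0 * x ^ 2 ∧ U ≤ Q * A1 ∧ ((A1 * A2 * U : ℕ) : ℝ) ≤ c0 * x ^ 2 ∧
      ((A2 * A2 * A2 : ℕ) : ℝ) ≤ c0 * x ^ 2 ∧ A * (x : ℝ) ^ 2 ≤ ((U * U * A1 : ℕ) : ℝ) ∧ y ≤ Q * Q * Q := by
  filter_upwards [Lam.pow_ev 2 (5 / 6 - e) (5 / 6) (by linarith), Lam.pow_ev 2 (1 - 2 * ε) (1 - ε) (by linarith),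
    Lam.pow_ev (1 / c0) (2 - 2 * ε) 2 (by linarith), Lam.pow_ev 2 (1 / 3 + e) (9 / 20) (by linarith),
    Lam.pow_ev (2 / c0) (2 - 3 * e) 2 (by linarith), Lam.pow_ev (2 * A) 2 (2 + 6 * e) (by linarith),
    Lam.pow_ev 4 (5 / 6 - e) (5 / 6) (by linarith), Lam.pow_ev (2 * A) 2 (13 / 6 - 3 * e) (by linarith),
    Lam.pow_ev (8 / c0) (2 - e) 2 (by linarith),
    Lam.pow_ev 2 (1 / 3 + e) (5 / 6 - e) (by linarith), Lam.pow_ev 2 (5 / 6 - e) (1 - ε) (by linarith),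
    eventually_ge_atTop 1] with x h1 h2 h3 h4 h5 h6 h7 h8 h9 h11 h12 hx1
  have hxr : (1 : ℝ) ≤ x := by exact_mod_cast hx1
  have hxp : (0 : ℝ) < x := by linarith
  have x2 : (x : ℝ) ^ (2 : ℝ) = (x : ℝ) ^ 2 := by norm_cast
  rw [x2] at h3 h5 h6 h8 h9
  obtain ⟨U, hU⟩ : ∃ U : ℕ, U = ⌈(x : ℝ) ^ (5 / 6 - e)⌉₊ := ⟨_, rfl⟩
  obtain ⟨Q, hQ⟩ : ∃ Q : ℕ, Q = ⌈(x : ℝ) ^ (1 / 3 + e)⌉₊ := ⟨_, rfl⟩
  obtain ⟨A1, hA1⟩ : ∃ A1 : ℕ, A1 = ⌊(x : ℝ) ^ (1 / 2 - e)⌋₊ := ⟨_, rfl⟩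
  obtain ⟨A2, hA2⟩ : ∃ A2 : ℕ, A2 = ⌊(x : ℝ) ^ (2 / 3 - e)⌋₊ := ⟨_, rfl⟩
  obtain ⟨y, hy⟩ : ∃ y : ℕ, y = ⌊(x : ℝ) ^ (1 - ε)⌋₊ := ⟨_, rfl⟩
  have hU1 : (x : ℝ) ^ (5 / 6 - e) ≤ U := by rw [hU]; exact Nat.le_ceil _
  have hQ1 : (x : ℝ) ^ (1 / 3 + e) ≤ Q := by rw [hQ]; exact Nat.le_ceil _
  have hU2 : (U : ℝ) ≤ 2 * (x : ℝ) ^ (5 / 6 - e) := by rw [hU]; exact Par.ceil_pow hx1 (by linarith)
  have hQ2 : (Q : ℝ) ≤ 2 * (x : ℝ) ^ (1 / 3 + e) := by rw [hQ]; exact Par.ceil_pow hx1 (by linarith)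
  have hy1 : (y : ℝ) ≤ (x : ℝ) ^ (1 - ε) := by rw [hy]; exact Nat.floor_le (by positivity)
  have hy2 : (x : ℝ) ^ (1 - ε) < y + 1 := by rw [hy]; exact Nat.lt_floor_add_one _
  have k2 : (1 : ℝ) ≤ (x : ℝ) ^ (1 - 2 * ε) := Real.one_le_rpow hxr (by linarith)
  have kU : (1 : ℝ) ≤ (x : ℝ) ^ (5 / 6 - e) := Real.one_le_rpow hxr (by linarith)
  have kA1 : (1 : ℝ) ≤ (x : ℝ) ^ (1 / 2 - e) := Real.one_le_rpow hxr (by linarith)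
  have hA1u : (A1 : ℝ) ≤ (x : ℝ) ^ (1 / 2 - e) := by rw [hA1]; exact Nat.floor_le (by positivity)
  have hA2u : (A2 : ℝ) ≤ (x : ℝ) ^ (2 / 3 - e) := by rw [hA2]; exact Nat.floor_le (by positivity)
  have hA1l : (x : ℝ) ^ (1 / 2 - e) < A1 + 1 := by rw [hA1]; exact Nat.lt_floor_add_one _
  have hA2l : (x : ℝ) ^ (2 / 3 - e) < A2 + 1 := by rw [hA2]; exact Nat.lt_floor_add_one _
  have hA1h : (x : ℝ) ^ (1 / 2 - e) / 2 ≤ A1 := by rw [hA1]; exact floor_half kA1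
  have hQ6 : (x : ℝ) ^ (2 + 6 * e) ≤ (Q : ℝ) ^ 6 := by
    calc (x : ℝ) ^ (2 + 6 * e) = ((x : ℝ) ^ (1 / 3 + e)) ^ 6 := by
          rw [← Real.rpow_natCast, ← Real.rpow_mul hxp.le]; congr 1; push_cast; ring
      _ ≤ (Q : ℝ) ^ 6 := pow_le_pow_left₀ (by positivity) hQ1 6
  refine ⟨U, y, Q, A1, A2, ?_, ?_, ?_, ?_, ?_, hy1, ?_, hU1, hU2.trans h1, ?_, hQ2.trans h4, hA1l, hA2l, ?_, ?_, ?_, ?_, ?_,
    ?_, ?_, ?_, ?_⟩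
  · have : (1 : ℝ) ≤ U := kU.trans hU1
    exact_mod_cast this
  · rw [hA1, hA2]
    exact Nat.floor_le_floor (Real.rpow_le_rpow_of_exponent_le hxr (by linarith))
  · have : (A2 : ℝ) ≤ U := hA2u.trans ((Real.rpow_le_rpow_of_exponent_le hxr (by linarith)).trans hU1)
    exact_mod_cast this
  · have : (Q : ℝ) ≤ U := (hQ2.trans h11).trans hU1
    exact_mod_cast this
  · rw [hy]
    exact Nat.le_floor (hU2.trans h12)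
  · linarith
  · exact (Real.rpow_le_rpow_of_exponent_le hxr (by linarith)).trans hQ1
  · push_cast
    calc (Q : ℝ) * Q ≤ (x : ℝ) ^ (9 / 20 : ℝ) * (x : ℝ) ^ (9 / 20 : ℝ) :=
          mul_le_mul (hQ2.trans h4) (hQ2.trans h4) (Nat.cast_nonneg _) (by positivity)
      _ = (x : ℝ) ^ (9 / 10 : ℝ) := by rw [← Real.rpow_add hxp]; norm_num
  · push_cast
    rw [div_mul_eq_mul_div, one_mul, div_le_iff₀ hc0] at h3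
    calc (y : ℝ) * y ≤ (x : ℝ) ^ (1 - ε) * (x : ℝ) ^ (1 - ε) := by gcongr
      _ = (x : ℝ) ^ (2 - 2 * ε) := by rw [← Real.rpow_add hxp]; congr 1; ring
      _ ≤ c0 * x ^ 2 := by linarith
  · push_cast
    have : (0 : ℝ) < (x : ℝ) ^ 2 := by positivity
    have : A * (x : ℝ) ^ 2 < 2 * A * (x : ℝ) ^ 2 := by nlinarith
    linarith
  · push_cast
    rw [div_mul_eq_mul_div, div_le_iff₀ hc0] at h9
    calc (U : ℝ) * U * Q ≤ (2 * (x : ℝ) ^ (5 / 6 - e)) * (2 * (x : ℝ) ^ (5 / 6 - e)) * (2 * (x : ℝ) ^ (1 / 3 + e)) := by gcongr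
      _ = 8 * ((x : ℝ) ^ (5 / 6 - e) * (x : ℝ) ^ (5 / 6 - e) * (x : ℝ) ^ (1 / 3 + e)) := by ring
      _ = 8 * (x : ℝ) ^ (2 - e) := by
          rw [← Real.rpow_add hxp, ← Real.rpow_add hxp]
          congr 2
          ring
      _ ≤ c0 * x ^ 2 := by linarith
  · have : (U : ℝ) ≤ ((Q * A1 : ℕ) : ℝ) := by
      push_cast
      calc (U : ℝ) ≤ 2 * (x : ℝ) ^ (5 / 6 - e) := hU2
        _ = 4 * (x : ℝ) ^ (5 / 6 - e) / 2 := by ring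
        _ ≤ (x : ℝ) ^ (5 / 6 : ℝ) / 2 := div_le_div_of_nonneg_right h7 (by norm_num)
        _ = (x : ℝ) ^ (1 / 3 + e) * ((x : ℝ) ^ (1 / 2 - e) / 2) := by
            rw [mul_div_assoc', ← Real.rpow_add hxp]
            congr 2
            ring
        _ ≤ (Q : ℝ) * A1 := mul_le_mul hQ1 hA1h (by positivity) (Nat.cast_nonneg _)
    exact_mod_cast this
  · push_cast
    rw [div_mul_eq_mul_div, div_le_iff₀ hc0] at h5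
    calc (A1 : ℝ) * A2 * U ≤ (x : ℝ) ^ (1 / 2 - e) * (x : ℝ) ^ (2 / 3 - e) * (2 * (x : ℝ) ^ (5 / 6 - e)) := by gcongr
      _ = 2 * ((x : ℝ) ^ (1 / 2 - e) * (x : ℝ) ^ (2 / 3 - e) * (x : ℝ) ^ (5 / 6 - e)) := by ring
      _ = 2 * (x : ℝ) ^ (2 - 3 * e) := by
          rw [← Real.rpow_add hxp, ← Real.rpow_add hxp]
          congr 2
          ring
      _ ≤ c0 * x ^ 2 := by linarith
  · push_cast
    rw [div_mul_eq_mul_div, div_le_iff₀ hc0] at h5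
    have h0 : (0 : ℝ) < (x : ℝ) ^ (2 - 3 * e) := by positivity
    calc (A2 : ℝ) * A2 * A2 ≤ (x : ℝ) ^ (2 / 3 - e) * (x : ℝ) ^ (2 / 3 - e) * (x : ℝ) ^ (2 / 3 - e) := by gcongr
      _ = (x : ℝ) ^ (2 - 3 * e) := by
          rw [← Real.rpow_add hxp, ← Real.rpow_add hxp]
          congr 1
          ring
      _ ≤ c0 * x ^ 2 := by linarith
  · push_cast
    calc A * (x : ℝ) ^ 2 = 2 * A * (x : ℝ) ^ 2 / 2 := by ring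
      _ ≤ (x : ℝ) ^ (13 / 6 - 3 * e) / 2 := div_le_div_of_nonneg_right h8 (by norm_num)
      _ = (x : ℝ) ^ (5 / 6 - e) * (x : ℝ) ^ (5 / 6 - e) * ((x : ℝ) ^ (1 / 2 - e) / 2) := by
          rw [mul_div_assoc', ← Real.rpow_add hxp, ← Real.rpow_add hxp]
          congr 2
          ring
      _ ≤ (U : ℝ) * U * A1 := by gcongr
  · have : (y : ℝ) ≤ ((Q * Q * Q : ℕ) : ℝ) := by
      push_cast
      calc (y : ℝ) ≤ (x : ℝ) ^ (1 - ε) := hy1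
        _ ≤ (x : ℝ) ^ (1 + 3 * e) := Real.rpow_le_rpow_of_exponent_le hxr (by linarith)
        _ = (x : ℝ) ^ (1 / 3 + e) * (x : ℝ) ^ (1 / 3 + e) * (x : ℝ) ^ (1 / 3 + e) := by
            rw [← Real.rpow_add hxp, ← Real.rpow_add hxp]
            congr 1
            ring
        _ ≤ (Q : ℝ) * Q * Q := by gcongr
    exact_mod_cast this

end Pool.Agent.H568
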