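import Mathlib
import Pool.Agent.H568.La
import Pool.Agent.H568.Mn9
import Pool.Agent.H568.P2
import Pool.Agent.H568.Pr2
import Pool.Graph.R_pool_sql_team_seeded_63374d34.N791.U.Con9U

/-!
The upper bound for the primes, for almost all `c ≤ C`, `C ≥ x^(2/3+ε)`, uniformly in `b`.
-/

set_option autoImplicit false

namespace Pool.Agent.H568

open Finset Filter Topology Pool.Agent.N792 Pool.Agent.N791.U

/-- a majorant of the indicator function of the primes -/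
def UpG (a : ℤ) (Λ : ℝ) : Prop := ∃ As : ℕ, ∀ E R : ℕ, ∀ ε κ K1 : ℝ, 0 < ε → 0 < κ → 1 ≤ K1 →
    ∃ η1 : ℝ, 0 < η1 ∧ η1 ≤ 1 / 20 ∧ ∃ x0 : ℕ, ∀ x : ℕ, x0 ≤ x → ∀ J : ℕ,
    (x : ℝ) ^ (η1 / 2) ≤ ((2 ^ 2 ^ J : ℕ) : ℝ) → ((2 ^ 2 ^ J : ℕ) : ℝ) ≤ (x : ℝ) ^ η1 →
    ∃ G : ℕ → ℝ, (∀ N, pi0 N ≤ G N) ∧
    (∀ b : ℤ, (b : ℝ) ^ 2 ≤ Λ * x → ∀ x1 x2 : ℕ, x1 < x2 → x2 ≤ x → x ≤ R * x1 →
      Ls a b x1 x2 G ≤ Ls a b x1 x2 pi0 + 1 / 3 * (((x2 : ℝ) - x1) / Real.log x) + κ * (x / Real.log x)) ∧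
    ∀ b : ℤ, ∀ x1 C Jw : ℕ, (b : ℝ) ^ 2 ≤ Λ * C → x1 < x → x ≤ R * x1 → (x : ℝ) ^ (2 / 3 + ε) ≤ C → C ≤ x →
    Real.log x ^ As ≤ ((2 ^ 2 ^ Jw : ℕ) : ℝ) → ((2 ^ 2 ^ Jw : ℕ) : ℝ) ≤ Real.log x ^ E →
    ∀ Gd ⊆ Icc 1 C, (∀ c ∈ Gd, |Vc a b c (2 ^ 2 ^ J) * V1 (2 ^ 2 ^ Jw) - Vc a b c (2 ^ 2 ^ Jw) * V1 (2 ^ 2 ^ J)| ≤
      Vc a b c (2 ^ 2 ^ Jw) * V1 (2 ^ 2 ^ J) / Real.log x ^ 3) → (∀ c ∈ Gd, Vc a b c (2 ^ 2 ^ Jw) / V1 (2 ^ 2 ^ Jw) ≤ K1) →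
    ∑ c ∈ Gd, |Phi a b x1 x c (2 ^ 2 ^ Jw) G| ≤ κ * (C * x / Real.log x)

/-- the list of the type II functions of `H2` -/
noncomputable def l2 (U Q A1 A2 : ℕ) : List (ℝ × (ℕ → ℝ) × ℕ × (ℕ → ℝ)) :=
  [(-1, pi0, U, pi0), (1, pi0, U, th Q A1 A2 1 1), (1, th Q A1 A2 1 1, U, pi0), (1, th Q A1 A2 (1 / 2) (1 / 3), U, pi2 Q),
    (1, pi2 Q, U, th Q A1 A2 (1 / 2) (1 / 3)), (1, pi2 Q, U, pin Q 3)]

lemma H2_eq (z U y Q A1 A2 K : ℕ) (zs : ℕ → ℕ) (N : ℕ) :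
    H2 z U y Q A1 A2 K zs N = Sv (g2 Q A1 A2) z U y K zs N + Lt z y (l2 U Q A1 A2) N := by
  unfold H2 l2 Lt
  simp only [List.map_cons, List.map_nil, List.sum_cons, List.sum_nil]
  ring

theorem upG (a : ℤ) (ha : 0 < a) (Λ : ℝ) (hΛ : 1 ≤ Λ) (hG : LamG a Λ) : UpG a Λ := by
  obtain ⟨As, hG⟩ := hG
  refine ⟨As, fun E R ε κ K1 hε hκ hK1 => ?_⟩
  obtain ⟨ε0, hε0, hε0ε, hε03⟩ : ∃ ε0 : ℝ, 0 < ε0 ∧ ε0 ≤ ε ∧ ε0 ≤ 1 / 3 :=
    ⟨min ε (1 / 3), by positivity, min_le_left _ _, min_le_right _ _⟩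
  obtain ⟨η1, e2, D, c0, A, K, x0, hη1, hη12, he2, he22, hD1, hc0, hA, hG⟩ :=
    hG E R 16 6 (2 / 3) ε0 (κ / 2) K1 le_rfl hε0 (by linarith) (by positivity) hK1 (by norm_num)
  obtain ⟨c0', A', hc0', hA', X0, hX0⟩ := range_bdU a ha Λ hΛ R
  obtain ⟨e, he, he1, he3, he4⟩ : ∃ e : ℝ, 0 < e ∧ e ≤ 1 / 100 ∧ e ≤ ε0 / 2 ∧ e ≤ 1 / 5000 :=
    ⟨min (1 / 5000) (ε0 / 2), by positivity, (min_le_left _ _).trans (by norm_num), min_le_right _ _, min_le_left _ _⟩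
  have hev := (params11 e e2 (min c0 c0') (max A A') he he1 he2 (by linarith) (lt_min hc0 hc0') (le_max_of_le_left hA)).and
    ((ls_W2 a ha Λ hΛ R (κ / 2) (by positivity) e he4).and (eventually_ge_atTop ⌈max A A'⌉₊))
  obtain ⟨xe, hxe⟩ := eventually_atTop.1 hev
  refine ⟨η1, hη1, hη12, max (max x0 X0) (max xe 2), ?_⟩
  intro x hx J hz1 hz2
  obtain ⟨⟨U, y, Q, A1, A2, hU1, hA12, hA2U, hQU, hUy, hyhi, hylo, hUlo, hUhi, hQlo, hQhi, hA1l, hA2l, hQQ, hyy, hQ6, hUUQ,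
    hUQA, hAAU, hAAA, hUUA, hyQ⟩, hW2, hAx⟩ := hxe x (by omega)
  have hx2 : 2 ≤ x := by omega
  have hxr : (1 : ℝ) ≤ x := by exact_mod_cast (by omega : 1 ≤ x)
  have hx2' : (0 : ℝ) ≤ (x : ℝ) ^ 2 := by positivity
  obtain ⟨hDv, hG⟩ := hG x (by omega) J hz1 hz2
  obtain ⟨zs, h0, hK, hm, hBad, hmain⟩ := hG U y Q hU1 hUy hyhi hylo
    ((Real.rpow_le_rpow_of_exponent_le hxr (by linarith)).trans hUlo)
    (hUhi.trans (Real.rpow_le_rpow_of_exponent_le hxr (by norm_num)))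
    ((Real.rpow_le_rpow_of_exponent_le hxr (by norm_num)).trans hQlo) hQhi hQQ
  obtain ⟨z, hz⟩ : ∃ z : ℕ, z = 2 ^ 2 ^ J := ⟨_, rfl⟩
  rw [← hz] at h0 hBad hmain hDv
  -- the pointwise bounds
  have hptw : ∀ N : ℕ, min c0 c0' * (x : ℝ) ^ 2 < N → (N : ℝ) ≤ max A A' * (x : ℝ) ^ 2 →
      (Rough z N → (#N.divisors : ℝ) ≤ D) →
      |H2 z U y Q A1 A2 K zs N - max (H2 z U y Q A1 A2 K zs N) (pi0 N)| ≤ 16 * D ^ 2 * Bad z y Q K zs N ∧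
      max (H2 z U y Q A1 A2 K zs N) (pi0 N) ≤ pi0 N + W2 Q U A1 A2 N + 16 * D ^ 2 * Bad z y Q K zs N := by
    intro N hN1 hN2 hND
    refine pt2 z U y Q A1 A2 K N zs D hU1 hA12 hA2U hQU hUy h0 hK hm ?_ ?_ hUQA ?_ ?_ ?_ hyQ ?_ hND
    · have : ((y * y : ℕ) : ℝ) < N := lt_of_le_of_lt hyy hN1
      exact_mod_cast this
    · have : (N : ℝ) < ((Q ^ 6 : ℕ) : ℝ) := lt_of_le_of_lt hN2 hQ6
      exact_mod_cast this
    · have : ((A1 * A2 * U : ℕ) : ℝ) < N := lt_of_le_of_lt hAAU hN1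
      exact_mod_cast this
    · have : ((A2 * A2 * A2 : ℕ) : ℝ) < N := lt_of_le_of_lt hAAA hN1
      exact_mod_cast this
    · have : (N : ℝ) ≤ ((U * U * A1 : ℕ) : ℝ) := hN2.trans hUUA
      exact_mod_cast this
    · have : ((U * U * Q : ℕ) : ℝ) < N := lt_of_le_of_lt hUUQ hN1
      exact_mod_cast this
  have hmm1 : min c0 c0' * (x : ℝ) ^ 2 ≤ c0 * (x : ℝ) ^ 2 := mul_le_mul_of_nonneg_right (min_le_left _ _) hx2'
  have hmm2 : min c0 c0' * (x : ℝ) ^ 2 ≤ c0' * (x : ℝ) ^ 2 := mul_le_mul_of_nonneg_right (min_le_right _ _) hx2'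
  have hmm3 : A * (x : ℝ) ^ 2 ≤ max A A' * (x : ℝ) ^ 2 := mul_le_mul_of_nonneg_right (le_max_left _ _) hx2'
  have hmm4 : A' * (x : ℝ) ^ 2 ≤ max A A' * (x : ℝ) ^ 2 := mul_le_mul_of_nonneg_right (le_max_right _ _) hx2'
  refine ⟨fun N => max (H2 z U y Q A1 A2 K zs N) (pi0 N), fun N => le_max_right _ _, ?_, ?_⟩
  · intro b hb x1 x2 h12 h2x hxR
    obtain ⟨hbx2, hr1, hr2⟩ := hX0 x (by omega) b hb x1 (by omega) hxR
    have hB := hBad b hb x1 x2 h12 h2x hxR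
    have hW := hW2 b hb x1 x2 h12 h2x hxR Q U A1 A2 hQlo hA12 hUhi hA1l hA2l
    have hAx' : max A A' ≤ (x : ℝ) := (Nat.le_ceil _).trans (by exact_mod_cast hAx)
    have hle : Ls a b x1 x2 (fun N => max (H2 z U y Q A1 A2 K zs N) (pi0 N)) ≤
        Ls a b x1 x2 pi0 + Ls a b x1 x2 (W2 Q U A1 A2) + 16 * D ^ 2 * Ls a b x1 x2 (Bad z y Q K zs) := by
      unfold Ls
      rw [mul_sum, ← sum_add_distrib, ← sum_add_distrib]
      apply sum_le_sum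
      intro N hN
      rw [mem_Ioc] at hN
      have hw0 := Mtm.hw_nonneg a N
      have hF2 : Fn a b x2 ≤ Fn a b x := Mtm.Fn_mono ha (by omega) h2x
      have b1 : c0' * (x : ℝ) ^ 2 < N := lt_of_le_of_lt hr1 (by exact_mod_cast hN.1)
      have b2 : (N : ℝ) ≤ A' * (x : ℝ) ^ 2 := by
        have : (N : ℝ) ≤ ((Fn a b x : ℕ) : ℝ) + x := by
          have h1 : (N : ℝ) ≤ ((Fn a b x : ℕ) : ℝ) := by exact_mod_cast hN.2.trans hF2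
          have h2 : (0 : ℝ) ≤ x := Nat.cast_nonneg _
          linarith
        linarith
      have b1' : min c0 c0' * (x : ℝ) ^ 2 < N := by linarith
      have b2' : (N : ℝ) ≤ max A A' * (x : ℝ) ^ 2 := by linarith
      obtain ⟨l1, l2, l3⟩ := Lam.log_bd (lt_min hc0 hc0') (le_max_of_le_left hA) (by omega) b1'.le b2' hAx'
      have := (hptw N b1' b2' (fun hr => hDv N l3 hr)).2
      calc max (H2 z U y Q A1 A2 K zs N) (pi0 N) * hw a N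
          ≤ (pi0 N + W2 Q U A1 A2 N + 16 * D ^ 2 * Bad z y Q K zs N) * hw a N := mul_le_mul_of_nonneg_right this hw0
        _ = pi0 N * hw a N + W2 Q U A1 A2 N * hw a N + 16 * D ^ 2 * (Bad z y Q K zs N * hw a N) := by ring
    push_cast at hB
    linarith
  · intro b x1 C Jw hbC hx1 hxR hC hCx hw1 hw2 Gd hGd hGd2 hGd3
    have hC' : (x : ℝ) ^ (2 / 3 + ε0) ≤ C := (Real.rpow_le_rpow_of_exponent_le hxr (by linarith)).trans hC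
    have := hmain (g2 Q A1 A2) (fun N => max (H2 z U y Q A1 A2 K zs N) (pi0 N)) (l2 U Q A1 A2) (g2_abs Q A1 A2)
      (g2_sq Q A1 A2)
      (fun m hm => (SL_g2 Q hA12 m hm).mono (by norm_num)) (by simp [l2]) (by
        intro t ht
        unfold l2 at ht
        simp only [List.mem_cons, List.not_mem_nil, or_false] at ht
        have o0 : Ok 16 pi0 := Ok_pi0.mono (by norm_num)
        have o2 : Ok 16 (pi2 Q) := (Ok_pi2 Q).mono (by norm_num)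
        have o3 : Ok 16 (pin Q 3) := (Ok_pin Q 3).mono (by norm_num)
        have o4 : Ok 16 (th Q A1 A2 1 1) :=
          (Ok_th Q hA12 (by norm_num) (by norm_num) (by norm_num) (by norm_num)).mono (by norm_num)
        have o5 : Ok 16 (th Q A1 A2 (1 / 2) (1 / 3)) :=
          (Ok_th Q hA12 (by norm_num) (by norm_num) (by norm_num) (by norm_num)).mono (by norm_num)
        rcases ht with rfl | rfl | rfl | rfl | rfl | rfl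
        · exact ⟨by norm_num, o0, le_rfl, hUy, o0⟩
        · exact ⟨by norm_num, o0, le_rfl, hUy, o4⟩
        · exact ⟨by norm_num, o4, le_rfl, hUy, o0⟩
        · exact ⟨by norm_num, o5, le_rfl, hUy, o2⟩
        · exact ⟨by norm_num, o2, le_rfl, hUy, o5⟩
        · exact ⟨by norm_num, o2, le_rfl, hUy, o3⟩) (by
        intro N hN1 hN2 hND
        rw [← H2_eq]
        have := (hptw N (by linarith) (by linarith) hND).1
        push_cast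
        exact this) b x1 C Jw hbC hx1 hxR hC' hCx hw1 hw2 Gd hGd (by rw [hz]; exact hGd2) hGd3
    refine this.trans ?_
    apply mul_le_mul_of_nonneg_right (by linarith)
    have : 0 ≤ Real.log x := Real.log_nonneg hxr
    positivity

end Pool.Agent.H568
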