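import Mathlib
import Pool.Agent.H568.Cn
import Pool.Agent.H568.Up

/-!
The upper bound for the number of the prime values for almost all `c ≤ C`, `C ≥ x^(2/3+ε)`, uniformly in `b`.
-/

set_option autoImplicit false

namespace Pool.Agent.H568

open Finset Filter Topology Pool.Agent.N792 Pool.Agent.N791.U Pool.Agent.N792.Fn124 Pool.Agent.N792.F9

/-- the argument for one `c`, upper bound -/
lemma one_cU {a b : ℤ} (ha : 0 < a) {c x R w : ℕ} {G : ℕ → ℝ} (hG : ∀ N, pi0 N ≤ G N) {L S M β θ lam η k : ℝ} (hk0 : 0 ≤ k)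
    (hk1 : k ≤ 2) (hR : 2 < R) (hx : 1 ≤ x) (hL0 : 0 < L)
    (hθ : 0 < θ) (hβ0 : 0 < β) (hβ1 : β ≤ 1 / 2) (hlam : lam = β * θ) (hS : S = Vc a b c w / V1 w) (hSθ : θ ≤ S)
    (hg : (x : ℝ) / R + 1 ≤ 2 * β * x) (hη : 40 * β ≤ η) (hb : b.natAbs ≤ xg x R 1)
    (hPhi : ∀ i, 1 ≤ i → i < R → |Phi a b (xg x R i) x c w G| ≤ lam * (x / L))
    (h5 : (#((Icc 1 (xg x R 1)).filter (fun m : ℕ => (fv a b c m).toNat.Prime)) : ℝ) ≤ 4 * lam * x / L)
    (hLs : ∀ i j, 1 ≤ i → i ≤ j → j ≤ R → xg x R i < xg x R j →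
      Ls a b (xg x R i) (xg x R j) G ≤ k / 2 * (((xg x R j : ℝ) - xg x R i) / L) + 3 * β * (x / L))
    (hM : |M - S| ≤ S / L ^ 3) (hL3 : 1 / L ^ 3 ≤ β)
    (hli : ∀ u v : ℕ, u ≤ v → v ≤ x →
      |∑ m ∈ Ioc u v, 1 / Real.log ((a : ℝ) * m ^ 2 + b * m + c) - ((v : ℝ) - u) / (2 * L)| ≤ β * (x / L))
    (u v : ℕ) (huv : u ≤ v) (hvx : v ≤ x) :
    (Pc a b c u v : ℝ) ≤ k * (M * ∑ m ∈ Ioc u v, 1 / Real.log ((a : ℝ) * m ^ 2 + b * m + c)) + η * (M * x / L) := by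
  have hR1 : 1 ≤ R := by omega
  have hxr : (0 : ℝ) < x := by exact_mod_cast (by omega : 0 < x)
  have hRr : (0 : ℝ) < R := by exact_mod_cast (by omega : 0 < R)
  have hS0 : 0 < S := lt_of_lt_of_le hθ hSθ
  have hX : 0 < (x : ℝ) / L := by positivity
  have hSL : S / L ^ 3 ≤ β * S := by
    calc S / L ^ 3 = 1 / L ^ 3 * S := by ring
      _ ≤ β * S := by gcongr
  have hM1 := abs_le.1 (hM.trans hSL)
  have hβS : β * S ≤ 1 / 2 * S := by gcongr
  have hMlo : S ≤ 2 * M := by linarith [hM1.1]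
  have hMlo' : S ≤ M + β * S := by linarith [hM1.1]
  have hM0 : 0 < M := by linarith
  obtain ⟨X, hXdef⟩ : ∃ X : ℝ, X = x / L := ⟨_, rfl⟩
  obtain ⟨D, hD⟩ : ∃ D : ℝ, D = ((v : ℝ) - u) / L := ⟨_, rfl⟩
  have huvr : (u : ℝ) ≤ v := by exact_mod_cast huv
  have hvr : (v : ℝ) ≤ x := by exact_mod_cast hvx
  have hur : (0 : ℝ) ≤ u := Nat.cast_nonneg _
  have hD0 : 0 ≤ D := by rw [hD]; apply div_nonneg (by linarith) hL0.le
  have hDX : D ≤ X := by
    rw [hD, hXdef]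
    apply div_le_div_of_nonneg_right (by linarith) hL0.le
  rw [← hXdef] at hX
  -- the sum
  have hli1 := (abs_le.1 (hli u v huv hvx)).1
  obtain ⟨Sg, hSg⟩ : ∃ Sg : ℝ, Sg = ∑ m ∈ Ioc u v, 1 / Real.log ((a : ℝ) * m ^ 2 + b * m + c) := ⟨_, rfl⟩
  rw [← hSg] at hli1 ⊢
  have e1 : ((v : ℝ) - u) / (2 * L) = D / 2 := by rw [hD]; field_simp
  rw [e1, ← hXdef] at hli1
  have e2 : M * x / L = M * X := by rw [hXdef]; ring
  rw [e2]
  have e3 : M * (D / 2 - β * X) ≤ M * Sg := mul_le_mul_of_nonneg_left (by linarith) hM0.le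
  have hMβX : 0 < M * (β * X) := by positivity
  have hηM : 40 * β * (M * X) ≤ η * (M * X) := mul_le_mul_of_nonneg_right hη (by positivity)
  have hSβX : 0 < S * (β * X) := by positivity
  have hSD : 0 ≤ S * D := mul_nonneg hS0.le hD0
  have hlamX : lam * X ≤ S * (β * X) := by
    rw [hlam]
    calc β * θ * X = θ * (β * X) := by ring
      _ ≤ S * (β * X) := mul_le_mul_of_nonneg_right hSθ (by positivity)
  -- it suffices to bound by `S`
  suffices hmain : (Pc a b c u v : ℝ) ≤ k / 2 * (S * D) + 13 * (S * (β * X)) by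
    have q9 : S * D ≤ M * D + β * S * D := by
      calc S * D ≤ (M + β * S) * D := mul_le_mul_of_nonneg_right hMlo' hD0
        _ = _ := by ring
    have q10 : β * S * D ≤ S * (β * X) := by
      calc β * S * D ≤ β * S * X := mul_le_mul_of_nonneg_left hDX (by positivity)
        _ = _ := by ring
    have q11 : S * (β * X) ≤ 2 * M * (β * X) := mul_le_mul_of_nonneg_right hMlo (by positivity)
    have q12 : k / 2 * (S * D) ≤ k / 2 * (M * D + S * (β * X)) := mul_le_mul_of_nonneg_left (by linarith) (by linarith)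
    have q13 : k / 2 * (S * (β * X)) ≤ 1 * (S * (β * X)) := mul_le_mul_of_nonneg_right (by linarith) hSβX.le
    have q14 : k * (M * (D / 2 - β * X)) ≤ k * (M * Sg) := mul_le_mul_of_nonneg_left e3 hk0
    have q15 : k * (M * (β * X)) ≤ 2 * (M * (β * X)) := mul_le_mul_of_nonneg_right hk1 hMβX.le
    linarith
  -- the steps
  have hmono : ∀ i j, i ≤ j → xg x R i ≤ xg x R j := fun i j hij =>
    monotone_nat_of_le_succ (xg_mono x R · hR1) hij
  have hstep : ∀ i, (xg x R (i + 1) : ℝ) ≤ xg x R i + 2 * β * x := by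
    intro i
    have k1 := xg_le x R (i + 1) hR1
    have k2 := le_xg x R i hR1
    have k3 : R * xg x R (i + 1) ≤ R * xg x R i + x + R := by
      have : (i + 1) * x = i * x + x := by ring
      omega
    have k4 : (R : ℝ) * xg x R (i + 1) ≤ R * xg x R i + x + R := by exact_mod_cast k3
    have k5 : (xg x R (i + 1) : ℝ) ≤ xg x R i + (x / R + 1) := by
      have : (R : ℝ) * xg x R (i + 1) ≤ R * (xg x R i + (x / R + 1)) := by
        calc (R : ℝ) * xg x R (i + 1) ≤ R * xg x R i + x + R := k4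
          _ = _ := by field_simp; ring
      exact le_of_mul_le_mul_left this hRr
    linarith
  rcases Nat.eq_or_lt_of_le huv with huv0 | huv0
  · have : Pc a b c u v = 0 := by
      subst huv0
      unfold Pc
      simp
    rw [this]
    push_cast
    have : 0 ≤ k / 2 * (S * D) := mul_nonneg (by linarith) hSD
    linarith
  have hux : u < x := by omega
  obtain ⟨i, hi, hi1, hi2⟩ := xg_between x R u hR1 hx hux
  obtain ⟨j, hjR, hj1, hj2⟩ : ∃ j ≤ R, v ≤ xg x R j ∧ (xg x R j : ℝ) ≤ v + 2 * β * x := by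
    rcases lt_or_eq_of_le hvx with hv | hv
    · obtain ⟨j, hj, hj1, hj2⟩ := xg_between x R v hR1 hx hv
      refine ⟨j + 1, hj, hj2, ?_⟩
      have : (xg x R j : ℝ) ≤ v := by exact_mod_cast hj1
      linarith [hstep j]
    · refine ⟨R, le_rfl, ?_, ?_⟩
      · rw [xg_top x R hR1, hv]
      · rw [xg_top x R hR1, hv]
        have : 0 < 2 * β * x := by positivity
        linarith
  have hi2r : (u : ℝ) ≤ xg x R (i + 1) := by exact_mod_cast hi2
  have hsi := hstep i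
  have hxj : xg x R j ≤ x := by
    have := hmono j R hjR
    rwa [xg_top x R hR1] at this
  have hij : i < j := by
    by_contra hcon
    have := hmono j i (by omega)
    omega
  obtain ⟨i1, hi1def⟩ : ∃ i1 : ℕ, i1 = max i 1 := ⟨_, rfl⟩
  have hi1j : i1 ≤ j := by omega
  have hi11 : 1 ≤ i1 := by omega
  have hi1i : i ≤ i1 := by omega
  have hm1 := hmono i i1 hi1i
  have hm2 := hmono i1 j hi1j
  -- the counting function
  have hcnt : (Pc a b c u v : ℝ) ≤ 4 * (lam * X) + Pc a b c (xg x R i1) (xg x R j) := by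
    have h6 : Pc a b c 0 (xg x R 1) =
        #((Icc 1 (xg x R 1)).filter (fun m : ℕ => (fv a b c m).toNat.Prime)) := by
      unfold Pc
      congr 1
    have h7 : (Pc a b c 0 (xg x R 1) : ℝ) ≤ 4 * (lam * X) := by
      rw [h6, hXdef]
      refine h5.trans (le_of_eq ?_)
      ring
    have h8 : Pc a b c u v ≤ Pc a b c 0 (xg x R 1) + Pc a b c (xg x R i1) (xg x R j) := by
      rcases Nat.eq_zero_or_pos i with h0 | h0
      · have : i1 = 1 := by omega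
        rw [this] at hm1 hm2 ⊢
        have r1 := Pc_add a b c 0 u v (Nat.zero_le _) huv
        have r2 := Pc_add a b c 0 v (xg x R j) (Nat.zero_le _) hj1
        have r3 := Pc_add a b c 0 (xg x R 1) (xg x R j) (Nat.zero_le _) hm2
        omega
      · have : i1 = i := by omega
        rw [this] at hm1 hm2 ⊢
        have r1 := Pc_add a b c (xg x R i) u v hi1 huv
        have r2 := Pc_add a b c (xg x R i) v (xg x R j) (hi1.trans huv) hj1
        omega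
    have h9 : (Pc a b c u v : ℝ) ≤ Pc a b c 0 (xg x R 1) + Pc a b c (xg x R i1) (xg x R j) := by exact_mod_cast h8
    linarith
  -- the length
  have q4 : ((xg x R j : ℝ) - xg x R i1) / L ≤ D + 4 * β * X := by
    rw [hD, hXdef, div_le_iff₀ hL0]
    have : (((v : ℝ) - u) / L + 4 * β * (x / L)) * L = (v : ℝ) - u + 4 * β * x := by field_simp
    rw [this]
    have : (xg x R i : ℝ) ≤ xg x R i1 := by exact_mod_cast hm1
    linarith
  suffices hP : (Pc a b c (xg x R i1) (xg x R j) : ℝ) ≤ S * (k / 2 * (D + 4 * β * X) + 3 * β * X) + 2 * (lam * X) by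
    have q8 : k * (2 * (S * (β * X))) ≤ 2 * (2 * (S * (β * X))) := mul_le_mul_of_nonneg_right hk1 (by positivity)
    linarith
  rcases Nat.eq_or_lt_of_le hm2 with hm3 | hm3
  · have : Pc a b c (xg x R i1) (xg x R j) = 0 := by
      rw [hm3]
      unfold Pc
      simp
    rw [this]
    push_cast
    rw [hlam]
    positivity
  -- Phi at the two points
  have hPhi' : ∀ i, 1 ≤ i → i ≤ R → |Phi a b (xg x R i) x c w G| ≤ lam * X := by
    intro i hi1 hi2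
    rcases lt_or_eq_of_le hi2 with h | h
    · rw [hXdef]; exact hPhi i hi1 h
    · rw [h, xg_top x R hR1, Phi_self, abs_zero, hlam]
      positivity
  have p1 := (abs_le.1 (hPhi' i1 (by omega) (by omega))).2
  have p2 := (abs_le.1 (hPhi' j (by omega) hjR)).1
  unfold Phi at p1 p2
  rw [← hS] at p1 p2
  have hb' : b.natAbs ≤ xg x R i1 := hb.trans (hmono 1 i1 hi11)
  rw [Lc_split a b c G hm3.le hxj, Ls_split ha G hb' hm3.le hxj] at p1
  have q1 := hLs i1 j hi11 hi1j hjR hm3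
  have q2 : Lc a b (xg x R i1) (xg x R j) c pi0 ≤ Lc a b (xg x R i1) (xg x R j) c G := by
    unfold Lc
    exact sum_le_sum fun n _ => hG _
  rw [← Pc_eq] at q2
  rw [← hXdef] at q1
  have q4' : k / 2 * (((xg x R j : ℝ) - xg x R i1) / L) ≤ k / 2 * (D + 4 * β * X) :=
    mul_le_mul_of_nonneg_left q4 (by linarith)
  have q5 : Ls a b (xg x R i1) (xg x R j) G ≤ k / 2 * (D + 4 * β * X) + 3 * β * X := by linarith
  have q6 := mul_le_mul_of_nonneg_left q5 hS0.le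
  linarith

/-- the upper bound for one `η` -/
def ConclUp (a : ℤ) (Λ ε η : ℝ) : Prop :=
    ∃ θ : ℝ, 0 < θ ∧ ∃ x0 : ℕ, ∀ x : ℕ, x0 ≤ x → ∀ b : ℤ, ∀ C : ℕ, (b : ℝ) ^ 2 ≤ Λ * C →
    (x : ℝ) ^ (2 / 3 + ε) ≤ C → C ≤ x →
    ∃ Ex ⊆ Icc 1 C, (#Ex : ℝ) ≤ η * C ∧ ∀ c ∈ Icc 1 C, c ∉ Ex → Admissible a b c →
      ∃ S : ℝ, 0 < S ∧ Tendsto (fun z => partialC a b c z) atTop (𝓝 S) ∧ θ ≤ eps a b * S * gcdProd a b ∧
        ∀ u v : ℕ, u ≤ v → v ≤ x →
        (#((Ioc u v).filter (fun m : ℕ => (fv a b c m).toNat.Prime)) : ℝ) ≤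
          5 / 3 * (eps a b * S * gcdProd a b * ∑ m ∈ Ioc u v, 1 / Real.log ((a : ℝ) * m ^ 2 + b * m + c)) +
          η * (eps a b * S * gcdProd a b * x / Real.log x)

set_option maxHeartbeats 4000000 in
theorem conclUp_small (a : ℤ) (ha : 0 < a) (Λ : ℝ) (hΛ : 1 ≤ Λ) (hlam : UpG a Λ) (hX8 : X8U a Λ)
    (hX9 : X9U a Λ) (hLI : LIU a Λ)
    (hX10 : X10U a Λ) (ε η : ℝ) (hε : 0 < ε) (hη : 0 < η) (hη1 : η ≤ 1 / 10) : ConclUp a Λ ε η := by
  classical
  obtain ⟨As, hlam⟩ := hlam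
  obtain ⟨C6, hC6, xSA, hSA⟩ := small_avg5U a
  obtain ⟨E, hE⟩ : ∃ E : ℕ, E = 2 * max As 18 := ⟨_, rfl⟩
  obtain ⟨θ, hθ, xSP, hSP⟩ := hX9 (η / 8) (by positivity) E
  obtain ⟨β, hβ⟩ : ∃ β : ℝ, β = η / 40 := ⟨_, rfl⟩
  have hβ0 : 0 < β := by rw [hβ]; positivity
  have hβ1 : β ≤ 1 / 2 := by rw [hβ]; linarith
  have hβη : 40 * β ≤ η := by rw [hβ]; linarith
  obtain ⟨lam, hl⟩ : ∃ lam : ℝ, lam = β * θ := ⟨_, rfl⟩
  have hl0 : 0 < lam := by rw [hl]; positivity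
  obtain ⟨R, hR⟩ := exists_nat_gt (max 2 (max (4 * C6 / (η * lam)) (1 / β)))
  have hR2 : (2 : ℝ) < R := (le_max_left _ _).trans_lt hR
  have hR3 : 4 * C6 / (η * lam) < R := ((le_max_left _ _).trans (le_max_right _ _)).trans_lt hR
  have hR4 : 1 / β < R := ((le_max_right _ _).trans (le_max_right _ _)).trans_lt hR
  have hRn : 2 < R := by exact_mod_cast hR2
  have hR0 : (0 : ℝ) < R := by linarith
  have hR5 : 4 * C6 ≤ R * (η * lam) := by
    rw [div_lt_iff₀ (by positivity)] at hR3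
    exact hR3.le
  obtain ⟨κ, hκ⟩ : ∃ κ : ℝ, κ = η * lam / (8 * R) := ⟨_, rfl⟩
  have hκ0 : 0 < κ := by rw [hκ]; positivity
  obtain ⟨K1, hK1⟩ : ∃ K1 : ℝ, K1 = max 1 (1 / θ) := ⟨_, rfl⟩
  have hK11 : 1 ≤ K1 := by rw [hK1]; exact le_max_left _ _
  have hK12 : 1 / θ ≤ K1 := by rw [hK1]; exact le_max_right _ _
  obtain ⟨η1, hη10, hη11, xLam, hlam⟩ := hlam E R ε (min κ β) K1 hε (lt_min hκ0 hβ0) hK11
  obtain ⟨xST, hST⟩ := hX8 3 E
  obtain ⟨xLI, hLI⟩ := hLI β hβ0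
  obtain ⟨xX, hX10⟩ := hX10 R β hβ0
  obtain ⟨c0, A, _, _, X0, hX0⟩ := range_bdU a ha Λ hΛ R
  obtain ⟨y1, hy1⟩ := evN' _ (Real.tendsto_log_atTop.eventually_ge_atTop (2 + 1 / β + 8 / η + 2 * R))
  obtain ⟨y2, hy2⟩ := evN' _ (ev_pow' E 1 (η1 / 2) (by positivity))
  obtain ⟨y3, hy3⟩ := evN' _ ((tendsto_rpow_atTop hη10).eventually_ge_atTop 2)
  obtain ⟨y5, hy5⟩ := evN' _ (eventually_ge_atTop (max (1 / β) (2 * R)))
  refine ⟨θ / 2, by positivity, xSA + xSP + xLam + xST + xLI + xX + X0 + y1 + y2 + y3 + y5 + R + 10, ?_⟩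
  intro x hx b C hbC hC1 hC2
  have hbX : (b : ℝ) ^ 2 ≤ Λ * x := hbC.trans (mul_le_mul_of_nonneg_left (by exact_mod_cast hC2) (by linarith))
  have g1 := hy1 x (by omega)
  have g2 := hy2 x (by omega)
  have g3 := hy3 x (by omega)
  have g5 := hy5 x (by omega)
  clear hy1 hy2 hy3 hy5
  obtain ⟨L, hL⟩ : ∃ L : ℝ, L = Real.log x := ⟨_, rfl⟩
  rw [← hL] at g1 g2
  have hxr : (1 : ℝ) ≤ x := by exact_mod_cast (by omega : 1 ≤ x)
  have hx0 : (0 : ℝ) < x := lt_of_lt_of_le one_pos hxr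
  have hβi : 0 < 1 / β := by positivity
  have hηi : 0 < 8 / η := by positivity
  have hL2 : 2 ≤ L := by linarith
  have hL0 : 0 < L := lt_of_lt_of_le two_pos hL2
  have hLR : 2 * (R : ℝ) ≤ L := by linarith
  have hLL : L ≤ L ^ 3 := le_self_pow₀ (by linarith) (by norm_num)
  have hL3 : 1 / L ^ 3 ≤ β := by
    rw [div_le_iff₀ (by positivity)]
    have : 1 / β ≤ L ^ 3 := by linarith
    rw [div_le_iff₀ hβ0] at this
    linarith
  have hL3η : 1 / L ^ 3 ≤ η / 8 := by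
    rw [div_le_iff₀ (by positivity)]
    have : 8 / η ≤ L ^ 3 := by linarith
    rw [div_le_iff₀ hη] at this
    linarith
  -- the size of C
  have hC5 : (x : ℝ) ^ (1 / 2 : ℝ) ≤ C :=
    (Real.rpow_le_rpow_of_exponent_le hxr (by linarith)).trans hC1
  have hC0 : (0 : ℝ) < C := lt_of_lt_of_le (Real.rpow_pos_of_pos hx0 _) hC5
  -- the levels
  obtain ⟨J, Jw, hzlow, hJ1, hwAs, hw1, hw18, hwz, hz5, hzx⟩ :=
    levels (x := x) (As := As) (E := E) (by omega) hL2 hη11 g3 g2 hE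
  obtain ⟨G, hG0, hGls, hlam⟩ := hlam x (by omega) J hzlow hJ1
  rw [hL] at hw1 hw18 hwAs
  obtain ⟨E1, hE1s, hE1c, hE1⟩ := hST x (by omega) b hbX C hC5 hC2 (2 ^ 2 ^ Jw) (2 ^ 2 ^ J) hw18 hw1 hwz hz5
  obtain ⟨E2, hE2s, hE2c, hE2⟩ := hSP x (by omega) b hbX C hC5 hC2 Jw hw1
  obtain ⟨Gd, hGd⟩ : ∃ Gd : Finset ℕ, Gd = Icc 1 C \ (E1 ∪ E2) := ⟨_, rfl⟩
  have hGds : Gd ⊆ Icc 1 C := by rw [hGd]; exact sdiff_subset
  have hGd1 : ∀ c ∈ Gd, c ∈ Icc 1 C ∧ c ∉ E1 ∧ c ∉ E2 := by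
    intro c hc
    rw [hGd, Finset.mem_sdiff, mem_union, not_or] at hc
    exact ⟨hc.1, hc.2.1, hc.2.2⟩
  have hgrid : ∀ i : ℕ, 1 ≤ i → i < R → xg x R i < x ∧ x ≤ R * xg x R i := by
    intro i hi1 hi2
    refine ⟨xg_lt x R i (by omega) (by omega) hi2, ?_⟩
    refine le_trans ?_ (le_xg x R i (by omega))
    calc x = 1 * x := (one_mul x).symm
      _ ≤ i * x := Nat.mul_le_mul_right _ hi1
  have hsum : ∀ i : ℕ, 1 ≤ i → i < R →
      ∑ c ∈ Gd, |Phi a b (xg x R i) x c (2 ^ 2 ^ Jw) G| ≤ κ * (C * x / L) := by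
    intro i hi1 hi2
    obtain ⟨k1, k2⟩ := hgrid i hi1 hi2
    rw [hL]
    refine le_trans (hlam b (xg x R i) C Jw hbC k1 k2 hC1 hC2 hwAs hw1 Gd hGds ?_ ?_)
      (mul_le_mul_of_nonneg_right (min_le_left _ _) (by rw [← hL]; positivity))
    · intro c hc
      obtain ⟨m1, m2, m3⟩ := hGd1 c hc
      exact (hE1 c m1 m2).1
    · intro c hc
      obtain ⟨m1, m2, m3⟩ := hGd1 c hc
      exact ((hE2 c m1 m3).1).trans hK12
  have hlx : 0 < lam * (x / L) := by positivity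
  have hE3c := card_bad R (by omega) Gd (fun i c => |Phi a b (xg x R i) x c (2 ^ 2 ^ Jw) G|) (lam * (x / L))
    (κ * (C * x / L)) η C hlx hη hC0 (fun i _ _ c _ => abs_nonneg _) hsum (by
      rw [hκ]
      apply le_of_eq
      ring)
  obtain ⟨E3, hE3⟩ : ∃ E3 : Finset ℕ, E3 = (Ico 1 R).biUnion (fun i => Gd.filter (fun c =>
    lam * (x / L) < |Phi a b (xg x R i) x c (2 ^ 2 ^ Jw) G|)) := ⟨_, rfl⟩
  rw [← hE3] at hE3c
  obtain ⟨E5, hE5⟩ : ∃ E5 : Finset ℕ, E5 = (Icc 1 C).filter (fun c : ℕ => 4 * lam * x / L <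
    (#((Icc 1 (xg x R 1)).filter (fun m : ℕ => (fv a b c m).toNat.Prime)) : ℝ)) := ⟨_, rfl⟩
  have h2R : 2 * (R : ℝ) ≤ x := (le_max_right _ _).trans g5
  have hE5c : (#E5 : ℝ) ≤ η / 8 * C := by
    rw [hE5]
    have k1 := hSA x (by omega) b (xg x R 1) C (hgrid 1 le_rfl (by omega)).1.le hC5 hC2
    rw [← hL] at k1
    refine (markov (Icc 1 C) (fun c : ℕ => (#((Icc 1 (xg x R 1)).filter
      (fun m : ℕ => (fv a b c m).toNat.Prime)) : ℝ)) (fun c _ => Nat.cast_nonneg _) (4 * lam * x / L)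
      (by positivity) _ k1).trans ?_
    rw [div_le_iff₀ (by positivity)]
    exact ex5_num hC6 hC0 hx0 hR0 hL0 hl0 hη (xg1_le (by omega)) h2R hLR hL2 hR5
  have hE1c' : (#E1 : ℝ) ≤ η / 8 * C := by
    refine hE1c.trans ?_
    rw [← hL]
    calc (C : ℝ) / L ^ 3 = 1 / L ^ 3 * C := by ring
      _ ≤ η / 8 * C := mul_le_mul_of_nonneg_right hL3η hC0.le
  refine ⟨E1 ∪ E2 ∪ E3 ∪ E5, ?_, ?_, ?_⟩
  · refine union_subset (union_subset (union_subset hE1s hE2s) ?_) ?_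
    · rw [hE3]
      exact biUnion_subset.2 fun i _ => (filter_subset _ _).trans hGds
    · rw [hE5]
      exact filter_subset _ _
  · clear * - hE1c' hE2c hE3c hE5c hη hC0
    have k2 := card_union_le (E1 ∪ E2 ∪ E3) E5
    have k3 := card_union_le (E1 ∪ E2) E3
    have k4 := card_union_le E1 E2
    have k5 : (#(E1 ∪ E2 ∪ E3 ∪ E5) : ℝ) ≤ #E1 + #E2 + #E3 + #E5 := by
      exact_mod_cast (by omega)
    have k6 : 0 < η / 8 * C := by positivity
    linarith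
  intro c hc hcE hadm
  simp only [mem_union, not_or] at hcE
  obtain ⟨⟨⟨c1, c2⟩, c3⟩, c5⟩ := hcE
  obtain ⟨-, hsing⟩ := hE1 c hc c1
  obtain ⟨S, hS0, hSt, hSS⟩ := hsing hadm
  have hSc := (hE2 c hc c2).2 hadm
  have hθM : θ / 2 ≤ eps a b * S * gcdProd a b := by
    rw [← hL] at hSS
    have k1 := (abs_le.1 hSS).1
    have k2 : Vc a b c (2 ^ 2 ^ Jw) / V1 (2 ^ 2 ^ Jw) / L ^ 3 ≤ Vc a b c (2 ^ 2 ^ Jw) / V1 (2 ^ 2 ^ Jw) * (1 / 2) := by
      rw [div_eq_mul_one_div (Vc a b c (2 ^ 2 ^ Jw) / V1 (2 ^ 2 ^ Jw)) (L ^ 3)]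
      exact mul_le_mul_of_nonneg_left (hL3η.trans (by linarith)) (hθ.le.trans hSc)
    linarith
  refine ⟨S, hS0, hSt, hθM, ?_⟩
  have hcG : c ∈ Gd := by rw [hGd, Finset.mem_sdiff, mem_union, not_or]; exact ⟨hc, c1, c2⟩
  have hcC := mem_Icc.1 hc
  rw [← hL] at hSS ⊢
  intro u v huv hvx
  refine one_cU ha (w := 2 ^ 2 ^ Jw) hG0 (by norm_num) (by norm_num) hRn (by omega) hL0 hθ hβ0 hβ1 hl rfl hSc
    (grid_num hx0 hR0 hβ0 hR4 ((le_max_left _ _).trans g5)) hβη ?_ ?_ ?_ ?_ hSS hL3 ?_ u v huv hvx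
  · have := (hX0 x (by omega) b hbX (xg x R 1) (hgrid 1 le_rfl (by omega)).1 (hgrid 1 le_rfl (by omega)).2).1
    omega
  · intro i hi1 hi2
    by_contra hcon
    push Not at hcon
    apply c3
    rw [hE3, mem_biUnion]
    exact ⟨i, mem_Ico.2 ⟨hi1, hi2⟩, mem_filter.2 ⟨hcG, hcon⟩⟩
  · by_contra hcon
    push Not at hcon
    apply c5
    rw [hE5]
    exact mem_filter.2 ⟨hc, hcon⟩
  · intro i j hi1 hij hjR hlt
    have hjx : xg x R j ≤ x := by
      have := monotone_nat_of_le_succ (xg_mono x R · (by omega)) hjR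
      rwa [xg_top x R (by omega)] at this
    have hiR : i < R := by
      by_contra hcon
      have : i = R := by omega
      rw [this, xg_top x R (by omega)] at hlt
      omega
    have k2 := (hgrid i hi1 hiR).2
    have m1 := hGls b hbX (xg x R i) (xg x R j) hlt hjx k2
    have m2 := (abs_le.1 (hX10 x (by omega) b hbX (xg x R i) (xg x R j) hlt hjx k2)).2
    rw [← hL] at m1 m2
    have m3 : min κ β * ((x : ℝ) / L) ≤ β * (x / L) := mul_le_mul_of_nonneg_right (min_le_right _ _) (by positivity)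
    have e1 : ((xg x R j : ℝ) - xg x R i) / (2 * L) = (((xg x R j : ℝ) - xg x R i) / L) / 2 := by field_simp
    rw [e1] at m2
    have m4 : 0 ≤ β * ((x : ℝ) / L) := by positivity
    linarith
  · intro u v huv hvx
    have hli := hLI x (by omega) b hbX c (mem_Icc.2 ⟨hcC.1, hcC.2.trans hC2⟩) u v huv hvx
    rw [← hL] at hli
    exact hli

/-- **the upper bound for almost all `c`** -/
theorem conclUp (a : ℤ) (ha : 0 < a) (Λ : ℝ) (hΛ : 1 ≤ Λ) (hlam : UpG a Λ) (hX8 : X8U a Λ)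
    (hX9 : X9U a Λ) (hLI : LIU a Λ)
    (hX10 : X10U a Λ) (ε η : ℝ) (hε : 0 < ε) (hη : 0 < η) : ConclUp a Λ ε η := by
  have h0 : 0 < min η (1 / 10) := lt_min hη (by norm_num)
  obtain ⟨θ, hθ, x0, h⟩ := conclUp_small a ha Λ hΛ hlam hX8 hX9 hLI hX10 ε (min η (1 / 10)) hε h0 (min_le_right _ _)
  obtain ⟨x1, hx1⟩ := eventually_atTop.1 (Shp.log_ge 1)
  refine ⟨θ, hθ, max x0 x1, fun x hx b C hbC hC1 hC2 => ?_⟩
  obtain ⟨Ex, h1, h2, h3⟩ := h x (by omega) b C hbC hC1 hC2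
  refine ⟨Ex, h1, h2.trans (mul_le_mul_of_nonneg_right (min_le_left _ _) (Nat.cast_nonneg _)), ?_⟩
  intro c hc hcE hadm
  obtain ⟨S, hS, hSt, hθM, hb⟩ := h3 c hc hcE hadm
  refine ⟨S, hS, hSt, hθM, fun u v huv hvx => ?_⟩
  have h4 := hb u v huv hvx
  have hL1 : 1 ≤ Real.log x := hx1 x (by omega)
  have h5 : 0 ≤ eps a b * S * gcdProd a b * x / Real.log x := by
    have h6 : 0 ≤ eps a b * S * gcdProd a b := hθ.le.trans hθM
    have : 0 < Real.log x := by linarith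
    positivity
  have h6 : min η (1 / 10) * (eps a b * S * gcdProd a b * x / Real.log x) ≤
      η * (eps a b * S * gcdProd a b * x / Real.log x) := mul_le_mul_of_nonneg_right (min_le_left _ _) h5
  linarith

end Pool.Agent.H568
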