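import Mathlib
import Pool.Agent.H568.C3

/-!
Weights of primes given by many thresholds, and the type I and type II functions which belong to them.
-/

set_option autoImplicit false

namespace Pool.Agent.H568

open Finset Pool.Agent.N792 Pool.Agent.N792.RX5
open Pool.Agent.N792.SwR (rough_of_dvd)
open ArithmeticFunction (moebius)

/-- the weight of a prime: the proportion of the thresholds `A i`, `i < n`, with `p ≤ A i` -/
noncomputable def aw (n : ℕ) (A : ℕ → ℕ) (p : ℕ) : ℝ := ∑ i ∈ range n, 1 / (n : ℝ) * (if p ≤ A i then (1 : ℝ) else 0)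

lemma aw_nonneg (n : ℕ) (A : ℕ → ℕ) (p : ℕ) : 0 ≤ aw n A p := by
  unfold aw
  refine sum_nonneg fun i _ => mul_nonneg (by positivity) ?_
  split_ifs <;> norm_num

lemma aw_le (n : ℕ) (A : ℕ → ℕ) (p : ℕ) : aw n A p ≤ 1 := by
  unfold aw
  have h1 : ∑ i ∈ range n, 1 / (n : ℝ) * (if p ≤ A i then (1 : ℝ) else 0) ≤ ∑ _i ∈ range n, 1 / (n : ℝ) := by
    refine sum_le_sum fun i _ => ?_
    have h0 : 0 ≤ 1 / (n : ℝ) := by positivity
    split_ifs
    · linarith
    · linarith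
  refine h1.trans ?_
  rw [sum_const, card_range, nsmul_eq_mul]
  rcases Nat.eq_zero_or_pos n with h | h
  · rw [h]; norm_num
  · have : (n : ℝ) ≠ 0 := by positivity
    rw [mul_one_div, div_self this]

lemma aw_mem (n : ℕ) (A : ℕ → ℕ) (p : ℕ) : 0 ≤ aw n A p ∧ aw n A p ≤ 1 := ⟨aw_nonneg n A p, aw_le n A p⟩

lemma aw_zero {n : ℕ} {A : ℕ → ℕ} {U p : ℕ} (hA : ∀ i < n, A i ≤ U) (hp : U < p) : aw n A p = 0 := by
  unfold aw
  apply sum_eq_zero
  intro i hi
  have := hA i (mem_range.1 hi)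
  rw [if_neg (by omega), mul_zero]

lemma aw_one {n : ℕ} {A : ℕ → ℕ} {p : ℕ} (hn : 1 ≤ n) (hA : ∀ i < n, p ≤ A i) : aw n A p = 1 := by
  unfold aw
  rw [sum_congr rfl (fun i hi => by rw [if_pos (hA i (mem_range.1 hi)), mul_one]), sum_const, card_range, nsmul_eq_mul]
  have : (n : ℝ) ≠ 0 := by positivity
  rw [mul_one_div, div_self this]

lemma SL_aw (m n : ℕ) (A : ℕ → ℕ) : SL m (2 * n) (fun P => aw n A P) := by
  rcases Nat.eq_zero_or_pos n with h | h
  · subst h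
    exact (SL.zero m _).congr (fun P _ _ => by simp [aw])
  have hn : |(1 : ℝ) / n| ≤ 1 := by
    have h1 : (1 : ℝ) ≤ n := by exact_mod_cast h
    rw [abs_of_nonneg (by positivity), div_le_one (by positivity)]
    exact h1
  have h1 := SL.sum (m := m) (M := 2) (range n) (fun i P => 1 / (n : ℝ) + (-(1 / (n : ℝ))) * (if A i < P then (1 : ℝ) else 0))
    (fun i _ => (SL.const m (1 / (n : ℝ)) hn).add (SL.step m (A i) (-(1 / (n : ℝ))) (by rw [abs_neg]; exact hn)))
  rw [card_range] at h1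
  refine (h1.mono (by omega)).congr (fun P _ _ => ?_)
  unfold aw
  apply sum_congr rfl
  intro i _
  by_cases c : P ≤ A i
  · rw [if_pos c, if_neg (by omega)]; ring
  · rw [if_neg c, if_pos (by omega)]; ring

/-- the sum of the weights of the prime factors -/
noncomputable def Sa (n : ℕ) (A : ℕ → ℕ) (k : ℕ) : ℝ := ∑ p ∈ k.primeFactors, aw n A p

/-- the number of the prime factors `> U` -/
def Bn (U k : ℕ) : ℕ := #(k.primeFactors.filter (fun p => U < p))

/-- products of two primes with a weight -/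
noncomputable def Fa (Q U n : ℕ) (A : ℕ → ℕ) (k : ℕ) : ℝ := pi2 Q k * ((Sa n A k - 1) * (1 - 1 / 2 * (Bn U k : ℝ)))

/-- products of two primes with a weight, for the products of four primes -/
noncomputable def ta (Q n : ℕ) (A : ℕ → ℕ) (k : ℕ) : ℝ := pi2 Q k * (1 / 3 * (Sa n A k - 1 / 2))

/-- the coefficient which belongs to a set of primes -/
noncomputable def kapa (n : ℕ) (A : ℕ → ℕ) (B : Finset ℕ) : ℝ :=
  if #B = 0 then 1 else if #B = 1 then ∑ p ∈ B, aw n A p else 0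

/-- the type I coefficients -/
noncomputable def g3 (Q n : ℕ) (A : ℕ → ℕ) (d : ℕ) : ℝ := moebius d * kapa n A (bigp Q d)

lemma kapa_mem (n : ℕ) (A : ℕ → ℕ) (B : Finset ℕ) : 0 ≤ kapa n A B ∧ kapa n A B ≤ 1 := by
  unfold kapa
  split_ifs with h1 h2
  · norm_num
  · obtain ⟨p, rfl⟩ := card_eq_one.1 h2
    rw [sum_singleton]
    exact aw_mem n A p
  · norm_num

lemma g3_abs (Q n : ℕ) (A : ℕ → ℕ) (d : ℕ) : |g3 Q n A d| ≤ 1 := by
  unfold g3
  rw [abs_mul, abs_of_nonneg (kapa_mem n A _).1]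
  calc |(moebius d : ℝ)| * kapa n A (bigp Q d) ≤ 1 * 1 :=
        mul_le_mul (mu_abs d) (kapa_mem n A _).2 (kapa_mem n A _).1 zero_le_one
    _ = 1 := one_mul 1

lemma g3_sq (Q n : ℕ) (A : ℕ → ℕ) (d : ℕ) (h : g3 Q n A d ≠ 0) : Squarefree d := by
  by_contra hns
  apply h
  unfold g3
  rw [ArithmeticFunction.moebius_eq_zero_of_not_squarefree hns]
  simp

lemma g3_mul (Q n : ℕ) (A : ℕ → ℕ) (d q : ℕ) (hq : q.Prime) (hqQ : q ≤ Q) (hqd : ¬ q ∣ d) :
    g3 Q n A (d * q) = - g3 Q n A d := by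
  have hd : d ≠ 0 := by
    rintro rfl
    exact hqd (dvd_zero q)
  unfold g3
  rw [bigp_mul hd hq, if_neg (by omega), mu_mul hq hqd]
  ring

lemma kapa_insert {n : ℕ} {A : ℕ → ℕ} {q : ℕ} {B : Finset ℕ} (h : q ∉ B) :
    kapa n A (insert q B) = if #B = 0 then aw n A q else 0 := by
  unfold kapa
  rw [card_insert_of_notMem h]
  by_cases h0 : #B = 0
  · rw [if_neg (by omega), if_pos (by omega), if_pos h0, card_eq_zero.1 h0]
    simp
  · rw [if_neg (by omega), if_neg (by omega), if_neg h0]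

lemma SL_g3 (Q n : ℕ) (A : ℕ → ℕ) (e : ℕ) (he : e ≠ 0) : SL e (2 + 2 * n) (fun P => g3 Q n A (e * P)) := by
  classical
  obtain ⟨κ, hκ⟩ : ∃ κ, κ = kapa n A (bigp Q e) := ⟨_, rfl⟩
  have hκ1 := kapa_mem n A (bigp Q e)
  rw [← hκ] at hκ1
  have habs : |(moebius e : ℝ) * κ| ≤ 1 := by
    rw [abs_mul, abs_of_nonneg hκ1.1]
    calc |(moebius e : ℝ)| * κ ≤ 1 * 1 := mul_le_mul (mu_abs e) hκ1.2 hκ1.1 zero_le_one
      _ = 1 := one_mul 1
  have h1 := (SL.const e (-((moebius e : ℝ) * κ)) (by rw [abs_neg]; exact habs)).add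
    (SL.step e Q ((moebius e : ℝ) * κ) habs)
  have hX : ∃ X : ℕ → ℝ, SL e (2 * n) X ∧ ∀ P : ℕ, P.Prime → ¬ P ∣ e →
      X P = -((moebius e : ℝ) * kapa n A (insert P (bigp Q e))) := by
    rcases Nat.eq_zero_or_pos #(bigp Q e) with h | h
    · refine ⟨fun P => (-(moebius e : ℝ)) * aw n A P, (SL_aw e n A).smul _ (by rw [abs_neg]; exact mu_abs e), ?_⟩
      intro P hP hPe
      simp only
      rw [kapa_insert (not_mem_bigp hPe), if_pos (by omega)]
      ring
    · refine ⟨fun _ => 0, SL.zero e _, ?_⟩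
      intro P hP hPe
      rw [kapa_insert (not_mem_bigp hPe), if_neg (by omega)]
      ring
  obtain ⟨X, hX1, hX2⟩ := hX
  refine (h1.add (hX1.mul_step Q)).congr (fun P hP hPe => ?_)
  unfold g3
  rw [bigp_mul he hP, mu_mul hP hPe, hX2 P hP hPe]
  by_cases c1 : Q < P
  · simp only [c1, if_true]
    ring
  · simp only [c1, if_false]
    rw [← hκ]
    ring

lemma Sa_add {n : ℕ} {A : ℕ → ℕ} {N j : ℕ} (hs : Squarefree N) (hj : j ∣ N) : Sa n A j + Sa n A (N / j) = Sa n A N := by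
  obtain ⟨e, rfl⟩ := hj
  have hj0 : j ≠ 0 := left_ne_zero_of_mul hs.ne_zero
  have hc : Nat.Coprime j e := Nat.coprime_of_squarefree_mul hs
  rw [Nat.mul_div_cancel_left e (Nat.pos_of_ne_zero hj0), Sa, Sa, Sa, hc.primeFactors_mul,
    sum_union hc.disjoint_primeFactors]

lemma Sa_prime {n : ℕ} {A : ℕ → ℕ} {p : ℕ} (hp : p.Prime) : Sa n A p = aw n A p := by
  unfold Sa
  rw [hp.primeFactors, sum_singleton]

lemma Sa_bd (n : ℕ) (A : ℕ → ℕ) (k : ℕ) : 0 ≤ Sa n A k ∧ Sa n A k ≤ w k := by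
  unfold Sa w
  refine ⟨sum_nonneg fun p _ => aw_nonneg n A p, ?_⟩
  calc ∑ p ∈ k.primeFactors, aw n A p ≤ ∑ _p ∈ k.primeFactors, (1 : ℝ) := sum_le_sum fun p _ => aw_le n A p
    _ = _ := by simp

lemma Bn_add {U N j : ℕ} (hs : Squarefree N) (hj : j ∣ N) : Bn U j + Bn U (N / j) = Bn U N := by
  classical
  obtain ⟨e, rfl⟩ := hj
  have hj0 : j ≠ 0 := left_ne_zero_of_mul hs.ne_zero
  have hc : Nat.Coprime j e := Nat.coprime_of_squarefree_mul hs
  rw [Nat.mul_div_cancel_left e (Nat.pos_of_ne_zero hj0), Bn, Bn, Bn, hc.primeFactors_mul, filter_union,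
    card_union_of_disjoint (disjoint_filter_filter hc.disjoint_primeFactors)]

lemma Bn_prime {U p : ℕ} (hp : p.Prime) : Bn U p = if U < p then 1 else 0 := by
  unfold Bn
  rw [hp.primeFactors, filter_singleton]
  split_ifs <;> simp

lemma Bn_le (U k : ℕ) : Bn U k ≤ w k := card_filter_le _ _

lemma two_parts {m P : ℕ} (hm : m.Prime) (hP : P.Prime) (hPm : ¬ P ∣ m) : Squarefree (m * P) ∧ m ∣ m * P ∧ m * P / m = P := by
  have hc : Nat.Coprime m P := ((Nat.coprime_primes hm hP).2 (fun h => hPm (h ▸ dvd_rfl)))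
  exact ⟨(Nat.squarefree_mul hc).2 ⟨hm.prime.squarefree, hP.prime.squarefree⟩, dvd_mul_right _ _,
    Nat.mul_div_cancel_left _ hm.pos⟩

lemma Fa_mul {Q U n : ℕ} {A : ℕ → ℕ} {m P : ℕ} (hP : P.Prime) (hPm : ¬ P ∣ m) :
    Fa Q U n A (m * P) = if m.Prime ∧ Q < m then
      (if Q < P then (1 : ℝ) else 0) * (((aw n A m - 1) + aw n A P) *
        ((1 - 1 / 2 * (Bn U m : ℝ)) + (-(1 / 2)) * (if U < P then 1 else 0))) else 0 := by
  unfold Fa
  rw [pi2_mul hP hPm]
  by_cases h1 : m.Prime ∧ Q < m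
  · rw [if_pos h1]
    obtain ⟨k1, k2, k3⟩ := two_parts h1.1 hP hPm
    have hS : Sa n A (m * P) = aw n A m + aw n A P := by
      rw [← Sa_add k1 k2, k3, Sa_prime h1.1, Sa_prime hP]
    have hB : Bn U (m * P) = Bn U m + if U < P then 1 else 0 := by
      rw [← Bn_add k1 k2, k3, Bn_prime hP]
    rw [hS, hB]
    by_cases h2 : Q < P
    · rw [if_pos ⟨h1, h2⟩, if_pos h2]
      push_cast
      ring
    · rw [if_neg (fun h => h2 h.2), if_neg h2]; ring
  · rw [if_neg h1, if_neg (fun h => h1 h.1)]; ring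

lemma SL_Fa (Q U n : ℕ) (A : ℕ → ℕ) (m : ℕ) : SL m (2 * (1 + 2 * n)) (fun P => Fa Q U n A (m * P)) := by
  by_cases h1 : m.Prime ∧ Q < m
  · have ha := aw_mem n A m
    have hc : |aw n A m - 1| ≤ 1 := by rw [abs_le]; constructor <;> linarith
    have hB : (Bn U m : ℝ) = 0 ∨ (Bn U m : ℝ) = 1 := by
      rw [Bn_prime h1.1]
      split_ifs
      · right; norm_num
      · left; norm_num
    have hc2 : |1 - 1 / 2 * (Bn U m : ℝ)| ≤ 1 := by
      rcases hB with h | h <;> rw [h] <;> rw [abs_le] <;> constructor <;> norm_num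
    have h2 := ((SL.const m _ hc).add (SL_aw m n A)).mul ((SL.const m _ hc2).add (SL.step m U (-(1 / 2)) (by norm_num)))
    refine ((h2.mul_step Q).mono (by omega)).congr (fun P hP hPm => ?_)
    rw [Fa_mul hP hPm, if_pos h1]
  · refine (SL.zero m _).congr (fun P hP hPm => ?_)
    rw [Fa_mul hP hPm, if_neg h1]

lemma Fa_abs (Q U n : ℕ) (A : ℕ → ℕ) (k : ℕ) : |Fa Q U n A k| ≤ 1 := by
  unfold Fa
  by_cases h : pi2 Q k = 0
  · rw [h, zero_mul, abs_zero]; norm_num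
  · have h1 := Sa_bd n A k
    have h0 := Bn_le U k
    rw [(pi2_sqw h).2] at h1 h0
    have h2 := Pt.pi2_le Q k
    have h3 : |Sa n A k - 1| ≤ 1 := by
      rw [abs_le]
      have h4 : Sa n A k ≤ 2 := by exact_mod_cast h1.2
      constructor <;> linarith
    have h5 : |1 - 1 / 2 * (Bn U k : ℝ)| ≤ 1 := by
      rw [abs_le]
      have h4 : (Bn U k : ℝ) ≤ 2 := by exact_mod_cast h0
      have h6 : (0 : ℝ) ≤ Bn U k := Nat.cast_nonneg _
      constructor <;> linarith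
    rw [abs_mul, abs_of_nonneg h2.1, abs_mul]
    calc pi2 Q k * (|Sa n A k - 1| * |1 - 1 / 2 * (Bn U k : ℝ)|) ≤ 1 * (1 * 1) := by
          apply mul_le_mul h2.2 (mul_le_mul h3 h5 (abs_nonneg _) zero_le_one) _ zero_le_one
          exact mul_nonneg (abs_nonneg _) (abs_nonneg _)
      _ = 1 := by norm_num

lemma ta_mul {Q n : ℕ} {A : ℕ → ℕ} {m P : ℕ} (hP : P.Prime) (hPm : ¬ P ∣ m) :
    ta Q n A (m * P) = if m.Prime ∧ Q < m then
      (if Q < P then (1 : ℝ) else 0) * (1 / 3 * (aw n A m - 1 / 2) + 1 / 3 * aw n A P) else 0 := by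
  unfold ta
  rw [pi2_mul hP hPm]
  by_cases h1 : m.Prime ∧ Q < m
  · rw [if_pos h1]
    obtain ⟨k1, k2, k3⟩ := two_parts h1.1 hP hPm
    have hS : Sa n A (m * P) = aw n A m + aw n A P := by
      rw [← Sa_add k1 k2, k3, Sa_prime h1.1, Sa_prime hP]
    rw [hS]
    by_cases h2 : Q < P
    · rw [if_pos ⟨h1, h2⟩, if_pos h2]; ring
    · rw [if_neg (fun h => h2 h.2), if_neg h2]; ring
  · rw [if_neg h1, if_neg (fun h => h1 h.1)]; ring

lemma SL_ta (Q n : ℕ) (A : ℕ → ℕ) (m : ℕ) : SL m (1 + 2 * n) (fun P => ta Q n A (m * P)) := by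
  by_cases h1 : m.Prime ∧ Q < m
  · have ha := aw_mem n A m
    have hc : |1 / 3 * (aw n A m - 1 / 2)| ≤ 1 := by rw [abs_le]; constructor <;> linarith
    refine (((SL.const m _ hc).add ((SL_aw m n A).smul (1 / 3) (by norm_num [abs_le]))).mul_step Q).congr (fun P hP hPm => ?_)
    rw [ta_mul hP hPm, if_pos h1]
  · refine (SL.zero m _).congr (fun P hP hPm => ?_)
    rw [ta_mul hP hPm, if_neg h1]

lemma ta_abs (Q n : ℕ) (A : ℕ → ℕ) (k : ℕ) : |ta Q n A k| ≤ 1 := by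
  unfold ta
  by_cases h : pi2 Q k = 0
  · rw [h, zero_mul, abs_zero]; norm_num
  · have h1 := Sa_bd n A k
    rw [(pi2_sqw h).2] at h1
    have h2 := Pt.pi2_le Q k
    have h3 : |1 / 3 * (Sa n A k - 1 / 2)| ≤ 1 := by
      rw [abs_le]
      have h4 : Sa n A k ≤ 2 := by exact_mod_cast h1.2
      constructor <;> linarith
    rw [abs_mul, abs_of_nonneg h2.1]
    calc pi2 Q k * |1 / 3 * (Sa n A k - 1 / 2)| ≤ 1 * 1 := mul_le_mul h2.2 h3 (abs_nonneg _) zero_le_one
      _ = 1 := by norm_num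

lemma Ok_Fa (Q U n : ℕ) (A : ℕ → ℕ) : Ok (2 * (1 + 2 * n)) (Fa Q U n A) :=
  Ok_of (fun k => (Fa_abs Q U n A k).trans (by push_cast; have : (0 : ℝ) ≤ n := Nat.cast_nonneg _; linarith))
    (fun m _ => SL_Fa Q U n A m)

lemma Ok_ta (Q n : ℕ) (A : ℕ → ℕ) : Ok (1 + 2 * n) (ta Q n A) :=
  Ok_of (fun k => (ta_abs Q n A k).trans (by push_cast; have : (0 : ℝ) ≤ n := Nat.cast_nonneg _; linarith))
    (fun m _ => SL_ta Q n A m)

/-- the type I coefficients at rough numbers -/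
lemma g3_rough {Q n : ℕ} {A : ℕ → ℕ} {j : ℕ} (hs : Squarefree j) (h : Rough Q j) :
    g3 Q n A j = (if w j = 0 then 1 else 0) - (if w j = 1 then aw n A j else 0) := by
  unfold g3
  rw [bigp_rough h]
  unfold kapa
  change (moebius j : ℝ) * (if w j = 0 then 1 else if w j = 1 then Sa n A j else 0) = _
  by_cases h0 : w j = 0
  · have h3 := one_of_w hs h0
    have m1 : (moebius j : ℝ) = 1 := by rw [h3]; simp
    simp only [h0, m1]
    norm_num
  by_cases h1 : w j = 1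
  · have h3 := prime_of_w hs h1
    have m1 : (moebius j : ℝ) = -1 := by rw [ArithmeticFunction.moebius_apply_prime h3]; simp
    simp only [h1, m1, Sa_prime h3]
    norm_num
  · simp only [h0, h1, if_false]
    ring

/-- the sieve part at a `Q`-rough number -/
lemma Sv_g3 {z U y Q n K N : ℕ} {A : ℕ → ℕ} {zs : ℕ → ℕ} (hU : 1 ≤ U) (hA : ∀ i < n, A i ≤ U)
    (hzK : zs K = Q) (hmono0 : ∀ i < K, zs i ≤ zs (i + 1)) (hro : Rough z N) (hsq : Squarefree N) (hr : Rough Q N) :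
    Sv (g3 Q n A) z U y K zs N = 1 - Sa n A N := by
  classical
  rw [Sv_case2 hzK hmono0 hro hr, sum_filter]
  have h1 : ∑ j ∈ N.divisors, (if j = 1 then (1 : ℝ) else 0) = 1 := by
    rw [sum_ite_eq' N.divisors 1 (fun _ => (1 : ℝ)), if_pos (Nat.one_mem_divisors.2 hro.1)]
  have h2 : Sa n A N = ∑ j ∈ N.divisors, (if w j = 1 then aw n A j else 0) := by
    unfold Sa
    rw [← c1 hsq, sum_filter]
  rw [h2, ← h1, ← sum_sub_distrib]
  apply sum_congr rfl
  intro j hj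
  rw [Nat.mem_divisors] at hj
  have hjs : Squarefree j := hsq.squarefree_of_dvd hj.1
  have hjr : Rough Q j := rough_of_dvd hr hj.1
  by_cases h3 : j ≤ U
  · rw [if_pos h3, g3_rough hjs hjr]
    by_cases h4 : w j = 0
    · have h5 := one_of_w hjs h4
      have h6 : (if j = 1 then (1 : ℝ) else 0) = 1 := if_pos h5
      simp [h4, h6]
    · have h5 : j ≠ 1 := by
        rintro rfl
        simp [w] at h4
      simp [h4, h5]
  · have h4 : j ≠ 1 := by omega
    have h5 : aw n A j = 0 := aw_zero hA (by omega)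
    simp [h3, h4, h5]

end Pool.Agent.H568
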