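import Mathlib
import Pool.Agent.H568.Na1

/-!
The values of the combination of type I and type II functions at good numbers.
-/

set_option autoImplicit false

namespace Pool.Agent.H568

open Finset Pool.Agent.N792 Pool.Agent.N792.RX5
open Pool.Agent.N792.SwR (rough_of_dvd)
open ArithmeticFunction (moebius)

/-- the combination of type I and type II functions -/
noncomputable def H3 (z U y Q n : ℕ) (A : ℕ → ℕ) (K : ℕ) (zs : ℕ → ℕ) (N : ℕ) : ℝ :=
  Sv (g3 Q n A) z U y K zs N - T2 z U y pi0 pi0 N + T2 z U y pi0 (Fa Q U n A) N + T2 z U y (Fa Q U n A) pi0 N +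
    T2 z U y (ta Q n A) (pi2 Q) N + T2 z U y (pi2 Q) (ta Q n A) N

open Classical in
/-- the products of two primes, one of them `≤ U` -/
noncomputable def X2e (Q U n : ℕ) (A : ℕ → ℕ) (N : ℕ) : ℝ :=
  if Squarefree N ∧ Rough Q N ∧ w N = 2 ∧ Bn U N < 2 then 1 - Sa n A N else 0

open Classical in
/-- the products of three primes `≤ U` -/
noncomputable def X3e (Q U n : ℕ) (A : ℕ → ℕ) (N : ℕ) : ℝ :=
  if Squarefree N ∧ Rough Q N ∧ w N = 3 ∧ Bn U N = 0 then 1 - Sa n A N else 0

/-- the value of the combination -/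
noncomputable def G3 (Q U n : ℕ) (A : ℕ → ℕ) (N : ℕ) : ℝ := pi0 N + X2e Q U n A N + X3e Q U n A N

lemma card_small {U N : ℕ} (hsq : Squarefree N) : #(N.divisors.filter (fun j => w j = 1 ∧ j ≤ U)) + Bn U N = w N := by
  classical
  have h1 : N.divisors.filter (fun j => w j = 1 ∧ j ≤ U) = N.primeFactors.filter (fun j => j ≤ U) := by
    rw [← c1 hsq, filter_filter]
  rw [h1, Bn, w, ← card_union_of_disjoint]
  · congr 1
    ext p
    simp only [mem_union, mem_filter]
    constructor
    · rintro (h | h)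
      · exact h.1
      · exact h.1
    · intro h
      rcases le_or_gt p U with h2 | h2
      · exact Or.inl ⟨h, h2⟩
      · exact Or.inr ⟨h, h2⟩
  · rw [disjoint_left]
    intro p hp hp'
    rw [mem_filter] at hp hp'
    omega

/-- **the values of the combination at `Q`-rough numbers** -/
lemma H3_case2 {z U y Q n K N : ℕ} {A : ℕ → ℕ} {zs : ℕ → ℕ} (hU : 1 ≤ U) (hA : ∀ i < n, A i ≤ U) (hUy : U ≤ y)
    (hzK : zs K = Q) (hmono0 : ∀ i < K, zs i ≤ zs (i + 1)) (hyN : y * y < N) (hN5 : N < Q ^ 5)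
    (hUQ : U ≤ Q * Q) (hU3 : N ≤ U * U * U)
    (hsq : Squarefree N) (hro : Rough z N) (hne : ∀ j, j ∣ N → ¬ (y ≤ j ∧ y ≤ N / j))
    (hr : Rough Q N) :
    H3 z U y Q n A K zs N = G3 Q U n A N := by
  classical
  have hN0 := hro.1
  have hf1 : ∀ j, j ∣ N → pi0 j = if w j = 1 then 1 else 0 := fun j hj => pi0_w (hsq.squarefree_of_dvd hj)
  have hf2 : ∀ j, j ∣ N → pi2 Q j = if w j = 2 then 1 else 0 :=
    fun j hj => pi2_w (hsq.squarefree_of_dvd hj) (rough_of_dvd hr hj)
  have hfF : ∀ j, j ∣ N → Fa Q U n A j = if w j = 2 then (Sa n A j - 1) * (1 - 1 / 2 * (Bn U j : ℝ)) else 0 := by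
    intro j hj
    unfold Fa
    rw [hf2 j hj]
    split_ifs <;> ring
  have hft : ∀ j, j ∣ N → ta Q n A j = if w j = 2 then 1 / 3 * (Sa n A j - 1 / 2) else 0 := by
    intro j hj
    unfold ta
    rw [hf2 j hj]
    split_ifs <;> ring
  have hwp := w_pow hr
  have hw1 : w N ≠ 0 := by
    intro h
    have h1 := one_of_w hsq h
    subst h1
    have : y = 0 := by nlinarith
    omega
  have hw5 : w N < 5 := by
    by_contra h
    push Not at h
    have h5 : (Q + 1) ^ 5 ≤ (Q + 1) ^ w N := Nat.pow_le_pow_right (by omega) h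
    have h6 : Q ^ 5 ≤ (Q + 1) ^ 5 := Nat.pow_le_pow_left (by omega) 5
    omega
  obtain ⟨S, hS⟩ : ∃ S, S = Sa n A N := ⟨_, rfl⟩
  obtain ⟨v, hv⟩ : ∃ v, v = Bn U N := ⟨_, rfl⟩
  have hUN : U < N := by
    have : y ≤ y * y := Nat.le_mul_self y
    omega
  -- large divisors
  have hdiv : ∀ j, j ∣ N → j ≤ y → y < N / j := by
    intro j hj h1
    by_contra h
    push Not at h
    have := Nat.mul_div_cancel' hj
    have h4 : j * (N / j) ≤ y * y := Nat.mul_le_mul h1 h
    omega
  have hSbig : ∀ j, j ∣ N → w j = 1 → U < j → Sa n A (N / j) = S ∧ (Bn U (N / j) : ℝ) = v - 1 := by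
    intro j hj h1 h2
    have h3 := prime_of_w (hsq.squarefree_of_dvd hj) h1
    have h4 := Sa_add (n := n) (A := A) hsq hj
    have h5 := Bn_add (U := U) hsq hj
    rw [Sa_prime h3, aw_zero hA h2, zero_add] at h4
    rw [Bn_prime h3, if_pos h2] at h5
    refine ⟨by rw [h4, hS], ?_⟩
    have h6 : (1 : ℝ) + Bn U (N / j) = v := by rw [hv]; exact_mod_cast h5
    linarith
  -- the T2 sums
  have t1 := T2_w (U := U) (y := y) hro hsq hf1 hf1
  have t2 := T2_F (U := U) (y := y) (F := fun _ => 1) hro hsq hf1 hfF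
  have t3 := T2_F (U := U) (y := y) (G := fun _ => 1) hro hsq hfF hf1
  have t4 := T2_F (U := U) (y := y) (G := fun _ => 1) hro hsq hft hf2
  have t5 := T2_F (U := U) (y := y) (F := fun _ => 1) hro hsq hf2 hft
  have s1 := split1 N.divisors (U := U) (y := y) (a := 1) hUy
  have s2 := split2 N.divisors (y := y) (a := 1)
  have s4 := split1 N.divisors (U := U) (y := y) (a := 2) hUy
  have s5 := split2 N.divisors (y := y) (a := 2)
  have n1 : #(N.divisors.filter (fun j => w j = 1)) = w N := by rw [c1 hsq, w]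
  have n2 := c2 hsq
  rw [n1] at s2
  rw [n2] at s5
  have cs := card_small (U := U) hsq
  have e2 : ∑ j ∈ N.divisors.filter (fun j => w j = 1 ∧ U < j ∧ j ≤ y),
      (1 : ℝ) * ((Sa n A (N / j) - 1) * (1 - 1 / 2 * (Bn U (N / j) : ℝ))) =
      (#(N.divisors.filter (fun j => w j = 1 ∧ U < j ∧ j ≤ y)) : ℝ) * ((S - 1) * (1 - 1 / 2 * (v - 1))) := by
    rw [← nsmul_eq_mul]
    apply sum_eq_card_nsmul
    intro j hj
    rw [mem_filter, Nat.mem_divisors] at hj
    obtain ⟨k1, k2⟩ := hSbig j hj.1.1 hj.2.1 hj.2.2.1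
    rw [k1, k2, one_mul]
  have e3 : w N = 3 → ∑ j ∈ N.divisors.filter (fun j => w j = 2 ∧ U < j ∧ j ≤ y),
      (Sa n A j - 1) * (1 - 1 / 2 * (Bn U j : ℝ)) * (1 : ℝ) =
      (#(N.divisors.filter (fun j => w j = 2 ∧ U < j ∧ j ≤ y)) : ℝ) * ((S - 1) * (1 - 1 / 2 * (v - 1))) := by
    intro hk
    rw [← nsmul_eq_mul]
    apply sum_eq_card_nsmul
    intro j hj
    rw [mem_filter, Nat.mem_divisors] at hj
    have h1 := w_add hsq hj.1.1
    have h2 := hdiv j hj.1.1 hj.2.2.2
    have h3 := hSbig (N / j) (Nat.div_dvd_of_dvd hj.1.1) (by omega) (by omega)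
    rw [Nat.div_div_self hj.1.1 hN0] at h3
    rw [h3.1, h3.2, mul_one]
  have e45 : ∑ j ∈ N.divisors.filter (fun j => w j = 2 ∧ U < j ∧ j ≤ y), 1 / 3 * (Sa n A j - 1 / 2) * (1 : ℝ) +
      ∑ j ∈ N.divisors.filter (fun j => w j = 2 ∧ U < j ∧ j ≤ y), (1 : ℝ) * (1 / 3 * (Sa n A (N / j) - 1 / 2)) =
      (#(N.divisors.filter (fun j => w j = 2 ∧ U < j ∧ j ≤ y)) : ℝ) * (1 / 3 * (S - 1)) := by
    rw [← sum_add_distrib, ← nsmul_eq_mul]
    apply sum_eq_card_nsmul
    intro j hj
    rw [mem_filter, Nat.mem_divisors] at hj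
    have h1 := Sa_add (n := n) (A := A) hsq hj.1.1
    rw [hS, ← h1]
    ring
  have hB4 : #(N.divisors.filter (fun j => w j = 2 ∧ j ≤ U)) = 0 := by
    rw [card_eq_zero]
    apply filter_eq_empty_iff.2
    rintro j hj ⟨h1, h2⟩
    rw [Nat.mem_divisors] at hj
    have h3 := w_pow (rough_of_dvd hr hj.1)
    rw [h1] at h3
    have h4 : (Q + 1) ^ 2 = Q * Q + 2 * Q + 1 := by ring
    omega
  unfold H3 G3
  rw [Sv_g3 hU hA hzK hmono0 hro hsq hr, t1, t2, t3, t4, t5, ← hS, hf1 N dvd_rfl]
  generalize e6 : #(N.divisors.filter (fun j => w j = 1 ∧ U < j ∧ j ≤ y)) = B1 at *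
  generalize e7 : #(N.divisors.filter (fun j => w j = 2 ∧ U < j ∧ j ≤ y)) = B3 at *
  generalize e8 : #(N.divisors.filter (fun j => w j = 2 ∧ j ≤ U)) = B4 at *
  generalize e9 : #(N.divisors.filter (fun j => w j = 1 ∧ j ≤ U)) = B0 at *
  have hcases : w N = 1 ∨ w N = 2 ∨ w N = 3 ∨ w N = 4 := by omega
  rcases hcases with hk | hk | hk | hk
  · -- `N` is a prime
    have h3 := prime_of_w hsq hk
    have h4 : S = 0 := by
      rw [hS, Sa_prime h3]
      exact aw_zero hA hUN
    have x2 : X2e Q U n A N = 0 := by unfold X2e; rw [if_neg (fun h => by omega)]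
    have x3 : X3e Q U n A N = 0 := by unfold X3e; rw [if_neg (fun h => by omega)]
    rw [x2, x3]
    simp only [hk]
    norm_num
    rw [h4]
  · -- two primes
    have i1 := inv (a := 1) (b := 1) hsq hyN hne (by omega)
    have x3 : X3e Q U n A N = 0 := by unfold X3e; rw [if_neg (fun h => by omega)]
    rw [x3]
    by_cases hv2 : Bn U N < 2
    · have x2 : X2e Q U n A N = 1 - S := by unfold X2e; rw [if_pos ⟨hsq, hr, hk, hv2⟩, hS]
      rw [x2]
      have h8 : B1 = 0 := by omega
      simp only [hk]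
      norm_num
      rw [h8]
    · have x2 : X2e Q U n A N = 0 := by unfold X2e; rw [if_neg (fun h => hv2 h.2.2.2)]
      rw [x2]
      have h8 : B1 = 1 := by omega
      have h9 : S = 0 := by
        rw [hS]
        unfold Sa
        apply sum_eq_zero
        intro p hp
        apply aw_zero hA
        by_contra hc
        have h10 : N.primeFactors.filter (fun p => U < p) ⊆ N.primeFactors.erase p := by
          intro q hq
          rw [mem_filter] at hq
          rw [mem_erase]
          exact ⟨by rintro rfl; exact hc hq.2, hq.1⟩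
        have h11 := card_le_card h10
        rw [card_erase_of_mem hp] at h11
        have h12 : #N.primeFactors = 2 := hk
        have h13 : Bn U N = #(N.primeFactors.filter (fun p => U < p)) := rfl
        omega
      simp only [hk]
      norm_num
      rw [h8, h9]
      push_cast
      ring
  · -- three primes
    have i1 := inv (a := 2) (b := 1) hsq hyN hne (by omega)
    have x2 : X2e Q U n A N = 0 := by unfold X2e; rw [if_neg (fun h => by omega)]
    rw [x2]
    have hv3 : v ≠ 3 := by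
      intro h
      have hrU : Rough U N := by
        refine ⟨hN0, fun p hp hpN => ?_⟩
        by_contra h2
        push Not at h2
        have h3 : p ∈ N.divisors.filter (fun j => w j = 1 ∧ j ≤ U) :=
          mem_filter.2 ⟨Nat.mem_divisors.2 ⟨hpN, hsq.ne_zero⟩, w_prime hp, h2⟩
        have h4 : B0 = 0 := by omega
        rw [card_eq_zero.1 (e9.trans h4)] at h3
        simp at h3
      have h1 := w_pow hrU
      rw [hk] at h1
      have h2 : (U + 1) ^ 3 = U * U * U + 3 * (U * U) + 3 * U + 1 := by ring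
      omega
    have hsum : (B1 : ℝ) + B3 = v := by
      have : B1 + B3 = v := by omega
      exact_mod_cast this
    have e3' := e3 hk
    simp only [hk]
    norm_num at e2 e3' ⊢
    rw [e2, e3']
    by_cases hv0 : v = 0
    · have x3 : X3e Q U n A N = 1 - S := by unfold X3e; rw [if_pos ⟨hsq, hr, hk, by omega⟩, hS]
      have h1 : B1 = 0 := by omega
      have h2 : B3 = 0 := by omega
      rw [x3, h1, h2]
      push_cast
      ring
    · have x3 : X3e Q U n A N = 0 := by unfold X3e; rw [if_neg (fun h => hv0 (by omega))]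
      rw [x3]
      have h3 : (v : ℝ) = 1 ∨ (v : ℝ) = 2 := by
        have : v = 1 ∨ v = 2 := by omega
        rcases this with h | h
        · left; rw [h]; norm_num
        · right; rw [h]; norm_num
      have h4 : 1 - S + (B1 : ℝ) * ((S - 1) * (1 - 1 / 2 * ((v : ℝ) - 1))) + (B3 : ℝ) * ((S - 1) * (1 - 1 / 2 * ((v : ℝ) - 1))) =
          1 - S + ((B1 : ℝ) + B3) * ((S - 1) * (1 - 1 / 2 * ((v : ℝ) - 1))) := by ring
      rw [h4, hsum]
      rcases h3 with h | h <;> rw [h] <;> ring
  · -- four primes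
    have i1 := inv (a := 2) (b := 2) hsq hyN hne (by omega)
    rw [hk] at s5
    have c42 : Nat.choose 4 2 = 6 := by decide
    rw [c42] at s5
    have h1 : B3 = 3 := by omega
    have x2 : X2e Q U n A N = 0 := by unfold X2e; rw [if_neg (fun h => by omega)]
    have x3 : X3e Q U n A N = 0 := by unfold X3e; rw [if_neg (fun h => by omega)]
    rw [x2, x3]
    simp only [hk]
    norm_num at e45 ⊢
    rw [h1] at e45
    push_cast at e45
    linarith

end Pool.Agent.H568
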