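import Mathlib
import Pool.Agent.H568.Na2
import Pool.Agent.H568.P2

/-!
The pointwise comparison for all numbers.
-/

set_option autoImplicit false

namespace Pool.Agent.H568

open Finset Pool.Agent.N792 Pool.Agent.N792.RX5
open Pool.Agent.N792.SwR (rough_of_dvd)
open ArithmeticFunction (moebius)

lemma X2e_bd (Q U n : ℕ) (A : ℕ → ℕ) (N : ℕ) : |X2e Q U n A N| ≤ 1 := by
  unfold X2e
  split_ifs with h
  · have h1 := Sa_bd n A N
    rw [h.2.2.1] at h1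
    have h2 : Sa n A N ≤ 2 := by exact_mod_cast h1.2
    rw [abs_le]
    constructor <;> linarith
  · simp

lemma X3e_bd (Q U n : ℕ) (A : ℕ → ℕ) (N : ℕ) : |X3e Q U n A N| ≤ 2 := by
  unfold X3e
  split_ifs with h
  · have h1 := Sa_bd n A N
    rw [h.2.2.1] at h1
    have h2 : Sa n A N ≤ 3 := by exact_mod_cast h1.2
    rw [abs_le]
    constructor <;> linarith
  · simp

lemma G3_bd (Q U n : ℕ) (A : ℕ → ℕ) (N : ℕ) : |G3 Q U n A N| ≤ 4 := by
  have h1 := X2e_bd Q U n A N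
  have h2 := X3e_bd Q U n A N
  have h3 := Pt.pi0_le N
  unfold G3
  rw [abs_le] at h1 h2 ⊢
  constructor <;> linarith

lemma G3_zero {Q U n : ℕ} {A : ℕ → ℕ} {N : ℕ} (h : ¬ Rough Q N) : G3 Q U n A N = pi0 N := by
  unfold G3 X2e X3e
  rw [if_neg (fun h2 => h h2.2.1), if_neg (fun h2 => h h2.2.1)]
  ring

/-- **the values at the good numbers** -/
theorem H3_good {z U y Q n K N : ℕ} {A : ℕ → ℕ} {zs : ℕ → ℕ} (hU : 1 ≤ U) (hA : ∀ i < n, A i ≤ U) (hQU : Q ≤ U) (hUy : U ≤ y)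
    (hz0 : zs 0 = z) (hzK : zs K = Q) (hmono0 : ∀ i < K, zs i ≤ zs (i + 1)) (hyN : y * y < N) (hN5 : N < Q ^ 5)
    (hUQ : U ≤ Q * Q) (hU3 : N ≤ U * U * U) (hUUQ : U * U * Q < N)
    (hsq : Squarefree N) (hro : Rough z N) (hne : ∀ j, j ∣ N → ¬ (y ≤ j ∧ y ≤ N / j))
    (huniq : ∀ i < K, ∀ p q : ℕ, p.Prime → q.Prime → p ∣ N → q ∣ N → zs i < p → p ≤ zs (i + 1) → zs i < q →
      q ≤ zs (i + 1) → p = q) :
    H3 z U y Q n A K zs N = G3 Q U n A N := by
  by_cases hQ : Rough Q N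
  · exact H3_case2 hU hA hUy hzK hmono0 hyN hN5 hUQ hU3 hsq hro hne hQ
  · have hp0 : ∀ j, Q ≤ U → U < j → pi0 j ≠ 0 → Rough Q j := fun j h1 h2 h3 => prime_rough (pi0_ne h3) (by omega)
    have hp1 : ∀ j, j ∣ N → j ≤ y → pi0 (N / j) ≠ 0 → Rough Q (N / j) := by
      intro j hj h1 h3
      refine prime_rough (pi0_ne h3) ?_
      by_contra h
      push Not at h
      have := Nat.mul_div_cancel' hj
      have h4 : j * (N / j) ≤ y * y := Nat.mul_le_mul h1 (by omega)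
      omega
    have hF : ∀ k, Fa Q U n A k ≠ 0 → Rough Q k := fun k h => pi2_ne (left_ne_zero_of_mul h)
    have ht : ∀ k, ta Q n A k ≠ 0 → Rough Q k := fun k h => pi2_ne (left_ne_zero_of_mul h)
    have e1 : H3 z U y Q n A K zs N = 0 := by
      unfold H3
      rw [Sv_case1 (g3_mul Q n A) hz0 hzK hmono0 hyN hUUQ hsq hro hne huniq hQ,
        T2_zero hro hQ (fun j _ h1 h2 => hp0 j hQU h1 h2) (fun j hj _ h1 h2 => hp1 j hj h1 h2),
        T2_zero hro hQ (fun j _ h1 h2 => hp0 j hQU h1 h2) (fun j hj _ h1 h2 => hF _ h2),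
        T2_zero hro hQ (fun j _ h1 h2 => hF _ h2) (fun j hj _ h1 h2 => hp1 j hj h1 h2),
        T2_zero hro hQ (fun j _ h1 h2 => ht _ h2) (fun j hj _ h1 h2 => pi2_ne h2),
        T2_zero hro hQ (fun j _ h1 h2 => pi2_ne h2) (fun j hj _ h1 h2 => ht _ h2)]
      ring
    have h6 : pi0 N = 0 := by
      by_contra h
      have h7 := pi0_ne h
      apply hQ
      refine prime_rough h7 ?_
      have h9 : y ≤ y * y := Nat.le_mul_self y
      omega
    rw [e1, G3_zero hQ, h6]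

lemma H3_abs (z U y Q n : ℕ) (A : ℕ → ℕ) (K : ℕ) (zs : ℕ → ℕ) (hm : ∀ i < K, zs i ≤ zs (i + 1)) (N : ℕ) (hN : N ≠ 0) :
    |H3 z U y Q n A K zs N| ≤ 14 * (#N.divisors : ℝ) ^ 2 := by
  have hpi0 : ∀ j, |pi0 j| ≤ 1 := fun j => by rw [abs_of_nonneg (Pt.pi0_le j).1]; exact (Pt.pi0_le j).2
  have hpi2 : ∀ j, |pi2 Q j| ≤ 1 := fun j => by rw [abs_of_nonneg (Pt.pi2_le Q j).1]; exact (Pt.pi2_le Q j).2
  have hD1 : (1 : ℝ) ≤ #N.divisors := by
    have : 1 ≤ #N.divisors := card_pos.2 ⟨1, by rw [Nat.mem_divisors]; exact ⟨one_dvd _, hN⟩⟩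
    exact_mod_cast this
  have hDD : (#N.divisors : ℝ) ≤ (#N.divisors : ℝ) ^ 2 := le_self_pow₀ hD1 (by norm_num)
  have t0 := Sv_abs le_rfl (g3_abs Q n A) (z := z) (U := U) (y := y) hm hN
  have t3 := Pt.T2_abs1 z U y pi0 pi0 N hpi0 hpi0
  have t4 := Pt.T2_abs1 z U y pi0 (Fa Q U n A) N hpi0 (Fa_abs Q U n A)
  have t5 := Pt.T2_abs1 z U y (Fa Q U n A) pi0 N (Fa_abs Q U n A) hpi0
  have t6 := Pt.T2_abs1 z U y (ta Q n A) (pi2 Q) N (ta_abs Q n A) hpi2
  have t7 := Pt.T2_abs1 z U y (pi2 Q) (ta Q n A) N hpi2 (ta_abs Q n A)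
  unfold H3
  rw [abs_le] at t0 t3 t4 t5 t6 t7 ⊢
  constructor <;> linarith

/-- **the pointwise comparison** -/
theorem pt3 (z U y Q n K N : ℕ) (A : ℕ → ℕ) (zs : ℕ → ℕ) (D : ℝ) (hU : 1 ≤ U) (hA : ∀ i < n, A i ≤ U) (hQU : Q ≤ U) (hUy : U ≤ y)
    (h0 : zs 0 = z) (hK : zs K = Q) (hm : ∀ i < K, zs i ≤ zs (i + 1)) (h1 : y * y < N) (h2 : N < Q ^ 5)
    (hUQ : U ≤ Q * Q) (hU3 : N ≤ U * U * U) (hUUQ : U * U * Q < N)
    (hD : Rough z N → (#N.divisors : ℝ) ≤ D) :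
    |H3 z U y Q n A K zs N - G3 Q U n A N| ≤ 18 * D ^ 2 * Bad z y Q K zs N := by
  classical
  have hmono : ∀ i i' : ℕ, i ≤ i' → i' ≤ K → zs i ≤ zs i' := by
    intro i i' h
    induction i', h using Nat.le_induction with
    | base => intro _; exact le_rfl
    | succ n hn ih =>
      intro hn2
      exact (ih (by omega)).trans (hm n (by omega))
  have hzQ : z ≤ Q := by rw [← h0, ← hK]; exact hmono 0 K (by omega) le_rfl
  have hB := Pt.Bad_nonneg z y Q K zs N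
  have hN0 : N ≠ 0 := by omega
  have hyN : y < N := by nlinarith
  by_cases hr : Rough z N
  swap
  · have hrg : rg z N = 0 := by unfold rg; rw [if_neg hr]
    have hH : H3 z U y Q n A K zs N = 0 := by
      unfold H3
      rw [Sv_case0 hr]
      unfold T2
      simp [hrg]
    have hp0 : pi0 N = 0 := by
      unfold pi0
      rw [if_neg]
      intro hp
      apply hr
      refine ⟨hN0, fun p hp' hd => ?_⟩
      rw [(Nat.prime_dvd_prime_iff_eq hp' hp).1 hd]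
      omega
    have hrQ : ¬ Rough Q N := by
      intro h
      apply hr
      exact ⟨h.1, fun p hp hd => lt_of_le_of_lt hzQ (h.2 p hp hd)⟩
    have hpos : 0 ≤ 18 * D ^ 2 * Bad z y Q K zs N := by positivity
    rw [hH, G3_zero hrQ, hp0, sub_zero, abs_zero]
    exact hpos
  · have hD' := hD hr
    have hD1 : (1 : ℝ) ≤ D := by
      refine le_trans ?_ hD'
      have : 1 ≤ #N.divisors := card_pos.2 ⟨1, by rw [Nat.mem_divisors]; exact ⟨one_dvd _, hN0⟩⟩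
      exact_mod_cast this
    have g5 : (1 : ℝ) ≤ D ^ 2 := one_le_pow₀ hD1
    rcases good_or_bad (y := y) hK hm hr with hb | ⟨hsq, hne, huniq⟩
    · have g1 := H3_abs z U y Q n A K zs hm N hN0
      have g2 : (#N.divisors : ℝ) ^ 2 ≤ D ^ 2 := pow_le_pow_left₀ (Nat.cast_nonneg _) hD' 2
      have g6 : 18 * D ^ 2 * 1 ≤ 18 * D ^ 2 * Bad z y Q K zs N := mul_le_mul_of_nonneg_left hb (by positivity)
      have g7 := G3_bd Q U n A N
      rw [abs_le] at g1 g7 ⊢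
      constructor <;> linarith
    · rw [H3_good hU hA hQU hUy h0 hK hm h1 h2 hUQ hU3 hUUQ hsq hr hne huniq, sub_self, abs_zero]
      positivity

end Pool.Agent.H568
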