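import Mathlib
import Pool.Agent.H568.Mn1

/-!
Upper bounds for weighted sums over integers with a large prime factor, with an arbitrarily small loss.
-/

set_option autoImplicit false

namespace Pool.Agent.H568

open Finset Filter Topology Pool.Agent.N792 Pool.Agent.N791.U

open RX4 in
/-- **the upper bound for sums over integers with a large prime factor** -/
theorem main_leD (a : ℤ) (ha : 0 < a) (Λ : ℝ) (hΛ : 1 ≤ Λ) (R : ℕ) (τ η δ : ℝ) (hτ : 0 ≤ τ) (hη : 0 < η) (hδ : 0 < δ) (hδ1 : δ ≤ 1 / 10000) :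
    ∀ᶠ x : ℕ in atTop, ∀ b : ℤ, (b : ℝ) ^ 2 ≤ Λ * x → ∀ x1 x2 : ℕ, x1 < x2 → x2 ≤ x → x ≤ R * x1 →
    ∀ (ι : Type) (S : Finset ι) (wt : ι → ℝ) (m : ι → ℕ),
    (∀ t ∈ S, 0 ≤ wt t ∧ 0 < m t ∧ Real.log (m t) ≤ 169 / 100 * Real.log x) →
    ∑ t ∈ S, wt t / (m t * ((2 - δ) * Real.log x - Real.log (m t))) ≤ τ / Real.log x →
    ∀ W : ℕ → ℝ, (∀ N : ℕ, (2 - δ) * Real.log x ≤ Real.log N → Real.log N ≤ (2 + δ) * Real.log x → 0 < N →
      W N ≤ ∑ t ∈ S, wt t * (if m t ∣ N then pi0 (N / m t) else 0)) →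
    Ls a b x1 x2 W ≤ τ * (((x2 : ℝ) - x1) / Real.log x) + η * (x / Real.log x) := by
  obtain ⟨C, hC0, hC⟩ := QS2.prime_sum 4
  have hl : Tendsto (fun x : ℕ => Real.log x) atTop atTop :=
    Real.tendsto_log_atTop.comp tendsto_natCast_atTop_atTop
  filter_upwards [hl.eventually_ge_atTop 20, ev_b Λ hΛ (6 * τ / η), ev_b Λ hΛ (2 * R),
    Lam.pow_ev (6 * R * τ / η) (169 / 100) 2 (by norm_num),
    hl.eventually_ge_atTop (12288 * (C * R * τ) / η),
    hl.eventually_ge_atTop (Real.log (4 * R ^ 2) / δ),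
    hl.eventually_ge_atTop (Real.log (4 * a) / δ), eventually_ge_atTop 3] with x hL hb' hbR' hsx hLC hLR hLa hx3
  intro b hbΛ x1 x2 hx12 hx2 hxR ι S wt m hm hT W hW
  have hb := hb' b hbΛ
  have hbR := hbR' b hbΛ
  have ha1 : (1 : ℝ) ≤ a := by exact_mod_cast ha
  have ha0 : (0 : ℝ) < a := by linarith
  have hb0 := abs_nonneg (b : ℝ)
  have hX : (0 : ℝ) < x := by
    have : 0 < x := by omega
    exact_mod_cast this
  have hR1 : (1 : ℝ) ≤ R := by
    rcases Nat.eq_zero_or_pos R with h | h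
    · rw [h, zero_mul] at hxR; omega
    · exact_mod_cast h
  have hXR : (x : ℝ) ≤ R * x1 := by exact_mod_cast hxR
  have hx12' : (x1 : ℝ) < x2 := by exact_mod_cast hx12
  have hx2' : (x2 : ℝ) ≤ x := by exact_mod_cast hx2
  have hx1b : 2 * (|(b : ℝ)| + 1) ≤ x1 := by
    have : (R : ℝ) * (2 * (|(b : ℝ)| + 1)) ≤ R * x1 := by linarith
    exact le_of_mul_le_mul_left this (by linarith)
  have hx1R : (x : ℝ) / (2 * R) ≤ x1 / 2 := by
    rw [div_le_div_iff₀ (by positivity) (by norm_num)]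
    linarith
  have hn1 : |b| ≤ (x1 : ℤ) := by
    have : |(b : ℝ)| ≤ x1 := by linarith
    exact_mod_cast this
  have hn2 : |b| ≤ (x2 : ℤ) := hn1.trans (by exact_mod_cast hx12.le)
  have hx1p : 1 ≤ x1 := by
    have : (1 : ℝ) ≤ x1 := by linarith
    exact_mod_cast this
  obtain ⟨F1, hF1e⟩ : ∃ F1, F1 = Fn a b x1 := ⟨_, rfl⟩
  obtain ⟨F2, hF2e⟩ : ∃ F2, F2 = Fn a b x2 := ⟨_, rfl⟩
  have g1 := lsl_sqrt ha b hn1 hx1p
  have g2 := lsl_sqrt ha b hn2 (by omega)
  rw [← hF1e] at g1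
  rw [← hF2e] at g2
  obtain ⟨g1l, g1u⟩ := abs_le.1 g1
  obtain ⟨g2l, g2u⟩ := abs_le.1 g2
  have hG1 : (x : ℝ) / (2 * R) ≤ √((F1 : ℝ) / a) := by linarith
  have hG2 : √((F2 : ℝ) / a) ≤ 2 * x := by linarith
  have hG12 : √((F2 : ℝ) / a) - √((F1 : ℝ) / a) ≤ x2 - x1 + 2 * |(b : ℝ)| := by linarith
  have hG10 : 0 < √((F1 : ℝ) / a) := lt_of_lt_of_le (by positivity) hG1
  have hF1a : 0 < (F1 : ℝ) / a := Real.sqrt_pos.1 hG10
  have hF1r : (0 : ℝ) < F1 := by
    have := mul_pos hF1a ha0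
    rwa [div_mul_cancel₀ _ ha0.ne'] at this
  have hF1 : 1 ≤ F1 := by exact_mod_cast hF1r
  have hG12' : √((F1 : ℝ) / a) ≤ √((F2 : ℝ) / a) := by
    rw [hF1e, hF2e, lsl_Fn_cast ha b hn1, lsl_Fn_cast ha b hn2]
    apply Real.sqrt_le_sqrt
    apply div_le_div_of_nonneg_right _ ha0.le
    have hb2 := neg_abs_le (b : ℝ)
    nlinarith [mul_nonneg (by linarith : (0 : ℝ) ≤ (x2 : ℝ) - x1) (by nlinarith : (0 : ℝ) ≤ a * ((x2 : ℝ) + x1) + b)]
  have hG20 : 0 < √((F2 : ℝ) / a) := by linarith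
  have hF2a : 0 < (F2 : ℝ) / a := Real.sqrt_pos.1 hG20
  have hF2r : (0 : ℝ) < F2 := by
    have := mul_pos hF2a ha0
    rwa [div_mul_cancel₀ _ ha0.ne'] at this
  have hF12 : F1 ≤ F2 := by
    have : (F1 : ℝ) ≤ F2 := by
      have h2 := mul_self_le_mul_self hG10.le hG12'
      rw [Real.mul_self_sqrt hF1a.le, Real.mul_self_sqrt hF2a.le] at h2
      exact (div_le_div_iff_of_pos_right ha0).1 h2
    exact_mod_cast this
  rw [div_le_iff₀ hδ] at hLR hLa
  have hf1 : 2 * Real.log x - δ * Real.log x ≤ Real.log F1 := by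
    have h1 : (x : ℝ) ^ 2 / (4 * R ^ 2) ≤ F1 := by
      have h2 := mul_self_le_mul_self (by positivity) hG1
      rw [Real.mul_self_sqrt hF1a.le] at h2
      have h3 : (F1 : ℝ) / a ≤ F1 := div_le_self hF1r.le ha1
      have h4 : (x : ℝ) ^ 2 / (4 * R ^ 2) = x / (2 * R) * (x / (2 * R)) := by
        field_simp
        ring
      rw [h4]
      exact h2.trans h3
    have h2 := Real.log_le_log (by positivity) h1
    rw [Real.log_div (by positivity) (by positivity), Real.log_pow] at h2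
    push_cast at h2
    linarith
  have hf2 : Real.log F2 ≤ 2 * Real.log x + δ * Real.log x := by
    have h1 : (F2 : ℝ) ≤ 4 * a * x ^ 2 := by
      have h2 := mul_self_le_mul_self hG20.le hG2
      rw [Real.mul_self_sqrt hF2a.le, div_le_iff₀ ha0] at h2
      linarith
    have h2 := Real.log_le_log hF2r h1
    rw [Real.log_mul (by positivity) (by positivity), Real.log_pow] at h2
    push_cast at h2
    linarith
  obtain ⟨L, hLe⟩ : ∃ L : ℝ, L = Real.log x := ⟨_, rfl⟩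
  rw [← hLe] at hL hLC hLR hLa hm hT hf1 hf2 hW ⊢
  have hL0 : 0 < L := by linarith
  have hδL : 0 < δ * L := mul_pos hδ hL0
  have hδL1 : δ * L ≤ 1 / 10000 * L := mul_le_mul_of_nonneg_right hδ1 hL0.le
  have hm0 : ∀ t ∈ S, (0 : ℝ) < m t := fun t ht => by exact_mod_cast (hm t ht).2.1
  have hden : ∀ t ∈ S, 3 / 10 * L ≤ (2 - δ) * L - Real.log (m t) := by
    intro t ht
    have := (hm t ht).2.2
    linarith
  have hdlog : ∀ t ∈ S, (2 - δ) * L - Real.log (m t) ≤ Real.log ((F1 : ℝ) / m t) := by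
    intro t ht
    rw [Real.log_div hF1r.ne' (hm0 t ht).ne']
    linarith
  -- the pointwise bound
  have hle : Ls a b x1 x2 W ≤ Ls a b x1 x2 (fun N => ∑ t ∈ S, wt t * (if m t ∣ N then pi0 (N / m t) else 0)) := by
    unfold Ls
    apply sum_le_sum
    intro N hN
    rw [← hF1e, ← hF2e, mem_Ioc] at hN
    apply mul_le_mul_of_nonneg_right _ (lsl_hw_nonneg a N)
    have hN0 : 0 < N := by omega
    have n1 : Real.log F1 ≤ Real.log N := Real.log_le_log hF1r (by exact_mod_cast hN.1.le)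
    have n2 : Real.log N ≤ Real.log F2 := Real.log_le_log (by exact_mod_cast hN0) (by exact_mod_cast hN.2)
    exact hW N (by linarith) (by linarith) hN0
  refine hle.trans ?_
  rw [Ls_tuple a b x1 x2 S wt m (fun t ht => (hm t ht).2.1), ← hF1e, ← hF2e]
  obtain ⟨G1, hG1e⟩ : ∃ G1, G1 = √((F1 : ℝ) / a) := ⟨_, rfl⟩
  obtain ⟨G2, hG2e⟩ : ∃ G2, G2 = √((F2 : ℝ) / a) := ⟨_, rfl⟩
  have hG22 : (F2 : ℝ) / a = G2 ^ 2 := by rw [hG2e, Real.sq_sqrt hF2a.le]
  rw [← hG1e] at hG1 hG12 hG12' hG10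
  rw [← hG2e] at hG2 hG12 hG12' hG20
  have hstep : ∀ t ∈ S, wt t * ∑ k ∈ Ioc (F1 / m t) (F2 / m t), pi0 k * hw a (m t * k) ≤
      (G2 - G1) * (wt t / (m t * ((2 - δ) * L - Real.log (m t)))) +
        1 / (a * G1) * (wt t / ((2 - δ) * L - Real.log (m t))) +
        256 * C * G2 ^ 2 / (L ^ 4 * G1) * (wt t / m t) := by
    intro t ht
    obtain ⟨w0, m1, m2⟩ := hm t ht
    have m0 := hm0 t ht
    have d1 := hden t ht
    have d2 := hdlog t ht
    have hin := inner ha hC0 hC (L := L / 2) m1 hF1 hF12 (by linarith) (by linarith)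
    rw [← hG1e, ← hG2e, hG22] at hin
    have d0 : 0 < (2 - δ) * L - Real.log (m t) := by linarith
    have h1 : 1 / Real.log ((F1 : ℝ) / (m t : ℕ)) ≤ 1 / ((2 - δ) * L - Real.log (m t)) :=
      one_div_le_one_div_of_le d0 d2
    have h2 : 1 / Real.log ((F1 : ℝ) / (m t : ℕ)) * ((G2 - G1) / (m t : ℕ) + 1 / (a * G1)) ≤
        1 / ((2 - δ) * L - Real.log (m t)) * ((G2 - G1) / (m t : ℕ) + 1 / (a * G1)) := by
      apply mul_le_mul_of_nonneg_right h1
      have : 0 ≤ (G2 - G1) / (m t : ℕ) := div_nonneg (by linarith) m0.le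
      positivity
    have h3 := mul_le_mul_of_nonneg_left (hin.trans (add_le_add_left h2 _)) w0
    refine h3.trans (le_of_eq ?_)
    field_simp
    ring
  refine (sum_le_sum hstep).trans ?_
  rw [sum_add_distrib, sum_add_distrib, ← mul_sum, ← mul_sum, ← mul_sum]
  have hnn : ∀ t ∈ S, 0 ≤ wt t / (m t * ((2 - δ) * L - Real.log (m t))) := by
    intro t ht
    have := hden t ht
    have h0 := hm0 t ht
    have d0 : 0 < (2 - δ) * L - Real.log (m t) := by linarith
    exact div_nonneg (hm t ht).1 (by positivity)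
  have hT1 : ∑ t ∈ S, wt t / ((2 - δ) * L - Real.log (m t)) ≤ (x : ℝ) ^ (169 / 100 : ℝ) * (τ / L) := by
    refine le_trans ?_ (mul_le_mul_of_nonneg_left hT (by positivity))
    rw [mul_sum]
    apply sum_le_sum
    intro t ht
    have h0 := hm0 t ht
    have h1 := hden t ht
    have d0 : 0 < (2 - δ) * L - Real.log (m t) := by linarith
    have e1 : wt t / ((2 - δ) * L - Real.log (m t)) =
        m t * (wt t / (m t * ((2 - δ) * L - Real.log (m t)))) := by
      field_simp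
    rw [e1]
    apply mul_le_mul_of_nonneg_right _ (hnn t ht)
    rw [← Real.log_le_log_iff h0 (by positivity), Real.log_rpow hX, ← hLe]
    exact (hm t ht).2.2
  have hT2 : ∑ t ∈ S, wt t / m t ≤ 2 * τ := by
    have : ∑ t ∈ S, wt t / m t ≤ (2 * L) * ∑ t ∈ S, wt t / (m t * ((2 - δ) * L - Real.log (m t))) := by
      rw [mul_sum]
      apply sum_le_sum
      intro t ht
      have h0 := hm0 t ht
      have h1 := hden t ht
      have d0 : 0 < (2 - δ) * L - Real.log (m t) := by linarith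
      have e1 : wt t / m t = ((2 - δ) * L - Real.log (m t)) *
          (wt t / (m t * ((2 - δ) * L - Real.log (m t)))) := by
        generalize (2 - δ) * L - Real.log (m t) = D0 at d0
        field_simp
      rw [e1]
      apply mul_le_mul_of_nonneg_right _ (hnn t ht)
      have h2 : 0 ≤ Real.log (m t) := Real.log_nonneg (by exact_mod_cast (hm t ht).2.1)
      linarith
    refine this.trans ?_
    calc 2 * L * ∑ t ∈ S, wt t / (m t * ((2 - δ) * L - Real.log (m t))) ≤ 2 * L * (τ / L) :=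
          mul_le_mul_of_nonneg_left hT (by positivity)
      _ = 2 * τ := by field_simp
  have x2 : (x : ℝ) ^ (2 : ℝ) = (x : ℝ) ^ 2 := by norm_cast
  rw [x2] at hsx
  refine fin_mn hX (by linarith) hR1 hη hC0 hτ hb0 ?_ hT hT1 hT2 (sum_nonneg hnn) ?_ ?_ ?_ ha1 hG1 hG12' hG2 hG12
  · rw [div_mul_eq_mul_div, div_le_iff₀ hη] at hb
    have : 6 * τ * |(b : ℝ)| ≤ 6 * τ * (|(b : ℝ)| + 1) := mul_le_mul_of_nonneg_left (by linarith) (by positivity)
    linarith
  · apply sum_nonneg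
    intro t ht
    have h1 := hden t ht
    exact div_nonneg (hm t ht).1 (by linarith)
  · have := mul_le_mul_of_nonneg_left hsx hη.le
    calc 6 * R * τ * (x : ℝ) ^ (169 / 100 : ℝ) = η * (6 * R * τ / η * (x : ℝ) ^ (169 / 100 : ℝ)) := by field_simp
      _ ≤ η * (x : ℝ) ^ 2 := this
  · rw [div_le_iff₀ hη] at hLC
    have : L ≤ L ^ 3 := le_self_pow₀ (by linarith) (by norm_num)
    nlinarith

end Pool.Agent.H568
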