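import Mathlib
import Pool.Agent.H568.Na4
import Pool.Agent.H568.Mn2

/-!
Sums over primes with the weight `log p / p`, compared with the uniform measure of the exponents.
-/

set_option autoImplicit false

namespace Pool.Agent.H568

open Finset Filter Topology Pool.Agent.N792

/-- Mertens, with logarithmic weights -/
lemma mu1 (ε : ℝ) (hε : 0 < ε) : ∀ᶠ x : ℕ in atTop, ∀ (P : Finset ℕ) (u v : ℝ), 0 ≤ u → u ≤ v →
    (∀ p ∈ P, p.Prime ∧ u * Real.log x ≤ Real.log p ∧ Real.log p ≤ v * Real.log x) →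
    ∑ p ∈ P, Real.log p / p ≤ (v - u + ε) * Real.log x := by
  obtain ⟨C, hC⟩ := Pool.Agent.Helper923.HMertens.mertens_log
  have hC0 : 0 ≤ C := (abs_nonneg _).trans (hC 1 le_rfl)
  have hl : Tendsto (fun x : ℕ => Real.log x) atTop atTop :=
    Real.tendsto_log_atTop.comp tendsto_natCast_atTop_atTop
  filter_upwards [hl.eventually_ge_atTop ((2 * C + 1) / ε), hl.eventually_ge_atTop 1] with x hx1 hx2
  intro P u v hu huv hP
  obtain ⟨L, hL⟩ : ∃ L : ℝ, L = Real.log x := ⟨_, rfl⟩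
  rw [← hL] at hx1 hx2 hP ⊢
  rw [div_le_iff₀ hε] at hx1
  have hL0 : 0 < L := by linarith
  rcases P.eq_empty_or_nonempty with hPe | ⟨p0, hp0⟩
  · rw [hPe, sum_empty]
    have : 0 ≤ v - u := by linarith
    positivity
  obtain ⟨b, hb⟩ : ∃ b : ℕ, b = ⌊Real.exp (v * L)⌋₊ := ⟨_, rfl⟩
  obtain ⟨a, ha⟩ : ∃ a : ℕ, a + 1 = ⌈Real.exp (u * L)⌉₊ := by
    have : 0 < ⌈Real.exp (u * L)⌉₊ := Nat.ceil_pos.2 (Real.exp_pos _)
    exact ⟨⌈Real.exp (u * L)⌉₊ - 1, by omega⟩
  have hmem : ∀ p ∈ P, p.Prime ∧ a < p ∧ p ≤ b := by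
    intro p hp
    obtain ⟨h1, h2, h3⟩ := hP p hp
    have hp0 : (0 : ℝ) < p := by exact_mod_cast h1.pos
    refine ⟨h1, ?_, ?_⟩
    · have h4 : Real.exp (u * L) ≤ p := by
        rw [← Real.exp_log hp0]
        exact Real.exp_le_exp.2 h2
      have h5 := Nat.ceil_le.2 h4
      omega
    · rw [hb, Nat.le_floor_iff (Real.exp_pos _).le, ← Real.exp_log hp0]
      exact Real.exp_le_exp.2 h3
  have hab : a ≤ b := by
    obtain ⟨_, h2, h3⟩ := hmem p0 hp0
    omega
  have hb1 : 1 ≤ b := by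
    obtain ⟨h1, h2, h3⟩ := hmem p0 hp0
    have := h1.two_le
    omega
  have hnn : ∀ p : ℕ, 0 ≤ Real.log p / p := fun p => div_nonneg (Real.log_natCast_nonneg p) (Nat.cast_nonneg p)
  have hsub : P ⊆ (Icc 1 b).filter Nat.Prime \ (Icc 1 a).filter Nat.Prime := by
    intro p hp
    obtain ⟨h1, h2, h3⟩ := hmem p hp
    rw [Finset.mem_sdiff, mem_filter, mem_filter, mem_Icc, mem_Icc]
    exact ⟨⟨⟨h1.pos, h3⟩, h1⟩, fun h => by omega⟩
  have hsub2 : (Icc 1 a).filter Nat.Prime ⊆ (Icc 1 b).filter Nat.Prime :=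
    filter_subset_filter _ (Icc_subset_Icc le_rfl hab)
  have h1 : ∑ p ∈ P, Real.log p / p ≤
      ∑ p ∈ (Icc 1 b).filter Nat.Prime \ (Icc 1 a).filter Nat.Prime, Real.log p / p :=
    sum_le_sum_of_subset_of_nonneg hsub fun p _ _ => hnn p
  have h2 := sum_sdiff hsub2 (f := fun p : ℕ => Real.log p / (p : ℝ))
  have h3 := (abs_le.1 (hC b hb1)).2
  have hb0 : (0 : ℝ) < b := by exact_mod_cast hb1
  have h4 : Real.log b ≤ v * L := by
    have : (b : ℝ) ≤ Real.exp (v * L) := by rw [hb]; exact Nat.floor_le (Real.exp_pos _).le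
    calc Real.log b ≤ Real.log (Real.exp (v * L)) := Real.log_le_log hb0 this
      _ = v * L := Real.log_exp _
  rcases Nat.eq_zero_or_pos a with ha0 | ha0
  · have h5 : Real.exp (u * L) ≤ 1 := by
      have h6 : ⌈Real.exp (u * L)⌉₊ ≤ 1 := by omega
      have := Nat.ceil_le.1 h6
      exact_mod_cast this
    have h6 : u * L ≤ 0 := by rwa [Real.exp_le_one_iff] at h5
    have h7 : 0 ≤ ∑ p ∈ (Icc 1 a).filter Nat.Prime, Real.log p / (p : ℝ) := sum_nonneg fun p _ => hnn p
    nlinarith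
  · have h5 := (abs_le.1 (hC a ha0)).1
    have ha1 : (1 : ℝ) ≤ a := by exact_mod_cast ha0
    have h6 : Real.exp (u * L) ≤ 2 * a := by
      have h7 := Nat.le_ceil (Real.exp (u * L))
      rw [← ha] at h7
      push_cast at h7
      linarith
    have h7 : u * L ≤ Real.log 2 + Real.log a := by
      have := Real.log_le_log (Real.exp_pos _) h6
      rwa [Real.log_exp, Real.log_mul (by norm_num) (by positivity)] at this
    have h8 : Real.log 2 ≤ 1 := by linarith [Real.log_two_lt_d9]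
    nlinarith

/-- sums over primes in cells -/
lemma mu_cells (n : ℕ) (h ε : ℝ) (hh : 0 < h) (hε : 0 < ε) : ∀ᶠ x : ℕ in atTop,
    ∀ (P : Finset ℕ) (t0 : ℝ) (F : ℕ → ℝ) (W : ℕ → ℝ), 0 ≤ t0 →
    (∀ p ∈ P, p.Prime ∧ t0 * Real.log x ≤ Real.log p ∧ Real.log p ≤ (t0 + n * h) * Real.log x) → (∀ j < n, 0 ≤ W j) → 0 < n →
    (∀ p ∈ P, ∀ j < n, (t0 + j * h) * Real.log x ≤ Real.log p → Real.log p ≤ (t0 + (j + 1) * h) * Real.log x → F p ≤ W j) →
    ∑ p ∈ P, F p * (Real.log p / p) ≤ (∑ j ∈ range n, W j * (h + ε)) * Real.log x := by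
  classical
  have hl : Tendsto (fun x : ℕ => Real.log x) atTop atTop :=
    Real.tendsto_log_atTop.comp tendsto_natCast_atTop_atTop
  filter_upwards [mu1 ε hε, hl.eventually_gt_atTop 0] with x hx hL
  intro P t0 F W ht0 hP hW hn hF
  obtain ⟨L, hLe⟩ : ∃ L : ℝ, L = Real.log x := ⟨_, rfl⟩
  rw [← hLe] at hL hP hF hx ⊢
  have hcell : ∀ p ∈ P, ∃ j < n, (t0 + j * h) * L ≤ Real.log p ∧ Real.log p ≤ (t0 + (j + 1) * h) * L := by
    intro p hp
    obtain ⟨h1, h2, h3⟩ := hP p hp
    obtain ⟨r, hr⟩ : ∃ r : ℝ, r = (Real.log p / L - t0) / h := ⟨_, rfl⟩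
    have hlp : Real.log p = (t0 + r * h) * L := by rw [hr]; field_simp; ring
    have hr0 : 0 ≤ r := by
      have : t0 * L ≤ (t0 + r * h) * L := by rw [← hlp]; exact h2
      have h5 := le_of_mul_le_mul_right this hL
      have h6 : 0 ≤ r * h := by linarith
      exact nonneg_of_mul_nonneg_left h6 hh
    have hrn : r ≤ n := by
      have : (t0 + r * h) * L ≤ (t0 + n * h) * L := by rw [← hlp]; exact h3
      have h5 := le_of_mul_le_mul_right this hL
      have h6 : r * h ≤ n * h := by linarith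
      exact le_of_mul_le_mul_right h6 hh
    by_cases hc : ⌊r⌋₊ < n
    · refine ⟨⌊r⌋₊, hc, ?_, ?_⟩
      · rw [hlp]
        have := Nat.floor_le hr0
        gcongr
      · rw [hlp]
        have := (Nat.lt_floor_add_one r).le
        gcongr
    · refine ⟨n - 1, by omega, ?_, ?_⟩
      · rw [hlp]
        have h5 : ((n - 1 : ℕ) : ℝ) ≤ r := by
          have h6 : n - 1 ≤ ⌊r⌋₊ := by omega
          have h7 := Nat.floor_le hr0
          have h8 : ((n - 1 : ℕ) : ℝ) ≤ (⌊r⌋₊ : ℝ) := by exact_mod_cast h6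
          linarith
        gcongr
      · rw [hlp]
        have h5 : r ≤ ((n - 1 : ℕ) : ℝ) + 1 := by
          have h6 : (((n - 1 : ℕ) : ℝ)) + 1 = n := by
            have : n - 1 + 1 = n := by omega
            exact_mod_cast this
          linarith
        gcongr
  have hnn : ∀ p : ℕ, 0 ≤ Real.log p / p := fun p => div_nonneg (Real.log_natCast_nonneg p) (Nat.cast_nonneg p)
  calc ∑ p ∈ P, F p * (Real.log p / p)
      ≤ ∑ p ∈ P, ∑ j ∈ range n, (if (t0 + j * h) * L ≤ Real.log p ∧ Real.log p ≤ (t0 + (j + 1) * h) * L then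
          W j * (Real.log p / p) else 0) := by
        apply sum_le_sum
        intro p hp
        obtain ⟨j, hj, h1, h2⟩ := hcell p hp
        have h3 : F p * (Real.log p / p) ≤ W j * (Real.log p / p) :=
          mul_le_mul_of_nonneg_right (hF p hp j hj h1 h2) (hnn p)
        refine h3.trans ?_
        have h4 := single_le_sum (f := fun j : ℕ => if (t0 + j * h) * L ≤ Real.log p ∧ Real.log p ≤ (t0 + (j + 1) * h) * L then
          W j * (Real.log p / p) else 0) (s := range n) (fun i hi => by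
            split_ifs
            · exact mul_nonneg (hW i (mem_range.1 hi)) (hnn p)
            · exact le_rfl) (mem_range.2 hj)
        rw [if_pos ⟨h1, h2⟩] at h4
        exact h4
    _ = ∑ j ∈ range n, ∑ p ∈ P.filter (fun p : ℕ => (t0 + j * h) * L ≤ Real.log p ∧ Real.log p ≤ (t0 + (j + 1) * h) * L),
          W j * (Real.log p / p) := by
        rw [sum_comm]
        apply sum_congr rfl
        intro j _
        rw [sum_filter]
    _ ≤ ∑ j ∈ range n, W j * (h + ε) * L := by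
        apply sum_le_sum
        intro j hj
        rw [← mul_sum, mul_assoc]
        apply mul_le_mul_of_nonneg_left _ (hW j (mem_range.1 hj))
        have h1 := hx (P.filter (fun p : ℕ => (t0 + j * h) * L ≤ Real.log p ∧ Real.log p ≤ (t0 + (j + 1) * h) * L))
          (t0 + j * h) (t0 + (j + 1) * h) (by positivity) (by nlinarith) (by
            intro p hp
            rw [mem_filter] at hp
            exact ⟨(hP p hp.1).1, hp.2⟩)
        refine h1.trans (le_of_eq ?_)
        ring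
    _ = _ := by rw [sum_mul]

/-- the products of three numbers -/
lemma prod3 {β a b c : ℝ} (ha : a ≤ β) (hb : b ≤ β) (hc : c ≤ β) (hc0 : 0 ≤ c) (ha0 : 0 ≤ a) (hb0 : 0 ≤ b) :
    β * β * (a + b + c - 2 * β) ≤ a * b * c := by
  have hβ : 0 ≤ β := hc0.trans hc
  have h1 : 0 ≤ (β - a) * (β - b) := mul_nonneg (by linarith) (by linarith)
  have h2 : 0 ≤ (β - a) * (β - c) := mul_nonneg (by linarith) (by linarith)
  have h3 : 0 ≤ (β - b) * (β - c) := mul_nonneg (by linarith) (by linarith)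
  have h4 : 0 ≤ (β - a) * (β - b) * c := mul_nonneg h1 hc0
  have h5 : 0 ≤ β * ((β - a) * (β - c)) := mul_nonneg hβ h2
  have h6 : 0 ≤ β * ((β - b) * (β - c)) := mul_nonneg hβ h3
  have e : a * b * c - β * β * (a + b + c - 2 * β) =
      (β - a) * (β - b) * c + β * ((β - a) * (β - c)) + β * ((β - b) * (β - c)) := by ring
  linarith

end Pool.Agent.H568
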