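import Mathlib
import Pool.Agent.H568.Nb1
import Pool.Agent.H568.Mn9
import Pool.Agent.H568.Na3

/-!
The products of three primes `≤ x ^ (2 / 3 + κ)`.
-/

set_option autoImplicit false

namespace Pool.Agent.H568

open Finset Filter Topology Pool.Agent.N792 Pool.Agent.N791.U Pool.Agent.N792.RX5

lemma sumA (n : ℕ) : ∑ j ∈ range n, ((j : ℝ) + 1) = n * (n + 1) / 2 := by
  induction n with
  | zero => simp
  | succ n ih => rw [sum_range_succ, ih]; push_cast; ring

lemma sumB (n : ℕ) : ∑ j ∈ range n, ((j : ℝ) * (j + 1)) = (n - 1) * n * (n + 1) / 3 := by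
  induction n with
  | zero => simp
  | succ n ih => rw [sum_range_succ, ih]; push_cast; ring

open Classical in
/-- the products of three primes `≤ U` -/
noncomputable def Y3 (Q U N : ℕ) : ℝ := if Squarefree N ∧ Rough Q N ∧ w N = 3 ∧ Bn U N = 0 then 1 else 0

lemma le_of_Bn {U N p : ℕ} (h : Bn U N = 0) (hp : p.Prime) (hpN : p ∣ N) (hN : N ≠ 0) : p ≤ U := by
  unfold Bn at h
  rw [card_eq_zero, filter_eq_empty_iff] at h
  have := h (Nat.mem_primeFactors.2 ⟨hp, hpN, hN⟩)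
  omega

/-- the numerical constant -/
lemma num_Y3 {ke δ B : ℝ} (hke : 0 < ke) (hke1 : ke ≤ 2 / 15) (hδ : δ = ke / 2000)
    (hB : B = (2 / 3 + ke) * (2 / 3 + ke) * (2 - δ - 2 * (2 / 3 + ke))) :
    0 < B ∧ 1 / 6 * (500500 * ((3 * ke + δ) / 1000 + ke / 10 ^ 6) ^ 2) / B ≤ 3 * ke ^ 2 := by
  have h1 : 2559 / 10000 ≤ B := by
    obtain ⟨β, hβ⟩ : ∃ β : ℝ, β = 2 / 3 + ke := ⟨_, rfl⟩
    rw [← hβ] at hB
    have e : B = (4 / 5 - β) * (2 * β ^ 2 - 2 / 5 * β - 8 / 25) + 32 / 125 - δ * β ^ 2 := by rw [hB]; ring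
    have h2 : 0 ≤ 2 * β ^ 2 - 2 / 5 * β - 8 / 25 := by nlinarith
    have h3 : 0 ≤ (4 / 5 - β) * (2 * β ^ 2 - 2 / 5 * β - 8 / 25) := mul_nonneg (by linarith) h2
    have h4 : β ^ 2 ≤ 1 := by nlinarith
    have h5 : δ * β ^ 2 ≤ 1 / 15000 * 1 := mul_le_mul (by rw [hδ]; linarith) h4 (by positivity) (by norm_num)
    linarith
  have hB0 : 0 < B := by linarith
  refine ⟨hB0, ?_⟩
  rw [div_le_iff₀ hB0, hδ]
  have : 3 * ke ^ 2 * (2559 / 10000) ≤ 3 * ke ^ 2 * B := mul_le_mul_of_nonneg_left h1 (by positivity)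
  refine le_trans ?_ this
  have h2 : 0 ≤ ke ^ 2 := by positivity
  have e : (1 : ℝ) / 6 * (500500 * ((3 * ke + ke / 2000) / 1000 + ke / 10 ^ 6) ^ 2) =
      1 / 6 * (500500 * ((3 + 1 / 2000) / 1000 + 1 / 10 ^ 6) ^ 2) * ke ^ 2 := by ring
  have e2 : 3 * ke ^ 2 * (2559 / 10000) = (3 * (2559 / 10000)) * ke ^ 2 := by ring
  rw [e, e2]
  exact mul_le_mul_of_nonneg_right (by norm_num) h2

/-- **the products of three primes `≤ x ^ (2 / 3 + κ)`** -/
theorem ls_Y3 (a : ℤ) (ha : 0 < a) (Λ : ℝ) (hΛ : 1 ≤ Λ) (R : ℕ) (ke η : ℝ) (hke : 0 < ke) (hke1 : ke ≤ 2 / 15) (hη : 0 < η) :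
    ∀ᶠ x : ℕ in atTop, ∀ b : ℤ, (b : ℝ) ^ 2 ≤ Λ * x → ∀ x1 x2 : ℕ, x1 < x2 → x2 ≤ x → x ≤ R * x1 →
    ∀ Q U : ℕ, (U : ℝ) ≤ (x : ℝ) ^ (2 / 3 + ke) →
    Ls a b x1 x2 (Y3 Q U) ≤ 3 * ke ^ 2 * (((x2 : ℝ) - x1) / Real.log x) + η * (x / Real.log x) := by
  classical
  obtain ⟨δ, hδ⟩ : ∃ δ : ℝ, δ = ke / 2000 := ⟨_, rfl⟩
  obtain ⟨β, hβ⟩ : ∃ β : ℝ, β = 2 / 3 + ke := ⟨_, rfl⟩
  obtain ⟨B, hB⟩ : ∃ B : ℝ, B = (2 / 3 + ke) * (2 / 3 + ke) * (2 - δ - 2 * (2 / 3 + ke)) := ⟨_, rfl⟩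
  obtain ⟨hB0, hnum⟩ := num_Y3 hke hke1 hδ hB
  rw [← hβ] at hB
  have hδ0 : 0 < δ := by rw [hδ]; positivity
  have hδ1 : δ ≤ 1 / 10000 := by rw [hδ]; linarith
  obtain ⟨ε, hε⟩ : ∃ ε : ℝ, ε = ke / 10 ^ 6 := ⟨_, rfl⟩
  have hε0 : 0 < ε := by rw [hε]; positivity
  obtain ⟨h, hh⟩ : ∃ h : ℝ, h = (3 * ke + δ) / 1000 := ⟨_, rfl⟩
  have hh0 : 0 < h := by rw [hh]; positivity
  rw [← hh, ← hε] at hnum
  filter_upwards [main_leD a ha Λ hΛ R (3 * ke ^ 2) η δ (by positivity) hη hδ0 hδ1, mu1 ε hε0, mu_cells 1000 h ε hh0 hε0,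
    eventually_ge_atTop 2] with x hmain hmu hcells hx2
  intro b hb x1 x2 h12 h2x hxR Q U hU
  have hx1 : 1 ≤ x := by omega
  have hx0 : (0 : ℝ) < x := by exact_mod_cast hx1
  have hL : 0 < Real.log x := Real.log_pos (by exact_mod_cast (by omega : 1 < x))
  obtain ⟨L, hLe⟩ : ∃ L : ℝ, L = Real.log x := ⟨_, rfl⟩
  rw [← hLe] at hL
  rw [← hβ] at hU
  obtain ⟨P, hP⟩ : ∃ P : Finset ℕ, P = (Icc 1 U).filter Nat.Prime := ⟨_, rfl⟩
  have hlogU' : ∀ p : ℕ, p.Prime → p ≤ U → Real.log p ≤ β * L := by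
    intro p h1 h3
    have p0 : (0 : ℝ) < p := by exact_mod_cast h1.pos
    have : (p : ℝ) ≤ (x : ℝ) ^ β := (by exact_mod_cast h3 : (p : ℝ) ≤ U).trans hU
    have := Real.log_le_log p0 this
    rwa [Real.log_rpow hx0, ← hLe] at this
  have hPm : ∀ p ∈ P, p.Prime ∧ Real.log p ≤ β * L := by
    intro p hp
    rw [hP, mem_filter, mem_Icc] at hp
    exact ⟨hp.2, hlogU' p hp.2 hp.1.2⟩
  obtain ⟨c, hc⟩ : ∃ c : ℝ, c = 2 - δ - β := ⟨_, rfl⟩
  obtain ⟨S, hS⟩ : ∃ S : Finset (ℕ × ℕ), S = (P ×ˢ P).filter (fun t => c * L ≤ Real.log t.1 + Real.log t.2) := ⟨_, rfl⟩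
  have hSm : ∀ t ∈ S, t.1 ∈ P ∧ t.2 ∈ P ∧ c * L ≤ Real.log t.1 + Real.log t.2 := by
    intro t ht
    rw [hS, mem_filter, mem_product] at ht
    exact ⟨ht.1.1, ht.1.2, ht.2⟩
  have hβ1 : β ≤ 4 / 5 := by rw [hβ]; linarith
  have hlog0 : ∀ p : ℕ, 0 ≤ Real.log p := fun p => Real.log_natCast_nonneg p
  refine hmain b hb x1 x2 h12 h2x hxR (ℕ × ℕ) S (fun _ => 1 / 6) (fun t => t.1 * t.2) ?_ ?_ _ ?_
  · intro t ht
    obtain ⟨t1, t2, t3⟩ := hSm t ht
    obtain ⟨a1, a2⟩ := hPm _ t1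
    obtain ⟨b1, b2⟩ := hPm _ t2
    refine ⟨by norm_num, Nat.mul_pos a1.pos b1.pos, ?_⟩
    have q1 : (0 : ℝ) < t.1 := by exact_mod_cast a1.pos
    have q2 : (0 : ℝ) < t.2 := by exact_mod_cast b1.pos
    push_cast
    rw [Real.log_mul q1.ne' q2.ne', ← hLe]
    nlinarith
  · rw [← hLe]
    have hterm : ∀ t ∈ S, 1 / 6 / (((t.1 * t.2 : ℕ) : ℝ) * ((2 - δ) * L - Real.log ((t.1 * t.2 : ℕ) : ℝ))) ≤
        1 / 6 / (B * L ^ 3) * ((Real.log t.1 / t.1) * (Real.log t.2 / t.2)) := by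
      intro t ht
      obtain ⟨t1, t2, t3⟩ := hSm t ht
      obtain ⟨a1, a2⟩ := hPm _ t1
      obtain ⟨b1, b2⟩ := hPm _ t2
      have q1 : (0 : ℝ) < t.1 := by exact_mod_cast a1.pos
      have q2 : (0 : ℝ) < t.2 := by exact_mod_cast b1.pos
      push_cast
      rw [Real.log_mul q1.ne' q2.ne']
      obtain ⟨l3, hl3⟩ : ∃ l3 : ℝ, l3 = (2 - δ) * L - (Real.log t.1 + Real.log t.2) := ⟨_, rfl⟩
      rw [← hl3]
      have hl3L : l3 ≤ β * L := by rw [hl3]; rw [hc] at t3; linarith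
      have hl30 : 0 < l3 := by rw [hl3]; nlinarith
      have h3 := prod3 a2 b2 hl3L hl30.le (hlog0 _) (hlog0 _)
      have e1 : β * L * (β * L) * (Real.log t.1 + Real.log t.2 + l3 - 2 * (β * L)) = B * L ^ 3 := by
        rw [hl3, hB]; ring
      rw [e1] at h3
      have hBL : 0 < B * L ^ 3 := by positivity
      have e2 : 1 / 6 / ((t.1 : ℝ) * t.2 * l3) = 1 / 6 / (t.1 * t.2) * (1 / l3) := by field_simp
      have e3 : 1 / 6 / (B * L ^ 3) * (Real.log t.1 / t.1 * (Real.log t.2 / t.2)) =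
          1 / 6 / (t.1 * t.2) * (Real.log t.1 * Real.log t.2 / (B * L ^ 3)) := by field_simp
      rw [e2, e3]
      apply mul_le_mul_of_nonneg_left _ (by positivity)
      rw [div_le_div_iff₀ hl30 hBL]
      linarith
    refine (sum_le_sum hterm).trans ?_
    rw [← mul_sum]
    -- the double sum
    obtain ⟨P', hP'⟩ : ∃ P' : Finset ℕ, P' = P.filter (fun p : ℕ => (c - β) * L ≤ Real.log p) := ⟨_, rfl⟩
    have hcβ : 0 ≤ c - β := by rw [hc]; linarith
    have hdouble : ∑ t ∈ S, (Real.log t.1 / t.1) * (Real.log t.2 / t.2) ≤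
        ∑ p ∈ P', (β - c + Real.log p / L + ε) * (Real.log p / p) * L := by
      have e1 : ∑ t ∈ S, (Real.log t.1 / (t.1 : ℝ)) * (Real.log t.2 / (t.2 : ℝ)) =
          ∑ p ∈ P, (Real.log p / (p : ℝ)) * ∑ q ∈ P.filter (fun q : ℕ => c * L ≤ Real.log p + Real.log q),
            (Real.log q / (q : ℝ)) := by
        rw [hS, sum_filter, sum_product]
        apply sum_congr rfl
        intro p _
        rw [mul_sum, sum_filter]
      rw [e1]
      have hsub : P' ⊆ P := by rw [hP']; exact filter_subset _ _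
      rw [← sum_subset hsub]
      · apply sum_le_sum
        intro p hp
        have hpP := hsub hp
        have hp1 : (c - β) * L ≤ Real.log p := by
          rw [hP', mem_filter] at hp
          exact hp.2
        obtain ⟨a1, a2⟩ := hPm _ hpP
        have hpL : Real.log p = Real.log p / L * L := by field_simp
        have h1 := hmu (P.filter (fun q : ℕ => c * L ≤ Real.log p + Real.log q)) (c - Real.log p / L) β (by
            have : Real.log p / L ≤ β := by rw [div_le_iff₀ hL]; exact a2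
            linarith) (by
            have : c - β ≤ Real.log p / L := by rw [le_div_iff₀ hL]; exact hp1
            linarith) (by
            intro q hq
            rw [mem_filter] at hq
            refine ⟨(hPm q hq.1).1, ?_, ?_⟩
            · rw [← hLe, sub_mul, ← hpL]
              linarith [hq.2]
            · rw [← hLe]; exact (hPm q hq.1).2)
        rw [← hLe] at h1
        have h2 := mul_le_mul_of_nonneg_left h1 (div_nonneg (hlog0 p) (Nat.cast_nonneg p))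
        refine h2.trans (le_of_eq ?_)
        ring
      · intro p hp hp'
        have h1 : P.filter (fun q : ℕ => c * L ≤ Real.log p + Real.log q) = ∅ := by
          rw [filter_eq_empty_iff]
          intro q hq hcon
          apply hp'
          rw [hP', mem_filter]
          refine ⟨hp, ?_⟩
          have := (hPm q hq).2
          linarith
        rw [h1, sum_empty, mul_zero]
    have hsingle := hcells P' (c - β) (fun p => β - c + Real.log p / L + ε) (fun j => ((j : ℝ) + 1) * (h + ε)) hcβ (by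
        intro p hp
        rw [hP', mem_filter] at hp
        refine ⟨(hPm p hp.1).1, by rw [← hLe]; exact hp.2, ?_⟩
        rw [← hLe]
        refine (hPm p hp.1).2.trans (le_of_eq ?_)
        rw [hh, hc, hβ]
        push_cast
        ring) (fun j _ => by positivity) (by norm_num) (by
        intro p hp j hj h1 h2
        rw [← hLe] at h1 h2
        have h3 : Real.log p / L ≤ c - β + (j + 1) * h := by rw [div_le_iff₀ hL]; exact h2
        have h4 : ε ≤ ((j : ℝ) + 1) * ε := by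
          have : (0 : ℝ) ≤ j := Nat.cast_nonneg _
          nlinarith
        have h5 : ((j : ℝ) + 1) * (h + ε) = (j + 1) * h + (j + 1) * ε := by ring
        linarith)
    rw [← hLe] at hsingle
    have hW : ∑ j ∈ range 1000, ((j : ℝ) + 1) * (h + ε) * (h + ε) = 500500 * (h + ε) ^ 2 := by
      have : ∀ j ∈ range 1000, ((j : ℝ) + 1) * (h + ε) * (h + ε) = (h + ε) ^ 2 * ((j : ℝ) + 1) := by
        intro j _; ring
      rw [sum_congr rfl this, ← mul_sum, sumA]
      push_cast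
      ring
    rw [hW] at hsingle
    rw [← sum_mul] at hdouble
    have h1 : ∑ t ∈ S, (Real.log t.1 / t.1) * (Real.log t.2 / t.2) ≤ 500500 * (h + ε) ^ 2 * L * L :=
      hdouble.trans (mul_le_mul_of_nonneg_right hsingle hL.le)
    have hBL : 0 < B * L ^ 3 := by positivity
    calc 1 / 6 / (B * L ^ 3) * ∑ t ∈ S, (Real.log t.1 / t.1) * (Real.log t.2 / t.2)
        ≤ 1 / 6 / (B * L ^ 3) * (500500 * (h + ε) ^ 2 * L * L) := mul_le_mul_of_nonneg_left h1 (by positivity)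
      _ = (1 / 6 * (500500 * (h + ε) ^ 2) / B) / L := by field_simp
      _ ≤ 3 * ke ^ 2 / L := div_le_div_of_nonneg_right hnum hL.le
  · intro N hN1 hN2 hN0
    rw [← hLe] at hN1 hN2
    have hnn : ∀ t ∈ S, 0 ≤ (1 / 6 : ℝ) * (if t.1 * t.2 ∣ N then pi0 (N / (t.1 * t.2)) else 0) := by
      intro t _
      have := (Pt.pi0_le (N / (t.1 * t.2))).1
      split_ifs <;> positivity
    by_cases h : Squarefree N ∧ Rough Q N ∧ w N = 3 ∧ Bn U N = 0
    swap
    · have : Y3 Q U N = 0 := by unfold Y3; rw [if_neg h]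
      rw [this]
      exact sum_nonneg hnn
    have e3 : Y3 Q U N = 1 := by unfold Y3; rw [if_pos h]
    obtain ⟨p, q, r, hp, hq, hr, h1, h2, h5⟩ := three_primes h.1 h.2.2.1
    have hNn : N ≠ 0 := by omega
    have hpU : p ≤ U := le_of_Bn h.2.2.2 hp (by rw [h5]; exact ⟨q * r, by ring⟩) hNn
    have hqU : q ≤ U := le_of_Bn h.2.2.2 hq (by rw [h5]; exact ⟨p * r, by ring⟩) hNn
    have hrU : r ≤ U := le_of_Bn h.2.2.2 hr (by rw [h5]; exact ⟨p * q, by ring⟩) hNn
    have key : ∀ u v w : ℕ, u.Prime → v.Prime → w.Prime → u ≤ U → v ≤ U → w ≤ U → N = u * v * w →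
        (u, v) ∈ S ∧ (1 / 6 : ℝ) * (if u * v ∣ N then pi0 (N / (u * v)) else 0) = 1 / 6 := by
      intro u v w hu hv hw huU hvU hwU hNe
      have u0 : (0 : ℝ) < u := by exact_mod_cast hu.pos
      have v0 : (0 : ℝ) < v := by exact_mod_cast hv.pos
      have w0 : (0 : ℝ) < w := by exact_mod_cast hw.pos
      have lw := hlogU' w hw hwU
      have lN : Real.log N = Real.log u + Real.log v + Real.log w := by
        rw [hNe]
        push_cast
        rw [Real.log_mul (by positivity) w0.ne', Real.log_mul u0.ne' v0.ne']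
      have huP : u ∈ P := by rw [hP, mem_filter, mem_Icc]; exact ⟨⟨hu.pos, huU⟩, hu⟩
      have hvP : v ∈ P := by rw [hP, mem_filter, mem_Icc]; exact ⟨⟨hv.pos, hvU⟩, hv⟩
      constructor
      · rw [hS, mem_filter, mem_product]
        refine ⟨⟨huP, hvP⟩, ?_⟩
        rw [hc]
        simp only
        linarith
      · rw [hNe, if_pos (dvd_mul_right _ _), Nat.mul_div_cancel_left _ (Nat.mul_pos hu.pos hv.pos), pi0_of hw]
        norm_num
    have k1 := key p q r hp hq hr hpU hqU hrU h5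
    have k2 := key q p r hq hp hr hqU hpU hrU (by rw [h5]; ring)
    have k3 := key p r q hp hr hq hpU hrU hqU (by rw [h5]; ring)
    have k4 := key r p q hr hp hq hrU hpU hqU (by rw [h5]; ring)
    have k5 := key q r p hq hr hp hqU hrU hpU (by rw [h5]; ring)
    have k6 := key r q p hr hq hp hrU hqU hpU (by rw [h5]; ring)
    have hT : ({(p, q), (q, p), (p, r), (r, p), (q, r), (r, q)} : Finset (ℕ × ℕ)) ⊆ S := by
      intro t ht
      simp only [mem_insert, mem_singleton] at ht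
      rcases ht with rfl | rfl | rfl | rfl | rfl | rfl
      · exact k1.1
      · exact k2.1
      · exact k3.1
      · exact k4.1
      · exact k5.1
      · exact k6.1
    refine le_trans (le_of_eq ?_) (sum_le_sum_of_subset_of_nonneg hT fun t ht _ => hnn t ht)
    rw [e3]
    have n1 : (p, q) ∉ ({(q, p), (p, r), (r, p), (q, r), (r, q)} : Finset (ℕ × ℕ)) := by
      simp only [mem_insert, mem_singleton, Prod.mk.injEq]; omega
    have n2 : (q, p) ∉ ({(p, r), (r, p), (q, r), (r, q)} : Finset (ℕ × ℕ)) := by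
      simp only [mem_insert, mem_singleton, Prod.mk.injEq]; omega
    have n3 : (p, r) ∉ ({(r, p), (q, r), (r, q)} : Finset (ℕ × ℕ)) := by
      simp only [mem_insert, mem_singleton, Prod.mk.injEq]; omega
    have n4 : (r, p) ∉ ({(q, r), (r, q)} : Finset (ℕ × ℕ)) := by
      simp only [mem_insert, mem_singleton, Prod.mk.injEq]; omega
    have n5 : (q, r) ∉ ({(r, q)} : Finset (ℕ × ℕ)) := by
      simp only [mem_singleton, Prod.mk.injEq]; omega
    rw [sum_insert n1, sum_insert n2, sum_insert n3, sum_insert n4, sum_insert n5, sum_singleton]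
    simp only
    rw [k1.2, k2.2, k3.2, k4.2, k5.2, k6.2]
    norm_num

end Pool.Agent.H568
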