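import Mathlib
import Pool.Graph.R_pool_sql_team_seeded_63374d34.N792.RPar
import Pool.Agent.H568.Nb2
import Pool.Agent.H568.CnG

/-!
The parameters, and the minorant, for `C ≥ x^(5/6 - κ + ε)`.
-/

set_option autoImplicit false

namespace Pool.Agent.H568

open Finset Filter Topology Pool.Agent.N792 Pool.Agent.N791.U Pool.Agent.N792.RX5

/-- the sizes -/
lemma params12 (ke e ε c0 A : ℝ) (hke : 0 < ke) (he : 0 < e) (he1 : e ≤ 1 / 100) (hke1 : ke + e ≤ 2 / 15) (hε : 0 < ε)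
    (hε1 : ε ≤ 1 / 100) (hc0 : 0 < c0) (hA : 1 ≤ A) :
    ∀ᶠ x : ℕ in atTop, ∃ U y Q : ℕ, U = ⌊(x : ℝ) ^ (2 / 3 + ke)⌋₊ ∧ 1 ≤ U ∧ Q ≤ U ∧ U ≤ y ∧ (y : ℝ) ≤ (x : ℝ) ^ (1 - ε) ∧
      (x : ℝ) ^ (1 - 2 * ε) ≤ y ∧ (x : ℝ) ^ (2 / 3 + ke - e) ≤ U ∧ (U : ℝ) ≤ (x : ℝ) ^ (2 / 3 + ke) ∧
      (x : ℝ) ^ (2 / 5 : ℝ) ≤ Q ∧ (Q : ℝ) ≤ (x : ℝ) ^ (9 / 20 : ℝ) ∧
      ((Q * Q : ℕ) : ℝ) ≤ (x : ℝ) ^ (9 / 10 : ℝ) ∧ ((y * y : ℕ) : ℝ) ≤ c0 * x ^ 2 ∧ A * (x : ℝ) ^ 2 < ((Q ^ 5 : ℕ) : ℝ) ∧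
      U ≤ Q * Q ∧ A * (x : ℝ) ^ 2 ≤ ((U * U * U : ℕ) : ℝ) ∧ ((U * U * Q : ℕ) : ℝ) ≤ c0 * x ^ 2 := by
  filter_upwards [Lam.pow_ev 2 (2 / 3 + ke - e) (2 / 3 + ke) (by linarith), Lam.pow_ev 2 (1 - 2 * ε) (1 - ε) (by linarith),
    Lam.pow_ev (1 / c0) (2 - 2 * ε) 2 (by linarith), Lam.pow_ev 2 (2 / 5 + e / 4) (9 / 20) (by linarith),
    Lam.pow_ev 4 (2 / 5 + e / 4) (2 / 3 + ke) (by linarith), Lam.pow_ev (2 * A) 2 (2 + 5 / 4 * e) (by linarith),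
    Lam.pow_ev 2 (2 / 3 + ke) (1 - ε) (by linarith), Lam.pow_ev (8 * A) 2 (2 + 3 * ke) (by linarith),
    Lam.pow_ev (2 / c0) (26 / 15 + 2 * ke + e / 4) 2 (by linarith),
    eventually_ge_atTop 1] with x h1 h2 h3 h4 h5 h6 h7 h8 h9 hx1
  have hxr : (1 : ℝ) ≤ x := by exact_mod_cast hx1
  have hxp : (0 : ℝ) < x := by linarith
  have x2 : (x : ℝ) ^ (2 : ℝ) = (x : ℝ) ^ 2 := by norm_cast
  rw [x2] at h3 h6 h8 h9
  obtain ⟨U, hU⟩ : ∃ U : ℕ, U = ⌊(x : ℝ) ^ (2 / 3 + ke)⌋₊ := ⟨_, rfl⟩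
  obtain ⟨Q, hQ⟩ : ∃ Q : ℕ, Q = ⌈(x : ℝ) ^ (2 / 5 + e / 4)⌉₊ := ⟨_, rfl⟩
  obtain ⟨y, hy⟩ : ∃ y : ℕ, y = ⌊(x : ℝ) ^ (1 - ε)⌋₊ := ⟨_, rfl⟩
  have hU1 : (U : ℝ) ≤ (x : ℝ) ^ (2 / 3 + ke) := by rw [hU]; exact Nat.floor_le (by positivity)
  have hU2 : (x : ℝ) ^ (2 / 3 + ke) < U + 1 := by rw [hU]; exact Nat.lt_floor_add_one _
  have hQ1 : (x : ℝ) ^ (2 / 5 + e / 4) ≤ Q := by rw [hQ]; exact Nat.le_ceil _
  have hQ2 : (Q : ℝ) ≤ 2 * (x : ℝ) ^ (2 / 5 + e / 4) := by rw [hQ]; exact Par.ceil_pow hx1 (by linarith)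
  have hy1 : (y : ℝ) ≤ (x : ℝ) ^ (1 - ε) := by rw [hy]; exact Nat.floor_le (by positivity)
  have hy2 : (x : ℝ) ^ (1 - ε) < y + 1 := by rw [hy]; exact Nat.lt_floor_add_one _
  have k2 : (1 : ℝ) ≤ (x : ℝ) ^ (1 - 2 * ε) := Real.one_le_rpow hxr (by linarith)
  have kU : (1 : ℝ) ≤ (x : ℝ) ^ (2 / 3 + ke - e) := Real.one_le_rpow hxr (by linarith)
  have kQ : (1 : ℝ) ≤ (x : ℝ) ^ (2 / 5 + e / 4) := Real.one_le_rpow hxr (by linarith)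
  have hUh : (x : ℝ) ^ (2 / 3 + ke) ≤ 2 * U := by linarith
  refine ⟨U, y, Q, hU, ?_, ?_, ?_, hy1, ?_, ?_, hU1, ?_, hQ2.trans h4, ?_, ?_, ?_, ?_, ?_, ?_⟩
  · have : (1 : ℝ) ≤ U := by linarith
    exact_mod_cast this
  · have : (Q : ℝ) ≤ U := by linarith
    exact_mod_cast this
  · rw [hy]
    refine Nat.le_floor (hU1.trans ?_)
    have : (0 : ℝ) ≤ (x : ℝ) ^ (2 / 3 + ke) := by positivity
    linarith
  · linarith
  · linarith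
  · exact (Real.rpow_le_rpow_of_exponent_le hxr (by linarith)).trans hQ1
  · push_cast
    calc (Q : ℝ) * Q ≤ (x : ℝ) ^ (9 / 20 : ℝ) * (x : ℝ) ^ (9 / 20 : ℝ) :=
          mul_le_mul (hQ2.trans h4) (hQ2.trans h4) (Nat.cast_nonneg _) (by positivity)
      _ = (x : ℝ) ^ (9 / 10 : ℝ) := by rw [← Real.rpow_add hxp]; norm_num
  · push_cast
    rw [div_mul_eq_mul_div, one_mul, div_le_iff₀ hc0] at h3
    calc (y : ℝ) * y ≤ (x : ℝ) ^ (1 - ε) * (x : ℝ) ^ (1 - ε) := by gcongr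
      _ = (x : ℝ) ^ (2 - 2 * ε) := by rw [← Real.rpow_add hxp]; congr 1; ring
      _ ≤ c0 * x ^ 2 := by linarith
  · push_cast
    have h0 : (0 : ℝ) < (x : ℝ) ^ 2 := by positivity
    have h01 : A * (x : ℝ) ^ 2 < 2 * A * (x : ℝ) ^ 2 := by nlinarith
    have hQ5 : (x : ℝ) ^ (2 + 5 / 4 * e) ≤ (Q : ℝ) ^ 5 := by
      calc (x : ℝ) ^ (2 + 5 / 4 * e) = ((x : ℝ) ^ (2 / 5 + e / 4)) ^ 5 := by
            rw [← Real.rpow_natCast, ← Real.rpow_mul hxp.le]; congr 1; push_cast; ring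
        _ ≤ (Q : ℝ) ^ 5 := pow_le_pow_left₀ (by positivity) hQ1 5
    linarith
  · have h0 : (U : ℝ) ≤ ((Q * Q : ℕ) : ℝ) := by
      push_cast
      calc (U : ℝ) ≤ (x : ℝ) ^ (2 / 3 + ke) := hU1
        _ ≤ (x : ℝ) ^ (2 / 5 + e / 4 + (2 / 5 + e / 4)) := Real.rpow_le_rpow_of_exponent_le hxr (by linarith)
        _ = (x : ℝ) ^ (2 / 5 + e / 4) * (x : ℝ) ^ (2 / 5 + e / 4) := Real.rpow_add hxp _ _
        _ ≤ (Q : ℝ) * Q := mul_le_mul hQ1 hQ1 (by positivity) (Nat.cast_nonneg _)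
    exact_mod_cast h0
  · push_cast
    have e1 : (x : ℝ) ^ (2 + 3 * ke) = (x : ℝ) ^ (2 / 3 + ke) * (x : ℝ) ^ (2 / 3 + ke) * (x : ℝ) ^ (2 / 3 + ke) := by
      rw [← Real.rpow_add hxp, ← Real.rpow_add hxp]; congr 1; ring
    have h0 : (0 : ℝ) ≤ (x : ℝ) ^ (2 / 3 + ke) := by positivity
    have e2 : (x : ℝ) ^ (2 / 3 + ke) * (x : ℝ) ^ (2 / 3 + ke) * (x : ℝ) ^ (2 / 3 + ke) ≤ (2 * U) * (2 * U) * (2 * (U : ℝ)) := by
      gcongr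
    nlinarith
  · push_cast
    rw [div_mul_eq_mul_div, div_le_iff₀ hc0] at h9
    calc (U : ℝ) * U * Q ≤ (x : ℝ) ^ (2 / 3 + ke) * (x : ℝ) ^ (2 / 3 + ke) * (2 * (x : ℝ) ^ (2 / 5 + e / 4)) := by gcongr
      _ = 2 * ((x : ℝ) ^ (2 / 3 + ke) * (x : ℝ) ^ (2 / 3 + ke) * (x : ℝ) ^ (2 / 5 + e / 4)) := by ring
      _ = 2 * (x : ℝ) ^ (26 / 15 + 2 * ke + e / 4) := by
          rw [← Real.rpow_add hxp, ← Real.rpow_add hxp]
          congr 2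
          ring
      _ ≤ c0 * x ^ 2 := by linarith

/-- the list of the type II functions of `H3` -/
noncomputable def l3 (U Q n : ℕ) (A : ℕ → ℕ) : List (ℝ × (ℕ → ℝ) × ℕ × (ℕ → ℝ)) :=
  [(-1, pi0, U, pi0), (1, pi0, U, Fa Q U n A), (1, Fa Q U n A, U, pi0), (1, ta Q n A, U, pi2 Q), (1, pi2 Q, U, ta Q n A)]

lemma H3_eq (z U y Q n K : ℕ) (A zs : ℕ → ℕ) (N : ℕ) :
    H3 z U y Q n A K zs N = Sv (g3 Q n A) z U y K zs N + Lt z y (l3 U Q n A) N := by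
  unfold H3 l3 Lt
  simp only [List.map_cons, List.map_nil, List.sum_cons, List.sum_nil]
  ring

lemma l3_ok (U y Q n : ℕ) (A : ℕ → ℕ) (hUy : U ≤ y) : ∀ t ∈ l3 U Q n A,
    |t.1| ≤ ((18 + 8 * n : ℕ) : ℝ) ∧ Ok (18 + 8 * n) t.2.1 ∧ U ≤ t.2.2.1 ∧ t.2.2.1 ≤ y ∧ Ok (18 + 8 * n) t.2.2.2 := by
  intro t ht
  unfold l3 at ht
  simp only [List.mem_cons, List.not_mem_nil, or_false] at ht
  have o0 : Ok (18 + 8 * n) pi0 := Ok_pi0.mono (by omega)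
  have o2 : Ok (18 + 8 * n) (pi2 Q) := (Ok_pi2 Q).mono (by omega)
  have o3 : Ok (18 + 8 * n) (Fa Q U n A) := (Ok_Fa Q U n A).mono (by omega)
  have o4 : Ok (18 + 8 * n) (ta Q n A) := (Ok_ta Q n A).mono (by omega)
  have h1 : |(1 : ℝ)| ≤ ((18 + 8 * n : ℕ) : ℝ) := by
    rw [abs_one]
    exact_mod_cast (by omega : 1 ≤ 18 + 8 * n)
  have h2 : |(-1 : ℝ)| ≤ ((18 + 8 * n : ℕ) : ℝ) := by rw [abs_neg]; exact h1
  rcases ht with rfl | rfl | rfl | rfl | rfl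
  · exact ⟨h2, o0, le_rfl, hUy, o0⟩
  · exact ⟨h1, o0, le_rfl, hUy, o3⟩
  · exact ⟨h1, o3, le_rfl, hUy, o0⟩
  · exact ⟨h1, o4, le_rfl, hUy, o2⟩
  · exact ⟨h1, o2, le_rfl, hUy, o4⟩

/-- the values for one threshold -/
lemma Sa_one {U N : ℕ} : Sa 1 (fun _ => U) N = (w N : ℝ) - Bn U N := by
  unfold Sa aw w Bn
  have h1 : ∀ p ∈ N.primeFactors, ∑ i ∈ range 1, 1 / ((1 : ℕ) : ℝ) * (if p ≤ U then (1 : ℝ) else 0) =
      1 - (if U < p then (1 : ℝ) else 0) := by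
    intro p _
    rw [sum_range_one]
    by_cases h : p ≤ U
    · rw [if_pos h, if_neg (by omega)]; norm_num
    · rw [if_neg h, if_pos (by omega)]; norm_num
  rw [sum_congr rfl h1, sum_sub_distrib, sum_boole]
  simp

lemma G3_one {Q U N : ℕ} : G3 Q U 1 (fun _ => U) N ≤ pi0 N ∧ (U * U < N → G3 Q U 1 (fun _ => U) N = pi0 N - 2 * Y3 Q U N) := by
  have h2 : X2e Q U 1 (fun _ => U) N ≤ 0 := by
    unfold X2e
    split_ifs with h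
    · rw [Sa_one, h.2.2.1]
      have : (Bn U N : ℝ) ≤ 1 := by exact_mod_cast (by omega : Bn U N ≤ 1)
      push_cast
      linarith
    · exact le_rfl
  have h3 : X3e Q U 1 (fun _ => U) N = - 2 * Y3 Q U N := by
    unfold X3e Y3
    split_ifs with h
    · rw [Sa_one, h.2.2.1, h.2.2.2]
      norm_num
    · simp
  have hY : 0 ≤ Y3 Q U N := by unfold Y3; split_ifs <;> norm_num
  refine ⟨?_, fun hN => ?_⟩
  · unfold G3
    rw [h3]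
    linarith
  · have h4 : X2e Q U 1 (fun _ => U) N = 0 := by
      unfold X2e
      split_ifs with h
      · rw [Sa_one, h.2.2.1]
        have h5 : Bn U N ≠ 0 := by
          intro h0
          obtain ⟨p, q, hpq, h6⟩ := card_eq_two.1 h.2.2.1
          have h7 := Nat.prod_primeFactors_of_squarefree h.1
          rw [h6, prod_pair hpq] at h7
          have hp : p ∈ N.primeFactors := by rw [h6]; simp
          have hq : q ∈ N.primeFactors := by rw [h6]; simp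
          rw [Nat.mem_primeFactors] at hp hq
          have h8 := le_of_Bn h0 hp.1 hp.2.1 hp.2.2
          have h9 := le_of_Bn h0 hq.1 hq.2.1 hq.2.2
          have := Nat.mul_le_mul h8 h9
          omega
        have h6 : Bn U N = 1 := by omega
        rw [h6]
        norm_num
      · rfl
    unfold G3
    rw [h3, h4]
    ring

theorem lowN (a : ℤ) (ha : 0 < a) (Λ : ℝ) (hΛ : 1 ≤ Λ) (hG : LamG a Λ) (k : ℝ) (hk : 0 < k) (hk1 : k ≤ 2 / 15) :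
    LowP a Λ (5 / 6 - k) (6 * k ^ 2) := by
  obtain ⟨As, hG⟩ := hG
  refine ⟨As, fun E R ε κ K1 hε hκ hK1 => ?_⟩
  obtain ⟨ε0, hε0, hε0ε, hε03⟩ : ∃ ε0 : ℝ, 0 < ε0 ∧ ε0 ≤ ε ∧ ε0 ≤ 1 / 6 :=
    ⟨min ε (1 / 6), by positivity, min_le_left _ _, min_le_right _ _⟩
  obtain ⟨η1, e2, D, c0, A, K, x0, hη1, hη12, he2, he22, hD1, hc0, hA, hG⟩ :=
    hG E R (18 + 8 * 1) 5 (5 / 6 - k) ε0 (κ / 2) K1 (by linarith) hε0 (by linarith) (by positivity) hK1 (by norm_num)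
  obtain ⟨c0', A', hc0', hA', X0, hX0⟩ := range_bdU a ha Λ hΛ R
  obtain ⟨e, he, he1, he3, he4⟩ : ∃ e : ℝ, 0 < e ∧ e ≤ 1 / 100 ∧ e ≤ ε0 / 4 ∧ e ≤ k / 2 :=
    ⟨min (1 / 100) (min (ε0 / 4) (k / 2)), by positivity, min_le_left _ _, (min_le_right _ _).trans (min_le_left _ _),
      (min_le_right _ _).trans (min_le_right _ _)⟩
  obtain ⟨ke, hke⟩ : ∃ ke : ℝ, ke = k - e := ⟨_, rfl⟩
  have hke0 : 0 < ke := by rw [hke]; linarith
  have hev := (params12 ke e e2 (min c0 c0') (max A A') hke0 he he1 (by rw [hke]; linarith) he2 (by linarith) (lt_min hc0 hc0')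
    (le_max_of_le_left hA)).and
    ((ls_Y3 a ha Λ hΛ R ke (κ / 2) hke0 (by rw [hke]; linarith) (by positivity)).and (eventually_ge_atTop ⌈max A A'⌉₊))
  obtain ⟨xe, hxe⟩ := eventually_atTop.1 hev
  refine ⟨η1, hη1, hη12, max (max x0 X0) (max xe 2), ?_⟩
  intro x hx J hz1 hz2
  obtain ⟨⟨U, y, Q, -, hU1, hQU, hUy, hyhi, hylo, hUlo, hUhi, hQlo, hQhi, hQQ, hyy, hQ5, hUQQ, hUUU, hUUQ⟩, hW1, hAx⟩ :=
    hxe x (by omega)
  have hx2 : 2 ≤ x := by omega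
  have hxr : (1 : ℝ) ≤ x := by exact_mod_cast (by omega : 1 ≤ x)
  have hx2' : (0 : ℝ) ≤ (x : ℝ) ^ 2 := by positivity
  obtain ⟨hDv, hG⟩ := hG x (by omega) J hz1 hz2
  obtain ⟨zs, h0, hK, hm, hBad, hmain⟩ := hG U y Q hU1 hUy hyhi hylo
    ((Real.rpow_le_rpow_of_exponent_le hxr (by rw [hke]; linarith)).trans hUlo)
    (hUhi.trans (Real.rpow_le_rpow_of_exponent_le hxr (by rw [hke]; linarith)))
    ((Real.rpow_le_rpow_of_exponent_le hxr (by norm_num)).trans hQlo) hQhi hQQ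
  obtain ⟨z, hz⟩ : ∃ z : ℕ, z = 2 ^ 2 ^ J := ⟨_, rfl⟩
  rw [← hz] at h0 hBad hmain hDv
  -- the pointwise bounds
  have hrange : ∀ N : ℕ, min c0 c0' * (x : ℝ) ^ 2 < N → U * U < N := by
    intro N hN1
    have h1 : ((U * U * Q : ℕ) : ℝ) < N := lt_of_le_of_lt hUUQ hN1
    have h2 : U * U * Q < N := by exact_mod_cast h1
    have h3 : 1 ≤ Q := by
      have : (1 : ℝ) ≤ Q := (Real.one_le_rpow hxr (by norm_num)).trans hQlo
      exact_mod_cast this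
    have h4 : U * U * 1 ≤ U * U * Q := Nat.mul_le_mul_left _ h3
    omega
  have hptw : ∀ N : ℕ, min c0 c0' * (x : ℝ) ^ 2 < N → (N : ℝ) ≤ max A A' * (x : ℝ) ^ 2 →
      (Rough z N → (#N.divisors : ℝ) ≤ D) →
      |H3 z U y Q 1 (fun _ => U) K zs N - G3 Q U 1 (fun _ => U) N| ≤ 18 * D ^ 2 * Bad z y Q K zs N := by
    intro N hN1 hN2 hND
    refine pt3 z U y Q 1 K N (fun _ => U) zs D hU1 (fun _ _ => le_rfl) hQU hUy h0 hK hm ?_ ?_ hUQQ ?_ ?_ hND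
    · have : ((y * y : ℕ) : ℝ) < N := lt_of_le_of_lt hyy hN1
      exact_mod_cast this
    · have : (N : ℝ) < ((Q ^ 5 : ℕ) : ℝ) := lt_of_le_of_lt hN2 hQ5
      exact_mod_cast this
    · have : (N : ℝ) ≤ ((U * U * U : ℕ) : ℝ) := hN2.trans hUUU
      exact_mod_cast this
    · have : ((U * U * Q : ℕ) : ℝ) < N := lt_of_le_of_lt hUUQ hN1
      exact_mod_cast this
  have hmm1 : min c0 c0' * (x : ℝ) ^ 2 ≤ c0 * (x : ℝ) ^ 2 := mul_le_mul_of_nonneg_right (min_le_left _ _) hx2'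
  have hmm2 : min c0 c0' * (x : ℝ) ^ 2 ≤ c0' * (x : ℝ) ^ 2 := mul_le_mul_of_nonneg_right (min_le_right _ _) hx2'
  have hmm3 : A * (x : ℝ) ^ 2 ≤ max A A' * (x : ℝ) ^ 2 := mul_le_mul_of_nonneg_right (le_max_left _ _) hx2'
  refine ⟨fun N => G3 Q U 1 (fun _ => U) N, fun N => G3_one.1, ?_, ?_⟩
  · intro b hb x1 x2 h12 h2x hxR
    obtain ⟨hbx2, hr1, hr2⟩ := hX0 x (by omega) b hb x1 (by omega) hxR
    have hW := hW1 b hb x1 x2 h12 h2x hxR Q U hUhi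
    have hle : Ls a b x1 x2 pi0 - 2 * Ls a b x1 x2 (Y3 Q U) ≤ Ls a b x1 x2 (fun N => G3 Q U 1 (fun _ => U) N) := by
      unfold Ls
      rw [mul_sum, ← sum_sub_distrib]
      apply sum_le_sum
      intro N hN
      rw [mem_Ioc] at hN
      have b1 : c0' * (x : ℝ) ^ 2 < N := lt_of_le_of_lt hr1 (by exact_mod_cast hN.1)
      have b1' : min c0 c0' * (x : ℝ) ^ 2 < N := by linarith
      change pi0 N * hw a N - 2 * (Y3 Q U N * hw a N) ≤ G3 Q U 1 (fun _ => U) N * hw a N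
      rw [G3_one.2 (hrange N b1')]
      apply le_of_eq
      ring
    have hX : 0 ≤ ((x2 : ℝ) - x1) / Real.log x := by
      apply div_nonneg _ (Real.log_nonneg hxr)
      have : (x1 : ℝ) ≤ x2 := by exact_mod_cast h12.le
      linarith
    have h3 : 2 * (3 * ke ^ 2) * (((x2 : ℝ) - x1) / Real.log x) ≤ 6 * k ^ 2 * (((x2 : ℝ) - x1) / Real.log x) := by
      apply mul_le_mul_of_nonneg_right _ hX
      have : ke ^ 2 ≤ k ^ 2 := pow_le_pow_left₀ hke0.le (by rw [hke]; linarith) 2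
      linarith
    linarith
  · intro b x1 C Jw hbC hx1 hxR hC hCx hw1 hw2 Gd hGd hGd2 hGd3
    have hC' : (x : ℝ) ^ (5 / 6 - k + ε0) ≤ C := (Real.rpow_le_rpow_of_exponent_le hxr (by linarith)).trans hC
    have := hmain (g3 Q 1 (fun _ => U)) (fun N => G3 Q U 1 (fun _ => U) N) (l3 U Q 1 (fun _ => U)) (g3_abs Q 1 _) (g3_sq Q 1 _)
      (fun m hm => (SL_g3 Q 1 _ m hm).mono (by norm_num)) (by simp [l3]) (l3_ok U y Q 1 _ hUy) (by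
        intro N hN1 hN2 hND
        rw [← H3_eq]
        refine (hptw N (by linarith) (by linarith) hND).trans ?_
        have hB := Pt.Bad_nonneg z y Q K zs N
        have : 0 ≤ D ^ 2 * Bad z y Q K zs N := by positivity
        push_cast
        nlinarith) b x1 C Jw hbC hx1 hxR hC' hCx hw1 hw2 Gd hGd (by rw [hz]; exact hGd2) hGd3
    refine this.trans ?_
    apply mul_le_mul_of_nonneg_right (by linarith)
    have : 0 ≤ Real.log x := Real.log_nonneg hxr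
    positivity

end Pool.Agent.H568
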