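import Mathlib
import Pool.Agent.H568.Nb3

/-!
The majorant for `C ≥ x^(5/6 - κ + ε)`: the main terms.
-/

set_option autoImplicit false

namespace Pool.Agent.H568

open Finset Filter Topology Pool.Agent.N792 Pool.Agent.N791.U Pool.Agent.N792.RX5

/-- the thresholds -/
noncomputable def thr (x n : ℕ) (β h : ℝ) (i : ℕ) : ℕ := ⌊(x : ℝ) ^ (β - h * (i + 1))⌋₊

lemma aw_card {n : ℕ} (hn : 0 < n) (A : ℕ → ℕ) (p : ℕ) : (n : ℝ) * aw n A p = #((range n).filter (fun i => p ≤ A i)) := by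
  unfold aw
  have hn0 : (n : ℝ) ≠ 0 := by positivity
  rw [← mul_sum, sum_boole, ← mul_assoc, mul_one_div, div_self hn0, one_mul]

lemma le_thr {x n p i : ℕ} {β h : ℝ} (hx : 1 ≤ x) (hp : 0 < p) :
    p ≤ thr x n β h i ↔ Real.log p ≤ (β - h * (i + 1)) * Real.log x := by
  have hx0 : (0 : ℝ) < x := by exact_mod_cast hx
  have hp0 : (0 : ℝ) < p := by exact_mod_cast hp
  unfold thr
  rw [Nat.le_floor_iff (Real.rpow_nonneg hx0.le _), ← Real.log_le_log_iff hp0 (Real.rpow_pos_of_pos hx0 _),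
    Real.log_rpow hx0]

lemma aw_up {x n p : ℕ} {β h r : ℝ} (hx : 1 ≤ x) (hL : 0 < Real.log x) (hn : 0 < n) (hp : 0 < p) (hh : 0 < h) (hr0 : 0 ≤ r)
    (hr : Real.log p = (β - h * r) * Real.log x) : (n : ℝ) * aw n (thr x n β h) p ≤ r := by
  rw [aw_card hn]
  have h1 : (range n).filter (fun i => p ≤ thr x n β h i) ⊆ range ⌊r⌋₊ := by
    intro i hi
    rw [mem_filter, le_thr hx hp, hr] at hi
    have h2 := le_of_mul_le_mul_right hi.2 hL
    have h3 : h * ((i : ℝ) + 1) ≤ h * r := by linarith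
    have h4 : (i : ℝ) + 1 ≤ r := le_of_mul_le_mul_left h3 hh
    rw [mem_range]
    have h5 : i + 1 ≤ ⌊r⌋₊ := by
      rw [Nat.le_floor_iff hr0]
      push_cast
      exact h4
    omega
  have h2 := card_le_card h1
  rw [card_range] at h2
  have h3 : (#((range n).filter (fun i => p ≤ thr x n β h i)) : ℝ) ≤ (⌊r⌋₊ : ℝ) := by exact_mod_cast h2
  exact h3.trans (Nat.floor_le hr0)

lemma aw_lo {x n p m : ℕ} {β h r : ℝ} (hx : 1 ≤ x) (hL : 0 < Real.log x) (hn : 0 < n) (hp : 0 < p) (hh : 0 < h)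
    (hr : Real.log p = (β - h * r) * Real.log x) (hmn : m ≤ n) (hmr : (m : ℝ) ≤ r) : (m : ℝ) ≤ (n : ℝ) * aw n (thr x n β h) p := by
  rw [aw_card hn]
  have h1 : range m ⊆ (range n).filter (fun i => p ≤ thr x n β h i) := by
    intro i hi
    rw [mem_range] at hi
    rw [mem_filter, mem_range, le_thr hx hp, hr]
    refine ⟨by omega, ?_⟩
    apply mul_le_mul_of_nonneg_right _ hL.le
    have h2 : ((i : ℝ) + 1) ≤ r := by
      have : ((i + 1 : ℕ) : ℝ) ≤ m := by exact_mod_cast hi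
      push_cast at this
      linarith
    have := mul_le_mul_of_nonneg_left h2 hh.le
    linarith
  have h2 := card_le_card h1
  rw [card_range] at h2
  exact_mod_cast h2

lemma aw_lo' {x n p : ℕ} {β h r : ℝ} (hx : 1 ≤ x) (hL : 0 < Real.log x) (hn : 0 < n) (hp : 0 < p) (hh : 0 < h) (hr0 : 0 ≤ r)
    (hr : Real.log p = (β - h * r) * Real.log x) (hrn : r ≤ n + 1) : r - 1 ≤ (n : ℝ) * aw n (thr x n β h) p := by
  rcases le_total ⌊r⌋₊ n with h1 | h1
  · have := aw_lo hx hL hn hp hh hr h1 (Nat.floor_le hr0)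
    have h2 := Nat.lt_floor_add_one r
    linarith
  · have h2 : (n : ℝ) ≤ r := by
      have : (n : ℝ) ≤ (⌊r⌋₊ : ℝ) := by exact_mod_cast h1
      exact this.trans (Nat.floor_le hr0)
    have := aw_lo hx hL hn hp hh hr le_rfl h2
    linarith

/-- the linear majorant of `1 / (s (2 - s))` -/
lemma lin_maj {s : ℝ} (h1 : 2 / 5 ≤ s) (h2 : s ≤ 4 / 5) : 96 ≤ (200 - 125 * s) * (s * (2 - s)) := by
  have e : (200 - 125 * s) * (s * (2 - s)) - 96 = (s - 2 / 5) * (4 / 5 - s) * (300 - 125 * s) := by ring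
  have : 0 ≤ (s - 2 / 5) * (4 / 5 - s) * (300 - 125 * s) := by
    apply mul_nonneg (mul_nonneg _ _) _ <;> linarith
  linarith

lemma lin_maj2 {s δ t : ℝ} (h1 : 2 / 5 ≤ s) (h2 : s ≤ 4 / 5) (hδ : 0 ≤ δ) (hδ1 : δ ≤ 1 / 10000) (ht : t ≤ s) :
    1 / (s * (2 - δ - s)) ≤ (200 - 125 * t) / (96 * (1 - δ)) := by
  have h3 := lin_maj h1 h2
  have h4 : 0 < s * (2 - δ - s) := mul_pos (by linarith) (by linarith)
  rw [div_le_div_iff₀ h4 (by linarith)]
  have h5 : (1 - δ) * (s * (2 - s)) ≤ s * (2 - δ - s) := by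
    have e : s * (2 - δ - s) - (1 - δ) * (s * (2 - s)) = δ * s * (1 - s) := by ring
    have : 0 ≤ δ * s * (1 - s) := by
      apply mul_nonneg (mul_nonneg hδ (by linarith)) (by linarith)
    linarith
  have h6 : (200 - 125 * s) * ((1 - δ) * (s * (2 - s))) ≤ (200 - 125 * s) * (s * (2 - δ - s)) :=
    mul_le_mul_of_nonneg_left h5 (by linarith)
  have h7 : (200 - 125 * s) * (s * (2 - δ - s)) ≤ (200 - 125 * t) * (s * (2 - δ - s)) :=
    mul_le_mul_of_nonneg_right (by linarith) h4.le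
  have h8 : (1 - δ) * 96 ≤ (1 - δ) * ((200 - 125 * s) * (s * (2 - s))) := mul_le_mul_of_nonneg_left h3 (by linarith)
  linarith

/-- the numerical constant -/
lemma num_X2e {ke δ h : ℝ} (hke : 0 < ke) (hke1 : ke ≤ 2 / 15) (hδ : δ = ke / 2000) (hh : h = 3 * ke / 1000) :
    ∑ j ∈ range 1000, ((j : ℝ) + 1) / 1000 * ((200 - 125 * (2 / 3 - 2 * ke + j * h)) / (96 * (1 - δ))) * (h + ke / 10 ^ 6) ≤
      183 / 100 * ke := by
  have hδ1 : 0 < 1 - δ := by rw [hδ]; linarith
  have e : ∀ j ∈ range 1000, ((j : ℝ) + 1) / 1000 * ((200 - 125 * (2 / 3 - 2 * ke + j * h)) / (96 * (1 - δ))) * (h + ke / 10 ^ 6) =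
      (h + ke / 10 ^ 6) / (96000 * (1 - δ)) * ((200 - 125 * (2 / 3 - 2 * ke)) * ((j : ℝ) + 1) - 125 * h * ((j : ℝ) * (j + 1))) := by
    intro j _
    field_simp
    ring
  rw [sum_congr rfl e, ← mul_sum, sum_sub_distrib, ← mul_sum, ← mul_sum, sumA, sumB, div_mul_eq_mul_div,
    div_le_iff₀ (by positivity)]
  push_cast
  rw [hh, hδ]
  have h2 : 0 ≤ ke ^ 2 := by positivity
  nlinarith

/-- **the products of two primes, one of them `≤ x ^ (2 / 3 + κ)`, with weights** -/
theorem ls_X2e (a : ℤ) (ha : 0 < a) (Λ : ℝ) (hΛ : 1 ≤ Λ) (R : ℕ) (ke η : ℝ) (hke : 0 < ke) (hke1 : ke ≤ 2 / 15) (hη : 0 < η) :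
    ∀ᶠ x : ℕ in atTop, ∀ b : ℤ, (b : ℝ) ^ 2 ≤ Λ * x → ∀ x1 x2 : ℕ, x1 < x2 → x2 ≤ x → x ≤ R * x1 →
    ∀ Q U : ℕ, (U : ℝ) ≤ (x : ℝ) ^ (2 / 3 + ke) → (∀ i < 1000, thr x 1000 (2 / 3 + ke) (3 * ke / 1000) i ≤ U) →
    Ls a b x1 x2 (X2e Q U 1000 (thr x 1000 (2 / 3 + ke) (3 * ke / 1000))) ≤
      183 / 100 * ke * (((x2 : ℝ) - x1) / Real.log x) + η * (x / Real.log x) := by
  classical
  obtain ⟨δ, hδ⟩ : ∃ δ : ℝ, δ = ke / 2000 := ⟨_, rfl⟩
  obtain ⟨β, hβ⟩ : ∃ β : ℝ, β = 2 / 3 + ke := ⟨_, rfl⟩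
  have hδ0 : 0 < δ := by rw [hδ]; positivity
  have hδ1 : δ ≤ 1 / 10000 := by rw [hδ]; linarith
  obtain ⟨ε, hε⟩ : ∃ ε : ℝ, ε = ke / 10 ^ 6 := ⟨_, rfl⟩
  have hε0 : 0 < ε := by rw [hε]; positivity
  obtain ⟨h, hh⟩ : ∃ h : ℝ, h = 3 * ke / 1000 := ⟨_, rfl⟩
  have hh0 : 0 < h := by rw [hh]; positivity
  have hnum := num_X2e hke hke1 hδ hh
  rw [← hε] at hnum
  filter_upwards [main_leD a ha Λ hΛ R (183 / 100 * ke) η δ (by positivity) hη hδ0 hδ1, mu_cells 1000 h ε hh0 hε0,
    eventually_ge_atTop 2] with x hmain hcells hx2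
  intro b hb x1 x2 h12 h2x hxR Q U hU hAU
  have hx1 : 1 ≤ x := by omega
  have hx0 : (0 : ℝ) < x := by exact_mod_cast hx1
  have hL : 0 < Real.log x := Real.log_pos (by exact_mod_cast (by omega : 1 < x))
  obtain ⟨L, hLe⟩ : ∃ L : ℝ, L = Real.log x := ⟨_, rfl⟩
  rw [← hβ] at hU
  rw [← hβ, ← hh] at hAU ⊢
  obtain ⟨A, hA⟩ : ∃ A : ℕ → ℕ, A = thr x 1000 β h := ⟨_, rfl⟩
  rw [← hA] at hAU ⊢
  have hβ1 : β ≤ 4 / 5 := by rw [hβ]; linarith
  obtain ⟨P, hP⟩ : ∃ P : Finset ℕ, P = (Icc 1 U).filter Nat.Prime := ⟨_, rfl⟩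
  have hlogU' : ∀ p : ℕ, p.Prime → p ≤ U → Real.log p ≤ β * L := by
    intro p h1 h3
    have p0 : (0 : ℝ) < p := by exact_mod_cast h1.pos
    have : (p : ℝ) ≤ (x : ℝ) ^ β := (by exact_mod_cast h3 : (p : ℝ) ≤ U).trans hU
    have := Real.log_le_log p0 this
    rwa [Real.log_rpow hx0, ← hLe] at this
  have hPm : ∀ p ∈ P, p.Prime ∧ Real.log p ≤ β * L := by
    intro p hp
    rw [hP, mem_filter, mem_Icc] at hp
    exact ⟨hp.2, hlogU' p hp.2 hp.1.2⟩
  -- the index of a prime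
  have hidx : ∀ p : ℕ, Real.log p = (β - h * ((β - Real.log p / L) / h)) * Real.log x := by
    intro p
    rw [← hLe] at hL ⊢
    field_simp
    ring
  have haw1 : ∀ p : ℕ, 0 ≤ 1 - aw 1000 A p := fun p => by linarith [(aw_mem 1000 A p).2]
  refine hmain b hb x1 x2 h12 h2x hxR ℕ P (fun p => 1 - aw 1000 A p) (fun p => p) ?_ ?_ _ ?_
  · intro p hp
    obtain ⟨a1, a2⟩ := hPm _ hp
    refine ⟨haw1 p, a1.pos, ?_⟩
    rw [← hLe] at hL ⊢
    nlinarith
  · -- the small primes have weight one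
    obtain ⟨P', hP'⟩ : ∃ P' : Finset ℕ, P' = P.filter (fun p : ℕ => (2 / 3 - 2 * ke) * L ≤ Real.log p) := ⟨_, rfl⟩
    have hsub : P' ⊆ P := by rw [hP']; exact filter_subset _ _
    have hsmall : ∀ p ∈ P, p ∉ P' → 1 - aw 1000 A p = 0 := by
      intro p hp hp'
      have h1 : Real.log p < (2 / 3 - 2 * ke) * L := by
        by_contra hcon
        push Not at hcon
        exact hp' (by rw [hP', mem_filter]; exact ⟨hp, hcon⟩)
      have h2 : aw 1000 A p = 1 := by
        apply aw_one (by norm_num)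
        intro i hi
        rw [hA, le_thr hx1 (hPm p hp).1.pos, ← hLe]
        rw [← hLe] at hL
        refine h1.le.trans ?_
        apply mul_le_mul_of_nonneg_right _ hL.le
        have h3 : ((i : ℝ) + 1) ≤ 1000 := by exact_mod_cast hi
        have h4 : h * ((i : ℝ) + 1) ≤ h * 1000 := mul_le_mul_of_nonneg_left h3 hh0.le
        rw [hh] at h4 ⊢
        rw [hβ]
        linarith
      rw [h2]; ring
    rw [← hLe] at hL ⊢
    rw [← sum_subset hsub (fun p hp hp' => by rw [hsmall p hp hp', zero_div])]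
    have hcell := hcells P' (2 / 3 - 2 * ke) (fun p => (1 - aw 1000 A p) * (1 / (Real.log p / L * (2 - δ - Real.log p / L))))
      (fun j => ((j : ℝ) + 1) / 1000 * ((200 - 125 * (2 / 3 - 2 * ke + j * h)) / (96 * (1 - δ)))) (by linarith) (by
        intro p hp
        rw [hP', mem_filter] at hp
        refine ⟨(hPm p hp.1).1, by rw [← hLe]; exact hp.2, ?_⟩
        rw [← hLe]
        refine (hPm p hp.1).2.trans (le_of_eq ?_)
        rw [hh, hβ]
        push_cast
        ring) (by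
        intro j hj
        have h1 : (j : ℝ) ≤ 1000 := by exact_mod_cast hj.le
        have h2 : (j : ℝ) * h ≤ 1000 * h := mul_le_mul_of_nonneg_right h1 hh0.le
        have h3 : 0 ≤ 200 - 125 * (2 / 3 - 2 * ke + j * h) := by rw [hh] at h2 ⊢; linarith
        have h4 : 0 < 96 * (1 - δ) := by linarith
        positivity) (by norm_num) (by
        intro p hp j hj h1 h2
        rw [hP', mem_filter] at hp
        rw [← hLe] at h1 h2
        obtain ⟨s, hs⟩ : ∃ s : ℝ, s = Real.log p / L := ⟨_, rfl⟩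
        have hs1 : 2 / 3 - 2 * ke + j * h ≤ s := by rw [hs, le_div_iff₀ hL]; exact h1
        have hs2 : s ≤ 2 / 3 - 2 * ke + (j + 1) * h := by rw [hs, div_le_iff₀ hL]; exact h2
        have hs3 : s ≤ β := by rw [hs, div_le_iff₀ hL]; exact (hPm p hp.1).2
        have hs4 : 2 / 5 ≤ s := by
          have : 0 ≤ (j : ℝ) * h := by positivity
          linarith
        rw [← hs]
        have g1 := lin_maj2 hs4 (hs3.trans hβ1) hδ0.le hδ1 hs1
        have g2 : 1 - aw 1000 A p ≤ ((j : ℝ) + 1) / 1000 := by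
          have hj' : ((1000 - 1 - j : ℕ) : ℝ) = 1000 - 1 - j := by
            rw [Nat.cast_sub (by omega)]
            norm_num
          have g3 := aw_lo (m := 1000 - 1 - j) hx1 (by rw [← hLe]; exact hL) (n := 1000) (by norm_num) (hPm p hp.1).1.pos hh0 (hidx p)
            (by omega) (by
              rw [hj', le_div_iff₀ hh0, ← hs]
              rw [hβ]
              rw [hh] at hs2 ⊢
              linarith)
          rw [hj', ← hA] at g3
          push_cast at g3
          linarith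
        have h96 : 0 < 96 * (1 - δ) := by linarith
        have g5 : 0 ≤ 1 / (s * (2 - δ - s)) := by
          apply div_nonneg zero_le_one
          apply mul_nonneg <;> linarith
        exact mul_le_mul g2 g1 g5 (by positivity))
    rw [← hLe] at hcell
    have hcell2 : ∑ p ∈ P', (1 - aw 1000 A p) * (1 / (Real.log p / L * (2 - δ - Real.log p / L))) * (Real.log p / p) ≤
        183 / 100 * ke * L := hcell.trans (mul_le_mul_of_nonneg_right hnum hL.le)
    have e1 : ∀ p ∈ P', (1 - aw 1000 A p) / ((p : ℝ) * ((2 - δ) * L - Real.log p)) =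
        1 / L ^ 2 * ((1 - aw 1000 A p) * (1 / (Real.log p / L * (2 - δ - Real.log p / L))) * (Real.log p / p)) := by
      intro p hp
      have hpP := hsub hp
      obtain ⟨a1, a2⟩ := hPm _ hpP
      have p0 : (0 : ℝ) < p := by exact_mod_cast a1.pos
      have l0 : 0 < Real.log p := Real.log_pos (by exact_mod_cast a1.one_lt)
      have l1 : 0 < (2 - δ) * L - Real.log p := by nlinarith
      have l2 : 2 - δ - Real.log p / L = ((2 - δ) * L - Real.log p) / L := by field_simp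
      rw [l2]
      generalize (2 - δ) * L - Real.log p = D at l1
      field_simp
    rw [sum_congr rfl e1, ← mul_sum]
    calc 1 / L ^ 2 * ∑ p ∈ P', (1 - aw 1000 A p) * (1 / (Real.log p / L * (2 - δ - Real.log p / L))) * (Real.log p / p)
        ≤ 1 / L ^ 2 * (183 / 100 * ke * L) := mul_le_mul_of_nonneg_left hcell2 (by positivity)
      _ = 183 / 100 * ke / L := by field_simp
  · intro N hN1 hN2 hN0
    rw [← hLe] at hN1 hN2 hL
    have hnn : ∀ p ∈ P, 0 ≤ (1 - aw 1000 A p) * (if p ∣ N then pi0 (N / p) else 0) := by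
      intro p _
      have := (Pt.pi0_le (N / p)).1
      split_ifs
      · exact mul_nonneg (haw1 p) this
      · simp
    by_cases h : Squarefree N ∧ Rough Q N ∧ w N = 2 ∧ Bn U N < 2
    swap
    · have : X2e Q U 1000 A N = 0 := by unfold X2e; rw [if_neg h]
      rw [this]
      exact sum_nonneg hnn
    have e3 : X2e Q U 1000 A N = 1 - Sa 1000 A N := by unfold X2e; rw [if_pos h]
    have key : ∀ p q : ℕ, p.Prime → q.Prime → p ≠ q → p ≤ U → N = p * q → U < q →
        1 - Sa 1000 A N ≤ ∑ p ∈ P, (1 - aw 1000 A p) * (if p ∣ N then pi0 (N / p) else 0) := by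
      intro p q hp hq hpq hpU hNe hqU
      have h1 : p ∈ P := by rw [hP, mem_filter, mem_Icc]; exact ⟨⟨hp.pos, hpU⟩, hp⟩
      refine le_trans ?_ (single_le_sum hnn h1)
      have h2 := Sa_add (n := 1000) (A := A) h.1 (by rw [hNe]; exact dvd_mul_right p q : p ∣ N)
      have h3 : N / p = q := by rw [hNe, Nat.mul_div_cancel_left _ hp.pos]
      rw [h3, Sa_prime hp, Sa_prime hq, aw_zero hAU hqU, add_zero] at h2
      rw [← h2, hNe, if_pos (dvd_mul_right _ _), Nat.mul_div_cancel_left _ hp.pos, pi0_of hq, mul_one]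
    obtain ⟨p, q, hpq, h6⟩ := card_eq_two.1 h.2.2.1
    have h7 := Nat.prod_primeFactors_of_squarefree h.1
    rw [h6, prod_pair hpq] at h7
    have hp : p ∈ N.primeFactors := by rw [h6]; simp
    have hq : q ∈ N.primeFactors := by rw [h6]; simp
    rw [Nat.mem_primeFactors] at hp hq
    rw [e3]
    rcases le_or_gt p U with c1 | c1
    · rcases le_or_gt q U with c2 | c2
      · exfalso
        have p0 : (0 : ℝ) < p := by exact_mod_cast hp.1.pos
        have q0 : (0 : ℝ) < q := by exact_mod_cast hq.1.pos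
        have l1 := hlogU' p hp.1 c1
        have l2 := hlogU' q hq.1 c2
        have l3 : Real.log N = Real.log p + Real.log q := by
          rw [← h7]
          push_cast
          rw [Real.log_mul p0.ne' q0.ne']
        have l4 : β * L ≤ 4 / 5 * L := mul_le_mul_of_nonneg_right hβ1 hL.le
        have l5 : δ * L ≤ 1 / 10000 * L := mul_le_mul_of_nonneg_right hδ1 hL.le
        linarith
      · exact key p q hp.1 hq.1 hpq c1 h7.symm c2
    · rcases le_or_gt q U with c2 | c2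
      · exact key q p hq.1 hp.1 hpq.symm c2 (by rw [← h7]; ring) c1
      · exfalso
        have h8 : Bn U N = 2 := by
          unfold Bn
          rw [h6, filter_true_of_mem, card_pair hpq]
          intro s hs
          rw [mem_insert, mem_singleton] at hs
          rcases hs with rfl | rfl
          · exact c1
          · exact c2
        omega

end Pool.Agent.H568
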