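import Mathlib
import Pool.Agent.H568.Nb4

/-!
The majorant for `C ≥ x^(5/6 - κ + ε)`.
-/

set_option autoImplicit false

namespace Pool.Agent.H568

open Finset Filter Topology Pool.Agent.N792 Pool.Agent.N791.U Pool.Agent.N792.RX5

lemma log_sum {N : ℕ} (hs : Squarefree N) : ∑ p ∈ N.primeFactors, Real.log p = Real.log N := by
  have h := Nat.prod_primeFactors_of_squarefree hs
  conv_rhs => rw [← h]
  push_cast
  rw [Real.log_prod]
  intro p hp
  have := (Nat.prime_of_mem_primeFactors hp).pos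
  positivity

/-- the sum of the weights for products of three primes `≤ U` -/
lemma Sa_tri {x N U : ℕ} {ke δ : ℝ} (hx : 2 ≤ x) (hke : 0 < ke) (hδ : δ = ke / 2000)
    (hU : (U : ℝ) ≤ (x : ℝ) ^ (2 / 3 + ke)) (hs : Squarefree N) (hw : w N = 3) (hB : Bn U N = 0)
    (h1 : (2 - δ) * Real.log x ≤ Real.log N) (h2 : Real.log N ≤ (2 + δ) * Real.log x) :
    Sa 1000 (thr x 1000 (2 / 3 + ke) (3 * ke / 1000)) N ≤ 1 ∧
    1 - 4 / 1000 ≤ Sa 1000 (thr x 1000 (2 / 3 + ke) (3 * ke / 1000)) N := by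
  classical
  have hx1 : 1 ≤ x := by omega
  have hx0 : (0 : ℝ) < x := by exact_mod_cast hx1
  have hL : 0 < Real.log x := Real.log_pos (by exact_mod_cast (by omega : 1 < x))
  obtain ⟨L, hLe⟩ : ∃ L : ℝ, L = Real.log x := ⟨_, rfl⟩
  rw [← hLe] at h1 h2
  obtain ⟨β, hβ⟩ : ∃ β : ℝ, β = 2 / 3 + ke := ⟨_, rfl⟩
  obtain ⟨h, hh⟩ : ∃ h : ℝ, h = 3 * ke / 1000 := ⟨_, rfl⟩
  have hh0 : 0 < h := by rw [hh]; positivity
  rw [← hβ] at hU
  rw [← hβ, ← hh]
  obtain ⟨A, hA⟩ : ∃ A : ℕ → ℕ, A = thr x 1000 β h := ⟨_, rfl⟩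
  rw [← hA]
  have hN0 : N ≠ 0 := hs.ne_zero
  -- the primes
  have hpm : ∀ p ∈ N.primeFactors, p.Prime ∧ Real.log p ≤ β * L := by
    intro p hp
    rw [Nat.mem_primeFactors] at hp
    have h3 := le_of_Bn hB hp.1 hp.2.1 hp.2.2
    have p0 : (0 : ℝ) < p := by exact_mod_cast hp.1.pos
    have : (p : ℝ) ≤ (x : ℝ) ^ β := (by exact_mod_cast h3 : (p : ℝ) ≤ U).trans hU
    have := Real.log_le_log p0 this
    rw [Real.log_rpow hx0, ← hLe] at this
    exact ⟨hp.1, this⟩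
  have hidx : ∀ p : ℕ, Real.log p = (β - h * ((β - Real.log p / L) / h)) * Real.log x := by
    intro p
    rw [← hLe] at hL ⊢
    field_simp
    ring
  have hsum : ∑ p ∈ N.primeFactors, (β - Real.log p / L) / h = (3 * β - Real.log N / L) / h := by
    rw [← sum_div, sum_sub_distrib, ← sum_div, log_sum hs, sum_const, nsmul_eq_mul]
    congr 2
    change ((w N : ℕ) : ℝ) * β = 3 * β
    rw [hw]
    norm_num
  rw [← hLe] at hL
  have hr0 : ∀ p ∈ N.primeFactors, 0 ≤ (β - Real.log p / L) / h := by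
    intro p hp
    apply div_nonneg _ hh0.le
    have : Real.log p / L ≤ β := by rw [div_le_iff₀ hL]; exact (hpm p hp).2
    linarith
  have hq1 : 2 - δ ≤ Real.log N / L := by rw [le_div_iff₀ hL]; exact h1
  have hq2 : Real.log N / L ≤ 2 + δ := by rw [div_le_iff₀ hL]; exact h2
  have hm1 : (3 * β - Real.log N / L) / h ≤ 1000 + 1 / 2 := by
    rw [div_le_iff₀ hh0, hh, hβ]
    rw [hδ] at hq1
    linarith
  have hm2 : 1000 - 1 / 2 ≤ (3 * β - Real.log N / L) / h := by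
    rw [le_div_iff₀ hh0, hh, hβ]
    rw [hδ] at hq2
    linarith
  have hr1 : ∀ p ∈ N.primeFactors, (β - Real.log p / L) / h ≤ ((1000 : ℕ) : ℝ) + 1 := by
    intro p hp
    have h3 := single_le_sum hr0 hp
    rw [hsum] at h3
    push_cast
    linarith
  have hn : ((1000 : ℕ) : ℝ) * Sa 1000 A N = ((∑ p ∈ N.primeFactors, #((range 1000).filter (fun i => p ≤ A i)) : ℕ) : ℝ) := by
    unfold Sa
    rw [mul_sum]
    push_cast
    apply sum_congr rfl
    intro p _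
    have := aw_card (n := 1000) (by norm_num) A p
    push_cast at this
    exact this
  have hup : ((1000 : ℕ) : ℝ) * Sa 1000 A N ≤ 1000 + 1 / 2 := by
    refine le_trans ?_ hm1
    rw [← hsum]
    unfold Sa
    rw [mul_sum]
    apply sum_le_sum
    intro p hp
    rw [hA]
    exact aw_up hx1 (by rw [← hLe]; exact hL) (by norm_num) (hpm p hp).1.pos hh0 (hr0 p hp) (hidx p)
  have hlo : 1000 - 1 / 2 - 3 ≤ ((1000 : ℕ) : ℝ) * Sa 1000 A N := by
    have h3 : ∑ p ∈ N.primeFactors, ((β - Real.log p / L) / h - 1) ≤ ((1000 : ℕ) : ℝ) * Sa 1000 A N := by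
      unfold Sa
      rw [mul_sum]
      apply sum_le_sum
      intro p hp
      rw [hA]
      exact aw_lo' hx1 (by rw [← hLe]; exact hL) (by norm_num) (hpm p hp).1.pos hh0 (hr0 p hp) (hidx p) (hr1 p hp)
    rw [sum_sub_distrib, hsum, sum_const, nsmul_eq_mul, mul_one] at h3
    have h4 : (#N.primeFactors : ℝ) = 3 := by exact_mod_cast hw
    rw [h4] at h3
    linarith
  constructor
  · rw [hn] at hup
    have h3 : (∑ p ∈ N.primeFactors, #((range 1000).filter (fun i => p ≤ A i)) : ℕ) ≤ 1000 := by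
      have h4 : ((∑ p ∈ N.primeFactors, #((range 1000).filter (fun i => p ≤ A i)) : ℕ) : ℝ) < ((1000 + 1 : ℕ) : ℝ) := by
        push_cast at hup ⊢
        linarith
      have h5 : (∑ p ∈ N.primeFactors, #((range 1000).filter (fun i => p ≤ A i)) : ℕ) < 1000 + 1 := by exact_mod_cast h4
      omega
    have h4 : ((1000 : ℕ) : ℝ) * Sa 1000 A N ≤ 1000 := by rw [hn]; exact_mod_cast h3
    push_cast at h4
    linarith
  · push_cast at hlo
    linarith

lemma G3_ge {x N U Q : ℕ} {ke δ : ℝ} (hx : 2 ≤ x) (hke : 0 < ke) (hδ : δ = ke / 2000)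
    (hU : (U : ℝ) ≤ (x : ℝ) ^ (2 / 3 + ke)) (hUU : U * U < N)
    (hAU : ∀ i < 1000, thr x 1000 (2 / 3 + ke) (3 * ke / 1000) i ≤ U)
    (h1 : (2 - δ) * Real.log x ≤ Real.log N) (h2 : Real.log N ≤ (2 + δ) * Real.log x) :
    pi0 N ≤ G3 Q U 1000 (thr x 1000 (2 / 3 + ke) (3 * ke / 1000)) N ∧
    G3 Q U 1000 (thr x 1000 (2 / 3 + ke) (3 * ke / 1000)) N ≤
      pi0 N + X2e Q U 1000 (thr x 1000 (2 / 3 + ke) (3 * ke / 1000)) N + 4 / 1000 * Y3 Q U N := by
  have h3 : 0 ≤ X2e Q U 1000 (thr x 1000 (2 / 3 + ke) (3 * ke / 1000)) N := by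
    unfold X2e
    split_ifs with h
    · obtain ⟨p, q, hpq, h6⟩ := card_eq_two.1 h.2.2.1
      have h7 := Nat.prod_primeFactors_of_squarefree h.1
      rw [h6, prod_pair hpq] at h7
      have hp : p ∈ N.primeFactors := by rw [h6]; simp
      have hq : q ∈ N.primeFactors := by rw [h6]; simp
      rw [Nat.mem_primeFactors] at hp hq
      have hSum : Sa 1000 (thr x 1000 (2 / 3 + ke) (3 * ke / 1000)) N =
          aw 1000 (thr x 1000 (2 / 3 + ke) (3 * ke / 1000)) p + aw 1000 (thr x 1000 (2 / 3 + ke) (3 * ke / 1000)) q := by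
        unfold Sa
        rw [h6, sum_pair hpq]
      have hbig : U < p ∨ U < q := by
        by_contra hcon
        push Not at hcon
        have := Nat.mul_le_mul hcon.1 hcon.2
        omega
      rw [hSum]
      rcases hbig with hb | hb
      · rw [aw_zero hAU hb]
        linarith [aw_le 1000 (thr x 1000 (2 / 3 + ke) (3 * ke / 1000)) q]
      · rw [aw_zero hAU hb]
        linarith [aw_le 1000 (thr x 1000 (2 / 3 + ke) (3 * ke / 1000)) p]
    · exact le_rfl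
  have h4 : 0 ≤ X3e Q U 1000 (thr x 1000 (2 / 3 + ke) (3 * ke / 1000)) N ∧
      X3e Q U 1000 (thr x 1000 (2 / 3 + ke) (3 * ke / 1000)) N ≤ 4 / 1000 * Y3 Q U N := by
    unfold X3e Y3
    split_ifs with h
    · have := Sa_tri hx hke hδ hU h.1 h.2.2.1 h.2.2.2 h1 h2
      constructor <;> linarith [this.1, this.2]
    · simp
  unfold G3
  constructor <;> linarith [h4.1, h4.2]

theorem upN (a : ℤ) (ha : 0 < a) (Λ : ℝ) (hΛ : 1 ≤ Λ) (hG : LamG a Λ) (k : ℝ) (hk : 0 < k) (hk1 : k ≤ 2 / 15) :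
    UpP a Λ (5 / 6 - k) (11 / 6 * k) := by
  obtain ⟨As, hG⟩ := hG
  refine ⟨As, fun E R ε κ K1 hε hκ hK1 => ?_⟩
  obtain ⟨ε0, hε0, hε0ε, hε03⟩ : ∃ ε0 : ℝ, 0 < ε0 ∧ ε0 ≤ ε ∧ ε0 ≤ 1 / 6 :=
    ⟨min ε (1 / 6), by positivity, min_le_left _ _, min_le_right _ _⟩
  obtain ⟨η1, e2, D, c0, A, K, x0, hη1, hη12, he2, he22, hD1, hc0, hA, hG⟩ :=
    hG E R (18 + 8 * 1000) 5 (5 / 6 - k) ε0 (κ / 2) K1 (by linarith) hε0 (by linarith) (by positivity) hK1 (by norm_num)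
  obtain ⟨c0', A', hc0', hA', X0, hX0⟩ := range_bdU a ha Λ hΛ R
  obtain ⟨e, he, he1, he3, he4⟩ : ∃ e : ℝ, 0 < e ∧ e ≤ 1 / 100 ∧ e ≤ ε0 / 4 ∧ e ≤ k / 2 :=
    ⟨min (1 / 100) (min (ε0 / 4) (k / 2)), by positivity, min_le_left _ _, (min_le_right _ _).trans (min_le_left _ _),
      (min_le_right _ _).trans (min_le_right _ _)⟩
  obtain ⟨ke, hke⟩ : ∃ ke : ℝ, ke = k - e := ⟨_, rfl⟩
  have hke0 : 0 < ke := by rw [hke]; linarith
  have hke1 : ke ≤ 2 / 15 := by rw [hke]; linarith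
  obtain ⟨δ, hδ⟩ : ∃ δ : ℝ, δ = ke / 2000 := ⟨_, rfl⟩
  have hδ0 : 0 < δ := by rw [hδ]; positivity
  have hev := (params12 ke e e2 (min c0 c0') (max A A') hke0 he he1 (by rw [hke]; linarith) he2 (by linarith) (lt_min hc0 hc0')
    (le_max_of_le_left hA)).and
    ((ls_Y3 a ha Λ hΛ R ke (κ / 4) hke0 hke1 (by positivity)).and
    ((ls_X2e a ha Λ hΛ R ke (κ / 4) hke0 hke1 (by positivity)).and
    ((Lam.pow_ev (1 / min c0 c0') (2 - δ) 2 (by linarith)).and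
    ((Lam.pow_ev (max A A') 2 (2 + δ) (by linarith)).and (eventually_ge_atTop ⌈max A A'⌉₊)))))
  obtain ⟨xe, hxe⟩ := eventually_atTop.1 hev
  refine ⟨η1, hη1, hη12, max (max x0 X0) (max xe 2), ?_⟩
  intro x hx J hz1 hz2
  obtain ⟨⟨U, y, Q, hUe, hU1, hQU, hUy, hyhi, hylo, hUlo, hUhi, hQlo, hQhi, hQQ, hyy, hQ5, hUQQ, hUUU, hUUQ⟩, hW1, hW2, hlr1, hlr2,
    hAx⟩ := hxe x (by omega)
  have hx2 : 2 ≤ x := by omega
  have hxr : (1 : ℝ) ≤ x := by exact_mod_cast (by omega : 1 ≤ x)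
  have hx0r : (0 : ℝ) < x := by linarith
  have hx2' : (0 : ℝ) ≤ (x : ℝ) ^ 2 := by positivity
  have hcm : 0 < min c0 c0' := lt_min hc0 hc0'
  have x2e : (x : ℝ) ^ (2 : ℝ) = (x : ℝ) ^ 2 := by norm_cast
  rw [x2e] at hlr1 hlr2
  obtain ⟨Ath, hAth⟩ : ∃ Ath : ℕ → ℕ, Ath = thr x 1000 (2 / 3 + ke) (3 * ke / 1000) := ⟨_, rfl⟩
  have hAU : ∀ i < 1000, thr x 1000 (2 / 3 + ke) (3 * ke / 1000) i ≤ U := by
    intro i _
    rw [hUe]
    unfold thr
    apply Nat.floor_le_floor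
    apply Real.rpow_le_rpow_of_exponent_le hxr
    have : 0 ≤ 3 * ke / 1000 * ((i : ℝ) + 1) := by positivity
    linarith
  obtain ⟨hDv, hG⟩ := hG x (by omega) J hz1 hz2
  obtain ⟨zs, h0, hK, hm, hBad, hmain⟩ := hG U y Q hU1 hUy hyhi hylo
    ((Real.rpow_le_rpow_of_exponent_le hxr (by rw [hke]; linarith)).trans hUlo)
    (hUhi.trans (Real.rpow_le_rpow_of_exponent_le hxr (by rw [hke]; linarith)))
    ((Real.rpow_le_rpow_of_exponent_le hxr (by norm_num)).trans hQlo) hQhi hQQ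
  obtain ⟨z, hz⟩ : ∃ z : ℕ, z = 2 ^ 2 ^ J := ⟨_, rfl⟩
  rw [← hz] at h0 hBad hmain hDv
  have hrange : ∀ N : ℕ, min c0 c0' * (x : ℝ) ^ 2 < N → U * U < N := by
    intro N hN1
    have h1 : ((U * U * Q : ℕ) : ℝ) < N := lt_of_le_of_lt hUUQ hN1
    have h2 : U * U * Q < N := by exact_mod_cast h1
    have h3 : 1 ≤ Q := by
      have : (1 : ℝ) ≤ Q := (Real.one_le_rpow hxr (by norm_num)).trans hQlo
      exact_mod_cast this
    have h4 : U * U * 1 ≤ U * U * Q := Nat.mul_le_mul_left _ h3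
    omega
  have hlog : ∀ N : ℕ, min c0 c0' * (x : ℝ) ^ 2 < N → (N : ℝ) ≤ max A A' * (x : ℝ) ^ 2 →
      (2 - δ) * Real.log x ≤ Real.log N ∧ Real.log N ≤ (2 + δ) * Real.log x := by
    intro N hN1 hN2
    have hN0 : (0 : ℝ) < N := lt_of_le_of_lt (by positivity) hN1
    constructor
    · rw [← Real.log_rpow hx0r]
      apply Real.log_le_log (by positivity)
      rw [div_mul_eq_mul_div, one_mul, div_le_iff₀ hcm] at hlr1
      linarith
    · rw [← Real.log_rpow hx0r]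
      exact Real.log_le_log hN0 (hN2.trans hlr2)
  have hptw : ∀ N : ℕ, min c0 c0' * (x : ℝ) ^ 2 < N → (N : ℝ) ≤ max A A' * (x : ℝ) ^ 2 →
      (Rough z N → (#N.divisors : ℝ) ≤ D) →
      |H3 z U y Q 1000 Ath K zs N - G3 Q U 1000 Ath N| ≤ 18 * D ^ 2 * Bad z y Q K zs N := by
    intro N hN1 hN2 hND
    refine pt3 z U y Q 1000 K N Ath zs D hU1 (by rw [hAth]; exact hAU) hQU hUy h0 hK hm ?_ ?_ hUQQ ?_ ?_ hND
    · have : ((y * y : ℕ) : ℝ) < N := lt_of_le_of_lt hyy hN1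
      exact_mod_cast this
    · have : (N : ℝ) < ((Q ^ 5 : ℕ) : ℝ) := lt_of_le_of_lt hN2 hQ5
      exact_mod_cast this
    · have : (N : ℝ) ≤ ((U * U * U : ℕ) : ℝ) := hN2.trans hUUU
      exact_mod_cast this
    · have : ((U * U * Q : ℕ) : ℝ) < N := lt_of_le_of_lt hUUQ hN1
      exact_mod_cast this
  have hmaxe : ∀ N : ℕ, min c0 c0' * (x : ℝ) ^ 2 < N → (N : ℝ) ≤ max A A' * (x : ℝ) ^ 2 →
      max (G3 Q U 1000 Ath N) (pi0 N) = G3 Q U 1000 Ath N ∧
      G3 Q U 1000 Ath N ≤ pi0 N + X2e Q U 1000 Ath N + 4 / 1000 * Y3 Q U N := by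
    intro N hN1 hN2
    obtain ⟨l1, l2⟩ := hlog N hN1 hN2
    have h3 := G3_ge (Q := Q) hx2 hke0 hδ hUhi (hrange N hN1) hAU l1 l2
    rw [← hAth] at h3
    exact ⟨max_eq_left h3.1, h3.2⟩
  have hmm1 : min c0 c0' * (x : ℝ) ^ 2 ≤ c0 * (x : ℝ) ^ 2 := mul_le_mul_of_nonneg_right (min_le_left _ _) hx2'
  have hmm2 : min c0 c0' * (x : ℝ) ^ 2 ≤ c0' * (x : ℝ) ^ 2 := mul_le_mul_of_nonneg_right (min_le_right _ _) hx2'
  have hmm3 : A * (x : ℝ) ^ 2 ≤ max A A' * (x : ℝ) ^ 2 := mul_le_mul_of_nonneg_right (le_max_left _ _) hx2'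
  have hmm4 : A' * (x : ℝ) ^ 2 ≤ max A A' * (x : ℝ) ^ 2 := mul_le_mul_of_nonneg_right (le_max_right _ _) hx2'
  refine ⟨fun N => max (G3 Q U 1000 Ath N) (pi0 N), fun N => le_max_right _ _, ?_, ?_⟩
  · intro b hb x1 x2 h12 h2x hxR
    obtain ⟨hbx2, hr1, hr2⟩ := hX0 x (by omega) b hb x1 (by omega) hxR
    have hW := hW1 b hb x1 x2 h12 h2x hxR Q U hUhi
    have hW' := hW2 b hb x1 x2 h12 h2x hxR Q U hUhi hAU
    rw [← hAth] at hW'
    have hle : Ls a b x1 x2 (fun N => max (G3 Q U 1000 Ath N) (pi0 N)) ≤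
        Ls a b x1 x2 pi0 + Ls a b x1 x2 (X2e Q U 1000 Ath) + 4 / 1000 * Ls a b x1 x2 (Y3 Q U) := by
      unfold Ls
      rw [mul_sum, ← sum_add_distrib, ← sum_add_distrib]
      apply sum_le_sum
      intro N hN
      rw [mem_Ioc] at hN
      have hw0 := Mtm.hw_nonneg a N
      have hF2 : Fn a b x2 ≤ Fn a b x := Mtm.Fn_mono ha (by omega) h2x
      have b1 : c0' * (x : ℝ) ^ 2 < N := lt_of_le_of_lt hr1 (by exact_mod_cast hN.1)
      have b2 : (N : ℝ) ≤ A' * (x : ℝ) ^ 2 := by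
        have : (N : ℝ) ≤ ((Fn a b x : ℕ) : ℝ) + x := by
          have h1 : (N : ℝ) ≤ ((Fn a b x : ℕ) : ℝ) := by exact_mod_cast hN.2.trans hF2
          have h2 : (0 : ℝ) ≤ x := Nat.cast_nonneg _
          linarith
        linarith
      obtain ⟨m1, m2⟩ := hmaxe N (by linarith) (by linarith)
      change max (G3 Q U 1000 Ath N) (pi0 N) * hw a N ≤ pi0 N * hw a N + X2e Q U 1000 Ath N * hw a N +
        4 / 1000 * (Y3 Q U N * hw a N)
      rw [m1]
      calc G3 Q U 1000 Ath N * hw a N ≤ (pi0 N + X2e Q U 1000 Ath N + 4 / 1000 * Y3 Q U N) * hw a N :=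
            mul_le_mul_of_nonneg_right m2 hw0
        _ = _ := by ring
    have hX : 0 ≤ ((x2 : ℝ) - x1) / Real.log x := by
      apply div_nonneg _ (Real.log_nonneg hxr)
      have : (x1 : ℝ) ≤ x2 := by exact_mod_cast h12.le
      linarith
    have hX2 : 0 ≤ (x : ℝ) / Real.log x := div_nonneg hx0r.le (Real.log_nonneg hxr)
    have h3 : (183 / 100 * ke + 4 / 1000 * (3 * ke ^ 2)) * (((x2 : ℝ) - x1) / Real.log x) ≤
        11 / 6 * k * (((x2 : ℝ) - x1) / Real.log x) := by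
      apply mul_le_mul_of_nonneg_right _ hX
      have h4 : ke ^ 2 ≤ 2 / 15 * ke := by rw [sq]; exact mul_le_mul_of_nonneg_right hke1 hke0.le
      have h5 : ke ≤ k := by rw [hke]; linarith
      linarith
    have h4 : 0 ≤ κ * ((x : ℝ) / Real.log x) := mul_nonneg hκ.le hX2
    linarith
  · intro b x1 C Jw hbC hx1 hxR hC hCx hw1 hw2 Gd hGd hGd2 hGd3
    have hC' : (x : ℝ) ^ (5 / 6 - k + ε0) ≤ C := (Real.rpow_le_rpow_of_exponent_le hxr (by linarith)).trans hC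
    have := hmain (g3 Q 1000 Ath) (fun N => max (G3 Q U 1000 Ath N) (pi0 N)) (l3 U Q 1000 Ath) (g3_abs Q 1000 _) (g3_sq Q 1000 _)
      (fun m hm => (SL_g3 Q 1000 _ m hm).mono (by norm_num)) (by simp [l3]) (l3_ok U y Q 1000 _ hUy) (by
        intro N hN1 hN2 hND
        rw [← H3_eq, (hmaxe N (by linarith) (by linarith)).1]
        refine (hptw N (by linarith) (by linarith) hND).trans ?_
        have hB := Pt.Bad_nonneg z y Q K zs N
        have : 0 ≤ D ^ 2 * Bad z y Q K zs N := by positivity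
        push_cast
        nlinarith) b x1 C Jw hbC hx1 hxR hC' hCx hw1 hw2 Gd hGd (by rw [hz]; exact hGd2) hGd3
    refine this.trans ?_
    apply mul_le_mul_of_nonneg_right (by linarith)
    have : 0 ≤ Real.log x := Real.log_nonneg hxr
    positivity

end Pool.Agent.H568
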