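import Mathlib
import Pool.Agent.H568.Nb5
import Pool.Agent.H568.TrG

/-!
The two bounds near the asymptotic range.
-/

set_option autoImplicit false

namespace Pool.Agent.H568

open Finset Filter Topology Pool.Agent.N792 Pool.Agent.N791.U Pool.Agent.N792.Fn124

/-- the two bounds for one polynomial -/
def QTk (a : ℤ) (κ1 κ2 θ η : ℝ) (x : ℕ) (b c : ℤ) : Prop :=
  Admissible a b c → ∃ S : ℝ, 0 < S ∧ Tendsto (fun z => partialC a b c z) atTop (𝓝 S) ∧ θ ≤ eps a b * S * gcdProd a b ∧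
    ∀ u v : ℕ, u ≤ v → v ≤ x →
      κ1 * (eps a b * S * gcdProd a b * ∑ m ∈ Ioc u v, 1 / Real.log ((a : ℝ) * m ^ 2 + b * m + c)) -
        η * (eps a b * S * gcdProd a b * x / Real.log x) ≤
      (#((Ioc u v).filter (fun m : ℕ => (fv a b c m).toNat.Prime)) : ℝ) ∧
      (#((Ioc u v).filter (fun m : ℕ => (fv a b c m).toNat.Prime)) : ℝ) ≤
      κ2 * (eps a b * S * gcdProd a b * ∑ m ∈ Ioc u v, 1 / Real.log ((a : ℝ) * m ^ 2 + b * m + c)) +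
        η * (eps a b * S * gcdProd a b * x / Real.log x)

lemma QTk_of {a : ℤ} {κ1 κ2 θ1 θ2 η : ℝ} {x : ℕ} {b c : ℤ} (h1 : QLk a κ1 θ1 η x b c) (h2 : QUk a κ2 θ2 η x b c) :
    QTk a κ1 κ2 (min θ1 θ2) η x b c := by
  intro hadm
  obtain ⟨S, m1, m2, m3, m4⟩ := h1 hadm
  obtain ⟨S', m1', m2', m3', m4'⟩ := h2 hadm
  obtain rfl : S = S' := tendsto_nhds_unique m2 m2'
  exact ⟨S, m1, m2, (min_le_left _ _).trans m3, fun u v huv hvx => ⟨m4 u v huv hvx, m4' u v huv hvx⟩⟩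

/-- the two conclusions together -/
theorem both_c (a : ℤ) (ha : 0 < a) (b : ℤ) (γ κ1 κ2 : ℝ) (hγ : 1 / 2 ≤ γ) (h10 : 0 ≤ κ1) (h11 : κ1 ≤ 1) (h20 : 0 ≤ κ2) (h21 : κ2 ≤ 2)
    (hL : ∀ Λ : ℝ, 1 ≤ Λ → ∀ ε η : ℝ, 0 < ε → 0 < η → ConclLP a Λ γ κ1 ε η)
    (hU : ∀ Λ : ℝ, 1 ≤ Λ → ∀ ε η : ℝ, 0 < ε → 0 < η → ConclUP a Λ γ κ2 ε η) (ε η : ℝ) (hε : 0 < ε) (hγ1 : γ + ε ≤ 1) (hη : 0 < η) :
    ∃ θ : ℝ, 0 < θ ∧ ∃ x0 : ℕ, ∀ x : ℕ, x0 ≤ x → ∀ C : ℕ, (x : ℝ) ^ (γ + ε) ≤ C → C ≤ x →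
    ∃ Ex ⊆ Icc (-(C : ℤ)) C, (#Ex : ℝ) ≤ η * C ∧ ∀ c ∈ Icc (-(C : ℤ)) C, c ∉ Ex → QTk a κ1 κ2 θ η x b c := by
  classical
  obtain ⟨η', hη'⟩ : ∃ η' : ℝ, η' = η / 8 := ⟨_, rfl⟩
  have hη'0 : 0 < η' := by rw [hη']; positivity
  have hb2 : (0 : ℝ) ≤ (b : ℝ) ^ 2 := by positivity
  obtain ⟨θ1, hθ1, x1, hx1⟩ := unif_ofLk (hL (1 + (b : ℝ) ^ 2) (by linarith) ε η' hε hη'0)
  obtain ⟨θ2, hθ2, x2, hx2⟩ := unif_ofUk (hU (1 + (b : ℝ) ^ 2) (by linarith) ε η' hε hη'0)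
  obtain ⟨θ3, hθ3, x3, hx3⟩ := neg_tLk a ha b γ κ1 hγ h10 h11 hL ε η' hε hγ1 hη'0
  obtain ⟨θ4, hθ4, x4, hx4⟩ := neg_tUk a ha b γ κ2 hγ h20 h21 hU ε η' hε hγ1 hη'0
  obtain ⟨x5, hx5⟩ := evN' _ ((tendsto_rpow_atTop (by norm_num : (0 : ℝ) < 1 / 2)).eventually_ge_atTop (1 / η'))
  refine ⟨min (min θ1 θ2) (min θ3 θ4), by positivity, x1 + x2 + x3 + x4 + x5 + 2, fun x hx C hC1 hC2 => ?_⟩
  have hxr : (1 : ℝ) ≤ x := by exact_mod_cast (by omega : 1 ≤ x)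
  have hC5 : (x : ℝ) ^ (1 / 2 : ℝ) ≤ C := (Real.rpow_le_rpow_of_exponent_le hxr (by linarith)).trans hC1
  have hC0 : (1 : ℝ) ≤ C := (Real.one_le_rpow hxr (by norm_num)).trans hC5
  have h5 := (hx5 x (by omega)).trans hC5
  rw [div_le_iff₀ hη'0] at h5
  have hbC : (b : ℝ) ^ 2 ≤ (1 + (b : ℝ) ^ 2) * C := by nlinarith
  obtain ⟨E1, a1, a2, a3⟩ := hx1 x (by omega) b C hbC hC1 hC2
  obtain ⟨E2, b1, b2, b3⟩ := hx2 x (by omega) b C hbC hC1 hC2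
  obtain ⟨E3, c1, c2, c3⟩ := hx3 x (by omega) C hC1 hC2
  obtain ⟨E4, d1, d2, d3⟩ := hx4 x (by omega) C hC1 hC2
  refine ⟨insert 0 ((E1 ∪ E2).image (fun c : ℕ => (c : ℤ)) ∪ (E3 ∪ E4).image (fun c : ℕ => -(c : ℤ))), ?_, ?_, ?_⟩
  · intro c hc
    rw [mem_insert, mem_union, mem_image, mem_image] at hc
    rw [mem_Icc]
    rcases hc with rfl | ⟨k, hk, rfl⟩ | ⟨k, hk, rfl⟩
    · constructor <;> omega
    · have := mem_Icc.1 (union_subset a1 b1 hk)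
      omega
    · have := mem_Icc.1 (union_subset c1 d1 hk)
      omega
  · have h1 := card_union_le ((E1 ∪ E2).image (fun c : ℕ => (c : ℤ))) ((E3 ∪ E4).image (fun c : ℕ => -(c : ℤ)))
    have h2 : #((E1 ∪ E2).image (fun c : ℕ => (c : ℤ))) ≤ #(E1 ∪ E2) := card_image_le
    have h3 : #((E3 ∪ E4).image (fun c : ℕ => -(c : ℤ))) ≤ #(E3 ∪ E4) := card_image_le
    have h2' := card_union_le E1 E2
    have h3' := card_union_le E3 E4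
    have h0 := card_insert_le 0 ((E1 ∪ E2).image (fun c : ℕ => (c : ℤ)) ∪ (E3 ∪ E4).image (fun c : ℕ => -(c : ℤ)))
    have h4 : (#(insert 0 ((E1 ∪ E2).image (fun c : ℕ => (c : ℤ)) ∪ (E3 ∪ E4).image (fun c : ℕ => -(c : ℤ)))) : ℝ) ≤
        #E1 + #E2 + #E3 + #E4 + 1 := by
      exact_mod_cast (by omega)
    have e1 : η' * C = η / 8 * C := by rw [hη']
    have h6 : 0 < η / 8 * C := by positivity
    linarith
  · intro c hc hcE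
    rw [mem_insert, mem_union, not_or, not_or] at hcE
    have hcI := mem_Icc.1 hc
    have hmono : ∀ θ θ' : ℝ, θ ≤ θ' → QTk a κ1 κ2 θ' η' x b c → QTk a κ1 κ2 θ η x b c := by
      intro θ θ' hθθ hq hadm
      obtain ⟨S, m1, m2, m3, m4⟩ := hq hadm
      refine ⟨S, m1, m2, hθθ.trans m3, fun u v huv hvx => ?_⟩
      obtain ⟨n1, n2⟩ := m4 u v huv hvx
      have hM : 0 ≤ eps a b * S * gcdProd a b := by
        have g1 : 0 ≤ eps a b := by unfold eps; split_ifs <;> norm_num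
        have g2 : 0 ≤ gcdProd a b := by
          unfold gcdProd
          apply prod_nonneg
          intro p hp
          have hp' : p.Prime := by
            simp only [mem_filter, Nat.mem_primeFactors] at hp
            tauto
          have : (2 : ℝ) ≤ p := by exact_mod_cast hp'.two_le
          apply div_nonneg <;> linarith
        positivity
      have h7 : 0 ≤ eps a b * S * gcdProd a b * x / Real.log x :=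
        div_nonneg (mul_nonneg hM (by linarith)) (Real.log_nonneg hxr)
      have h8 : η' * (eps a b * S * gcdProd a b * x / Real.log x) ≤ η * (eps a b * S * gcdProd a b * x / Real.log x) :=
        mul_le_mul_of_nonneg_right (by rw [hη']; linarith) h7
      constructor <;> linarith
    rcases lt_trichotomy c 0 with hneg | h0 | hpos
    · obtain ⟨k, hk⟩ := Int.eq_ofNat_of_zero_le (by omega : 0 ≤ -c)
      have hck : c = -(k : ℤ) := by omega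
      have hkE : k ∉ E3 ∪ E4 := fun h => hcE.2.2 (mem_image.2 ⟨k, h, hck.symm⟩)
      rw [mem_union, not_or] at hkE
      have q1 := c3 k (mem_Icc.2 ⟨by omega, by omega⟩) hkE.1
      have q2 := d3 k (mem_Icc.2 ⟨by omega, by omega⟩) hkE.2
      rw [← hck] at q1 q2
      exact hmono _ _ (min_le_right _ _) (QTk_of q1 q2)
    · exact absurd h0 hcE.1
    · obtain ⟨k, hk⟩ := Int.eq_ofNat_of_zero_le hpos.le
      have hkE : k ∉ E1 ∪ E2 := fun h => hcE.2.1 (mem_image.2 ⟨k, h, hk.symm⟩)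
      rw [mem_union, not_or] at hkE
      have q1 := a3 k (mem_Icc.2 ⟨by omega, by omega⟩) hkE.1
      have q2 := b3 k (mem_Icc.2 ⟨by omega, by omega⟩) hkE.2
      rw [← hk] at q1 q2
      exact hmono _ _ (min_le_left _ _) (QTk_of q1 q2)

/-- the two conclusions for pairs -/
theorem both_pair (a : ℤ) (ha : 0 < a) (γ κ1 κ2 : ℝ) (hγ0 : 1 / 2 ≤ γ) (hγ : γ < 1) (h10 : 0 ≤ κ1) (h11 : κ1 ≤ 1) (h20 : 0 ≤ κ2)
    (h21 : κ2 ≤ 2)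
    (hL : ∀ Λ : ℝ, 1 ≤ Λ → ∀ ε η : ℝ, 0 < ε → 0 < η → ConclLP a Λ γ κ1 ε η)
    (hU : ∀ Λ : ℝ, 1 ≤ Λ → ∀ ε η : ℝ, 0 < ε → 0 < η → ConclUP a Λ γ κ2 ε η) (ε η : ℝ) (hε : 0 < ε) (hη : 0 < η) :
    ∃ θ : ℝ, 0 < θ ∧ ∃ H0 : ℕ, ∀ H : ℕ, H0 ≤ H → ∀ N : ℕ, H ^ 2 ≤ N → (N : ℝ) ≤ (H : ℝ) ^ (2 / γ - ε) →
    ∃ Ex ⊆ Icc (-(H : ℤ)) H ×ˢ Icc (-(H : ℤ)) H, (#Ex : ℝ) ≤ η * H ^ 2 ∧
      ∀ q ∈ Icc (-(H : ℤ)) H ×ˢ Icc (-(H : ℤ)) H, q ∉ Ex → QTk a κ1 κ2 θ η N q.1 q.2 := by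
  classical
  obtain ⟨ε0, hε0⟩ : ∃ ε0 : ℝ, ε0 = min (ε / 8) (1 - γ) := ⟨_, rfl⟩
  have h1 : 0 < ε0 := by rw [hε0]; exact lt_min (by positivity) (by linarith)
  have h2 : ε0 ≤ ε / 8 := by rw [hε0]; exact min_le_left _ _
  have h3 : ε0 ≤ 1 - γ := by rw [hε0]; exact min_le_right _ _
  obtain ⟨η', hη'⟩ : ∃ η' : ℝ, η' = η / 2 := ⟨_, rfl⟩
  have hη'0 : 0 < η' := by rw [hη']; positivity
  obtain ⟨δ, hδ⟩ : ∃ δ : ℝ, δ = min 1 (η' / 18) := ⟨_, rfl⟩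
  have d1 : 0 < δ := by rw [hδ]; exact lt_min (by norm_num) (by positivity)
  have d2 : δ ≤ 1 := by rw [hδ]; exact min_le_left _ _
  have d3 : δ ≤ η' / 18 := by rw [hδ]; exact min_le_right _ _
  obtain ⟨θ1, hθ1, H1, hH1⟩ := pair_tLk a ha γ κ1 h10 h11 hL ε0 η' δ h1 (by linarith) hη'0 d1 d2 (by linarith)
  obtain ⟨θ2, hθ2, H2, hH2⟩ := pair_tUk a ha γ κ2 h20 h21 hU ε0 η' δ h1 (by linarith) hη'0 d1 d2 (by linarith)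
  refine ⟨min θ1 θ2, lt_min hθ1 hθ2, H1 + H2 + 1, fun H hH N hN1 hN2 => ?_⟩
  have hHr : (1 : ℝ) ≤ H := by exact_mod_cast (by omega : 1 ≤ H)
  have hγ00 : 0 < γ := by linarith
  have hNH : (N : ℝ) ^ (γ + ε0) ≤ (H : ℝ) ^ 2 := by
    calc (N : ℝ) ^ (γ + ε0) ≤ ((H : ℝ) ^ (2 / γ - ε)) ^ (γ + ε0) :=
          Real.rpow_le_rpow (Nat.cast_nonneg _) hN2 (by linarith)
      _ = (H : ℝ) ^ ((2 / γ - ε) * (γ + ε0)) := by rw [← Real.rpow_mul (by linarith)]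
      _ ≤ (H : ℝ) ^ (2 : ℝ) := by
          apply Real.rpow_le_rpow_of_exponent_le hHr
          have e1 : (2 / γ - ε) * (γ + ε0) = 2 + 2 / γ * ε0 - ε * γ - ε * ε0 := by field_simp; ring
          rw [e1]
          have e2 : 2 / γ ≤ 4 := by rw [div_le_iff₀ hγ00]; linarith
          have e3 : 2 / γ * ε0 ≤ 4 * ε0 := mul_le_mul_of_nonneg_right e2 h1.le
          have e4 : 0 ≤ ε * ε0 := by positivity
          nlinarith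
      _ = _ := by rw [Real.rpow_two]
  obtain ⟨E1, a1, a2, a3⟩ := hH1 H (by omega) N hN1 hNH
  obtain ⟨E2, b1, b2, b3⟩ := hH2 H (by omega) N hN1 hNH
  refine ⟨E1 ∪ E2, union_subset a1 b1, ?_, ?_⟩
  · have h4 : (#(E1 ∪ E2) : ℝ) ≤ #E1 + #E2 := by exact_mod_cast card_union_le E1 E2
    have e1 : η' * (H : ℝ) ^ 2 = η / 2 * H ^ 2 := by rw [hη']
    linarith
  · intro q hq hqE hadm
    rw [mem_union, not_or] at hqE
    obtain ⟨S, m1, m2, m3, m4⟩ := QTk_of (a3 q hq hqE.1) (b3 q hq hqE.2) hadm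
    refine ⟨S, m1, m2, m3, fun u v huv hvx => ?_⟩
    obtain ⟨n1, n2⟩ := m4 u v huv hvx
    have hM : 0 ≤ eps a q.1 * S * gcdProd a q.1 := (lt_min hθ1 hθ2).le.trans m3
    have hN : 1 ≤ N := by
      have : 1 ≤ H ^ 2 := Nat.one_le_pow _ _ (by omega)
      omega
    have hNr : (1 : ℝ) ≤ N := by exact_mod_cast hN
    have h7 : 0 ≤ eps a q.1 * S * gcdProd a q.1 * N / Real.log N :=
      div_nonneg (mul_nonneg hM (by linarith)) (Real.log_nonneg hNr)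
    have h8 : η' * (eps a q.1 * S * gcdProd a q.1 * N / Real.log N) ≤ η * (eps a q.1 * S * gcdProd a q.1 * N / Real.log N) :=
      mul_le_mul_of_nonneg_right (by rw [hη']; linarith) h7
    constructor <;> linarith

lemma near_num {k : ℝ} (hk : 0 < k) (hk1 : k ≤ 2 / 15) : 0 ≤ 1 - 12 * k ^ 2 ∧ 1 - 12 * k ^ 2 ≤ 1 ∧ 0 ≤ 1 + 11 / 3 * k ∧
    1 + 11 / 3 * k ≤ 2 ∧ 0 ≤ 6 * k ^ 2 ∧ 6 * k ^ 2 ≤ 1 / 2 := by
  have : k ^ 2 ≤ 4 / 225 := by nlinarith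
  have : 0 ≤ k ^ 2 := by positivity
  refine ⟨?_, ?_, ?_, ?_, ?_, ?_⟩ <;> linarith

theorem near_L (a : ℤ) (ha : 0 < a) (k : ℝ) (hk : 0 < k) (hk1 : k ≤ 2 / 15) (Λ : ℝ) (hΛ : 1 ≤ Λ) (ε η : ℝ) (hε : 0 < ε) (hη : 0 < η) :
    ConclLP a Λ (5 / 6 - k) (1 - 12 * k ^ 2) ε η := by
  obtain ⟨n1, n2, n3, n4, n5, n6⟩ := near_num hk hk1
  have := conLP a ha Λ hΛ (5 / 6 - k) (6 * k ^ 2) (by linarith) n5 n6 (lowN a ha Λ hΛ (lamG_t a ha Λ hΛ) k hk hk1) ε η hε hη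
  rw [show 1 - 2 * (6 * k ^ 2) = 1 - 12 * k ^ 2 by ring] at this
  exact this

theorem near_U (a : ℤ) (ha : 0 < a) (k : ℝ) (hk : 0 < k) (hk1 : k ≤ 2 / 15) (Λ : ℝ) (hΛ : 1 ≤ Λ) (ε η : ℝ) (hε : 0 < ε) (hη : 0 < η) :
    ConclUP a Λ (5 / 6 - k) (1 + 11 / 3 * k) ε η := by
  have := conUP a ha Λ hΛ (5 / 6 - k) (11 / 6 * k) (by linarith) (by linarith) (by linarith)
    (upN a ha Λ hΛ (lamG_t a ha Λ hΛ) k hk hk1) ε η hε hη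
  rw [show 1 + 2 * (11 / 6 * k) = 1 + 11 / 3 * k by ring] at this
  exact this

/-- **the two bounds for the constant terms `|c| ≤ C`** -/
theorem near_c (a : ℤ) (ha : 0 < a) (b : ℤ) (k : ℝ) (hk : 0 < k) (hk1 : k ≤ 2 / 15) (ε η : ℝ) (hε : 0 < ε) (hη : 0 < η) :
    ∃ θ : ℝ, 0 < θ ∧ ∃ x0 : ℕ, ∀ x : ℕ, x0 ≤ x → ∀ C : ℕ, (x : ℝ) ^ (5 / 6 - k + ε) ≤ C → C ≤ x →
    ∃ Ex ⊆ Icc (-(C : ℤ)) C, (#Ex : ℝ) ≤ η * C ∧
      ∀ c ∈ Icc (-(C : ℤ)) C, c ∉ Ex → QTk a (1 - 12 * k ^ 2) (1 + 11 / 3 * k) θ η x b c := by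
  obtain ⟨n1, n2, n3, n4, -, -⟩ := near_num hk hk1
  obtain ⟨ε0, hε0⟩ : ∃ ε0 : ℝ, ε0 = min ε (1 / 6) := ⟨_, rfl⟩
  have w1 : 0 < ε0 := by rw [hε0]; exact lt_min hε (by norm_num)
  have w2 : ε0 ≤ ε := by rw [hε0]; exact min_le_left _ _
  have w3 : ε0 ≤ 1 / 6 := by rw [hε0]; exact min_le_right _ _
  obtain ⟨θ, hθ, x0, h⟩ := both_c a ha b (5 / 6 - k) (1 - 12 * k ^ 2) (1 + 11 / 3 * k) (by linarith) n1 n2 n3 n4
    (fun Λ hΛ ε η hε hη => near_L a ha k hk hk1 Λ hΛ ε η hε hη) (fun Λ hΛ ε η hε hη => near_U a ha k hk hk1 Λ hΛ ε η hε hη)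
    ε0 η w1 (by linarith) hη
  refine ⟨θ, hθ, x0 + 1, fun x hx C hC1 hC2 => h x (by omega) C ?_ hC2⟩
  have hxr : (1 : ℝ) ≤ x := by exact_mod_cast (by omega : 1 ≤ x)
  exact (Real.rpow_le_rpow_of_exponent_le hxr (by linarith)).trans hC1

/-- **the two bounds for pairs** -/
theorem near_pair (a : ℤ) (ha : 0 < a) (k : ℝ) (hk : 0 < k) (hk1 : k ≤ 2 / 15) (ε η : ℝ) (hε : 0 < ε) (hη : 0 < η) :
    ∃ θ : ℝ, 0 < θ ∧ ∃ H0 : ℕ, ∀ H : ℕ, H0 ≤ H → ∀ N : ℕ, H ^ 2 ≤ N → (N : ℝ) ≤ (H : ℝ) ^ (2 / (5 / 6 - k) - ε) →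
    ∃ Ex ⊆ Icc (-(H : ℤ)) H ×ˢ Icc (-(H : ℤ)) H, (#Ex : ℝ) ≤ η * H ^ 2 ∧
      ∀ q ∈ Icc (-(H : ℤ)) H ×ˢ Icc (-(H : ℤ)) H, q ∉ Ex → QTk a (1 - 12 * k ^ 2) (1 + 11 / 3 * k) θ η N q.1 q.2 := by
  obtain ⟨n1, n2, n3, n4, -, -⟩ := near_num hk hk1
  exact both_pair a ha (5 / 6 - k) (1 - 12 * k ^ 2) (1 + 11 / 3 * k) (by linarith) (by linarith) n1 n2 n3 n4
    (fun Λ hΛ ε η hε hη => near_L a ha k hk hk1 Λ hΛ ε η hε hη) (fun Λ hΛ ε η hε hη => near_U a ha k hk hk1 Λ hΛ ε η hε hη)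
    ε η hε hη

end Pool.Agent.H568
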