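import Mathlib
import Pool.Agent.H568.TrN

/-!
The two bounds for `a n² + b n + c`, `|c| ≤ C`, `C ≥ x^(2/3+ε)`, for fixed `a`, `b`.
-/

set_option autoImplicit false

namespace Pool.Agent.H568

open Finset Filter Topology Pool.Agent.N792 Pool.Agent.N791.U Pool.Agent.N792.Fn124

/-- **the factors `1/2` and `5/3` for all constant terms `|c| ≤ C`, `C ≥ x^(2/3+ε)`** -/
theorem two_gen (a : ℤ) (ha : 0 < a) (b : ℤ) (ε η : ℝ) (hε : 0 < ε) (hη : 0 < η) :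
    ∃ θ : ℝ, 0 < θ ∧ ∃ x0 : ℕ, ∀ x : ℕ, x0 ≤ x → ∀ C : ℕ, (x : ℝ) ^ (2 / 3 + ε) ≤ C → C ≤ x →
    ∃ Ex ⊆ Icc (-(C : ℤ)) C, (#Ex : ℝ) ≤ η * C ∧
      ∀ c ∈ Icc (-(C : ℤ)) C, c ∉ Ex → QTk a (1 / 2) (5 / 3) θ η x b c := by
  obtain ⟨ε0, hε0⟩ : ∃ ε0 : ℝ, ε0 = min ε (1 / 3) := ⟨_, rfl⟩
  have w1 : 0 < ε0 := by rw [hε0]; exact lt_min hε (by norm_num)
  have w2 : ε0 ≤ ε := by rw [hε0]; exact min_le_left _ _
  have w3 : ε0 ≤ 1 / 3 := by rw [hε0]; exact min_le_right _ _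
  obtain ⟨θ, hθ, x0, h⟩ := both_c a ha b (2 / 3) (1 / 2) (5 / 3) (by norm_num) (by norm_num) (by norm_num) (by norm_num)
    (by norm_num) (fun Λ hΛ ε η hε hη => conL a ha Λ hΛ ε η hε hη) (fun Λ hΛ ε η hε hη => conUp a ha Λ hΛ ε η hε hη)
    ε0 η w1 (by linarith) hη
  refine ⟨θ, hθ, x0 + 1, fun x hx C hC1 hC2 => h x (by omega) C ?_ hC2⟩
  have hxr : (1 : ℝ) ≤ x := by exact_mod_cast (by omega : 1 ≤ x)
  exact (Real.rpow_le_rpow_of_exponent_le hxr (by linarith)).trans hC1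

end Pool.Agent.H568
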