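import Mathlib
import Pool.Agent.H568.Gc

/-!
Sums and integrals of decreasing functions, and the general conclusion for a monic family in terms of an integral.
-/

set_option autoImplicit false

namespace Pool.Agent.H568

open Finset Filter Topology

/-- a sum of a decreasing function with values in `[0, 1]` and the integral -/
lemma sum_int (f : ℝ → ℝ) (hf : AntitoneOn f (Set.Ici 0)) (h0 : ∀ t, 0 ≤ t → 0 ≤ f t) (h1 : f 0 ≤ 1) (n : ℕ) :
    ∑ m ∈ Ioc 0 n, f m ≤ ∫ t in (0 : ℝ)..n, f t ∧ ∫ t in (0 : ℝ)..n, f t ≤ ∑ m ∈ Ioc 0 n, f m + 1 := by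
  have ha : AntitoneOn f (Set.Icc (0 : ℝ) ((0 : ℝ) + n)) := hf.mono (fun t ht => ht.1)
  have e1 := ha.sum_le_integral
  have e2 := ha.integral_le_sum
  simp only [zero_add] at e1 e2
  have e3 : ∑ m ∈ Ioc 0 n, f m = ∑ i ∈ range n, f ((i + 1 : ℕ) : ℝ) := by
    rw [show Ioc 0 n = (range n).image (fun i => i + 1) by
      ext m
      simp only [mem_Ioc, mem_image, mem_range]
      constructor
      · intro h
        exact ⟨m - 1, by omega, by omega⟩
      · rintro ⟨i, hi, rfl⟩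
        omega]
    rw [sum_image (fun i _ j _ h => by omega)]
  have e4 : ∑ i ∈ range n, f ((i : ℕ) : ℝ) ≤ ∑ m ∈ Ioc 0 n, f m + 1 := by
    have h : ∑ i ∈ range (n + 1), f ((i : ℕ) : ℝ) = ∑ i ∈ range n, f ((i + 1 : ℕ) : ℝ) + f ((0 : ℕ) : ℝ) :=
      sum_range_succ' _ _
    rw [sum_range_succ] at h
    have h2 : 0 ≤ f (n : ℝ) := h0 _ (Nat.cast_nonneg _)
    rw [e3]
    rw [Nat.cast_zero] at h
    linarith
  constructor
  · rw [e3]
    exact e1
  · exact e2.trans e4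

lemma big_ratio (T : ℝ) : ∃ N0 : ℕ, ∀ N : ℕ, N0 ≤ N → T ≤ (N : ℝ) / Real.log N := by
  obtain ⟨L, hL⟩ := exists_nat_ge ((2 * |T|) ^ 2)
  refine ⟨max L 3, fun N hN => ?_⟩
  have h1 : L ≤ N := (le_max_left _ _).trans hN
  have h2 : 3 ≤ N := (le_max_right _ _).trans hN
  have hH0 : (0 : ℝ) < N := by
    have : 0 < N := by omega
    exact_mod_cast this
  have hlog : 0 < Real.log N := Real.log_pos (by exact_mod_cast (show 1 < N by omega))
  have h3 : 2 * |T| ≤ √(N : ℝ) := by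
    apply Real.le_sqrt_of_sq_le
    exact hL.trans (by exact_mod_cast h1)
  have h4 : Real.log N ≤ 2 * √(N : ℝ) := by
    have e1 : Real.log N = 2 * Real.log (√(N : ℝ)) := by
      rw [Real.log_sqrt hH0.le]
      ring
    have e2 := Real.log_le_sub_one_of_pos (Real.sqrt_pos.2 hH0)
    rw [e1]
    linarith
  have h5 : (N : ℝ) = √(N : ℝ) * √(N : ℝ) := (Real.mul_self_sqrt hH0.le).symm
  rw [le_div_iff₀ hlog]
  have h6 : T ≤ |T| := le_abs_self T
  have h7 : 0 ≤ |T| := abs_nonneg T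
  have h8 : 0 ≤ √(N : ℝ) := Real.sqrt_nonneg _
  calc T * Real.log N ≤ |T| * Real.log N := mul_le_mul_of_nonneg_right h6 hlog.le
    _ ≤ |T| * (2 * √(N : ℝ)) := mul_le_mul_of_nonneg_left h4 h7
    _ = 2 * |T| * √(N : ℝ) := by ring
    _ ≤ √(N : ℝ) * √(N : ℝ) := mul_le_mul_of_nonneg_right h3 h8
    _ = N := h5.symm

end Pool.Agent.H568
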