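import Mathlib
import Pool.Agent.H568.SumInt

/-!
The family `3 x² + 3 x + A`, `A` coprime to `6`.
-/

set_option autoImplicit false

namespace Pool.Agent.H568

open Finset Filter Topology Pool.Agent.N792 Pool.Agent.N791.U Pool.Agent.N792.Fn124

/-- `1 / log (3 t² + 3 t + A)` -/
noncomputable def fK (A : ℕ) (t : ℝ) : ℝ := 1 / Real.log (3 * t ^ 2 + 3 * t + A)

lemma fK_anti {A : ℕ} (hA : 3 ≤ A) : AntitoneOn (fK A) (Set.Ici 0) := by
  intro s hs t ht hst
  rw [Set.mem_Ici] at hs ht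
  have hAr : (3 : ℝ) ≤ A := by exact_mod_cast hA
  have h1 : s ^ 2 ≤ t ^ 2 := by gcongr
  unfold fK
  apply one_div_le_one_div_of_le (Real.log_pos (by nlinarith))
  exact Real.log_le_log (by nlinarith) (by linarith)

lemma fK_nonneg {A : ℕ} (hA : 3 ≤ A) (t : ℝ) (ht : 0 ≤ t) : 0 ≤ fK A t := by
  have hAr : (3 : ℝ) ≤ A := by exact_mod_cast hA
  unfold fK
  exact div_nonneg zero_le_one (Real.log_nonneg (by nlinarith))

lemma fK_zero {A : ℕ} (hA : 3 ≤ A) : fK A 0 ≤ 1 := by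
  have hAr : (3 : ℝ) ≤ A := by exact_mod_cast hA
  unfold fK
  have h : 1 ≤ Real.log (3 * (0 : ℝ) ^ 2 + 3 * 0 + A) := by
    have e : 3 * (0 : ℝ) ^ 2 + 3 * 0 + A = A := by ring
    rw [e, Real.le_log_iff_exp_le (by linarith)]
    have := Real.exp_one_lt_d9
    linarith
  rw [div_le_one (by linarith)]
  exact h

/-- lower bound for the integral -/
lemma int_lowerK {A N : ℕ} (hA : 3 ≤ A) (hAN : A ≤ N) (hN7 : 7 ≤ N) : 1 / 3 * ((N : ℝ) / Real.log N) ≤ ∫ t in (0 : ℝ)..N, fK A t := by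
  have hN : (7 : ℝ) ≤ N := by exact_mod_cast hN7
  have hAr : (3 : ℝ) ≤ A := by exact_mod_cast hA
  have hANr : (A : ℝ) ≤ N := by exact_mod_cast hAN
  have hlog : 0 < Real.log N := Real.log_pos (by linarith)
  obtain ⟨h1, -⟩ := sum_int (fK A) (fK_anti hA) (fK_nonneg hA) (fK_zero hA) N
  refine le_trans ?_ h1
  have h2 : ∀ m ∈ Ioc 0 N, 1 / (3 * Real.log N) ≤ fK A m := by
    intro m hm
    rw [mem_Ioc] at hm
    have hmN : (m : ℝ) ≤ N := by exact_mod_cast hm.2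
    have hm0 : (0 : ℝ) ≤ m := Nat.cast_nonneg _
    unfold fK
    apply one_div_le_one_div_of_le (Real.log_pos (by nlinarith))
    have e : 3 * Real.log N = Real.log ((N : ℝ) ^ 3) := by rw [Real.log_pow]; norm_num
    rw [e]
    apply Real.log_le_log (by nlinarith)
    have h3 : (m : ℝ) ^ 2 ≤ N ^ 2 := by gcongr
    have h4 : (N : ℝ) ^ 2 * 7 ≤ N ^ 2 * N := mul_le_mul_of_nonneg_left hN (by positivity)
    nlinarith
  have h3 := sum_le_sum h2
  rw [sum_const, Nat.card_Ioc, Nat.sub_zero, nsmul_eq_mul] at h3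
  calc 1 / 3 * ((N : ℝ) / Real.log N) = (N : ℝ) * (1 / (3 * Real.log N)) := by field_simp
    _ ≤ _ := h3

lemma adm_cuban {A : ℕ} (hA : 3 ≤ A) (hco : Nat.Coprime A 6) : Admissible 3 3 (A : ℤ) := by
  have h2 : ¬ 2 ∣ A := fun h => by
    have := Nat.dvd_gcd h (show 2 ∣ 6 by norm_num)
    rw [hco] at this
    omega
  have h3 : ¬ 3 ∣ A := fun h => by
    have := Nat.dvd_gcd h (show 3 ∣ 6 by norm_num)
    rw [hco] at this
    omega
  refine ⟨by norm_num, fun d h _ hA' => ?_, fun h => ?_, fun h => ?_⟩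
  · have h5 : d.natAbs ∣ 3 := by
      have := Int.natAbs_dvd_natAbs.2 h
      simpa using this
    have h6 : d.natAbs ∣ A := by
      have := Int.natAbs_dvd_natAbs.2 hA'
      simpa using this
    rcases (Nat.dvd_prime Nat.prime_three).1 h5 with h7 | h7
    · exact Int.isUnit_iff_natAbs_eq.2 h7
    · rw [h7] at h6
      exact absurd h6 h3
  · exact h2 (by exact_mod_cast h.2)
  · obtain ⟨r, hr⟩ := h
    have h1 : 0 ≤ r * r := mul_self_nonneg r
    have : (3 : ℤ) ≤ A := by exact_mod_cast hA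
    omega

lemma gcd_cuban : gcdProd 3 3 = 3 / 2 := by
  unfold gcdProd
  have h0 : Int.gcd 3 3 = 3 := by norm_num
  have h : (Int.gcd 3 3).primeFactors.filter (fun p => 2 < p) = {3} := by
    rw [h0, Nat.prime_three.primeFactors, filter_singleton]
    norm_num
  rw [h, prod_singleton]
  norm_num

theorem cuban_two (ε η : ℝ) (hε : 0 < ε) (hη : 0 < η) : ∃ N0 : ℕ, ∀ N : ℕ, N0 ≤ N → ∀ H : ℕ,
    (N : ℝ) ^ (2 / 3 + ε) ≤ H → H ≤ N →
    ∃ Ex ⊆ (Icc 5 H).filter (fun A => Nat.Coprime A 6), (#Ex : ℝ) ≤ η * H ∧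
      ∀ A ∈ (Icc 5 H).filter (fun A => Nat.Coprime A 6), A ∉ Ex →
      ∃ C : ℝ, 0 < C ∧ Tendsto (fun z : ℕ => partialC 3 3 (A : ℤ) z) atTop (𝓝 C) ∧
        ∀ n : ℕ, n ≤ N →
          1 / 2 * (3 * C * ∫ t in (0 : ℝ)..n, fK A t) - η * (3 * C * ∫ t in (0 : ℝ)..N, fK A t) ≤
            (#((Icc 1 n).filter (fun x : ℕ => (3 * x ^ 2 + 3 * x + A).Prime)) : ℝ) ∧
          (#((Icc 1 n).filter (fun x : ℕ => (3 * x ^ 2 + 3 * x + A).Prime)) : ℝ) ≤
            5 / 3 * (3 * C * ∫ t in (0 : ℝ)..n, fK A t) + η * (3 * C * ∫ t in (0 : ℝ)..N, fK A t) := by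
  classical
  obtain ⟨η1, hη1⟩ : ∃ η1 : ℝ, η1 = η / 12 := ⟨_, rfl⟩
  have hη10 : 0 < η1 := by rw [hη1]; positivity
  obtain ⟨θ, hθ, x0, h⟩ := two_gen 3 (by norm_num) 3 ε η1 hε hη10
  obtain ⟨x1, hx1⟩ := big_ratio (6 * (6 / η))
  refine ⟨x0 + x1 + 7, fun N hN H hH1 hH2 => ?_⟩
  obtain ⟨Ex, k1, k2, k3⟩ := h N (by omega) H hH1 hH2
  have k4 := hx1 N (by omega)
  have hN3 : (3 : ℝ) ≤ N := by exact_mod_cast (by omega : 3 ≤ N)
  have hlog : 0 < Real.log N := Real.log_pos (by linarith)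
  refine ⟨((Icc 5 H).filter (fun A => Nat.Coprime A 6)).filter (fun A : ℕ => (A : ℤ) ∈ Ex), filter_subset _ _, ?_, ?_⟩
  · have h1 : #(((Icc 5 H).filter (fun A => Nat.Coprime A 6)).filter (fun A : ℕ => (A : ℤ) ∈ Ex)) ≤ #Ex := by
      apply card_le_card_of_injOn (fun A : ℕ => (A : ℤ))
      · intro A hA
        exact (mem_filter.1 hA).2
      · intro A _ B _ hAB
        simpa using hAB
    have h2 : (#(((Icc 5 H).filter (fun A => Nat.Coprime A 6)).filter (fun A : ℕ => (A : ℤ) ∈ Ex)) : ℝ) ≤ #Ex := by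
      exact_mod_cast h1
    have h3 : η1 * H ≤ η * H := mul_le_mul_of_nonneg_right (by rw [hη1]; linarith) (Nat.cast_nonneg _)
    linarith
  · intro A hA hAE
    have hAm := hA
    rw [mem_filter, mem_Icc] at hA
    obtain ⟨⟨hA5, hAH⟩, hco⟩ := hA
    have hA3 : 3 ≤ A := by omega
    have hAE' : (A : ℤ) ∉ Ex := fun hh => hAE (mem_filter.2 ⟨hAm, hh⟩)
    obtain ⟨S, m1, m2, m3, m4⟩ := k3 (A : ℤ) (mem_Icc.2 ⟨by omega, by exact_mod_cast hAH⟩) hAE' (adm_cuban hA3 hco)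
    have he : eps 3 3 = 2 := by unfold eps; norm_num
    rw [he, gcd_cuban] at m3
    refine ⟨S, m1, m2, fun n hn => ?_⟩
    obtain ⟨n1, n2⟩ := m4 0 n (Nat.zero_le _) hn
    rw [he, gcd_cuban] at n1 n2
    have es : ∑ m ∈ Ioc 0 n, 1 / Real.log (((3 : ℤ) : ℝ) * (m : ℝ) ^ 2 + ((3 : ℤ) : ℝ) * m + ((A : ℤ) : ℝ)) =
        ∑ m ∈ Ioc 0 n, fK A m := by
      refine sum_congr rfl fun m _ => ?_
      unfold fK
      push_cast
      rfl
    rw [es] at n1 n2
    obtain ⟨s1, s2⟩ := sum_int (fK A) (fK_anti hA3) (fK_nonneg hA3) (fK_zero hA3) n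
    have hL := int_lowerK hA3 (hAH.trans hH2) (by omega)
    obtain ⟨I, hI⟩ : ∃ I : ℝ, I = ∫ t in (0 : ℝ)..n, fK A t := ⟨_, rfl⟩
    obtain ⟨J, hJ⟩ : ∃ J : ℝ, J = ∫ t in (0 : ℝ)..N, fK A t := ⟨_, rfl⟩
    obtain ⟨T0, hT0⟩ : ∃ T0 : ℝ, T0 = ∑ m ∈ Ioc 0 n, fK A m := ⟨_, rfl⟩
    rw [← hT0, ← hI] at s1 s2
    rw [← hJ] at hL ⊢
    rw [← hI]
    rw [← hT0] at n1 n2
    -- the counting functions
    have c1 : #((Ioc 0 n).filter (fun m : ℕ => (fv 3 3 (A : ℤ) m).toNat.Prime)) =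
        #((Icc 1 n).filter (fun x : ℕ => (3 * x ^ 2 + 3 * x + A).Prime)) := by
      rw [show Icc 1 n = Ioc 0 n from rfl]
      refine congrArg _ (filter_congr fun m _ => ?_)
      have : (fv 3 3 (A : ℤ) m).toNat = 3 * m ^ 2 + 3 * m + A := by
        unfold fv
        have : (3 : ℤ) * (m : ℤ) ^ 2 + 3 * m + A = ((3 * m ^ 2 + 3 * m + A : ℕ) : ℤ) := by push_cast; ring
        rw [this, Int.toNat_natCast]
      rw [this]
    rw [c1] at n1 n2
    obtain ⟨X, hX⟩ : ∃ X : ℝ, X = (N : ℝ) / Real.log N := ⟨_, rfl⟩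
    rw [← hX] at hL k4
    have eX : 2 * S * (3 / 2) * (N : ℝ) / Real.log N = 3 * S * X := by rw [hX]; ring
    have eX' : η1 * (2 * S * (3 / 2) * (N : ℝ) / Real.log N) = η1 * (3 * S * X) := by rw [eX]
    rw [eX'] at n1 n2
    -- the errors
    have q1 : η1 * (3 * S * X) ≤ η / 2 * (3 * S * J) := by
      have : S * X ≤ S * (3 * J) := mul_le_mul_of_nonneg_left (by linarith) m1.le
      calc η1 * (3 * S * X) = η / 4 * (S * X) := by rw [hη1]; ring
        _ ≤ η / 4 * (S * (3 * J)) := mul_le_mul_of_nonneg_left this (by positivity)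
        _ ≤ _ := by
          have : 0 ≤ η * (S * J) := by
            have hJ0 : 0 ≤ J := by linarith [show (0:ℝ) ≤ X by rw [hX]; positivity]
            positivity
          nlinarith
    have q2 : 6 * S ≤ η / 2 * (3 * S * J) := by
      have a3 : (6 : ℝ) ≤ η / 2 * J := by
        have : 6 * (6 / η) * (η / 6) ≤ 3 * J * (η / 6) := mul_le_mul_of_nonneg_right (by linarith) (by positivity)
        have e : 6 * (6 / η) * (η / 6) = 6 := by field_simp
        rw [e] at this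
        linarith
      calc 6 * S ≤ η / 2 * J * S := mul_le_mul_of_nonneg_right a3 m1.le
        _ ≤ _ := by
          have : 0 ≤ η / 2 * J * S := by
            have := mul_le_mul_of_nonneg_right a3 m1.le
            linarith
          linarith
    have q4 : S * T0 ≤ S * I := mul_le_mul_of_nonneg_left s1 m1.le
    have q5 : S * I ≤ S * (T0 + 1) := mul_le_mul_of_nonneg_left s2 m1.le
    constructor
    · nlinarith
    · nlinarith

end Pool.Agent.H568
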