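import Mathlib
import Pool.Graph.R_pool_sql_team_seeded_63374d34.N792.CH.FinAU

/-!
Mean values of the function of Liouville with a loss: arguments in a residue class (after helper792, `clsU`).
-/

set_option autoImplicit false

namespace Pool.Agent.H568

open Finset Filter Topology
open Pool.Agent.N792 (Fn rho Rough R2 fv Lam.pow_ev)
open Pool.Agent.N791.C2 (lam class_sum fv_class div_close)
open Pool.Agent.N792.CH

/-- the mean value of the function of Liouville is at most `κ (v - u)` on `(u, v]`, for almost all `c ≤ C`,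
uniformly in `b`, `b² ≤ Λ C` -/
def MVK (a : ℤ) (Λ γ κ : ℝ) : Prop := ∀ (τ : ℝ) (R : ℕ), 0 < τ → ∃ x0 : ℕ, ∀ x : ℕ, x0 ≤ x →
  ∀ (b : ℤ) (u v C : ℕ), (b : ℝ) ^ 2 ≤ Λ * C → x ≤ R * u → u ≤ v → v ≤ x → (x : ℝ) ^ γ ≤ C → C ≤ x →
  ∑ c ∈ Icc 1 C, max 0 (|∑ n ∈ Ioc u v, lam (Fn a b n + c)| - κ * ((v : ℝ) - u)) ≤ τ * (C * x)

/-- arguments in a residue class -/
lemma clsK (γ' κ0 : ℝ) (hγ' : 1 / 2 ≤ γ') (hκ0 : 0 ≤ κ0) (hMV : ∀ a : ℤ, 0 < a → ∀ Λ : ℝ, 1 ≤ Λ → MVK a Λ γ' κ0)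
    (a : ℤ) (ha : 0 < a) (Λ : ℝ) (hΛ : 1 ≤ Λ) (q r : ℕ) (hq : 1 ≤ q)
    (hr : r < q) (γ τ : ℝ) (R : ℕ) (hγ : γ' < γ) (hτ : 0 < τ) :
    ∃ x0 : ℕ, ∀ x : ℕ, x0 ≤ x → ∀ (b : ℤ) (u v C : ℕ), (b : ℝ) ^ 2 ≤ Λ * C → x ≤ R * u → u ≤ v → v ≤ x →
      (x : ℝ) ^ γ ≤ C → C ≤ x →
      ∑ c ∈ Icc 1 C, max 0 (|∑ n ∈ (Ioc u v).filter (fun n => n ≡ r [MOD q]), lamZ (fv a b (c : ℕ) n)| -
        κ0 * #((Ioc u v).filter (fun n => n ≡ r [MOD q]))) ≤ τ * (C * x) := by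
  have hqz : (0 : ℤ) < q := by exact_mod_cast hq
  obtain ⟨a', ha'⟩ : ∃ a' : ℤ, a' = a * (q : ℤ) ^ 2 := ⟨_, rfl⟩
  have ha'0 : 0 < a' := by rw [ha']; positivity
  have har : (1 : ℝ) ≤ a := by exact_mod_cast ha
  have hqr : (1 : ℝ) ≤ q := by exact_mod_cast hq
  obtain ⟨Λ', hΛ'⟩ : ∃ Λ' : ℝ, Λ' = 8 * (a : ℝ) ^ 2 * q ^ 4 + 2 * q ^ 2 * Λ := ⟨_, rfl⟩
  have hΛ'1 : 1 ≤ Λ' := by
    rw [hΛ']
    have h1 : (1 : ℝ) ≤ (q : ℝ) ^ 2 := one_le_pow₀ hqr
    have h2 : (0 : ℝ) ≤ 8 * (a : ℝ) ^ 2 * q ^ 4 := by positivity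
    nlinarith
  obtain ⟨n0, h0⟩ := hMV a' ha'0 Λ' hΛ'1 (τ / 16) (4 * R * q + 1) (by linarith)
  -- all the quantities are at most `M (|b| + 1)`
  obtain ⟨A, hA⟩ : ∃ A : ℕ, A = a.natAbs := ⟨_, rfl⟩
  obtain ⟨M0, hM0⟩ : ∃ M0 : ℕ, M0 = R * (4 * q * (2 * q * q * A + q + 2) + 4 * q + 4 * (A * q * q + q) + 8) + (A * q * q + q) + 2 :=
    ⟨_, rfl⟩
  obtain ⟨n2, h2⟩ := eventually_atTop.1 (Pool.Agent.N791.U.ev_bn Λ hΛ (M0 + ⌈4 / τ⌉₊ * (A * q * q + q + 1)))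
  have e1 := Lam.pow_ev ((2 : ℝ) ^ γ') γ' γ hγ
  have e2 := Lam.pow_ev (n2 : ℝ) 0 γ (by linarith)
  obtain ⟨n1, h1⟩ := eventually_atTop.1 (e1.and e2)
  refine ⟨n0 + n1 + 1, fun x hx b u v C hbC hu huv hvx hC hCx => ?_⟩
  obtain ⟨f1, f5⟩ := h1 x (by omega)
  rw [Real.rpow_zero, mul_one] at f5
  have hx1 : (1 : ℝ) ≤ x := by exact_mod_cast (by omega : 1 ≤ x)
  have hxp : (0 : ℝ) < x := by linarith
  have hCn2 : n2 ≤ C := by exact_mod_cast f5.trans hC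
  have hMb := h2 C hCn2 b hbC
  obtain ⟨κ, hκ⟩ : ∃ κ : ℤ, κ = a * (r : ℤ) ^ 2 + b * r := ⟨_, rfl⟩
  obtain ⟨k, hk⟩ : ∃ k : ℕ, k = κ.natAbs := ⟨_, rfl⟩
  obtain ⟨b', hb'⟩ : ∃ b' : ℤ, b' = q * (2 * a * r + b) := ⟨_, rfl⟩
  obtain ⟨B, hB⟩ : ∃ B : ℕ, B = b.natAbs := ⟨_, rfl⟩
  rw [← hB] at hMb
  have hkB : k ≤ (A * q * q + q) * (B + 1) := by
    rw [hk, hκ]
    refine (Int.natAbs_add_le _ _).trans ?_
    rw [Int.natAbs_mul, Int.natAbs_mul, Int.natAbs_pow, Int.natAbs_natCast, ← hA, ← hB]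
    have h3 : r ^ 2 ≤ q * q := by rw [pow_two]; exact Nat.mul_le_mul hr.le hr.le
    have h4 : A * r ^ 2 ≤ A * (q * q) := Nat.mul_le_mul_left _ h3
    have h5 : B * r ≤ B * q := Nat.mul_le_mul_left _ hr.le
    have h6 : (A * q * q + q) * (B + 1) = A * (q * q) + B * q + (A * q * q * B + q) := by ring
    omega
  have hb'B : b'.natAbs ≤ (2 * q * q * A + q) * (B + 1) := by
    rw [hb', Int.natAbs_mul, Int.natAbs_natCast]
    have h3 : (2 * a * (r : ℤ) + b).natAbs ≤ 2 * A * q + B := by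
      refine (Int.natAbs_add_le _ _).trans ?_
      rw [Int.natAbs_mul, Int.natAbs_mul, Int.natAbs_natCast, ← hA, ← hB]
      have h7 : 2 * A * r ≤ 2 * A * q := Nat.mul_le_mul_left _ hr.le
      have h8 : (2 : ℤ).natAbs = 2 := rfl
      rw [h8]
      omega
    have h4 : q * (2 * a * (r : ℤ) + b).natAbs ≤ q * (2 * A * q + B) := Nat.mul_le_mul_left _ h3
    have h5 : (2 * q * q * A + q) * (B + 1) = q * (2 * A * q + B) + (2 * q * q * A * B + q) := by ring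
    omega
  have hM0B : R * (4 * q * (b'.natAbs + 2) + 4 * q + 4 * k + 4 * B + 4) + (k + 2) ≤ M0 * (B + 1) := by
    have h3 : 4 * q * (b'.natAbs + 2) + 4 * q + 4 * k + 4 * B + 4 ≤
        (4 * q * (2 * q * q * A + q + 2) + 4 * q + 4 * (A * q * q + q) + 8) * (B + 1) := by
      have h4 : 4 * q * b'.natAbs ≤ 4 * q * ((2 * q * q * A + q) * (B + 1)) := Nat.mul_le_mul_left _ hb'B
      have h5 : 4 * q * (b'.natAbs + 2) = 4 * q * b'.natAbs + 8 * q := by ring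
      have h6 : (4 * q * (2 * q * q * A + q + 2) + 4 * q + 4 * (A * q * q + q) + 8) * (B + 1) =
          4 * q * ((2 * q * q * A + q) * (B + 1)) + 4 * ((A * q * q + q) * (B + 1)) + (12 * q * B + 12 * q + 8 * B + 8) := by ring
      have h7 : 0 ≤ 12 * q * B := Nat.zero_le _
      omega
    have h4 := Nat.mul_le_mul_left R h3
    have h5 : M0 * (B + 1) = R * ((4 * q * (2 * q * q * A + q + 2) + 4 * q + 4 * (A * q * q + q) + 8) * (B + 1)) +
        ((A * q * q + q) * (B + 1) + 2 * (B + 1)) := by rw [hM0]; ring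
    omega
  have hMC : M0 * (B + 1) + ⌈4 / τ⌉₊ * (A * q * q + q + 1) * (B + 1) ≤ C := by
    have : (M0 + ⌈4 / τ⌉₊ * (A * q * q + q + 1)) * (B + 1) = M0 * (B + 1) + ⌈4 / τ⌉₊ * (A * q * q + q + 1) * (B + 1) := by ring
    omega
  have f4 : R * (4 * q * (b'.natAbs + 2) + 4 * q + 4 * k + 4 * b.natAbs + 4) + (k + 2) ≤ x := by
    rw [← hB]; omega
  have f3 : ((k : ℝ) + 1) ≤ C := by
    have : k + 1 ≤ C := by omega
    exact_mod_cast this
  have f2 : 2 * ((k : ℝ) + 1) / τ ≤ C := by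
    have h3 : ⌈4 / τ⌉₊ * (k + 1) ≤ C := by
      have h4 : k + 1 ≤ (A * q * q + q + 1) * (B + 1) := by
        have : (A * q * q + q + 1) * (B + 1) = (A * q * q + q) * (B + 1) + (B + 1) := by ring
        omega
      have h5 := Nat.mul_le_mul_left ⌈4 / τ⌉₊ h4
      have h6 : ⌈4 / τ⌉₊ * (A * q * q + q + 1) * (B + 1) = ⌈4 / τ⌉₊ * ((A * q * q + q + 1) * (B + 1)) := by ring
      omega
    have h4 : (⌈4 / τ⌉₊ : ℝ) * (k + 1) ≤ C := by exact_mod_cast h3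
    have h5 : 4 / τ ≤ (⌈4 / τ⌉₊ : ℝ) := Nat.le_ceil _
    have hk0 : (0 : ℝ) ≤ k := Nat.cast_nonneg _
    calc 2 * ((k : ℝ) + 1) / τ ≤ (4 / τ) * (k + 1) := by
          rw [div_mul_eq_mul_div]
          apply div_le_div_of_nonneg_right _ hτ.le
          linarith
      _ ≤ (⌈4 / τ⌉₊ : ℝ) * (k + 1) := mul_le_mul_of_nonneg_right h5 (by linarith)
      _ ≤ C := h4
  have hRpos : 1 ≤ R := by
    rcases Nat.eq_zero_or_pos R with h | h
    · rw [h] at hu; omega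
    · exact h
  obtain ⟨X, hX⟩ : ∃ X : ℕ, X = x + k + 1 := ⟨_, rfl⟩
  have hkx : k + 1 ≤ x := by omega
  have hX2 : (X : ℝ) ≤ 2 * x := by
    have : (k : ℝ) + 1 ≤ x := by exact_mod_cast hkx
    rw [hX]; push_cast; linarith
  have hXn : (0 : ℝ) ≤ X := Nat.cast_nonneg _
  have hCk : (k : ℝ) ≤ C := by linarith
  have hCp : (0 : ℝ) < C := lt_of_lt_of_le (by positivity) hC
  have w2 : (X : ℝ) ^ γ' ≤ ((C + k : ℕ) : ℝ) := by
    calc (X : ℝ) ^ γ' ≤ (2 * x : ℝ) ^ γ' := Real.rpow_le_rpow hXn hX2 (by linarith)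
      _ = (2 : ℝ) ^ γ' * (x : ℝ) ^ γ' := Real.mul_rpow (by norm_num) hxp.le
      _ ≤ (x : ℝ) ^ γ := f1
      _ ≤ C := hC
      _ ≤ ((C + k : ℕ) : ℝ) := by push_cast; linarith [(Nat.cast_nonneg k : (0 : ℝ) ≤ k)]
  have w3 : C + k ≤ X := by rw [hX]; omega
  -- the range of `u`
  have hu4 : 4 * q * (b'.natAbs + 2) + 4 * q + 4 * k + 4 * b.natAbs + 4 ≤ u := by
    have h2 : R * (4 * q * (b'.natAbs + 2) + 4 * q + 4 * k + 4 * b.natAbs + 4) ≤ R * u :=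
      le_trans (by omega) (f4.trans hu)
    exact Nat.le_of_mul_le_mul_left h2 (by omega)
  have hru : r ≤ u := by
    have : q ≤ 4 * q := by omega
    omega
  obtain ⟨u', hu'⟩ : ∃ u' : ℕ, u' = (u - r) / q := ⟨_, rfl⟩
  obtain ⟨v', hv'⟩ : ∃ v' : ℕ, v' = (v - r) / q := ⟨_, rfl⟩
  have huv' : u' ≤ v' := by rw [hu', hv']; exact Nat.div_le_div_right (by omega)
  have hXu : X ≤ (4 * R * q + 1) * u' := by
    have h2 : u - r < q * (u' + 1) := by rw [hu']; exact Nat.lt_mul_div_succ (u - r) (by omega)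
    have h3 : u ≤ q * (u' + 2) := by
      have : q * (u' + 2) = q * (u' + 1) + q := by ring
      omega
    have h4 : 4 * q * (b'.natAbs + 2) ≤ u := by omega
    have h4' : 4 * q ≤ u := by omega
    have h5 : u ≤ 2 * (q * u') := by
      have h6 : q * (u' + 2) = q * u' + 2 * q := by ring
      omega
    have h7 : R * u ≤ R * (2 * (q * u')) := Nat.mul_le_mul_left _ h5
    have h8 : R * (2 * (q * u')) = 2 * R * q * u' := by ring
    have h9 : (4 * R * q + 1) * u' = 2 * (2 * R * q * u') + u' := by ring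
    rw [hX, h9]
    omega
  have hbu : b'.natAbs ≤ u' := by
    rw [hu', Nat.le_div_iff_mul_le (by omega)]
    have h2 : b'.natAbs * q ≤ 4 * q * (b'.natAbs + 2) := by
      rw [mul_comm]; exact Nat.mul_le_mul (by omega) (by omega)
    omega
  have hvX : v' < X := by
    have h1 : (v - r) / q ≤ v - r := Nat.div_le_self _ _
    rw [hv', hX]; omega
  have hb'C : (b' : ℝ) ^ 2 ≤ Λ' * ((C + k : ℕ) : ℝ) := by
    have hC1 : (1 : ℝ) ≤ C := by linarith [(Nat.cast_nonneg k : (0 : ℝ) ≤ k)]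
    have hrq : (r : ℝ) ≤ q := by exact_mod_cast hr.le
    have hr0 : (0 : ℝ) ≤ r := Nat.cast_nonneg _
    have h3 : (b' : ℝ) ^ 2 ≤ 2 * q ^ 2 * ((2 * a * q) ^ 2 + (b : ℝ) ^ 2) := by
      rw [hb']
      push_cast
      have h4 : (2 * (a : ℝ) * r) ^ 2 ≤ (2 * a * q) ^ 2 := by
        apply pow_le_pow_left₀ (by positivity)
        exact mul_le_mul_of_nonneg_left hrq (by positivity)
      have h5 : (2 * (a : ℝ) * r + b) ^ 2 ≤ 2 * ((2 * a * r) ^ 2 + (b : ℝ) ^ 2) := by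
        nlinarith [sq_nonneg (2 * (a : ℝ) * r - b)]
      calc ((q : ℝ) * (2 * a * r + b)) ^ 2 = q ^ 2 * (2 * a * r + b) ^ 2 := by ring
        _ ≤ q ^ 2 * (2 * ((2 * a * q) ^ 2 + (b : ℝ) ^ 2)) := by
            apply mul_le_mul_of_nonneg_left _ (by positivity)
            linarith
        _ = 2 * q ^ 2 * ((2 * a * q) ^ 2 + (b : ℝ) ^ 2) := by ring
    have h4 : Λ' * ((C + k : ℕ) : ℝ) ≥ Λ' * C := by
      apply mul_le_mul_of_nonneg_left _ (by linarith)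
      push_cast
      linarith [(Nat.cast_nonneg k : (0 : ℝ) ≤ k)]
    have h5 : 2 * (q : ℝ) ^ 2 * ((2 * a * q) ^ 2 + (b : ℝ) ^ 2) ≤ Λ' * C := by
      have h6 : 2 * (q : ℝ) ^ 2 * (b : ℝ) ^ 2 ≤ 2 * (q : ℝ) ^ 2 * (Λ * C) := mul_le_mul_of_nonneg_left hbC (by positivity)
      have h7 : 8 * (a : ℝ) ^ 2 * q ^ 4 ≤ 8 * (a : ℝ) ^ 2 * q ^ 4 * C := le_mul_of_one_le_right (by positivity) hC1
      calc 2 * (q : ℝ) ^ 2 * ((2 * a * q) ^ 2 + (b : ℝ) ^ 2) = 8 * (a : ℝ) ^ 2 * q ^ 4 + 2 * (q : ℝ) ^ 2 * (b : ℝ) ^ 2 := by ring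
        _ ≤ 8 * (a : ℝ) ^ 2 * q ^ 4 * C + 2 * (q : ℝ) ^ 2 * (Λ * C) := by linarith
        _ = Λ' * C := by rw [hΛ']; ring
    linarith
  have k1 := h0 X (by omega) b' u' v' (C + k) hb'C hXu huv' hvX.le w2 w3
  -- the sums for one `c`
  have hκk : -(k : ℤ) ≤ κ ∧ κ ≤ k := by
    rw [hk, Int.natCast_natAbs]; exact ⟨neg_abs_le κ, le_abs_self κ⟩
  obtain ⟨T, hT⟩ : ∃ T : ℕ → ℝ, T = fun c' : ℕ => max 0 (|∑ m ∈ Ioc u' v', lam (Fn a' b' m + c')| -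
      κ0 * ((v' : ℝ) - u')) := ⟨_, rfl⟩
  have hT0 : ∀ c', 0 ≤ T c' := fun c' => by rw [hT]; exact le_max_left _ _
  have hTsum : ∑ c' ∈ Icc 1 (C + k), T c' ≤ τ / 16 * (((C + k : ℕ) : ℝ) * X) := by
    rw [hT]
    exact k1
  have hcard : (#((Ioc u v).filter (fun n => n ≡ r [MOD q])) : ℝ) = (v' : ℝ) - u' := by
    have e1 := class_sum (fun _ => (1 : ℝ)) (show 0 < q by omega) hr hru huv
    rw [← hu', ← hv', sum_const, nsmul_eq_mul, mul_one, sum_const, nsmul_eq_mul, mul_one, Nat.card_Ioc,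
      Nat.cast_sub huv'] at e1
    exact e1
  have hone : ∀ c ∈ Icc 1 C, k < c →
      max 0 (|∑ n ∈ (Ioc u v).filter (fun n => n ≡ r [MOD q]), lamZ (fv a b (c : ℕ) n)| -
        κ0 * #((Ioc u v).filter (fun n => n ≡ r [MOD q]))) ≤ T ((c : ℤ) + κ).toNat := by
    intro c hc hck
    obtain ⟨c', hc'⟩ : ∃ c' : ℕ, c' = ((c : ℤ) + κ).toNat := ⟨_, rfl⟩
    rw [← hc']
    have hck' : (k : ℤ) < c := by exact_mod_cast hck
    have hcz : ((c' : ℕ) : ℤ) = c + κ := by rw [hc']; omega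
    have hc'1 : 1 ≤ c' := by omega
    have e1 := class_sum (fun n => lamZ (fv a b (c : ℕ) n)) (show 0 < q by omega) hr hru huv
    rw [e1, ← hu', ← hv']
    have e2 : ∀ m ∈ Ioc u' v', lamZ (fv a b (c : ℕ) (q * m + r)) = lam (Fn a' b' m + c') := by
      intro m hm
      rw [mem_Ioc] at hm
      have e3 : fv a b c (q * m + r) = ((Fn a' b' m + c' : ℕ) : ℤ) := by
        rw [fv_class, ← hκ, ← hcz, ← ha', ← hb']
        exact Pool.Agent.N792.Mtm.fv_eq ha'0 (hbu.trans hm.1.le)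
      rw [e3]
      unfold lamZ
      rw [if_neg (by exact_mod_cast (by omega : Fn a' b' m + c' ≠ 0)), Int.natAbs_natCast]
    rw [sum_congr rfl e2, hcard, hT]
  have hsmall : ∀ c : ℕ, max 0 (|∑ n ∈ (Ioc u v).filter (fun n => n ≡ r [MOD q]), lamZ (fv a b (c : ℕ) n)| -
        κ0 * #((Ioc u v).filter (fun n => n ≡ r [MOD q]))) ≤ x := by
    intro c
    have h7 : |∑ n ∈ (Ioc u v).filter (fun n => n ≡ r [MOD q]), lamZ (fv a b (c : ℕ) n)| ≤ x := by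
      refine (lamZ_sum_abs _ _).trans ?_
      have : #((Ioc u v).filter (fun n => n ≡ r [MOD q])) ≤ x := by
        refine (card_filter_le _ _).trans ?_
        rw [Nat.card_Ioc]; omega
      exact_mod_cast this
    have h8 : 0 ≤ κ0 * (#((Ioc u v).filter (fun n => n ≡ r [MOD q])) : ℝ) := mul_nonneg hκ0 (Nat.cast_nonneg _)
    exact max_le hxp.le (by linarith)
  have hsplit : ∑ c ∈ Icc 1 C, max 0 (|∑ n ∈ (Ioc u v).filter (fun n => n ≡ r [MOD q]), lamZ (fv a b (c : ℕ) n)| -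
        κ0 * #((Ioc u v).filter (fun n => n ≡ r [MOD q]))) ≤
      (k : ℝ) * x + ∑ c' ∈ Icc 1 (C + k), T c' := by
    rw [← sum_filter_add_sum_filter_not (Icc 1 C) (fun c => c ≤ k)]
    apply add_le_add
    · refine (sum_le_sum fun c _ => hsmall c).trans ?_
      rw [sum_const, nsmul_eq_mul]
      apply mul_le_mul_of_nonneg_right _ hxp.le
      have h2 : (Icc 1 C).filter (fun c => c ≤ k) ⊆ Icc 1 k := by
        intro c hc
        rw [mem_filter, mem_Icc] at hc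
        rw [mem_Icc]; omega
      have := card_le_card h2
      rw [Nat.card_Icc, Nat.add_sub_cancel] at this
      exact_mod_cast this
    · have h2 : ∑ c ∈ (Icc 1 C).filter (fun c => ¬ c ≤ k),
          max 0 (|∑ n ∈ (Ioc u v).filter (fun n => n ≡ r [MOD q]), lamZ (fv a b (c : ℕ) n)| -
            κ0 * #((Ioc u v).filter (fun n => n ≡ r [MOD q]))) ≤
          ∑ c ∈ (Icc 1 C).filter (fun c => ¬ c ≤ k), T ((c : ℤ) + κ).toNat :=
        sum_le_sum fun c hc => hone c (mem_filter.1 hc).1 (not_le.1 (mem_filter.1 hc).2)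
      refine h2.trans ?_
      rw [← sum_image (f := T) (g := fun c : ℕ => ((c : ℤ) + κ).toNat)]
      · apply sum_le_sum_of_subset_of_nonneg
        · intro c' hc'
          rw [mem_image] at hc'
          obtain ⟨c, hc, rfl⟩ := hc'
          rw [mem_filter, mem_Icc] at hc
          rw [mem_Icc]
          constructor <;> omega
        · exact fun _ _ _ => hT0 _
      · intro c hc d hd hcd
        rw [mem_coe, mem_filter, mem_Icc] at hc hd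
        simp only at hcd
        omega
  refine hsplit.trans ?_
  have h5 : (k : ℝ) * x ≤ τ / 2 * (C * x) := by
    have h6 : 2 * ((k : ℝ) + 1) / τ ≤ (C : ℝ) := f2
    rw [div_le_iff₀ hτ] at h6
    have h7 : (k : ℝ) ≤ τ / 2 * C := by linarith
    calc (k : ℝ) * x ≤ (τ / 2 * C) * x := mul_le_mul_of_nonneg_right h7 hxp.le
      _ = τ / 2 * (C * x) := by ring
  have h6 : τ / 16 * (((C + k : ℕ) : ℝ) * X) ≤ τ / 2 * (C * x) := by
    have h7 : ((C + k : ℕ) : ℝ) ≤ 2 * C := by push_cast; linarith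
    calc τ / 16 * (((C + k : ℕ) : ℝ) * X) ≤ τ / 16 * ((2 * C) * (2 * x)) := by gcongr
      _ = τ / 4 * (C * x) := by ring
      _ ≤ τ / 2 * (C * x) := mul_le_mul_of_nonneg_right (by linarith) (by positivity)
  linarith

end Pool.Agent.H568
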