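import Mathlib
import Pool.Agent.H568.Qa2

/-!
Mean values of the function of Liouville with a loss: all windows and all residue classes (after helper792, `finLU`).
-/

set_option autoImplicit false

namespace Pool.Agent.H568

open Finset Filter Topology
open Pool.Agent.N792 (Fn rho Rough R2 fv)
open Pool.Agent.N791.C2 (lam)
open Pool.Agent.N792.CH

/-- the property of one polynomial: on all windows `(s, t]`, `t ≤ x`, and in all residue classes -/
def OneB (a : ℤ) (Q : ℕ) (κ E : ℝ) (x : ℕ) (b c : ℤ) : Prop := ∀ q r s t : ℕ, 1 ≤ q → q ≤ Q → t ≤ x →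
  |∑ n ∈ (Ioc s t).filter (fun n => n ≡ r [MOD q]), lamZ (fv a b c n)| ≤
    κ * #((Ioc s t).filter (fun n => n ≡ r [MOD q])) + E

theorem finK (γ' κ0 : ℝ) (hγ' : 1 / 2 ≤ γ') (hκ0 : 0 ≤ κ0) (hMV : ∀ a : ℤ, 0 < a → ∀ Λ : ℝ, 1 ≤ Λ → MVK a Λ γ' κ0)
    (a : ℤ) (ha : 0 < a) (Λ : ℝ) (hΛ : 1 ≤ Λ) (γ τ : ℝ) (Q : ℕ) (hγ : γ' < γ) (hτ : 0 < τ) :
    ∃ x0 : ℕ, ∀ x : ℕ, x0 ≤ x → ∀ (b : ℤ) (C : ℕ), (b : ℝ) ^ 2 ≤ Λ * C → (x : ℝ) ^ γ ≤ C → C ≤ x →
      ∃ Ex ⊆ Icc 1 C, (#Ex : ℝ) ≤ τ * C ∧ ∀ c ∈ Icc 1 C, c ∉ Ex → OneB a Q κ0 (τ * x) x b (c : ℕ) := by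
  classical
  obtain ⟨N, hN⟩ : ∃ N : ℕ, N = ⌈8 / τ⌉₊ + 1 := ⟨_, rfl⟩
  have hN1 : 1 ≤ N := by omega
  have hNr : (0 : ℝ) < N := by exact_mod_cast hN1
  have hN2 : 1 / (N : ℝ) ≤ τ / 8 := by
    have h1 : 8 / τ ≤ N := by
      rw [hN]; push_cast
      linarith [Nat.le_ceil (8 / τ)]
    rw [div_le_iff₀ hτ] at h1
    rw [div_le_div_iff₀ hNr (by norm_num)]
    linarith
  -- the indices
  obtain ⟨I, hI⟩ : ∃ I : Finset (ℕ × ℕ × ℕ × ℕ), I = range (N + 1) ×ˢ range (N + 1) ×ˢ range (Q + 1) ×ˢ range (Q + 1) :=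
    ⟨_, rfl⟩
  obtain ⟨τ', hτ'⟩ : ∃ τ' : ℝ, τ' = τ * (τ / 4) / (#I + 1) := ⟨_, rfl⟩
  have hIr : (0 : ℝ) < #I + 1 := by positivity
  have hτ'0 : 0 < τ' := by rw [hτ']; positivity
  -- the thresholds
  have hth : ∀ q r : ℕ, ∃ x0 : ℕ, 1 ≤ q → r < q → ∀ x : ℕ, x0 ≤ x → ∀ (b : ℤ) (u v C : ℕ), (b : ℝ) ^ 2 ≤ Λ * C →
      x ≤ (2 * N) * u → u ≤ v → v ≤ x → (x : ℝ) ^ γ ≤ C → C ≤ x →
      ∑ c ∈ Icc 1 C, max 0 (|∑ n ∈ (Ioc u v).filter (fun n => n ≡ r [MOD q]), lamZ (fv a b (c : ℕ) n)| -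
        κ0 * #((Ioc u v).filter (fun n => n ≡ r [MOD q]))) ≤ τ' * (C * x) := by
    intro q r
    by_cases h : 1 ≤ q ∧ r < q
    · obtain ⟨x0, h0⟩ := clsK γ' κ0 hγ' hκ0 hMV a ha Λ hΛ q r h.1 h.2 γ τ' (2 * N) hγ hτ'0
      exact ⟨x0, fun _ _ => h0⟩
    · exact ⟨0, fun h1 h2 => absurd ⟨h1, h2⟩ h⟩
  choose x0 hx0 using hth
  refine ⟨∑ q ∈ range (Q + 1), ∑ r ∈ range (Q + 1), x0 q r + 8 * N + ⌈8 / τ⌉₊, fun x hx b C hbC hC hCx => ?_⟩
  have hxN : 8 * N ≤ x := by omega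
  have hxp : (0 : ℝ) < x := by
    have : 0 < x := by omega
    exact_mod_cast this
  have hx8 : 1 ≤ τ / 8 * x := by
    have h1 : (⌈8 / τ⌉₊ : ℝ) ≤ x := by
      have : ⌈8 / τ⌉₊ ≤ x := by omega
      exact_mod_cast this
    have h2 : 8 / τ ≤ x := (Nat.le_ceil _).trans h1
    rw [div_le_iff₀ hτ] at h2
    linarith
  have hxN8 : (x : ℝ) / N ≤ τ / 8 * x := by
    calc (x : ℝ) / N = (1 / N) * x := by ring
      _ ≤ τ / 8 * x := mul_le_mul_of_nonneg_right hN2 hxp.le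
  -- the grid
  obtain ⟨T, hT⟩ : ∃ T : ℕ → ℕ, T = fun i => i * x / N := ⟨_, rfl⟩
  have hT1 : x ≤ 2 * N * T 1 := by
    rw [hT]
    simp only [one_mul]
    have h1 := Nat.div_add_mod x N
    have h2 := Nat.mod_lt x (show 0 < N by omega)
    have h3 : 2 * N * (x / N) = 2 * (N * (x / N)) := by ring
    omega
  have hTm : ∀ i j, i ≤ j → T i ≤ T j := by
    intro i j hij
    rw [hT]
    exact Nat.div_le_div_right (Nat.mul_le_mul_right _ hij)
  have hTN : ∀ i, i ≤ N → T i ≤ x := by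
    intro i hi
    rw [hT]
    simp only
    calc i * x / N ≤ N * x / N := Nat.div_le_div_right (Nat.mul_le_mul_right _ hi)
      _ = x := Nat.mul_div_cancel_left _ (by omega)
  -- the exceptional set
  obtain ⟨F, hF⟩ : ∃ F : ℕ × ℕ × ℕ × ℕ → ℕ → ℝ, F = fun i c =>
    max 0 (|∑ n ∈ (Ioc (T i.1) (T i.2.1)).filter (fun n => n ≡ i.2.2.2 [MOD i.2.2.1]), lamZ (fv a b (c : ℕ) n)| -
      κ0 * #((Ioc (T i.1) (T i.2.1)).filter (fun n => n ≡ i.2.2.2 [MOD i.2.2.1]))) := ⟨_, rfl⟩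
  have hF0 : ∀ i c, 0 ≤ F i c := fun i c => by rw [hF]; exact le_max_left _ _
  obtain ⟨I', hI'⟩ : ∃ I' : Finset (ℕ × ℕ × ℕ × ℕ), I' = I.filter (fun i => 1 ≤ i.1 ∧ i.1 ≤ i.2.1 ∧ 1 ≤ i.2.2.1 ∧
    i.2.2.2 < i.2.2.1) := ⟨_, rfl⟩
  have hbd : ∀ i ∈ I', (#((Icc 1 C).filter (fun c => τ / 4 * x < F i c)) : ℝ) ≤ τ / (#I + 1) * C := by
    intro i hi
    rw [hI', mem_filter, hI, mem_product, mem_product, mem_product, mem_range, mem_range, mem_range, mem_range] at hi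
    have h1 := hx0 i.2.2.1 i.2.2.2 hi.2.2.2.1 hi.2.2.2.2 x (by
      have h2 : x0 i.2.2.1 i.2.2.2 ≤ ∑ q ∈ range (Q + 1), ∑ r ∈ range (Q + 1), x0 q r := by
        refine le_trans ?_ (single_le_sum (f := fun q => ∑ r ∈ range (Q + 1), x0 q r) (fun _ _ => Nat.zero_le _)
          (mem_range.2 hi.1.2.2.1))
        exact single_le_sum (f := fun r => x0 i.2.2.1 r) (fun _ _ => Nat.zero_le _) (mem_range.2 hi.1.2.2.2)
      omega) b (T i.1) (T i.2.1) C hbC (hT1.trans (Nat.mul_le_mul_left _ (hTm _ _ hi.2.1))) (hTm _ _ hi.2.2.1)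
      (hTN _ (by omega)) hC hCx
    have h3 := markov C (F i) (τ / 4 * x) (τ' * (C * x)) (hF0 i) (by positivity) (by rw [hF]; exact h1)
    refine h3.trans (le_of_eq ?_)
    rw [hτ']; field_simp
  refine ⟨(Icc 1 C).filter (fun c => ∃ i ∈ I', τ / 4 * x < F i c), filter_subset _ _, ?_, ?_⟩
  · have h1 : (Icc 1 C).filter (fun c => ∃ i ∈ I', τ / 4 * x < F i c) ⊆
        I'.biUnion (fun i => (Icc 1 C).filter (fun c => τ / 4 * x < F i c)) := by
      intro c hc
      rw [mem_filter] at hc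
      obtain ⟨hc1, i, hi, hlt⟩ := hc
      rw [mem_biUnion]
      exact ⟨i, hi, mem_filter.2 ⟨hc1, hlt⟩⟩
    have h2 : (#((Icc 1 C).filter (fun c => ∃ i ∈ I', τ / 4 * x < F i c)) : ℝ) ≤
        ∑ i ∈ I', (#((Icc 1 C).filter (fun c => τ / 4 * x < F i c)) : ℝ) := by
      exact_mod_cast (card_le_card h1).trans card_biUnion_le
    refine h2.trans ((sum_le_sum hbd).trans ?_)
    rw [sum_const, nsmul_eq_mul]
    have h3 : (#I' : ℝ) ≤ #I := by
      rw [hI']; exact_mod_cast card_filter_le _ _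
    have hC0 : (0 : ℝ) ≤ C := Nat.cast_nonneg _
    calc (#I' : ℝ) * (τ / (#I + 1) * C) ≤ (#I + 1) * (τ / (#I + 1) * C) := by
          apply mul_le_mul_of_nonneg_right _ (by positivity)
          linarith
      _ = τ * C := by field_simp
  · intro c hc hcE q r s t hq hqQ ht
    rw [mem_filter, not_and, not_exists] at hcE
    have hcE' := hcE hc
    have hτx : 0 < τ * x := by positivity
    rcases le_or_gt t s with hst | hst
    · rw [Ioc_eq_empty (not_lt.2 hst), filter_empty, sum_empty, abs_zero, card_empty]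
      simp only [Nat.cast_zero, mul_zero, zero_add]
      exact hτx.le
    -- reduce the class
    have hrr : ∀ s : Finset ℕ, s.filter (fun n => n ≡ r [MOD q]) = s.filter (fun n => n ≡ r % q [MOD q]) := by
      intro s
      apply filter_congr
      intro n _
      unfold Nat.ModEq
      rw [Nat.mod_mod]
    rw [hrr]
    obtain ⟨r', hr'⟩ : ∃ r' : ℕ, r' = r % q := ⟨_, rfl⟩
    rw [← hr']
    have hr'q : r' < q := by rw [hr']; exact Nat.mod_lt _ (by omega)
    have hx0' : 0 < x := by omega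
    obtain ⟨j, hj⟩ : ∃ j : ℕ, j = t * N / x := ⟨_, rfl⟩
    obtain ⟨i, hi⟩ : ∃ i : ℕ, i = s * N / x := ⟨_, rfl⟩
    have hjN : j ≤ N := by
      rw [hj]
      calc t * N / x ≤ x * N / x := Nat.div_le_div_right (Nat.mul_le_mul_right _ ht)
        _ = N := Nat.mul_div_cancel_left _ hx0'
    have hj1 : j * x ≤ t * N := by rw [hj]; exact Nat.div_mul_le_self _ _
    have hi1 : i * x ≤ s * N := by rw [hi]; exact Nat.div_mul_le_self _ _
    have hi2 : s * N < (i + 1) * x := by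
      rw [hi]
      exact (Nat.lt_mul_div_succ (s * N) hx0').trans_eq (mul_comm _ _)
    have hj2 : t * N < (j + 1) * x := by
      rw [hj]
      exact (Nat.lt_mul_div_succ (t * N) hx0').trans_eq (mul_comm _ _)
    have hTj : T j ≤ t := by
      rw [hT]
      simp only
      calc j * x / N ≤ t * N / N := Nat.div_le_div_right hj1
        _ = t := Nat.mul_div_cancel _ (by omega)
    have hTi : T i ≤ s := by
      rw [hT]
      simp only
      calc i * x / N ≤ s * N / N := Nat.div_le_div_right hi1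
        _ = s := Nat.mul_div_cancel _ (by omega)
    have hTi1 : s ≤ T (i + 1) := by
      rw [hT]
      simp only
      rw [Nat.le_div_iff_mul_le (by omega)]
      exact hi2.le
    have hlo : ∀ k : ℕ, (k : ℝ) * x / N - 1 ≤ T k := by
      intro k
      have h1 : k * x < N * (T k + 1) := by
        rw [hT]; exact Nat.lt_mul_div_succ _ (by omega)
      have h3 : (k : ℝ) * x < N * (T k + 1) := by exact_mod_cast h1
      have h4 : (k : ℝ) * x / N < T k + 1 := by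
        rw [div_lt_iff₀ hNr]; linarith
      linarith
    have hup : ∀ k : ℕ, (T k : ℝ) ≤ (k : ℝ) * x / N := by
      intro k
      rw [le_div_iff₀ hNr]
      have h1 : T k * N ≤ k * x := by rw [hT]; exact Nat.div_mul_le_self _ _
      exact_mod_cast h1
    have hgap1 : (t : ℝ) - T j ≤ τ / 4 * x := by
      have h1 := hlo j
      have h2 : (t : ℝ) * N < (j + 1) * x := by exact_mod_cast hj2
      have h3 : (t : ℝ) < (j + 1) * x / N := by rwa [lt_div_iff₀ hNr]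
      have h4 : ((j : ℝ) + 1) * x / N = j * x / N + x / N := by ring
      linarith
    have hgap2 : (T (i + 1) : ℝ) - s ≤ τ / 4 * x := by
      have h1 := hlo i
      have h2 := hup (i + 1)
      have h3 : (T i : ℝ) ≤ s := by exact_mod_cast hTi
      have h4 : (((i + 1 : ℕ) : ℝ)) * x / N = i * x / N + x / N := by push_cast; ring
      linarith
    have hsm : ∀ A B : ℕ, A ≤ B → |∑ n ∈ (Ioc A B).filter (fun n => n ≡ r' [MOD q]), lamZ (fv a b (c : ℕ) n)| ≤ (B : ℝ) - A := by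
      intro A B hAB
      refine (lamZ_sum_abs _ _).trans ?_
      have : #((Ioc A B).filter (fun n => n ≡ r' [MOD q])) ≤ B - A := by
        refine (card_filter_le _ _).trans ?_
        rw [Nat.card_Ioc]
      have h2 : (#((Ioc A B).filter (fun n => n ≡ r' [MOD q])) : ℝ) ≤ ((B - A : ℕ) : ℝ) := by exact_mod_cast this
      rwa [Nat.cast_sub hAB] at h2
    have hκp : 0 ≤ κ0 * (#((Ioc s t).filter (fun n => n ≡ r' [MOD q])) : ℝ) := mul_nonneg hκ0 (Nat.cast_nonneg _)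
    rcases Nat.lt_or_ge j (i + 1) with hij | hij
    · have h1 := hsm s t hst.le
      have h2 : T j ≤ s := (hTm j i (by omega)).trans hTi
      have h3 : (T j : ℝ) ≤ s := by exact_mod_cast h2
      linarith
    · have hTT := hTm _ _ hij
      have e1 : ∑ n ∈ (Ioc s t).filter (fun n => n ≡ r' [MOD q]), lamZ (fv a b (c : ℕ) n) =
          ∑ n ∈ (Ioc s (T (i + 1))).filter (fun n => n ≡ r' [MOD q]), lamZ (fv a b (c : ℕ) n) +
          ∑ n ∈ (Ioc (T (i + 1)) (T j)).filter (fun n => n ≡ r' [MOD q]), lamZ (fv a b (c : ℕ) n) +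
          ∑ n ∈ (Ioc (T j) t).filter (fun n => n ≡ r' [MOD q]), lamZ (fv a b (c : ℕ) n) := by
        simp only [sum_filter]
        rw [sum_Ioc_consecutive _ hTi1 hTT, sum_Ioc_consecutive _ (hTi1.trans hTT) hTj]
      have h2 := hsm s (T (i + 1)) hTi1
      have h3 := hsm (T j) t hTj
      have h4 : |∑ n ∈ (Ioc (T (i + 1)) (T j)).filter (fun n => n ≡ r' [MOD q]), lamZ (fv a b (c : ℕ) n)| ≤
          κ0 * #((Ioc (T (i + 1)) (T j)).filter (fun n => n ≡ r' [MOD q])) + τ / 4 * x := by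
        by_contra hcon
        apply hcE' (i + 1, j, q, r')
        refine ⟨?_, ?_⟩
        · rw [hI', mem_filter, hI, mem_product, mem_product, mem_product, mem_range, mem_range, mem_range, mem_range]
          exact ⟨⟨by simp only; omega, by simp only; omega, by simp only; omega, by simp only; omega⟩,
            by simp only; omega, hij, hq, hr'q⟩
        · rw [hF]
          have := not_le.1 hcon
          exact lt_of_lt_of_le (by simp only; linarith) (le_max_right _ _)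
      have h7 : κ0 * (#((Ioc (T (i + 1)) (T j)).filter (fun n => n ≡ r' [MOD q])) : ℝ) ≤
          κ0 * #((Ioc s t).filter (fun n => n ≡ r' [MOD q])) := by
        apply mul_le_mul_of_nonneg_left _ hκ0
        exact_mod_cast card_le_card (filter_subset_filter _ (Ioc_subset_Ioc hTi1 hTj))
      rw [e1]
      have h5 := abs_add_le (∑ n ∈ (Ioc s (T (i + 1))).filter (fun n => n ≡ r' [MOD q]), lamZ (fv a b (c : ℕ) n) +
          ∑ n ∈ (Ioc (T (i + 1)) (T j)).filter (fun n => n ≡ r' [MOD q]), lamZ (fv a b (c : ℕ) n))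
          (∑ n ∈ (Ioc (T j) t).filter (fun n => n ≡ r' [MOD q]), lamZ (fv a b (c : ℕ) n))
      have h6 := abs_add_le (∑ n ∈ (Ioc s (T (i + 1))).filter (fun n => n ≡ r' [MOD q]), lamZ (fv a b (c : ℕ) n))
          (∑ n ∈ (Ioc (T (i + 1)) (T j)).filter (fun n => n ≡ r' [MOD q]), lamZ (fv a b (c : ℕ) n))
      linarith

end Pool.Agent.H568
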