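import Mathlib
import Pool.Agent.H568.Qa3
import Pool.Graph.R_pool_sql_team_seeded_63374d34.N792.CH.TrU

/-!
Mean values of the function of Liouville with a loss: shifts of the argument, windows on both sides of zero, change of
sign (after helper792, `TrU`).
-/

set_option autoImplicit false

namespace Pool.Agent.H568

open Finset Filter Topology
open Pool.Agent.N792 (Fn rho Rough R2 fv)
open Pool.Agent.N791.C2 (lam)
open Pool.Agent.N792.CH
open Pool.Agent.N791.U (UnifG neg_transferG pair_transferG win_shift sh)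

/-- the property of one polynomial: on all windows in `[-x, x]` and in all residue classes -/
def TwoB (a : ℤ) (Q : ℕ) (κ E : ℝ) (x : ℕ) (b c : ℤ) : Prop := ∀ q : ℕ, 1 ≤ q → q ≤ Q → ∀ r u v : ℤ, -(x : ℤ) ≤ u → v ≤ x →
  |∑ n ∈ (Icc u v).filter (fun n => n ≡ r [ZMOD q]), lamZ (a * n ^ 2 + b * n + c)| ≤
    κ * #((Icc u v).filter (fun n => n ≡ r [ZMOD q])) + E

lemma oneB_mono {a b c : ℤ} {Q : ℕ} {κ E E' : ℝ} {x : ℕ} (hE : E ≤ E') (h : OneB a Q κ E x b c) : OneB a Q κ E' x b c :=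
  fun q r s t hq hqQ ht => (h q r s t hq hqQ ht).trans (by linarith)

lemma twoB_mono {a b c : ℤ} {Q : ℕ} {κ E E' : ℝ} {x : ℕ} (hE : E ≤ E') (h : TwoB a Q κ E x b c) : TwoB a Q κ E' x b c :=
  fun q hq hqQ r u v hu hv => (h q hq hqQ r u v hu hv).trans (by linarith)

/-- the shift of the argument -/
lemma oneB_shift {a b c s : ℤ} {Q : ℕ} {κ E : ℝ} {x X : ℕ} (hκ : 0 ≤ κ) (hX : x + s.natAbs ≤ X)
    (h : OneB a Q κ E X (b + 2 * a * s) (c + b * s + a * s ^ 2)) : OneB a Q κ (E + s.natAbs) x b c := by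
  classical
  intro q r u v hq hqQ hv
  have hE0 : 0 ≤ E := by
    have := h q r 0 0 hq hqQ (Nat.zero_le _)
    simpa using this
  rcases le_or_gt v u with huv | huv
  · rw [Ioc_eq_empty (not_lt.2 huv), filter_empty, sum_empty, abs_zero, card_empty]
    have : (0 : ℝ) ≤ s.natAbs := Nat.cast_nonneg _
    simp only [Nat.cast_zero, mul_zero, zero_add]
    linarith
  have hq0 : (0 : ℤ) < q := by exact_mod_cast hq
  obtain ⟨g, hg⟩ : ∃ g : ℤ → ℝ, g = fun m : ℤ => if m ≡ r [ZMOD q] then lamZ (a * m ^ 2 + b * m + c) else 0 := ⟨_, rfl⟩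
  have hg1 : ∀ n, |g n| ≤ 1 := by
    intro n
    rw [hg]
    simp only
    split_ifs
    · exact lamZ_abs _
    · simp
  obtain ⟨r1, hr1⟩ : ∃ r1 : ℕ, (r1 : ℤ) = ((r : ℤ) - s) % q :=
    ⟨(((r : ℤ) - s) % q).toNat, Int.toNat_of_nonneg (Int.emod_nonneg _ (by omega))⟩
  have hmod : ∀ m : ℕ, (m ≡ r1 [MOD q]) ↔ ((m : ℤ) + s ≡ r [ZMOD q]) := by
    intro m
    rw [← Int.natCast_modEq_iff, hr1]
    have e3 : (m : ℤ) ≡ ((r : ℤ) - s) % q [ZMOD q] ↔ (m : ℤ) ≡ (r : ℤ) - s [ZMOD q] := by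
      unfold Int.ModEq
      rw [Int.emod_emod_of_dvd _ (dvd_refl _)]
    rw [e3]
    constructor
    · intro h
      have := h.add_right s
      rwa [sub_add_cancel] at this
    · intro h
      have := h.sub_right s
      rwa [add_sub_cancel_right] at this
  have e0 : ∑ n ∈ (Ioc u v).filter (fun n => n ≡ r [MOD q]), lamZ (fv a b c n) = ∑ m ∈ Ioc u v, g m := by
    rw [sum_filter]
    refine sum_congr rfl fun m _ => ?_
    rw [hg]
    simp only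
    refine if_congr ?_ rfl rfl
    exact Int.natCast_modEq_iff.symm
  obtain ⟨u', hu'⟩ : ∃ u' : ℕ, u' = ((u : ℤ) - s).toNat := ⟨_, rfl⟩
  obtain ⟨v', hv'⟩ : ∃ v' : ℕ, v' = ((v : ℤ) - s).toNat := ⟨_, rfl⟩
  have e1 : ∑ n ∈ Ioc u' v', g ((n : ℤ) + s) = ∑ n ∈ (Ioc u' v').filter (fun n => n ≡ r1 [MOD q]),
      lamZ (fv a (b + 2 * a * s) (c + b * s + a * s ^ 2) n) := by
    rw [sum_filter]
    refine sum_congr rfl fun m _ => ?_
    rw [hg]
    simp only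
    refine if_congr (hmod m).symm ?_ rfl
    congr 1
    unfold fv
    ring
  have hw := win_shift g hg1 s huv.le
  rw [mul_one, ← hu', ← hv', e1] at hw
  have h1 := h q r1 u' v' hq hqQ (by omega)
  have h2 : (#((Ioc u' v').filter (fun n => n ≡ r1 [MOD q])) : ℝ) ≤ #((Ioc u v).filter (fun n => n ≡ r [MOD q])) := by
    have h3 : #((Ioc u' v').filter (fun n => n ≡ r1 [MOD q])) ≤ #((Ioc u v).filter (fun n => n ≡ r [MOD q])) := by
      refine card_le_card_of_injOn (fun n : ℕ => ((n : ℤ) + s).toNat) ?_ ?_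
      · intro n hn
        rw [mem_coe, mem_filter, mem_Ioc] at hn
        rw [mem_coe, mem_filter, mem_Ioc]
        obtain ⟨⟨k1, k2⟩, k3⟩ := hn
        have k4 := (hmod n).1 k3
        have k5 : (((((n : ℤ) + s).toNat : ℕ)) : ℤ) = (n : ℤ) + s := by omega
        refine ⟨by simp only; omega, ?_⟩
        simp only
        rw [← Int.natCast_modEq_iff, k5]
        exact k4
      · intro n hn n' hn' hnn
        rw [mem_coe, mem_filter, mem_Ioc] at hn hn'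
        simp only at hnn
        omega
    exact_mod_cast h3
  have h4 := mul_le_mul_of_nonneg_left h2 hκ
  rw [e0]
  have h5 := abs_add_le (∑ m ∈ Ioc u v, g m - ∑ n ∈ (Ioc u' v').filter (fun n => n ≡ r1 [MOD q]),
      lamZ (fv a (b + 2 * a * s) (c + b * s + a * s ^ 2) n)) (∑ n ∈ (Ioc u' v').filter (fun n => n ≡ r1 [MOD q]),
      lamZ (fv a (b + 2 * a * s) (c + b * s + a * s ^ 2) n))
  rw [sub_add_cancel] at h5
  linarith

/-- the positive and the negative part of a window -/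
lemma split2 (q : ℕ) (hq : 1 ≤ q) (r u v : ℤ) : ∃ r1 r2 : ℕ, ∃ z ⊆ ({0} : Finset ℤ), ∀ g : ℤ → ℝ,
    ∑ n ∈ (Icc u v).filter (fun n => n ≡ r [ZMOD q]), g n =
      ∑ n ∈ (Ioc (u - 1).toNat v.toNat).filter (fun n => n ≡ r1 [MOD q]), g (n : ℤ) +
      ∑ n ∈ (Ioc (-v - 1).toNat (-u).toNat).filter (fun n => n ≡ r2 [MOD q]), g (-(n : ℤ)) + ∑ n ∈ z, g n := by
  classical
  obtain ⟨r1, hr1⟩ : ∃ r1 : ℕ, (r1 : ℤ) = r % q := ⟨(r % q).toNat, Int.toNat_of_nonneg (Int.emod_nonneg _ (by omega))⟩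
  obtain ⟨r2, hr2⟩ : ∃ r2 : ℕ, (r2 : ℤ) = (-r) % q := ⟨((-r) % q).toNat, Int.toNat_of_nonneg (Int.emod_nonneg _ (by omega))⟩
  obtain ⟨u1, hu1⟩ : ∃ u1 : ℕ, u1 = (u - 1).toNat := ⟨_, rfl⟩
  obtain ⟨v1, hv1⟩ : ∃ v1 : ℕ, v1 = v.toNat := ⟨_, rfl⟩
  obtain ⟨u2, hu2⟩ : ∃ u2 : ℕ, u2 = (-v - 1).toNat := ⟨_, rfl⟩
  obtain ⟨v2, hv2⟩ : ∃ v2 : ℕ, v2 = (-u).toNat := ⟨_, rfl⟩
  refine ⟨r1, r2, ({(0 : ℤ)} : Finset ℤ).filter (fun n => n ≡ r [ZMOD q] ∧ u ≤ 0 ∧ 0 ≤ v), filter_subset _ _, fun g => ?_⟩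
  rw [← hu1, ← hv1, ← hu2, ← hv2]
  have e1 : (Icc u v).filter (fun n => n ≡ r [ZMOD q]) =
      (((Ioc u1 v1).filter (fun n => n ≡ r1 [MOD q])).image (fun n : ℕ => (n : ℤ)) ∪
      ((Ioc u2 v2).filter (fun n => n ≡ r2 [MOD q])).image (fun n : ℕ => -(n : ℤ))) ∪
      ({(0 : ℤ)} : Finset ℤ).filter (fun n => n ≡ r [ZMOD q] ∧ u ≤ 0 ∧ 0 ≤ v) := by
    ext n
    simp only [mem_filter, mem_union, mem_image, mem_Icc, mem_Ioc, mem_singleton]
    have hm1 : ∀ m : ℕ, m ≡ r1 [MOD q] ↔ (m : ℤ) ≡ r [ZMOD q] := by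
      intro m
      rw [← Int.natCast_modEq_iff, hr1]
      unfold Int.ModEq
      rw [Int.emod_emod_of_dvd _ (dvd_refl _)]
    have hm2 : ∀ m : ℕ, m ≡ r2 [MOD q] ↔ -(m : ℤ) ≡ r [ZMOD q] := by
      intro m
      rw [← Int.natCast_modEq_iff, hr2]
      have e2 : (m : ℤ) ≡ (-r) % q [ZMOD q] ↔ (m : ℤ) ≡ -r [ZMOD q] := by
        unfold Int.ModEq
        rw [Int.emod_emod_of_dvd _ (dvd_refl _)]
      rw [e2]
      constructor
      · intro h
        have := h.neg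
        rwa [neg_neg] at this
      · intro h
        have := h.neg
        rwa [neg_neg] at this
    constructor
    · rintro ⟨⟨g1, g2⟩, g3⟩
      rcases lt_trichotomy n 0 with h | h | h
      · left; right
        refine ⟨n.natAbs, ⟨⟨by omega, by omega⟩, ?_⟩, by omega⟩
        rw [hm2]
        have : -((n.natAbs : ℕ) : ℤ) = n := by omega
        rw [this]; exact g3
      · right; exact ⟨h, g3, by omega, by omega⟩
      · left; left
        refine ⟨n.natAbs, ⟨⟨by omega, by omega⟩, ?_⟩, by omega⟩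
        rw [hm1]
        have : ((n.natAbs : ℕ) : ℤ) = n := by omega
        rw [this]; exact g3
    · rintro ((⟨m, ⟨⟨g1, g2⟩, g3⟩, rfl⟩ | ⟨m, ⟨⟨g1, g2⟩, g3⟩, rfl⟩) | ⟨rfl, g3, g4, g5⟩)
      · exact ⟨⟨by omega, by omega⟩, (hm1 m).1 g3⟩
      · exact ⟨⟨by omega, by omega⟩, (hm2 m).1 g3⟩
      · exact ⟨⟨by omega, by omega⟩, g3⟩
  rw [e1, sum_union, sum_union, sum_image, sum_image]
  · intro m _ m' _ h
    simp only at h
    omega
  · intro m _ m' _ h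
    simp only at h
    omega
  · rw [disjoint_left]
    intro n hn hn'
    simp only [mem_image, mem_filter, mem_Ioc] at hn hn'
    obtain ⟨m, ⟨⟨g1, _⟩, _⟩, rfl⟩ := hn
    obtain ⟨m', ⟨⟨g2, _⟩, _⟩, g3⟩ := hn'
    omega
  · rw [disjoint_left]
    intro n hn hn'
    simp only [mem_union, mem_image, mem_filter, mem_Ioc, mem_singleton] at hn hn'
    rcases hn with ⟨m, ⟨⟨g1, _⟩, _⟩, rfl⟩ | ⟨m, ⟨⟨g1, _⟩, _⟩, rfl⟩
    · omega
    · omega

lemma twoB_of_oneB {a b c : ℤ} {Q : ℕ} {κ E : ℝ} {x : ℕ} (hκ : 0 ≤ κ) (h1 : OneB a Q κ E x b c)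
    (h2 : OneB a Q κ E x (-b) c) : TwoB a Q κ (2 * E + 1) x b c := by
  intro q hq hqQ r u v hu hv
  obtain ⟨r1, r2, z, hz, hg⟩ := split2 q hq r u v
  have e1 := hg (fun n => lamZ (a * n ^ 2 + b * n + c))
  have e2 := hg (fun _ => (1 : ℝ))
  rw [sum_const, nsmul_eq_mul, mul_one, sum_const, nsmul_eq_mul, mul_one, sum_const, nsmul_eq_mul, mul_one, sum_const,
    nsmul_eq_mul, mul_one] at e2
  have e3 : ∑ n ∈ (Ioc (-v - 1).toNat (-u).toNat).filter (fun n => n ≡ r2 [MOD q]),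
      lamZ (a * (-(n : ℤ)) ^ 2 + b * (-(n : ℤ)) + c) =
      ∑ n ∈ (Ioc (-v - 1).toNat (-u).toNat).filter (fun n => n ≡ r2 [MOD q]), lamZ (fv a (-b) c n) := by
    refine sum_congr rfl fun n _ => ?_
    congr 1
    unfold fv
    ring
  have e4 : ∑ n ∈ (Ioc (u - 1).toNat v.toNat).filter (fun n => n ≡ r1 [MOD q]), lamZ (a * (n : ℤ) ^ 2 + b * (n : ℤ) + c) =
      ∑ n ∈ (Ioc (u - 1).toNat v.toNat).filter (fun n => n ≡ r1 [MOD q]), lamZ (fv a b c n) := rfl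
  have k1 := h1 q r1 (u - 1).toNat v.toNat hq hqQ (by omega)
  have k2 := h2 q r2 (-v - 1).toNat (-u).toNat hq hqQ (by omega)
  have k3 : |∑ n ∈ z, lamZ (a * n ^ 2 + b * n + c)| ≤ 1 := by
    refine (abs_sum_le_sum_abs _ _).trans ((sum_le_sum fun n _ => lamZ_abs _).trans ?_)
    rw [sum_const, nsmul_eq_mul, mul_one]
    have := card_le_card hz
    rw [card_singleton] at this
    exact_mod_cast this
  have k4 : 0 ≤ κ * (#z : ℝ) := mul_nonneg hκ (Nat.cast_nonneg _)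
  rw [e1, e2, e3, e4]
  have h6 := abs_add_le (∑ n ∈ (Ioc (u - 1).toNat v.toNat).filter (fun n => n ≡ r1 [MOD q]), lamZ (fv a b c n) +
    ∑ n ∈ (Ioc (-v - 1).toNat (-u).toNat).filter (fun n => n ≡ r2 [MOD q]), lamZ (fv a (-b) c n))
    (∑ n ∈ z, lamZ (a * n ^ 2 + b * n + c))
  have h7 := abs_add_le (∑ n ∈ (Ioc (u - 1).toNat v.toNat).filter (fun n => n ≡ r1 [MOD q]), lamZ (fv a b c n))
    (∑ n ∈ (Ioc (-v - 1).toNat (-u).toNat).filter (fun n => n ≡ r2 [MOD q]), lamZ (fv a (-b) c n))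
  rw [mul_add, mul_add]
  linarith

lemma twoB_neg {a b c : ℤ} {Q : ℕ} {κ E : ℝ} {x : ℕ} (h : TwoB (-a) Q κ E x (-b) (-c)) : TwoB a Q κ E x b c := by
  intro q hq hqQ r u v hu hv
  have h1 := h q hq hqQ r u v hu hv
  have : ∀ n : ℤ, lamZ (a * n ^ 2 + b * n + c) = lamZ (-a * n ^ 2 + -b * n + -c) := by
    intro n
    rw [← lamZ_neg]
    congr 1
    ring
  simp only [this]
  exact h1

/-- the uniform theorem in the language of the transfers -/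
lemma unifK (γ' κ : ℝ) (hγ' : 1 / 2 ≤ γ') (hκ : 0 ≤ κ) (hMV : ∀ a : ℤ, 0 < a → ∀ Λ : ℝ, 1 ≤ Λ → MVK a Λ γ' κ)
    (a : ℤ) (ha : 0 < a) (Λ : ℝ) (hΛ : 1 ≤ Λ) (γ τ τ' : ℝ) (Q : ℕ) (hγ : γ' < γ) (hτ : 0 < τ) (hτ' : 0 < τ') :
    UnifG Λ γ (fun _ => τ') (fun x _ b c => OneB a Q κ (τ * x) x b c) := by
  obtain ⟨x0, h0⟩ := finK γ' κ hγ' hκ hMV a ha Λ hΛ γ (min τ τ') Q hγ (lt_min hτ hτ')
  refine ⟨x0, fun x hx b C hb hC hCx => ?_⟩
  obtain ⟨Ex, p1, p2, p3⟩ := h0 x hx b C hb hC hCx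
  refine ⟨Ex, p1, p2.trans (mul_le_mul_of_nonneg_right (min_le_right _ _) (Nat.cast_nonneg _)), fun c hc hcE => ?_⟩
  exact oneB_mono (mul_le_mul_of_nonneg_right (min_le_left _ _) (Nat.cast_nonneg _)) (p3 c hc hcE)

end Pool.Agent.H568
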