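import Mathlib
import Pool.Agent.H568.Qa4
import Pool.Graph.R_pool_sql_team_seeded_63374d34.N792.CH.TrV

/-!
Mean values of the function of Liouville with a loss: all constant terms, all leading coefficients, pairs `(b, c)`
(after helper792, `TrV`).
-/

set_option autoImplicit false

namespace Pool.Agent.H568

open Finset Filter Topology
open Pool.Agent.N792 (Fn rho Rough R2 fv)
open Pool.Agent.N791.C2 (lam)
open Pool.Agent.N792.CH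
open Pool.Agent.N791.U (UnifG neg_transferG pair_transferG win_shift sh)

/-- the hypothesis: the mean values with the loss `κ`, for `C ≥ x^γ'` -/
def HypK (γ' κ : ℝ) : Prop := ∀ a : ℤ, 0 < a → ∀ Λ : ℝ, 1 ≤ Λ → MVK a Λ γ' κ

/-- positive constant terms -/
theorem posK (γ' κ : ℝ) (hγ' : 1 / 2 ≤ γ') (hκ : 0 ≤ κ) (hMV : HypK γ' κ)
    (a : ℤ) (ha : 0 < a) (b : ℤ) (γ τ : ℝ) (Q : ℕ) (hγ : γ' < γ) (hτ : 0 < τ) :
    ∃ x0 : ℕ, ∀ x : ℕ, x0 ≤ x → ∀ C : ℕ, (x : ℝ) ^ γ ≤ C → C ≤ x →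
      ∃ Ex ⊆ Icc 1 C, (#Ex : ℝ) ≤ τ * C ∧ ∀ c ∈ Icc 1 C, c ∉ Ex → TwoB a Q κ (τ * x) x b (c : ℕ) := by
  classical
  obtain ⟨x1, h1⟩ := finK γ' κ hγ' hκ hMV a ha 1 (le_refl _) γ (τ / 8) Q hγ (by linarith)
  refine ⟨x1 + b.natAbs ^ 4 + ⌈1 / (τ / 4)⌉₊ + 1, fun x hx C hC hCx => ?_⟩
  have hx4 : 1 ≤ τ / 4 * x := x_large (by linarith) (by omega)
  have hx1 : (1 : ℝ) ≤ x := by exact_mod_cast (by omega : 1 ≤ x)
  have hbC : ((b.natAbs ^ 2 : ℕ) : ℝ) ≤ C := by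
    have e1 : (((b.natAbs ^ 2 : ℕ) : ℝ)) ≤ (x : ℝ) ^ (1 / 2 : ℝ) := by
      rw [← Real.sqrt_eq_rpow]
      apply Real.le_sqrt_of_sq_le
      have : (b.natAbs ^ 2) ^ 2 ≤ x := by
        have : (b.natAbs ^ 2) ^ 2 = b.natAbs ^ 4 := by ring
        omega
      exact_mod_cast this
    have e2 : (x : ℝ) ^ (1 / 2 : ℝ) ≤ (x : ℝ) ^ γ := Real.rpow_le_rpow_of_exponent_le hx1 (by linarith)
    exact (e1.trans e2).trans hC
  have hb1 : (b : ℝ) ^ 2 ≤ 1 * C := by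
    rw [one_mul]
    have : (b : ℝ) ^ 2 = ((b.natAbs ^ 2 : ℕ) : ℝ) := by
      push_cast
      rw [Nat.cast_natAbs]
      push_cast
      rw [sq_abs]
    rw [this]
    exact hbC
  have hb2 : ((-b : ℤ) : ℝ) ^ 2 ≤ 1 * C := by
    push_cast
    rw [neg_sq]
    exact hb1
  obtain ⟨E1, p1, p2, p3⟩ := h1 x (by omega) b C hb1 hC hCx
  obtain ⟨E2, q1, q2, q3⟩ := h1 x (by omega) (-b) C hb2 hC hCx
  refine ⟨E1 ∪ E2, union_subset p1 q1, ?_, ?_⟩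
  · have h5 : (#(E1 ∪ E2) : ℝ) ≤ #E1 + #E2 := by exact_mod_cast card_union_le _ _
    have : 0 ≤ τ * C := by positivity
    linarith
  · intro c hc hcE
    rw [mem_union, not_or] at hcE
    refine twoB_mono ?_ (twoB_of_oneB hκ (E := τ / 8 * x) (p3 c hc hcE.1) (q3 c hc hcE.2))
    linarith

/-- negative constant terms -/
theorem negK (γ' κ : ℝ) (hγ' : 1 / 2 ≤ γ') (hκ : 0 ≤ κ) (hMV : HypK γ' κ)
    (a : ℤ) (ha : 0 < a) (b : ℤ) (γ τ : ℝ) (Q : ℕ) (hγ : γ' < γ) (hγ1 : γ ≤ 1) (hτ : 0 < τ) :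
    ∃ x0 : ℕ, ∀ x : ℕ, x0 ≤ x → ∀ C : ℕ, (x : ℝ) ^ γ ≤ C → C ≤ x →
      ∃ Ex ⊆ Icc 1 C, (#Ex : ℝ) ≤ τ * C ∧ ∀ c ∈ Icc 1 C, c ∉ Ex → TwoB a Q κ (τ * x) x b (-(c : ℕ)) := by
  classical
  have haR : (1 : ℝ) ≤ a := by exact_mod_cast ha
  obtain ⟨τ1, hτ1⟩ : ∃ τ1 : ℝ, τ1 = τ / (56 * a) := ⟨_, rfl⟩
  obtain ⟨τ2, hτ2⟩ : ∃ τ2 : ℝ, τ2 = τ / (6 * a) := ⟨_, rfl⟩
  have hτ10 : 0 < τ1 := by rw [hτ1]; positivity
  have hτ20 : 0 < τ2 := by rw [hτ2]; positivity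
  have k1 : τ1 * (56 * a) = τ := by rw [hτ1]; field_simp
  have k2 : τ2 * (6 * a) = τ := by rw [hτ2]; field_simp
  have hU := unifK γ' κ hγ' hκ hMV a ha (5 * a) (by linarith) γ τ1 τ2 Q hγ hτ10 hτ20
  obtain ⟨x1, h1⟩ := neg_transferG a ha b γ _ (by linarith) (by linarith) _ hU
  obtain ⟨x2, h2⟩ := neg_transferG a ha (-b) γ _ (by linarith) (by linarith) _ hU
  refine ⟨x1 + x2 + ⌈1 / (τ / 4)⌉₊ + ⌈1 / (τ1 ^ 2 / 3)⌉₊ + 1, fun x hx C hC hCx => ?_⟩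
  have hx4 : 1 ≤ τ / 4 * x := x_large (by linarith) (by omega)
  have hx5 : 1 ≤ τ1 ^ 2 / 3 * x := x_large (by positivity) (by omega)
  have hx1 : (1 : ℝ) ≤ x := by exact_mod_cast (by omega : 1 ≤ x)
  obtain ⟨E1, p1, p2, p3⟩ := h1 x (by omega) C hC hCx
  obtain ⟨E2, q1, q2, q3⟩ := h2 x (by omega) C hC hCx
  have hkx : ∀ k : ℕ, k ^ 2 ≤ 3 * C → (k : ℝ) ≤ τ1 * x := by
    intro k hk
    have e1 : (k : ℝ) ^ 2 ≤ 3 * x := by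
      have : k ^ 2 ≤ 3 * x := by omega
      exact_mod_cast this
    apply le_of_sq_le_sq _ (by positivity)
    rw [mul_pow]
    nlinarith
  have hA : (a.toNat : ℝ) = a := by
    have : ((a.toNat : ℕ) : ℤ) = a := by omega
    exact_mod_cast this
  have hA1 : 1 ≤ a.toNat := by omega
  have one : ∀ (b' c' : ℤ) (k : ℕ), k ^ 2 ≤ 3 * C → k ≤ C →
      OneB a Q κ (τ1 * ((3 * a.toNat * x : ℕ) : ℝ)) (3 * a.toNat * x) (b' + 2 * a * k) (c' + b' * k + a * k ^ 2) →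
      OneB a Q κ (4 * a * τ1 * x) x b' c' := by
    intro b' c' k hk1 hk2 h
    have h3 : OneB a Q κ (τ1 * ((3 * a.toNat * x : ℕ) : ℝ) + ((k : ℤ).natAbs : ℕ)) x b' c' := by
      apply oneB_shift (s := (k : ℤ)) (X := 3 * a.toNat * x) hκ _ h
      have : x + x ≤ 3 * a.toNat * x := by nlinarith
      simp only [Int.natAbs_natCast]
      omega
    refine oneB_mono ?_ h3
    have h6 : (((k : ℤ).natAbs : ℕ) : ℝ) = k := by simp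
    rw [h6]
    push_cast
    rw [hA]
    have h4 := hkx k hk1
    have h5 : τ1 * x ≤ a * (τ1 * x) := le_mul_of_one_le_left (by positivity) haR
    nlinarith
  refine ⟨E1 ∪ E2, union_subset p1 q1, ?_, ?_⟩
  · have h5 : (#(E1 ∪ E2) : ℝ) ≤ #E1 + #E2 := by exact_mod_cast card_union_le _ _
    have : τ2 * (3 * a) * C + τ2 * (3 * a) * C = τ * C := by
      rw [← k2]; ring
    linarith
  · intro c hc hcE
    rw [mem_union, not_or] at hcE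
    obtain ⟨k, m1, m2, m3⟩ := p3 c hc hcE.1
    obtain ⟨k', n1, n2, n3⟩ := q3 c hc hcE.2
    have h3 := one b (-(c : ℤ)) k m1 m2 m3
    have h4 := one (-b) (-(c : ℤ)) k' n1 n2 n3
    refine twoB_mono ?_ (twoB_of_oneB hκ h3 h4)
    have : 2 * (4 * a * τ1 * x) = τ / 7 * x := by
      rw [← k1]; ring
    rw [this]
    have : 0 ≤ τ * x := by positivity
    linarith

/-- `a > 0`, all constant terms `|c| ≤ C` -/
theorem allK_pos (γ' κ : ℝ) (hγ' : 1 / 2 ≤ γ') (hκ : 0 ≤ κ) (hMV : HypK γ' κ)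
    (a : ℤ) (ha : 0 < a) (b : ℤ) (γ τ : ℝ) (Q : ℕ) (hγ : γ' < γ) (hγ1 : γ ≤ 1) (hτ : 0 < τ) :
    ∃ x0 : ℕ, ∀ x : ℕ, x0 ≤ x → ∀ C : ℕ, (x : ℝ) ^ γ ≤ C → C ≤ x →
      ∃ Ex ⊆ Icc (-(C : ℤ)) C, (#Ex : ℝ) ≤ τ * C ∧ ∀ c ∈ Icc (-(C : ℤ)) C, c ∉ Ex → TwoB a Q κ (τ * x) x b c := by
  classical
  obtain ⟨τ1, hτ1⟩ : ∃ τ1 : ℝ, τ1 = τ / 3 := ⟨_, rfl⟩
  have hτ10 : 0 < τ1 := by rw [hτ1]; positivity
  obtain ⟨x1, h1⟩ := posK γ' κ hγ' hκ hMV a ha b γ τ1 Q hγ hτ10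
  obtain ⟨x2, h2⟩ := negK γ' κ hγ' hκ hMV a ha b γ τ1 Q hγ hγ1 hτ10
  refine ⟨x1 + x2 + ⌈1 / τ1⌉₊ ^ 2 + 1, fun x hx C hC hCx => ?_⟩
  have hx1 : (1 : ℝ) ≤ x := by exact_mod_cast (by omega : 1 ≤ x)
  have hC2 : 1 ≤ τ1 * C := by
    apply x_large hτ10
    have e1 : ((⌈1 / τ1⌉₊ : ℕ) : ℝ) ≤ (x : ℝ) ^ (1 / 2 : ℝ) := by
      rw [← Real.sqrt_eq_rpow]
      apply Real.le_sqrt_of_sq_le
      exact_mod_cast (by omega : ⌈1 / τ1⌉₊ ^ 2 ≤ x)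
    have e2 : (x : ℝ) ^ (1 / 2 : ℝ) ≤ (x : ℝ) ^ γ := Real.rpow_le_rpow_of_exponent_le hx1 (by linarith)
    exact_mod_cast (e1.trans e2).trans hC
  obtain ⟨E1, p1, p2, p3⟩ := h1 x (by omega) C hC hCx
  obtain ⟨E2, q1, q2, q3⟩ := h2 x (by omega) C hC hCx
  have hττ : τ1 * x ≤ τ * x := by
    apply mul_le_mul_of_nonneg_right _ (by positivity)
    rw [hτ1]; linarith
  refine ⟨(E1.image (fun c : ℕ => (c : ℤ)) ∪ E2.image (fun c : ℕ => -(c : ℤ))) ∪ {0}, ?_, ?_, ?_⟩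
  · intro c hc
    rw [mem_union, mem_union, mem_image, mem_image, mem_singleton] at hc
    rw [mem_Icc]
    rcases hc with (⟨c', hc', rfl⟩ | ⟨c', hc', rfl⟩) | rfl
    · have := mem_Icc.1 (p1 hc')
      omega
    · have := mem_Icc.1 (q1 hc')
      omega
    · omega
  · have h5 : (#((E1.image (fun c : ℕ => (c : ℤ)) ∪ E2.image (fun c : ℕ => -(c : ℤ))) ∪ ({0} : Finset ℤ)) : ℝ) ≤
        #E1 + #E2 + 1 := by
      have g1 := card_union_le (E1.image (fun c : ℕ => (c : ℤ)) ∪ E2.image (fun c : ℕ => -(c : ℤ))) ({0} : Finset ℤ)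
      have g2 := card_union_le (E1.image (fun c : ℕ => (c : ℤ))) (E2.image (fun c : ℕ => -(c : ℤ)))
      have g3 : #(E1.image (fun c : ℕ => (c : ℤ))) ≤ #E1 := card_image_le
      have g4 : #(E2.image (fun c : ℕ => -(c : ℤ))) ≤ #E2 := card_image_le
      rw [card_singleton] at g1
      exact_mod_cast (by omega : #((E1.image (fun c : ℕ => (c : ℤ)) ∪ E2.image (fun c : ℕ => -(c : ℤ))) ∪
        ({0} : Finset ℤ)) ≤ #E1 + #E2 + 1)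
    have h6 : τ1 * C + τ1 * C + τ1 * C = τ * C := by rw [hτ1]; ring
    linarith
  · intro c hc hcE
    rw [mem_union, mem_union, mem_image, mem_image, mem_singleton, not_or, not_or] at hcE
    rw [mem_Icc] at hc
    obtain ⟨⟨g1, g2⟩, g3⟩ := hcE
    rcases lt_trichotomy c 0 with h | h | h
    · obtain ⟨c', hc'⟩ : ∃ c' : ℕ, c = -(c' : ℤ) := ⟨c.natAbs, by omega⟩
      rw [hc']
      refine twoB_mono hττ (q3 c' (mem_Icc.2 (by omega)) ?_)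
      intro hcon
      exact g2 ⟨c', hcon, hc'.symm⟩
    · exact absurd h g3
    · obtain ⟨c', hc'⟩ : ∃ c' : ℕ, c = (c' : ℤ) := ⟨c.natAbs, by omega⟩
      rw [hc']
      refine twoB_mono hττ (p3 c' (mem_Icc.2 (by omega)) ?_)
      intro hcon
      exact g1 ⟨c', hcon, hc'.symm⟩

/-- all constant terms `|c| ≤ C` -/
theorem allK (γ' κ : ℝ) (hγ' : 1 / 2 ≤ γ') (hκ : 0 ≤ κ) (hMV : HypK γ' κ)
    (a : ℤ) (ha : a ≠ 0) (b : ℤ) (γ τ : ℝ) (Q : ℕ) (hγ : γ' < γ) (hγ1 : γ ≤ 1) (hτ : 0 < τ) :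
    ∃ x0 : ℕ, ∀ x : ℕ, x0 ≤ x → ∀ C : ℕ, (x : ℝ) ^ γ ≤ C → C ≤ x →
      ∃ Ex ⊆ Icc (-(C : ℤ)) C, (#Ex : ℝ) ≤ τ * C ∧ ∀ c ∈ Icc (-(C : ℤ)) C, c ∉ Ex → TwoB a Q κ (τ * x) x b c := by
  classical
  rcases lt_or_gt_of_ne ha with h | h
  · obtain ⟨x0, h0⟩ := allK_pos γ' κ hγ' hκ hMV (-a) (by omega) (-b) γ τ Q hγ hγ1 hτ
    refine ⟨x0, fun x hx C hC hCx => ?_⟩
    obtain ⟨Ex, p1, p2, p3⟩ := h0 x hx C hC hCx
    refine ⟨Ex.image (fun c => -c), ?_, ?_, ?_⟩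
    · intro c hc
      rw [mem_image] at hc
      obtain ⟨c', hc', rfl⟩ := hc
      have := mem_Icc.1 (p1 hc')
      rw [mem_Icc]
      omega
    · refine le_trans ?_ p2
      exact_mod_cast card_image_le
    · intro c hc hcE
      apply twoB_neg
      apply p3
      · rw [mem_Icc] at hc ⊢
        omega
      · intro hcon
        apply hcE
        rw [mem_image]
        exact ⟨-c, hcon, by ring⟩
  · exact allK_pos γ' κ hγ' hκ hMV a h b γ τ Q hγ hγ1 hτ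

/-- pairs, one-sided sums -/
theorem pairK_one (γ' κ : ℝ) (hγ' : 1 / 2 ≤ γ') (hκ : 0 ≤ κ) (hMV : HypK γ' κ)
    (a : ℤ) (ha : 0 < a) (γ τ : ℝ) (Q : ℕ) (hγ : γ' < γ) (hγ1 : γ ≤ 1) (hτ : 0 < τ) (hτ1 : τ ≤ 1) :
    ∃ H0 : ℕ, ∀ H : ℕ, H0 ≤ H → ∀ N : ℕ, H ^ 2 ≤ N → (N : ℝ) ^ γ ≤ (H : ℝ) ^ 2 →
      ∃ Ex ⊆ Icc (-(H : ℤ)) H ×ˢ Icc (-(H : ℤ)) H, (#Ex : ℝ) ≤ τ * H ^ 2 ∧
        ∀ p ∈ Icc (-(H : ℤ)) H ×ˢ Icc (-(H : ℤ)) H, p ∉ Ex → OneB a Q κ (τ * N) N p.1 p.2 := by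
  classical
  have haR : (1 : ℝ) ≤ a := by exact_mod_cast ha
  obtain ⟨δ, hδ⟩ : ∃ δ : ℝ, δ = τ / 18 := ⟨_, rfl⟩
  have hδ0 : 0 < δ := by rw [hδ]; positivity
  have hδ1 : δ ≤ 1 := by rw [hδ]; linarith
  obtain ⟨τ2, hτ2⟩ : ∃ τ2 : ℝ, τ2 = δ * τ / (80 * a ^ 3) := ⟨_, rfl⟩
  have hτ20 : 0 < τ2 := by rw [hτ2]; positivity
  obtain ⟨τ1, hτ1'⟩ : ∃ τ1 : ℝ, τ1 = τ / (5 * a) := ⟨_, rfl⟩
  have hτ10 : 0 < τ1 := by rw [hτ1']; positivity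
  have k1 : τ1 * (5 * a) = τ := by rw [hτ1']; field_simp
  have hU := unifK γ' κ hγ' hκ hMV a ha (3 * a) (by linarith) γ τ1 τ2 Q hγ hτ10 hτ20
  obtain ⟨H0, h0⟩ := pair_transferG a ha γ _ (fun _ => hτ20.le) (by linarith) _ hU
  refine ⟨H0 + ⌈1 / δ⌉₊ + ⌈1 / (τ1 / 2)⌉₊ + 2, fun H hH N hHN hNγ => ?_⟩
  have hHδ : 1 ≤ δ * H := x_large hδ0 (by omega)
  have hHτ : 1 ≤ τ1 / 2 * H := x_large (by positivity) (by omega)
  have hH1 : (1 : ℝ) ≤ H := by exact_mod_cast (by omega : 1 ≤ H)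
  obtain ⟨Ex, p1, p2, p3⟩ := h0 H (by omega) N hHN hNγ δ hδ0 hδ1 hHδ
  refine ⟨Ex, p1, ?_, ?_⟩
  · refine p2.trans (mul_le_mul_of_nonneg_right ?_ (by positivity))
    have e1 : 40 * (a : ℝ) ^ 3 * (τ2 / δ) = τ / 2 := by
      rw [hτ2]
      field_simp
      ring
    rw [e1, hδ]
    linarith
  · intro p hp hpE
    obtain ⟨m1, m2⟩ := p3 p hp hpE
    have hA : (a.toNat : ℝ) = a := by
      have : ((a.toNat : ℕ) : ℤ) = a := by omega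
      exact_mod_cast this
    have hA1 : 1 ≤ a.toNat := by omega
    have hHN2 : 2 * H ≤ N := by nlinarith
    have hsN : (sh a H p.1).natAbs ≤ 2 * H := by
      have := abs_le.1 m1
      omega
    have h3 := oneB_shift (s := sh a H p.1) (x := N) (X := 2 * a.toNat * N) hκ
      (by have : N + N ≤ 2 * a.toNat * N := by nlinarith
          omega) m2
    refine oneB_mono ?_ h3
    have h4 : (((sh a H p.1).natAbs : ℕ) : ℝ) ≤ 2 * H := by exact_mod_cast hsN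
    push_cast
    rw [hA]
    have hHN' : (H : ℝ) ^ 2 ≤ N := by exact_mod_cast hHN
    have h5 : 2 * (H : ℝ) ≤ τ1 * N := by
      have : τ1 / 2 * (H : ℝ) ^ 2 ≥ H := by nlinarith
      nlinarith
    have h6 : τ1 * N ≤ a * (τ1 * N) := le_mul_of_one_le_left (by positivity) haR
    have h7 : τ * N = 5 * a * (τ1 * N) := by rw [← k1]; ring
    rw [h7]
    nlinarith

/-- pairs, two-sided sums -/
theorem pairK_pos (γ' κ : ℝ) (hγ' : 1 / 2 ≤ γ') (hκ : 0 ≤ κ) (hMV : HypK γ' κ)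
    (a : ℤ) (ha : 0 < a) (γ τ : ℝ) (Q : ℕ) (hγ : γ' < γ) (hγ1 : γ ≤ 1) (hτ : 0 < τ) :
    ∃ H0 : ℕ, ∀ H : ℕ, H0 ≤ H → ∀ N : ℕ, H ^ 2 ≤ N → (N : ℝ) ^ γ ≤ (H : ℝ) ^ 2 →
      ∃ Ex ⊆ Icc (-(H : ℤ)) H ×ˢ Icc (-(H : ℤ)) H, (#Ex : ℝ) ≤ τ * H ^ 2 ∧
        ∀ p ∈ Icc (-(H : ℤ)) H ×ˢ Icc (-(H : ℤ)) H, p ∉ Ex → TwoB a Q κ (τ * N) N p.1 p.2 := by
  classical
  obtain ⟨τ1, hτ1⟩ : ∃ τ1 : ℝ, τ1 = min 1 (τ / 8) := ⟨_, rfl⟩
  have hτ10 : 0 < τ1 := by rw [hτ1]; positivity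
  have hτ11 : τ1 ≤ 1 := by rw [hτ1]; exact min_le_left _ _
  have hτ12 : τ1 ≤ τ / 8 := by rw [hτ1]; exact min_le_right _ _
  obtain ⟨H0, h0⟩ := pairK_one γ' κ hγ' hκ hMV a ha γ τ1 Q hγ hγ1 hτ10 hτ11
  refine ⟨H0 + ⌈1 / (τ / 4)⌉₊ + 1, fun H hH N hHN hN => ?_⟩
  obtain ⟨Ex, p1, p2, p3⟩ := h0 H (by omega) N hHN hN
  have hHH : H ≤ N := by nlinarith
  have hx4 : 1 ≤ τ / 4 * N := x_large (by linarith) (by omega)
  have hN0 : (0 : ℝ) ≤ N := Nat.cast_nonneg _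
  refine ⟨Ex ∪ Ex.image (fun p => (-p.1, p.2)), ?_, ?_, ?_⟩
  · apply union_subset p1
    intro p hp
    rw [mem_image] at hp
    obtain ⟨p', hp', rfl⟩ := hp
    have := p1 hp'
    rw [mem_product, mem_Icc, mem_Icc] at this ⊢
    simp only
    omega
  · have h5 : (#(Ex ∪ Ex.image (fun p => (-p.1, p.2))) : ℝ) ≤ #Ex + #Ex := by
      have g1 := card_union_le Ex (Ex.image (fun p : ℤ × ℤ => (-p.1, p.2)))
      have g2 : #(Ex.image (fun p : ℤ × ℤ => (-p.1, p.2))) ≤ #Ex := card_image_le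
      exact_mod_cast (by omega : #(Ex ∪ Ex.image (fun p : ℤ × ℤ => (-p.1, p.2))) ≤ #Ex + #Ex)
    have : τ1 * (H : ℝ) ^ 2 ≤ τ / 8 * (H : ℝ) ^ 2 := mul_le_mul_of_nonneg_right hτ12 (by positivity)
    have h7 : 0 ≤ τ * (H : ℝ) ^ 2 := by positivity
    linarith
  · intro p hp hpE
    rw [mem_union, not_or] at hpE
    have h1 := p3 p hp hpE.1
    have h2 := p3 (-p.1, p.2) (by
      rw [mem_product, mem_Icc, mem_Icc] at hp ⊢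
      simp only
      omega) (by
      intro hcon
      apply hpE.2
      rw [mem_image]
      refine ⟨(-p.1, p.2), hcon, ?_⟩
      simp)
    refine twoB_mono ?_ (twoB_of_oneB hκ h1 h2)
    have : τ1 * (N : ℝ) ≤ τ / 8 * N := mul_le_mul_of_nonneg_right hτ12 hN0
    have h7 : 0 ≤ τ * (N : ℝ) := by positivity
    linarith

/-- pairs, two-sided sums, all leading coefficients -/
theorem pairK (γ' κ : ℝ) (hγ' : 1 / 2 ≤ γ') (hκ : 0 ≤ κ) (hMV : HypK γ' κ)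
    (a : ℤ) (ha : a ≠ 0) (γ τ : ℝ) (Q : ℕ) (hγ : γ' < γ) (hγ1 : γ ≤ 1) (hτ : 0 < τ) :
    ∃ H0 : ℕ, ∀ H : ℕ, H0 ≤ H → ∀ N : ℕ, H ^ 2 ≤ N → (N : ℝ) ^ γ ≤ (H : ℝ) ^ 2 →
      ∃ Ex ⊆ Icc (-(H : ℤ)) H ×ˢ Icc (-(H : ℤ)) H, (#Ex : ℝ) ≤ τ * H ^ 2 ∧
        ∀ p ∈ Icc (-(H : ℤ)) H ×ˢ Icc (-(H : ℤ)) H, p ∉ Ex → TwoB a Q κ (τ * N) N p.1 p.2 := by
  classical
  rcases lt_or_gt_of_ne ha with h | h
  · obtain ⟨H0, h0⟩ := pairK_pos γ' κ hγ' hκ hMV (-a) (by omega) γ τ Q hγ hγ1 hτ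
    refine ⟨H0, fun H hH N hHN hN => ?_⟩
    obtain ⟨Ex, p1, p2, p3⟩ := h0 H hH N hHN hN
    refine ⟨Ex.image (fun p => (-p.1, -p.2)), ?_, ?_, ?_⟩
    · intro p hp
      rw [mem_image] at hp
      obtain ⟨p', hp', rfl⟩ := hp
      have := p1 hp'
      rw [mem_product, mem_Icc, mem_Icc] at this ⊢
      simp only
      omega
    · refine le_trans ?_ p2
      exact_mod_cast card_image_le
    · intro p hp hpE
      apply twoB_neg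
      apply p3 (-p.1, -p.2)
      · rw [mem_product, mem_Icc, mem_Icc] at hp ⊢
        simp only
        omega
      · intro hcon
        apply hpE
        rw [mem_image]
        refine ⟨(-p.1, -p.2), hcon, ?_⟩
        simp
  · exact pairK_pos γ' κ hγ' hκ hMV a h γ τ Q hγ hγ1 hτ

end Pool.Agent.H568
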