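import Mathlib
import Pool.Agent.H568.Qa1
import Pool.Agent.H568.Qa5
import Pool.Agent.H568.Mn2
import Pool.Graph.R_pool_sql_team_seeded_63374d34.N792.CH.PW
import Pool.Graph.R_pool_sql_team_seeded_63374d34.N791.U.R1U
import Pool.Graph.R_pool_sql_team_seeded_63374d34.N791.C2.Core

/-!
Tools for the mean values of the function of Liouville with a loss: Mertens, the prime divisors in a window.
-/

set_option autoImplicit false

namespace Pool.Agent.H568

open Finset Filter Topology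
open Pool.Agent.N792 (Fn rho Rough R2 fv rg)
open Pool.Agent.N791.C2 (lam)
open Pool.Agent.N792.CH

lemma log_tend : Tendsto (fun x : ℕ => Real.log x) atTop atTop :=
  Real.tendsto_log_atTop.comp tendsto_natCast_atTop_atTop

/-- Mertens, lower bound -/
lemma mert_lo (u v ε : ℝ) (hu : 0 < u) (huv : u ≤ v) (hε : 0 < ε) : ∀ᶠ x : ℕ in atTop, ∀ U y : ℕ, 2 ≤ U →
    (x : ℝ) ^ (u / 2) ≤ U → (U : ℝ) ≤ (x : ℝ) ^ u → (x : ℝ) ^ v ≤ y →
    Real.log (v / u) - ε ≤ ∑ p ∈ (Ioc U y).filter Nat.Prime, (1 : ℝ) / p := by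
  obtain ⟨C, hC0, hC⟩ := Pool.Agent.Helper923.HMertens.mertens_ratio
  filter_upwards [log_tend.eventually_ge_atTop (C / (ε * (u / 2)) + 1), eventually_ge_atTop 2] with x h1 hx U y hU hU1 hU2 hy
  have hx1 : (1 : ℝ) < x := by exact_mod_cast hx
  have hx0 : (0 : ℝ) < x := by linarith
  obtain ⟨L, hL⟩ : ∃ L : ℝ, L = Real.log x := ⟨_, rfl⟩
  rw [← hL] at h1
  have hL1 : 1 ≤ L := by
    have : 0 ≤ C / (ε * (u / 2)) := by positivity
    linarith
  have hUr : (0 : ℝ) < U := by exact_mod_cast (by omega : 0 < U)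
  have hUy : U ≤ y := by
    have : (U : ℝ) ≤ y := hU2.trans ((Real.rpow_le_rpow_of_exponent_le hx1.le huv).trans hy)
    exact_mod_cast this
  have hyr : (0 : ℝ) < y := by exact_mod_cast (by omega : 0 < y)
  have key := hC U y hU hUy
  have l1 : Real.log U ≤ u * L := by
    have := Real.log_le_log hUr hU2
    rwa [Real.log_rpow hx0, ← hL] at this
  have l2 : v * L ≤ Real.log y := by
    have := Real.log_le_log (Real.rpow_pos_of_pos hx0 _) hy
    rwa [Real.log_rpow hx0, ← hL] at this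
  have l3 : u / 2 * L ≤ Real.log U := by
    have := Real.log_le_log (Real.rpow_pos_of_pos hx0 _) hU1
    rwa [Real.log_rpow hx0, ← hL] at this
  have hv : 0 < v := hu.trans_le huv
  have l4 : 0 < Real.log U := lt_of_lt_of_le (by positivity) l3
  have l5 : v / u ≤ Real.log y / Real.log U := by
    rw [div_le_div_iff₀ hu l4]
    calc v * Real.log U ≤ v * (u * L) := mul_le_mul_of_nonneg_left l1 hv.le
      _ = (v * L) * u := by ring
      _ ≤ Real.log y * u := mul_le_mul_of_nonneg_right l2 hu.le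
  have l6 : Real.log (v / u) ≤ Real.log (Real.log y / Real.log U) := Real.log_le_log (by positivity) l5
  have l7 : C / Real.log U ≤ ε := by
    rw [div_le_iff₀ l4]
    have h2 : C / (ε * (u / 2)) ≤ L := by linarith
    rw [div_le_iff₀ (by positivity)] at h2
    calc C ≤ L * (ε * (u / 2)) := h2
      _ = ε * (u / 2 * L) := by ring
      _ ≤ ε * Real.log U := mul_le_mul_of_nonneg_left l3 hε.le
  have := (abs_le.1 key).1
  linarith

/-- Mertens, upper bound -/
lemma mert_up (u v ε : ℝ) (hu : 0 < u) (huv : u ≤ v) (hε : 0 < ε) : ∀ᶠ x : ℕ in atTop, ∀ U y : ℕ, 2 ≤ U → U ≤ y →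
    (x : ℝ) ^ u ≤ U → (y : ℝ) ≤ (x : ℝ) ^ v →
    ∑ p ∈ (Ioc U y).filter Nat.Prime, (1 : ℝ) / p ≤ Real.log (v / u) + ε := by
  obtain ⟨C, hC0, hC⟩ := Pool.Agent.Helper923.HMertens.mertens_ratio
  filter_upwards [log_tend.eventually_ge_atTop (C / (ε * u) + 1), eventually_ge_atTop 2] with x h1 hx U y hU hUy hU1 hy
  have hx1 : (1 : ℝ) < x := by exact_mod_cast hx
  have hx0 : (0 : ℝ) < x := by linarith
  obtain ⟨L, hL⟩ : ∃ L : ℝ, L = Real.log x := ⟨_, rfl⟩
  rw [← hL] at h1
  have hL1 : 1 ≤ L := by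
    have : 0 ≤ C / (ε * u) := by positivity
    linarith
  have hUr : (0 : ℝ) < U := by exact_mod_cast (by omega : 0 < U)
  have hyr : (0 : ℝ) < y := by exact_mod_cast (by omega : 0 < y)
  have key := hC U y hU hUy
  have l2 : Real.log y ≤ v * L := by
    have := Real.log_le_log hyr hy
    rwa [Real.log_rpow hx0, ← hL] at this
  have l3 : u * L ≤ Real.log U := by
    have := Real.log_le_log (Real.rpow_pos_of_pos hx0 _) hU1
    rwa [Real.log_rpow hx0, ← hL] at this
  have hv : 0 < v := hu.trans_le huv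
  have l4 : 0 < Real.log U := lt_of_lt_of_le (by positivity) l3
  have l4' : 0 < Real.log y := lt_of_lt_of_le l4 (Real.log_le_log hUr (by exact_mod_cast hUy))
  have l5 : Real.log y / Real.log U ≤ v / u := by
    rw [div_le_div_iff₀ l4 hu]
    calc Real.log y * u ≤ (v * L) * u := mul_le_mul_of_nonneg_right l2 hu.le
      _ = v * (u * L) := by ring
      _ ≤ v * Real.log U := mul_le_mul_of_nonneg_left l3 hv.le
  have l6 : Real.log (Real.log y / Real.log U) ≤ Real.log (v / u) := Real.log_le_log (by positivity) l5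
  have l7 : C / Real.log U ≤ ε := by
    rw [div_le_iff₀ l4]
    have h2 : C / (ε * u) ≤ L := by linarith
    rw [div_le_iff₀ (by positivity)] at h2
    calc C ≤ L * (ε * u) := h2
      _ = ε * (u * L) := by ring
      _ ≤ ε * Real.log U := mul_le_mul_of_nonneg_left l3 hε.le
  have := (abs_le.1 key).2
  linarith

lemma lam_smro (z : ℕ) {k : ℕ} (hk : k ≠ 0) : lam (sm z k) * lam (ro z k) = lam k := by
  rw [← PWp.lam_mul (PWp.sm_ne_zero z k) (PWp.ro_ne_zero z k), PWp.sm_mul_ro hk]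

/-- at most two prime divisors exceed the cube root -/
lemma pcard2 {U V : ℕ} (hV : V ≠ 0) (hU : V < U ^ 3) (hU1 : 1 ≤ U) (S : Finset ℕ) (hS : ∀ p ∈ S, p.Prime ∧ U < p ∧ p ∣ V) :
    #S ≤ 2 := by
  by_contra hcon
  have h3 : 3 ≤ #S := by omega
  have h1 : U ^ #S ≤ ∏ p ∈ S, p := by
    rw [← Finset.prod_const]
    exact Finset.prod_le_prod' fun p hp => (hS p hp).2.1.le
  have h2 : ∏ p ∈ S, p ∣ V := by
    have h4 : S ⊆ V.primeFactors := fun p hp => Nat.mem_primeFactors.2 ⟨(hS p hp).1, (hS p hp).2.2, hV⟩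
    exact (Finset.prod_dvd_prod_of_subset _ _ _ h4).trans (Nat.prod_primeFactors_dvd V)
  have h4 : U ^ 3 ≤ U ^ #S := Nat.pow_le_pow_right hU1 h3
  have h5 := Nat.le_of_dvd (Nat.pos_of_ne_zero hV) h2
  omega

/-- the average of the number of prime divisors in a set -/
lemma lamP (S : Finset ℕ) (hS : ∀ p ∈ S, p.Prime) (z V : ℕ) (hV : V ≠ 0) :
    lam V * #(S.filter (fun p => p ∣ V)) = -∑ p ∈ S.filter (fun p => p ∣ V), lam (sm z (V / p)) * lam (ro z (V / p)) := by
  rw [← Finset.sum_neg_distrib, mul_comm, ← nsmul_eq_mul, ← sum_const]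
  refine sum_congr rfl fun p hp => ?_
  rw [mem_filter] at hp
  obtain ⟨k, hk⟩ := hp.2
  have hp0 := (hS p hp.1).ne_zero
  have hk0 : k ≠ 0 := by rintro rfl; simp at hk; exact hV hk
  have h1 : V / p = k := by rw [hk]; exact Nat.mul_div_cancel_left _ (Nat.pos_of_ne_zero hp0)
  rw [h1, lam_smro z hk0, hk, PWp.lam_mul hp0 hk0, PWp.lam_prime (hS p hp.1)]
  ring

end Pool.Agent.H568
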