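import Mathlib
import Pool.Agent.H568.Qa6

/-!
The mean values of the function of Liouville with the loss `1 - log (1 / (1 - δ)) / 2`, for `C ≥ x^(1/2+δ)`.
-/

set_option autoImplicit false

namespace Pool.Agent.H568

open Finset Filter Topology
open Pool.Agent.N792 (Fn rho Rough R2 fv rg rho_le_two)
open Pool.Agent.N791.C2 (lam root_int)
open Pool.Agent.N792.CH
open Pool.Agent.N791.U (r1U range_bdU)

/-- the parameters -/
lemma par_eps {δ ε : ℝ} (hδ : 0 < δ) (hδ1 : δ ≤ 1 / 3) (hε : 0 < ε) (hε1 : ε ≤ 1 / 100) :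
    Real.log (1 / (1 - δ)) - 8 * ε ≤ Real.log ((1 - 2 * ε) / (1 - δ + 2 * ε)) := by
  have h1 : 0 < 1 - δ := by linarith
  have h2 : 0 < 1 - 2 * ε := by linarith
  have h3 : 0 < 1 - δ + 2 * ε := by linarith
  rw [Real.log_div one_ne_zero h1.ne', Real.log_one, Real.log_div h2.ne' h3.ne']
  have h4 : -(3 * ε) ≤ Real.log (1 - 2 * ε) := by
    have h5 := Real.one_sub_inv_le_log_of_pos h2
    have h6 : (1 - 2 * ε)⁻¹ ≤ 1 + 3 * ε := by
      rw [inv_le_comm₀ h2 (by positivity)]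
      rw [inv_le_comm₀ (by positivity) h2]
      rw [inv_eq_one_div, div_le_iff₀ h2]
      nlinarith
    linarith
  have h7 : Real.log (1 - δ + 2 * ε) - Real.log (1 - δ) ≤ 3 * ε := by
    rw [← Real.log_div h3.ne' h1.ne']
    have h8 := Real.log_le_sub_one_of_pos (show 0 < (1 - δ + 2 * ε) / (1 - δ) by positivity)
    have h9 : (1 - δ + 2 * ε) / (1 - δ) - 1 ≤ 3 * ε := by
      rw [sub_le_iff_le_add, div_le_iff₀ h1]
      nlinarith
    linarith
  linarith

open Classical in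
theorem mvA (a : ℤ) (ha : 0 < a) (Λ : ℝ) (hΛ : 1 ≤ Λ) (δ : ℝ) (hδ : 0 < δ) (hδ1 : δ ≤ 1 / 3) :
    MVK a Λ (1 / 2 + δ) (1 - Real.log (1 / (1 - δ)) / 2) := by
  intro τ R hτ
  obtain ⟨κ, hκ⟩ : ∃ κ : ℝ, κ = 1 - Real.log (1 / (1 - δ)) / 2 := ⟨_, rfl⟩
  rw [← hκ]
  obtain ⟨ε, hε⟩ : ∃ ε : ℝ, ε = min (min (1 / 100) (δ / 8)) (τ / 64) := ⟨_, rfl⟩
  have hε0 : 0 < ε := by rw [hε]; positivity
  have hε1 : ε ≤ 1 / 100 := by rw [hε]; exact (min_le_left _ _).trans (min_le_left _ _)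
  have hε2 : ε ≤ δ / 8 := by rw [hε]; exact (min_le_left _ _).trans (min_le_right _ _)
  have hε3 : ε ≤ τ / 64 := by rw [hε]; exact min_le_right _ _
  obtain ⟨n0, h0⟩ := tlH a ha Λ hΛ δ hδ tk tb tn ε (1 / 10) (τ / 8) R hε0 hε1 (by norm_num) le_rfl (by linarith)
  obtain ⟨n1, h1⟩ := r1U a ha Λ hΛ (1 / 20) δ 1 (by norm_num) hδ
  obtain ⟨c0, A, hc0, hA, X0, hX0⟩ := range_bdU a ha Λ hΛ R
  have ev1 := Pool.Agent.N792.Lam.pow_ev 2 (1 / 20) (1 / 10) (by norm_num)
  have ev2 := Pool.Agent.N792.Lam.pow_ev (2 * A) 2 (2 + 3 * ε) (by linarith)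
  have ev3 := mert_lo (1 - δ + 2 * ε) (1 - 2 * ε) (τ / 16) (by linarith) (by linarith) (by linarith)
  have ev4 := Pool.Agent.N792.Lam.pow_ev 2 (1 - 2 * ε) (1 - ε) (by linarith)
  have ev5 := Pool.Agent.N792.Lam.pow_ev 2 (1 - δ + ε) (1 - δ + 2 * ε) (by linarith)
  have ev6 := Pool.Agent.N792.Lam.pow_ev (16 / τ) (1 - ε) 1 (by linarith)
  have ev7 := Pool.Agent.N792.Lam.pow_ev (a.natAbs + 4) 0 (1 / 2) (by norm_num)
  have ev8 := log_tend.eventually_ge_atTop (16 / τ + 1)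
  obtain ⟨n2, h2⟩ := eventually_atTop.1 (((((((ev1.and ev2).and ev3).and ev4).and ev5).and ev6).and ev7).and ev8)
  refine ⟨n0 + n1 + X0 + n2 + 2, fun x hx b u v C hbC hxu huv hvx hC hCx => ?_⟩
  obtain ⟨⟨⟨⟨⟨⟨⟨f1, f2⟩, f3⟩, f4⟩, f5⟩, f6⟩, f7⟩, f8⟩ := h2 x (by omega)
  have hx2 : 2 ≤ x := by omega
  have hx1 : (1 : ℝ) < x := by exact_mod_cast (by omega : 1 < x)
  have hxp : (0 : ℝ) < x := by linarith
  have hCp : (0 : ℝ) < C := lt_of_lt_of_le (by positivity) hC
  have hCx0 : (0 : ℝ) < C * x := by positivity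
  rcases Nat.eq_or_lt_of_le (huv.trans hvx) with hux | hux
  · -- the empty window
    have hvu : v = u := by omega
    have e1 : ∑ c ∈ Icc 1 C, max 0 (|∑ n ∈ Ioc u v, lam (Fn a b n + c)| - κ * ((v : ℝ) - u)) = 0 := by
      refine sum_eq_zero fun c _ => ?_
      rw [hvu, Ioc_self, sum_empty, abs_zero, sub_self, mul_zero, sub_zero, max_self]
    rw [e1]
    positivity
  have hbX : (b : ℝ) ^ 2 ≤ Λ * x := hbC.trans (mul_le_mul_of_nonneg_left (by exact_mod_cast hCx) (by linarith))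
  obtain ⟨hb2, hr1, hr2⟩ := hX0 x (by omega) b hbX u hux hxu
  have hbu : b.natAbs ≤ u := by omega
  have hL1 : 16 / τ ≤ Real.log x := by linarith
  have hLp : 1 ≤ Real.log x := by
    have : 0 < 16 / τ := by positivity
    linarith
  -- the numbers `z`, `U`, `y`
  obtain ⟨z, hz⟩ : ∃ z : ℕ, z = ⌊(x : ℝ) ^ (1 / 10 : ℝ)⌋₊ := ⟨_, rfl⟩
  have hz1 : (z : ℝ) ≤ (x : ℝ) ^ (1 / 10 : ℝ) := by rw [hz]; exact Nat.floor_le (by positivity)
  have hz2 : (x : ℝ) ^ (1 / 20 : ℝ) ≤ z := by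
    have h3 := Nat.lt_floor_add_one ((x : ℝ) ^ (1 / 10 : ℝ))
    rw [← hz] at h3
    have h4 : (1 : ℝ) ≤ (x : ℝ) ^ (1 / 20 : ℝ) := Real.one_le_rpow hx1.le (by norm_num)
    linarith
  obtain ⟨U, hU⟩ : ∃ U : ℕ, U = ⌈(x : ℝ) ^ (1 - δ + ε)⌉₊ := ⟨_, rfl⟩
  have hU1 : (x : ℝ) ^ (1 - δ + ε) ≤ U := by rw [hU]; exact Nat.le_ceil _
  have hU2 : (U : ℝ) ≤ (x : ℝ) ^ (1 - δ + 2 * ε) := by
    have h3 : (U : ℝ) < (x : ℝ) ^ (1 - δ + ε) + 1 := by rw [hU]; exact Nat.ceil_lt_add_one (by positivity)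
    have h4 : (1 : ℝ) ≤ (x : ℝ) ^ (1 - δ + ε) := Real.one_le_rpow hx1.le (by linarith)
    linarith
  obtain ⟨y, hy⟩ : ∃ y : ℕ, y = ⌊(x : ℝ) ^ (1 - ε)⌋₊ := ⟨_, rfl⟩
  have hy1 : (y : ℝ) ≤ (x : ℝ) ^ (1 - ε) := by rw [hy]; exact Nat.floor_le (by positivity)
  have hy2 : (x : ℝ) ^ (1 - 2 * ε) ≤ y := by
    have h3 := Nat.lt_floor_add_one ((x : ℝ) ^ (1 - ε))
    rw [← hy] at h3
    have h4 : (1 : ℝ) ≤ (x : ℝ) ^ (1 - 2 * ε) := Real.one_le_rpow hx1.le (by linarith)
    linarith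
  have hyx : (y : ℝ) ≤ τ / 16 * x := by
    rw [Real.rpow_one] at f6
    have h3 : 16 / τ * (y : ℝ) ≤ x := (mul_le_mul_of_nonneg_left hy1 (by positivity)).trans f6
    have h4 : (y : ℝ) = τ / 16 * (16 / τ * y) := by field_simp
    rw [h4]
    exact mul_le_mul_of_nonneg_left h3 (by positivity)
  have hyx' : y ≤ x := by
    have : (y : ℝ) ≤ x := hy1.trans (by
      calc (x : ℝ) ^ (1 - ε) ≤ (x : ℝ) ^ (1 : ℝ) := Real.rpow_le_rpow_of_exponent_le hx1.le (by linarith)
        _ = x := Real.rpow_one _)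
    exact_mod_cast this
  have hUa : (a.natAbs : ℝ) + 4 ≤ U := by
    rw [Real.rpow_zero, mul_one] at f7
    exact (f7.trans (Real.rpow_le_rpow_of_exponent_le hx1.le (by linarith))).trans hU1
  have hUa' : a.natAbs + 4 ≤ U := by exact_mod_cast hUa
  have hzU : z ≤ U := by
    have : (z : ℝ) ≤ U := (hz1.trans (Real.rpow_le_rpow_of_exponent_le hx1.le (by linarith))).trans hU1
    exact_mod_cast this
  have hCU : (x : ℝ) ^ (3 / 2 + ε) ≤ C * U := by
    calc (x : ℝ) ^ (3 / 2 + ε) = (x : ℝ) ^ (1 / 2 + δ) * (x : ℝ) ^ (1 - δ + ε) := by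
          rw [← Real.rpow_add hxp]; congr 1; ring
      _ ≤ C * U := mul_le_mul hC hU1 (by positivity) hCp.le
  -- the set of primes
  obtain ⟨S, hS⟩ : ∃ S : Finset ℕ, S = (Ioc U y).filter Nat.Prime := ⟨_, rfl⟩
  have hSm : ∀ p ∈ S, p.Prime ∧ U < p ∧ p ≤ y := by
    intro p hp
    rw [hS, mem_filter, mem_Ioc] at hp
    exact ⟨hp.2, hp.1⟩
  have hSr : ∀ p ∈ S, Rough z p := by
    intro p hp
    obtain ⟨g1, g2, g3⟩ := hSm p hp
    refine ⟨g1.ne_zero, fun q hq hqp => ?_⟩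
    rw [(Nat.prime_dvd_prime_iff_eq hq g1).1 hqp]
    omega
  have hSq : ∀ p ∈ S, Squarefree p := fun p hp => (hSm p hp).1.squarefree
  have hlam1 : ∀ k, |lam k| ≤ 1 := fun k => (PWp.abs_lam k).le
  have hmert := f3 U y (by omega) (by
    refine le_trans (Real.rpow_le_rpow_of_exponent_le hx1.le ?_) hU1
    linarith) hU2 hy2
  rw [← hS] at hmert
  have hpar := par_eps hδ hδ1 hε0 hε1
  -- the type II sums
  obtain ⟨T, hT⟩ : ∃ T : ℕ → ℕ → ℝ, T = fun w c => ∑ p ∈ S, |∑ n ∈ (Ioc w x).filter (fun n => p ∣ Fn a b n + c),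
    lam (sm z ((Fn a b n + c) / p)) * lam (ro z ((Fn a b n + c) / p))| := ⟨_, rfl⟩
  have hT0 : ∀ w c, 0 ≤ T w c := fun w c => by rw [hT]; exact sum_nonneg fun _ _ => abs_nonneg _
  have hTs : ∀ w, u ≤ w → w ≤ x → ∑ c ∈ Icc 1 C, T w c ≤ τ / 8 * (C * x) := by
    intro w huw hwx
    rcases Nat.eq_or_lt_of_le hwx with hw | hw
    · have e1 : ∑ c ∈ Icc 1 C, T w c = 0 := by
        refine sum_eq_zero fun c _ => ?_
        rw [hT]
        simp only
        refine sum_eq_zero fun p _ => ?_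
        rw [hw, Ioc_self, filter_empty, sum_empty, abs_zero]
      rw [e1]
      positivity
    · rw [hT]
      exact h0 x (by omega) b w C U y z hbC hw (hxu.trans (Nat.mul_le_mul_left _ huw)) hCU hC hCx hy1
        (by rw [show (1 / 10 / 2 : ℝ) = 1 / 20 by norm_num]; exact hz2) hz1 S (by rw [hS]; exact filter_subset _ _) hSr hSq
        lam hlam1
  -- the averages of the number of the roots
  obtain ⟨D, hD⟩ : ∃ D : ℕ → ℝ, D = fun c => |∑ m ∈ Ioc U y, (if m.Prime then (x : ℝ) / m else 0) *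
    ((rho a b (c : ℕ) m : ℝ) - 1)| := ⟨_, rfl⟩
  have hDs : ∑ c ∈ Icc 1 C, D c ≤ τ / 16 * (C * x) := by
    have h3 := h1 x (by omega) b hbX C z U y (fun m => if m.Prime then (x : ℝ) / m else 0) hC hCx hz2 hyx'
      (by
        intro m hm
        rw [pow_one]
        split_ifs with hmp
        · have hmU := (mem_Ioc.1 hm).1
          have hm0 : (0 : ℝ) < m := by exact_mod_cast (by omega : 0 < m)
          rw [Pool.Agent.N792.rg_prime hmp (by omega), one_mul, abs_of_nonneg (by positivity)]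
          apply div_le_div_of_nonneg_right _ hm0.le
          exact le_mul_of_one_le_right hxp.le hLp
        · rw [abs_zero]
          exact mul_nonneg (Pool.Agent.N792.rg_nonneg' _ _) (by positivity))
      (by
        intro m hm hne
        have : m.Prime := by
          by_contra hcon
          rw [if_neg hcon] at hne
          exact hne rfl
        exact this.squarefree)
    rw [hD]
    refine h3.trans ?_
    rw [pow_one, div_le_iff₀ (by linarith)]
    have h4 : 1 ≤ τ / 16 * Real.log x := by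
      rw [div_le_iff₀ hτ] at hL1
      linarith
    calc (C : ℝ) * x = C * x * 1 := by ring
      _ ≤ C * x * (τ / 16 * Real.log x) := mul_le_mul_of_nonneg_left h4 hCx0.le
      _ = _ := by ring
  -- one value of `c`
  have hone : ∀ c ∈ Icc 1 C, max 0 (|∑ n ∈ Ioc u v, lam (Fn a b n + c)| - κ * ((v : ℝ) - u)) ≤
      τ / 8 * x + D c / 2 + τ / 16 * x + (T u c + T v c) / 2 := by
    intro c hc
    have hc1 := (mem_Icc.1 hc).1
    have hc2 := (mem_Icc.1 hc).2
    have hD0 : 0 ≤ D c := by rw [hD]; exact abs_nonneg _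
    have hTu := hT0 u c
    have hTv := hT0 v c
    refine max_le (by positivity) ?_
    obtain ⟨P, hP⟩ : ∃ P : ℕ → ℝ, P = fun n => (#(S.filter (fun p => p ∣ Fn a b n + c)) : ℝ) := ⟨_, rfl⟩
    have hV0 : ∀ n, Fn a b n + c ≠ 0 := fun n => by omega
    -- at most two primes
    have hP2 : ∀ n ∈ Ioc u v, P n ≤ 2 := by
      intro n hn
      rw [mem_Ioc] at hn
      rw [hP]
      simp only
      have h3 : Fn a b n + c < U ^ 3 := by
        have h4 : Fn a b n ≤ Fn a b x := Pool.Agent.N792.Mtm.Fn_mono ha (hbu.trans hn.1.le) (by omega)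
        have h5 : ((Fn a b n + c : ℕ) : ℝ) ≤ A * (x : ℝ) ^ 2 := by
          have : Fn a b n + c ≤ Fn a b x + x := by omega
          have h6 : ((Fn a b n + c : ℕ) : ℝ) ≤ (Fn a b x : ℝ) + x := by exact_mod_cast this
          linarith
        have h6 : A * (x : ℝ) ^ 2 < (U : ℝ) ^ 3 := by
          have h7 : (x : ℝ) ^ (2 : ℝ) = (x : ℝ) ^ 2 := by norm_cast
          rw [h7] at f2
          have h8 : (x : ℝ) ^ (2 + 3 * ε) ≤ (U : ℝ) ^ 3 := by
            calc (x : ℝ) ^ (2 + 3 * ε) ≤ (x : ℝ) ^ ((1 - δ + ε) * 3) :=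
                  Real.rpow_le_rpow_of_exponent_le hx1.le (by linarith)
              _ = ((x : ℝ) ^ (1 - δ + ε)) ^ 3 := by
                  rw [Real.rpow_mul hxp.le]; norm_cast
              _ ≤ (U : ℝ) ^ 3 := pow_le_pow_left₀ (by positivity) hU1 3
          have h9 : 0 < A * (x : ℝ) ^ 2 := by positivity
          linarith
        have h7 : ((Fn a b n + c : ℕ) : ℝ) < ((U ^ 3 : ℕ) : ℝ) := by push_cast at h5 ⊢; linarith
        exact_mod_cast h7
      have h4 := pcard2 (hV0 n) h3 (by omega) (S.filter (fun p => p ∣ Fn a b n + c)) (fun p hp => by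
        rw [mem_filter] at hp
        exact ⟨(hSm p hp.1).1, (hSm p hp.1).2.1, hp.2⟩)
      exact_mod_cast h4
    -- the identity
    have hid : ∑ n ∈ Ioc u v, lam (Fn a b n + c) * P n = -(∑ p ∈ S,
        (∑ n ∈ (Ioc u x).filter (fun n => p ∣ Fn a b n + c),
          lam (sm z ((Fn a b n + c) / p)) * lam (ro z ((Fn a b n + c) / p)) -
        ∑ n ∈ (Ioc v x).filter (fun n => p ∣ Fn a b n + c),
          lam (sm z ((Fn a b n + c) / p)) * lam (ro z ((Fn a b n + c) / p)))) := by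
      have e1 : ∀ n ∈ Ioc u v, lam (Fn a b n + c) * P n = -∑ p ∈ S, (if p ∣ Fn a b n + c then
          lam (sm z ((Fn a b n + c) / p)) * lam (ro z ((Fn a b n + c) / p)) else 0) := by
        intro n _
        rw [← sum_filter, hP]
        exact lamP S (fun p hp => (hSm p hp).1) z _ (hV0 n)
      rw [sum_congr rfl e1, sum_neg_distrib, sum_comm]
      congr 1
      refine sum_congr rfl fun p _ => ?_
      rw [sum_filter, sum_filter, ← sum_Ioc_consecutive _ huv hvx]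
      ring
    have hid2 : |∑ n ∈ Ioc u v, lam (Fn a b n + c) * P n| ≤ T u c + T v c := by
      rw [hid, abs_neg, hT]
      simp only
      rw [← sum_add_distrib]
      refine (abs_sum_le_sum_abs _ _).trans (sum_le_sum fun p _ => ?_)
      exact abs_sub _ _
    -- the number of the values divisible by `p`
    have hsumP : ∑ n ∈ Ioc u v, P n = ∑ p ∈ S, (#((Ioc u v).filter (fun n : ℕ => (p : ℤ) ∣ fv a b c n)) : ℝ) := by
      rw [hP]
      simp only
      have e1 : ∀ n ∈ Ioc u v, (#(S.filter (fun p => p ∣ Fn a b n + c)) : ℝ) =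
          ∑ p ∈ S, if (p : ℤ) ∣ fv a b c n then (1 : ℝ) else 0 := by
        intro n hn
        rw [mem_Ioc] at hn
        rw [card_filter]
        push_cast
        refine sum_congr rfl fun p _ => ?_
        have e2 : fv a b c n = ((Fn a b n + c : ℕ) : ℤ) := Pool.Agent.N792.Mtm.fv_eq ha (hbu.trans hn.1.le)
        rw [e2]
        exact if_congr Int.natCast_dvd_natCast.symm rfl rfl
      rw [sum_congr rfl e1, sum_comm]
      refine sum_congr rfl fun p _ => ?_
      rw [card_filter]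
      push_cast
      rfl
    have hcnt : ∀ p ∈ S, ((v : ℝ) - u) / p + ((v : ℝ) - u) / x * ((x : ℝ) / p * ((rho a b c p : ℝ) - 1)) - 2 ≤
        (#((Ioc u v).filter (fun n : ℕ => (p : ℤ) ∣ fv a b c n)) : ℝ) := by
      intro p hp
      obtain ⟨g1, g2, g3⟩ := hSm p hp
      have h3 := (abs_le.1 (root_int a b c p u v g1.pos huv)).1
      have h4 : (rho a b c p : ℝ) ≤ 2 := by
        have := rho_le_two a b c p g1 (by
          intro hpa
          have h5 := Int.natAbs_dvd_natAbs.2 hpa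
          rw [Int.natAbs_natCast] at h5
          have h6 := Nat.le_of_dvd (by omega) h5
          omega)
        exact_mod_cast this
      have hp0 : (0 : ℝ) < p := by exact_mod_cast g1.pos
      have e1 : ((v : ℝ) - u) / p + ((v : ℝ) - u) / x * ((x : ℝ) / p * ((rho a b c p : ℝ) - 1)) =
          rho a b c p * (((v : ℝ) - u) / p) := by
        field_simp
        ring
      rw [e1]
      linarith
    have hPlo : ((v : ℝ) - u) * ∑ p ∈ S, (1 : ℝ) / p - D c - 2 * y ≤ ∑ n ∈ Ioc u v, P n := by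
      rw [hsumP]
      refine le_trans ?_ (sum_le_sum hcnt)
      rw [sum_sub_distrib, sum_add_distrib, ← mul_sum, sum_const, nsmul_eq_mul]
      have e1 : ∑ p ∈ S, ((v : ℝ) - u) / p = ((v : ℝ) - u) * ∑ p ∈ S, (1 : ℝ) / p := by
        rw [mul_sum]
        exact sum_congr rfl fun p _ => by ring
      have e2 : ∑ p ∈ S, ((x : ℝ) / p * ((rho a b c p : ℝ) - 1)) = ∑ m ∈ Ioc U y, (if m.Prime then (x : ℝ) / m else 0) *
          ((rho a b (c : ℕ) m : ℝ) - 1) := by
        rw [hS, sum_filter]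
        refine sum_congr rfl fun m _ => ?_
        split_ifs
        · rfl
        · rw [zero_mul]
      have e3 : |∑ p ∈ S, ((x : ℝ) / p * ((rho a b c p : ℝ) - 1))| = D c := by rw [e2, hD]
      have e4 : 0 ≤ ((v : ℝ) - u) / x := by
        have : (u : ℝ) ≤ v := by exact_mod_cast huv
        exact div_nonneg (by linarith) hxp.le
      have e5 : ((v : ℝ) - u) / x ≤ 1 := by
        rw [div_le_one hxp]
        have : (v : ℝ) ≤ x := by exact_mod_cast hvx
        have : (0 : ℝ) ≤ u := Nat.cast_nonneg _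
        linarith
      have e6 : -(D c) ≤ ((v : ℝ) - u) / x * ∑ p ∈ S, ((x : ℝ) / p * ((rho a b c p : ℝ) - 1)) := by
        have h3 := (abs_le.1 (le_of_eq e3)).1
        have h4 : ((v : ℝ) - u) / x * (-(D c)) ≤ ((v : ℝ) - u) / x * ∑ p ∈ S, ((x : ℝ) / p * ((rho a b c p : ℝ) - 1)) :=
          mul_le_mul_of_nonneg_left h3 e4
        nlinarith
      have e7 : (#S : ℝ) * 2 ≤ 2 * y := by
        have h3 : #S ≤ y := by
          rw [hS]
          refine (card_filter_le _ _).trans ?_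
          rw [Nat.card_Ioc]
          omega
        have : (#S : ℝ) ≤ y := by exact_mod_cast h3
        linarith
      rw [e1]
      linarith
    -- the conclusion
    have hmain : |∑ n ∈ Ioc u v, lam (Fn a b n + c)| ≤ ∑ n ∈ Ioc u v, (1 - P n / 2) + (T u c + T v c) / 2 := by
      have e1 : ∑ n ∈ Ioc u v, lam (Fn a b n + c) = ∑ n ∈ Ioc u v, lam (Fn a b n + c) * (1 - P n / 2) +
          (∑ n ∈ Ioc u v, lam (Fn a b n + c) * P n) / 2 := by
        rw [sum_div, ← sum_add_distrib]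
        exact sum_congr rfl fun n _ => by ring
      rw [e1]
      refine (abs_add_le _ _).trans (add_le_add ?_ ?_)
      · refine (abs_sum_le_sum_abs _ _).trans (sum_le_sum fun n hn => ?_)
        have h3 := hP2 n hn
        rw [abs_mul, abs_of_nonneg (by linarith : 0 ≤ 1 - P n / 2), PWp.abs_lam, one_mul]
      · rw [abs_div, abs_two]
        exact div_le_div_of_nonneg_right hid2 (by norm_num)
    have e2 : ∑ n ∈ Ioc u v, (1 - P n / 2) = ((v : ℝ) - u) - (∑ n ∈ Ioc u v, P n) / 2 := by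
      rw [sum_sub_distrib, sum_const, nsmul_eq_mul, mul_one, Nat.card_Ioc, Nat.cast_sub huv, sum_div]
    rw [e2] at hmain
    have huv' : (0 : ℝ) ≤ (v : ℝ) - u := by
      have : (u : ℝ) ≤ v := by exact_mod_cast huv
      linarith
    have hvu' : (v : ℝ) - u ≤ x := by
      have : (v : ℝ) ≤ x := by exact_mod_cast hvx
      have : (0 : ℝ) ≤ u := Nat.cast_nonneg _
      linarith
    have e3 : ((v : ℝ) - u) * (Real.log (1 / (1 - δ)) - τ / 4) ≤ ((v : ℝ) - u) * ∑ p ∈ S, (1 : ℝ) / p :=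
      mul_le_mul_of_nonneg_left (by linarith) huv'
    have e4 : ((v : ℝ) - u) * (τ / 4) ≤ x * (τ / 4) := mul_le_mul_of_nonneg_right hvu' (by positivity)
    have e5 : κ * ((v : ℝ) - u) = ((v : ℝ) - u) - ((v : ℝ) - u) * Real.log (1 / (1 - δ)) / 2 := by rw [hκ]; ring
    rw [e5]
    rw [mul_sub] at e3
    linarith
  refine (sum_le_sum hone).trans ?_
  rw [sum_add_distrib, sum_add_distrib, sum_add_distrib, sum_const, nsmul_eq_mul, sum_const, nsmul_eq_mul, Nat.card_Icc,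
    Nat.add_sub_cancel, ← sum_div, ← sum_div, sum_add_distrib]
  have g1 := hTs u le_rfl hux.le
  have g2 := hTs v huv hvx
  have g3 : (C : ℝ) * (τ / 8 * x) = τ / 8 * (C * x) := by ring
  have g4 : (C : ℝ) * (τ / 16 * x) = τ / 16 * (C * x) := by ring
  rw [g3, g4]
  have g5 : 0 < τ * (C * x) := by positivity
  linarith

end Pool.Agent.H568
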