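import Mathlib
import Pool.Agent.H568.Qa7

/-!
The final form of the mean values with the loss `1 - log (1 / (1 - δ)) / 2`, for `C ≥ x^(1/2+δ)`.
-/

set_option autoImplicit false

namespace Pool.Agent.H568

open Finset Filter Topology
open Pool.Agent.N792.CH

lemma hypA (δ : ℝ) (hδ : 0 < δ) (hδ1 : δ ≤ 1 / 3) : HypK (1 / 2 + δ) (1 - Real.log (1 / (1 - δ)) / 2) :=
  fun a ha Λ hΛ => mvA a ha Λ hΛ δ hδ hδ1

/-- the loss is between 0 and 1 -/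
lemma loss_mem {δ : ℝ} (hδ : 0 < δ) (hδ1 : δ ≤ 1 / 3) : 0 ≤ 1 - Real.log (1 / (1 - δ)) / 2 := by
  have h1 : 0 < 1 - δ := by linarith
  have h2 := Real.log_le_sub_one_of_pos (show 0 < 1 / (1 - δ) by positivity)
  have h3 : 1 / (1 - δ) ≤ 3 / 2 := by
    rw [div_le_div_iff₀ h1 (by norm_num)]
    linarith
  linarith

/-- the loss depends continuously on `δ` -/
lemma loss_cont {δ τ : ℝ} (hδ : 0 < δ) (hδ1 : δ ≤ 1 / 3) (hτ : 0 < τ) : ∃ δ' : ℝ, 0 < δ' ∧ δ' < δ ∧ δ' ≤ 1 / 3 ∧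
    1 - Real.log (1 / (1 - δ')) / 2 ≤ 1 - Real.log (1 / (1 - δ)) / 2 + τ := by
  obtain ⟨e, he⟩ : ∃ e : ℝ, e = min (δ / 2) τ := ⟨_, rfl⟩
  have he0 : 0 < e := by rw [he]; positivity
  have he1 : e ≤ δ / 2 := by rw [he]; exact min_le_left _ _
  have he2 : e ≤ τ := by rw [he]; exact min_le_right _ _
  refine ⟨δ - e, by linarith, by linarith, by linarith, ?_⟩
  have h1 : 0 < 1 - δ := by linarith
  have h2 : 0 < 1 - (δ - e) := by linarith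
  rw [Real.log_div one_ne_zero h1.ne', Real.log_div one_ne_zero h2.ne', Real.log_one]
  have h3 : Real.log (1 - (δ - e)) - Real.log (1 - δ) ≤ 2 * e := by
    rw [← Real.log_div h2.ne' h1.ne']
    have h8 := Real.log_le_sub_one_of_pos (show 0 < (1 - (δ - e)) / (1 - δ) by positivity)
    have h9 : (1 - (δ - e)) / (1 - δ) - 1 ≤ 2 * e := by
      rw [sub_le_iff_le_add, div_le_iff₀ h1]
      nlinarith
    linarith
  linarith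

/-- a small change of the loss -/
lemma twoB_loss {a b c : ℤ} {Q : ℕ} {κ κ' τ : ℝ} {x : ℕ} (hx : 1 ≤ x) (hκ : κ' ≤ κ + τ / 4) (hτ : 0 < τ)
    (h : TwoB a Q κ' (τ / 4 * x) x b c) : TwoB a Q κ (τ * x) x b c := by
  intro q hq hqQ r u v hu hv
  refine (h q hq hqQ r u v hu hv).trans ?_
  have h1 : (#((Icc u v).filter (fun n => n ≡ r [ZMOD q])) : ℝ) ≤ 3 * x := by
    have h2 : #((Icc u v).filter (fun n => n ≡ r [ZMOD q])) ≤ 3 * x := by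
      refine (card_filter_le _ _).trans ?_
      rw [Int.card_Icc]
      omega
    exact_mod_cast h2
  have h3 := mul_le_mul_of_nonneg_right hκ (Nat.cast_nonneg (α := ℝ) #((Icc u v).filter (fun n => n ≡ r [ZMOD q])))
  have h4 : τ / 4 * (#((Icc u v).filter (fun n => n ≡ r [ZMOD q])) : ℝ) ≤ τ / 4 * (3 * x) :=
    mul_le_mul_of_nonneg_left h1 (by positivity)
  rw [add_mul] at h3
  linarith

theorem finA1 (a : ℤ) (ha : a ≠ 0) (b : ℤ) (δ τ : ℝ) (Q : ℕ) (hδ : 0 < δ) (hδ1 : δ ≤ 1 / 3) (hτ : 0 < τ) :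
    ∃ x0 : ℕ, ∀ x : ℕ, x0 ≤ x → ∀ C : ℕ, (x : ℝ) ^ (1 / 2 + δ) ≤ C → C ≤ x →
      ∃ Ex ⊆ Icc (-(C : ℤ)) C, (#Ex : ℝ) ≤ τ * C ∧ ∀ c ∈ Icc (-(C : ℤ)) C, c ∉ Ex →
        TwoB a Q (1 - Real.log (1 / (1 - δ)) / 2) (τ * x) x b c := by
  obtain ⟨δ', h1, h2, h3, h4⟩ := loss_cont hδ hδ1 (show 0 < τ / 4 by positivity)
  obtain ⟨x0, h0⟩ := allK (1 / 2 + δ') _ (by linarith) (loss_mem h1 h3) (hypA δ' h1 h3) a ha b (1 / 2 + δ) (τ / 4) Q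
    (by linarith) (by linarith) (by positivity)
  refine ⟨x0 + 1, fun x hx C hC hCx => ?_⟩
  obtain ⟨Ex, p1, p2, p3⟩ := h0 x (by omega) C hC hCx
  refine ⟨Ex, p1, p2.trans (mul_le_mul_of_nonneg_right (by linarith) (Nat.cast_nonneg _)), fun c hc hcE => ?_⟩
  exact twoB_loss (by omega) h4 hτ (p3 c hc hcE)

theorem finA2 (a : ℤ) (ha : a ≠ 0) (δ τ : ℝ) (Q : ℕ) (hδ : 0 < δ) (hδ1 : δ ≤ 1 / 3) (hτ : 0 < τ) :
    ∃ H0 : ℕ, ∀ H : ℕ, H0 ≤ H → ∀ N : ℕ, H ^ 2 ≤ N → (N : ℝ) ^ (1 / 2 + δ) ≤ (H : ℝ) ^ 2 →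
      ∃ Ex ⊆ Icc (-(H : ℤ)) H ×ˢ Icc (-(H : ℤ)) H, (#Ex : ℝ) ≤ τ * H ^ 2 ∧
        ∀ p ∈ Icc (-(H : ℤ)) H ×ˢ Icc (-(H : ℤ)) H, p ∉ Ex →
          TwoB a Q (1 - Real.log (1 / (1 - δ)) / 2) (τ * N) N p.1 p.2 := by
  obtain ⟨δ', h1, h2, h3, h4⟩ := loss_cont hδ hδ1 (show 0 < τ / 4 by positivity)
  obtain ⟨H0, h0⟩ := pairK (1 / 2 + δ') _ (by linarith) (loss_mem h1 h3) (hypA δ' h1 h3) a ha (1 / 2 + δ) (τ / 4) Q
    (by linarith) (by linarith) (by positivity)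
  refine ⟨H0 + 1, fun H hH N hHN hN => ?_⟩
  obtain ⟨Ex, p1, p2, p3⟩ := h0 H (by omega) N hHN hN
  refine ⟨Ex, p1, p2.trans (mul_le_mul_of_nonneg_right (by linarith) (by positivity)), fun c hc hcE => ?_⟩
  have hN1 : 1 ≤ N := by
    have : 1 ≤ H ^ 2 := Nat.one_le_pow _ _ (by omega)
    omega
  exact twoB_loss hN1 h4 hτ (p3 c hc hcE)

end Pool.Agent.H568
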