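import Mathlib
import Pool.Graph.R_pool_sql_team_seeded_63374d34.N792.CH.TSU
import Pool.Graph.R_pool_sql_team_seeded_63374d34.N792.CH.FinU
import Pool.Agent.H568.Qb1

/-!
The type I sums for `C ≥ x^(1/2+e)` and moduli up to `x^(1-3δ)` (after `TSU.lean` of the project CH of helper792).
-/

set_option autoImplicit false

namespace Pool.Agent.H568

open Finset Filter Topology
open Pool.Agent.N792 (Fn rho Rough R2 rg rough_recip)
open Pool.Agent.N791.U (ev_bn r2U)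
open Pool.Agent.N791.C2 (lam)
open Pool.Agent.N792.CH

open Classical in
/-- the type I sums, uniformly in `b`, for `C ≥ x^(1/2+e)` -/
def TSH (a : ℤ) (Λ e : ℝ) : Prop := ∃ K : ℝ, 1 ≤ K ∧ ∀ δ : ℝ, 0 < δ → δ ≤ 1 / 20 → ∃ η0 : ℝ, 0 < η0 ∧ η0 ≤ 1 / 10 ∧
  ∀ η : ℝ, 0 < η → η ≤ η0 →
  ∀ w P : ℕ, a.natAbs + 4 ≤ w → 1 ≤ P → (∀ p : ℕ, p.Prime → p ∣ P → p ≤ w) → ∀ (τ : ℝ) (R : ℕ), 0 < τ →
  ∃ x0 : ℕ, ∀ x : ℕ, x0 ≤ x → ∀ b : ℤ, (b : ℝ) ^ 2 ≤ Λ * x →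
  ∀ x1 C J s : ℕ, x1 < x → x ≤ R * x1 → (x : ℝ) ^ (1 / 2 + e) ≤ C → C ≤ x →
  (x : ℝ) ^ (η / 2) ≤ ((2 ^ 2 ^ J : ℕ) : ℝ) → ((2 ^ 2 ^ J : ℕ) : ℝ) ≤ (x : ℝ) ^ η → (s : ℝ) ≤ (x : ℝ) ^ (1 - 3 * δ) →
  ∃ Ex ⊆ Icc 1 C, (#Ex : ℝ) ≤ τ * C ∧ ∀ ψ : ℕ → ℕ → ℝ, (∀ c n, |ψ c n| ≤ 1) →
    (∀ c n n', n ≡ n' [MOD P] → ψ c n = ψ c n') →
    ∑ c ∈ Icc 1 C \ Ex, ∑ j ∈ (Icc 1 s).filter (fun j => Rough (2 ^ 2 ^ J) j ∧ Squarefree j),
      (2 : ℝ) ^ #j.primeFactors * |∑ n ∈ (Ioc x1 x).filter (fun n => j ∣ Fn a b n + c ∧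
        ((rd w (2 ^ 2 ^ J) (Fn a b n + c) : ℕ) : ℝ) ≤ (x : ℝ) ^ δ), ψ c n * sg w (2 ^ 2 ^ J) (Fn a b n + c)| ≤
      (K * (2 : ℝ) ^ (-(δ / (K * η))) / η ^ 2 + τ) * (C * x)

open TSa in
theorem tsH (a : ℤ) (ha : 0 < a) (Λ : ℝ) (hΛ : 1 ≤ Λ) (e : ℝ) (he : 0 < e) : TSH a Λ e := by
  classical
  have hTA : TAU a := taU a ha
  have hGD : GDU a := gdU a ha
  have hR2 := r2U a ha
  obtain ⟨KA, hKA1, HA⟩ := hTA
  obtain ⟨KR, hKR0, HR⟩ := rough_recip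
  have hKA0 : 0 < KA := by linarith
  refine ⟨KA * (1 + 8 * KR ^ 2), ?_, fun δ hδ hδ1 => ?_⟩
  · have : 0 ≤ 8 * KR ^ 2 := by positivity
    nlinarith
  obtain ⟨η0, hη0, hη01, HA1⟩ := HA δ hδ hδ1
  refine ⟨η0, hη0, hη01, fun η hη hηη w P hw hP hPw τ R hτ => ?_⟩
  obtain ⟨xA, hxA⟩ := HA1 η hη hηη w P hw hP hPw
  have hη1 : η ≤ 1 / 10 := hηη.trans hη01
  set τ1 : ℝ := τ * η ^ 2 / (16 * KR ^ 2 + 1) with hτ1d
  have hτ1 : 0 < τ1 := by positivity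
  have hτ1τ : τ1 ≤ τ := by
    rw [hτ1d, div_le_iff₀ (by positivity)]
    have h1 : η ^ 2 ≤ 1 := by nlinarith
    have h2 : (0:ℝ) ≤ 16 * KR ^ 2 := by positivity
    nlinarith
  have hτ1K : 8 * KR ^ 2 * τ1 / η ^ 2 ≤ τ / 2 := by
    rw [hτ1d]
    have h2 : (0:ℝ) < 16 * KR ^ 2 + 1 := by positivity
    have e : 8 * KR ^ 2 * (τ * η ^ 2 / (16 * KR ^ 2 + 1)) / η ^ 2 =
        8 * KR ^ 2 * τ / (16 * KR ^ 2 + 1) := by
      field_simp
    rw [e, div_le_div_iff₀ h2 (by norm_num)]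
    nlinarith
  obtain ⟨xG, hxG⟩ := hGD w τ1 (η / 2) hw hτ1 (half_pos hη)
  obtain ⟨xR, hxR⟩ := hR2 (η / 2) e (half_pos hη) he
  obtain ⟨xU, hxU⟩ := HR (η / 2) (half_pos hη) (by linarith)
  set M : ℝ := 4 * P * (2 : ℝ) ^ (2 / η) / τ with hM
  obtain ⟨y1, hy1⟩ := eventually_atTop.1
    ((tendsto_rpow_atTop hδ).eventually_ge_atTop M)
  obtain ⟨xB, hxB⟩ := eventually_atTop.1 (ev_bn Λ hΛ (R + 1))
  refine ⟨xA + xG + xR + xU + ⌈y1⌉₊ + xB + 3, fun x hx => ?_⟩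
  intro b hb x1 C J s hx1 hxR1 hC hCx hz1 hz2 hs
  have hx2 : 2 ≤ x := by omega
  have hxr : (2 : ℝ) ≤ x := by exact_mod_cast hx2
  have hx0 : (0 : ℝ) < x := by linarith
  have hx1r : (1 : ℝ) ≤ x := by linarith
  have hxy : y1 ≤ x := (Nat.le_ceil _).trans (by exact_mod_cast (by omega : ⌈y1⌉₊ ≤ x))
  have hbx1 : b.natAbs ≤ x1 := by
    by_contra hlt
    have h1 : x1 ≤ b.natAbs := by omega
    have h2 : R * x1 ≤ R * b.natAbs := Nat.mul_le_mul_left _ h1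
    have h3 := hxB x (by omega) b hb
    have h4 : (R + 1) * (b.natAbs + 1) = R * b.natAbs + R + b.natAbs + 1 := by ring
    omega
  have hC0 : (0 : ℝ) ≤ C := Nat.cast_nonneg C
  have hC12 : (x : ℝ) ^ (1 / 2 : ℝ) ≤ C :=
    (Real.rpow_le_rpow_of_exponent_le hx1r (by linarith)).trans hC
  have hC52 : (x : ℝ) ^ (1 / 2 + e) ≤ C := hC
  have hsx : s ≤ x := by
    have h1 : (s : ℝ) ≤ x := by
      refine hs.trans ?_
      calc (x : ℝ) ^ (1 - 3 * δ) ≤ (x : ℝ) ^ (1 : ℝ) :=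
            Real.rpow_le_rpow_of_exponent_le hx1r (by linarith)
        _ = x := Real.rpow_one _
    exact_mod_cast h1
  set z : ℕ := 2 ^ 2 ^ J with hz
  set Ex : Finset ℕ := (Icc 1 C).filter
    (fun c : ℕ => τ1 < ∏ p ∈ (Ioc w z).filter Nat.Prime, (1 - 2 * (rho a b c p : ℝ) / p)) with hEx
  refine ⟨Ex, filter_subset _ _, ?_, ?_⟩
  · exact (hxG x (by omega) b C z hC12 hz1).trans (mul_le_mul_of_nonneg_right hτ1τ hC0)
  intro ψ hψ hψP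
  set E : ℝ := KA * (2 : ℝ) ^ (-(δ / (KA * η))) with hE
  have hE0 : 0 ≤ E := by positivity
  have hPr : (0 : ℝ) < P := by exact_mod_cast hP
  -- the bound for single `c`, `j`
  have key : ∀ c ∈ Icc 1 C \ Ex, ∀ j ∈ (Icc 1 s).filter (fun j => Rough z j ∧ Squarefree j),
      |∑ n ∈ (Ioc x1 x).filter (fun n => j ∣ Fn a b n + c ∧
        ((rd w z (Fn a b n + c) : ℕ) : ℝ) ≤ (x : ℝ) ^ δ), ψ c n * sg w z (Fn a b n + c)| ≤
      (rho a b c j : ℝ) * (x * (τ1 + E) * (1 / j) + P * (x : ℝ) ^ (2 * δ)) := by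
    intro c hc j hj
    have hc1 : c ∈ Icc 1 C := (Finset.mem_sdiff.1 hc).1
    have hc2 : c ∉ Ex := (Finset.mem_sdiff.1 hc).2
    rw [mem_filter, mem_Icc] at hj
    have hprod : ∏ p ∈ (Ioc w z).filter Nat.Prime, (1 - 2 * (rho a b c p : ℝ) / p) ≤ τ1 := by
      by_contra hlt
      exact hc2 (by
        rw [hEx, mem_filter]
        exact ⟨hc1, not_le.1 hlt⟩)
    have hj0 : (0 : ℝ) < j := by exact_mod_cast hj.1.1
    rw [← sum_fiberwise_of_maps_to (t := range P) (g := fun n => n % P)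
      (fun n _ => mem_range.2 (Nat.mod_lt _ hP))]
    refine (abs_sum_le_sum_abs _ _).trans ?_
    have h1 : ∀ r ∈ range P,
        |∑ n ∈ ((Ioc x1 x).filter (fun n => j ∣ Fn a b n + c ∧
          ((rd w z (Fn a b n + c) : ℕ) : ℝ) ≤ (x : ℝ) ^ δ)).filter (fun n => n % P = r),
          ψ c n * sg w z (Fn a b n + c)| ≤
        (rho a b c j : ℝ) / (j * P) * x * (τ1 + E) + rho a b c j * (x : ℝ) ^ (2 * δ) := by
      intro r hr
      rw [mem_range] at hr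
      have h2 := hxA x (by omega) b x1 J c r j hx1 hbx1 hz1 hz2 hj.2.1
      have h3 : ((Ioc x1 x).filter (fun n => j ∣ Fn a b n + c ∧
          ((rd w z (Fn a b n + c) : ℕ) : ℝ) ≤ (x : ℝ) ^ δ)).filter (fun n => n % P = r) =
          (Ioc x1 x).filter (fun n => n ≡ r [MOD P] ∧ j ∣ Fn a b n + c ∧
            ((rd w (2 ^ 2 ^ J) (Fn a b n + c) : ℕ) : ℝ) ≤ (x : ℝ) ^ δ) := by
        ext n
        simp only [mem_filter]
        have e : n % P = r ↔ n ≡ r [MOD P] := by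
          unfold Nat.ModEq
          rw [Nat.mod_eq_of_lt hr]
        rw [e]
        tauto
      rw [h3]
      have h4 : ∑ n ∈ (Ioc x1 x).filter (fun n => n ≡ r [MOD P] ∧ j ∣ Fn a b n + c ∧
            ((rd w (2 ^ 2 ^ J) (Fn a b n + c) : ℕ) : ℝ) ≤ (x : ℝ) ^ δ),
            ψ c n * sg w z (Fn a b n + c) =
          ψ c r * ∑ n ∈ (Ioc x1 x).filter (fun n => n ≡ r [MOD P] ∧ j ∣ Fn a b n + c ∧
            ((rd w (2 ^ 2 ^ J) (Fn a b n + c) : ℕ) : ℝ) ≤ (x : ℝ) ^ δ),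
            sg w (2 ^ 2 ^ J) (Fn a b n + c) := by
        rw [mul_sum]
        refine sum_congr rfl fun n hn => ?_
        rw [mem_filter] at hn
        rw [hψP c n r hn.2.1]
      rw [h4, abs_mul]
      calc |ψ c r| * _ ≤ 1 * _ := mul_le_mul_of_nonneg_right (hψ c r) (abs_nonneg _)
        _ = _ := one_mul _
        _ ≤ _ := h2
        _ ≤ _ := by
          refine add_le_add ?_ le_rfl
          refine mul_le_mul_of_nonneg_left ?_ (by positivity)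
          exact add_le_add hprod le_rfl
    refine (sum_le_sum h1).trans (le_of_eq ?_)
    rw [sum_const, card_range, nsmul_eq_mul]
    field_simp
  -- summation
  have hsum1 : ∑ c ∈ Icc 1 C \ Ex, ∑ j ∈ (Icc 1 s).filter (fun j => Rough z j ∧ Squarefree j),
      (2 : ℝ) ^ #j.primeFactors * |∑ n ∈ (Ioc x1 x).filter (fun n => j ∣ Fn a b n + c ∧
        ((rd w z (Fn a b n + c) : ℕ) : ℝ) ≤ (x : ℝ) ^ δ), ψ c n * sg w z (Fn a b n + c)| ≤
      ∑ c ∈ Icc 1 C, ∑ j ∈ (Icc 1 s).filter (fun j => Rough z j ∧ Squarefree j),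
        (2 : ℝ) ^ #j.primeFactors * ((rho a b (c : ℕ) j : ℝ) *
          (x * (τ1 + E) * (1 / j) + P * (x : ℝ) ^ (2 * δ))) := by
    refine (sum_le_sum fun c hc => sum_le_sum fun j hj =>
      mul_le_mul_of_nonneg_left (key c hc j hj) (by positivity)).trans ?_
    refine sum_le_sum_of_subset_of_nonneg sdiff_subset fun c _ _ => ?_
    refine sum_nonneg fun j _ => ?_
    positivity
  refine hsum1.trans ?_
  rw [sum_comm]
  have hsum2 : ∀ j ∈ (Icc 1 s).filter (fun j => Rough z j ∧ Squarefree j),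
      ∑ c ∈ Icc 1 C, (2 : ℝ) ^ #j.primeFactors * ((rho a b (c : ℕ) j : ℝ) *
          (x * (τ1 + E) * (1 / j) + P * (x : ℝ) ^ (2 * δ))) ≤
      2 * C * (x * (τ1 + E)) * ((2 : ℝ) ^ #j.primeFactors * (1 / j)) +
        2 * C * P * (x : ℝ) ^ (2 * δ) * (2 : ℝ) ^ (2 / η) := by
    intro j hj
    rw [mem_filter, mem_Icc] at hj
    have h1 := hxR x (by omega) b C z j hC52 hCx hz1 (by omega) hj.2.1 hj.2.2
    have h2 := omega_le hη hx2 hz1 hj.2.1 (by omega)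
    have h3 : ∑ c ∈ Icc 1 C, (2 : ℝ) ^ #j.primeFactors * ((rho a b (c : ℕ) j : ℝ) *
          (x * (τ1 + E) * (1 / j) + P * (x : ℝ) ^ (2 * δ))) =
        (2 : ℝ) ^ #j.primeFactors * (x * (τ1 + E) * (1 / j) + P * (x : ℝ) ^ (2 * δ)) *
          ∑ c ∈ Icc 1 C, (rho a b (c : ℕ) j : ℝ) := by
      rw [mul_sum]
      exact sum_congr rfl fun c _ => by ring
    rw [h3]
    calc (2 : ℝ) ^ #j.primeFactors * (x * (τ1 + E) * (1 / j) + P * (x : ℝ) ^ (2 * δ)) *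
          ∑ c ∈ Icc 1 C, (rho a b (c : ℕ) j : ℝ)
        ≤ (2 : ℝ) ^ #j.primeFactors * (x * (τ1 + E) * (1 / j) + P * (x : ℝ) ^ (2 * δ)) * (2 * C) :=
          mul_le_mul_of_nonneg_left h1 (by positivity)
      _ = 2 * C * (x * (τ1 + E)) * ((2 : ℝ) ^ #j.primeFactors * (1 / j)) +
          2 * C * P * (x : ℝ) ^ (2 * δ) * (2 : ℝ) ^ #j.primeFactors := by ring
      _ ≤ _ := add_le_add le_rfl (mul_le_mul_of_nonneg_left h2 (by positivity))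
  refine (sum_le_sum hsum2).trans ?_
  rw [sum_add_distrib, ← mul_sum, sum_const, nsmul_eq_mul]
  have hA : ∑ j ∈ (Icc 1 s).filter (fun j => Rough z j ∧ Squarefree j),
      (2 : ℝ) ^ #j.primeFactors * (1 / j) ≤ 4 * KR ^ 2 / η ^ 2 := by
    refine (sum_two z s).trans ?_
    have h1 := hxU x (by omega) z s hz1 hsx
    have h2 : 0 ≤ ∑ j ∈ Icc 1 s, rg z j / j :=
      sum_nonneg fun j _ => div_nonneg (rg_nonneg z j) (Nat.cast_nonneg j)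
    calc (∑ j ∈ Icc 1 s, rg z j / j) ^ 2 ≤ (KR / (η / 2)) ^ 2 := pow_le_pow_left₀ h2 h1 2
      _ = 4 * KR ^ 2 / η ^ 2 := by
        field_simp
        ring
  have hcard : (#((Icc 1 s).filter (fun j => Rough z j ∧ Squarefree j)) : ℝ) ≤
      (x : ℝ) ^ (1 - 3 * δ) := by
    refine le_trans ?_ hs
    have h1 : #((Icc 1 s).filter (fun j => Rough z j ∧ Squarefree j)) ≤ s := by
      refine (card_filter_le _ _).trans ?_
      rw [Nat.card_Icc]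
      omega
    exact_mod_cast h1
  -- the two parts
  have hpart1 : 2 * C * (x * (τ1 + E)) *
      ∑ j ∈ (Icc 1 s).filter (fun j => Rough z j ∧ Squarefree j),
        (2 : ℝ) ^ #j.primeFactors * (1 / j) ≤
      (KA * (1 + 8 * KR ^ 2) * (2 : ℝ) ^ (-(δ / (KA * (1 + 8 * KR ^ 2) * η))) / η ^ 2 + τ / 2) *
        (C * x) := by
    calc _ ≤ 2 * C * (x * (τ1 + E)) * (4 * KR ^ 2 / η ^ 2) :=
          mul_le_mul_of_nonneg_left hA (by positivity)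
      _ = (8 * KR ^ 2 * E / η ^ 2 + 8 * KR ^ 2 * τ1 / η ^ 2) * (C * x) := by ring
      _ ≤ _ := by
          refine mul_le_mul_of_nonneg_right (add_le_add ?_ hτ1K) (by positivity)
          refine div_le_div_of_nonneg_right ?_ (by positivity)
          have h1 : (2 : ℝ) ^ (-(δ / (KA * η))) ≤
              (2 : ℝ) ^ (-(δ / (KA * (1 + 8 * KR ^ 2) * η))) := by
            refine Real.rpow_le_rpow_of_exponent_le (by norm_num) ?_
            refine neg_le_neg ?_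
            refine div_le_div_of_nonneg_left hδ.le (by positivity) ?_
            have h2 : (0:ℝ) ≤ KA * η * (8 * KR ^ 2) := by positivity
            nlinarith
          rw [hE]
          have h3 : (0:ℝ) ≤ (2 : ℝ) ^ (-(δ / (KA * η))) := by positivity
          calc 8 * KR ^ 2 * (KA * (2 : ℝ) ^ (-(δ / (KA * η))))
              ≤ KA * (1 + 8 * KR ^ 2) * (2 : ℝ) ^ (-(δ / (KA * η))) := by
                have : 0 ≤ KA * (2 : ℝ) ^ (-(δ / (KA * η))) := by positivity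
                nlinarith
            _ ≤ _ := mul_le_mul_of_nonneg_left h1 (by positivity)
  have hpart2 : (#((Icc 1 s).filter (fun j => Rough z j ∧ Squarefree j)) : ℝ) *
      (2 * C * P * (x : ℝ) ^ (2 * δ) * (2 : ℝ) ^ (2 / η)) ≤ τ / 2 * (C * x) := by
    have h1 : (x : ℝ) ^ (2 * δ) ≤ (x : ℝ) ^ (2 * δ) := le_rfl
    have h2 := hy1 x hxy
    have h3 : (x : ℝ) ^ (1 - 3 * δ) * (x : ℝ) ^ (2 * δ) * (x : ℝ) ^ δ = x := by
      rw [← Real.rpow_add hx0, ← Real.rpow_add hx0, show 1 - 3 * δ + 2 * δ + δ = 1 by ring, Real.rpow_one]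
    have h4 : 0 < (x : ℝ) ^ (1 - 3 * δ) * (x : ℝ) ^ (2 * δ) := by positivity
    have h5 : 2 * P * (2 : ℝ) ^ (2 / η) ≤ τ / 2 * (x : ℝ) ^ δ := by
      have : M * τ ≤ (x : ℝ) ^ δ * τ := mul_le_mul_of_nonneg_right h2 hτ.le
      rw [hM, div_mul_cancel₀ _ hτ.ne'] at this
      linarith
    calc (#((Icc 1 s).filter (fun j => Rough z j ∧ Squarefree j)) : ℝ) *
          (2 * C * P * (x : ℝ) ^ (2 * δ) * (2 : ℝ) ^ (2 / η))
        ≤ (x : ℝ) ^ (1 - 3 * δ) * (2 * C * P * (x : ℝ) ^ (2 * δ) * (2 : ℝ) ^ (2 / η)) := by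
          gcongr
      _ = C * ((x : ℝ) ^ (1 - 3 * δ) * (x : ℝ) ^ (2 * δ)) * (2 * P * (2 : ℝ) ^ (2 / η)) := by
          ring
      _ ≤ C * ((x : ℝ) ^ (1 - 3 * δ) * (x : ℝ) ^ (2 * δ)) *
          (τ / 2 * (x : ℝ) ^ δ) := mul_le_mul_of_nonneg_left h5 (by positivity)
      _ = τ / 2 * (C * ((x : ℝ) ^ (1 - 3 * δ) * (x : ℝ) ^ (2 * δ) *
          (x : ℝ) ^ δ)) := by ring
      _ = τ / 2 * (C * x) := by rw [h3]
  refine (add_le_add hpart1 hpart2).trans (le_of_eq ?_)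
  ring

end Pool.Agent.H568
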