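import Mathlib
import Pool.Graph.R_pool_sql_team_seeded_63374d34.N792.CH.RW
import Pool.Agent.H568.Qb1

/-!
The values with a rough divisor `j ≤ M x` in a logarithmically short window, for `C ≥ x^(1/2+e)` (after `WNU.lean` of
the project CH of helper792).
-/

set_option autoImplicit false

namespace Pool.Agent.H568

open Finset Filter Topology
open Pool.Agent.N792 (Fn rho Rough R2 rg fv)
open Pool.Agent.N791.U (ev_bn r2U range_bdU)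
open Pool.Agent.N791.C2 (lam root_int)
open Pool.Agent.N792.CH

open Classical in
/-- the values with a rough divisor `j ≤ M x` in a logarithmically short window, uniformly in `b`, `C ≥ x^(1/2+e)` -/
def WNH (a : ℤ) (Λ e : ℝ) : Prop := ∀ M : ℕ, 1 ≤ M → ∃ K : ℝ, 0 < K ∧ ∀ (R : ℕ) (η κ : ℝ), 0 < η → η ≤ 1 / 10 →
  0 < κ → κ ≤ 1 / 100 → ∃ x0 : ℕ, ∀ x : ℕ, x0 ≤ x → ∀ b : ℤ, (b : ℝ) ^ 2 ≤ Λ * x →
  ∀ x1 C z : ℕ, ∀ u : ℝ, x1 < x → x ≤ R * x1 → (x : ℝ) ^ (1 / 2 + e) ≤ C → C ≤ x →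
  (x : ℝ) ^ (η / 2) ≤ z → (x : ℝ) ^ (1 / 4 : ℝ) ≤ u → u * (x : ℝ) ^ κ ≤ (x : ℝ) ^ (1 + 1 / 100 : ℝ) →
  ∑ c ∈ Icc 1 C, (#((Ioc x1 x).filter (fun n => ∃ j : ℕ, Rough z j ∧ Squarefree j ∧ u < j ∧
    (j : ℝ) ≤ u * (x : ℝ) ^ κ ∧ j ≤ M * x ∧ j ∣ Fn a b n + c)) : ℝ) ≤ K * (κ / η ^ 2) * (C * x)

/-- the number of the values divisible by `j ≤ M x`, for one `c` -/
lemma cnt_le (a : ℤ) (ha : 0 < a) (b : ℤ) (x1 x c j M : ℕ) (hb : b.natAbs ≤ x1) (hx1 : x1 < x) (hj : 1 ≤ j)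
    (hjM : j ≤ M * x) :
    (#((Ioc x1 x).filter (fun n => j ∣ Fn a b n + c)) : ℝ) ≤ rho a b (c : ℕ) j * ((1 + M) * (x / j)) := by
  have e1 : (Ioc x1 x).filter (fun n => j ∣ Fn a b n + c) = (Ioc x1 x).filter (fun n : ℕ => (j : ℤ) ∣ fv a b c n) := by
    refine filter_congr fun n hn => ?_
    rw [mem_Ioc] at hn
    have e2 : fv a b c n = ((Fn a b n + c : ℕ) : ℤ) := Pool.Agent.N792.Mtm.fv_eq ha (hb.trans hn.1.le)
    rw [e2]
    exact Int.natCast_dvd_natCast.symm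
  rw [e1]
  have h3 := (abs_le.1 (root_int a b c j x1 x (by omega) hx1.le)).2
  have hj0 : (0 : ℝ) < j := by exact_mod_cast hj
  have hx0 : (0 : ℝ) < x := by exact_mod_cast (by omega : 0 < x)
  have hr0 : (0 : ℝ) ≤ rho a b (c : ℕ) j := Nat.cast_nonneg _
  have h4 : ((x : ℝ) - x1) / j ≤ x / j := by
    apply div_le_div_of_nonneg_right _ hj0.le
    have : (0 : ℝ) ≤ x1 := Nat.cast_nonneg _
    linarith
  have h5 : (1 : ℝ) ≤ M * (x / j) := by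
    rw [mul_div_assoc', le_div_iff₀ hj0, one_mul]
    exact_mod_cast hjM
  have h6 : rho a b (c : ℕ) j * (((x : ℝ) - x1) / j) ≤ rho a b (c : ℕ) j * (x / j) := mul_le_mul_of_nonneg_left h4 hr0
  have h7 : (rho a b (c : ℕ) j : ℝ) * 1 ≤ rho a b (c : ℕ) j * (M * (x / j)) := mul_le_mul_of_nonneg_left h5 hr0
  have h8 : (rho a b (c : ℕ) j : ℝ) * ((1 + M) * (x / j)) = rho a b (c : ℕ) j * (x / j) + rho a b (c : ℕ) j * (M * (x / j)) := by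
    ring
  rw [h8]
  have h9 : (rho a b (c : ℕ) j : ℝ) * (((x : ℝ) - x1) / j) = rho a b (c : ℕ) j / j * ((x : ℝ) - x1) := by ring
  linarith

theorem wnH (a : ℤ) (ha : 0 < a) (Λ : ℝ) (hΛ : 1 ≤ Λ) (e : ℝ) (he : 0 < e) : WNH a Λ e := by
  classical
  intro M hM
  obtain ⟨K2, hK2, H2⟩ := rw1
  have hMr : (1 : ℝ) ≤ M := by exact_mod_cast hM
  refine ⟨2 * (1 + M) * K2, by positivity, fun R η κ hη hη1 hκ hκ1 => ?_⟩
  obtain ⟨y1, H1⟩ := r2U a ha (η / 4) (e / 2) (by positivity) (by positivity)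
  obtain ⟨y2, H2⟩ := H2 η κ hη hη1 hκ hκ1
  obtain ⟨c0, A, hc0, hA, X0, hX0⟩ := range_bdU a ha Λ hΛ R
  have ev1 := Pool.Agent.N792.Lam.pow_ev ((M : ℝ) ^ (1 / 2 + e / 2)) (1 / 2 + e / 2) (1 / 2 + e) (by linarith)
  have ev2 := Pool.Agent.N792.Lam.pow_ev ((M : ℝ) ^ (η / 4)) (η / 4) (η / 2) (by linarith)
  obtain ⟨y3, H3⟩ := eventually_atTop.1 (ev1.and ev2)
  refine ⟨y1 + y2 + X0 + y3 + 2, fun x hx b hb x1 C z u hx1 hR hC hCx hz hu hux => ?_⟩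
  obtain ⟨f1, f2⟩ := H3 x (by omega)
  have hx2 : (1 : ℝ) ≤ x := by exact_mod_cast (by omega : 1 ≤ x)
  have hx0 : (0 : ℝ) ≤ x := by linarith
  have h2 := H2 x (by omega) z u hz hu hux
  obtain ⟨hb2, -, -⟩ := hX0 x (by omega) b hb x1 hx1 hR
  have hb1 : b.natAbs ≤ x1 := by omega
  set W := (Icc 1 (x ^ 2)).filter (fun j : ℕ => Rough z j ∧ Squarefree j ∧ u < j ∧ (j : ℝ) ≤ u * (x : ℝ) ^ κ) with hW
  have hup : ∀ j : ℕ, (j : ℝ) ≤ u * (x : ℝ) ^ κ → (j : ℝ) ≤ (x : ℝ) ^ (1 + 1 / 100 : ℝ) := fun j hj => hj.trans hux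
  have hmem : ∀ j : ℕ, Rough z j → Squarefree j → u < j → (j : ℝ) ≤ u * (x : ℝ) ^ κ → j ∈ W := by
    intro j hj1 hj2 hj3 hj4
    rw [hW, mem_filter, mem_Icc]
    refine ⟨⟨Nat.one_le_iff_ne_zero.2 hj1.1, ?_⟩, hj1, hj2, hj3, hj4⟩
    have h3 : (j : ℝ) ≤ (x : ℝ) ^ (2 : ℝ) := (hup j hj4).trans (Real.rpow_le_rpow_of_exponent_le hx2 (by norm_num))
    have h4 : (j : ℝ) ≤ ((x ^ 2 : ℕ) : ℝ) := by
      push_cast
      rw [← Real.rpow_natCast]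
      exact_mod_cast h3
    exact_mod_cast h4
  -- the average of the number of the roots
  have hXx : x ≤ M * x := Nat.le_mul_of_pos_left x (by omega)
  have g1 : (((M * x : ℕ) : ℝ)) ^ (1 / 2 + e / 2) ≤ C := by
    push_cast
    rw [Real.mul_rpow (by linarith) hx0]
    exact f1.trans hC
  have g2 : (((M * x : ℕ) : ℝ)) ^ (η / 4) ≤ z := by
    push_cast
    rw [Real.mul_rpow (by linarith) hx0]
    exact f2.trans hz
  have hrho : ∀ j : ℕ, j ≤ M * x → Rough z j → Squarefree j → ∑ c ∈ Icc 1 C, (rho a b (c : ℕ) j : ℝ) ≤ 2 * C :=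
    fun j hj1 hj2 hj3 => H1 (M * x) (by omega) b C z j g1 (hCx.trans hXx) g2 hj1 hj2 hj3
  calc ∑ c ∈ Icc 1 C, (#((Ioc x1 x).filter (fun n => ∃ j : ℕ, Rough z j ∧ Squarefree j ∧ u < j ∧
        (j : ℝ) ≤ u * (x : ℝ) ^ κ ∧ j ≤ M * x ∧ j ∣ Fn a b n + c)) : ℝ)
      ≤ ∑ c ∈ Icc 1 C, ∑ j ∈ W.filter (fun j => j ≤ M * x), (#((Ioc x1 x).filter (fun n => j ∣ Fn a b n + c)) : ℝ) := by
        refine sum_le_sum fun c _ => ?_
        have h3 : (Ioc x1 x).filter (fun n => ∃ j : ℕ, Rough z j ∧ Squarefree j ∧ u < j ∧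
            (j : ℝ) ≤ u * (x : ℝ) ^ κ ∧ j ≤ M * x ∧ j ∣ Fn a b n + c) ⊆
            (W.filter (fun j => j ≤ M * x)).biUnion (fun j => (Ioc x1 x).filter (fun n => j ∣ Fn a b n + c)) := by
          intro n hn
          rw [mem_filter] at hn
          obtain ⟨hn1, j, hj1, hj2, hj3, hj4, hj5, hj6⟩ := hn
          rw [mem_biUnion]
          exact ⟨j, mem_filter.2 ⟨hmem j hj1 hj2 hj3 hj4, hj5⟩, mem_filter.2 ⟨hn1, hj6⟩⟩
        exact_mod_cast (card_le_card h3).trans card_biUnion_le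
    _ = ∑ j ∈ W.filter (fun j => j ≤ M * x), ∑ c ∈ Icc 1 C, (#((Ioc x1 x).filter (fun n => j ∣ Fn a b n + c)) : ℝ) := sum_comm
    _ ≤ ∑ j ∈ W.filter (fun j => j ≤ M * x), 2 * (1 + M) * (C * x) * (1 / (j : ℝ)) := by
        refine sum_le_sum fun j hj => ?_
        rw [mem_filter, hW, mem_filter, mem_Icc] at hj
        have k1 := hrho j hj.2 hj.1.2.1 hj.1.2.2.1
        have hj0 : (0 : ℝ) < j := by exact_mod_cast hj.1.1.1
        calc ∑ c ∈ Icc 1 C, (#((Ioc x1 x).filter (fun n => j ∣ Fn a b n + c)) : ℝ)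
            ≤ ∑ c ∈ Icc 1 C, (rho a b (c : ℕ) j : ℝ) * ((1 + M) * (x / j)) :=
              sum_le_sum fun c _ => cnt_le a ha b x1 x c j M hb1 hx1 hj.1.1.1 hj.2
          _ = (∑ c ∈ Icc 1 C, (rho a b (c : ℕ) j : ℝ)) * ((1 + M) * (x / j)) := by rw [sum_mul]
          _ ≤ (2 * C) * ((1 + M) * (x / j)) := mul_le_mul_of_nonneg_right k1 (by positivity)
          _ = 2 * (1 + M) * (C * x) * (1 / (j : ℝ)) := by ring
    _ ≤ ∑ j ∈ W, 2 * (1 + M) * (C * x) * (1 / (j : ℝ)) :=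
        sum_le_sum_of_subset_of_nonneg (filter_subset _ _) fun j _ _ => by positivity
    _ = 2 * (1 + M) * (C * x) * ∑ j ∈ W, 1 / (j : ℝ) := by rw [mul_sum]
    _ ≤ 2 * (1 + M) * (C * x) * (K2 * (κ / η ^ 2)) := mul_le_mul_of_nonneg_left h2 (by positivity)
    _ = 2 * (1 + M) * K2 * (κ / η ^ 2) * (C * x) := by ring

end Pool.Agent.H568
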