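import Mathlib

/-!
The weighted type I function and the function of Liouville at the integers without divisors in `(s, Y]`, `N ≤ Y²`:
the combinatorial core.
-/

set_option autoImplicit false

namespace Pool.Agent.H568

open Finset

/-- the weight of a prime -/
noncomputable def wG (big : ℕ → Prop) [DecidablePred big] (p : ℕ) : ℝ := if big p then -1 / 2 else -2

/-- the term of a set of primes -/
noncomputable def tG (big : ℕ → Prop) [DecidablePred big] (s : ℕ) (T : Finset ℕ) : ℝ :=
  if ∏ p ∈ T, p ≤ s then ∏ p ∈ T, wG big p else 0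

section Core

variable {P : Finset ℕ} {s Y : ℕ}

lemma comp_le (hP : ∀ p ∈ P, p.Prime) (hgap : ∀ T ⊆ P, s < ∏ p ∈ T, p → Y < ∏ p ∈ T, p) (hNY : ∏ p ∈ P, p ≤ Y * Y)
    {T : Finset ℕ} (hT : T ⊆ P) (h : s < ∏ p ∈ T, p) : ∏ p ∈ P \ T, p ≤ s := by
  by_contra hcon
  push Not at hcon
  have h1 := hgap T hT h
  have h2 := hgap (P \ T) sdiff_subset hcon
  have h3 : ∏ p ∈ P, p = (∏ p ∈ P \ T, p) * ∏ p ∈ T, p := (prod_sdiff hT).symm
  have h4 : Y * Y < (∏ p ∈ P \ T, p) * ∏ p ∈ T, p := Nat.mul_lt_mul'' h2 h1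
  omega

lemma step_le (hP : ∀ p ∈ P, p.Prime) (hgap : ∀ T ⊆ P, s < ∏ p ∈ T, p → Y < ∏ p ∈ T, p) (hNY : ∏ p ∈ P, p ≤ Y * Y)
    {T : Finset ℕ} {q : ℕ} (hT : T ⊆ P) (hq : q ∈ P) (hqT : q ∉ T) (hqs : s ^ 2 * q < ∏ p ∈ P, p)
    (h : ∏ p ∈ T, p ≤ s) : ∏ p ∈ insert q T, p ≤ s := by
  by_contra hcon
  push Not at hcon
  have h0 : insert q T ⊆ P := insert_subset hq hT
  have h1 := comp_le hP hgap hNY h0 hcon
  have h3 : ∏ p ∈ P, p = (∏ p ∈ P \ insert q T, p) * ∏ p ∈ insert q T, p := (prod_sdiff h0).symm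
  rw [prod_insert hqT] at h3
  have h4 : (∏ p ∈ P \ insert q T, p) * (q * ∏ p ∈ T, p) ≤ s * (q * s) :=
    Nat.mul_le_mul h1 (Nat.mul_le_mul_left _ h)
  have h5 : s * (q * s) = s ^ 2 * q := by ring
  omega

/-- the small primes do not matter -/
lemma sum_small (hP : ∀ p ∈ P, p.Prime) (hgap : ∀ T ⊆ P, s < ∏ p ∈ T, p → Y < ∏ p ∈ T, p) (hNY : ∏ p ∈ P, p ≤ Y * Y)
    (big : ℕ → Prop) [DecidablePred big] (h1 : ∀ p ∈ P, s ^ 2 * p < ∏ p ∈ P, p → ¬ big p) (L : Finset ℕ) (hL : L ⊆ P) :
    ∀ B : Finset ℕ, B ⊆ P → (∀ p ∈ B, s ^ 2 * p < ∏ p ∈ P, p) → Disjoint L B →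
      ∑ T ∈ (L ∪ B).powerset, tG big s T = (-1) ^ #B * ∑ T ∈ L.powerset, tG big s T := by
  intro B
  induction B using Finset.induction_on with
  | empty =>
    intro _ _ _
    rw [union_empty, card_empty, pow_zero, one_mul]
  | insert q B hq ih =>
    intro hB hBs hd
    have hqP : q ∈ P := hB (mem_insert_self _ _)
    have hqs := hBs q (mem_insert_self _ _)
    have hqL : q ∉ L := fun h => disjoint_left.1 hd h (mem_insert_self _ _)
    have hqLB : q ∉ L ∪ B := by rw [mem_union]; tauto
    have ih' := ih (fun p hp => hB (mem_insert_of_mem hp)) (fun p hp => hBs p (mem_insert_of_mem hp))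
      (hd.mono_right (subset_insert _ _))
    rw [union_insert, sum_powerset_insert hqLB, card_insert_of_notMem hq, pow_succ]
    have e1 : ∀ T ∈ (L ∪ B).powerset, tG big s (insert q T) = -2 * tG big s T := by
      intro T hT
      rw [mem_powerset] at hT
      have hqT : q ∉ T := fun h => hqLB (hT h)
      have hTP : T ⊆ P := hT.trans (union_subset hL fun p hp => hB (mem_insert_of_mem hp))
      have hq2 : wG big q = -2 := by
        unfold wG
        rw [if_neg (h1 q hqP hqs)]
      unfold tG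
      by_cases h : ∏ p ∈ T, p ≤ s
      · rw [if_pos h, if_pos (step_le hP hgap hNY hTP hqP hqT hqs h), prod_insert hqT, hq2]
      · rw [if_neg h, if_neg, mul_zero]
        intro h'
        apply h
        rw [prod_insert hqT] at h'
        have h3 : 1 * ∏ p ∈ T, p ≤ q * ∏ p ∈ T, p := Nat.mul_le_mul_right _ (hP q hqP).pos
        omega
    rw [sum_congr rfl e1, ← mul_sum, ih']
    ring

end Core

/-- the combinatorial core -/
theorem core_G (P : Finset ℕ) (s Y : ℕ) (hP : ∀ p ∈ P, p.Prime) (hs : 1 ≤ s)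
    (hgap : ∀ T ⊆ P, s < ∏ p ∈ T, p → Y < ∏ p ∈ T, p) (hNY : ∏ p ∈ P, p ≤ Y * Y) (hN5 : s ^ 5 < (∏ p ∈ P, p) ^ 2)
    (big : ℕ → Prop) [DecidablePred big] (h1 : ∀ p ∈ P, s ^ 2 * p < ∏ p ∈ P, p → ¬ big p)
    (h2 : ∀ p ∈ P, ∀ q ∈ P, p ≠ q → ∏ p ∈ P, p ≤ s * (p * q) → big p ∨ big q) :
    |(-1) ^ #P + ∑ T ∈ P.powerset, tG big s T| ≤ 3 / 2 * #(P.filter (fun p => p ≤ s ∧ big p)) := by
  obtain ⟨N, hN⟩ : ∃ N : ℕ, N = ∏ p ∈ P, p := ⟨_, rfl⟩
  have hcomp : ∀ T ⊆ P, s < ∏ p ∈ T, p → ∏ p ∈ P \ T, p ≤ s := fun T hT h => comp_le hP hgap hNY hT h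
  have hsplit : ∀ T ⊆ P, (∏ p ∈ P \ T, p) * ∏ p ∈ T, p = N := fun T hT => by rw [hN]; exact prod_sdiff hT
  have hpos : ∀ T ⊆ P, 0 < ∏ p ∈ T, p := fun T hT => prod_pos fun p hp => (hP p (hT hp)).pos
  have hN2 : s * s < N := by
    by_contra hcon
    push Not at hcon
    have h3 : N ^ 2 ≤ (s * s) ^ 2 := Nat.pow_le_pow_left hcon 2
    have h4 : (s * s) ^ 2 ≤ s ^ 5 := by
      have : (s * s) ^ 2 = s ^ 4 := by ring
      rw [this]
      exact Nat.pow_le_pow_right hs (by norm_num)
    rw [← hN] at hN5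
    omega
  obtain ⟨L, hL⟩ : ∃ L : Finset ℕ, L = P.filter (fun p => ¬ s ^ 2 * p < N) := ⟨_, rfl⟩
  obtain ⟨B, hB⟩ : ∃ B : Finset ℕ, B = P.filter (fun p => s ^ 2 * p < N) := ⟨_, rfl⟩
  have hLP : L ⊆ P := by rw [hL]; exact filter_subset _ _
  have hBP : B ⊆ P := by rw [hB]; exact filter_subset _ _
  have hLB : Disjoint L B := by
    rw [hL, hB]
    exact (disjoint_filter_filter_not _ _ _).symm
  have hU : L ∪ B = P := by
    rw [hL, hB, union_comm]
    exact filter_union_filter_not_eq _ _
  have hLm : ∀ p ∈ L, p ∈ P ∧ N ≤ s ^ 2 * p := by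
    intro p hp
    rw [hL, mem_filter] at hp
    exact ⟨hp.1, not_lt.1 hp.2⟩
  have hsum : ∑ T ∈ P.powerset, tG big s T = (-1) ^ #B * ∑ T ∈ L.powerset, tG big s T := by
    have h3 := sum_small hP hgap hNY big h1 L hLP B hBP (fun p hp => by
      rw [hB, mem_filter] at hp
      rw [← hN]
      exact hp.2) hLB
    rw [hU] at h3
    exact h3
  have hcard : #P = #L + #B := by rw [← hU, card_union_of_disjoint hLB]
  -- the small primes can be added
  have hadd : ∀ T ⊆ L, ∏ p ∈ T, p ≤ s → (∏ p ∈ T, p) * ∏ p ∈ B, p ≤ s := by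
    intro T hT hTs
    have h3 : ∀ B' : Finset ℕ, B' ⊆ B → ∏ p ∈ T ∪ B', p ≤ s := by
      intro B'
      induction B' using Finset.induction_on with
      | empty =>
        intro _
        rw [union_empty]
        exact hTs
      | insert q B' hq ih =>
        intro hB'
        have hqB : q ∈ B := hB' (mem_insert_self _ _)
        have hB'' : B' ⊆ B := fun p hp => hB' (mem_insert_of_mem hp)
        rw [union_insert]
        refine step_le hP hgap hNY (union_subset (hT.trans hLP) (hB''.trans hBP)) (hBP hqB) ?_ ?_ (ih hB'')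
        · rw [mem_union]
          rintro (h | h)
          · exact disjoint_left.1 hLB (hT h) hqB
          · exact hq h
        · rw [hB, mem_filter] at hqB
          rw [← hN]
          exact hqB.2
    have h4 := h3 B subset_rfl
    rwa [prod_union (hLB.mono_left hT)] at h4
  have hNLB : (∏ p ∈ L, p) * ∏ p ∈ B, p = N := by
    rw [← prod_union hLB, hU, hN]
  -- two large primes
  have hpair : ∀ p ∈ L, ∀ q ∈ L, s < p * q := by
    intro p hp q hq
    by_contra hcon
    push Not at hcon
    have h3 := (hLm p hp).2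
    have h4 := (hLm q hq).2
    have h5 : N * N ≤ (s ^ 2 * p) * (s ^ 2 * q) := Nat.mul_le_mul h3 h4
    have h6 : (s ^ 2 * p) * (s ^ 2 * q) = s ^ 4 * (p * q) := by ring
    have h7 : s ^ 4 * (p * q) ≤ s ^ 4 * s := Nat.mul_le_mul_left _ hcon
    have h8 : s ^ 4 * s = s ^ 5 := by ring
    have h9 : N ^ 2 = N * N := by ring
    rw [← hN] at hN5
    omega
  have hbigp : ∀ p ∈ L, ∀ q ∈ L, p ≠ q → Y < p * q ∧ (big p ∨ big q) := by
    intro p hp q hq hpq
    have hsub : ({p, q} : Finset ℕ) ⊆ P := by
      intro r hr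
      rw [mem_insert, mem_singleton] at hr
      rcases hr with rfl | rfl
      · exact (hLm _ hp).1
      · exact (hLm _ hq).1
    have h3 : s < ∏ r ∈ ({p, q} : Finset ℕ), r := by
      rw [prod_pair hpq]
      exact hpair p hp q hq
    have h4 := hgap _ hsub h3
    have h5 := hcomp _ hsub h3
    have h6 := hsplit _ hsub
    rw [prod_pair hpq] at h4 h6
    refine ⟨h4, h2 p (hLm p hp).1 q (hLm q hq).1 hpq ?_⟩
    rw [← hN, ← h6]
    exact Nat.mul_le_mul_right _ h5
  have hsub1 : ∀ p ∈ L, s < p → Y < p := by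
    intro p hp h
    have h3 := hgap {p} (singleton_subset_iff.2 (hLm p hp).1) (by rw [prod_singleton]; exact h)
    rwa [prod_singleton] at h3
  have hLN : ∀ T ⊆ L, ∏ p ∈ T, p ≤ N := by
    intro T hT
    have h3 := hsplit T (hT.trans hLP)
    have h4 := hpos (P \ T) sdiff_subset
    rw [← h3]
    exact Nat.le_mul_of_pos_left _ h4
  have hNY' : N ≤ Y * Y := by rw [hN]; exact hNY
  -- at most three large primes
  have hL3 : #L ≤ 3 := by
    by_contra hcon
    push Not at hcon
    obtain ⟨T, hT, hT4⟩ := exists_subset_card_eq (show 4 ≤ #L by omega)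
    obtain ⟨q, hq⟩ := card_pos.1 (by omega : 0 < #T)
    have h3 : #(T.erase q) = 3 := by rw [card_erase_of_mem hq, hT4]
    obtain ⟨a, b, c, hab, hac, hbc, he⟩ := card_eq_three.1 h3
    have hT' : T = insert q {a, b, c} := by rw [← he, insert_erase hq]
    have hqn : q ∉ ({a, b, c} : Finset ℕ) := by rw [← he]; exact notMem_erase _ _
    have ha : a ∈ T := by rw [hT']; simp
    have hb : b ∈ T := by rw [hT']; simp
    have hc : c ∈ T := by rw [hT']; simp
    have hqa : q ≠ a := by
      rintro rfl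
      exact hqn (by simp)
    have h5 := (hbigp q (hT hq) a (hT ha) hqa).1
    have h6 := (hbigp b (hT hb) c (hT hc) hbc).1
    have h7 := hLN T hT
    rw [hT', prod_insert hqn, prod_insert (by simp [hab, hac]), prod_pair hbc] at h7
    have h8 : Y * Y < (q * a) * (b * c) := Nat.mul_lt_mul'' h5 h6
    have h9 : (q * a) * (b * c) = q * (a * (b * c)) := by ring
    omega
  -- the absolute value
  have hfin : |(-1 : ℝ) ^ #P + ∑ T ∈ P.powerset, tG big s T| = |(-1) ^ #L + ∑ T ∈ L.powerset, tG big s T| := by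
    rw [hsum, hcard, pow_add, mul_comm ((-1 : ℝ) ^ #L), ← mul_add, abs_mul, abs_pow, abs_neg, abs_one, one_pow, one_mul]
  rw [hfin]
  have hfl : (#(L.filter (fun p => p ≤ s ∧ big p)) : ℝ) ≤ #(P.filter (fun p => p ≤ s ∧ big p)) := by
    exact_mod_cast card_le_card (filter_subset_filter _ hLP)
  refine le_trans ?_ (mul_le_mul_of_nonneg_left hfl (by norm_num))
  have htE : tG big s ∅ = 1 := by
    unfold tG
    rw [prod_empty, prod_empty, if_pos hs]
  have ht1 : ∀ p, tG big s {p} = if p ≤ s then wG big p else 0 := by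
    intro p
    unfold tG
    rw [prod_singleton, prod_singleton]
  have ht2 : ∀ p q, p ≠ q → s < p * q → tG big s {p, q} = 0 := by
    intro p q hpq h
    unfold tG
    rw [prod_pair hpq, if_neg (by omega)]
  -- the number of the large primes
  rcases Nat.lt_or_ge (#L) 1 with h0 | h0
  · exfalso
    have hL0 : L = ∅ := card_eq_zero.1 (by omega)
    have h3 := hadd ∅ (empty_subset _) (by rw [prod_empty]; exact hs)
    rw [hL0] at hNLB
    rw [hNLB] at h3
    have : s * 1 ≤ s * s := Nat.mul_le_mul_left _ hs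
    omega
  rcases Nat.lt_or_ge (#L) 2 with h4 | h4
  · obtain ⟨q, hq⟩ := card_eq_one.1 (by omega : #L = 1)
    have hqL : q ∈ L := by rw [hq]; exact mem_singleton_self _
    have hqs : s < q := by
      by_contra hcon
      push Not at hcon
      have h3 := hadd {q} (by rw [hq]) (by rw [prod_singleton]; exact hcon)
      rw [← hq, hNLB] at h3
      have : s * 1 ≤ s * s := Nat.mul_le_mul_left _ hs
      omega
    have e1 : ∑ T ∈ L.powerset, tG big s T = 1 := by
      rw [hq, ← insert_empty_eq, sum_powerset_insert (notMem_empty _), powerset_empty, sum_singleton, sum_singleton, htE,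
        insert_empty_eq, ht1, if_neg (by omega), add_zero]
    have e2 : #L = 1 := by omega
    rw [e1, e2, pow_one, neg_add_cancel, abs_zero]
    positivity
  rcases Nat.lt_or_ge (#L) 3 with h5 | h5
  · obtain ⟨q, p, hqp, hq⟩ := card_eq_two.1 (by omega : #L = 2)
    have hqL : q ∈ L := by rw [hq]; simp
    have hpL : p ∈ L := by rw [hq]; simp
    -- one of them is large
    have key : ∀ q p : ℕ, q ≠ p → L = {q, p} → ¬ (q ≤ s ∧ p ≤ s) := by
      rintro q p hqp hq ⟨k1, k2⟩
      have h3 := hadd {q} (by rw [hq]; simp) (by rw [prod_singleton]; exact k1)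
      rw [prod_singleton] at h3
      rw [hq, prod_pair hqp] at hNLB
      have h6 : q * p * ∏ p ∈ B, p = p * (q * ∏ p ∈ B, p) := by ring
      have h7 : p * (q * ∏ p ∈ B, p) ≤ s * s := Nat.mul_le_mul k2 h3
      omega
    have key2 : ¬ (s < q ∧ s < p) := by
      rintro ⟨k1, k2⟩
      have h6 := hsub1 q hqL k1
      have h7 := hsub1 p hpL k2
      have h8 := hLN L subset_rfl
      rw [hq, prod_pair hqp] at h8
      have h9 : Y * Y < q * p := Nat.mul_lt_mul'' h6 h7
      omega
    have e2 : #L = 2 := by omega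
    have e1 : ∑ T ∈ L.powerset, tG big s T = 1 + tG big s {p} + tG big s {q} := by
      rw [hq, sum_powerset_insert (by simpa using hqp), ← insert_empty_eq p, sum_powerset_insert (notMem_empty _),
        sum_powerset_insert (notMem_empty _), powerset_empty, sum_singleton, sum_singleton, sum_singleton, sum_singleton, htE]
      rw [insert_empty_eq, insert_empty_eq, ht2 q p hqp (hpair q hqL p hpL), add_zero]
    -- the case of one small and one large
    have key3 : ∀ q p : ℕ, q ≠ p → L = {q, p} → s < q → p ≤ s →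
        |(1 : ℝ) + (1 + (if p ≤ s then wG big p else 0) + (if q ≤ s then wG big q else 0))| ≤
          3 / 2 * #(L.filter (fun p => p ≤ s ∧ big p)) := by
      intro q p hqp hq k1 k2
      rw [if_pos k2, if_neg (by omega), add_zero]
      unfold wG
      by_cases hb : big p
      · rw [if_pos hb]
        have h6 : 1 ≤ #(L.filter (fun p => p ≤ s ∧ big p)) := card_pos.2 ⟨p, mem_filter.2 ⟨by rw [hq]; simp, k2, hb⟩⟩
        have h7 : (1 : ℝ) ≤ #(L.filter (fun p => p ≤ s ∧ big p)) := by exact_mod_cast h6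
        rw [show (1 : ℝ) + (1 + -1 / 2) = 3 / 2 by norm_num, abs_of_pos (by norm_num)]
        linarith
      · rw [if_neg hb]
        rw [show (1 : ℝ) + (1 + -2) = 0 by norm_num, abs_zero]
        positivity
    rw [e1, e2, ht1, ht1, show ((-1 : ℝ)) ^ 2 = 1 by norm_num]
    rcases Nat.lt_or_ge s q with k1 | k1
    · have k2 : p ≤ s := by
        by_contra hcon
        exact key2 ⟨k1, by omega⟩
      exact key3 q p hqp hq k1 k2
    · have k2 : s < p := by
        by_contra hcon
        exact key q p hqp hq ⟨k1, by omega⟩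
      have h8 := key3 p q hqp.symm (by rw [hq, pair_comm]) k2 k1
      rw [show (1 : ℝ) + (1 + (if p ≤ s then wG big p else 0) + (if q ≤ s then wG big q else 0)) =
        1 + (1 + (if q ≤ s then wG big q else 0) + (if p ≤ s then wG big p else 0)) by ring]
      exact h8
  · obtain ⟨a, b, c, hab, hac, hbc, hq⟩ := card_eq_three.1 (by omega : #L = 3)
    have haL : a ∈ L := by rw [hq]; simp
    have hbL : b ∈ L := by rw [hq]; simp
    have hcL : c ∈ L := by rw [hq]; simp
    have hprod : ∏ p ∈ L, p = a * (b * c) := by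
      rw [hq, prod_insert (by simp [hab, hac]), prod_pair hbc]
    have hall : ∀ p ∈ L, ∀ q ∈ L, ∀ r ∈ L, q ≠ r → ∏ p ∈ L, p = p * (q * r) → p ≤ s := by
      intro p hp q hqq r hr hqr he
      by_contra hcon
      push Not at hcon
      have h6 := hsub1 p hp hcon
      have h7 := (hbigp q hqq r hr hqr).1
      have h8 := hLN L subset_rfl
      have h9 : Y * Y < p * (q * r) := Nat.mul_lt_mul'' h6 h7
      omega
    have has : a ≤ s := hall a haL b hbL c hcL hbc hprod
    have hbs : b ≤ s := hall b hbL a haL c hcL hac (by rw [hprod]; ring)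
    have hcs : c ≤ s := hall c hcL a haL b hbL hab (by rw [hprod]; ring)
    have k1 := (hbigp a haL b hbL hab)
    have k2 := (hbigp a haL c hcL hac)
    have k3 := (hbigp b hbL c hcL hbc)
    have m1 := hpair a haL b hbL
    have m2 := hpair a haL c hcL
    have m3 := hpair b hbL c hcL
    have t3 : tG big s {a, b, c} = 0 := by
      unfold tG
      rw [← hq, hprod, if_neg]
      have : 1 * (b * c) ≤ a * (b * c) := Nat.mul_le_mul_right _ (hP a (hLm a haL).1).pos
      omega
    have e1 : ∑ T ∈ L.powerset, tG big s T = 1 + wG big a + wG big b + wG big c := by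
      rw [hq, sum_powerset_insert (by simp [hab, hac]), sum_powerset_insert (by simpa using hbc),
        sum_powerset_insert (by simpa using hbc), ← insert_empty_eq c, sum_powerset_insert (notMem_empty _),
        sum_powerset_insert (notMem_empty _), sum_powerset_insert (notMem_empty _), sum_powerset_insert (notMem_empty _),
        powerset_empty, sum_singleton, sum_singleton, sum_singleton, sum_singleton, sum_singleton, sum_singleton,
        sum_singleton, sum_singleton, htE]
      rw [insert_empty_eq, insert_empty_eq, insert_empty_eq, ht1, ht1, ht1, t3, ht2 b c hbc m3, ht2 a c hac m2,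
        ht2 a b hab m1, if_pos has, if_pos hbs, if_pos hcs]
      ring
    have e2 : #L = 3 := by omega
    have e3 : (#(L.filter (fun p => p ≤ s ∧ big p)) : ℝ) = (if big a then 1 else 0) + (if big b then 1 else 0) +
        (if big c then 1 else 0) := by
      have h6 : L.filter (fun p => p ≤ s ∧ big p) = L.filter big := by
        refine filter_congr fun p hp => ?_
        rw [hq, mem_insert, mem_insert, mem_singleton] at hp
        constructor
        · exact fun h => h.2
        · intro h
          refine ⟨?_, h⟩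
          rcases hp with rfl | rfl | rfl
          · exact has
          · exact hbs
          · exact hcs
      rw [h6, card_filter, hq, sum_insert (by simp [hab, hac]), sum_pair hbc]
      push_cast
      ring
    rw [e1, e2, e3, show ((-1 : ℝ)) ^ 3 = -1 by norm_num]
    have c1 := k1.2
    have c2 := k2.2
    have c3 := k3.2
    unfold wG
    by_cases g1 : big a <;> by_cases g2 : big b <;> by_cases g3 : big c <;>
      simp only [g1, g2, g3, if_true, if_false, or_self, or_true, true_or, or_false, false_or] at c1 c2 c3 ⊢ <;>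
      norm_num [abs_of_nonneg, abs_of_neg]

end Pool.Agent.H568
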