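import Mathlib
import Pool.Agent.H568.Qb5
import Pool.Graph.R_pool_sql_team_seeded_63374d34.N792.CH.CB
import Pool.Graph.R_pool_sql_team_seeded_63374d34.N792.CH.T2

/-!
The weighted type I function, the function of the pattern, and the function of Liouville (after `CB.lean` of the
project CH of helper792).
-/

set_option autoImplicit false

namespace Pool.Agent.H568

open Finset
open Pool.Agent.N792 (Rough)
open Pool.Agent.N791.C2 (lam)
open Pool.Agent.N792.CH

/-- the weight of a cell -/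
noncomputable def gc (c1 b : ℕ) : ℝ := if c1 ≤ b then -1 / 2 else -2

lemma gc_abs (c1 b : ℕ) : |gc c1 b| ≤ 2 := by
  unfold gc
  split_ifs
  · rw [abs_of_neg (by norm_num)]; norm_num
  · rw [abs_of_neg (by norm_num)]; norm_num

lemma prod_gc_abs (c1 : ℕ) (S : Finset ℕ) (f : ℕ → ℕ) : |∏ p ∈ S, gc c1 (f p)| ≤ 2 ^ #S := by
  rw [abs_prod]
  calc ∏ p ∈ S, |gc c1 (f p)| ≤ ∏ _p ∈ S, (2 : ℝ) := prod_le_prod (fun _ _ => abs_nonneg _) fun p _ => gc_abs _ _
    _ = 2 ^ #S := by rw [prod_const]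

/-- the weighted type I function -/
noncomputable def TiG (κ : ℝ) (x c1 s N : ℕ) : ℝ :=
  -∑ j ∈ N.divisors.filter (fun j => j ≤ s), ∏ p ∈ j.primeFactors, gc c1 (cell κ x p)

open Classical in
/-- the function of the pattern -/
noncomputable def PhiB (κ σ0 σ1 : ℝ) (c1 : ℕ) (π : Multiset ℕ) : ℝ :=
  if ∃ B ≤ π, σ0 < κ * (B.sum : ℕ) ∧ κ * (B.sum : ℕ) ≤ σ1 then
    (-1) ^ (Multiset.card π) +
      ((π.powerset.filter (fun B : Multiset ℕ => κ * (B.sum : ℕ) ≤ σ0)).map (fun B => (B.map (gc c1)).prod)).sum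
  else 0

lemma ms_prod_abs (c1 : ℕ) (B : Multiset ℕ) : |(B.map (gc c1)).prod| ≤ 2 ^ Multiset.card B := by
  induction B using Multiset.induction_on with
  | empty => simp
  | cons b B ih =>
    rw [Multiset.map_cons, Multiset.prod_cons, Multiset.card_cons, abs_mul, pow_succ, mul_comm]
    exact mul_le_mul ih (gc_abs _ _) (abs_nonneg _) (by positivity)

open Classical in
lemma PhiB_le (κ σ0 σ1 : ℝ) (c1 : ℕ) (π : Multiset ℕ) :
    |PhiB κ σ0 σ1 c1 π| ≤ 1 + 4 ^ Multiset.card π := by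
  unfold PhiB
  split_ifs with h
  · refine (abs_add_le _ _).trans ?_
    have h1 : |(-1 : ℝ) ^ Multiset.card π| = 1 := by rw [abs_pow, abs_neg, abs_one, one_pow]
    rw [h1]
    refine add_le_add le_rfl ?_
    have h2 : ∀ T : Multiset (Multiset ℕ), (∀ B ∈ T, Multiset.card B ≤ Multiset.card π) →
        |(T.map (fun B => (B.map (gc c1)).prod)).sum| ≤ Multiset.card T * 2 ^ Multiset.card π := by
      intro T
      induction T using Multiset.induction_on with
      | empty => simp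
      | cons B T ih =>
        intro hT
        rw [Multiset.map_cons, Multiset.sum_cons, Multiset.card_cons]
        refine (abs_add_le _ _).trans ?_
        have h3 := ih fun B hB => hT B (Multiset.mem_cons_of_mem hB)
        have h4 : |(B.map (gc c1)).prod| ≤ 2 ^ Multiset.card π :=
          (ms_prod_abs c1 B).trans (pow_le_pow_right₀ (by norm_num) (hT B (Multiset.mem_cons_self _ _)))
        push_cast
        linarith
    refine (h2 _ ?_).trans ?_
    · intro B hB
      rw [Multiset.mem_filter, Multiset.mem_powerset] at hB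
      exact Multiset.card_le_card hB.1
    · have h3 : (Multiset.card (π.powerset.filter (fun B : Multiset ℕ => κ * (B.sum : ℕ) ≤ σ0)) : ℝ) ≤
          2 ^ Multiset.card π := by
        have h4 := Multiset.card_le_card
          (Multiset.filter_le (fun B : Multiset ℕ => κ * (B.sum : ℕ) ≤ σ0) π.powerset)
        rw [Multiset.card_powerset] at h4
        exact_mod_cast h4
      have h5 : (4 : ℝ) ^ Multiset.card π = 2 ^ Multiset.card π * 2 ^ Multiset.card π := by
        rw [← mul_pow]; norm_num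
      rw [h5]
      exact mul_le_mul_of_nonneg_right h3 (by positivity)
  · rw [abs_zero]
    positivity

lemma PhiB_ne (κ σ0 σ1 : ℝ) (c1 : ℕ) (π : Multiset ℕ) (h : PhiB κ σ0 σ1 c1 π ≠ 0) :
    ∃ B ≤ π, σ0 < κ * (B.sum : ℕ) ∧ κ * (B.sum : ℕ) ≤ σ1 := by
  by_contra hcon
  apply h
  unfold PhiB
  rw [if_neg hcon]

theorem cbH (κ κ' ε η : ℝ) (N s x z Y c1 : ℕ) (hκ : 0 < κ) (hη : 0 < η) (hx : 2 ≤ x) (hs : 1 ≤ s)
    (hN : Squarefree N) (hR : Rough z N) (hz : (x : ℝ) ^ (η / 2) ≤ z) (hNx : N ≤ x ^ 3) (hκ' : κ * (6 / η) ≤ κ')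
    (hw1 : ∀ j : ℕ, j ∣ N → ¬ ((s : ℝ) < j ∧ (j : ℝ) ≤ s * (x : ℝ) ^ κ'))
    (hw2 : ∀ j : ℕ, j ∣ N → ¬ ((x : ℝ) ^ (1 - ε) < j ∧ j ≤ Y)) (hNY : N ≤ Y * Y) (hN5 : s ^ 5 < N ^ 2)
    (h1 : ∀ p : ℕ, p.Prime → p ∣ N → s ^ 2 * p < N → cell κ x p < c1)
    (h2 : ∀ p q : ℕ, p.Prime → q.Prime → p ∣ N → q ∣ N → N ≤ s * (p * q) → c1 ≤ cell κ x p ∨ c1 ≤ cell κ x q) :
    |lam N - TiG κ x c1 s N - PhiB κ (Real.log s / Real.log x) (1 - ε) c1 (pat κ x N)| ≤
      3 / 2 * #(N.primeFactors.filter (fun p => p ≤ s ∧ c1 ≤ cell κ x p)) := by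
  classical
  have hx0 : (0 : ℝ) < x := by exact_mod_cast (by omega : 0 < x)
  have hL : 0 < Real.log x := Real.log_pos (by exact_mod_cast hx)
  have hN0 : 0 < N := Nat.pos_of_ne_zero hR.1
  have hs0 : (0 : ℝ) < s := by exact_mod_cast hs
  set σ0 : ℝ := Real.log s / Real.log x with hσ0
  have hdvd : ∀ T ⊆ N.primeFactors, (∏ p ∈ T, p) ∣ N := by
    intro T hT
    conv_rhs => rw [← Nat.prod_primeFactors_of_squarefree hN]
    exact Finset.prod_dvd_prod_of_subset _ _ _ hT
  have hpr : ∀ T ⊆ N.primeFactors, ∀ p ∈ T, p.Prime := fun T hT p hp =>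
    Nat.prime_of_mem_primeFactors (hT hp)
  -- the condition in terms of patterns
  have hc1 : ∀ T ⊆ N.primeFactors, (∏ p ∈ T, p ≤ s ↔
      κ * ((T.val.map (cell κ x)).sum : ℕ) ≤ σ0) := by
    intro T hT
    obtain ⟨h1, h2⟩ := CBx.cell_bounds κ x hκ hx T (hpr T hT)
    have h3 := CBx.card_bound η x z N hη hx hR hz hNx T hT
    have hpos : 0 < ∏ p ∈ T, p := Nat.pos_of_dvd_of_pos (hdvd T hT) hN0
    have hpos' : (0 : ℝ) < ((∏ p ∈ T, p : ℕ) : ℝ) := by exact_mod_cast hpos
    constructor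
    · intro h
      refine le_trans (show _ from h1) ?_
      rw [hσ0]
      refine div_le_div_of_nonneg_right ?_ hL.le
      exact Real.log_le_log hpos' (by exact_mod_cast h)
    · intro h
      by_contra hcon
      push Not at hcon
      have h4 := hw1 _ (hdvd T hT)
      push Not at h4
      have h5 := h4 (by exact_mod_cast hcon)
      have h6 : Real.log s + κ' * Real.log x < Real.log ((∏ p ∈ T, p : ℕ) : ℝ) := by
        rw [← Real.log_rpow hx0, ← Real.log_mul hs0.ne' (Real.rpow_pos_of_pos hx0 _).ne']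
        exact Real.log_lt_log (mul_pos hs0 (Real.rpow_pos_of_pos hx0 _)) h5
      have h7 : κ * (#T : ℝ) ≤ κ' := (mul_le_mul_of_nonneg_left h3 hκ.le).trans hκ'
      have h8 : σ0 + κ' < Real.log ((∏ p ∈ T, p : ℕ) : ℝ) / Real.log x := by
        rw [hσ0, lt_div_iff₀ hL, add_mul, div_mul_cancel₀ _ hL.ne']
        exact h6
      have h9 : κ * ((∑ p ∈ T, cell κ x p : ℕ) : ℝ) ≤ σ0 := h
      linarith
  have hTi : TiG κ x c1 s N = -∑ T ∈ N.primeFactors.powerset,
      if (∏ p ∈ T, p) ≤ s then ∏ p ∈ T, gc c1 (cell κ x p) else 0 := by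
    unfold TiG
    rw [Finset.sum_filter, CBx.sum_div N hN]
    congr 1
    refine Finset.sum_congr rfl fun T hT => ?_
    have hT' := Finset.mem_powerset.mp hT
    rw [Nat.primeFactors_prod (hpr T hT')]
  by_cases hB : ∃ B ≤ pat κ x N, σ0 < κ * (B.sum : ℕ) ∧ κ * (B.sum : ℕ) ≤ 1 - ε
  · have h1 : PhiB κ σ0 (1 - ε) c1 (pat κ x N) = (-1) ^ (Multiset.card (pat κ x N)) +
        (((pat κ x N).powerset.filter (fun B : Multiset ℕ => κ * (B.sum : ℕ) ≤ σ0)).map
          (fun B => (B.map (gc c1)).prod)).sum := by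
      unfold PhiB
      rw [if_pos hB]
    have h2 : lam N - TiG κ x c1 s N - PhiB κ σ0 (1 - ε) c1 (pat κ x N) = 0 := by
      rw [h1, CBx.ms_filter, pat, CBx.ms_sum, hTi, CBx.lam_sf N hN, Multiset.card_map]
      have h3 : ∑ T ∈ N.primeFactors.powerset, (if (∏ p ∈ T, p) ≤ s then ∏ p ∈ T, gc c1 (cell κ x p) else 0) =
          ∑ T ∈ N.primeFactors.powerset, (if κ * ((T.val.map (cell κ x)).sum : ℕ) ≤ σ0 then
            ((T.val.map (cell κ x)).map (gc c1)).prod else 0) := by
        refine Finset.sum_congr rfl fun T hT => ?_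
        have hT' := Finset.mem_powerset.mp hT
        rw [Multiset.map_map]
        by_cases h : ∏ p ∈ T, p ≤ s
        · rw [if_pos h, if_pos ((hc1 T hT').mp h)]
          rfl
        · rw [if_neg h, if_neg (fun h' => h ((hc1 T hT').mpr h'))]
      rw [h3]
      simp only [Finset.card_val]
      ring
    rw [h2, abs_zero]
    positivity
  · have h0 : PhiB κ σ0 (1 - ε) c1 (pat κ x N) = 0 := by
      unfold PhiB
      rw [if_neg hB]
    rw [h0, sub_zero]
    have hgap : ∀ T ⊆ N.primeFactors, s < ∏ p ∈ T, p → Y < ∏ p ∈ T, p := by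
      intro T hT hsT
      by_contra hcon
      push Not at hcon
      have h1 : ((∏ p ∈ T, p : ℕ) : ℝ) ≤ (x : ℝ) ^ (1 - ε) := by
        by_contra h'
        push Not at h'
        exact hw2 _ (hdvd T hT) ⟨h', hcon⟩
      apply hB
      refine ⟨T.val.map (cell κ x), Multiset.map_le_map (Finset.val_le_iff.mpr hT), ?_, ?_⟩
      · by_contra h'
        push Not at h'
        have h2 := (hc1 _ hT).mpr h'
        omega
      · have h2 := (CBx.cell_bounds κ x hκ hx T (hpr _ hT)).1
        refine le_trans (show _ from h2) ?_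
        rw [div_le_iff₀ hL, ← Real.log_rpow hx0]
        exact Real.log_le_log (by exact_mod_cast (by omega : 0 < ∏ p ∈ T, p)) h1
    have hprod : ∏ p ∈ N.primeFactors, p = N := Nat.prod_primeFactors_of_squarefree hN
    have hcore := core_G N.primeFactors s Y (fun p hp => Nat.prime_of_mem_primeFactors hp) hs hgap
      (by rw [hprod]; exact hNY) (by rw [hprod]; exact hN5) (fun p => c1 ≤ cell κ x p)
      (by
        intro p hp h
        rw [hprod] at h
        exact not_le.2 (h1 p (Nat.prime_of_mem_primeFactors hp) (Nat.dvd_of_mem_primeFactors hp) h))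
      (by
        intro p hp q hq _ h
        rw [hprod] at h
        exact h2 p q (Nat.prime_of_mem_primeFactors hp) (Nat.prime_of_mem_primeFactors hq)
          (Nat.dvd_of_mem_primeFactors hp) (Nat.dvd_of_mem_primeFactors hq) h)
    rw [CBx.lam_sf N hN, hTi, sub_neg_eq_add]
    refine le_trans (le_of_eq ?_) hcore
    congr 2

end Pool.Agent.H568
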