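import Mathlib
import Pool.Agent.H568.Qb2
import Pool.Agent.H568.Qb6
import Pool.Graph.R_pool_sql_team_seeded_63374d34.N792.CH.PW

/-!
The pointwise inequality for the function of Liouville at the good values (after `PW.lean` of the project CH of
helper792).
-/

set_option autoImplicit false

namespace Pool.Agent.H568

open Finset Filter Topology
open Pool.Agent.N792 (Rough)
open Pool.Agent.N791.C2 (lam)
open Pool.Agent.N792.CH

open Classical in
/-- the weighted type I part -/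
noncomputable def tIg (κ : ℝ) (x c1 w k s z : ℕ) (D : ℝ) (v : ℕ) : ℝ :=
  -∑ j ∈ (Icc 1 s).filter (fun j => Rough z j ∧ Squarefree j ∧ j ∣ v),
    (∏ p ∈ j.primeFactors, gc c1 (cell κ x p)) *
      (if ((rd w z v : ℕ) : ℝ) ≤ D then psi w k v * sg w z v else 0)

/-- the good values -/
def GoodH (w k s z x Y : ℕ) (κ' ε D : ℝ) (v : ℕ) : Prop :=
  ((rd w z v : ℕ) : ℝ) ≤ D ∧ (∀ p : ℕ, p.Prime → w < p → ¬ p ^ 2 ∣ v) ∧ (∀ p : ℕ, p.Prime → p ≤ w → ¬ p ^ k ∣ v) ∧
  (∀ j : ℕ, Rough z j → Squarefree j → j ∣ v → ¬ ((s : ℝ) < j ∧ (j : ℝ) ≤ s * (x : ℝ) ^ κ')) ∧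
  (∀ j : ℕ, Rough z j → Squarefree j → j ∣ v → ¬ ((x : ℝ) ^ (1 - ε) < j ∧ j ≤ Y))

open PWp in
theorem pwH (κ κ' ε η D : ℝ) (v w k s x z Y c1 : ℕ) (hκ : 0 < κ) (hη : 0 < η) (hD : 1 ≤ D) (hx : 2 ≤ x) (hs : 1 ≤ s)
    (hwz : w ≤ z) (hz : (x : ℝ) ^ (η / 2) ≤ z) (hv : 1 ≤ v) (hvx : v ≤ x ^ 3) (hκ' : κ * (6 / η) ≤ κ')
    (hG : GoodH w k s z x Y κ' ε D v) (hvY : v ≤ Y * Y) (hs5 : (s : ℝ) ^ 5 * (Pw w k * D) ^ 2 < (v : ℝ) ^ 2)
    (h1 : ∀ p : ℕ, p.Prime → p ∣ v → s ^ 2 * p < v → cell κ x p < c1)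
    (h2 : ∀ p q : ℕ, p.Prime → q.Prime → p ∣ v → q ∣ v → (v : ℝ) ≤ Pw w k * D * (s * (p * q)) →
      c1 ≤ cell κ x p ∨ c1 ≤ cell κ x q) :
    |lam v - tIg κ x c1 w k s z D v - tIIg (PhiB κ (Real.log s / Real.log x) (1 - ε) c1) κ x z v| ≤
      3 / 2 * #(v.primeFactors.filter (fun p => p ≤ s ∧ c1 ≤ cell κ x p)) := by
  classical
  obtain ⟨g1, g2, g3, g4, g5⟩ := hG
  have hv0 : v ≠ 0 := by omega
  set N := ro z v with hN
  have hsq : Squarefree N := sqf_ro hv0 hwz g2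
  have hro : Rough z N := rough_ro z v
  have hNv : N ≤ v := Nat.le_of_dvd (by omega) (ro_dvd hv0 z)
  have hNd : N ∣ v := ro_dvd hv0 z
  have hsm : sm z v = sm w v * rd w z v := sm_eq hv0 hwz g2
  have hlsm : lam (sm z v) = lam (sm w v) * sg w z v := by
    rw [hsm, lam_mul (sm_ne_zero _ _) (rd_ne_zero _ _ _), lam_rd]
  have hP : (0 : ℝ) < Pw w k := by
    have : 0 < Pw w k := by
      unfold Pw
      exact Finset.prod_pos fun p hp => pow_pos (Finset.mem_filter.mp hp).2.pos _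
    exact_mod_cast this
  have hvN : (v : ℝ) ≤ Pw w k * D * N := by
    have h2 : (v : ℝ) = (sm w v : ℝ) * (rd w z v : ℝ) * N := by
      rw [← Nat.cast_mul, ← Nat.cast_mul, ← hsm, hN, sm_mul_ro hv0]
    rw [h2]
    have h3 : (sm w v : ℝ) ≤ Pw w k := by exact_mod_cast sm_le_Pw hv0 g3
    gcongr
  have hN5 : s ^ 5 < N ^ 2 := by
    have h3 : (v : ℝ) ^ 2 ≤ (Pw w k * D * N) ^ 2 := pow_le_pow_left₀ (Nat.cast_nonneg _) hvN 2
    have h4 : (s : ℝ) ^ 5 * (Pw w k * D) ^ 2 < (N : ℝ) ^ 2 * (Pw w k * D) ^ 2 := by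
      calc (s : ℝ) ^ 5 * (Pw w k * D) ^ 2 < (v : ℝ) ^ 2 := hs5
        _ ≤ (Pw w k * D * N) ^ 2 := h3
        _ = (N : ℝ) ^ 2 * (Pw w k * D) ^ 2 := by ring
    have h5 : (s : ℝ) ^ 5 < (N : ℝ) ^ 2 := lt_of_mul_lt_mul_right h4 (by positivity)
    exact_mod_cast h5
  have hcb := cbH κ κ' ε η N s x z Y c1 hκ hη hx hs hsq hro hz (hNv.trans hvx) hκ'
    (fun j hj => g4 j ((rough_dvd_iff hv0).mpr hj).1 (hsq.squarefree_of_dvd hj)
      ((rough_dvd_iff hv0).mpr hj).2)
    (fun j hj => g5 j ((rough_dvd_iff hv0).mpr hj).1 (hsq.squarefree_of_dvd hj)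
      ((rough_dvd_iff hv0).mpr hj).2)
    (hNv.trans hvY) hN5
    (fun p hp hpN h => h1 p hp (hpN.trans hNd) (lt_of_lt_of_le h hNv))
    (fun p q hp hq hpN hqN h => h2 p q hp hq (hpN.trans hNd) (hqN.trans hNd) (by
      refine hvN.trans ?_
      apply mul_le_mul_of_nonneg_left _ (by positivity)
      exact_mod_cast h))
  have hpsi : psi w k v = lam (sm w v) := by
    unfold psi; rw [if_pos g3]
  have htI : tIg κ x c1 w k s z D v = lam (sm z v) * TiG κ x c1 s N := by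
    unfold tIg TiG
    rw [mul_neg, Finset.mul_sum]
    congr 1
    have eS : (Icc 1 s).filter (fun j => Rough z j ∧ Squarefree j ∧ j ∣ v) =
        N.divisors.filter (fun j => j ≤ s) := by
      ext j
      simp only [Finset.mem_filter, Finset.mem_Icc, Nat.mem_divisors]
      constructor
      · rintro ⟨⟨h1, h2⟩, h3, h4, h5⟩
        exact ⟨⟨(rough_dvd_iff hv0).mp ⟨h3, h5⟩, ro_ne_zero _ _⟩, h2⟩
      · rintro ⟨⟨h1, h2⟩, h3⟩
        have h5 := (rough_dvd_iff hv0).mpr h1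
        exact ⟨⟨Nat.pos_of_ne_zero h5.1.1, h3⟩, h5.1, hsq.squarefree_of_dvd h1, h5.2⟩
    rw [eS]
    refine Finset.sum_congr rfl fun j _ => ?_
    rw [if_pos g1, hpsi, hlsm]
    ring
  have htII : tIIg (PhiB κ (Real.log s / Real.log x) (1 - ε) c1) κ x z v =
      lam (sm z v) * PhiB κ (Real.log s / Real.log x) (1 - ε) c1 (pat κ x N) := by
    unfold tIIg
    rw [if_pos hsq]
  have hl : lam v = lam (sm z v) * lam N := by
    conv_lhs => rw [← sm_mul_ro hv0 z, lam_mul (sm_ne_zero _ _) (ro_ne_zero _ _)]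
  have hfin : lam v - tIg κ x c1 w k s z D v - tIIg (PhiB κ (Real.log s / Real.log x) (1 - ε) c1) κ x z v =
      lam (sm z v) * (lam N - TiG κ x c1 s N - PhiB κ (Real.log s / Real.log x) (1 - ε) c1 (pat κ x N)) := by
    rw [htI, htII, hl]
    ring
  rw [hfin, abs_mul, abs_lam, one_mul]
  refine hcb.trans ?_
  apply mul_le_mul_of_nonneg_left _ (by norm_num)
  exact_mod_cast card_le_card (filter_subset_filter _ (Nat.primeFactors_mono hNd hv0))

open PWp in
theorem pvH (κ σ0 σ1 η D : ℝ) (v w k s x z c1 : ℕ) (hη : 0 < η) (hx : 2 ≤ x) (hz : (x : ℝ) ^ (η / 2) ≤ z) (hv : 1 ≤ v)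
    (hvx : v ≤ x ^ 3) :
    |tIg κ x c1 w k s z D v| ≤ (4 : ℝ) ^ (6 / η) ∧ |tIIg (PhiB κ σ0 σ1 c1) κ x z v| ≤ 1 + (4 : ℝ) ^ (6 / η) := by
  classical
  have hv0 : v ≠ 0 := by omega
  have hx1 : (1 : ℝ) < x := by exact_mod_cast (by omega : 1 < x)
  constructor
  · set P := v.primeFactors.filter (fun p => z < p) with hP
    have hcard : (#P : ℝ) ≤ 6 / η := by
      have h1 : (z : ℝ) ^ #P ≤ (x : ℝ) ^ 3 := by
        have h2 : z ^ #P ≤ v := by
          calc z ^ #P = ∏ _p ∈ P, z := by rw [Finset.prod_const]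
            _ ≤ ∏ p ∈ P, p := Finset.prod_le_prod' fun p hp => (Finset.mem_filter.mp hp).2.le
            _ ≤ v := by
              refine Nat.le_of_dvd (by omega) ?_
              refine (Finset.prod_dvd_prod_of_subset _ _ _ (Finset.filter_subset _ _)).trans
                (Nat.prod_primeFactors_dvd v)
        exact_mod_cast h2.trans hvx
      have h3 : (x : ℝ) ^ (η / 2 * #P) ≤ (x : ℝ) ^ (3 : ℝ) := by
        rw [Real.rpow_mul (by positivity), Real.rpow_natCast]
        calc ((x : ℝ) ^ (η / 2)) ^ #P ≤ (z : ℝ) ^ #P := by gcongr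
          _ ≤ (x : ℝ) ^ 3 := h1
          _ = (x : ℝ) ^ (3 : ℝ) := by norm_cast
      have h4 := (Real.rpow_le_rpow_left_iff hx1).mp h3
      rw [le_div_iff₀ hη]
      linarith
    have hterm : ∀ j ∈ (Icc 1 s).filter (fun j => Rough z j ∧ Squarefree j ∧ j ∣ v),
        |(∏ p ∈ j.primeFactors, gc c1 (cell κ x p)) *
          (if ((rd w z v : ℕ) : ℝ) ≤ D then psi w k v * sg w z v else 0)| ≤ 2 ^ #j.primeFactors := by
      intro j _
      rw [abs_mul]
      have h0 : |if ((rd w z v : ℕ) : ℝ) ≤ D then psi w k v * sg w z v else 0| ≤ 1 := by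
        split_ifs with h1
        · rw [abs_mul]
          have e1 : |psi w k v| ≤ 1 := by
            unfold psi
            split_ifs
            · rw [abs_lam]
            · simp
          have e2 : |sg w z v| ≤ 1 := by
            unfold sg
            rw [abs_pow, abs_neg, abs_one, one_pow]
          exact mul_le_one₀ e1 (abs_nonneg _) e2
        · simp
      calc _ ≤ 2 ^ #j.primeFactors * 1 := mul_le_mul (prod_gc_abs c1 _ _) h0 (abs_nonneg _) (by positivity)
        _ = _ := mul_one _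
    unfold tIg
    rw [abs_neg]
    calc |∑ j ∈ (Icc 1 s).filter (fun j => Rough z j ∧ Squarefree j ∧ j ∣ v),
          (∏ p ∈ j.primeFactors, gc c1 (cell κ x p)) *
            (if ((rd w z v : ℕ) : ℝ) ≤ D then psi w k v * sg w z v else 0)|
        ≤ ∑ j ∈ (Icc 1 s).filter (fun j => Rough z j ∧ Squarefree j ∧ j ∣ v),
          (2 : ℝ) ^ #j.primeFactors :=
          (Finset.abs_sum_le_sum_abs _ _).trans (Finset.sum_le_sum hterm)
      _ = ∑ T ∈ ((Icc 1 s).filter (fun j => Rough z j ∧ Squarefree j ∧ j ∣ v)).image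
            Nat.primeFactors, (2 : ℝ) ^ #T := by
          rw [Finset.sum_image]
          intro a ha b hb hab
          have ha' := (Finset.mem_filter.mp ha).2
          have hb' := (Finset.mem_filter.mp hb).2
          rw [← Nat.prod_primeFactors_of_squarefree ha'.2.1,
            ← Nat.prod_primeFactors_of_squarefree hb'.2.1, hab]
      _ ≤ ∑ T ∈ P.powerset, (2 : ℝ) ^ #T := by
          refine Finset.sum_le_sum_of_subset_of_nonneg ?_ (fun _ _ _ => by positivity)
          intro T hT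
          obtain ⟨j, hj, rfl⟩ := Finset.mem_image.mp hT
          have hj' := (Finset.mem_filter.mp hj).2
          rw [Finset.mem_powerset]
          intro p hp
          have hpp := Nat.prime_of_mem_primeFactors hp
          have hpj := Nat.dvd_of_mem_primeFactors hp
          exact Finset.mem_filter.mpr ⟨Nat.mem_primeFactors.mpr ⟨hpp, hpj.trans hj'.2.2, hv0⟩,
            hj'.1.2 p hpp hpj⟩
      _ = (3 : ℝ) ^ #P := by
          have := Finset.sum_pow_mul_eq_add_pow (2 : ℝ) 1 P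
          simp only [one_pow, mul_one] at this
          rw [this]; norm_num
      _ ≤ (4 : ℝ) ^ #P := pow_le_pow_left₀ (by norm_num) (by norm_num) _
      _ = (4 : ℝ) ^ (#P : ℝ) := (Real.rpow_natCast _ _).symm
      _ ≤ (4 : ℝ) ^ (6 / η) := Real.rpow_le_rpow_of_exponent_le (by norm_num) hcard
  · unfold tIIg
    rw [abs_mul, abs_lam, one_mul]
    split_ifs with h1
    · refine (PhiB_le _ _ _ _ _).trans ?_
      have h2 : (Multiset.card (pat κ x (ro z v)) : ℝ) ≤ 6 / η := by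
        unfold pat
        rw [Multiset.card_map, Finset.card_val]
        exact CBx.card_bound η x z (ro z v) hη hx (rough_ro z v) hz
          ((Nat.le_of_dvd (by omega) (ro_dvd hv0 z)).trans hvx) _ subset_rfl
      have h3 : (4 : ℝ) ^ Multiset.card (pat κ x (ro z v)) ≤ (4 : ℝ) ^ (6 / η) := by
        rw [← Real.rpow_natCast]
        exact Real.rpow_le_rpow_of_exponent_le (by norm_num) h2
      linarith
    · rw [abs_zero]; positivity

end Pool.Agent.H568
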