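import Mathlib
import Pool.Agent.H568.Qb7
import Pool.Graph.R_pool_sql_team_seeded_63374d34.N792.CH.MvB

/-!
The parameters, the sum of the type I part, the number of the bad values (after `MvA.lean` and `MvB.lean` of the project
CH of helper792).
-/

set_option autoImplicit false

namespace Pool.Agent.H568

open Finset Filter Topology
open Pool.Agent.N792 (Fn rho Rough R2)
open Pool.Agent.N791.C2 (lam)
open Pool.Agent.N792.CH

/-- the choice of `η` -/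
lemma par_eta4 (K1 K2 δ τ : ℝ) (hK1 : 1 ≤ K1) (hK2 : 0 < K2) (hδ : 0 < δ) (hτ : 0 < τ) : ∃ η1 : ℝ, 0 < η1 ∧
    ∀ η : ℝ, 0 < η → η ≤ η1 → K1 * (2 : ℝ) ^ (-(δ / (K1 * η))) / η ^ 2 ≤ τ ∧
      4 * (4 : ℝ) ^ (6 / η) * (K2 * Real.exp (-(10 / η))) ≤ τ := by
  have hl2 : 0 < Real.log 2 := Real.log_pos (by norm_num)
  obtain ⟨q, hq⟩ : ∃ q : ℝ, q = Real.log 2 * δ / K1 := ⟨_, rfl⟩
  have hq0 : 0 < q := by rw [hq]; positivity
  refine ⟨min (τ * q ^ 3 / (6 * K1)) (τ / (4 * K2)), lt_min (by positivity) (by positivity), fun η hη hη1 => ⟨?_, ?_⟩⟩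
  · have h1 : η ≤ τ * q ^ 3 / (6 * K1) := hη1.trans (min_le_left _ _)
    have h2 : (2 : ℝ) ^ (-(δ / (K1 * η))) = Real.exp (-(q / η)) := by
      rw [Real.rpow_def_of_pos (by norm_num)]
      congr 1
      rw [hq]
      field_simp
    have h3 : (q / η) ^ 3 / 6 ≤ Real.exp (q / η) := by
      have := Real.pow_div_factorial_le_exp (q / η) (by positivity) 3
      norm_num [Nat.factorial] at this
      exact this
    have h4 : Real.exp (-(q / η)) ≤ 6 * η ^ 3 / q ^ 3 := by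
      rw [Real.exp_neg, ← one_div, div_le_div_iff₀ (Real.exp_pos _) (by positivity)]
      have h5 : q ^ 3 = ((q / η) ^ 3 / 6) * (6 * η ^ 3) := by field_simp
      rw [one_mul]
      calc q ^ 3 = ((q / η) ^ 3 / 6) * (6 * η ^ 3) := h5
        _ ≤ Real.exp (q / η) * (6 * η ^ 3) := mul_le_mul_of_nonneg_right h3 (by positivity)
        _ = 6 * η ^ 3 * Real.exp (q / η) := by ring
    rw [h2, div_le_iff₀ (by positivity)]
    calc K1 * Real.exp (-(q / η)) ≤ K1 * (6 * η ^ 3 / q ^ 3) := mul_le_mul_of_nonneg_left h4 (by linarith)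
      _ = (6 * K1 / q ^ 3) * η * η ^ 2 := by ring
      _ ≤ (6 * K1 / q ^ 3) * (τ * q ^ 3 / (6 * K1)) * η ^ 2 := by
          have : 0 ≤ 6 * K1 / q ^ 3 := by positivity
          exact mul_le_mul_of_nonneg_right (mul_le_mul_of_nonneg_left h1 this) (by positivity)
      _ = τ * η ^ 2 := by
          have : K1 ≠ 0 := by linarith
          field_simp
  · have h1 : η ≤ τ / (4 * K2) := hη1.trans (min_le_right _ _)
    have h3 : (4 : ℝ) ^ (6 / η) ≤ Real.exp (9 / η) := by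
      have e1 : (4 : ℝ) ^ (6 / η) = ((4 : ℝ) ^ (6 : ℝ)) ^ (1 / η) := by
        rw [← Real.rpow_mul (by norm_num)]; congr 1; ring
      have e2 : Real.exp (9 / η) = (Real.exp 9) ^ (1 / η) := by
        rw [← Real.exp_mul]; congr 1; ring
      rw [e1, e2]
      apply Real.rpow_le_rpow (by positivity) _ (by positivity)
      have e3 : (4 : ℝ) ^ (6 : ℝ) = 4096 := by
        rw [show (6 : ℝ) = ((6 : ℕ) : ℝ) by norm_num, Real.rpow_natCast]; norm_num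
      have e4 : Real.exp 9 = Real.exp 1 ^ 9 := by rw [← Real.exp_nat_mul]; norm_num
      rw [e3, e4]
      have e5 : (2.7 : ℝ) ≤ Real.exp 1 := by linarith [Real.exp_one_gt_d9]
      calc (4096 : ℝ) ≤ 2.7 ^ 9 := by norm_num
        _ ≤ Real.exp 1 ^ 9 := pow_le_pow_left₀ (by norm_num) e5 9
    have h4 : Real.exp (9 / η) * Real.exp (-(10 / η)) = Real.exp (-(1 / η)) := by
      rw [← Real.exp_add]; congr 1; ring
    have h5 : Real.exp (-(1 / η)) ≤ η := by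
      rw [Real.exp_neg, ← one_div, div_le_iff₀ (Real.exp_pos _)]
      have := Real.add_one_le_exp (1 / η)
      calc (1 : ℝ) = η * (1 / η) := by field_simp
        _ ≤ η * Real.exp (1 / η) := mul_le_mul_of_nonneg_left (by linarith) hη.le
    calc 4 * (4 : ℝ) ^ (6 / η) * (K2 * Real.exp (-(10 / η))) ≤ 4 * Real.exp (9 / η) * (K2 * Real.exp (-(10 / η))) := by
          gcongr
      _ = 4 * K2 * (Real.exp (9 / η) * Real.exp (-(10 / η))) := by ring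
      _ = 4 * K2 * Real.exp (-(1 / η)) := by rw [h4]
      _ ≤ 4 * K2 * η := mul_le_mul_of_nonneg_left h5 (by positivity)
      _ ≤ 4 * K2 * (τ / (4 * K2)) := mul_le_mul_of_nonneg_left h1 (by positivity)
      _ = τ := by field_simp

open Classical in
/-- the sum of the type I part for one `c` -/
lemma tIg_sum (a b : ℤ) (κ : ℝ) (x1 x c c1 s w k z : ℕ) (D : ℝ) (ψ : ℕ → ℝ) (hψ : ∀ n ∈ Ioc x1 x, psi w k (Fn a b n + c) = ψ n) :
    |∑ n ∈ Ioc x1 x, tIg κ x c1 w k s z D (Fn a b n + c)| ≤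
      ∑ j ∈ (Icc 1 s).filter (fun j => Rough z j ∧ Squarefree j),
        (2 : ℝ) ^ #j.primeFactors * |∑ n ∈ (Ioc x1 x).filter (fun n => j ∣ Fn a b n + c ∧
          ((rd w z (Fn a b n + c) : ℕ) : ℝ) ≤ D), ψ n * sg w z (Fn a b n + c)| := by
  have h1 : ∑ n ∈ Ioc x1 x, tIg κ x c1 w k s z D (Fn a b n + c) =
      -∑ j ∈ (Icc 1 s).filter (fun j => Rough z j ∧ Squarefree j), (∏ p ∈ j.primeFactors, gc c1 (cell κ x p)) *
        ∑ n ∈ (Ioc x1 x).filter (fun n => j ∣ Fn a b n + c ∧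
          ((rd w z (Fn a b n + c) : ℕ) : ℝ) ≤ D), ψ n * sg w z (Fn a b n + c) := by
    unfold tIg
    rw [sum_neg_distrib]
    congr 1
    have h2 : ∀ n ∈ Ioc x1 x, ∑ j ∈ (Icc 1 s).filter (fun j => Rough z j ∧ Squarefree j ∧ j ∣ Fn a b n + c),
        (∏ p ∈ j.primeFactors, gc c1 (cell κ x p)) * (if ((rd w z (Fn a b n + c) : ℕ) : ℝ) ≤ D then
          psi w k (Fn a b n + c) * sg w z (Fn a b n + c) else 0) =
        ∑ j ∈ (Icc 1 s).filter (fun j => Rough z j ∧ Squarefree j), (∏ p ∈ j.primeFactors, gc c1 (cell κ x p)) *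
          (if j ∣ Fn a b n + c ∧ ((rd w z (Fn a b n + c) : ℕ) : ℝ) ≤ D then ψ n * sg w z (Fn a b n + c) else 0) := by
      intro n hn
      have h3 : (Icc 1 s).filter (fun j => Rough z j ∧ Squarefree j ∧ j ∣ Fn a b n + c) =
          ((Icc 1 s).filter (fun j => Rough z j ∧ Squarefree j)).filter (fun j => j ∣ Fn a b n + c) := by
        ext j
        simp only [mem_filter]
        tauto
      rw [h3, sum_filter (fun j => j ∣ Fn a b n + c)]
      refine sum_congr rfl fun j _ => ?_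
      rw [hψ n hn]
      by_cases h4 : j ∣ Fn a b n + c
      · by_cases h5 : ((rd w z (Fn a b n + c) : ℕ) : ℝ) ≤ D
        · rw [if_pos h4, if_pos h5, if_pos ⟨h4, h5⟩]
        · rw [if_pos h4, if_neg h5, if_neg (fun h => h5 h.2)]
      · rw [if_neg h4, if_neg (fun h => h4 h.1), mul_zero]
    rw [sum_congr rfl h2, sum_comm]
    refine sum_congr rfl fun j _ => ?_
    rw [← mul_sum, sum_filter]
  rw [h1, abs_neg]
  refine (abs_sum_le_sum_abs _ _).trans (sum_le_sum fun j _ => ?_)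
  rw [abs_mul]
  exact mul_le_mul_of_nonneg_right (prod_gc_abs c1 _ _) (abs_nonneg _)

open Classical in
/-- the number of the bad values -/
lemma bad_leH (a b : ℤ) (x1 x C s w k z Y : ℕ) (D κ' ε β1 β2 β3 β4 β5 : ℝ) (hw : 1 ≤ w)
    (h1 : ∀ n ∈ Ioc x1 x, (#((Icc 1 C).filter (fun c => D < (rd 1 z (Fn a b n + c) : ℕ))) : ℝ) ≤ β1 * C)
    (h2 : ∑ c ∈ Icc 1 C, (#((Ioc x1 x).filter (fun n => ∃ p : ℕ, p.Prime ∧ w < p ∧ p ^ 2 ∣ Fn a b n + c)) : ℝ) ≤ β2 * (C * x))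
    (h3 : ∀ n ∈ Ioc x1 x, (#((Icc 1 C).filter (fun c => ∃ p : ℕ, p.Prime ∧ p ≤ w ∧ p ^ k ∣ Fn a b n + c)) : ℝ) ≤ β3 * C)
    (h4 : ∑ c ∈ Icc 1 C, (#((Ioc x1 x).filter (fun n => ∃ j : ℕ, Rough z j ∧ Squarefree j ∧ (s : ℝ) < j ∧
      (j : ℝ) ≤ s * (x : ℝ) ^ κ' ∧ j ∣ Fn a b n + c)) : ℝ) ≤ β4 * (C * x))
    (h5 : ∑ c ∈ Icc 1 C, (#((Ioc x1 x).filter (fun n => ∃ j : ℕ, Rough z j ∧ Squarefree j ∧ (x : ℝ) ^ (1 - ε) < j ∧
      j ≤ Y ∧ j ∣ Fn a b n + c)) : ℝ) ≤ β5 * (C * x))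
    (hβ1 : 0 ≤ β1) (hβ3 : 0 ≤ β3)
    (hpos : ∀ c ∈ Icc 1 C, ∀ n ∈ Ioc x1 x, Fn a b n + c ≠ 0) :
    ∑ c ∈ Icc 1 C, (#((Ioc x1 x).filter (fun n => ¬ GoodH w k s z x Y κ' ε D (Fn a b n + c))) : ℝ) ≤
      (β1 + β2 + β3 + β4 + β5) * (C * x) := by
  -- monotonicity of `rd`
  have hrd : ∀ v : ℕ, v ≠ 0 → rd w z v ≤ rd 1 z v := by
    intro v hv
    unfold rd
    apply Nat.le_of_dvd
    · apply prod_pos
      intro p hp
      exact (Nat.prime_of_mem_primeFactors (mem_filter.1 hp).1).pos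
    · apply prod_dvd_prod_of_subset
      intro p hp
      rw [mem_filter] at hp ⊢
      exact ⟨hp.1, by omega, hp.2.2⟩
  have hswap : ∀ (P : ℕ → ℕ → Prop) (β : ℝ), 0 ≤ β →
      (∀ n ∈ Ioc x1 x, (#((Icc 1 C).filter (fun c => P c n)) : ℝ) ≤ β * C) →
      ∑ c ∈ Icc 1 C, (#((Ioc x1 x).filter (fun n => P c n)) : ℝ) ≤ β * (C * x) := by
    intro P β hβ hP
    have e1 : ∑ c ∈ Icc 1 C, (#((Ioc x1 x).filter (fun n => P c n)) : ℝ) =
        ∑ n ∈ Ioc x1 x, (#((Icc 1 C).filter (fun c => P c n)) : ℝ) := by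
      have e2 : ∀ c, (#((Ioc x1 x).filter (fun n => P c n)) : ℝ) = ∑ n ∈ Ioc x1 x, if P c n then (1 : ℝ) else 0 := by
        intro c
        rw [card_filter]; push_cast; rfl
      have e3 : ∀ n, (#((Icc 1 C).filter (fun c => P c n)) : ℝ) = ∑ c ∈ Icc 1 C, if P c n then (1 : ℝ) else 0 := by
        intro c
        rw [card_filter]; push_cast; rfl
      rw [sum_congr rfl (fun c _ => e2 c), sum_congr rfl (fun n _ => e3 n), sum_comm]
    rw [e1]
    refine (sum_le_sum hP).trans ?_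
    rw [sum_const, nsmul_eq_mul, Nat.card_Ioc]
    have e4 : (((x - x1 : ℕ)) : ℝ) ≤ x := by exact_mod_cast Nat.sub_le _ _
    calc (((x - x1 : ℕ)) : ℝ) * (β * C) ≤ x * (β * C) := mul_le_mul_of_nonneg_right e4 (by positivity)
      _ = β * (C * x) := by ring
  have b1 := hswap (fun c n => D < (rd 1 z (Fn a b n + c) : ℕ)) β1 hβ1 h1
  have b3 := hswap (fun c n => ∃ p : ℕ, p.Prime ∧ p ≤ w ∧ p ^ k ∣ Fn a b n + c) β3 hβ3 h3
  have hpt : ∀ c ∈ Icc 1 C, (#((Ioc x1 x).filter (fun n => ¬ GoodH w k s z x Y κ' ε D (Fn a b n + c))) : ℝ) ≤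
      (#((Ioc x1 x).filter (fun n => D < (rd 1 z (Fn a b n + c) : ℕ))) : ℝ) +
      (#((Ioc x1 x).filter (fun n => ∃ p : ℕ, p.Prime ∧ w < p ∧ p ^ 2 ∣ Fn a b n + c)) : ℝ) +
      (#((Ioc x1 x).filter (fun n => ∃ p : ℕ, p.Prime ∧ p ≤ w ∧ p ^ k ∣ Fn a b n + c)) : ℝ) +
      (#((Ioc x1 x).filter (fun n => ∃ j : ℕ, Rough z j ∧ Squarefree j ∧ (s : ℝ) < j ∧
        (j : ℝ) ≤ s * (x : ℝ) ^ κ' ∧ j ∣ Fn a b n + c)) : ℝ) +
      (#((Ioc x1 x).filter (fun n => ∃ j : ℕ, Rough z j ∧ Squarefree j ∧ (x : ℝ) ^ (1 - ε) < j ∧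
        j ≤ Y ∧ j ∣ Fn a b n + c)) : ℝ) := by
    intro c hc
    have hsub : (Ioc x1 x).filter (fun n => ¬ GoodH w k s z x Y κ' ε D (Fn a b n + c)) ⊆
        ((((Ioc x1 x).filter (fun n => D < (rd 1 z (Fn a b n + c) : ℕ)) ∪
        (Ioc x1 x).filter (fun n => ∃ p : ℕ, p.Prime ∧ w < p ∧ p ^ 2 ∣ Fn a b n + c)) ∪
        (Ioc x1 x).filter (fun n => ∃ p : ℕ, p.Prime ∧ p ≤ w ∧ p ^ k ∣ Fn a b n + c)) ∪
        (Ioc x1 x).filter (fun n => ∃ j : ℕ, Rough z j ∧ Squarefree j ∧ (s : ℝ) < j ∧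
          (j : ℝ) ≤ s * (x : ℝ) ^ κ' ∧ j ∣ Fn a b n + c)) ∪
        (Ioc x1 x).filter (fun n => ∃ j : ℕ, Rough z j ∧ Squarefree j ∧ (x : ℝ) ^ (1 - ε) < j ∧
          j ≤ Y ∧ j ∣ Fn a b n + c) := by
      intro n hn
      rw [mem_filter] at hn
      obtain ⟨hn1, hn2⟩ := hn
      by_contra hcon
      simp only [mem_union, mem_filter, not_or, not_and] at hcon
      obtain ⟨⟨⟨⟨c1, c2⟩, c3⟩, c4⟩, c5⟩ := hcon
      apply hn2
      refine ⟨?_, ?_, ?_, ?_, ?_⟩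
      · have := hrd _ (hpos c hc n hn1)
        have h8 : ((rd w z (Fn a b n + c) : ℕ) : ℝ) ≤ ((rd 1 z (Fn a b n + c) : ℕ) : ℝ) := by exact_mod_cast this
        exact h8.trans (not_lt.1 (c1 hn1))
      · intro p hp hwp hd
        exact c2 hn1 ⟨p, hp, hwp, hd⟩
      · intro p hp hwp hd
        exact c3 hn1 ⟨p, hp, hwp, hd⟩
      · intro j hj1 hj2 hj3 hj4
        exact c4 hn1 ⟨j, hj1, hj2, hj4.1, hj4.2, hj3⟩
      · intro j hj1 hj2 hj3 hj4
        exact c5 hn1 ⟨j, hj1, hj2, hj4.1, hj4.2, hj3⟩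
    have := (card_le_card hsub).trans ((card_union_le _ _).trans (Nat.add_le_add_right ((card_union_le _ _).trans
      (Nat.add_le_add_right ((card_union_le _ _).trans (Nat.add_le_add_right (card_union_le _ _) _)) _)) _))
    exact_mod_cast this
  refine (sum_le_sum hpt).trans ?_
  rw [sum_add_distrib, sum_add_distrib, sum_add_distrib, sum_add_distrib]
  have : (β1 + β2 + β3 + β4 + β5) * ((C : ℝ) * x) = β1 * (C * x) + β2 * (C * x) + β3 * (C * x) + β4 * (C * x) + β5 * (C * x) := by ring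
  rw [this]
  linarith

end Pool.Agent.H568
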