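import Mathlib
import Pool.Agent.H568.Qb3
import Pool.Agent.H568.Qb4
import Pool.Agent.H568.Qb8

/-!
The mean values of the function of Liouville with the loss `(3/2) log (2 (1 - δ) / (1 + δ))`, for `C ≥ x^(1/2+δ)`,
`1/5 < δ < 1/3`.
-/

set_option autoImplicit false

namespace Pool.Agent.H568

open Finset Filter Topology
open Pool.Agent.N792 (Fn rho Rough R2 fv rg rho_le_two)
open Pool.Agent.N791.C2 (lam root_int)
open Pool.Agent.N792.CH
open Pool.Agent.N791.U (r1U range_bdU)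

/-- the loss -/
noncomputable def lossB (δ : ℝ) : ℝ := 3 / 2 * Real.log (2 * (1 - δ) / (1 + δ))

/-- the parameter `ε1` -/
lemma par_B {δ κ0 : ℝ} (hδ : 1 / 5 < δ) (hδ1 : δ < 1 / 3) (hκ : lossB δ < κ0) : ∃ ε1 : ℝ, 0 < ε1 ∧ ε1 ≤ 1 / 400 ∧
    40 * ε1 ≤ 1 - 3 * δ ∧ 40 * ε1 ≤ 5 * δ - 1 ∧
    3 / 2 * (Real.log ((1 - δ + 2 * ε1) / ((1 + δ) / 2 - 5 * ε1)) + ε1) ≤ κ0 := by
  have h0 : (1 - δ + 2 * 0) / ((1 + δ) / 2 - 5 * 0) = 2 * (1 - δ) / (1 + δ) := by
    rw [mul_zero, mul_zero, add_zero, sub_zero, div_div_eq_mul_div, mul_comm]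
  have hc : ContinuousAt (fun t : ℝ => 3 / 2 * (Real.log ((1 - δ + 2 * t) / ((1 + δ) / 2 - 5 * t)) + t)) 0 := by
    have h1 : (1 - δ + 2 * 0) / ((1 + δ) / 2 - 5 * 0) ≠ 0 := by
      have : 0 < 1 - δ := by linarith
      have : 0 < (1 + δ) / 2 := by linarith
      rw [mul_zero, mul_zero, add_zero, sub_zero]
      positivity
    have h2 : (1 + δ) / 2 - 5 * 0 ≠ 0 := by
      have : 0 < (1 + δ) / 2 := by linarith
      rw [mul_zero, sub_zero]
      exact this.ne'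
    refine ContinuousAt.mul continuousAt_const (ContinuousAt.add ?_ continuousAt_id)
    refine ContinuousAt.log ?_ h1
    refine ContinuousAt.div ?_ ?_ h2
    · fun_prop
    · fun_prop
  have hlt : (fun t : ℝ => 3 / 2 * (Real.log ((1 - δ + 2 * t) / ((1 + δ) / 2 - 5 * t)) + t)) 0 < κ0 := by
    simp only
    rw [h0, add_zero]
    exact hκ
  have hev := hc.eventually_lt continuousAt_const hlt
  obtain ⟨e, he, hb⟩ := Metric.eventually_nhds_iff.1 hev
  obtain ⟨t, ht⟩ : ∃ t : ℝ, t = min (min (e / 2) (1 / 400)) (min ((1 - 3 * δ) / 40) ((5 * δ - 1) / 40)) := ⟨_, rfl⟩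
  have ht0 : 0 < t := by
    rw [ht]
    refine lt_min (lt_min (by positivity) (by norm_num)) (lt_min (by linarith) (by linarith))
  have ht1 : t ≤ e / 2 := by rw [ht]; exact (min_le_left _ _).trans (min_le_left _ _)
  have ht2 : t ≤ 1 / 400 := by rw [ht]; exact (min_le_left _ _).trans (min_le_right _ _)
  have ht3 : t ≤ (1 - 3 * δ) / 40 := by rw [ht]; exact (min_le_right _ _).trans (min_le_left _ _)
  have ht4 : t ≤ (5 * δ - 1) / 40 := by rw [ht]; exact (min_le_right _ _).trans (min_le_right _ _)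
  refine ⟨t, ht0, ht2, by linarith, by linarith, ?_⟩
  have h3 := hb (y := t) (by rw [Real.dist_eq, sub_zero, abs_of_pos ht0]; linarith)
  exact h3.le

/-- the number of the values divisible by the primes of `(U, s]`, for one `c` -/
lemma cntP (a : ℤ) (ha : 0 < a) (b : ℤ) (u v x c U s : ℕ) (hbu : b.natAbs ≤ u) (huv : u ≤ v) (hvx : v ≤ x) (hx : 0 < x)
    (hU : a.natAbs + 1 ≤ U) :
    ∑ n ∈ Ioc u v, (#(((Ioc U s).filter Nat.Prime).filter (fun p => p ∣ Fn a b n + c)) : ℝ) ≤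
      ((v : ℝ) - u) * ∑ p ∈ (Ioc U s).filter Nat.Prime, (1 : ℝ) / p +
        |∑ m ∈ Ioc U s, (if m.Prime then (x : ℝ) / m else 0) * ((rho a b (c : ℕ) m : ℝ) - 1)| + 2 * s := by
  classical
  obtain ⟨S, hS⟩ : ∃ S : Finset ℕ, S = (Ioc U s).filter Nat.Prime := ⟨_, rfl⟩
  rw [← hS]
  have hxp : (0 : ℝ) < x := by exact_mod_cast hx
  have hSm : ∀ p ∈ S, p.Prime ∧ U < p ∧ p ≤ s := by
    intro p hp
    rw [hS, mem_filter, mem_Ioc] at hp
    exact ⟨hp.2, hp.1⟩
  have huv' : (u : ℝ) ≤ v := by exact_mod_cast huv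
  have hvx' : (v : ℝ) ≤ x := by exact_mod_cast hvx
  have hu0 : (0 : ℝ) ≤ u := Nat.cast_nonneg _
  have hsumP : ∑ n ∈ Ioc u v, (#(S.filter (fun p => p ∣ Fn a b n + c)) : ℝ) =
      ∑ p ∈ S, (#((Ioc u v).filter (fun n : ℕ => (p : ℤ) ∣ fv a b c n)) : ℝ) := by
    have e1 : ∀ n ∈ Ioc u v, (#(S.filter (fun p => p ∣ Fn a b n + c)) : ℝ) =
        ∑ p ∈ S, if (p : ℤ) ∣ fv a b c n then (1 : ℝ) else 0 := by
      intro n hn
      rw [mem_Ioc] at hn
      rw [card_filter]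
      push_cast
      refine sum_congr rfl fun p _ => ?_
      have e2 : fv a b c n = ((Fn a b n + c : ℕ) : ℤ) := Pool.Agent.N792.Mtm.fv_eq ha (hbu.trans hn.1.le)
      rw [e2]
      exact if_congr Int.natCast_dvd_natCast.symm rfl rfl
    rw [sum_congr rfl e1, sum_comm]
    refine sum_congr rfl fun p _ => ?_
    rw [card_filter]
    push_cast
    rfl
  have hcnt : ∀ p ∈ S, (#((Ioc u v).filter (fun n : ℕ => (p : ℤ) ∣ fv a b c n)) : ℝ) ≤
      ((v : ℝ) - u) / p + ((v : ℝ) - u) / x * ((x : ℝ) / p * ((rho a b c p : ℝ) - 1)) + 2 := by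
    intro p hp
    obtain ⟨g1, g2, g3⟩ := hSm p hp
    have h3 := (abs_le.1 (root_int a b c p u v g1.pos huv)).2
    have h4 : (rho a b c p : ℝ) ≤ 2 := by
      have := rho_le_two a b c p g1 (by
        intro hpa
        have h5 := Int.natAbs_dvd_natAbs.2 hpa
        rw [Int.natAbs_natCast] at h5
        have h6 := Nat.le_of_dvd (by omega) h5
        omega)
      exact_mod_cast this
    have hp0 : (0 : ℝ) < p := by exact_mod_cast g1.pos
    have e1 : ((v : ℝ) - u) / p + ((v : ℝ) - u) / x * ((x : ℝ) / p * ((rho a b c p : ℝ) - 1)) =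
        rho a b c p * (((v : ℝ) - u) / p) := by
      field_simp
      ring
    rw [e1]
    linarith
  rw [hsumP]
  refine (sum_le_sum hcnt).trans ?_
  rw [sum_add_distrib, sum_add_distrib, ← mul_sum, sum_const, nsmul_eq_mul]
  have e1 : ∑ p ∈ S, ((v : ℝ) - u) / p = ((v : ℝ) - u) * ∑ p ∈ S, (1 : ℝ) / p := by
    rw [mul_sum]
    exact sum_congr rfl fun p _ => by ring
  have e2 : ∑ p ∈ S, ((x : ℝ) / p * ((rho a b c p : ℝ) - 1)) = ∑ m ∈ Ioc U s, (if m.Prime then (x : ℝ) / m else 0) *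
      ((rho a b (c : ℕ) m : ℝ) - 1) := by
    rw [hS, sum_filter]
    refine sum_congr rfl fun m _ => ?_
    split_ifs
    · rfl
    · rw [zero_mul]
  rw [e1, e2]
  obtain ⟨D, hD⟩ : ∃ D : ℝ, D = ∑ m ∈ Ioc U s, (if m.Prime then (x : ℝ) / m else 0) *
      ((rho a b (c : ℕ) m : ℝ) - 1) := ⟨_, rfl⟩
  rw [← hD]
  have e4 : 0 ≤ ((v : ℝ) - u) / x := div_nonneg (by linarith) hxp.le
  have e5 : ((v : ℝ) - u) / x ≤ 1 := by
    rw [div_le_one hxp]
    linarith
  have e6 : ((v : ℝ) - u) / x * D ≤ |D| := by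
    calc ((v : ℝ) - u) / x * D ≤ ((v : ℝ) - u) / x * |D| := mul_le_mul_of_nonneg_left (le_abs_self _) e4
      _ ≤ 1 * |D| := mul_le_mul_of_nonneg_right e5 (abs_nonneg _)
      _ = |D| := one_mul _
  have e7 : (#S : ℝ) * 2 ≤ 2 * s := by
    have h3 : #S ≤ s := by
      rw [hS]
      refine (card_filter_le _ _).trans ?_
      rw [Nat.card_Ioc]
      omega
    have : (#S : ℝ) ≤ s := by exact_mod_cast h3
    linarith
  linarith

/-- the average over `c` of the deviation of the number of the roots -/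
lemma devS (a : ℤ) (ha : 0 < a) (Λ : ℝ) (hΛ : 1 ≤ Λ) (e τ : ℝ) (he : 0 < e) (hτ : 0 < τ) : ∃ x0 : ℕ, ∀ x : ℕ, x0 ≤ x →
    ∀ (b : ℤ) (C U s : ℕ), (b : ℝ) ^ 2 ≤ Λ * x → (x : ℝ) ^ (1 / 2 + e) ≤ C → C ≤ x → (x : ℝ) ^ (1 / 10 : ℝ) ≤ U → s ≤ x →
    ∑ c ∈ Icc 1 C, |∑ m ∈ Ioc U s, (if m.Prime then (x : ℝ) / m else 0) * ((rho a b (c : ℕ) m : ℝ) - 1)| ≤
      τ * (C * x) := by
  obtain ⟨n1, h1⟩ := r1U a ha Λ hΛ (1 / 20) e 1 (by norm_num) he
  have ev1 := Pool.Agent.N792.Lam.pow_ev 2 (1 / 20) (1 / 10) (by norm_num)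
  have ev8 := log_tend.eventually_ge_atTop (1 / τ + 1)
  obtain ⟨n2, h2⟩ := eventually_atTop.1 (ev1.and ev8)
  refine ⟨n1 + n2 + 2, fun x hx b C U s hbX hC hCx hU hs => ?_⟩
  obtain ⟨f1, f8⟩ := h2 x (by omega)
  have hx1 : (1 : ℝ) < x := by exact_mod_cast (by omega : 1 < x)
  have hxp : (0 : ℝ) < x := by linarith
  have hCp : (0 : ℝ) < C := lt_of_lt_of_le (by positivity) hC
  have hCx0 : (0 : ℝ) < C * x := by positivity
  have hL1 : 1 / τ ≤ Real.log x := by linarith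
  have hLp : 1 ≤ Real.log x := by
    have : 0 < 1 / τ := by positivity
    linarith
  obtain ⟨z, hz⟩ : ∃ z : ℕ, z = ⌊(x : ℝ) ^ (1 / 10 : ℝ)⌋₊ := ⟨_, rfl⟩
  have hz1 : (z : ℝ) ≤ (x : ℝ) ^ (1 / 10 : ℝ) := by rw [hz]; exact Nat.floor_le (by positivity)
  have hz2 : (x : ℝ) ^ (1 / 20 : ℝ) ≤ z := by
    have h3 := Nat.lt_floor_add_one ((x : ℝ) ^ (1 / 10 : ℝ))
    rw [← hz] at h3
    have h4 : (1 : ℝ) ≤ (x : ℝ) ^ (1 / 20 : ℝ) := Real.one_le_rpow hx1.le (by norm_num)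
    linarith
  have hzU : z ≤ U := by
    have : (z : ℝ) ≤ U := hz1.trans hU
    exact_mod_cast this
  have h3 := h1 x (by omega) b hbX C z U s (fun m => if m.Prime then (x : ℝ) / m else 0) hC hCx hz2 hs
    (by
      intro m hm
      rw [pow_one]
      split_ifs with hmp
      · have hmU := (mem_Ioc.1 hm).1
        have hm0 : (0 : ℝ) < m := by exact_mod_cast (by omega : 0 < m)
        rw [Pool.Agent.N792.rg_prime hmp (by omega), one_mul, abs_of_nonneg (by positivity)]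
        apply div_le_div_of_nonneg_right _ hm0.le
        exact le_mul_of_one_le_right hxp.le hLp
      · rw [abs_zero]
        exact mul_nonneg (Pool.Agent.N792.rg_nonneg' _ _) (by positivity))
    (by
      intro m hm hne
      have : m.Prime := by
        by_contra hcon
        rw [if_neg hcon] at hne
        exact hne rfl
      exact this.squarefree)
  refine h3.trans ?_
  rw [pow_one, div_le_iff₀ (by linarith)]
  have h4 : 1 ≤ τ * Real.log x := by
    rw [div_le_iff₀ hτ] at hL1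
    linarith
  calc (C : ℝ) * x = C * x * 1 := by ring
    _ ≤ C * x * (τ * Real.log x) := mul_le_mul_of_nonneg_left h4 hCx0.le
    _ = _ := by ring

end Pool.Agent.H568
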