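import Mathlib
import Pool.Agent.H568.Qb9

/-!
The pointwise inequality with all the parameters.
-/

set_option autoImplicit false

namespace Pool.Agent.H568

open Finset Filter Topology
open Pool.Agent.N792 (Fn rho Rough R2 fv rg rho_le_two)
open Pool.Agent.N791.C2 (lam root_int)
open Pool.Agent.N792.CH
open Pool.Agent.N791.U (r1U range_bdU)

lemma lossB_pos {δ : ℝ} (hδ : 0 < δ) (hδ1 : δ < 1 / 3) : 0 < lossB δ := by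
  unfold lossB
  have h1 : 1 < 2 * (1 - δ) / (1 + δ) := by
    rw [lt_div_iff₀ (by linarith)]
    linarith
  have := Real.log_pos h1
  positivity

lemma cell_lt {κ : ℝ} {x c1 p : ℕ} (hκ : 0 < κ) (hx : 2 ≤ x) (hp : p.Prime) (h : (p : ℝ) < (x : ℝ) ^ (κ * c1)) :
    cell κ x p < c1 := by
  have hx1 : (1 : ℝ) < x := by exact_mod_cast (by omega : 1 < x)
  have hxp : (0 : ℝ) < x := by linarith
  have hL : 0 < Real.log x := Real.log_pos hx1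
  unfold cell
  have hp0 : (0 : ℝ) < p := by exact_mod_cast hp.pos
  have hp1 : (1 : ℝ) ≤ p := by exact_mod_cast hp.one_lt.le
  rw [Nat.floor_lt (div_nonneg (Real.log_nonneg hp1) (by positivity)), div_lt_iff₀ (by positivity)]
  have h3 := Real.log_lt_log hp0 h
  rw [Real.log_rpow hxp] at h3
  calc Real.log p < κ * c1 * Real.log x := h3
    _ = c1 * (κ * Real.log x) := by ring

lemma lt_of_cell {κ : ℝ} {x c1 p : ℕ} (hκ : 0 < κ) (hx : 2 ≤ x) (hp : p.Prime) (h : cell κ x p < c1) :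
    (p : ℝ) < (x : ℝ) ^ (κ * c1) := by
  have hx1 : (1 : ℝ) < x := by exact_mod_cast (by omega : 1 < x)
  have hxp : (0 : ℝ) < x := by linarith
  have hL : 0 < Real.log x := Real.log_pos hx1
  unfold cell at h
  have hp0 : (0 : ℝ) < p := by exact_mod_cast hp.pos
  have hp1 : (1 : ℝ) ≤ p := by exact_mod_cast hp.one_lt.le
  rw [Nat.floor_lt (div_nonneg (Real.log_nonneg hp1) (by positivity)), div_lt_iff₀ (by positivity)] at h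
  rw [← Real.log_lt_log_iff hp0 (Real.rpow_pos_of_pos hxp _), Real.log_rpow hxp]
  calc Real.log p < c1 * (κ * Real.log x) := h
    _ = κ * c1 * Real.log x := by ring

/-- the condition `s ^ 5 < N ^ 2` -/
lemma cond5 {δ ε1 c0 : ℝ} {P : ℝ} {x s v : ℕ} (hP : 0 < P) (hc0 : 0 < c0) (hx : 2 ≤ x)
    (hs2 : (s : ℝ) ≤ (x : ℝ) ^ (1 - δ + 2 * ε1))
    (f4 : 4 * P ^ 2 / c0 ^ 2 * (x : ℝ) ^ (5 - 5 * δ + 11 * ε1) ≤ (x : ℝ) ^ (4 : ℝ)) (hv : c0 * (x : ℝ) ^ 2 ≤ v) :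
    (s : ℝ) ^ 5 * (P * (x : ℝ) ^ (ε1 / 2)) ^ 2 < (v : ℝ) ^ 2 := by
  have hxp : (0 : ℝ) < x := by exact_mod_cast (by omega : 0 < x)
  have hxx4 : (x : ℝ) ^ (4 : ℝ) = (x : ℝ) ^ 4 := by norm_cast
  have hpow5 : (s : ℝ) ^ 5 ≤ (x : ℝ) ^ (5 - 5 * δ + 10 * ε1) := by
    calc (s : ℝ) ^ 5 ≤ ((x : ℝ) ^ (1 - δ + 2 * ε1)) ^ 5 := pow_le_pow_left₀ (Nat.cast_nonneg _) hs2 5
      _ = (x : ℝ) ^ (5 - 5 * δ + 10 * ε1) := by
          rw [← Real.rpow_natCast, ← Real.rpow_mul hxp.le]; congr 1; push_cast; ring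
  have h2 : (c0 * (x : ℝ) ^ 2) ^ 2 ≤ (v : ℝ) ^ 2 := pow_le_pow_left₀ (by positivity) hv 2
  refine lt_of_lt_of_le ?_ h2
  have h3 : ((x : ℝ) ^ (ε1 / 2)) ^ 2 = (x : ℝ) ^ ε1 := by
    rw [← Real.rpow_natCast, ← Real.rpow_mul hxp.le]; congr 1; push_cast; ring
  calc (s : ℝ) ^ 5 * (P * (x : ℝ) ^ (ε1 / 2)) ^ 2 = (s : ℝ) ^ 5 * (P ^ 2 * (x : ℝ) ^ ε1) := by rw [mul_pow, h3]
    _ ≤ (x : ℝ) ^ (5 - 5 * δ + 10 * ε1) * (P ^ 2 * (x : ℝ) ^ ε1) := mul_le_mul_of_nonneg_right hpow5 (by positivity)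
    _ = c0 ^ 2 / 4 * (4 * P ^ 2 / c0 ^ 2 * (x : ℝ) ^ (5 - 5 * δ + 11 * ε1)) := by
        have h4 : (x : ℝ) ^ (5 - 5 * δ + 11 * ε1) = (x : ℝ) ^ (5 - 5 * δ + 10 * ε1) * (x : ℝ) ^ ε1 := by
          rw [← Real.rpow_add hxp]; congr 1; ring
        rw [h4]
        field_simp
    _ ≤ c0 ^ 2 / 4 * (x : ℝ) ^ (4 : ℝ) := mul_le_mul_of_nonneg_left f4 (by positivity)
    _ < (c0 * (x : ℝ) ^ 2) ^ 2 := by
        rw [hxx4]
        have h5 : (c0 * (x : ℝ) ^ 2) ^ 2 = c0 ^ 2 * (x : ℝ) ^ 4 := by ring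
        have h6 : 0 < c0 ^ 2 * (x : ℝ) ^ 4 := by positivity
        rw [h5]
        linarith

/-- the small primes have small cells -/
lemma condH1 {δ ε1 κ A : ℝ} {x s v c1 p : ℕ} (hκ : 0 < κ) (hx : 2 ≤ x) (hs1 : (x : ℝ) ^ (1 - δ + ε1) ≤ s)
    (hc1 : 2 * δ - ε1 ≤ κ * c1) (f5 : A * (x : ℝ) ^ (2 : ℝ) ≤ (x : ℝ) ^ (2 + ε1)) (hv : (v : ℝ) ≤ A * (x : ℝ) ^ 2)
    (hp : p.Prime) (h : s ^ 2 * p < v) : cell κ x p < c1 := by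
  have hx1' : (1 : ℝ) ≤ x := by exact_mod_cast (by omega : 1 ≤ x)
  have hxp : (0 : ℝ) < x := by linarith
  have hxx2 : (x : ℝ) ^ (2 : ℝ) = (x : ℝ) ^ 2 := by norm_cast
  apply cell_lt hκ hx hp
  have h2 : (s : ℝ) ^ 2 * p < v := by exact_mod_cast h
  have h3 : (x : ℝ) ^ (2 * (1 - δ + ε1)) ≤ (s : ℝ) ^ 2 := by
    calc (x : ℝ) ^ (2 * (1 - δ + ε1)) = ((x : ℝ) ^ (1 - δ + ε1)) ^ 2 := by
          rw [← Real.rpow_natCast, ← Real.rpow_mul hxp.le]; congr 1; push_cast; ring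
      _ ≤ (s : ℝ) ^ 2 := pow_le_pow_left₀ (by positivity) hs1 2
  have h5 : (x : ℝ) ^ (2 + ε1) = (x : ℝ) ^ (2 * (1 - δ + ε1)) * (x : ℝ) ^ (2 * δ - ε1) := by
    rw [← Real.rpow_add hxp]; congr 1; ring
  have h6 : (x : ℝ) ^ (2 * (1 - δ + ε1)) * p < (x : ℝ) ^ (2 * (1 - δ + ε1)) * (x : ℝ) ^ (2 * δ - ε1) := by
    calc (x : ℝ) ^ (2 * (1 - δ + ε1)) * p ≤ (s : ℝ) ^ 2 * p := mul_le_mul_of_nonneg_right h3 (Nat.cast_nonneg _)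
      _ < v := h2
      _ ≤ A * (x : ℝ) ^ 2 := hv
      _ ≤ (x : ℝ) ^ (2 + ε1) := by rw [← hxx2]; exact f5
      _ = _ := h5
  have h7 : (p : ℝ) < (x : ℝ) ^ (2 * δ - ε1) := lt_of_mul_lt_mul_left h6 (by positivity)
  exact lt_of_lt_of_le h7 (Real.rpow_le_rpow_of_exponent_le hx1' hc1)

/-- one of two large primes has a large cell -/
lemma condH2 {δ ε1 κ c0 : ℝ} {P : ℝ} {x s v c1 p q : ℕ} (hκ : 0 < κ) (hP : 0 < P) (hc0 : 0 < c0) (hx : 2 ≤ x)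
    (hs2 : (s : ℝ) ≤ (x : ℝ) ^ (1 - δ + 2 * ε1)) (hc1 : κ * c1 ≤ (1 + δ) / 2 - 2 * ε1)
    (f7 : 4 * P / c0 * (x : ℝ) ^ (2 - 3 / 2 * ε1) ≤ (x : ℝ) ^ (2 : ℝ)) (hv : c0 * (x : ℝ) ^ 2 ≤ v)
    (hp : p.Prime) (hq : q.Prime) (h : (v : ℝ) ≤ P * (x : ℝ) ^ (ε1 / 2) * (s * (p * q))) :
    c1 ≤ cell κ x p ∨ c1 ≤ cell κ x q := by
  by_contra hcon
  push Not at hcon
  have hx1' : (1 : ℝ) ≤ x := by exact_mod_cast (by omega : 1 ≤ x)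
  have hxp : (0 : ℝ) < x := by linarith
  have hxx2 : (x : ℝ) ^ (2 : ℝ) = (x : ℝ) ^ 2 := by norm_cast
  have h1 := lt_of_cell hκ hx hp hcon.1
  have h2 := lt_of_cell hκ hx hq hcon.2
  have hp0 : (0 : ℝ) ≤ p := Nat.cast_nonneg _
  have hq0 : (0 : ℝ) ≤ q := Nat.cast_nonneg _
  have h4 : (p : ℝ) * q ≤ (x : ℝ) ^ (1 + δ - 4 * ε1) := by
    calc (p : ℝ) * q ≤ (x : ℝ) ^ (κ * c1) * (x : ℝ) ^ (κ * c1) := mul_le_mul h1.le h2.le hq0 (by positivity)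
      _ = (x : ℝ) ^ (2 * (κ * c1)) := by rw [← Real.rpow_add hxp]; congr 1; ring
      _ ≤ (x : ℝ) ^ (1 + δ - 4 * ε1) := Real.rpow_le_rpow_of_exponent_le hx1' (by linarith)
  have h5 : P * (x : ℝ) ^ (ε1 / 2) * (s * (p * q)) ≤ c0 / 4 * (4 * P / c0 * (x : ℝ) ^ (2 - 3 / 2 * ε1)) := by
    calc P * (x : ℝ) ^ (ε1 / 2) * (s * (p * q)) ≤
          P * (x : ℝ) ^ (ε1 / 2) * ((x : ℝ) ^ (1 - δ + 2 * ε1) * (x : ℝ) ^ (1 + δ - 4 * ε1)) := by gcongr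
      _ = P * (x : ℝ) ^ (2 - 3 / 2 * ε1) := by
          rw [mul_assoc, ← Real.rpow_add hxp, ← Real.rpow_add hxp]; congr 2; ring
      _ = c0 / 4 * (4 * P / c0 * (x : ℝ) ^ (2 - 3 / 2 * ε1)) := by field_simp
  have h6 : c0 / 4 * (4 * P / c0 * (x : ℝ) ^ (2 - 3 / 2 * ε1)) ≤ c0 / 4 * (x : ℝ) ^ (2 : ℝ) :=
    mul_le_mul_of_nonneg_left f7 (by positivity)
  rw [hxx2] at h6
  have h7 : 0 < c0 * (x : ℝ) ^ 2 := by positivity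
  linarith

open Classical in
/-- the pointwise inequality -/
lemma pointB (δ ε1 ε' η κ c0 A : ℝ) (M w k c1 : ℕ) (hδ1 : δ < 1 / 3) (hε1 : 0 < ε1)
    (hε1b : 40 * ε1 ≤ 1 - 3 * δ) (hε1c : 40 * ε1 ≤ 5 * δ - 1) (hη : 0 < η)
    (hκ : 0 < κ) (hκκ : κ * (6 / η) ≤ ε') (hc1a : κ * c1 ≤ (1 + δ) / 2 - 2 * ε1) (hc1b : (1 + δ) / 2 - 3 * ε1 ≤ κ * c1)
    (hc0 : 0 < c0) (hA : 1 ≤ A) (hAM : A ≤ M) : ∃ x0 : ℕ, ∀ x : ℕ, x0 ≤ x → ∀ s U z v : ℕ,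
      (x : ℝ) ^ (1 - δ + ε1) ≤ s → (s : ℝ) ≤ (x : ℝ) ^ (1 - δ + 2 * ε1) → (U : ℝ) ≤ (x : ℝ) ^ ((1 + δ) / 2 - 4 * ε1) →
      w ≤ z → (x : ℝ) ^ (η / 2) ≤ z → 1 ≤ v → c0 * (x : ℝ) ^ 2 ≤ v → (v : ℝ) ≤ A * (x : ℝ) ^ 2 →
      |lam v - tIg κ x c1 w k s z ((x : ℝ) ^ (ε1 / 2)) v -
        tIIg (PhiB κ (Real.log s / Real.log x) (1 - 2 * ε') c1) κ x z v| ≤
      3 / 2 * #(((Ioc U s).filter Nat.Prime).filter (fun p => p ∣ v)) +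
        (if ¬ GoodH w k s z x (M * x) ε' (2 * ε') ((x : ℝ) ^ (ε1 / 2)) v then 4 * (4 : ℝ) ^ (6 / η) else 0) := by
  have hP1 : 1 ≤ Pw w k := Nat.succ_le_of_lt (prod_pos fun p hp => pow_pos (mem_filter.1 hp).2.pos _)
  have hPr : (0 : ℝ) < Pw w k := by exact_mod_cast hP1
  have ev4 := Pool.Agent.N792.Lam.pow_ev (4 * Pw w k ^ 2 / c0 ^ 2) (5 - 5 * δ + 11 * ε1) 4 (by linarith)
  have ev5 := Pool.Agent.N792.Lam.pow_ev A 2 (2 + ε1) (by linarith)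
  have ev6 := Pool.Agent.N792.Lam.pow_ev A 2 3 (by norm_num)
  have ev7 := Pool.Agent.N792.Lam.pow_ev (4 * Pw w k / c0) (2 - 3 / 2 * ε1) 2 (by linarith)
  obtain ⟨x0, h0⟩ := eventually_atTop.1 (((ev4.and ev5).and ev6).and ev7)
  refine ⟨x0 + 2, fun x hx s U z v hs1 hs2 hU1 hwz hz1 hv0 hv1 hv2 => ?_⟩
  obtain ⟨⟨⟨f4, f5⟩, f6⟩, f7⟩ := h0 x (by omega)
  have hx2 : 2 ≤ x := by omega
  have hx1 : (1 : ℝ) < x := by exact_mod_cast (by omega : 1 < x)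
  have hx1' : (1 : ℝ) ≤ x := hx1.le
  have hxp : (0 : ℝ) < x := by linarith
  have hxx2 : (x : ℝ) ^ (2 : ℝ) = (x : ℝ) ^ 2 := by norm_cast
  have hxx3 : (x : ℝ) ^ (3 : ℝ) = (x : ℝ) ^ 3 := by norm_cast
  rw [hxx2, hxx3] at f6
  have hv4 : v ≤ x ^ 3 := by exact_mod_cast hv2.trans f6
  have hM1 : (1 : ℝ) ≤ M := hA.trans hAM
  have hvY : v ≤ (M * x) * (M * x) := by
    have h4 : A ≤ (M : ℝ) * M := by nlinarith
    have h2 : A * (x : ℝ) ^ 2 ≤ ((M : ℝ) * x) * (M * x) := by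
      calc A * (x : ℝ) ^ 2 ≤ ((M : ℝ) * M) * (x : ℝ) ^ 2 := mul_le_mul_of_nonneg_right h4 (by positivity)
        _ = ((M : ℝ) * x) * (M * x) := by ring
    exact_mod_cast hv2.trans h2
  have hs7 : 1 ≤ s := by
    have h1 : (1 : ℝ) ≤ s := (Real.one_le_rpow hx1' (by linarith)).trans hs1
    exact_mod_cast h1
  have hD1 : 1 ≤ (x : ℝ) ^ (ε1 / 2) := Real.one_le_rpow hx1' (by positivity)
  by_cases hg : GoodH w k s z x (M * x) ε' (2 * ε') ((x : ℝ) ^ (ε1 / 2)) v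
  · rw [if_neg (not_not_intro hg), add_zero]
    have h1 := pwH κ ε' (2 * ε') η ((x : ℝ) ^ (ε1 / 2)) v w k s x z (M * x) c1 hκ hη hD1 hx2 hs7 hwz hz1
      hv0 hv4 hκκ hg hvY (cond5 hPr hc0 hx2 hs2 f4 hv1)
      (fun p hp _ h => condH1 hκ hx2 hs1 (by linarith) f5 hv2 hp h)
      (fun p q hp hq _ _ h => condH2 hκ hPr hc0 hx2 hs2 hc1a f7 hv1 hp hq h)
    refine h1.trans (mul_le_mul_of_nonneg_left ?_ (by norm_num))
    have hsub : v.primeFactors.filter (fun p => p ≤ s ∧ c1 ≤ cell κ x p) ⊆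
        ((Ioc U s).filter Nat.Prime).filter (fun p => p ∣ v) := by
      intro p hp
      rw [mem_filter] at hp
      obtain ⟨p1, p2, p3⟩ := hp
      have p4 := Nat.prime_of_mem_primeFactors p1
      rw [mem_filter, mem_filter, mem_Ioc]
      refine ⟨⟨⟨?_, p2⟩, p4⟩, Nat.dvd_of_mem_primeFactors p1⟩
      by_contra hcon
      push Not at hcon
      have h3 : (p : ℝ) < (x : ℝ) ^ (κ * c1) := by
        calc (p : ℝ) ≤ U := by exact_mod_cast hcon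
          _ ≤ (x : ℝ) ^ ((1 + δ) / 2 - 4 * ε1) := hU1
          _ < (x : ℝ) ^ (κ * c1) := Real.rpow_lt_rpow_of_exponent_lt hx1 (by linarith)
      have h4 := cell_lt hκ hx2 p4 h3
      omega
    exact_mod_cast card_le_card hsub
  · rw [if_pos hg]
    have h0 : 0 ≤ 3 / 2 * (#(((Ioc U s).filter Nat.Prime).filter (fun p => p ∣ v)) : ℝ) := by positivity
    have h4η : 1 ≤ (4 : ℝ) ^ (6 / η) := Real.one_le_rpow (by norm_num) (by positivity)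
    obtain ⟨p1, p2⟩ := pvH κ (Real.log s / Real.log x) (1 - 2 * ε') η ((x : ℝ) ^ (ε1 / 2)) v w k s x z c1 hη hx2
      hz1 hv0 hv4
    have p3 := lam_abs v
    have p4 : |lam v - tIg κ x c1 w k s z ((x : ℝ) ^ (ε1 / 2)) v -
        tIIg (PhiB κ (Real.log s / Real.log x) (1 - 2 * ε') c1) κ x z v| ≤
        |lam v| + |tIg κ x c1 w k s z ((x : ℝ) ^ (ε1 / 2)) v| +
        |tIIg (PhiB κ (Real.log s / Real.log x) (1 - 2 * ε') c1) κ x z v| :=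
      (abs_sub _ _).trans (add_le_add (abs_sub _ _) le_rfl)
    linarith

end Pool.Agent.H568
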