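import Mathlib
import Pool.Agent.H568.Qc1

/-!
The number of the bad values, the sums over windows.
-/

set_option autoImplicit false

namespace Pool.Agent.H568

open Finset Filter Topology
open Pool.Agent.N792 (Fn rho Rough R2 fv rg rho_le_two)
open Pool.Agent.N791.C2 (lam root_int)
open Pool.Agent.N792.CH
open Pool.Agent.N791.U (r1U range_bdU)

open Classical in
/-- the number of the bad values -/
lemma badB (a : ℤ) (ha : 0 < a) (Λ : ℝ) (hΛ : 1 ≤ Λ) (e δ2 : ℝ) (he : 0 < e) (hδ2 : 0 < δ2) (hδ2' : δ2 ≤ 1 / 10)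
    (M : ℕ) (hM1 : 1 ≤ M) : ∃ K2 K3 : ℝ, 0 < K2 ∧ 0 < K3 ∧ ∀ (R w k : ℕ) (η ε' : ℝ), 1 ≤ w → 0 < η → η ≤ 1 / 10 →
    0 < ε' → ε' ≤ 1 / 400 → ∃ x0 : ℕ, ∀ x : ℕ, x0 ≤ x → ∀ (b : ℤ) (u C s z : ℕ), (b : ℝ) ^ 2 ≤ Λ * x → u < x → x ≤ R * u →
    (x : ℝ) ^ (1 / 2 + e) ≤ C → C ≤ x → (x : ℝ) ^ (η / 2) ≤ z → (z : ℝ) ≤ (x : ℝ) ^ η → (x : ℝ) ^ (1 / 4 : ℝ) ≤ s →
    (s : ℝ) * (x : ℝ) ^ ε' ≤ x →
    ∑ c ∈ Icc 1 C, (#((Ioc u x).filter (fun n => ¬ GoodH w k s z x (M * x) ε' (2 * ε') ((x : ℝ) ^ δ2)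
      (Fn a b n + c))) : ℝ) ≤ (K2 * Real.exp (-(10 / η)) + 3 / w + 2 * w / 2 ^ k + K3 * (ε' / η ^ 2) +
        K3 * (4 * ε' / η ^ 2)) * (C * x) := by
  obtain ⟨K2, hK2, HBL⟩ := bl (10 / δ2) (by rw [le_div_iff₀ hδ2]; linarith)
  obtain ⟨K3, hK3, HWN⟩ := wnH a ha Λ hΛ e he M hM1
  refine ⟨K2, K3, hK2, hK3, fun R w k η ε' hw1 hη hη10 hε' hε'2 => ?_⟩
  obtain ⟨xb, Hb⟩ := HBL δ2 η hδ2 hδ2' hη hη10
  obtain ⟨xc, Hc⟩ := bp w k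
  obtain ⟨xd, Hd⟩ := bsH a ha Λ e he R w hw1
  obtain ⟨xe, He⟩ := HWN R η ε' hη hη10 hε' (by linarith)
  obtain ⟨xf, Hf⟩ := HWN R η (4 * ε') hη hη10 (by linarith) (by linarith)
  have ev8 := Pool.Agent.N792.Lam.pow_ev (M : ℝ) 1 (1 + 2 * ε') (by linarith)
  obtain ⟨xh, Hh⟩ := eventually_atTop.1 ev8
  refine ⟨xb + xc + xd + xe + xf + xh + 2, fun x hx b u C s z hbX hux hxu hC hCx hz1 hz2 hs4 hsε => ?_⟩
  have f8 := Hh x (by omega)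
  rw [Real.rpow_one] at f8
  have hx1' : (1 : ℝ) ≤ x := by exact_mod_cast (by omega : 1 ≤ x)
  have hxp : (0 : ℝ) < x := by linarith
  have hC12 : (x : ℝ) ^ (1 / 2 : ℝ) ≤ C := (Real.rpow_le_rpow_of_exponent_le hx1' (by linarith)).trans hC
  have hexp : Real.exp (-(10 / δ2 * δ2 / η)) = Real.exp (-(10 / η)) := by
    congr 2
    field_simp
  have hx101 : (x : ℝ) ≤ (x : ℝ) ^ (1 + 1 / 100 : ℝ) := by
    calc (x : ℝ) = (x : ℝ) ^ (1 : ℝ) := (Real.rpow_one _).symm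
      _ ≤ (x : ℝ) ^ (1 + 1 / 100 : ℝ) := Real.rpow_le_rpow_of_exponent_le hx1' (by norm_num)
  exact bad_leH a b u x C s w k z (M * x) ((x : ℝ) ^ δ2) ε' (2 * ε') (K2 * Real.exp (-(10 / η))) (3 / w) (2 * w / 2 ^ k)
    (K3 * (ε' / η ^ 2)) (K3 * (4 * ε' / η ^ 2)) hw1
    (by
      intro n hn
      have := Hb x (by omega) C z (Fn a b n) hC12 hz1 hz2
      rw [hexp] at this
      exact this)
    (Hd x (by omega) b hbX u C hux hxu hC hCx)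
    (by
      intro n hn
      exact Hc x (by omega) C (Fn a b n) hC12)
    (by
      refine le_trans (sum_le_sum fun c _ => ?_) (He x (by omega) b hbX u C z s hux hxu hC hCx hz1 hs4 (hsε.trans hx101))
      have hsub : (Ioc u x).filter (fun n => ∃ j : ℕ, Rough z j ∧ Squarefree j ∧ (s : ℝ) < j ∧
          (j : ℝ) ≤ s * (x : ℝ) ^ ε' ∧ j ∣ Fn a b n + c) ⊆ (Ioc u x).filter (fun n => ∃ j : ℕ, Rough z j ∧ Squarefree j ∧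
          (s : ℝ) < j ∧ (j : ℝ) ≤ s * (x : ℝ) ^ ε' ∧ j ≤ M * x ∧ j ∣ Fn a b n + c) := by
        intro n hn
        rw [mem_filter] at hn ⊢
        obtain ⟨hn1, j, j1, j2, j3, j4, j5⟩ := hn
        have j6 : j ≤ x := by exact_mod_cast j4.trans hsε
        exact ⟨hn1, j, j1, j2, j3, j4, j6.trans (Nat.le_mul_of_pos_left x (by omega)), j5⟩
      exact_mod_cast card_le_card hsub)
    (by
      have hww : (x : ℝ) ^ (1 - 2 * ε') * (x : ℝ) ^ (4 * ε') = (x : ℝ) ^ (1 + 2 * ε') := by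
        rw [← Real.rpow_add hxp]; congr 1; ring
      refine le_trans (sum_le_sum fun c _ => ?_) (Hf x (by omega) b hbX u C z ((x : ℝ) ^ (1 - 2 * ε')) hux hxu hC hCx hz1
        (Real.rpow_le_rpow_of_exponent_le hx1' (by linarith))
        (by rw [hww]; exact Real.rpow_le_rpow_of_exponent_le hx1' (by linarith)))
      have hsub : (Ioc u x).filter (fun n => ∃ j : ℕ, Rough z j ∧ Squarefree j ∧ (x : ℝ) ^ (1 - 2 * ε') < j ∧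
          j ≤ M * x ∧ j ∣ Fn a b n + c) ⊆ (Ioc u x).filter (fun n => ∃ j : ℕ, Rough z j ∧ Squarefree j ∧
          (x : ℝ) ^ (1 - 2 * ε') < j ∧ (j : ℝ) ≤ (x : ℝ) ^ (1 - 2 * ε') * (x : ℝ) ^ (4 * ε') ∧ j ≤ M * x ∧
          j ∣ Fn a b n + c) := by
        intro n hn
        rw [mem_filter] at hn ⊢
        obtain ⟨hn1, j, j1, j2, j3, j4, j5⟩ := hn
        refine ⟨hn1, j, j1, j2, j3, ?_, j4, j5⟩
        rw [hww]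
        refine le_trans ?_ f8
        exact_mod_cast j4
      exact_mod_cast card_le_card hsub)
    (by positivity) (by positivity)
    (fun c hc n hn => by have := (mem_Icc.1 hc).1; omega)

open Classical in
/-- the type I sums over the windows `(y, x]` -/
lemma typeIB (a : ℤ) (ha : 0 < a) (Λ : ℝ) (hΛ : 1 ≤ Λ) (e δ2 : ℝ) (he : 0 < e) (hδ2 : 0 < δ2) (hδ2' : δ2 ≤ 1 / 20) :
    ∃ K1 : ℝ, 1 ≤ K1 ∧ ∃ η0 : ℝ, 0 < η0 ∧ η0 ≤ 1 / 10 ∧ ∀ η : ℝ, 0 < η → η ≤ η0 → ∀ w k : ℕ, a.natAbs + 4 ≤ w →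
    ∀ (τ : ℝ) (R : ℕ), 0 < τ → K1 * (2 : ℝ) ^ (-(δ2 / (K1 * η))) / η ^ 2 ≤ τ → ∃ x0 : ℕ, ∀ x : ℕ, x0 ≤ x →
    ∀ (b : ℤ) (u y C J s c1 : ℕ) (κ : ℝ), (b : ℝ) ^ 2 ≤ Λ * x → b.natAbs ≤ u → u ≤ y → y ≤ x → x ≤ R * u →
    (x : ℝ) ^ (1 / 2 + e) ≤ C → C ≤ x → (x : ℝ) ^ (η / 2) ≤ ((2 ^ 2 ^ J : ℕ) : ℝ) → ((2 ^ 2 ^ J : ℕ) : ℝ) ≤ (x : ℝ) ^ η →
    (s : ℝ) ≤ (x : ℝ) ^ (1 - 3 * δ2) →
    ∃ F : ℕ → ℝ, (∀ c, 0 ≤ F c) ∧ (∀ c ∈ Icc 1 C, (x : ℝ) ≤ F c ∨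
      |∑ n ∈ Ioc y x, tIg κ x c1 w k s (2 ^ 2 ^ J) ((x : ℝ) ^ δ2) (Fn a b n + c)| ≤ F c) ∧
      ∑ c ∈ Icc 1 C, F c ≤ 3 * τ * (C * x) := by
  obtain ⟨K1, hK1, HTS⟩ := tsH a ha Λ hΛ e he
  obtain ⟨η1, hη1, hη1', HTS1⟩ := HTS δ2 hδ2 hδ2'
  refine ⟨K1, hK1, η1, hη1, hη1', fun η hη hηη w k hwa τ R hτ hE => ?_⟩
  have hP1 : 1 ≤ Pw w k := Nat.succ_le_of_lt (prod_pos fun p hp => pow_pos (mem_filter.1 hp).2.pos _)
  have hPp : ∀ p : ℕ, p.Prime → p ∣ Pw w k → p ≤ w := by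
    intro p hp hd
    unfold Pw at hd
    obtain ⟨q, hq, hqd⟩ := (Prime.dvd_finsetProd_iff hp.prime _).1 hd
    rw [mem_filter, mem_Icc] at hq
    have := (Nat.prime_dvd_prime_iff_eq hp hq.2).1 (hp.dvd_of_dvd_pow hqd)
    omega
  obtain ⟨xa, Ha⟩ := HTS1 η hη hηη w (Pw w k) hwa hP1 hPp τ R hτ
  refine ⟨xa + 1, fun x hx b u y C J s c1 κ hbX hbu huy hyx hxu hC hCx hz1 hJ1 hs4 => ?_⟩
  have hx1' : (1 : ℝ) ≤ x := by exact_mod_cast (by omega : 1 ≤ x)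
  have hxp : (0 : ℝ) < x := by linarith
  have hCx0 : (0 : ℝ) ≤ C * x := by positivity
  obtain ⟨ψ, hψ1, hψ2, hψ3⟩ := psi_per ps ha b w k
  rcases Nat.eq_or_lt_of_le hyx with hy | hy
  · refine ⟨fun _ => 0, fun _ => le_rfl, fun c _ => Or.inr ?_, ?_⟩
    · rw [hy]
      simp
    · rw [sum_const_zero]
      positivity
  · obtain ⟨Ex, hEx1, hEx2, hEx3⟩ := Ha x (by omega) b hbX y C J s hy (hxu.trans (Nat.mul_le_mul_left _ huy)) hC hCx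
      hz1 hJ1 hs4
    have h1 := hEx3 ψ hψ1 hψ2
    refine ⟨fun c => if c ∈ Ex then (x : ℝ) else
      |∑ n ∈ Ioc y x, tIg κ x c1 w k s (2 ^ 2 ^ J) ((x : ℝ) ^ δ2) (Fn a b n + c)|, fun c => ?_, fun c _ => ?_, ?_⟩
    · dsimp only
      split_ifs
      · exact hxp.le
      · exact abs_nonneg _
    · dsimp only
      by_cases hcE : c ∈ Ex
      · rw [if_pos hcE]; exact Or.inl le_rfl
      · rw [if_neg hcE]; exact Or.inr le_rfl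
    · dsimp only
      rw [← sum_sdiff hEx1]
      have h2 : ∑ c ∈ Ex, (if c ∈ Ex then (x : ℝ) else
          |∑ n ∈ Ioc y x, tIg κ x c1 w k s (2 ^ 2 ^ J) ((x : ℝ) ^ δ2) (Fn a b n + c)|) ≤ τ * (C * x) := by
        rw [sum_congr rfl (fun c hc => if_pos hc), sum_const, nsmul_eq_mul]
        calc (#Ex : ℝ) * x ≤ (τ * C) * x := mul_le_mul_of_nonneg_right hEx2 hxp.le
          _ = _ := by ring
      have h3 : ∑ c ∈ Icc 1 C \ Ex, (if c ∈ Ex then (x : ℝ) else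
          |∑ n ∈ Ioc y x, tIg κ x c1 w k s (2 ^ 2 ^ J) ((x : ℝ) ^ δ2) (Fn a b n + c)|) ≤
          (K1 * (2 : ℝ) ^ (-(δ2 / (K1 * η))) / η ^ 2 + τ) * (C * x) := by
        rw [sum_congr rfl (fun c hc => if_neg (mem_sdiff.1 hc).2)]
        refine le_trans (sum_le_sum fun c hc => ?_) h1
        exact tIg_sum a b κ y x c c1 s w k _ _ (ψ c) (fun n hn => hψ3 c n (mem_Icc.1 (mem_sdiff.1 hc).1).1
          (hbu.trans (huy.trans (mem_Ioc.1 hn).1.le)))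
      have h4 : (K1 * (2 : ℝ) ^ (-(δ2 / (K1 * η))) / η ^ 2 + τ) * (C * x) ≤ (τ + τ) * (C * x) :=
        mul_le_mul_of_nonneg_right (by linarith) hCx0
      linarith

/-- the type II sums over the windows `(y, x]` -/
lemma typeIIB (a : ℤ) (ha : 0 < a) (Λ : ℝ) (hΛ : 1 ≤ Λ) (e ε η κ κ' τ : ℝ) (R : ℕ) (he : 0 < e) (hε : 0 < ε)
    (hε1 : ε ≤ 1 / 100) (hη : 0 < η) (hη1 : η ≤ 1 / 10) (hτ : 0 < τ) (hκ : 0 < κ) (hκ' : κ * (6 / η) ≤ κ') (hκε : κ' ≤ ε) :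
    ∃ x0 : ℕ, ∀ x : ℕ, x0 ≤ x → ∀ (b : ℤ) (u y C s z c1 : ℕ), (b : ℝ) ^ 2 ≤ Λ * C → u ≤ y → y ≤ x → x ≤ R * u →
    (x : ℝ) ^ (3 / 2 + ε) ≤ C * s → (x : ℝ) ^ (1 / 2 + e) ≤ C → C ≤ x → (x : ℝ) ^ (η / 2) ≤ z → (z : ℝ) ≤ (x : ℝ) ^ η →
    ∑ c ∈ Icc 1 C, |∑ n ∈ Ioc y x, tIIg (PhiB κ (Real.log s / Real.log x) (1 - 2 * ε) c1) κ x z (Fn a b n + c)| ≤
      τ * (C * x) := by
  obtain ⟨xg, Hg⟩ := t2G a ha Λ hΛ e he ε η κ κ' τ R hε hε1 hη hη1 hτ hκ hκ' hκε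
  refine ⟨xg, fun x hx b u y C s z c1 hbC huy hyx hxu hCs hC hCx hz1 hJ1 => ?_⟩
  rcases Nat.eq_or_lt_of_le hyx with hy | hy
  · have e1 : ∑ c ∈ Icc 1 C, |∑ n ∈ Ioc y x, tIIg (PhiB κ (Real.log s / Real.log x) (1 - 2 * ε) c1) κ x z
        (Fn a b n + c)| = 0 := by
      refine sum_eq_zero fun c _ => ?_
      rw [hy]
      simp
    rw [e1]
    positivity
  · exact Hg x hx b y C s z _ hbC hy (hxu.trans (Nat.mul_le_mul_left _ huy)) hCs hC hCx hz1 hJ1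
      (fun π => PhiB_le _ _ _ _ π) (fun π h => PhiB_ne _ _ _ _ π h)

end Pool.Agent.H568
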