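import Mathlib
import Pool.Agent.H568.Qc2

/-!
The mean values of the function of Liouville with the loss `(3/2) log (2 (1 - δ) / (1 + δ))`: the assembly.
-/

set_option autoImplicit false

namespace Pool.Agent.H568

open Finset Filter Topology
open Pool.Agent.N792 (Fn rho Rough R2 fv rg rho_le_two)
open Pool.Agent.N791.C2 (lam root_int)
open Pool.Agent.N792.CH
open Pool.Agent.N791.U (r1U range_bdU)

open Classical in
/-- the inequality for one value of `c` -/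
lemma oneC (L f g P : ℕ → ℝ) (Gd : ℕ → Prop) (u v x : ℕ) (κ0 F1 F2 W D s S1 : ℝ) (huv : u ≤ v) (hvx : v ≤ x)
    (hκ0 : 0 ≤ κ0) (hL : ∀ n, |L n| ≤ 1) (hF1 : 0 ≤ F1) (hF2 : 0 ≤ F2) (hW : 0 ≤ W) (hD : 0 ≤ D) (hs : 0 ≤ s)
    (hE : ∀ n ∈ Ioc u v, |L n - f n - g n| ≤ 3 / 2 * P n + (if ¬ Gd n then W else 0))
    (hP : ∑ n ∈ Ioc u v, P n ≤ ((v : ℝ) - u) * S1 + D + 2 * s) (hS1 : 3 / 2 * S1 ≤ κ0)
    (h1 : (x : ℝ) ≤ F1 ∨ |∑ n ∈ Ioc u x, f n| ≤ F1) (h2 : (x : ℝ) ≤ F2 ∨ |∑ n ∈ Ioc v x, f n| ≤ F2) :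
    max 0 (|∑ n ∈ Ioc u v, L n| - κ0 * ((v : ℝ) - u)) ≤
      F1 + F2 + |∑ n ∈ Ioc u x, g n| + |∑ n ∈ Ioc v x, g n| + W * (#((Ioc u x).filter (fun n => ¬ Gd n)) : ℝ) +
        3 / 2 * D + 3 * s := by
  obtain ⟨G1, hG1⟩ : ∃ G1 : ℝ, G1 = |∑ n ∈ Ioc u x, g n| := ⟨_, rfl⟩
  obtain ⟨G2, hG2⟩ : ∃ G2 : ℝ, G2 = |∑ n ∈ Ioc v x, g n| := ⟨_, rfl⟩
  obtain ⟨Bd, hBd⟩ : ∃ Bd : ℝ, Bd = W * (#((Ioc u x).filter (fun n => ¬ Gd n)) : ℝ) := ⟨_, rfl⟩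
  have g3 : 0 ≤ G1 := by rw [hG1]; exact abs_nonneg _
  have g4 : 0 ≤ G2 := by rw [hG2]; exact abs_nonneg _
  have g6 : 0 ≤ Bd := by rw [hBd]; positivity
  have huv' : (0 : ℝ) ≤ (v : ℝ) - u := by
    have : (u : ℝ) ≤ v := by exact_mod_cast huv
    linarith
  rw [← hG1, ← hG2, ← hBd]
  refine max_le (by positivity) ?_
  have htriv : |∑ n ∈ Ioc u v, L n| ≤ x := by
    refine (abs_sum_le_sum_abs _ _).trans ((sum_le_card_nsmul _ _ _ fun n _ => hL n).trans ?_)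
    rw [nsmul_eq_mul, mul_one, Nat.card_Ioc]
    have : v - u ≤ x := by omega
    exact_mod_cast this
  have hκv : 0 ≤ κ0 * ((v : ℝ) - u) := mul_nonneg hκ0 huv'
  rcases h1 with k1 | k1
  · linarith
  rcases h2 with k2 | k2
  · linarith
  -- the identity
  have hid : ∑ n ∈ Ioc u v, L n = (∑ n ∈ Ioc u x, f n - ∑ n ∈ Ioc v x, f n) + (∑ n ∈ Ioc u x, g n - ∑ n ∈ Ioc v x, g n) +
      ∑ n ∈ Ioc u v, (L n - f n - g n) := by
    rw [← sum_Ioc_consecutive _ huv hvx, ← sum_Ioc_consecutive _ huv hvx, add_sub_cancel_right, add_sub_cancel_right,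
      ← sum_add_distrib, ← sum_add_distrib]
    exact sum_congr rfl fun n _ => by ring
  have hsum : |∑ n ∈ Ioc u v, L n| ≤ (F1 + F2) + (G1 + G2) + ∑ n ∈ Ioc u v, |L n - f n - g n| := by
    rw [hid, hG1, hG2]
    refine (abs_add_le _ _).trans (add_le_add ((abs_add_le _ _).trans (add_le_add ?_ ?_)) (abs_sum_le_sum_abs _ _))
    · exact (abs_sub _ _).trans (add_le_add k1 k2)
    · exact abs_sub _ _
  have hErs : ∑ n ∈ Ioc u v, |L n - f n - g n| ≤ 3 / 2 * (((v : ℝ) - u) * S1 + D + 2 * s) + Bd := by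
    refine (sum_le_sum hE).trans ?_
    rw [sum_add_distrib, ← mul_sum, ← sum_filter, sum_const, nsmul_eq_mul]
    apply add_le_add
    · exact mul_le_mul_of_nonneg_left hP (by norm_num)
    · rw [hBd, mul_comm]
      apply mul_le_mul_of_nonneg_left _ hW
      exact_mod_cast card_le_card (filter_subset_filter _ (Ioc_subset_Ioc_right hvx))
  have hκs : 3 / 2 * (((v : ℝ) - u) * S1) ≤ κ0 * ((v : ℝ) - u) := by
    calc 3 / 2 * (((v : ℝ) - u) * S1) = (3 / 2 * S1) * ((v : ℝ) - u) := by ring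
      _ ≤ κ0 * ((v : ℝ) - u) := mul_le_mul_of_nonneg_right hS1 huv'
  linarith

open Classical in
theorem mvB (a : ℤ) (ha : 0 < a) (Λ : ℝ) (hΛ : 1 ≤ Λ) (δ κ0 : ℝ) (hδ : 1 / 5 < δ) (hδ1 : δ < 1 / 3)
    (hκ0 : lossB δ < κ0) : MVK a Λ (1 / 2 + δ) κ0 := by
  intro τ R hτ
  have hδp : 0 < δ := by linarith
  have hκ0p : 0 < κ0 := (lossB_pos hδp hδ1).trans hκ0
  obtain ⟨ε1, hε1, hε1a, hε1b, hε1c, hε1d⟩ := par_B hδ hδ1 hκ0
  obtain ⟨c0, A, hc0, hA, X0, hX0⟩ := range_bdU a ha Λ hΛ R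
  obtain ⟨M, hMd⟩ : ∃ M : ℕ, M = ⌈A⌉₊ := ⟨_, rfl⟩
  have hAM : A ≤ M := by rw [hMd]; exact Nat.le_ceil _
  have hM1 : 1 ≤ M := by
    have : (1 : ℝ) ≤ M := hA.trans hAM
    exact_mod_cast this
  obtain ⟨K1, hK1, η1, hη1, hη1', HI⟩ := typeIB a ha Λ hΛ δ (ε1 / 2) hδp (by linarith) (by linarith)
  obtain ⟨K2, K3, hK2, hK3, HB⟩ := badB a ha Λ hΛ δ (ε1 / 2) hδp (by linarith) (by linarith) M hM1
  obtain ⟨η2, hη2, hη2'⟩ := par_eta4 K1 K2 (ε1 / 2) (τ / 48) hK1 hK2 (by linarith) (by linarith)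
  obtain ⟨η, hηd⟩ : ∃ η : ℝ, η = min η1 η2 := ⟨_, rfl⟩
  have hη : 0 < η := by rw [hηd]; exact lt_min hη1 hη2
  have hηη1 : η ≤ η1 := by rw [hηd]; exact min_le_left _ _
  have hη10 : η ≤ 1 / 10 := hηη1.trans hη1'
  obtain ⟨E1, E2⟩ := hη2' η hη (by rw [hηd]; exact min_le_right _ _)
  obtain ⟨W, hWd⟩ : ∃ W : ℝ, W = 4 * (4 : ℝ) ^ (6 / η) := ⟨_, rfl⟩
  have hW : 0 < W := by rw [hWd]; positivity
  rw [← hWd] at E2
  obtain ⟨ε', hε'd⟩ : ∃ ε' : ℝ, ε' = min (ε1 / 2) (min (1 / 400) (τ * η ^ 2 / (128 * W * K3))) := ⟨_, rfl⟩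
  have hε' : 0 < ε' := by rw [hε'd]; exact lt_min (by linarith) (lt_min (by norm_num) (by positivity))
  have hε'1 : ε' ≤ ε1 / 2 := by rw [hε'd]; exact min_le_left _ _
  have hε'2 : ε' ≤ 1 / 400 := by rw [hε'd]; exact (min_le_right _ _).trans (min_le_left _ _)
  have hε'3 : ε' ≤ τ * η ^ 2 / (128 * W * K3) := by rw [hε'd]; exact (min_le_right _ _).trans (min_le_right _ _)
  have hB5 : W * (K3 * (4 * ε' / η ^ 2)) ≤ τ / 32 := by
    rw [le_div_iff₀ (by positivity)] at hε'3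
    have h1 : W * (K3 * (4 * ε' / η ^ 2)) = (ε' * (128 * W * K3)) / (32 * η ^ 2) := by field_simp; ring
    rw [h1, div_le_div_iff₀ (by positivity) (by norm_num)]
    linarith
  have hB4 : W * (K3 * (ε' / η ^ 2)) ≤ τ / 32 := by
    refine le_trans ?_ hB5
    have : ε' / η ^ 2 ≤ 4 * ε' / η ^ 2 := by gcongr; linarith
    exact mul_le_mul_of_nonneg_left (mul_le_mul_of_nonneg_left this hK3.le) hW.le
  obtain ⟨κ, hκd⟩ : ∃ κ : ℝ, κ = ε' * η / 6 := ⟨_, rfl⟩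
  have hκ : 0 < κ := by rw [hκd]; positivity
  have hκκ : κ * (6 / η) ≤ ε' := by rw [hκd]; field_simp; exact le_rfl
  have hκε : κ ≤ ε1 := by
    rw [hκd]
    have : ε' * η ≤ ε1 * 1 := mul_le_mul (by linarith) (by linarith) hη.le hε1.le
    linarith
  obtain ⟨w, hwd⟩ : ∃ w : ℕ, w = max (a.natAbs + 4) ⌈96 * W / τ⌉₊ := ⟨_, rfl⟩
  have hwa : a.natAbs + 4 ≤ w := by rw [hwd]; exact le_max_left _ _
  have hw1 : 1 ≤ w := by omega
  have hwr : (0 : ℝ) < w := by exact_mod_cast hw1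
  have hB2 : W * (3 / w) ≤ τ / 32 := by
    have h1 : 96 * W / τ ≤ w := by
      have : ((⌈96 * W / τ⌉₊ : ℕ) : ℝ) ≤ w := by rw [hwd]; exact_mod_cast le_max_right _ _
      exact (Nat.le_ceil _).trans this
    rw [div_le_iff₀ hτ] at h1
    have h2 : W * (3 / w) = 3 * W / w := by ring
    rw [h2, div_le_div_iff₀ hwr (by norm_num)]
    linarith
  obtain ⟨k, hk⟩ : ∃ k : ℕ, (1 / 2 : ℝ) ^ k < τ / (64 * W * w) :=
    exists_pow_lt_of_lt_one (by positivity) (by norm_num)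
  have hB3 : W * (2 * w / 2 ^ k) ≤ τ / 32 := by
    have h1 : W * (2 * w / 2 ^ k) = (2 * W * w) * (1 / 2 : ℝ) ^ k := by
      rw [div_pow, one_pow]; ring
    rw [h1]
    calc (2 * W * w) * (1 / 2 : ℝ) ^ k ≤ (2 * W * w) * (τ / (64 * W * w)) :=
          mul_le_mul_of_nonneg_left hk.le (by positivity)
      _ = τ / 32 := by field_simp; norm_num
  have hBall : W * (K2 * Real.exp (-(10 / η)) + 3 / w + 2 * w / 2 ^ k + K3 * (ε' / η ^ 2) + K3 * (4 * ε' / η ^ 2)) ≤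
      5 * τ / 32 := by
    have h1 : W * (K2 * Real.exp (-(10 / η)) + 3 / w + 2 * w / 2 ^ k + K3 * (ε' / η ^ 2) + K3 * (4 * ε' / η ^ 2)) =
        W * (K2 * Real.exp (-(10 / η))) + W * (3 / w) + W * (2 * w / 2 ^ k) + W * (K3 * (ε' / η ^ 2)) +
          W * (K3 * (4 * ε' / η ^ 2)) := by ring
    rw [h1]
    linarith
  clear hB2 hB3 hB4 hB5 hε'3 hk
  -- the cell of the large primes
  obtain ⟨c1, hc1d⟩ : ∃ c1 : ℕ, c1 = ⌊((1 + δ) / 2 - 2 * ε1) / κ⌋₊ := ⟨_, rfl⟩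
  have hc1a : κ * c1 ≤ (1 + δ) / 2 - 2 * ε1 := by
    have h1 : (c1 : ℝ) ≤ ((1 + δ) / 2 - 2 * ε1) / κ := by
      rw [hc1d]; exact Nat.floor_le (div_nonneg (by linarith) hκ.le)
    rw [le_div_iff₀ hκ] at h1
    linarith
  have hc1b : (1 + δ) / 2 - 3 * ε1 ≤ κ * c1 := by
    have h1 : ((1 + δ) / 2 - 2 * ε1) / κ < c1 + 1 := by
      rw [hc1d]; exact Nat.lt_floor_add_one _
    rw [div_lt_iff₀ hκ] at h1
    linarith
  obtain ⟨xa, Ha⟩ := HI η hη hηη1 w k hwa (τ / 48) R (by linarith) E1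
  obtain ⟨xb, Hb⟩ := HB R w k η ε' hw1 hη hη10 hε' hε'2
  obtain ⟨xc, Hc⟩ := pointB δ ε1 ε' η κ c0 A M w k c1 hδ1 hε1 hε1b hε1c hη hκ hκκ hc1a hc1b hc0 hA hAM
  obtain ⟨xg, Hg⟩ := typeIIB a ha Λ hΛ δ ε' η κ ε' (τ / 16) R hδp hε' (by linarith) hη hη10 (by linarith) hκ hκκ le_rfl
  obtain ⟨xi, Hi⟩ := devS a ha Λ hΛ δ (τ / 16) hδp (by linarith)
  have ev1 := Pool.Agent.N792.Lam.pow_ev 2 0 η hη
  have ev2 := Pool.Agent.N792.Lam.pow_ev w 0 (η / 2) (by linarith)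
  have ev3 := Pool.Agent.N792.Lam.pow_ev 2 (1 - δ + ε1) (1 - δ + 2 * ε1) (by linarith)
  have ev9 := Pool.Agent.N792.Lam.pow_ev 2 ((1 + δ) / 2 - 5 * ε1) ((1 + δ) / 2 - 4 * ε1) (by linarith)
  have ev10 := Pool.Agent.N792.Lam.pow_ev (32 / τ) (1 - δ + 2 * ε1) 1 (by linarith)
  have ev11 := Pool.Agent.N792.Lam.pow_ev (a.natAbs + 4) 0 ((1 + δ) / 2 - 5 * ε1) (by linarith)
  have ev12 := mert_up ((1 + δ) / 2 - 5 * ε1) (1 - δ + 2 * ε1) ε1 (by linarith) (by linarith) hε1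
  obtain ⟨xh, Hh⟩ := eventually_atTop.1 ((((((ev1.and ev2).and ev3).and ev9).and ev10).and ev11).and ev12)
  clear HI HB hη2' ev1 ev2 ev3 ev9 ev10 ev11 ev12
  refine ⟨xa + xb + xc + xg + xi + X0 + xh + 2, fun x hx b u v C hbC hxu huv hvx hC hCx => ?_⟩
  have hx2 : 2 ≤ x := by omega
  obtain ⟨⟨⟨⟨⟨⟨f1, f2⟩, f3⟩, f9⟩, f10⟩, f11⟩, f12⟩ := Hh x (by omega)
  have hx2r : (2 : ℝ) ≤ x := by exact_mod_cast hx2
  have hxp : (0 : ℝ) < x := by linarith only [hx2r]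
  have hx1' : (1 : ℝ) ≤ x := by linarith only [hx2r]
  have hx1 : (1 : ℝ) < x := by linarith only [hx2r]
  have hCp : (0 : ℝ) < C := lt_of_lt_of_le (by positivity) hC
  have hCx0 : (0 : ℝ) < C * x := by positivity
  rcases Nat.eq_or_lt_of_le (huv.trans hvx) with hux | hux
  · -- the empty window
    have hvu : v = u := by omega
    have e1 : ∑ c ∈ Icc 1 C, max 0 (|∑ n ∈ Ioc u v, lam (Fn a b n + c)| - κ0 * ((v : ℝ) - u)) = 0 := by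
      refine sum_eq_zero fun c _ => ?_
      rw [hvu, Ioc_self, sum_empty, abs_zero, sub_self, mul_zero, sub_zero, max_self]
    rw [e1]
    positivity
  have hbX : (b : ℝ) ^ 2 ≤ Λ * x := hbC.trans (mul_le_mul_of_nonneg_left (by exact_mod_cast hCx) (by linarith only [hΛ]))
  obtain ⟨hb2, hr1, hr2⟩ := hX0 x (by omega) b hbX u hux hxu
  have hbu : b.natAbs ≤ u := by omega
  rw [Real.rpow_zero, mul_one] at f1 f2
  rw [Real.rpow_one] at f10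
  rw [Real.rpow_zero, mul_one] at f11
  -- the level
  obtain ⟨J, hJ1, hJ2⟩ := Pool.Agent.N792.exists_level ((x : ℝ) ^ η) f1
  obtain ⟨z, hzd⟩ : ∃ z : ℕ, z = 2 ^ 2 ^ J := ⟨_, rfl⟩
  rw [← hzd] at hJ1 hJ2
  have hz1 : (x : ℝ) ^ (η / 2) ≤ z := by
    have h1 : ((x : ℝ) ^ (η / 2)) ^ 2 = (x : ℝ) ^ η := by
      rw [← Real.rpow_natCast, ← Real.rpow_mul hxp.le]; congr 1; push_cast; ring
    rw [← h1] at hJ2
    exact le_of_sq_le_sq hJ2 (by positivity)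
  have hwz : w ≤ z := by exact_mod_cast f2.trans hz1
  -- the number `s`
  obtain ⟨s, hsd⟩ : ∃ s : ℕ, s = ⌈(x : ℝ) ^ (1 - δ + ε1)⌉₊ := ⟨_, rfl⟩
  have hs1 : (x : ℝ) ^ (1 - δ + ε1) ≤ s := by rw [hsd]; exact Nat.le_ceil _
  have hs2 : (s : ℝ) ≤ (x : ℝ) ^ (1 - δ + 2 * ε1) := by
    have h3 : (s : ℝ) < (x : ℝ) ^ (1 - δ + ε1) + 1 := by rw [hsd]; exact Nat.ceil_lt_add_one (by positivity)
    have h4 : (1 : ℝ) ≤ (x : ℝ) ^ (1 - δ + ε1) := Real.one_le_rpow hx1' (by linarith only [hδ1, hε1])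
    linarith only [h3, h4, f3]
  have hsp : (0 : ℝ) ≤ s := Nat.cast_nonneg _
  have hCs : (x : ℝ) ^ (3 / 2 + ε') ≤ C * s := by
    calc (x : ℝ) ^ (3 / 2 + ε') ≤ (x : ℝ) ^ (3 / 2 + ε1) :=
          Real.rpow_le_rpow_of_exponent_le hx1' (by linarith only [hε'1, hε1])
      _ = (x : ℝ) ^ (1 / 2 + δ) * (x : ℝ) ^ (1 - δ + ε1) := by
          rw [← Real.rpow_add hxp]; congr 1; ring
      _ ≤ C * s := mul_le_mul hC hs1 (by positivity) hCp.le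
  have hs4 : (s : ℝ) ≤ (x : ℝ) ^ (1 - 3 * (ε1 / 2)) :=
    hs2.trans (Real.rpow_le_rpow_of_exponent_le hx1' (by linarith only [hε1c, hε1]))
  have hsε : (s : ℝ) * (x : ℝ) ^ ε' ≤ x := by
    calc (s : ℝ) * (x : ℝ) ^ ε' ≤ (x : ℝ) ^ (1 - δ + 2 * ε1) * (x : ℝ) ^ ε' :=
          mul_le_mul_of_nonneg_right hs2 (by positivity)
      _ = (x : ℝ) ^ (1 - δ + 2 * ε1 + ε') := (Real.rpow_add hxp _ _).symm
      _ ≤ (x : ℝ) ^ (1 : ℝ) := Real.rpow_le_rpow_of_exponent_le hx1' (by linarith only [hε'1, hε1, hε1c])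
      _ = x := Real.rpow_one _
  have hs14 : (x : ℝ) ^ (1 / 4 : ℝ) ≤ s :=
    (Real.rpow_le_rpow_of_exponent_le hx1' (by linarith only [hδ1, hε1])).trans hs1
  have hsx' : s ≤ x := by
    have h1 : (s : ℝ) ≤ x := by
      calc (s : ℝ) ≤ (x : ℝ) ^ (1 : ℝ) :=
            hs2.trans (Real.rpow_le_rpow_of_exponent_le hx1' (by linarith only [hε1, hε1c]))
        _ = x := Real.rpow_one _
    exact_mod_cast h1
  -- the number `U`
  obtain ⟨U, hUd⟩ : ∃ U : ℕ, U = ⌊(x : ℝ) ^ ((1 + δ) / 2 - 4 * ε1)⌋₊ := ⟨_, rfl⟩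
  have hU1 : (U : ℝ) ≤ (x : ℝ) ^ ((1 + δ) / 2 - 4 * ε1) := by rw [hUd]; exact Nat.floor_le (by positivity)
  have hU2 : (x : ℝ) ^ ((1 + δ) / 2 - 5 * ε1) ≤ U := by
    have h3 := Nat.lt_floor_add_one ((x : ℝ) ^ ((1 + δ) / 2 - 4 * ε1))
    rw [← hUd] at h3
    have h4 : (1 : ℝ) ≤ (x : ℝ) ^ ((1 + δ) / 2 - 5 * ε1) := Real.one_le_rpow hx1' (by linarith only [hδ, hε1a])
    linarith only [h3, h4, f9]
  have hUa : a.natAbs + 4 ≤ U := by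
    have h1 : ((a.natAbs : ℕ) : ℝ) + 4 ≤ U := f11.trans hU2
    exact_mod_cast h1
  have hU10 : (x : ℝ) ^ (1 / 10 : ℝ) ≤ U :=
    (Real.rpow_le_rpow_of_exponent_le hx1' (by linarith only [hδ, hε1a])).trans hU2
  have hUs : U ≤ s := by
    have : (U : ℝ) ≤ s := (hU1.trans (Real.rpow_le_rpow_of_exponent_le hx1' (by linarith only [hδ1, hε1]))).trans hs1
    exact_mod_cast this
  have hmert := f12 U s (by omega) hUs hU2 hs2
  -- the range of the values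
  have hv1 : ∀ c ∈ Icc 1 C, ∀ n ∈ Ioc u x, c0 * (x : ℝ) ^ 2 ≤ ((Fn a b n + c : ℕ) : ℝ) := by
    intro c hc n hn
    rw [mem_Ioc] at hn
    have h1 : Fn a b u ≤ Fn a b n := Pool.Agent.N792.Mtm.Fn_mono ha hbu hn.1.le
    have h2 : ((Fn a b u : ℕ) : ℝ) ≤ ((Fn a b n + c : ℕ) : ℝ) := by exact_mod_cast (by omega)
    linarith only [h2, hr1]
  have hv2 : ∀ c ∈ Icc 1 C, ∀ n ∈ Ioc u x, ((Fn a b n + c : ℕ) : ℝ) ≤ A * (x : ℝ) ^ 2 := by
    intro c hc n hn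
    rw [mem_Ioc] at hn
    rw [mem_Icc] at hc
    have h1 : Fn a b n ≤ Fn a b x := Pool.Agent.N792.Mtm.Fn_mono ha (hbu.trans hn.1.le) hn.2
    have h2 : ((Fn a b n + c : ℕ) : ℝ) ≤ ((Fn a b x : ℕ) : ℝ) + x := by
      have : Fn a b n + c ≤ Fn a b x + x := by omega
      exact_mod_cast this
    linarith only [h2, hr2]
  -- the parts
  obtain ⟨F1, hF10, hF11, hF12⟩ := Ha x (by omega) b u u C J s c1 κ hbX hbu le_rfl hux.le hxu hC hCx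
    (by rw [← hzd]; exact hz1) (by rw [← hzd]; exact hJ1) hs4
  obtain ⟨F2, hF20, hF21, hF22⟩ := Ha x (by omega) b u v C J s c1 κ hbX hbu huv hvx hxu hC hCx
    (by rw [← hzd]; exact hz1) (by rw [← hzd]; exact hJ1) hs4
  have hG1 := Hg x (by omega) b u u C s z c1 hbC le_rfl hux.le hxu hCs hC hCx hz1 hJ1
  have hG2 := Hg x (by omega) b u v C s z c1 hbC huv hvx hxu hCs hC hCx hz1 hJ1
  have hbad := Hb x (by omega) b u C s z hbX hux hxu hC hCx hz1 hJ1 hs14 hsε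
  have hbad' := (mul_le_mul_of_nonneg_left hbad hW.le).trans_eq (mul_assoc _ _ _).symm
  have hbad'' := hbad'.trans (mul_le_mul_of_nonneg_right hBall hCx0.le)
  have hDs := Hi x (by omega) b C U s hbX hC hCx hU10 hsx'
  rw [← hzd] at hF11 hF21
  have hs8 : (s : ℝ) ≤ τ / 32 * x := by
    have h1 : 32 / τ * (s : ℝ) ≤ x := (mul_le_mul_of_nonneg_left hs2 (by positivity)).trans f10
    have h2 : (s : ℝ) = τ / 32 * (32 / τ * s) := by field_simp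
    rw [h2]
    exact mul_le_mul_of_nonneg_left h1 (by positivity)
  -- one value of `c`
  have hone : ∀ c ∈ Icc 1 C, _ := fun c hc => oneC (fun n => lam (Fn a b n + c))
    (fun n => tIg κ x c1 w k s z ((x : ℝ) ^ (ε1 / 2)) (Fn a b n + c))
    (fun n => tIIg (PhiB κ (Real.log s / Real.log x) (1 - 2 * ε') c1) κ x z (Fn a b n + c))
    (fun n => (#(((Ioc U s).filter Nat.Prime).filter (fun p => p ∣ Fn a b n + c)) : ℝ))
    (fun n => GoodH w k s z x (M * x) ε' (2 * ε') ((x : ℝ) ^ (ε1 / 2)) (Fn a b n + c)) u v x κ0 (F1 c) (F2 c) W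
    |∑ m ∈ Ioc U s, (if m.Prime then (x : ℝ) / m else 0) * ((rho a b (c : ℕ) m : ℝ) - 1)| s
    (∑ p ∈ (Ioc U s).filter Nat.Prime, (1 : ℝ) / p) huv hvx hκ0p.le (fun n => (lam_abs _).le) (hF10 c) (hF20 c) hW.le
    (abs_nonneg _) hsp
    (by
      intro n hn
      have hnx : n ∈ Ioc u x := by
        rw [mem_Ioc] at hn ⊢
        omega
      have h1 := Hc x (by omega) s U z (Fn a b n + c) hs1 hs2 hU1 hwz hz1 (by have := (mem_Icc.1 hc).1; omega)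
        (hv1 c hc n hnx) (hv2 c hc n hnx)
      rw [← hWd] at h1
      exact h1)
    (cntP a ha b u v x c U s hbu huv hvx (by omega) (by omega))
    (by linarith only [hmert, hε1d]) (hF11 c hc) (hF21 c hc)
  refine (sum_le_sum hone).trans ?_
  rw [sum_add_distrib, sum_add_distrib, sum_add_distrib, sum_add_distrib, sum_add_distrib, sum_add_distrib, sum_const,
    nsmul_eq_mul, Nat.card_Icc, Nat.add_sub_cancel, ← mul_sum, ← mul_sum]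
  have g3 : (C : ℝ) * (3 * s) ≤ 3 * τ / 32 * (C * x) := by
    calc (C : ℝ) * (3 * s) ≤ C * (3 * (τ / 32 * x)) := by gcongr
      _ = 3 * τ / 32 * (C * x) := by ring
  have g5 : 0 < τ * (C * x) := by positivity
  linarith only [g3, g5, hF12, hF22, hG1, hG2, hbad'', hDs]

end Pool.Agent.H568
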