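import Mathlib
import Pool.Agent.H568.Qc3
import Pool.Agent.H568.Qa8

/-!
The final form of the mean values with the loss `(3/2) log (2 (1 - δ) / (1 + δ))`, for `C ≥ x^(1/2+δ)`.
-/

set_option autoImplicit false

namespace Pool.Agent.H568

open Finset Filter Topology
open Pool.Agent.N792.CH

/-- the loss depends continuously on `δ` -/
lemma lossB_cont {δ τ : ℝ} (hδ : 1 / 5 < δ) (hδ1 : δ ≤ 1 / 3) (hτ : 0 < τ) : ∃ δ' κ0 : ℝ, 1 / 5 < δ' ∧ δ' < δ ∧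
    lossB δ' < κ0 ∧ 0 ≤ κ0 ∧ κ0 ≤ lossB δ + τ / 4 := by
  obtain ⟨e, he⟩ : ∃ e : ℝ, e = min ((δ - 1 / 5) / 2) (τ / 64) := ⟨_, rfl⟩
  have he0 : 0 < e := by rw [he]; exact lt_min (by linarith) (by linarith)
  have he1 : e ≤ (δ - 1 / 5) / 2 := by rw [he]; exact min_le_left _ _
  have he2 : e ≤ τ / 64 := by rw [he]; exact min_le_right _ _
  have hpos := lossB_pos (δ := δ - e) (by linarith) (by linarith)
  refine ⟨δ - e, lossB (δ - e) + τ / 16, by linarith, by linarith, by linarith, by linarith, ?_⟩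
  unfold lossB
  have h1 : 0 < 1 - δ := by linarith
  have h2 : 0 < 1 + δ := by linarith
  have h3 : 0 < 1 - (δ - e) := by linarith
  have h4 : 0 < 1 + (δ - e) := by linarith
  rw [Real.log_div (by positivity) (by positivity), Real.log_div (by positivity) (by positivity),
    Real.log_mul (by norm_num) h3.ne', Real.log_mul (by norm_num) h1.ne']
  have h5 : Real.log (1 - (δ - e)) - Real.log (1 - δ) ≤ 3 / 2 * e := by
    rw [← Real.log_div h3.ne' h1.ne']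
    have h8 := Real.log_le_sub_one_of_pos (show 0 < (1 - (δ - e)) / (1 - δ) by positivity)
    have h9 : (1 - (δ - e)) / (1 - δ) - 1 ≤ 3 / 2 * e := by
      rw [sub_le_iff_le_add, div_le_iff₀ h1]
      nlinarith
    linarith
  have h6 : Real.log (1 + δ) - Real.log (1 + (δ - e)) ≤ e := by
    rw [← Real.log_div h2.ne' h4.ne']
    have h8 := Real.log_le_sub_one_of_pos (show 0 < (1 + δ) / (1 + (δ - e)) by positivity)
    have h9 : (1 + δ) / (1 + (δ - e)) - 1 ≤ e := by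
      rw [sub_le_iff_le_add, div_le_iff₀ h4]
      nlinarith
    linarith
  linarith

theorem finB1 (a : ℤ) (ha : a ≠ 0) (b : ℤ) (δ τ : ℝ) (Q : ℕ) (hδ : 1 / 5 < δ) (hδ1 : δ ≤ 1 / 3) (hτ : 0 < τ) :
    ∃ x0 : ℕ, ∀ x : ℕ, x0 ≤ x → ∀ C : ℕ, (x : ℝ) ^ (1 / 2 + δ) ≤ C → C ≤ x →
      ∃ Ex ⊆ Icc (-(C : ℤ)) C, (#Ex : ℝ) ≤ τ * C ∧ ∀ c ∈ Icc (-(C : ℤ)) C, c ∉ Ex →
        TwoB a Q (3 / 2 * Real.log (2 * (1 - δ) / (1 + δ))) (τ * x) x b c := by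
  obtain ⟨δ', κ0, h1, h2, h3, h4, h5⟩ := lossB_cont hδ hδ1 hτ
  obtain ⟨x0, h0⟩ := allK (1 / 2 + δ') κ0 (by linarith) h4
    (fun a ha Λ hΛ => mvB a ha Λ hΛ δ' κ0 h1 (by linarith) h3) a ha b (1 / 2 + δ) (τ / 4) Q
    (by linarith) (by linarith) (by positivity)
  refine ⟨x0 + 1, fun x hx C hC hCx => ?_⟩
  obtain ⟨Ex, p1, p2, p3⟩ := h0 x (by omega) C hC hCx
  refine ⟨Ex, p1, p2.trans (mul_le_mul_of_nonneg_right (by linarith) (Nat.cast_nonneg _)), fun c hc hcE => ?_⟩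
  exact twoB_loss (by omega) h5 hτ (p3 c hc hcE)

theorem finB2 (a : ℤ) (ha : a ≠ 0) (δ τ : ℝ) (Q : ℕ) (hδ : 1 / 5 < δ) (hδ1 : δ ≤ 1 / 3) (hτ : 0 < τ) :
    ∃ H0 : ℕ, ∀ H : ℕ, H0 ≤ H → ∀ N : ℕ, H ^ 2 ≤ N → (N : ℝ) ^ (1 / 2 + δ) ≤ (H : ℝ) ^ 2 →
      ∃ Ex ⊆ Icc (-(H : ℤ)) H ×ˢ Icc (-(H : ℤ)) H, (#Ex : ℝ) ≤ τ * H ^ 2 ∧
        ∀ p ∈ Icc (-(H : ℤ)) H ×ˢ Icc (-(H : ℤ)) H, p ∉ Ex →
          TwoB a Q (3 / 2 * Real.log (2 * (1 - δ) / (1 + δ))) (τ * N) N p.1 p.2 := by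
  obtain ⟨δ', κ0, h1, h2, h3, h4, h5⟩ := lossB_cont hδ hδ1 hτ
  obtain ⟨H0, h0⟩ := pairK (1 / 2 + δ') κ0 (by linarith) h4
    (fun a ha Λ hΛ => mvB a ha Λ hΛ δ' κ0 h1 (by linarith) h3) a ha (1 / 2 + δ) (τ / 4) Q
    (by linarith) (by linarith) (by positivity)
  refine ⟨H0 + 1, fun H hH N hHN hN => ?_⟩
  obtain ⟨Ex, p1, p2, p3⟩ := h0 H (by omega) N hHN hN
  refine ⟨Ex, p1, p2.trans (mul_le_mul_of_nonneg_right (by linarith) (by positivity)), fun c hc hcE => ?_⟩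
  have hN1 : 1 ≤ N := by
    have : 1 ≤ H ^ 2 := Nat.one_le_pow _ _ (by omega)
    omega
  exact twoB_loss hN1 h5 hτ (p3 c hc hcE)

end Pool.Agent.H568
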